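import Pool.Agent.PV.FunV

/-!
# Plan V: the power law of `F_N` with a positive constant (helper12)

* `SharpF F`: there are `C, c > 0` and `K` with `|F N - C N^(3/8)| ≤ K N^(3/8 - c)` for all `N ≥ 1`;
* **`sharpF_of`**: `FunHV C f Psi`, `E2V p Psi` with `p < 3/8`, `f N 0 = κ F N` (`κ > 0`, `F` real), and
  for every `ε > 0` infinitely many `M` with `M^(3/8-ε) ≤ F M`: then `SharpF F`.
-/

set_option autoImplicit false

noncomputable section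

open Complex Set Filter Topology

namespace PVF

/-- the sharp power law -/
def SharpF (F : ℕ → ℝ) : Prop := ∃ C : ℝ, 0 < C ∧ ∃ c : ℝ, 0 < c ∧ ∃ K : ℝ, ∀ N : ℕ, 1 ≤ N →
  |F N - C * (N : ℝ) ^ (3 / 8 : ℝ)| ≤ K * (N : ℝ) ^ (3 / 8 - c)

/-- from large sizes to all sizes -/
theorem all_of_ev {G : ℕ → ℝ} {e K : ℝ} (h : ∀ᶠ N : ℕ in atTop, |G N| ≤ K * (N : ℝ) ^ e) :
    ∃ K' : ℝ, 0 ≤ K' ∧ ∀ N : ℕ, 1 ≤ N → |G N| ≤ K' * (N : ℝ) ^ e := by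
  obtain ⟨N0, hN0⟩ := eventually_atTop.1 h
  set S : ℝ := ∑ N ∈ Finset.range N0, |G N| / (N : ℝ) ^ e with hS
  have hS0 : 0 ≤ S := Finset.sum_nonneg fun N _ => by positivity
  refine ⟨|K| + S, by positivity, fun N hN => ?_⟩
  have hN1 : (0 : ℝ) < N := by
    have : 0 < N := by omega
    exact_mod_cast this
  have hp : 0 < (N : ℝ) ^ e := Real.rpow_pos_of_pos hN1 _
  by_cases hlt : N < N0
  · have h1 : |G N| / (N : ℝ) ^ e ≤ S :=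
      Finset.single_le_sum (f := fun N : ℕ => |G N| / (N : ℝ) ^ e) (fun N _ => by positivity)
        (Finset.mem_range.2 hlt)
    rw [div_le_iff₀ hp] at h1
    have : 0 ≤ |K| * (N : ℝ) ^ e := by positivity
    linarith
  · have h1 := hN0 N (by omega)
    have h2 : K * (N : ℝ) ^ e ≤ |K| * (N : ℝ) ^ e := by
      gcongr
      exact le_abs_self _
    have : 0 ≤ S * (N : ℝ) ^ e := by positivity
    linarith

/-- the a priori bound, from windows -/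
theorem frequently_of_window {P : ℕ → Prop} {u : ℕ → ℕ} (hu : Tendsto u atTop atTop)
    (h : ∀ᶠ N : ℕ in atTop, ∃ M : ℕ, u N ≤ M ∧ P M) : ∃ᶠ M : ℕ in atTop, P M := by
  rw [Filter.frequently_atTop]
  intro a
  obtain ⟨N, h1, h2⟩ := (h.and (hu.eventually_ge_atTop a)).exists
  obtain ⟨M, hM, hP⟩ := h1
  exact ⟨M, h2.trans hM, hP⟩

variable {C : ℝ} {f : ℕ → ℂ → ℂ} {Psi : ℕ → ℂ → ℂ → ℂ}

/-- the limit constant is real and positive -/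
theorem const_real_pos {F : ℕ → ℝ} {g : ℂ} {κ p C' : ℝ} (hκ : 0 < κ) (hp : p < 3 / 8)
    (h : ∀ᶠ j : ℕ in atTop, ‖((κ * F j : ℝ) : ℂ) - g * (((j : ℝ) ^ (3 / 8 : ℝ) : ℝ) : ℂ)‖ ≤ C' * (j : ℝ) ^ p)
    (hlow : ∀ ε : ℝ, 0 < ε → ∃ᶠ j : ℕ in atTop, (j : ℝ) ^ (3 / 8 - ε) ≤ F j) :
    0 < g.re / κ ∧ ∀ᶠ j : ℕ in atTop, |F j - g.re / κ * (j : ℝ) ^ (3 / 8 : ℝ)| ≤ C' / κ * (j : ℝ) ^ p := by
  have h1 : ∀ᶠ j : ℕ in atTop, |F j - g.re / κ * (j : ℝ) ^ (3 / 8 : ℝ)| ≤ C' / κ * (j : ℝ) ^ p := by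
    filter_upwards [h] with j hj
    have e1 := (abs_re_le_norm _).trans hj
    rw [sub_re, ofReal_re, re_mul_ofReal] at e1
    have e2 : κ * F j - g.re * (j : ℝ) ^ (3 / 8 : ℝ) = κ * (F j - g.re / κ * (j : ℝ) ^ (3 / 8 : ℝ)) := by
      field_simp
    rw [e2, abs_mul, abs_of_pos hκ] at e1
    have e3 : C' / κ * (j : ℝ) ^ p = C' * (j : ℝ) ^ p / κ := by ring
    rw [e3, le_div_iff₀ hκ]
    linarith
  exact ⟨const_pos hp h1 hlow, h1⟩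

/-- **the sharp power law** -/
theorem sharpF_of {F : ℕ → ℝ} {κ p : ℝ} (hκ : 0 < κ) (h : FunHV C f Psi) (hp : p < 3 / 8)
    (hE : E2V p Psi) (hf : ∀ᶠ N : ℕ in atTop, f N 0 = ((κ * F N : ℝ) : ℂ))
    (hlow : ∀ ε : ℝ, 0 < ε → ∃ᶠ j : ℕ in atTop, (j : ℝ) ^ (3 / 8 - ε) ≤ F j) : SharpF F := by
  set p' : ℝ := max p 0 with hp'
  have hp0 : 0 ≤ p' := le_max_right _ _
  have hp1 : p' < 3 / 8 := max_lt hp (by norm_num)
  obtain ⟨g, C', hC', hg⟩ := funV h hp0 hp1 (hE.mono (le_max_left _ _))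
  have h1 : ∀ᶠ j : ℕ in atTop, ‖((κ * F j : ℝ) : ℂ) - g * (((j : ℝ) ^ (3 / 8 : ℝ) : ℝ) : ℂ)‖ ≤
      C' * (j : ℝ) ^ p' := by
    filter_upwards [hg, hf] with j a1 a2
    rw [← a2]
    exact a1 0 (by simpa using PBV.aL_pos.le) (by simp)
  obtain ⟨h2, h3⟩ := const_real_pos hκ hp1 h1 hlow
  obtain ⟨K', -, hK⟩ := all_of_ev h3
  refine ⟨g.re / κ, h2, 3 / 8 - p', by linarith, K', fun N hN => ?_⟩
  rw [show (3 / 8 : ℝ) - (3 / 8 - p') = p' by ring]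
  exact hK N hN

end PVF
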