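import Pool.Agent.NUCR.Target

/-!
# Plan V: the a priori lower bound (helper74)

`apr_low`: for every `e > 0` and all large `N` some `M`, `|M - N| ≤ log² N`, has
`N ^ (3/8 - e) ≤ ‖W_2 (1^M | 1^M)‖ / bulk M` (from TARGET-B: `NUI.lower_half` for the ratio `W_2 / W_0`, and
`NUQ.denLow` for `W_0 / bulk`).
`apr_up`: `‖W_2 (1^M | 1^M)‖ ≤ C M ^ (3/8 + e) bulk M`.
-/

set_option autoImplicit false

noncomputable section

open Filter Topology Polynomial

namespace PVA

open Pool.Agent.NUF NUI HexObs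

/-- the modulus of the disc function at loop weight `2`, relative to the bulk -/
def R2 (M : ℕ) : ℝ := ‖(near_WW 2).Wd (List.replicate M 1) (List.replicate M 1)‖ / bulk M

theorem R2_nonneg (M : ℕ) : 0 ≤ R2 M := div_nonneg (norm_nonneg _) (bulk_pos M).le

/-- the lower bound of the ratio `W_2 / W_0` -/
theorem half_low : ∀ δ > 0, ∀ᶠ m : ℕ in atTop, ∃ T : ℕ, 2 * T ≤ m + NN m ∧ m ≤ 2 * T + NN m ∧
    Real.exp ((1 / 6 - δ) * Real.log m) ≤ ‖ZZ 2 (2 * T)‖ := by
  have hc : 0 < 2 / (3 * Real.pi ^ 2) := by positivity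
  have hcpi : 2 / (3 * Real.pi ^ 2) * (Real.pi ^ 2 / 4) = 1 / 6 := by
    field_simp; norm_num
  have hP0 : ∀ n, (ZP n).eval 0 = 1 := by
    intro n
    have h1 := ZP_eq 0 n
    have h2 : ZZ 0 n = 1 := div_self (Wd_ne n)
    rw [h2] at h1
    have h3 : aeval (0 : ℂ) (ZP n) = (((ZP n).eval 0 : ℝ) : ℂ) := by
      simpa using (Polynomial.aeval_algebraMap_apply ℂ (0 : ℝ) (ZP n))
    rw [h3] at h1
    exact_mod_cast h1.symm
  have hP2 : ∀ n, ‖ZZ 2 n‖ = (ZP n).eval 2 := by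
    intro n
    rw [ZP_eq]
    have h3 : aeval (2 : ℂ) (ZP n) = (((ZP n).eval 2 : ℝ) : ℂ) := by
      simpa using (Polynomial.aeval_algebraMap_apply ℂ (2 : ℝ) (ZP n))
    rw [h3, Complex.norm_real, Real.norm_eq_abs, abs_of_nonneg]
    rw [Polynomial.eval_eq_sum_range]
    exact Finset.sum_nonneg fun i _ => mul_nonneg (ZP_nonneg _ _) (by positivity)
  have hlow := lower_half (κ := fun n => W0 n / Real.exp (qA * (n : ℝ) ^ 2 + qB * n)) hc
    (R := 17 / 10) (by have := Real.pi_lt_d2; linarith) le_rfl ZP_nonneg hP0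
    (fun n => div_pos (W0_pos n) (Real.exp_pos _))
    (fun ε hε => by
      have := kappa_low ε hε
      have e : (3 / 8 : ℝ) - 2 / (3 * Real.pi ^ 2) * (Real.pi ^ 2 / 4) - ε = 5 / 24 - ε := by
        rw [hcpi]; ring
      simpa only [e] using this) (growth_of_CR NUCR.target)
  intro δ hδ
  filter_upwards [hlow δ hδ] with m hm
  obtain ⟨T, h1, h2, h3⟩ := hm
  rw [hcpi, ← hP2] at h3
  exact ⟨T, h1, h2, h3⟩

theorem logN_tt : Tendsto (fun m : ℕ => Real.log m) atTop atTop :=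
  Real.tendsto_log_atTop.comp tendsto_natCast_atTop_atTop

/-- `2 log² N ≤ N` eventually -/
theorem two_sq_le : ∀ᶠ m : ℕ in atTop, 2 * (Real.log m) ^ 2 ≤ m := by
  have h1 : (fun x : ℝ => Real.log x ^ 2) =o[atTop] fun x => x := by
    simpa [Function.id_def] using Real.isLittleO_pow_log_id_atTop (n := 2)
  have h2 := (h1.comp_tendsto tendsto_natCast_atTop_atTop).def (c := 1 / 2) (by norm_num)
  filter_upwards [h2] with m hm
  simp only [Function.comp, Real.norm_eq_abs] at hm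
  rw [abs_of_nonneg (sq_nonneg _), abs_of_nonneg (Nat.cast_nonneg _)] at hm
  linarith

/-- **the a priori lower bound** -/
theorem apr_low {e : ℝ} (he : 0 < e) : ∀ᶠ N : ℕ in atTop, ∃ M : ℕ, 1 ≤ M ∧
    |(M : ℝ) - N| ≤ Real.log N ^ 2 ∧ (N : ℝ) ^ (3 / 8 - e) ≤ R2 M := by
  set d : ℝ := min (e / 4) (1 / 24) with hd
  have hd0 : 0 < d := lt_min (by positivity) (by norm_num)
  have hd1 : d ≤ e / 4 := min_le_left _ _
  have hd2 : d ≤ 1 / 24 := min_le_right _ _
  obtain ⟨M0, hM0⟩ := eventually_atTop.1 (kappa_low d hd0)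
  filter_upwards [half_low d hd0, two_sq_le, eventually_ge_atTop (2 * M0 + 2),
    logN_tt.eventually_ge_atTop (1 / d)] with N hN hsq hge hL
  obtain ⟨T, h1, h2, h3⟩ := hN
  have hN0 : (0 : ℝ) < N := by
    have : 0 < N := by omega
    exact_mod_cast this
  have hNN := NN_le N
  have h1' : (2 * T : ℝ) ≤ N + Real.log N ^ 2 := by
    have : ((2 * T : ℕ) : ℝ) ≤ ((N + NN N : ℕ) : ℝ) := by exact_mod_cast h1
    push_cast at this
    linarith
  have h2' : (N : ℝ) - Real.log N ^ 2 ≤ 2 * T := by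
    have : ((N : ℕ) : ℝ) ≤ ((2 * T + NN N : ℕ) : ℝ) := by exact_mod_cast h2
    push_cast at this
    linarith
  have h4 : (N : ℝ) / 2 ≤ 2 * T := by linarith
  have h5 : M0 + 1 ≤ 2 * T := by
    have h6 : ((2 * M0 + 2 : ℕ) : ℝ) ≤ N := by exact_mod_cast hge
    push_cast at h6
    have h7 : ((M0 + 1 : ℕ) : ℝ) ≤ ((2 * T : ℕ) : ℝ) := by push_cast; linarith
    exact_mod_cast h7
  refine ⟨2 * T, by omega, ?_, ?_⟩
  · push_cast
    rw [abs_le]
    constructor <;> linarith
  · have hk := hM0 (2 * T) (by omega)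
    rw [← bulk_exp] at hk
    have hL2 : Real.log N - Real.log 2 ≤ Real.log ((2 * T : ℕ) : ℝ) := by
      rw [← Real.log_div hN0.ne' (by norm_num)]
      refine Real.log_le_log (by positivity) ?_
      push_cast
      exact h4
    have hlog2 : Real.log 2 ≤ 1 := by
      have := Real.log_two_lt_d9
      linarith
    have hdL : 1 ≤ d * Real.log N := by
      rw [div_le_iff₀ hd0] at hL
      linarith
    have h8 : Real.exp ((5 / 24 - d) * (Real.log N - 1)) ≤ W0 (2 * T) / bulk (2 * T) := by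
      refine le_trans (Real.exp_le_exp.2 ?_) hk
      refine mul_le_mul_of_nonneg_left ?_ (by linarith)
      linarith
    have h9 : R2 (2 * T) = ‖ZZ 2 (2 * T)‖ * (W0 (2 * T) / bulk (2 * T)) := by
      unfold R2
      rw [ZZ, norm_div, W0]
      have h10 : ‖(near_WW 0).Wd (List.replicate (2 * T) 1) (List.replicate (2 * T) 1)‖ ≠ 0 :=
        norm_ne_zero_iff.2 (Wd_ne _)
      have h11 := (bulk_pos (2 * T)).ne'
      field_simp
    rw [h9]
    calc (N : ℝ) ^ (3 / 8 - e) = Real.exp ((3 / 8 - e) * Real.log N) := by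
          rw [Real.rpow_def_of_pos hN0]
          congr 1
          ring
      _ ≤ Real.exp ((1 / 6 - d) * Real.log N) * Real.exp ((5 / 24 - d) * (Real.log N - 1)) := by
          rw [← Real.exp_add]
          refine Real.exp_le_exp.2 ?_
          nlinarith
      _ ≤ _ := mul_le_mul h3 h8 (Real.exp_pos _).le (norm_nonneg _)

/-- the upper bound (landed `NumUp`) -/
theorem apr_up {e : ℝ} (he : 0 < e) : ∃ C : ℝ, ∀ M : ℕ, 1 ≤ M → R2 M ≤ C * (M : ℝ) ^ (3 / 8 + e) := by
  obtain ⟨C, hC⟩ := NUI.numUp_of_target NUCR.target e he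
  refine ⟨C, fun M hM => ?_⟩
  unfold R2
  rw [div_le_iff₀ (bulk_pos M)]
  exact hC M hM

/-- `Z_M(2) / Z_M(0)` is real, at least `1` -/
theorem ZZ_real (M : ℕ) : ZZ 2 M = (((ZP M).eval 2 : ℝ) : ℂ) := by
  rw [ZP_eq]
  simpa using (Polynomial.aeval_algebraMap_apply ℂ (2 : ℝ) (ZP M))

theorem ZP_pos (M : ℕ) : 0 ≤ (ZP M).eval 2 := by
  rw [Polynomial.eval_eq_sum_range]
  exact Finset.sum_nonneg fun i _ => mul_nonneg (ZP_nonneg _ _) (by positivity)

/-- `R2 M` in the literal form of `FNval` -/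
theorem R2_eq (M : ℕ) : R2 M = W0 M * (ZZ 2 M).re / bulk M := by
  have h1 : ‖ZZ 2 M‖ = (ZZ 2 M).re := by
    rw [ZZ_real, Complex.norm_real, Complex.ofReal_re, Real.norm_eq_abs, abs_of_nonneg (ZP_pos M)]
  rw [← h1]
  unfold R2
  rw [ZZ, norm_div, W0]
  have h10 : ‖(near_WW 0).Wd (List.replicate M 1) (List.replicate M 1)‖ ≠ 0 :=
    norm_ne_zero_iff.2 (Wd_ne _)
  field_simp

/-- **the a priori lower bound along infinitely many `M`** (last hypothesis of `PV.sharpF_V`) -/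
theorem apr_freq (e : ℝ) (he : 0 < e) : ∃ᶠ M : ℕ in atTop,
    (M : ℝ) ^ (3 / 8 - e) ≤ W0 M * (ZZ 2 M).re / bulk M := by
  set d : ℝ := min (e / 2) (1 / 8) with hd
  have hd0 : 0 < d := lt_min (by positivity) (by norm_num)
  have hd1 : d ≤ e / 2 := min_le_left _ _
  have hd2 : d ≤ 1 / 8 := min_le_right _ _
  rw [Filter.frequently_atTop]
  intro a
  obtain ⟨N, ⟨⟨M, h1, h2, h3⟩, hsq⟩, hge, hL⟩ := (((apr_low hd0).and two_sq_le).and
    ((eventually_ge_atTop (2 * a + 2)).and (logN_tt.eventually_ge_atTop (1 / d)))).exists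
  have hN0 : (0 : ℝ) < N := by
    have : 0 < N := by omega
    exact_mod_cast this
  rw [abs_le] at h2
  have hM1 : (N : ℝ) / 2 ≤ M := by linarith [h2.1]
  have hM2 : (M : ℝ) ≤ 2 * N := by linarith [h2.2]
  have hM0 : (0 : ℝ) < M := by exact_mod_cast h1
  have haM : a ≤ M := by
    have h6 : ((2 * a + 2 : ℕ) : ℝ) ≤ N := by exact_mod_cast hge
    push_cast at h6
    have h7 : (a : ℝ) ≤ M := by linarith
    exact_mod_cast h7
  refine ⟨M, haM, ?_⟩
  rw [← R2_eq]
  refine le_trans ?_ h3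
  have hdL : 1 ≤ d * Real.log N := by
    rw [div_le_iff₀ hd0] at hL
    linarith
  rcases le_or_gt (3 / 8 - e) 0 with hneg | hpos
  · -- nonpositive exponent
    calc (M : ℝ) ^ (3 / 8 - e) ≤ (M : ℝ) ^ (0 : ℝ) :=
          Real.rpow_le_rpow_of_exponent_le (by exact_mod_cast h1) hneg
      _ = (N : ℝ) ^ (0 : ℝ) := by rw [Real.rpow_zero, Real.rpow_zero]
      _ ≤ (N : ℝ) ^ (3 / 8 - d) :=
          Real.rpow_le_rpow_of_exponent_le (by
            have : 1 ≤ N := by omega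
            exact_mod_cast this) (by linarith)
  · have hl2 : Real.log 2 ≤ 1 := by
      have := Real.log_two_lt_d9
      linarith
    have hlM : Real.log M ≤ Real.log N + 1 := by
      calc Real.log M ≤ Real.log (2 * N) := Real.log_le_log hM0 hM2
        _ = Real.log 2 + Real.log N := Real.log_mul (by norm_num) hN0.ne'
        _ ≤ _ := by linarith
    rw [Real.rpow_def_of_pos hM0, Real.rpow_def_of_pos hN0]
    refine Real.exp_le_exp.2 ?_
    have h8 : Real.log M * (3 / 8 - e) ≤ (Real.log N + 1) * (3 / 8 - e) :=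
      mul_le_mul_of_nonneg_right hlM hpos.le
    have h9 : (Real.log N + 1) * (3 / 8 - e) ≤ (Real.log N + 1) * (3 / 8 - 2 * d) :=
      mul_le_mul_of_nonneg_left (by linarith) (by nlinarith)
    nlinarith

end PVA

end
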