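import Pool.Agent.PB.NzD
import Pool.Agent.NUP1.Closed
import Pool.Agent.NUP1.ExactW

/-!
# Plan V: the disc function at equal points is a state sum without legs (helper4)

* `DS_sgn`, `DS_cn`: the sign of the constants in the state sum is irrelevant;
* `N_DS`: the charge sum of the literal disc function at distinct imaginary rows = state sum, spectator `1`;
* **`Wd_DZ`**: `(near_WW (om + om⁻¹)).Wd 1^m 1^m = A0 ^ 2 * ∑ n ≤ 2 m, om ^ (m - n) * DZ (cn m) (cn m) 1 1 0 0 n`;
* **`Wd_two`**: `om = 1`, with the value of the constant.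
-/

set_option autoImplicit false
set_option linter.unusedSectionVars false

noncomputable section

open Complex Filter Topology

namespace PVN

open NUP1 (l St sta nq qu crq)
open NUP1.Mu (E Apre et hrow Gn Gc Gn_im Gc_re rw0 rw0_re rw0_inj E_rw0 tendsto_rw0 tendsto_pt_rw0
  four_sin_sq sin1_ne hrow_eq XG_eq_crq N_eq_sum)
open NUP1.ExM (A0 A0_sq)
open PBX (DZ DS Rws SpA)
open Pool.Agent.PB (cn cn_succ)

variable {m : ℕ}

/-- the spectator `1` -/
theorem SpA_one : SpA fun _ => (1 : ℂ) where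
  meas := measurable_const
  diff := fun _ _ _ => differentiableAt_const _
  gr := NUP1.Gr.const 1

/-- a constant factor of the one body function -/
theorem sta_smul (k : ℂ) (x : Fin m → ℂ) (h : ℂ → ℂ) (a : Fin m → SignType) :
    sta x (fun u => h u * k) a = sta x h a * k ^ (∑ i, nq (a i)) := by
  rw [NUP1.sta_mul]
  congr 1
  rw [← Finset.prod_pow_eq_pow_sum]
  refine Finset.prod_congr rfl fun i _ => ?_
  rw [← NUP1.qu_length (a i) (x i)]
  simp

/-- the sign of the constants is irrelevant -/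
theorem DS_sgn (c c' : ℂ) (s t : ℂ → ℂ) (x y : Fin m → ℂ) (n : ℕ) :
    DS (-c) (-c') s t x y n = DS c c' s t x y n := by
  have e : ∀ (c : ℂ) (s : ℂ → ℂ) (x y : Fin m → ℂ), (fun u => NUP1.Leg.hr (-c) x y u * s u) =
      fun u => NUP1.Leg.hr c x y u * s u * (-1 : ℂ) := by
    intro c s x y
    funext u
    unfold NUP1.Leg.hr
    ring
  unfold PBX.DS
  refine Finset.sum_congr rfl fun a ha => Finset.sum_congr rfl fun b hb => ?_
  rw [e, e, sta_smul, sta_smul, (Finset.mem_filter.1 ha).2, (Finset.mem_filter.1 hb).2]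
  have : ((-1 : ℂ) ^ n) * (-1) ^ n = 1 := by
    rw [← mul_pow]
    simp
  linear_combination (sta x (fun u => NUP1.Leg.hr c x y u * s u) a *
    sta y (fun v => NUP1.Leg.hr c' y x v * t v) b * crq x y a b) * this

theorem DS_cn (k : ℕ) (s t : ℂ → ℂ) (x y : Fin m → ℂ) (n : ℕ) :
    DS (cn k) (cn k) s t x y n = DS (-(sin (2 * l) / sin l)) (-(sin (2 * l) / sin l)) s t x y n := by
  induction k with
  | zero =>
    rw [DS_sgn]
    simp [cn]
  | succ k ih => rw [cn_succ, DS_sgn, ih]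

/-- the charge sum at generic rows is the state sum without legs -/
theorem N_DS (om : ℂ) {x y : Fin m → ℂ} (hx : ∀ i j, i ≠ j → Gn (x i - x j))
    (hy : ∀ i j, i ≠ j → Gn (y i - y j)) (hxy : ∀ i j, Gc (x i - y j)) :
    NUGas.N et (2 * sin l) om (List.ofFn fun i => E (x i)) (List.ofFn fun i => E (y i)) =
      Apre (2 * sin l) x * Apre (2 * sin l) y * ∑ n ∈ Finset.range (2 * m + 1),
        om ^ ((m : ℤ) - n) * DS (cn m) (cn m) (fun _ => 1) (fun _ => 1) x y n := by
  have s1 := sin1_ne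
  rw [N_eq_sum (σ := 2 * sin l) (mul_ne_zero two_ne_zero s1) (by ring) om x y hx hy hxy]
  congr 1
  refine Finset.sum_congr rfl fun n _ => ?_
  congr 1
  rw [DS_cn]
  have hh : ∀ u v : Fin m → ℂ, (fun w => NUP1.Leg.hr (-(sin (2 * l) / sin l)) u v w * 1) =
      hrow (2 * sin l) u v := by
    intro u v
    rw [hrow_eq]
    funext w
    unfold NUP1.Leg.hr NUP1.hh
    have : -2 * sin (2 * (l : ℂ)) / (2 * sin l) = -(sin (2 * l) / sin l) := by
      field_simp
    rw [this]
    ring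
  unfold PBX.DS St
  rw [hh, hh, Finset.sum_filter]
  refine Finset.sum_congr rfl fun a _ => ?_
  split_ifs with ha
  · rw [Finset.mul_sum, Finset.sum_filter]
    refine Finset.sum_congr rfl fun b _ => ?_
    split_ifs with hb
    · rw [XG_eq_crq]
      ring
    · ring
  · rfl

theorem rws_of_re {x : Fin m → ℂ} (h : ∀ i, (x i).re = 0) : Rws x := fun i => by
  have := NUP1.lpos
  rw [h i, abs_zero]
  positivity

/-- **the literal disc function at equal points is a state sum without legs** -/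
theorem Wd_DZ {om : ℂ} (hom : om ≠ 0) (m : ℕ) :
    (Pool.Agent.NUF.near_WW (om + om⁻¹)).Wd (List.replicate m 1) (List.replicate m 1) =
      A0 (2 * sin l) m * A0 (2 * sin l) m * ∑ n ∈ Finset.range (2 * m + 1),
        om ^ ((m : ℤ) - n) * DZ (cn m) (cn m) (fun _ => 1) (fun _ => 1) (fun _ : Fin m => 0)
          (fun _ => 0) n := by
  have hW := (Pool.Agent.NUF.near_WW (om + om⁻¹)).Wd_tendsto
    (x := fun ε : ℝ => List.ofFn fun i => E (rw0 m ε i)) (y := fun ε : ℝ => List.ofFn fun i => E (rw0 m ε i))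
    (x₀ := List.replicate m 1) (y₀ := List.replicate m 1) (l := 𝓝[>] 0)
    (fun ε => by rw [List.length_ofFn, List.length_replicate])
    (fun ε => by rw [List.length_ofFn, List.length_replicate]) (tendsto_pt_rw0 m)
  have hx := tendsto_rw0 m
  have hxi : ∀ i, Tendsto (fun ε : ℝ => rw0 m ε i) (𝓝[>] 0) (𝓝 0) := fun i =>
    (tendsto_pi_nhds.1 hx) i
  have hA := NUP1.Mu.tendsto_Apre (2 * sin l) hx
  have r0 : ∀ ε : ℝ, Rws (rw0 m ε) := fun ε => rws_of_re fun i => rw0_re m ε i
  have hZ : ∀ n, Tendsto (fun ε : ℝ => DZ (cn m) (cn m) (fun _ => 1) (fun _ => 1) (rw0 m ε) (rw0 m ε) n)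
      (𝓝[>] 0) (𝓝 (DZ (cn m) (cn m) (fun _ => 1) (fun _ => 1) (fun _ : Fin m => 0) (fun _ => 0) n)) := by
    intro n
    refine PBX.DZ_tendsto (R := m) (D := 1) (cn m) (cn m) ?_ (rws_of_re fun _ => rfl)
      (rws_of_re fun _ => rfl) hxi hxi zero_le_one ?_ (fun _ _ => tendsto_const_nhds)
      (fun _ _ => tendsto_const_nhds) n
    · have hle : ∀ᶠ e : ℝ in 𝓝[>] 0, e ≤ 1 := nhdsWithin_le_nhds (eventually_le_nhds one_pos)
      filter_upwards [hle, self_mem_nhdsWithin] with ε h1 h0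
      have hε : (0 : ℝ) < ε := h0
      have hb : ∀ i : Fin m, |(rw0 m ε i).im| ≤ m := by
        intro i
        have e : (rw0 m ε i).im = -(ε * (i : ℕ)) := by
          unfold rw0
          simp
        rw [e, abs_neg, abs_of_nonneg (by positivity)]
        have hi : ((i : ℕ) : ℝ) ≤ m := by exact_mod_cast i.2.le
        calc ε * ((i : ℕ) : ℝ) ≤ 1 * m := mul_le_mul h1 hi (by positivity) zero_le_one
          _ = m := one_mul _
      exact ⟨r0 ε, r0 ε, hb, hb⟩
    · exact Eventually.of_forall fun _ => ⟨measurable_const, measurable_const, fun _ _ => by simp⟩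
  have hR : Tendsto (fun ε : ℝ => Apre (2 * sin l) (rw0 m ε) * Apre (2 * sin l) (rw0 m ε) *
      ∑ n ∈ Finset.range (2 * m + 1), om ^ ((m : ℤ) - n) *
        DZ (cn m) (cn m) (fun _ => 1) (fun _ => 1) (rw0 m ε) (rw0 m ε) n) (𝓝[>] 0)
      (𝓝 (Apre (2 * sin l) (fun _ : Fin m => 0) * Apre (2 * sin l) (fun _ : Fin m => 0) *
        ∑ n ∈ Finset.range (2 * m + 1), om ^ ((m : ℤ) - n) *
        DZ (cn m) (cn m) (fun _ => 1) (fun _ => 1) (fun _ : Fin m => 0) (fun _ => 0) n)) :=
    (hA.mul hA).mul (tendsto_finsetSum _ fun n _ => (hZ n).const_mul _)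
  refine tendsto_nhds_unique hW (hR.congr' ?_)
  filter_upwards [self_mem_nhdsWithin] with ε hε
  have hε' : (0 : ℝ) < ε := hε
  have hi := rw0_inj m hε'
  have him : ∀ i j, i ≠ j → (rw0 m ε i).im ≠ (rw0 m ε j).im := by
    intro i j hij h
    apply hij
    apply hi
    apply Complex.ext
    · rw [rw0_re, rw0_re]
    · exact h
  have gn : ∀ i j, i ≠ j → Gn (rw0 m ε i - rw0 m ε j) := fun i j hij =>
    Gn_im (by rw [sub_im]; exact sub_ne_zero.2 (him i j hij))
  have gc : ∀ i j, Gc (rw0 m ε i - rw0 m ε j) := fun i j =>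
    Gc_re (by rw [sub_re, rw0_re, rw0_re, sub_zero])
  have hDS : ∀ n, DZ (cn m) (cn m) (fun _ => 1) (fun _ => 1) (rw0 m ε) (rw0 m ε) n =
      DS (cn m) (cn m) (fun _ => 1) (fun _ => 1) (rw0 m ε) (rw0 m ε) n := fun n =>
    PBX.DZ_eq him him (r0 ε) (r0 ε) SpA_one SpA_one n
  simp only [hDS]
  rw [← N_DS om gn gn gc]
  have hg : NUGas.Gen NUMv.eta (List.ofFn fun i => E (rw0 m ε i)) := by
    apply NUMv.gen_pos
    · intro z hz
      obtain ⟨i, rfl⟩ := List.mem_ofFn.1 hz
      rw [E_rw0]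
      exact ⟨_, Real.exp_pos _, rfl⟩
    · rw [List.nodup_ofFn]
      intro i j hij
      simp only [E_rw0] at hij
      have h4 : Real.exp (2 * (ε * (i : ℕ))) = Real.exp (2 * (ε * (j : ℕ))) := Complex.ofReal_injective hij
      have h5 := Real.exp_injective h4
      have h6 : ε * ((i : ℕ) : ℝ) = ε * ((j : ℕ) : ℝ) := by linarith
      have h7 := mul_left_cancel₀ hε'.ne' h6
      exact Fin.ext (by exact_mod_cast h7)
  rw [NUP1.Mu.et_eta]
  exact (Pool.Agent.NUF.Wd_formula (by rw [← four_sin_sq]; ring) hom hg hg).symm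

/-- loop weight `2` -/
theorem Wd_two (m : ℕ) :
    (Pool.Agent.NUF.near_WW 2).Wd (List.replicate m 1) (List.replicate m 1) =
      (2 - NUMv.rt) ^ m * (4 + 2 * NUMv.rt) ^ (m * (m - 1)) * ∑ n ∈ Finset.range (2 * m + 1),
        DZ (cn m) (cn m) (fun _ => 1) (fun _ => 1) (fun _ : Fin m => 0) (fun _ => 0) n := by
  have h := Wd_DZ (om := 1) one_ne_zero m
  rw [A0_sq (by rw [← four_sin_sq]; ring)] at h
  rw [show (1 : ℂ) + 1⁻¹ = 2 by norm_num] at h
  rw [h]
  congr 1
  refine Finset.sum_congr rfl fun n _ => ?_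
  rw [one_zpow, one_mul]

end PVN

end
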