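import Pool.Agent.PV.XvE
import Pool.Agent.PV.WdDZ
import Pool.Agent.PV.AprV
import Pool.Agent.NUQ.DenL

/-!
# Plan V: the value of the function without legs (helper96, on helper4's `Wd_two`, helper74's `AprV`)

* `DZ_self`: legs and anti-legs at the same point cancel;
* **`FN_val`**: `FN N = W0 N * (ZZ 2 N).re / bulk N`, every `N`.
-/

set_option autoImplicit false
set_option linter.unusedSectionVars false

noncomputable section

open Complex Filter Topology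

namespace PV

open NUP1 (l lpos St sta nq qu crq)
open PBX (DZ DS Rws SpA pull pull_Rws pull_tendsto pull_lim Lg GOk)
open PBR (rh rh_zero r2 rh_ne_zero)
open Pool.Agent.PB

variable {m : ℕ}

/-- legs and anti-legs at the same point cancel -/
theorem LV_self {z u : ℂ} (h1 : sin (z - u - 3 * l) ≠ 0) (h2 : sin (z - u + 2 * l) ≠ 0) :
    LV z z u = 1 := by
  unfold LV
  rw [← PVS.LgV_eq]
  unfold PVS.LgV
  exact div_self (div_ne_zero h1 h2)

theorem LV_zero_row {v : ℂ} (hv : |v.re| ≤ l / 2) : LV 0 0 v = 1 ∧ LV 0 0 (v - l) = 1 := by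
  have hl := lpos
  have h8 : 8 * l = Real.pi := by unfold NUP1.l; ring
  obtain ⟨h1, h2⟩ := abs_le.1 hv
  have k : ∀ w : ℂ, -Real.pi < w.re → w.re < 0 → sin w ≠ 0 := fun w a b =>
    NUP1.Bd.sin_ne_zero_of_re (Real.sin_neg_of_neg_of_neg_pi_lt b a).ne
  have k' : ∀ w : ℂ, 0 < w.re → w.re < Real.pi → sin w ≠ 0 := fun w a b =>
    NUP1.Bd.sin_ne_zero_of_re (Real.sin_pos_of_pos_of_lt_pi a b).ne'
  refine ⟨LV_self (k _ ?_ ?_) (k' _ ?_ ?_), LV_self (k _ ?_ ?_) (k' _ ?_ ?_)⟩ <;>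
    simp <;> linarith

theorem DS_self {x y : Fin m → ℂ} (hx : Rws x) (hy : Rws y) (c c' : ℂ) (n : ℕ) :
    PBX.DS c c' (LV 0 0) (LV 0 0) x y n = PBX.DS c c' (fun _ => 1) (fun _ => 1) x y n := by
  have key : ∀ {x : Fin m → ℂ} (h : ℂ → ℂ) (a : Fin m → SignType), Rws x →
      sta x (fun u => h u * LV 0 0 u) a = sta x (fun u => h u * 1) a := by
    intro x h a hx
    have e : ∏ i, ((qu (a i) (x i)).map (LV 0 0)).prod = 1 := by
      refine Finset.prod_eq_one fun i _ => ?_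
      obtain ⟨h1, h2⟩ := LV_zero_row (hx i)
      rcases a i with _ | _ | _ <;> simp [NUP1.qu, h1, h2]
    have e1 := NUP1.sta_mul x h (LV 0 0) a
    simp only [mul_one]
    rw [e1, e, mul_one]
  unfold PBX.DS
  refine Finset.sum_congr rfl fun a _ => Finset.sum_congr rfl fun b _ => ?_
  rw [key _ a hx, key _ b hy]

/-- **no legs at the same point** -/
theorem DZ_self {x y : Fin m → ℂ} (hx : Rws x) (hy : Rws y) (c c' : ℂ) (n : ℕ) :
    DZ c c' (LV 0 0) (LV 0 0) x y n = DZ c c' (fun _ => 1) (fun _ => 1) x y n := by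
  have hl := lpos
  have hs : SpA (LV 0 0) := LV_SpA (z := 0) (z' := 0) ⟨by simp; linarith, by simp; linarith⟩
    (by simp; linarith)
  have t1 := pull_lim (c := c) (c' := c') (β := 4 / 3) (by norm_num) le_rfl hx hy (GOk.one _)
    (GOk.one _) hs hs n
  have t2 := pull_lim (c := c) (c' := c') (β := 4 / 3) (by norm_num) le_rfl hx hy (GOk.one _)
    (GOk.one _) PVN.SpA_one PVN.SpA_one n
  refine tendsto_nhds_unique t1 (t2.congr' ?_)
  exact Eventually.of_forall fun e => (DS_self (pull_Rws hx e) (pull_Rws hy e) c c' n).symm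

/-- `4 sin² l = 2 - √2` -/
theorem four_sq : 4 * sin (l : ℂ) ^ 2 = 2 - r2 := by
  have h4 : (2 : ℂ) * l = Real.pi / 4 := by unfold NUP1.l; push_cast; ring
  have h2 : 2 * cos (l : ℂ) ^ 2 - 1 = r2 / 2 := by
    rw [← Complex.cos_two_mul, h4, PBR.cos_pi4]
  have h3 := Complex.sin_sq_add_cos_sq (l : ℂ)
  linear_combination 4 * h3 - 2 * h2

theorem P_const (n : ℕ) (c : ℂ) : NUP1.Grand.P (fun _ _ : Fin (n + 1) => c) =
    c ^ n * NUP1.Grand.P (fun _ _ : Fin n => c) := by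
  unfold NUP1.Grand.P
  rw [Fin.prod_univ_succ]
  congr 1
  · rw [Fin.prod_univ_succ]
    simp
  · refine Finset.prod_congr rfl fun a _ => ?_
    rw [Fin.prod_univ_succ]
    simp

theorem P_const_sq (n : ℕ) (c : ℂ) :
    NUP1.Grand.P (fun _ _ : Fin n => c) ^ 2 = c ^ (n * (n - 1)) := by
  induction n with
  | zero => simp [NUP1.Grand.P]
  | succ n ih =>
    rw [P_const, mul_pow, ih, ← pow_mul, ← pow_add]
    congr 1
    rcases n with _ | n
    · rfl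
    · simp only [Nat.add_sub_cancel]
      ring

/-- the algebra of the constant -/
theorem cst_alg {a s L F A B : ℂ} (ha : a ≠ 0) (hs : s ≠ 0) (hL : L ≠ 0) (hA0 : A ≠ 0) (k : ℕ)
    (hA : A ^ 2 = (a ^ 2) ^ ((k + 1) * k)) (hB : B ^ 2 = F ^ ((k + 1) * k)) :
    a ^ 2 * (2 / 3 * a / s) * ((a ^ 2 / L) ^ (k + 1) * (a ^ 2 / L) ^ (k + 1)) *
      ((3 / 2) ^ (k + 1 + (k + 1) + 1) * s * ((s * L) ^ (k + 1) * B * ((s * L) ^ (k + 1) * B)) /
        (A * (a ^ 2) ^ (k + 1) * (A * (a ^ 2) ^ (k + 1)) * ((a ^ 2) ^ (k + 1)) ^ (k + 1) * a)) /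
      a ^ 2 * ((2 * a) ^ (2 * (k + 1) * (2 * k + 1)) * (2 / 3) ^ (2 * (k + 1))) =
    (4 * s ^ 2) ^ (k + 1) * (16 * F) ^ ((k + 1) * k) := by
  have h23 : (2 / 3 : ℂ) * (3 / 2) ^ (k + 1 + (k + 1) + 1) * (2 / 3) ^ (2 * (k + 1)) = 1 := by
    have : (2 / 3 : ℂ) * (3 / 2) ^ (k + 1 + (k + 1) + 1) * (2 / 3) ^ (2 * (k + 1)) =
        ((3 / 2) * (2 / 3)) ^ (2 * (k + 1) + 1) := by
      rw [mul_pow, show k + 1 + (k + 1) + 1 = 2 * (k + 1) + 1 by ring, pow_succ (2 / 3 : ℂ)]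
      ring
    rw [this]
    norm_num
  have hX : (a ^ 2) ^ (k + 1) ≠ 0 := pow_ne_zero _ (pow_ne_zero _ ha)
  have hY : L ^ (k + 1) ≠ 0 := pow_ne_zero _ hL
  have hN : (a ^ 2) ^ ((k + 1) * k) * ((a ^ 2) ^ (k + 1)) ^ (k + 1) =
      a ^ (2 * (k + 1) * (2 * k + 1)) := by
    rw [← pow_mul, ← pow_mul, ← pow_mul, ← pow_add]
    congr 1
    ring
  have h2N : (2 : ℂ) ^ (2 * (k + 1) * (2 * k + 1)) = 4 ^ (k + 1) * 16 ^ ((k + 1) * k) := by
    rw [show (4 : ℂ) = 2 ^ 2 by norm_num, show (16 : ℂ) = 2 ^ 4 by norm_num, ← pow_mul, ← pow_mul,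
      ← pow_add]
    congr 1
    ring
  rw [div_pow, mul_pow s L, mul_pow 2 a, mul_pow 4, mul_pow 16, h2N, ← hN, ← hA, ← hB]
  have e : a ^ 2 * (2 / 3 * a / s) * ((a ^ 2) ^ (k + 1) / L ^ (k + 1) * ((a ^ 2) ^ (k + 1) / L ^ (k + 1))) *
      ((3 / 2) ^ (k + 1 + (k + 1) + 1) * s * (s ^ (k + 1) * L ^ (k + 1) * B * (s ^ (k + 1) * L ^ (k + 1) * B)) /
        (A * (a ^ 2) ^ (k + 1) * (A * (a ^ 2) ^ (k + 1)) * ((a ^ 2) ^ (k + 1)) ^ (k + 1) * a)) /
      a ^ 2 * (4 ^ (k + 1) * 16 ^ ((k + 1) * k) * (A ^ 2 * ((a ^ 2) ^ (k + 1)) ^ (k + 1)) * (2 / 3) ^ (2 * (k + 1))) =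
      (2 / 3 * (3 / 2) ^ (k + 1 + (k + 1) + 1) * (2 / 3) ^ (2 * (k + 1))) *
        (4 ^ (k + 1) * (s ^ (k + 1)) ^ 2 * (16 ^ ((k + 1) * k) * B ^ 2)) := by
    generalize (2 / 3 : ℂ) ^ (2 * (k + 1)) = q1
    generalize (3 / 2 : ℂ) ^ (k + 1 + (k + 1) + 1) = q2
    generalize (4 : ℂ) ^ (k + 1) = q3
    generalize (16 : ℂ) ^ ((k + 1) * k) = q4
    generalize s ^ (k + 1) = q5
    have hX2 : ((a ^ 2) ^ (k + 1)) ^ (k + 1) ≠ 0 := pow_ne_zero _ hX
    generalize ((a ^ 2) ^ (k + 1)) ^ (k + 1) = X2 at *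
    generalize (a ^ 2) ^ (k + 1) = X at *
    generalize L ^ (k + 1) = Y at *
    field_simp
  have e9 : (s ^ 2) ^ (k + 1) = (s ^ (k + 1)) ^ 2 := by rw [← pow_mul, ← pow_mul, mul_comm]
  rw [e, h23, e9, one_mul]

/-- **the constant** -/
theorem const_V (m : ℕ) :
    PfV 0 0 (fun _ : Fin m => (0 : ℂ)) (fun _ : Fin m => (0 : ℂ)) / rh 0 ^ 2 *
      (Pool.Agent.NUF.bulk m : ℂ) =
    (2 - NUMv.rt) ^ m * (4 + 2 * NUMv.rt) ^ (m * (m - 1)) := by
  have hl := lpos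
  have hR : rh 0 ≠ 0 := rh_ne_zero (by simp; linarith)
  have hs : sin (l : ℂ) ≠ 0 := NUP1.Mu.sin1_ne
  have hL : Lp 0 0 ≠ 0 := Lp_ne (by simp; linarith) (by simp; linarith)
  have hF : Fp 0 = 9 / 4 * rh 0 ^ 2 * sin (l : ℂ) ^ 2 := by
    have h3 := PBS.rh3
    have h4 := PBS.rh03
    have e : Fp 0 = (rh 0 * rh (3 * l)) ^ 2 := by
      unfold Fp
      rw [zero_add, zero_add, sub_zero, sub_zero]
      change sin (2 * (l : ℂ)) * sin (3 * (l : ℂ)) * (sin (3 * (l : ℂ)) * sin (2 * (l : ℂ))) = _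
      have h4' : rh 0 * rh (3 * (l : ℂ)) = sin (3 * (l : ℂ)) * sin (2 * (l : ℂ)) := h4
      rw [h4']
      ring
    have h3' : (2 : ℂ) / 3 * rh (3 * (l : ℂ)) = sin (l : ℂ) := h3
    rw [e, ← h3']
    ring
  have hbulk : (Pool.Agent.NUF.bulk m : ℂ) =
      (2 * rh 0) ^ (2 * m * (2 * m - 1)) * (2 / 3) ^ (2 * m) := by
    unfold Pool.Agent.NUF.bulk
    rw [rh_zero]
    unfold PBR.r2
    push_cast
    congr 2
    ring
  have e1 : (2 : ℂ) - NUMv.rt = 4 * sin (l : ℂ) ^ 2 := four_sq.symm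
  have hrt : (NUMv.rt : ℂ) = r2 := rfl
  have e2 : (4 : ℂ) + 2 * NUMv.rt = 16 * Fp 0 := by
    have h5 := four_sq
    have h6 := PBR.r2_sq
    rw [hF, rh_zero, hrt]
    linear_combination (-(r2 + 2) ^ 2) * h5 + (r2 + 2) * h6
  have hP := fun c : ℂ => P_const_sq m c
  rw [e1, e2, hbulk]
  unfold PfV AV Pf Nu D1 D2
  simp only [sub_zero, Finset.prod_const, Finset.card_univ, Fintype.card_fin]
  rcases m with _ | k
  · simp [NUP1.Grand.P]
    field_simp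
  · have hA0 : NUP1.Grand.P (fun _ _ : Fin (k + 1) => rh 0 ^ 2) ≠ 0 := by
      have h7 := hP (rh 0 ^ 2)
      intro h8
      rw [h8] at h7
      exact pow_ne_zero _ (pow_ne_zero 2 hR) (by rw [← h7]; norm_num)
    have hA := hP (rh 0 ^ 2)
    have hB := hP (Fp 0)
    simp only [Nat.add_sub_cancel] at hA hB
    have h9 : 2 * (k + 1) * (2 * (k + 1) - 1) = 2 * (k + 1) * (2 * k + 1) := by
      congr 1
    simp only [Nat.add_sub_cancel]
    rw [h9]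
    exact cst_alg hR hs hL hA0 k hA hB

/-- the function without legs is the disc function at loop weight `2`, relative to the bulk -/
theorem FN_Wd (N : ℕ) : FN N = (Pool.Agent.NUF.near_WW 2).Wd (List.replicate N 1)
    (List.replicate N 1) / (Pool.Agent.NUF.bulk N : ℂ) := by
  have hb : (Pool.Agent.NUF.bulk N : ℂ) ≠ 0 := by
    exact_mod_cast (Pool.Agent.NUF.bulk_pos N).ne'
  rw [eq_div_iff hb, PVN.Wd_two, ← const_V]
  have h1 : fV N 0 = nv 0 0 (fun _ : Fin N => (0 : ℂ)) (fun _ : Fin N => (0 : ℂ)) := by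
    unfold fV xN
    simp
  unfold FN
  rw [h1]
  unfold nv
  rw [Finset.sum_congr rfl fun n _ => DZ_self (Rws_zero N) (Rws_zero N) (cn N) (cn N) n]
  ring

/-- **the value of the unknown of plan V** -/
theorem FN_val (N : ℕ) : FN N =
    ((NUI.W0 N * (Pool.Agent.NUF.ZZ 2 N).re / Pool.Agent.NUF.bulk N : ℝ) : ℂ) := by
  have h0 : ∃ w : ℝ, 0 ≤ w ∧ (Pool.Agent.NUF.near_WW 0).Wd (List.replicate N 1)
      (List.replicate N 1) = (w : ℂ) := ⟨_, by positivity, Pool.Agent.NUQ.Wd0_val N⟩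
  obtain ⟨w, hw, h0⟩ := h0
  have hW : NUI.W0 N = w := by
    unfold NUI.W0
    rw [h0, Complex.norm_real, Real.norm_eq_abs, abs_of_nonneg hw]
  have hw0 : (w : ℂ) ≠ 0 := by
    have := (NUI.W0_pos N).ne'
    rw [hW] at this
    exact_mod_cast this
  have h2 : (Pool.Agent.NUF.ZZ 2 N) = (((Pool.Agent.NUF.ZZ 2 N).re : ℝ) : ℂ) := by
    rw [PVA.ZZ_real, Complex.ofReal_re]
  have h3 : (Pool.Agent.NUF.near_WW 2).Wd (List.replicate N 1) (List.replicate N 1) =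
      (w : ℂ) * Pool.Agent.NUF.ZZ 2 N := by
    unfold Pool.Agent.NUF.ZZ
    rw [h0]
    field_simp
  rw [FN_Wd, h3, hW, h2]
  push_cast
  simp only [Complex.ofReal_re]

end PV

end
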