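import Pool.Agent.PV.NHatV

/-!
# Plan V: the function `xN`, `fV`, `fVx` on the whole strip (helper96)

* `xN_right`, `xN_left`, `xN_even`, `xN_diff`, `xN_perm`, `xN_tendsto`;
* **`xN_leg`**, `xN_leg'` : (A1); **`xN_zeros`** : the zeros of the difference;
* `fV_diff`, `fV_even`, `fV_zeros`, `fVx_diff`, `fVx_zero`, **`fVx_leg`**, `fVx_leg'`, `fVx_zeros`.
-/

set_option autoImplicit false
set_option linter.unusedSectionVars false

noncomputable section

open Complex Filter Topology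

namespace PV

open NUP1 (l lpos)
open PBX (Rws pull pull_re pull_Rws pull_tendsto)
open Pool.Agent.PB (LS LS_open Hgt GS mem_closure_GS neg_cons mem_LS mem_LS3 Rws.cons Rws.neg cons_swap
  Rws_zero Rws_cons zero_rowsW)

variable {m : ℕ}

theorem z0_lt : |(0 : ℂ).re| < 7 / 10 * l := by
  have := lpos
  simpa using this

theorem nv_neg0 {z : ℂ} (hz : |z.re| < 7 / 5 * l) {x y : Fin m → ℂ} (hx : Rws x) (hy : Rws y) :
    nv (-z) 0 (-x) (-y) = nv z 0 x y := by
  have h := nv_neg (z' := 0) hz z0_lt hx hy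
  rwa [neg_zero] at h

theorem xN_right {mu : Fin m → ℂ} (hmu : Rws mu) {z : ℂ} (hz : z ∈ LS) : xN mu z = nv z 0 mu mu := by
  unfold xN
  split_ifs with h
  · rfl
  · have hl := lpos
    obtain ⟨h1, h2⟩ := hz
    rw [not_le] at h
    exact nv_neg0 (by rw [abs_lt]; constructor <;> linarith) hmu hmu

theorem xN_left {mu : Fin m → ℂ} (hmu : Rws mu) {z : ℂ} (hz : -z ∈ LS) :
    xN mu z = nv (-z) 0 (-mu) (-mu) := by
  unfold xN
  split_ifs with h
  · have hl := lpos
    obtain ⟨h1, h2⟩ := hz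
    have h3 : -(7 / 5 * l) < (-z).re := h1
    rw [neg_re] at h3
    exact (nv_neg0 (by rw [abs_lt]; constructor <;> linarith) hmu hmu).symm
  · rfl

/-- **(A2)** -/
theorem xN_even {mu : Fin m → ℂ} (hmu : Rws mu) {z : ℂ} (hz : |z.re| < 43 / 10 * l) :
    xN (-mu) (-z) = xN mu z := by
  have hl := lpos
  obtain ⟨h1, h2⟩ := abs_lt.1 hz
  rcases le_or_gt 0 z.re with h | h
  · rw [xN_right hmu (z := z) ⟨by linarith, h2⟩, xN_left (Rws.neg hmu) (z := -z)
      (by rw [neg_neg]; exact ⟨by linarith, h2⟩), neg_neg, neg_neg]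
  · have h3 : -z ∈ LS := ⟨by rw [neg_re]; linarith, by rw [neg_re]; linarith⟩
    rw [xN_left hmu h3, xN_right (Rws.neg hmu) h3]

/-- **analyticity** -/
theorem xN_diff {mu : Fin m → ℂ} (hmu : Rws mu) :
    DifferentiableOn ℂ (xN mu) {z | |z.re| < 43 / 10 * l} := by
  have hl := lpos
  intro z hz
  obtain ⟨h1, h2⟩ := abs_lt.1 (show |z.re| < 43 / 10 * l from hz)
  refine DifferentiableAt.differentiableWithinAt ?_
  rcases le_or_gt 0 z.re with h | h
  · have hL : z ∈ LS := ⟨by linarith, h2⟩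
    have d := (nv_diff z0_lt hmu hmu).differentiableAt (LS_open.mem_nhds hL)
    refine d.congr_of_eventuallyEq ?_
    filter_upwards [LS_open.mem_nhds hL] with w hw
    exact xN_right hmu hw
  · have hL : -z ∈ LS := ⟨by rw [neg_re]; linarith, by rw [neg_re]; linarith⟩
    have d := (nv_diff z0_lt (Rws.neg hmu) (Rws.neg hmu)).differentiableAt (LS_open.mem_nhds hL)
    have d2 : DifferentiableAt ℂ (fun w : ℂ => nv (-w) 0 (-mu) (-mu)) z :=
      DifferentiableAt.comp z d differentiableAt_id.neg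
    refine d2.congr_of_eventuallyEq ?_
    have hop : IsOpen {w : ℂ | -w ∈ LS} := LS_open.preimage continuous_neg
    filter_upwards [hop.mem_nhds hL] with w hw
    exact xN_left hmu hw

theorem xN_perm (mu : Fin m → ℂ) (σ : Equiv.Perm (Fin m)) (z : ℂ) :
    xN (fun i => mu (σ i)) z = xN mu z := by
  unfold xN
  rw [nv_perm z 0 mu σ]
  split_ifs
  · rfl
  · exact nv_perm (-z) 0 (-mu) σ

/-- joint continuity -/
theorem xN_tendsto {E : Type*} {F : Filter E} [F.IsCountablyGenerated] {z : E → ℂ}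
    {x : E → Fin m → ℂ} {z0 : ℂ} {x0 : Fin m → ℂ} (tz : Tendsto z F (𝓝 z0))
    (tx : ∀ i, Tendsto (fun e => x e i) F (𝓝 (x0 i))) (hx : ∀ᶠ e in F, Rws (x e)) (hx0 : Rws x0)
    (hz : |z0.re| < 43 / 10 * l) : Tendsto (fun e => xN (x e) (z e)) F (𝓝 (xN x0 z0)) := by
  have hl := lpos
  obtain ⟨h1, h2⟩ := abs_lt.1 hz
  rcases le_or_gt 0 z0.re with h | h
  · have hL : z0 ∈ LS := ⟨by linarith, h2⟩
    rw [xN_right hx0 hL]
    refine (nv_tendsto tz tx tx hx hx hx0 hx0 hL z0_lt).congr' ?_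
    filter_upwards [hx, tz.eventually (LS_open.mem_nhds hL)] with e he hze
    exact (xN_right he hze).symm
  · have hL : -z0 ∈ LS := ⟨by rw [neg_re]; linarith, by rw [neg_re]; linarith⟩
    rw [xN_left hx0 hL]
    refine (nv_tendsto (z := fun e => -z e) (x := fun e => -x e) (y := fun e => -x e) tz.neg
      (fun i => (tx i).neg) (fun i => (tx i).neg) (hx.mono fun e he => Rws.neg he)
      (hx.mono fun e he => Rws.neg he) (Rws.neg hx0) (Rws.neg hx0) hL z0_lt).congr' ?_
    filter_upwards [hx, tz.neg.eventually (LS_open.mem_nhds hL)] with e he hze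
    exact (xN_left he hze).symm

/-! ### the exact leg identity -/

/-- **(A1), legs to the right** -/
theorem xN_leg {x0 : ℂ} {mu : Fin m → ℂ} (h0 : |x0.re| ≤ l / 2) (hmu : Rws mu) :
    xN (Fin.cons x0 mu : Fin (m + 1) → ℂ) (x0 + 3 * l) = xN mu x0 := by
  rw [xN_right (Rws.cons h0 hmu) (mem_LS3 h0), xN_right hmu (mem_LS h0),
    nv_leg z0_lt h0 hmu hmu]

/-- **(A1), legs to the left** -/
theorem xN_leg' {x0 : ℂ} {mu : Fin m → ℂ} (h0 : |x0.re| ≤ l / 2) (hmu : Rws mu) :
    xN (Fin.cons x0 mu : Fin (m + 1) → ℂ) (x0 - 3 * l) = xN mu x0 := by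
  have hl := lpos
  have h0' : |(-x0).re| ≤ l / 2 := by rwa [neg_re, abs_neg]
  have e : -(x0 - 3 * (l : ℂ)) = -x0 + 3 * l := by ring
  have hz : |(x0 - 3 * (l : ℂ)).re| < 43 / 10 * l := by
    have e1 : (x0 - 3 * (l : ℂ)).re = x0.re - 3 * l := by simp
    rw [e1]
    obtain ⟨h1, h2⟩ := abs_le.1 h0
    rw [abs_lt]
    constructor <;> linarith
  have hx : |x0.re| < 43 / 10 * l := by linarith
  rw [← xN_even (Rws.cons h0 hmu) hz, neg_cons, e, xN_leg h0' (Rws.neg hmu), xN_even hmu hx]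

/-- the difference vanishes at the rows -/
theorem xN_node {x : Fin (m + 1) → ℂ} (hx : Rws x) (j : Fin (m + 1)) :
    xN x (x j + 3 * l) - xN x (x j - 3 * l) = 0 := by
  have hx' : Rws fun i : Fin m => x (Equiv.swap 0 j i.succ) := fun i => hx _
  rw [← xN_perm x (Equiv.swap 0 j) (x j + 3 * l), ← xN_perm x (Equiv.swap 0 j) (x j - 3 * l),
    cons_swap, xN_leg (hx j) hx', xN_leg' (hx j) hx', sub_self]

theorem xN_node' {x : Fin m → ℂ} (hx : Rws x) (j : Fin m) :
    xN x (x j + 3 * l) - xN x (x j - 3 * l) = 0 := by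
  rcases m with _ | m
  · exact j.elim0
  · exact xN_node hx j

/-- **the zeros of the difference** -/
theorem xN_zeros {mu : Fin m → ℂ} (hmu : Rws mu) :
    ∃ Q : ℂ → ℂ, DifferentiableOn ℂ Q {z | |z.re| < 13 / 10 * l} ∧
      ∀ z, xN mu (z + 3 * l) - xN mu (z - 3 * l) = (∏ j, (z - mu j)) * Q z := by
  have hl := lpos
  set Ω : Set ℂ := {z | |z.re| < 13 / 10 * l} with hΩ
  have hop : IsOpen Ω := isOpen_lt (continuous_abs.comp Complex.continuous_re) continuous_const
  set R : ℝ := ∑ j, |(mu j).im| + 1 with hR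
  set U : Set ℂ := {z | |z.re| < l ∧ |z.im| < R} with hU
  have hUo : IsOpen U := (isOpen_lt (continuous_abs.comp Complex.continuous_re)
    continuous_const).inter (isOpen_lt (continuous_abs.comp Complex.continuous_im) continuous_const)
  have hUb : Bornology.IsBounded U := by
    refine (Metric.isBounded_iff_subset_closedBall (0 : ℂ)).2 ⟨l + R, fun z hz => ?_⟩
    rw [Metric.mem_closedBall, dist_zero_right]
    have := Complex.norm_le_abs_re_add_abs_im z
    linarith [hz.1, hz.2]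
  have hUc : closure U ⊆ Ω := by
    have h1 : closure U ⊆ {z : ℂ | |z.re| ≤ l} := by
      refine closure_minimal (fun z hz => hz.1.le) ?_
      exact isClosed_le (continuous_abs.comp Complex.continuous_re) continuous_const
    intro z hz
    have h2 : |z.re| ≤ l := h1 hz
    show |z.re| < 13 / 10 * l
    linarith
  have e1 : ∀ z : ℂ, (z + 3 * (l : ℂ)).re = z.re + 3 * l := fun z => by simp
  have e2 : ∀ z : ℂ, (z - 3 * (l : ℂ)).re = z.re - 3 * l := fun z => by simp
  have k1 : ∀ z ∈ Ω, |(z + 3 * (l : ℂ)).re| < 43 / 10 * l := by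
    intro z hz
    obtain ⟨h1, h2⟩ := abs_lt.1 (show |z.re| < 13 / 10 * l from hz)
    rw [e1, abs_lt]
    constructor <;> linarith
  have k2 : ∀ z ∈ Ω, |(z - 3 * (l : ℂ)).re| < 43 / 10 * l := by
    intro z hz
    obtain ⟨h1, h2⟩ := abs_lt.1 (show |z.re| < 13 / 10 * l from hz)
    rw [e2, abs_lt]
    constructor <;> linarith
  have hdom : IsOpen {z : ℂ | |z.re| < 43 / 10 * l} :=
    isOpen_lt (continuous_abs.comp Complex.continuous_re) continuous_const
  obtain ⟨-, Q, hQ, hfQ⟩ := zero_rowsW (ι := Fin m) hop hUo hUb hUc (c := mu) (S := GS m)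
    (D := fun z y => xN y (z + 3 * l) - xN y (z - 3 * l))
    (fun j => by
      have h1 := hmu j
      have h2 := PBX.im_le mu j
      exact ⟨by linarith, by linarith⟩)
    (mem_closure_GS hmu)
    (fun y hy i j hij => by
      by_contra hne
      exact hy.2 i j hne (by rw [hij]))
    (fun y hy z hz => by
      have d1 : DifferentiableAt ℂ (fun z : ℂ => xN y (z + 3 * l)) z :=
        DifferentiableAt.comp z ((xN_diff hy.1).differentiableAt (hdom.mem_nhds (k1 z hz)))
          (differentiableAt_id.add_const _)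
      have d2 : DifferentiableAt ℂ (fun z : ℂ => xN y (z - 3 * l)) z :=
        DifferentiableAt.comp z ((xN_diff hy.1).differentiableAt (hdom.mem_nhds (k2 z hz)))
          (differentiableAt_id.sub_const _)
      exact (d1.sub d2).differentiableWithinAt)
    (fun z hz => by
      have tr : ∀ i, Tendsto (fun p : ℂ × (Fin m → ℂ) => p.2 i) (𝓝 z ×ˢ 𝓝[GS m] mu)
          (𝓝 (mu i)) := fun i =>
        (((continuous_apply i).tendsto mu).mono_left nhdsWithin_le_nhds).comp tendsto_snd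
      have hrw : ∀ᶠ p : ℂ × (Fin m → ℂ) in 𝓝 z ×ˢ 𝓝[GS m] mu, Rws p.2 := by
        have h1 : ∀ᶠ y in 𝓝[GS m] mu, Rws y := by
          filter_upwards [self_mem_nhdsWithin] with y hy
          exact hy.1
        exact tendsto_snd.eventually h1
      exact (xN_tendsto (F := 𝓝 z ×ˢ 𝓝[GS m] mu) (z := fun p => p.1 + 3 * l) (x := fun p => p.2)
        (tendsto_fst.add_const _) tr hrw hmu (k1 z hz)).sub
        (xN_tendsto (F := 𝓝 z ×ˢ 𝓝[GS m] mu) (z := fun p => p.1 - 3 * l) (x := fun p => p.2)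
        (tendsto_fst.sub_const _) tr hrw hmu (k2 z hz)))
    (by
      filter_upwards [self_mem_nhdsWithin] with y hy j
      exact xN_node' hy.1 j)
  exact ⟨Q, hQ, hfQ⟩

/-! ### rows `0` and one moved row -/

theorem fV_diff (N : ℕ) : DifferentiableOn ℂ (fV N) {z | |z.re| < 43 / 10 * l} :=
  xN_diff (Rws_zero N)

theorem fVx_diff (N : ℕ) {x : ℂ} (h : |x.re| ≤ l / 2) :
    DifferentiableOn ℂ (fVx N x) {z | |z.re| < 43 / 10 * l} := xN_diff (Rws_cons h)

theorem fVx_zero (N : ℕ) (z : ℂ) : fVx N 0 z = fV (N + 1) z := by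
  unfold fVx fV
  congr 1
  funext i
  refine Fin.cases ?_ (fun j => ?_) i
  · simp
  · simp

/-- **(A1)** -/
theorem fVx_leg (N : ℕ) {x : ℂ} (h : |x.re| ≤ l / 2) : fVx N x (x + 3 * l) = fV N x :=
  xN_leg h (Rws_zero N)

theorem fVx_leg' (N : ℕ) {x : ℂ} (h : |x.re| ≤ l / 2) : fVx N x (x - 3 * l) = fV N x :=
  xN_leg' h (Rws_zero N)

theorem fV_even (N : ℕ) {z : ℂ} (hz : |z.re| < 43 / 10 * l) : fV N (-z) = fV N z := by
  have h := xN_even (Rws_zero N) hz
  have e : -(fun _ : Fin N => (0 : ℂ)) = fun _ : Fin N => (0 : ℂ) := by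
    funext i
    simp
  rw [e] at h
  exact h

/-- the zeros of the difference, rows `0` -/
theorem fV_zeros (N : ℕ) : ∃ Q : ℂ → ℂ, DifferentiableOn ℂ Q {z | |z.re| < 13 / 10 * l} ∧
    ∀ z, fV N (z + 3 * l) - fV N (z - 3 * l) = z ^ N * Q z := by
  obtain ⟨Q, hQ, h⟩ := xN_zeros (Rws_zero N)
  refine ⟨Q, hQ, fun z => ?_⟩
  have := h z
  simp only [sub_zero, Finset.prod_const, Finset.card_univ, Fintype.card_fin] at this
  exact this

/-- the zeros of the difference, one moved row -/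
theorem fVx_zeros (N : ℕ) {x : ℂ} (hx : |x.re| ≤ l / 2) :
    ∃ Q : ℂ → ℂ, DifferentiableOn ℂ Q {z | |z.re| < 13 / 10 * l} ∧
      ∀ z, fVx N x (z + 3 * l) - fVx N x (z - 3 * l) = (z - x) * z ^ N * Q z := by
  obtain ⟨Q, hQ, h⟩ := xN_zeros (Rws_cons (N := N) hx)
  refine ⟨Q, hQ, fun z => ?_⟩
  have := h z
  rw [Fin.prod_univ_succ] at this
  simp only [Fin.cons_zero, Fin.cons_succ, sub_zero, Finset.prod_const, Finset.card_univ,
    Fintype.card_fin] at this
  exact this

end PV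

end
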