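import Pool.Agent.PV.Defs
import Pool.Agent.PV.EndV
import Pool.Agent.PB.FunI

/-!
# Plan V: the function side for the literal function (helper12)

`fV N z` = `N` rows at `0`, `fVx N x z` = rows `x, 0^N` (helper96, `PV/Defs`).

* `V0P C`: the crude bound; `V1P`: the bound `j^(3/4+ε)` at height `O(1)`;
* `XvP`: the exact facts (holomorphy, leg relation, zeros at the rows);
* `funHV : XvP → V0P C → V1P → FunHV C fV (fun j z x => fVx j x z)`;
* **`sharpF_V`**: with (E_V) and the a priori lower bound: `SharpF F`, `FN N = F N`.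
-/

set_option autoImplicit false

noncomputable section

open Complex Set Filter Topology
open Pool.Agent.PB.Rec (seg)
open NUP1 (l lpos)
open PBV (aL σL aL_eq σL_eq two_σL FD FD_zero FD_cons strip_open seg_Is)
open PVF (FunHV E2V SharpF sharpF_of)

namespace PV

/-- crude bound -/
def V0P (C : ℝ) : Prop :=
  (∀ᶠ j : ℕ in atTop, ∀ z : ℂ, |z.re| ≤ 18 / 5 * l → |z.im| ≤ 3 / 20 * Real.log j + 1 →
    ‖fV j z‖ ≤ (j : ℝ) ^ C) ∧
  ∀ᶠ j : ℕ in atTop, ∀ s ∈ Icc (0 : ℝ) 1, ∀ z : ℂ, |z.re| ≤ 18 / 5 * l →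
    |z.im| ≤ 3 / 20 * Real.log j + 1 → ‖fVx j (I * s) z‖ ≤ (j : ℝ) ^ C

/-- the bound at height `O(1)` -/
def V1P : Prop := ∀ ε : ℝ, 0 < ε → ∀ᶠ j : ℕ in atTop, ∀ s ∈ Icc (0 : ℝ) 1, ∀ t ∈ Icc (0 : ℝ) 1,
  ‖fVx j (I * s) (I * t)‖ ≤ (j : ℝ) ^ (3 / 4 + ε)

/-- the exact facts -/
structure XvP : Prop where
  fd : ∀ N : ℕ, DifferentiableOn ℂ (fV N) {z | |z.re| < 43 / 10 * l}
  fxd : ∀ (N : ℕ) (x : ℂ), |x.re| ≤ l / 2 → DifferentiableOn ℂ (fVx N x) {z | |z.re| < 43 / 10 * l}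
  leg : ∀ (N : ℕ) (x : ℂ), |x.re| ≤ l / 2 → fVx N x (x + 3 * l) = fV N x
  fz : ∀ N : ℕ, ∃ Q : ℂ → ℂ, DifferentiableOn ℂ Q {z | |z.re| < 13 / 10 * l} ∧
    ∀ z, fV N (z + 3 * l) - fV N (z - 3 * l) = z ^ N * Q z
  fxz : ∀ (N : ℕ) (x : ℂ), |x.re| ≤ l / 2 → ∃ Q : ℂ → ℂ,
    DifferentiableOn ℂ Q {z | |z.re| < 13 / 10 * l} ∧
      ∀ z, fVx N x (z + 3 * l) - fVx N x (z - 3 * l) = (z - x) * z ^ N * Q z

theorem fVx_zero' (N : ℕ) (z : ℂ) : fVx N 0 z = fV (N + 1) z := by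
  unfold fVx fV
  congr 1
  funext i
  refine Fin.cases ?_ (fun j => ?_) i
  · simp
  · simp

theorem funHV {C : ℝ} (hx : XvP) (h0 : V0P C) (h1 : V1P) : FunHV C fV (fun j z x => fVx j x z) := by
  have hl := lpos
  have hs : aL + σL = 18 / 5 * l := by
    rw [aL_eq, σL_eq]
    ring
  have hr : aL + σL < 43 / 10 * l := by
    rw [hs]
    linarith
  have hr' : σL < 13 / 10 * l := by
    rw [σL_eq]
    linarith
  have ha : ((aL : ℝ) : ℂ) = 3 * l := by
    rw [aL_eq]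
    push_cast
    ring
  refine ⟨?_, ?_, ?_, ?_, ?_⟩
  · filter_upwards [h0.1] with j hj
    obtain ⟨Q, hQ, hz⟩ := hx.fz j
    refine FD_zero hr hr' (fun z h => (hx.fd j).differentiableAt ((strip_open _).mem_nhds h))
      (fun z h => hQ.differentiableAt ((strip_open _).mem_nhds h)) (fun z _ => ?_) ?_
    · rw [ha]
      exact hz z
    · intro z h1 h2
      rw [two_σL] at h2
      rw [hs] at h1
      exact hj z h1 h2
  · filter_upwards [h0.2, eventually_ge_atTop 1] with j hj hj1 x hxs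
    obtain ⟨s, hs1, rfl⟩ := seg_Is hxs
    have hx0 : |(I * (s : ℂ)).re| ≤ l / 2 := by
      simp
      linarith
    obtain ⟨Q, hQ, hz⟩ := hx.fxz j _ hx0
    refine FD_cons hj1 (x := I * s) (by simp) (by simp [abs_of_nonneg hs1.1, hs1.2]) hr hr'
      (fun z h => (hx.fxd j _ hx0).differentiableAt ((strip_open _).mem_nhds h))
      (fun z h => hQ.differentiableAt ((strip_open _).mem_nhds h)) (fun z _ => ?_) ?_
    · rw [ha]
      exact hz z
    · intro z h1 h2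
      rw [two_σL] at h2
      rw [hs] at h1
      exact hj s hs1 z h1 h2
  · exact Filter.Eventually.of_forall fun j z => fVx_zero' j z
  · refine Filter.Eventually.of_forall fun j x hxs => ?_
    obtain ⟨s, hs1, rfl⟩ := seg_Is hxs
    have hx0 : |(I * (s : ℂ)).re| ≤ l / 2 := by
      simp
      linarith
    have := hx.leg j _ hx0
    rw [ha]
    exact this
  · intro ε hε
    filter_upwards [h1 ε hε] with j hj x hxs t ht
    obtain ⟨s, hs1, rfl⟩ := seg_Is hxs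
    exact hj s hs1 t ht

/-- (E_V) for the literal function, error `j ^ p` -/
def EVP (p : ℝ) : Prop := E2V p (fun j z x => fVx j x z)

/-- `rh 0 ^ 2` -/
def κV : ℝ := ((2 + Real.sqrt 2) / 3) ^ 2

theorem κV_pos : 0 < κV := by
  unfold κV
  positivity

theorem rh0_sq : PBR.rh 0 ^ 2 = (κV : ℂ) := by
  rw [PBR.rh_zero, κV]
  unfold PBR.r2
  push_cast
  ring

/-- **the sharp power law, literal** -/
theorem sharpF_V {C p : ℝ} {F : ℕ → ℝ} (hx : XvP) (h0 : V0P C) (h1 : V1P) (hp : p < 3 / 8) (hE : EVP p)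
    (hF : ∀ᶠ N : ℕ in atTop, FN N = (F N : ℂ))
    (hlow : ∀ ε : ℝ, 0 < ε → ∃ᶠ j : ℕ in atTop, (j : ℝ) ^ (3 / 8 - ε) ≤ F j) : SharpF F := by
  refine sharpF_of κV_pos (funHV hx h0 h1) hp hE ?_ hlow
  filter_upwards [hF] with N hN
  unfold FN at hN
  have h2 : PBR.rh 0 ^ 2 ≠ 0 := by
    rw [rh0_sq]
    exact_mod_cast κV_pos.ne'
  rw [div_eq_iff h2, rh0_sq] at hN
  rw [hN]
  push_cast
  ring

end PV
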