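import Pool.Agent.PV.SpV
import Pool.Agent.PV.FunIV
import Pool.Agent.PB.ParZ
import Pool.Agent.PB.U1Of
import Pool.Agent.PB.TopG

/-!
# Plan V: the bounds of the literal function from `UX famV` (helper12)

* `nv_FL`: the function with legs at `z`, anti-legs at `0`, rows `x, 0^k`, is the functional of `famV`;
* `fVx_le`, `fV_le`: `‖fVx k x z‖ ≤ (k + 1)^(3/4 + δ) exp (4 |Im z|)`, `|Re z| < 37/10 l`;
* **`v1P_of`**, **`v0P_of`**: the inputs `V1P`, `V0P 2` of `sharpF_V`.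
-/

set_option autoImplicit false
set_option linter.unusedSectionVars false

noncomputable section

open Complex MeasureTheory Set Filter Topology
open scoped ENNReal

namespace PV

open NUP1 (l)
open PBL (mu1)

attribute [local instance] NUSea.seaP

/-- the functional of `famV` without insertion -/
theorem FL_famV {ep e1 J : ℝ} (k : ℕ) (x z : ℂ) :
    PBU.FL famV ep e1 J (k + 1) (x, z) (fun _ _ _ _ _ => 1) =
      ∑ n ∈ Finset.range (2 * (k + 1) + 1), PfV z 0 (mu1 k x) (mu1 k x) *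
        PBF.FF (PVS.ZV (4 / 3 * (1 - ep)) (mu1 k x) [I, -I] [] z 0) (NUSea.O.par0 (k + 1)) n n
          (PBU.cr e1 J (k + 1)) (PBU.cr' e1 J (k + 1)) (fun _ _ _ _ _ => 1) := by
  have e : PVS.ZV (4 / 3 * (1 - ep)) (mu1 k x) [I, -I] [] z 0 =
      ZV (4 / 3 * (1 - ep)) (mu1 k x) [I, -I] [] z 0 := by
    unfold ZV PVS.ZV
    rw [show LV z 0 = PVS.LgV z 0 from funext fun u => (PVS.LgV_eq z 0 u).symm]
  rw [e]
  rfl

/-- the function at the rows `x, 0^k` is the functional of its family -/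
theorem nv_FL {ep e1 J : ℝ} (hep0 : 0 < ep) (hep : ep ≤ 1 / 100) {k : ℕ} {x z : ℂ}
    (hx : |x.re| ≤ l / 10) (h1 : -(9 / 10 * l) ≤ z.re) (h2 : z.re < 37 / 10 * l)
    (hcur : ∀ (r : ℕ) (O : Fin r → NUO.Xo), NUCR.CurB ep (PBU.cr e1 J (k + 1) r O)
      (PBU.cr' e1 J (k + 1) r O)) :
    nv z 0 (mu1 k x) (mu1 k x) = PBU.FL famV ep e1 J (k + 1) (x, z) fun _ _ _ _ _ => 1 := by
  have hl := NUP1.lpos
  rw [FL_famV]
  unfold nv
  rw [Finset.mul_sum]
  refine Finset.sum_congr rfl fun n _ => ?_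
  have hLV : LV z 0 = PVS.LgV z 0 := funext fun u => (PVS.LgV_eq z 0 u).symm
  rw [hLV]
  congr 1
  exact PVS.DZ_ZV (P := NUSea.O.par0 (k + 1)) (ep := ep) (β := 4 / 3 * (1 - ep))
    (PBX.ParC_par0 (k + 1)) (PBX.rad_low (k + 1)) hep0 hep (by linarith) (by linarith)
    (x := mu1 k x) (PBT.rws_mu1 k (by linarith)) (ex := [I, -I]) (ex0 := [])
    (by
      intro w hw
      rw [List.mem_cons, List.mem_singleton] at hw
      rcases hw with rfl | rfl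
      · rw [Complex.I_re, abs_zero]
        positivity
      · rw [Complex.neg_re, Complex.I_re, neg_zero, abs_zero]
        positivity) (by simp) (z := z) (z' := 0) h1 h2 (by rw [Complex.zero_re, abs_zero]; positivity)
    (n := n) (η := PBU.cr e1 J (k + 1)) (η' := PBU.cr' e1 J (k + 1))
    (fun r _ => Filter.Eventually.of_forall fun O => hcur r O)

theorem log_succ_mono (j : ℕ) (hj : 1 ≤ j) : Real.log j ≤ Real.log (j + 1 : ℕ) :=
  Real.log_le_log (by exact_mod_cast hj) (by push_cast; linarith)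

/-- **the bound for `Re z ≥ -9/10 l`** -/
theorem nvU_le (hX : PBU.UX famV) {δ : ℝ} (hδ : 0 < δ) : ∃ m0 : ℕ, ∀ k : ℕ, m0 ≤ k → ∀ x z : ℂ,
    |x.re| ≤ l / 10 → |x.im| ≤ 2 → -(9 / 10 * l) ≤ z.re → z.re < 37 / 10 * l →
    |z.im| ≤ 3 / 20 * Real.log (k + 1 : ℕ) + 2 →
    ‖nv z 0 (mu1 k x) (mu1 k x)‖ ≤ ((k + 1 : ℕ) : ℝ) ^ (3 / 4 + δ) * Real.exp (4 * |z.im|) := by
  obtain ⟨ep, e1, J, h1, h2, h3, h4, h5, hU⟩ := hX.pick 0 1 (ε := δ) (a := 1 / 100) hδ (by norm_num)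
  obtain ⟨m1, H1⟩ := hU.mass le_rfl
  obtain ⟨mc, -, Hcur⟩ := PBF.curZ_crs h3 h4 h5 h1
  refine ⟨max m1 mc, fun k hk x z hx hx' z1 z2 z3 => ?_⟩
  have k1 : m1 ≤ k + 1 := ((le_max_left _ _).trans hk).trans (Nat.le_succ k)
  have k2 : mc ≤ k + 1 := ((le_max_right _ _).trans hk).trans (Nat.le_succ k)
  rw [nv_FL h1 h2 hx z1 z2 fun r O => Hcur (k + 1) k2 r O]
  have key := PBU.norm_FL_le (F := famV) (ep := ep) (e1 := e1) (J := J) (m := k + 1) (i := (x, z))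
    (fun _ _ _ _ _ => 1)
  simp only [enorm_one] at key
  have h6 := key.trans (H1 (k + 1) k1 (x, z) ⟨hx, hx', z1, z2, z3⟩)
  rw [← ofReal_norm] at h6
  have hk0 : (0 : ℝ) < ((k + 1 : ℕ) : ℝ) := by positivity
  have h7 : famV.bd (k + 1) (x, z) = ((k + 1 : ℕ) : ℝ) ^ (3 / 4 : ℝ) * Real.exp (4 * |z.im|) := rfl
  rw [h7, ENNReal.ofReal_le_ofReal_iff (by positivity)] at h6
  refine h6.trans (le_of_eq ?_)
  rw [← mul_assoc, ← Real.rpow_add hk0]
  congr 2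
  ring

/-- **the bound of the function with one moved row** -/
theorem fVx_le (hX : PBU.UX famV) {δ : ℝ} (hδ : 0 < δ) : ∃ m0 : ℕ, ∀ k : ℕ, m0 ≤ k → ∀ x z : ℂ,
    |x.re| ≤ l / 10 → |x.im| ≤ 2 → |z.re| < 37 / 10 * l →
    |z.im| ≤ 3 / 20 * Real.log (k + 1 : ℕ) + 2 →
    ‖fVx k x z‖ ≤ ((k + 1 : ℕ) : ℝ) ^ (3 / 4 + δ) * Real.exp (4 * |z.im|) := by
  obtain ⟨m0, H⟩ := nvU_le hX hδ
  refine ⟨m0, fun k hk x z hx hx' hz hz' => ?_⟩
  have hl := NUP1.lpos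
  obtain ⟨z1, z2⟩ := abs_lt.1 hz
  unfold fVx xN
  split_ifs with h
  · exact H k hk x z hx hx' (by linarith) z2 hz'
  · rw [not_le] at h
    have e : -(Fin.cons x (fun _ : Fin k => (0 : ℂ)) : Fin (k + 1) → ℂ) = mu1 k (-x) := by
      unfold PBL.mu1
      funext i
      refine Fin.cases ?_ (fun j => ?_) i
      · simp
      · simp
    rw [e]
    have := H k hk (-x) (-z) (by rwa [neg_re, abs_neg]) (by rwa [neg_im, abs_neg])
      (by rw [neg_re]; linarith) (by rw [neg_re]; linarith) (by rwa [neg_im, abs_neg])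
    rwa [neg_im, abs_neg] at this

/-- **the bound of the function at the rows `0`** -/
theorem fV_le (hX : PBU.UX famV) {δ : ℝ} (hδ : 0 < δ) : ∃ m0 : ℕ, ∀ j : ℕ, m0 ≤ j → ∀ z : ℂ,
    |z.re| < 37 / 10 * l → |z.im| ≤ 3 / 20 * Real.log j + 2 →
    ‖fV j z‖ ≤ (j : ℝ) ^ (3 / 4 + δ) * Real.exp (4 * |z.im|) := by
  obtain ⟨m0, H⟩ := fVx_le hX hδ
  refine ⟨m0 + 1, fun j hj z hz hz' => ?_⟩
  have hl := NUP1.lpos
  obtain ⟨k, rfl⟩ : ∃ k, j = k + 1 := ⟨j - 1, by omega⟩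
  rw [← fVx_zero']
  exact H k (by omega) 0 z (by simp; positivity) (by simp) hz hz'

/-- **(V1)** -/
theorem v1P_of (hX : PBU.UX famV) : V1P := by
  intro ε hε
  obtain ⟨m1, H1⟩ := fVx_le hX (show 0 < min (ε / 2) (1 / 4) by positivity)
  have hl := NUP1.lpos
  set δ : ℝ := min (ε / 2) (1 / 4) with hδ
  have hδ0 : 0 < δ := by positivity
  have hδ1 : δ ≤ 1 / 4 := min_le_right _ _
  have hδ2 : δ ≤ ε / 2 := min_le_left _ _
  filter_upwards [eventually_ge_atTop m1, eventually_ge_atTop 1,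
    PBV.ev_pow (2 * Real.exp 4) (show 3 / 4 + δ < 3 / 4 + ε by linarith)] with j h1 h2 h3 s hs t ht
  have hj : (1 : ℝ) ≤ j := by exact_mod_cast h2
  have hlog : 0 ≤ Real.log (j + 1 : ℕ) := Real.log_nonneg (by push_cast; linarith)
  have k1 := H1 j h1 (I * s) (I * t) (by simp; positivity)
    (by simp [abs_of_nonneg hs.1]; linarith [hs.2]) (by simp; positivity)
    (by simp [abs_of_nonneg ht.1]; push_cast at hlog; linarith [ht.2])
  refine k1.trans (le_trans ?_ h3)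
  have e1 : (I * (t : ℂ)).im = t := by simp
  rw [e1, abs_of_nonneg ht.1]
  calc ((j + 1 : ℕ) : ℝ) ^ (3 / 4 + δ) * Real.exp (4 * t) ≤ (2 * (j : ℝ) ^ (3 / 4 + δ)) * Real.exp 4 := by
        refine mul_le_mul (PBV.succ_pow (by linarith) (by linarith) h2)
          (Real.exp_le_exp.2 (by linarith [ht.2])) (Real.exp_pos _).le (by positivity)
    _ = _ := by ring

/-- **(V0)** -/
theorem v0P_of (hX : PBU.UX famV) : V0P 2 := by
  obtain ⟨m0, H0⟩ := fV_le hX (show (0 : ℝ) < 1 / 10 by norm_num)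
  obtain ⟨m1, H1⟩ := fVx_le hX (show (0 : ℝ) < 1 / 10 by norm_num)
  have hl := NUP1.lpos
  have key : ∀ j : ℕ, 1 ≤ j → ∀ y : ℝ, |y| ≤ 3 / 20 * Real.log j + 1 →
      (j : ℝ) ^ (3 / 4 + 1 / 10 : ℝ) * Real.exp (4 * |y|) ≤ Real.exp 4 * (j : ℝ) ^ (3 / 2 : ℝ) := by
    intro j hj y hy
    have hj' : (0 : ℝ) < j := by exact_mod_cast hj
    have hj1 : (1 : ℝ) ≤ j := by exact_mod_cast hj
    have e1 : (j : ℝ) ^ (3 / 4 + 1 / 10 : ℝ) * (j : ℝ) ^ (3 / 5 : ℝ) ≤ (j : ℝ) ^ (3 / 2 : ℝ) := by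
      rw [← Real.rpow_add hj']
      exact Real.rpow_le_rpow_of_exponent_le hj1 (by norm_num)
    have e2 : Real.exp (4 * |y|) ≤ Real.exp 4 * (j : ℝ) ^ (3 / 5 : ℝ) := by
      rw [Real.rpow_def_of_pos hj', ← Real.exp_add]
      refine Real.exp_le_exp.2 ?_
      linarith
    calc (j : ℝ) ^ (3 / 4 + 1 / 10 : ℝ) * Real.exp (4 * |y|) ≤
        (j : ℝ) ^ (3 / 4 + 1 / 10 : ℝ) * (Real.exp 4 * (j : ℝ) ^ (3 / 5 : ℝ)) :=
          mul_le_mul_of_nonneg_left e2 (by positivity)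
      _ = Real.exp 4 * ((j : ℝ) ^ (3 / 4 + 1 / 10 : ℝ) * (j : ℝ) ^ (3 / 5 : ℝ)) := by ring
      _ ≤ _ := mul_le_mul_of_nonneg_left e1 (Real.exp_pos _).le
  constructor
  · filter_upwards [eventually_ge_atTop m0, eventually_ge_atTop 1,
      PBV.ev_pow (Real.exp 4) (show (3 / 2 : ℝ) < 2 by norm_num)] with j h1 h2 h3 z hz hz'
    exact (H0 j h1 z (by linarith) (by linarith)).trans ((key j h2 _ hz').trans h3)
  · filter_upwards [eventually_ge_atTop m1, eventually_ge_atTop 1,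
      PBV.ev_pow (2 * Real.exp 4) (show (3 / 2 : ℝ) < 2 by norm_num)] with j h1 h2 h3 s hs z hz hz'
    have hj : (1 : ℝ) ≤ j := by exact_mod_cast h2
    have hlog := log_succ_mono j h2
    have k1 := H1 j h1 (I * s) z (by simp; positivity)
      (by simp [abs_of_nonneg hs.1]; linarith [hs.2]) (by linarith) (by linarith)
    refine k1.trans (le_trans ?_ h3)
    calc ((j + 1 : ℕ) : ℝ) ^ (3 / 4 + 1 / 10 : ℝ) * Real.exp (4 * |z.im|) ≤
        (2 * (j : ℝ) ^ (3 / 4 + 1 / 10 : ℝ)) * Real.exp (4 * |z.im|) :=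
          mul_le_mul_of_nonneg_right (PBV.succ_pow (by norm_num) (by norm_num) h2) (Real.exp_pos _).le
      _ = 2 * ((j : ℝ) ^ (3 / 4 + 1 / 10 : ℝ) * Real.exp (4 * |z.im|)) := by ring
      _ ≤ 2 * (Real.exp 4 * (j : ℝ) ^ (3 / 2 : ℝ)) :=
          mul_le_mul_of_nonneg_left (key j h2 _ hz') (by norm_num)
      _ = _ := by ring

end PV
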