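import Pool.Agent.PB.FNeq

/-!
# Plan V: legs at `z`, anti-legs at `z'` (helper79)

* `LgV z z' u = Lg z z u / Lg z' z' u`; `Lg_inv`: the inverse of a leg factor is a leg factor,
  `(Lg p q u)⁻¹ = Lg (q + 3 l) (p - 3 l) u`;
* `LgV_SpecQ`, `LgV_SpA`, `LgV_SpecAt`, `LgV_SpecS`: spectators of the class formula, of the contour
  identity, of the one body bound;
* `ZV`: class functions; `measurable_ZV`, `oneC_ZV`, `decZ_ZV`.
-/

set_option autoImplicit false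
set_option linter.unusedSectionVars false

noncomputable section

open Complex MeasureTheory Finset
open scoped ENNReal

namespace PVS

open NUO NUP1 NUCR NUP1S NUP1S.Ab NUP1S.AbC NURow NUGC PBX PBF
open PBC (DecZ)

/-- the factor of the legs at `z` and of the anti-legs at `z'` on a quantum -/
def LgV (z z' u : ℂ) : ℂ := Lg z z u / Lg z' z' u

/-- its modulus -/
def thV (z z' u : ℂ) : ℝ := thZ z u / thZ z' u

theorem thV_nonneg (z z' u : ℂ) : 0 ≤ thV z z' u := div_nonneg (thZ_nonneg _ _) (thZ_nonneg _ _)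

theorem norm_LgV (z z' u : ℂ) : ‖LgV z z' u‖ = thV z z' u := by
  unfold LgV thV
  rw [norm_div, norm_Lg, norm_Lg]

/-- **the inverse of a leg factor is a leg factor** -/
theorem Lg_inv (p q u : ℂ) : (Lg p q u)⁻¹ = Lg (q + 3 * l) (p - 3 * l) u := by
  unfold Lg
  rw [inv_div, show p - 3 * (l : ℂ) - u - 3 * l = p - u + 2 * l - 8 * l by ring,
    show q + 3 * (l : ℂ) - u + 2 * l = q - u - 3 * l + 8 * l by ring]
  have e : (8 * (l : ℂ)) = (Real.pi : ℂ) := by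
    rw [← Pool.Agent.PB.eight]
  rw [e, Complex.sin_sub_pi, Complex.sin_add_pi, neg_div_neg_eq]

theorem LgV_eq (z z' u : ℂ) : LgV z z' u = Lg z z u * Lg (z' + 3 * l) (z' - 3 * l) u := by
  unfold LgV
  rw [div_eq_mul_inv, Lg_inv]

theorem LgV_meas (z z' : ℂ) : Measurable (LgV z z') := (Lg_meas z z).div (Lg_meas z' z')

/-! ### products of spectators -/

theorem SpecQ.mul0 {b : Bool} {s1 s2 t1 t2 : ℂ → ℂ} (h : SpecQ b 0 s1 s2) (h' : SpecQ b 0 t1 t2) :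
    SpecQ b 0 (fun u => s1 u * t1 u) (fun u => s2 u * t2 u) where
  m1 := h.m1.mul h'.m1
  m2 := h.m2.mul h'.m2
  b1 := (h.b1.mul h'.b1).rate (by ring)
  b2 := (h.b2.mul h'.b2).rate (by ring)
  d1 z hz := (h.d1 z hz).mul (h'.d1 z hz)
  d2 z hz := (h.d2 z hz).mul (h'.d2 z hz)
  mul z hz := by
    rw [h.mul z hz, h'.mul z hz]
    ring

theorem re_3l (z : ℂ) : (z + 3 * (l : ℂ)).re = z.re + 3 * l := by simp

/-- **the class formula**: `- l < Re z < 37 l / 10`, `|Re z'| < 7 l / 10` -/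
theorem LgV_SpecQ (b : Bool) {z z' : ℂ} (h1 : -l < z.re) (h2 : z.re < 37 / 10 * l)
    (h3 : |z'.re| < 7 / 10 * l) :
    SpecQ b 0 (LgV z z') (fun w => LgV z z' w * LgV z z' (w - l)) := by
  have hl := Bd.l_pos
  obtain ⟨h4, h5⟩ := abs_lt.1 h3
  have a := Lg_SpecQ b (p := z) (q := z) h1 h2
  have a' := Lg_SpecQ b (p := z' + 3 * l) (q := z' - 3 * l) (by rw [re_3l]; linarith)
    (by rw [re_3l]; linarith)
  have h := SpecQ.mul0 a a'
  have e1 : (fun u => Lg z z u * Lg (z' + 3 * l) (z' - 3 * l) u) = LgV z z' := by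
    funext u
    rw [LgV_eq]
  have e2 : (fun w => Lg z z w * Lg z z (w - l) *
      (Lg (z' + 3 * l) (z' - 3 * l) w * Lg (z' + 3 * l) (z' - 3 * l) (w - l))) =
      fun w => LgV z z' w * LgV z z' (w - l) := by
    funext w
    rw [LgV_eq, LgV_eq]
    ring
  rw [e1, e2] at h
  exact h

/-- one body bound, two different legs -/
theorem Lg_SpecAt2 {x0 : ℝ} (b : Bool) {p q : ℂ}
    (h1 : 21 / 20 * l < p.re + 2 * l) (h2 : p.re + 2 * l < x0 + 8 * l) :
    SpecAt x0 b 0 (Lg p q) := by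
  have hl := Bd.l_pos
  have hs : ∀ r ∈ Set.Icc x0 (21 / 20 * l), Real.sin (p.re - r + 2 * l) ≠ 0 := by
    intro r hr
    refine (Real.sin_pos_of_pos_of_lt_pi (by linarith [hr.2]) ?_).ne'
    have : 8 * l = Real.pi := by unfold NUP1.l; ring
    linarith [hr.1]
  constructor
  · have h := Bdd_of_Gr (K := Set.Icc x0 (21 / 20 * l)) (f := Lg p q) isCompact_Icc
      (α := 21 / 20 * l) (β := x0) (s := 0) (fun r hr => hr) (Lg_gr _ _ p q)
      (fun u hu => (Lg_diff (hs _ hu)).continuousAt)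
    refine h.rate ?_
    simp
  · intro u hu
    exact Lg_diff (hs _ hu)

theorem SpecAt.mul0 {x0 : ℝ} {b : Bool} {s t : ℂ → ℂ} (h : SpecAt x0 b 0 s)
    (h' : SpecAt x0 b 0 t) : SpecAt x0 b 0 fun u => s u * t u where
  bd := (h.bd.mul h'.bd).rate (by ring)
  df z hz := (h.df z hz).mul (h'.df z hz)

/-- **the one body bound** -/
theorem LgV_SpecAt {x0 : ℝ} (hx0 : 3 / 5 * l ≤ x0) (b : Bool) {z z' : ℂ}
    (h1 : -(9 / 10 * l) ≤ z.re) (h2 : z.re < 37 / 10 * l) (h3 : |z'.re| < 7 / 10 * l) :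
    SpecAt x0 b ((0 : ℤ) : ℝ) (LgV z z') := by
  have hl := Bd.l_pos
  obtain ⟨h4, h5⟩ := abs_lt.1 h3
  rw [Int.cast_zero]
  have a := Lg_SpecAt2 (x0 := x0) b (p := z) (q := z) (by linarith) (by linarith)
  have a' := Lg_SpecAt2 (x0 := x0) b (p := z' + 3 * l) (q := z' - 3 * l)
    (by rw [re_3l]; linarith) (by rw [re_3l]; linarith)
  have h := SpecAt.mul0 a a'
  have e1 : (fun u => Lg z z u * Lg (z' + 3 * l) (z' - 3 * l) u) = LgV z z' := by
    funext u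
    rw [LgV_eq]
  rw [e1] at h
  exact h

theorem LgV_SpecS {P : NUO.Par} (z z' : ℂ) :
    SpecS P ∅ (LgV z z') (fun w => LgV z z' w * LgV z z' (w - l)) :=
  ⟨fun _ _ => le_of_eq (norm_mul _ _), fun _ _ _ _ _ _ => le_of_eq (norm_mul _ _)⟩

theorem SpA.mul0 {s t : ℂ → ℂ} (h : SpA s) (h' : SpA t) : SpA fun u => s u * t u where
  meas := h.meas.mul h'.meas
  diff z h3 h4 := (h.diff z h3 h4).mul (h'.diff z h3 h4)
  gr := (h.gr.mul h'.gr).mono (by norm_num)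

/-- **the contour identity** -/
theorem LgV_SpA {z z' : ℂ} (h1 : -(7 / 5 * l) < z.re) (h2 : z.re < 43 / 10 * l)
    (h3 : |z'.re| < 7 / 10 * l) : SpA (LgV z z') := by
  have hl := Bd.l_pos
  obtain ⟨h4, h5⟩ := abs_lt.1 h3
  have a := Lg_SpA (p := z) (q := z) h1 h2
  have a' := Lg_SpA (p := z' + 3 * l) (q := z' - 3 * l) (by rw [re_3l]; linarith)
    (by rw [re_3l]; linarith)
  have h := SpA.mul0 a a'
  have e1 : (fun u => Lg z z u * Lg (z' + 3 * l) (z' - 3 * l) u) = LgV z z' := by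
    funext u
    rw [LgV_eq]
  rw [e1] at h
  exact h

/-! ### class functions -/

variable {m : ℕ}

/-- **class functions with legs at `z`, anti-legs at `z'`** -/
def ZV (β : ℝ) (x : Fin m → ℂ) (ex ex0 : List ℂ) (z z' : ℂ) : Bool → Option O3 → ℂ → ℂ := fun _ =>
  XX (Leg.cc m) β x x (gP β ex) (gP (4 / 3) ex0) (LgV z z') (fun w => LgV z z' w * LgV z z' (w - l))

theorem measurable_ZV (β : ℝ) (x : Fin m → ℂ) (ex ex0 : List ℂ) (z z' : ℂ) (a : Bool)
    (k : Option O3) : Measurable (ZV β x ex ex0 z z' a k) :=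
  measurable_XX (measurable_gP _ _) (measurable_gP _ _) (LgV_meas z z')
    ((LgV_meas z z').mul ((LgV_meas z z').comp (measurable_id.sub_const _))) k

/-- **the class functions are bounded by their one body data** -/
theorem oneC_ZV {P : NUO.Par} {ep β x0 : ℝ} (hx0 : 3 / 5 * l ≤ x0) (hx0' : x0 ≤ 19 / 20 * l)
    (hP : ParC P) (hep0 : 0 < ep) (hep : ep ≤ 1 / 100) (hβ : 0 < β) (hβ' : β ≤ 4 / 3)
    {x : Fin m → ℂ} (hx : Rws x) {ex : List ℂ} (hex : ∀ w ∈ ex, |w.re| ≤ l / 2) (ex0 : List ℂ)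
    {z z' : ℂ} (h1 : -(9 / 10 * l) ≤ z.re) (h2 : z.re < 37 / 10 * l) (h3 : |z'.re| < 7 / 10 * l) :
    OneC (ZV β x ex ex0 z z') (obX ‖Leg.cc m‖ β x ex ex0 fun _ u => thV z z' u) P ep (2 * β) x0 0
      (Set.range fun i => (x i).im) := by
  have h := oneC_XX (E := ∅) (q := 0) (c := fun _ => Leg.cc m) (s1 := fun _ => LgV z z')
    (s2 := fun _ w => LgV z z' w * LgV z z' (w - l)) hx0 hx0' hP hep0 hep hβ hβ' hx hex ex0
    (fun _ => rfl) (fun _ => LgV_meas z z')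
    (fun _ => (LgV_meas z z').mul ((LgV_meas z z').comp (measurable_id.sub_const _)))
    (fun a => LgV_SpecAt hx0 a h1 h2 h3) (fun _ => LgV_SpecS z z') (by simp)
  rw [Set.empty_union] at h
  simp only [norm_LgV] at h
  exact h

/-- the decay of the class functions -/
theorem decZ_ZV {P : NUO.Par} {β : ℝ} (hP : ParC P) (hβ : 0 < β) (hβ' : β ≤ 4 / 3) {x : Fin m → ℂ}
    (hx : Rws x) {ex ex0 : List ℂ} (hex : ∀ w ∈ ex, |w.re| ≤ l / 2)
    (hex0 : ∀ w ∈ ex0, |w.re| ≤ l / 2) {z z' : ℂ} (h1 : -l < z.re) (h2 : z.re < 37 / 10 * l)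
    (h3 : |z'.re| < 7 / 10 * l) : DecZ (ZV β x ex ex0 z z') P (3 / 5 * l) (2 * β) 0 :=
  decZ_XX (c := fun _ => Leg.cc m) (s1 := fun _ => LgV z z')
    (s2 := fun _ w => LgV z z' w * LgV z z' (w - l)) hP hβ hβ' hx (GOk.gP hβ hβ' hex)
    (GOk.gP (by norm_num) le_rfl hex0) fun a => LgV_SpecQ a h1 h2 h3

/-- **the state sum with `n` quanta is the functional of the classes** -/
theorem DZ_ZV {P : NUO.Par} {ep β : ℝ} (hP : ParC P)
    (hρ : ∀ r, ∃ ρ0, 0 < ρ0 ∧ ∀ t, ρ0 ≤ P.rad r t) (hep0 : 0 < ep) (hep : ep ≤ 1 / 100)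
    (hβ : 0 < β) (hβ' : β ≤ 4 / 3) {x : Fin m → ℂ} (hx : Rws x) {ex ex0 : List ℂ}
    (hex : ∀ w ∈ ex, |w.re| ≤ l / 2) (hex0 : ∀ w ∈ ex0, |w.re| ≤ l / 2) {z z' : ℂ}
    (h1 : -(9 / 10 * l) ≤ z.re) (h2 : z.re < 37 / 10 * l) (h3 : |z'.re| < 7 / 10 * l) {n : ℕ}
    {η η' : Crs} (hη : ∀ r ≤ n + n, ∀ᵐ O ∂(Measure.pi fun _ : Fin r => nu), CurB ep (η r O) (η' r O)) :
    DZ (Leg.cc m) (Leg.cc m) (LgV z z') (LgV z z') x x n =
      FF (ZV β x ex ex0 z z') P n n η η' (fun _ _ _ _ _ => 1) := by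
  have hl := Bd.l_pos
  exact DZ_FF (c := fun _ => Leg.cc m) (c0 := ‖Leg.cc m‖) (s1 := fun _ => LgV z z')
    (s2 := fun _ w => LgV z z' w * LgV z z' (w - l)) (E := ∅) hP hρ hep0 hep hβ hβ' hx hex hex0
    (fun _ => rfl) (fun _ => LgV_SpA (by linarith) (by linarith) h3)
    (fun a => LgV_SpecQ a (by linarith) h2 h3) (fun a => LgV_SpecAt le_rfl a h1 h2 h3) (by simp)
    (fun _ => LgV_SpecS z z') hη

end PVS

end
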