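import Pool.Agent.PB.ValD
import Pool.Agent.PB.ValPf

/-!
# Plan V: the value of the sea with legs at `z` and anti-legs at `z'`

Rows `x, 0, .., 0` in both groups, spectator `thZ z u / thZ z' u`.

* `HlegV κ z z' x η a t = Hleg κ z x η a t - Hleg 0 z' 0 η a t`: the potential (`HlegV_eq`);
* `nrmV z z' mu = nrm z mu * exp (2 ∑ᵢ lE (z' - muᵢ))`: the normaliser (`nrmV_eq`: the moduli of the factors
  `rh (z' - muᵢ) ^ 4 / Lw .pos (z' - muᵢ) ^ 2` of the anti-legs);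
* `exists_HVc`: `∫ m P HlegV`, every admissible curve;
* **`exists_valV`**: `nrmV z z' mu * exp (MF m + ∑ₐ ∫ m P HlegV κ) ≤ C exp (- 12 l h(Im z) + 12 l h(Im z') +
  24 κ l h(0))`, uniformly in `m`, the heights of `z`, `z'` and `x`.
-/

set_option autoImplicit false
set_option linter.unusedSectionVars false

open MeasureTheory Set Filter Topology Complex

namespace PVV

open NUMF (l l_pos)
open NUMFH (mE lE QE)
open PBV (nrm mu0)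
open PBH (Hleg)

noncomputable section

/-- the potential of the legs at `z`, anti-legs at `z'`, row `x` in place of a row at `0`, ends removed
`κ` times -/
def HlegV (κ : ℝ) (z z' x : ℂ) (η : ℝ → ℝ) (a : Bool) (t : ℝ) : ℝ :=
  Hleg κ z x η a t - Hleg 0 z' 0 η a t

theorem HlegV_eq (κ : ℝ) (z z' x : ℂ) (η : ℝ → ℝ) (a : Bool) (t : ℝ) :
    HlegV κ z z' x η a t = Hleg κ z x η a t - Real.log (PBO.thZ z' (NUO.pA η t)) := by
  unfold HlegV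
  congr 1
  unfold Hleg
  ring

/-- modulus of the normaliser of the sum over the quanta -/
def nrmV {m : ℕ} (z z' : ℂ) (mu : Fin m → ℂ) : ℝ :=
  nrm z mu * Real.exp (2 * ∑ i, lE (z' - mu i))

theorem nrmV_nonneg {m : ℕ} (z z' : ℂ) (mu : Fin m → ℂ) : 0 ≤ nrmV z z' mu :=
  mul_nonneg (norm_nonneg _) (Real.exp_pos _).le

/-- the factors of the anti-legs -/
theorem nrmV_eq {m : ℕ} {z z' : ℂ} {mu : Fin m → ℂ} (h1 : ∀ i, -l ≤ (z' - mu i).re)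
    (h2 : ∀ i, (z' - mu i).re ≤ 4 * l) :
    nrmV z z' mu = nrm z mu *
      ∏ i, (‖PBR.rh (z' - mu i)‖ ^ 4 / ‖PBS.Lw .pos (z' - mu i)‖ ^ 2) := by
  unfold nrmV
  congr 1
  rw [Finset.mul_sum, Real.exp_sum]
  exact Finset.prod_congr rfl fun i _ => PBS.exp_lE (h1 i) (h2 i)

/-- the normaliser in terms of the prefactor `Pf` of class D -/
theorem nrmV_Pf {m : ℕ} {z z' : ℂ} {mu : Fin m → ℂ} (h1 : ∀ i, -l ≤ (z' - mu i).re)
    (h2 : ∀ i, (z' - mu i).re ≤ 4 * l) :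
    nrmV z z' mu = ‖Pool.Agent.PB.Pf z mu mu *
      ∏ i, (PBR.rh (z' - mu i) ^ 4 / PBS.Lw .pos (z' - mu i) ^ 2)‖ := by
  rw [nrmV_eq h1 h2, PBV.nrm_Pf, norm_mul, norm_prod]
  congr 1
  refine Finset.prod_congr rfl fun i _ => ?_
  rw [norm_div, norm_pow, norm_pow]

section P0

attribute [local instance] NUSea.seaP

/-- **the integral of the potential**, every admissible curve -/
theorem exists_HVc {e1 Cc : ℝ} (he : 0 < e1) (he1 : e1 ≤ 1) (hCc : 0 ≤ Cc) : ∃ C : ℝ, 1 ≤ C ∧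
    ∀ (m : ℕ) (η η1 : ℝ → ℝ), 1 ≤ m → PotH.CrvP e1 Cc m η η1 →
    (∀ t, |NUSea.hd m η η1 t| ≤ 1) → ∀ (κ : ℝ) (z z' x : ℂ), |κ| ≤ 2 → -(9 / 10 * l) ≤ z.re →
      z.re ≤ 37 / 10 * l → -(9 / 10 * l) ≤ z'.re → z'.re ≤ 37 / 10 * l → |x.re| ≤ l / 2 →
      ∀ a : Bool, Integrable (fun t => (m : ℝ) * NUMF.P t * HlegV κ z z' x η a t) ∧
      |(∫ t, (m : ℝ) * NUMF.P t * HlegV κ z z' x η a t) -
        (m * (lE z + mE x - mE 0 - lE z') -
          6 * l * (m * NUMF.P z.im * η z.im) + 6 * l * (m * NUMF.P z'.im * η z'.im) +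
          12 * κ * l * (m * NUMF.P 0 * η 0))| ≤ C := by
  obtain ⟨C, hC, H⟩ := PBV.exists_HDc he he1 hCc
  refine ⟨2 * C, by linarith, ?_⟩
  intro m η η1 hm hcv hA κ z z' x hκ hz1 hz2 hz1' hz2' hx a
  have hl := l_pos
  obtain ⟨i1, a1⟩ := H m η η1 hm hcv hA κ z x hκ hz1 hz2 hx a
  obtain ⟨i2, a2⟩ := H m η η1 hm hcv hA 0 z' 0 (by rw [abs_zero]; norm_num) hz1' hz2'
    (by rw [Complex.zero_re, abs_zero]; positivity) a
  have e1 : (fun t => (m : ℝ) * NUMF.P t * HlegV κ z z' x η a t) = fun t =>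
      (m : ℝ) * NUMF.P t * Hleg κ z x η a t - (m : ℝ) * NUMF.P t * Hleg 0 z' 0 η a t := by
    funext t
    unfold HlegV
    ring
  rw [e1]
  refine ⟨i1.sub i2, ?_⟩
  rw [integral_sub i1 i2]
  rw [abs_le] at a1 a2 ⊢
  constructor <;> linarith [a1.1, a1.2, a2.1, a2.2]

/-- **the value of the sea with legs at `z` and anti-legs at `z'`**, every admissible curve -/
theorem exists_valV {e1 Cc : ℝ} (he : 0 < e1) (he1 : e1 ≤ 1) (hCc : 0 ≤ Cc) : ∃ C : ℝ, 1 ≤ C ∧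
    ∀ (n : ℕ) (η η1 : ℝ → ℝ), PotH.CrvP e1 Cc (n + 1) η η1 →
    (∀ t, |NUSea.hd ((n + 1 : ℕ) : ℝ) η η1 t| ≤ 1) → ∀ (κ : ℝ) (z z' x : ℂ), |κ| ≤ 2 →
      -(9 / 10 * l) ≤ z.re → z.re ≤ 37 / 10 * l → -(9 / 10 * l) ≤ z'.re → z'.re ≤ 37 / 10 * l →
      |x.re| ≤ l / 2 → -l ≤ (z - x).re → (z - x).re ≤ 4 * l → -l ≤ (z' - x).re →
      (z' - x).re ≤ 4 * l →
      nrmV z z' (mu0 n x) * Real.exp (NUSea.MF ((n + 1 : ℕ) : ℝ) +
        ∑ a : Bool, ∫ t, ((n + 1 : ℕ) : ℝ) * NUSea.P t * HlegV κ z z' x η a t) ≤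
      C * Real.exp (-(12 * l * (((n + 1 : ℕ) : ℝ) * NUSea.P z.im * η z.im)) +
        12 * l * (((n + 1 : ℕ) : ℝ) * NUSea.P z'.im * η z'.im) +
        24 * κ * l * (((n + 1 : ℕ) : ℝ) * NUSea.P 0 * η 0)) := by
  obtain ⟨C1, hC1, H1⟩ := PBV.nrm_MF
  obtain ⟨C2, hC2, H2⟩ := exists_HVc he he1 hCc
  obtain ⟨C3, hC3, H3⟩ := NUMFH.exists_lE
  refine ⟨C1 * Real.exp (2 * C2 + 4 * C3), ?_, ?_⟩
  · have h1 := Real.one_le_exp (show 0 ≤ 2 * C2 + 4 * C3 by linarith)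
    nlinarith
  intro n η η1 hcv hA κ z z' x hκ z1 z2 z1' z2' hx z3 z4 z3' z4'
  have hl := l_pos
  obtain ⟨a1, -⟩ := H1 n x z hx (by linarith) (by linarith) z3 z4
  have b1 := (H2 (n + 1) η η1 (by omega) hcv hA κ z z' x hκ z1 z2 z1' z2' hx true).2
  have b2 := (H2 (n + 1) η η1 (by omega) hcv hA κ z z' x hκ z1 z2 z1' z2' hx false).2
  rw [Fintype.sum_bool, PBV.MF_seaP]
  have e0 : (NUSea.P : ℝ → ℝ) = NUMF.P := rfl
  rw [e0]
  have hn : 0 ≤ nrm z (mu0 n x) := norm_nonneg _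
  have d1 := (abs_le.1 (H3 (z' - x) z3' z4')).2
  have d2 := (abs_le.1 (H3 z' (by linarith) (by linarith))).1
  -- the factors of the anti-legs
  have hS : ∑ i, lE (z' - mu0 n x i) = lE (z' - x) + n * lE z' := by
    rw [Fin.sum_univ_succ]
    simp [mu0]
  obtain ⟨A, hA'⟩ : ∃ A : ℝ, A = ((n + 1 : ℕ) : ℝ) ^ 2 * mE 0 +
    2 * ((n + 1 : ℕ) : ℝ) * (lE z + mE x - mE 0) := ⟨_, rfl⟩
  rw [← hA'] at a1
  have h3 : 2 * ∑ i, lE (z' - mu0 n x i) + (((n + 1 : ℕ) : ℝ) ^ 2 * mE 0 +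
      ((∫ t, ((n + 1 : ℕ) : ℝ) * NUMF.P t * HlegV κ z z' x η true t) +
        ∫ t, ((n + 1 : ℕ) : ℝ) * NUMF.P t * HlegV κ z z' x η false t)) ≤
      A + (2 * C2 + 4 * C3 +
      (-(12 * l * (((n + 1 : ℕ) : ℝ) * NUMF.P z.im * η z.im)) +
        12 * l * (((n + 1 : ℕ) : ℝ) * NUMF.P z'.im * η z'.im) +
        24 * κ * l * (((n + 1 : ℕ) : ℝ) * NUMF.P 0 * η 0))) := by
    rw [hA', hS]
    have c1 := (abs_le.1 b1).2
    have c2 := (abs_le.1 b2).2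
    push_cast at c1 c2 ⊢
    nlinarith [c1, c2, d1, d2]
  calc _ = nrm z (mu0 n x) * Real.exp (2 * ∑ i, lE (z' - mu0 n x i) +
      (((n + 1 : ℕ) : ℝ) ^ 2 * mE 0 +
      ((∫ t, ((n + 1 : ℕ) : ℝ) * NUMF.P t * HlegV κ z z' x η true t) +
        ∫ t, ((n + 1 : ℕ) : ℝ) * NUMF.P t * HlegV κ z z' x η false t))) := by
        unfold nrmV
        rw [mul_assoc, ← Real.exp_add]
    _ ≤ nrm z (mu0 n x) * Real.exp (A + (2 * C2 + 4 * C3 +
      (-(12 * l * (((n + 1 : ℕ) : ℝ) * NUMF.P z.im * η z.im)) +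
        12 * l * (((n + 1 : ℕ) : ℝ) * NUMF.P z'.im * η z'.im) +
        24 * κ * l * (((n + 1 : ℕ) : ℝ) * NUMF.P 0 * η 0)))) :=
        mul_le_mul_of_nonneg_left (Real.exp_le_exp.2 h3) hn
    _ = (nrm z (mu0 n x) * Real.exp A) * Real.exp (2 * C2 + 4 * C3) *
        Real.exp (-(12 * l * (((n + 1 : ℕ) : ℝ) * NUMF.P z.im * η z.im)) +
        12 * l * (((n + 1 : ℕ) : ℝ) * NUMF.P z'.im * η z'.im) +
        24 * κ * l * (((n + 1 : ℕ) : ℝ) * NUMF.P 0 * η 0)) := by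
        rw [Real.exp_add, Real.exp_add]
        ring
    _ ≤ _ := by
        refine mul_le_mul_of_nonneg_right ?_ (Real.exp_pos _).le
        exact mul_le_mul_of_nonneg_right a1 (Real.exp_pos _).le

end P0

end

end PVV
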