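import Pool.Agent.PV.DomV
import Pool.Agent.PV.ValV
import Pool.Agent.PV.SpV
import Pool.Agent.PB.UXL

/-!
# Plan V: curve, cutoff, potential, one body data of the family with anti-legs (helper79)

* `hokV`: the potential `HlegV κ z z' x` is admissible (8 atoms);
* **`envF_V`**: `EnvF` for every family with the `ok` of `famL` and the one body data
  `obX .. (thZ z / thZ z')`, `z'` in the box.
-/

set_option autoImplicit false
set_option linter.unusedSectionVars false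

noncomputable section

open Complex Filter Topology

namespace PVD

open NUO NUP1 NUP1S NUP1S.Ab NUP1S.AbC NUGC PBF PBP PBU
open PBT (etL etL' crvL)
open PBL (mu1)
open PotH (EnvH DomH CrvP CutR crH HOk)
open PVV (HlegV HlegV_eq)

attribute [local instance] NUSea.seaP

/-- the atoms of `HlegV` -/
def alegV (κ : ℝ) (z z' x : ℂ) (_a : Bool) : Fin 8 → PBH.Atm :=
  ![⟨1, z.re, z.re - 3 * NUMF.l, z.im⟩, ⟨1, x.re, x.re + 3 * NUMF.l, x.im⟩,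
    ⟨1, x.re, x.re - 3 * NUMF.l, x.im⟩, ⟨-1, 0, 3 * NUMF.l, 0⟩, ⟨-1, 0, -(3 * NUMF.l), 0⟩,
    ⟨-(κ / 2), 7 / 2 * NUMF.l, -(7 / 2 * NUMF.l), 0⟩,
    ⟨-(κ / 2), 5 / 2 * NUMF.l, -(5 / 2 * NUMF.l), 0⟩, ⟨-1, z'.re, z'.re - 3 * NUMF.l, z'.im⟩]

theorem HlegV_at {κ δ : ℝ} (hδ : 0 < δ) (hδ1 : δ ≤ NUMF.l / 2) {η : ℝ → ℝ}
    (hη : ∀ t, |η t| ≤ δ / 2) {z z' x : ℂ}
    (h0 : -NUMF.l + δ ≤ z.re) (h1 : z.re ≤ 4 * NUMF.l - δ) (h0' : -NUMF.l + δ ≤ z'.re)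
    (h1' : z'.re ≤ 4 * NUMF.l - δ) (hx : |x.re| ≤ NUMF.l - δ) :
    HlegV κ z z' x η = PBH.HS (alegV κ z z' x) η := by
  have hl := NUMF.l_pos
  funext a t
  have e0 := congrFun (congrFun (PBH.Hleg_eq (κ := κ) hδ hδ1 hη h0 h1 hx) a) t
  have e3 := (PBH.thZ_pA hδ (by linarith) hη h0' h1' t).2
  rw [HlegV_eq, e0, e3]
  unfold PBH.HS PBH.aleg alegV
  simp only [Fin.sum_univ_succ, Matrix.cons_val_zero, Matrix.cons_val_succ, Fin.sum_univ_zero,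
    Matrix.cons_val_fin_one]
  ring

lemma alegV_ok {κ δ : ℝ} (hκ : |κ| ≤ 2) (hδ : 0 < δ) (hδ1 : δ ≤ NUMF.l / 2) {z z' x : ℂ}
    (h0 : -NUMF.l + δ ≤ z.re) (h1 : z.re ≤ 4 * NUMF.l - δ) (h0' : -NUMF.l + δ ≤ z'.re)
    (h1' : z'.re ≤ 4 * NUMF.l - δ) (hx : |x.re| ≤ NUMF.l - δ) :
    PBH.AtOk 1 δ (alegV κ z z' x) := by
  have hl := NUMF.l_pos
  obtain ⟨x1, x2⟩ := abs_le.1 hx
  obtain ⟨k1, k2⟩ := abs_le.1 hκ
  intro a i
  fin_cases i
  all_goals refine ⟨abs_le.2 ⟨?_, ?_⟩, abs_le.2 ⟨?_, ?_⟩, abs_le.2 ⟨?_, ?_⟩⟩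
  all_goals simp [alegV]
  all_goals linarith

/-- **admissibility of the potential** -/
theorem hokV {δ : ℝ} (hδ : 0 < δ) (hδ1 : δ ≤ NUMF.l / 2) :
    ∃ B0 N0 : ℝ, 0 ≤ B0 ∧ 0 ≤ N0 ∧ ∀ e1 : ℝ, 0 < e1 → ∃ m0 : ℕ, ∀ m : ℕ, m0 ≤ m →
      ∀ (Cc : ℝ) (η η1 : ℝ → ℝ), CrvP e1 Cc m η η1 → ∀ (κ : ℝ) (z z' x : ℂ), |κ| ≤ 2 →
      -NUMF.l + δ ≤ z.re → z.re ≤ 4 * NUMF.l - δ → -NUMF.l + δ ≤ z'.re →
      z'.re ≤ 4 * NUMF.l - δ → |x.re| ≤ NUMF.l - δ →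
      (∀ t, |η t| ≤ δ / 4) ∧ ∃ H' : Bool → ℝ → ℝ, ∀ th b : ℝ, 0 ≤ th →
        HOk B0 N0 th b (Real.log m ^ 3) (HlegV κ z z' x η) H' := by
  have hl := NUMF.l_pos
  have h8 := PBH.l8
  have hpi := Real.pi_lt_four
  obtain ⟨B0, N0, hB0, hN0, H⟩ := PBH.hok 8 (K := 1) (δ := δ) zero_le_one hδ (by linarith)
  refine ⟨B0, N0, hB0, hN0, fun e1 he1 => ?_⟩
  obtain ⟨m0, H⟩ := H e1 he1
  have t1 : Filter.Tendsto (fun m : ℕ => (m : ℝ) ^ (-(e1 / 2))) Filter.atTop (nhds 0) :=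
    (tendsto_rpow_neg_atTop (by linarith : 0 < e1 / 2)).comp tendsto_natCast_atTop_atTop
  obtain ⟨m1, hm1⟩ := Filter.eventually_atTop.1 (t1.eventually (ge_mem_nhds (by linarith :
    (0 : ℝ) < δ / 4)))
  refine ⟨max m0 m1, fun m hm Cc η η1 hη κ z z' x hκ h0 h1 h0' h1' hx => ?_⟩
  have hS := PBH.sm_of hη (hm1 m ((le_max_right _ _).trans hm))
  have hη2 : ∀ t, |η t| ≤ δ / 2 := fun t => (hS.le t).trans (by linarith)
  refine ⟨hS.le, PBH.HS' (alegV κ z z' x) η η1, fun th b hth => ?_⟩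
  rw [HlegV_at hδ hδ1 hη2 h0 h1 h0' h1' hx]
  exact H m ((le_max_left _ _).trans hm) Cc η η1 hη _ (alegV_ok hκ hδ hδ1 h0 h1 h0' h1' hx) th b hth

/-- **curve, cutoff, potential and one body data of a family with anti-legs at `z'`** -/
theorem envF_V {F : Fam (ℂ × ℂ)} {B : ℝ → ℕ → ℂ × ℂ → OB} {lin : ℝ → ℝ → ℕ → ℂ × ℂ → ℝ}
    {z' : ℂ} (hz0 : -(9 / 10 * NUP1.l) ≤ z'.re) (hz1 : z'.re ≤ 37 / 10 * NUP1.l)
    (hok : ∀ (m : ℕ) (i : ℂ × ℂ), F.ok m i → famL.ok m i) {s : ℂ → ℂ → ℝ}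
    (hs : ∀ z u, s z u = PBX.thZ z u / PBX.thZ z' u)
    (hB : ∀ (ep : ℝ) (m : ℕ) (i : ℂ × ℂ), B ep m i = PBX.obX (2 * Real.cos NUP1.l) (4 / 3 * (1 - ep))
      (mu1 (m - 1) i.1) [I, -I] [] fun _ u => s i.2 u)
    (hlin : ∀ (e1 J : ℝ) (m : ℕ) (i : ℂ × ℂ), NUSea.MF (m : ℝ) + (NUCR.bil (NUSea.hd m (etL e1 J m) (etL' e1 J m))
      (NUSea.hd m (etL e1 J m) (etL' e1 J m)) - 24 * NUMF.l * crH (etL e1 J m) m 0 +
      ∑ a, ∫ t, (m : ℝ) * NUSea.P t * HlegV 1 i.2 z' i.1 (etL e1 J m) a t) ≤ lin e1 J m i) :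
    EnvF F B lin := by
  have hl : 0 < NUMF.l := NUMF.l_pos
  have hll : NUP1.l = NUMF.l := rfl
  rw [hll] at hz0 hz1
  obtain ⟨B0, N0, hB0, hN0, HH⟩ := hokV (δ := NUMF.l / 10) (by positivity) (by linarith)
  refine ⟨B0, N0, hB0, hN0, fun ep hep hep1 e1 he he1 J hJ => ?_⟩
  obtain ⟨Cc, hCc, m1, Hc⟩ := crvL he he1 hJ
  obtain ⟨C0, hC0, m2, -, Hcut⟩ := PotH.exists_cutR hep hep1 he he1 Cc 3 (hh := 2) (by norm_num)
  obtain ⟨m3, HH⟩ := HH e1 he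
  refine ⟨Cc, C0, hCc, hC0, max (max m1 m2) (max m3 1), fun m hm i hi => ?_⟩
  have k1 : m1 ≤ m := (le_max_left _ _).trans ((le_max_left _ _).trans hm)
  have k2 : m2 ≤ m := (le_max_right _ _).trans ((le_max_left _ _).trans hm)
  have k3 : m3 ≤ m := (le_max_left _ _).trans ((le_max_right _ _).trans hm)
  have k4 : 1 ≤ m := (le_max_right _ _).trans ((le_max_right _ _).trans hm)
  obtain ⟨Bc, Bc', Hcut⟩ := Hcut m k2
  have hcv := Hc m k1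
  have hL := hlin e1 J m i
  have hBi := hB ep m i
  obtain ⟨x, z⟩ := i
  obtain ⟨h1, h2, h3, h4, h5⟩ := hok m _ hi
  dsimp only at h1 h2 h3 h4 h5 hL hBi
  rw [hll] at h1 h3 h4
  obtain ⟨hA, H', hH⟩ := HH m k3 Cc (etL e1 J m) (etL' e1 J m) hcv 1 z z' x (by norm_num)
    (by linarith) (by linarith) (by linarith) (by linarith) (by linarith)
  obtain ⟨k, rfl⟩ : ∃ k, m = k + 1 := ⟨m - 1, by omega⟩
  refine ⟨PotH.cfW ep (List.ofFn (mu1 k x) ++ [I, -I]) (etL e1 J (k + 1)), Bc, Bc',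
    HlegV 1 z z' x (etL e1 J (k + 1)), H', fun th hth => ?_, hL⟩
  rw [hBi]
  refine
    { crv := hcv
      cut := Hcut k (List.ofFn (mu1 k x) ++ [I, -I]) [x, I, -I] ?_ _ _ hcv
      hok := hH th _ hth
      nn := fun a u => ?_
      dom := fun a t => ?_ }
  · refine
      { perm := ?_
        len := by simp
        pt := ?_
        up := by omega
        dn := by omega }
    · rw [PBL.ofFn_mu1]
      have : (x :: List.replicate k (0 : ℂ)).Perm (List.replicate k 0 ++ [x]) :=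
        List.perm_append_comm (l₁ := [x]) (l₂ := List.replicate k 0)
      refine (this.append_right _).trans ?_
      rw [List.append_assoc]
      rfl
    · intro y hy
      simp only [List.mem_cons, List.not_mem_nil, or_false] at hy
      have hl1 := NUP1.l_pos
      rcases hy with rfl | rfl | rfl
      · exact ⟨by linarith, h2⟩
      · simp
        positivity
      · simp
        positivity
  · have hc : 0 ≤ Real.cos NUP1.l := Real.cos_nonneg_of_mem_Icc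
      ⟨by linarith [Real.pi_pos, NUP1.l_pos], by unfold NUP1.l; linarith [Real.pi_pos]⟩
    show 0 ≤ 2 * Real.cos NUP1.l * (∏ i, PBX.rwC (mu1 k x i) u) * s z u
    rw [hs]
    refine mul_nonneg (mul_nonneg (by positivity) (Finset.prod_nonneg fun i _ =>
      PBX.rwC_nonneg _ _)) (div_nonneg (PBX.thZ_nonneg _ _) (PBX.thZ_nonneg _ _))
  · have h := domV (δ := NUMF.l / 10) (by positivity) (by linarith) (η := etL e1 J (k + 1))
      (fun t => (hA t).trans (by linarith)) (z := z) (z' := z') (x := x) (by linarith) (by linarith)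
      (by linarith) (by linarith) (by linarith) k (4 / 3 * (1 - ep)) [I, -I] [] (hs z) g0 a t
    exact le_of_eq h

end PVD

end
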