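import Pool.Agent.PB.TopG
import Pool.Agent.PV.SpV
import Pool.Agent.PV.ValV

/-!
# Plan V: the potential of legs at `z`, anti-legs at `z'`, rows `x, 0, …, 0`

* `obV k β x z z'`: one body data (spectator `PVS.thV = thZ z / thZ z'`);
* `linV e1 J m x z z'`: mean field value, energy and linear terms of the current, potential `PVV.HlegV`;
* `alegV`: the atoms of `PVV.HlegV`, `HlegV_HS`; **`hokV`**: the potential is admissible, any heights;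
* `facV`: the factors on the curve.
-/

set_option autoImplicit false
set_option linter.unusedSectionVars false

noncomputable section

open Complex MeasureTheory Finset
open scoped ENNReal

namespace PVT

open NUO NUP1 NUP1S NUP1S.Ab NUP1S.AbC NUGC PBF
open PBX (obX obX_nn)
open PBL (mu1)
open PotH (crH)
open PBT
open PVV (HlegV)
open PVS (thV)

attribute [local instance] NUSea.seaP

/-- one body data: rows `x, 0, …, 0`, legs at `z`, anti-legs at `z'`, cutoff with the points `± i` -/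
def obV (k : ℕ) (β : ℝ) (x z z' : ℂ) : OB :=
  obX (2 * Real.cos NUP1.l) β (mu1 k x) [I, -I] [] fun _ u => thV z z' u

theorem obV_nn (k : ℕ) (β : ℝ) (x z z' : ℂ) : (obV k β x z z').Nn :=
  obX_nn two_cos.1 β _ _ _ fun _ _ => PVS.thV_nonneg _ _ _

/-- mean field value, energy and linear terms of the current -/
def linV (e1 J : ℝ) (m : ℕ) (x z z' : ℂ) : ℝ :=
  NUSea.MF (m : ℝ) + (NUCR.bil (NUSea.hd m (etL e1 J m) (etL' e1 J m))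
    (NUSea.hd m (etL e1 J m) (etL' e1 J m)) - 24 * NUMF.l * crH (etL e1 J m) m 0 +
    ∑ a, ∫ t, (m : ℝ) * NUSea.P t * HlegV 1 z z' x (etL e1 J m) a t)

/-! ### the potential -/

/-- the atoms of the potential -/
def alegV (κ : ℝ) (z z' x : ℂ) (a : Bool) : Fin 8 → PBH.Atm :=
  Fin.cons ⟨-1, z'.re, z'.re - 3 * NUMF.l, z'.im⟩ (PBH.aleg κ z x a)

theorem HlegV_HS {κ δ : ℝ} {η : ℝ → ℝ} (hδ : 0 < δ) (hδ1 : δ ≤ NUMF.l / 2)
    (hη : ∀ t, |η t| ≤ δ / 2) {z z' x : ℂ} (h0 : -NUMF.l + δ ≤ z.re) (h1 : z.re ≤ 4 * NUMF.l - δ)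
    (h0' : -NUMF.l + δ ≤ z'.re) (h1' : z'.re ≤ 4 * NUMF.l - δ)
    (hx : |x.re| ≤ NUMF.l - δ) : HlegV κ z z' x η = PBH.HS (alegV κ z z' x) η := by
  have hl := NUMF.l_pos
  funext a t
  have e0 := congrFun (congrFun (PBH.Hleg_eq (κ := κ) hδ hδ1 hη h0 h1 hx) a) t
  have e3 := (PBH.thZ_pA hδ (by linarith) hη h0' h1' t).2
  rw [PVV.HlegV_eq, e0, e3]
  unfold PBH.HS alegV
  rw [Fin.sum_univ_succ (n := 7)]
  simp only [Fin.cons_zero, Fin.cons_succ]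
  ring

lemma alegV_ok {κ : ℝ} (hκ : |κ| ≤ 2) {δ : ℝ} (hδ : 0 < δ) (hδ1 : δ ≤ NUMF.l / 2) {z z' x : ℂ}
    (h0 : -NUMF.l + δ ≤ z.re) (h1 : z.re ≤ 4 * NUMF.l - δ)
    (h0' : -NUMF.l + δ ≤ z'.re) (h1' : z'.re ≤ 4 * NUMF.l - δ) (hx : |x.re| ≤ NUMF.l - δ) :
    PBH.AtOk 1 δ (alegV κ z z' x) := by
  have hl := NUMF.l_pos
  intro a i
  refine Fin.cases ?_ (fun j => ?_) i
  · show |(-1 : ℝ)| ≤ 1 ∧ |z'.re| ≤ 4 * NUMF.l - δ ∧ |z'.re - 3 * NUMF.l| ≤ 4 * NUMF.l - δ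
    refine ⟨by simp, abs_le.2 ⟨?_, ?_⟩, abs_le.2 ⟨?_, ?_⟩⟩ <;> linarith
  · exact PBH.aleg_ok hκ hδ hδ1 h0 h1 hx a j

/-- **the potential of the legs and anti-legs is admissible**: `-l + δ ≤ Re z, Re z' ≤ 4 l - δ`,
`|Re x| ≤ l - δ`, any heights -/
theorem hokV {δ : ℝ} (hδ : 0 < δ) (hδ1 : δ ≤ NUMF.l / 2) :
    ∃ B0 N0 : ℝ, 0 ≤ B0 ∧ 0 ≤ N0 ∧ ∀ e1 : ℝ, 0 < e1 → ∃ m0 : ℕ, ∀ m : ℕ, m0 ≤ m →
      ∀ (Cc : ℝ) (η η1 : ℝ → ℝ), PotH.CrvP e1 Cc m η η1 → ∀ (κ : ℝ) (z z' x : ℂ), |κ| ≤ 2 →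
      -NUMF.l + δ ≤ z.re → z.re ≤ 4 * NUMF.l - δ → -NUMF.l + δ ≤ z'.re → z'.re ≤ 4 * NUMF.l - δ →
      |x.re| ≤ NUMF.l - δ →
      (∀ t, |η t| ≤ δ / 2) ∧ ∃ H' : Bool → ℝ → ℝ, ∀ th b : ℝ, 0 ≤ th →
        PotH.HOk B0 N0 th b (Real.log m ^ 3) (HlegV κ z z' x η) H' := by
  have hl := NUMF.l_pos
  have h8 := PBH.l8
  have hpi := Real.pi_lt_four
  obtain ⟨B0, N0, hB0, hN0, H⟩ := PBH.hok 8 (K := 1) (δ := δ) (by norm_num) hδ (by linarith)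
  refine ⟨B0, N0, hB0, hN0, fun e1 he1 => ?_⟩
  obtain ⟨m0, H⟩ := H e1 he1
  have t1 : Filter.Tendsto (fun m : ℕ => (m : ℝ) ^ (-(e1 / 2))) Filter.atTop (nhds 0) :=
    (tendsto_rpow_neg_atTop (by linarith : 0 < e1 / 2)).comp tendsto_natCast_atTop_atTop
  obtain ⟨m1, hm1⟩ := Filter.eventually_atTop.1 (t1.eventually (ge_mem_nhds (by linarith :
    (0 : ℝ) < δ / 4)))
  refine ⟨max m0 m1, fun m hm Cc η η1 hη κ z z' x hκ h0 h1 h0' h1' hx => ?_⟩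
  have hS := PBH.sm_of hη (hm1 m ((le_max_right _ _).trans hm))
  have hη2 : ∀ t, |η t| ≤ δ / 2 := fun t => (hS.le t).trans (by linarith)
  refine ⟨hη2, PBH.HS' (alegV κ z z' x) η η1, fun th b hth => ?_⟩
  rw [HlegV_HS hδ hδ1 hη2 h0 h1 h0' h1' hx]
  exact H m ((le_max_left _ _).trans hm) Cc η η1 hη _ (alegV_ok hκ hδ hδ1 h0 h1 h0' h1' hx) th b hth

/-- **the factors on the curve**, shape of `PBH.hok_legs` -/
theorem facV {δ : ℝ} (hδ : 0 < δ) (hδ1 : δ ≤ NUMF.l / 2) {η : ℝ → ℝ} (hη : ∀ t, |η t| ≤ δ / 2)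
    {κ : ℝ} {z z' x : ℂ}
    (h0 : -NUMF.l + δ ≤ z.re) (h1 : z.re ≤ 4 * NUMF.l - δ) (h0' : -NUMF.l + δ ≤ z'.re)
    (h1' : z'.re ≤ 4 * NUMF.l - δ) (hx : |x.re| ≤ NUMF.l - δ) (a : Bool) (t : ℝ) :
    0 < thV z z' (pA η t) ∧ 0 < PBO.rwC x (pA η t) ∧ 0 < PBO.rwC 0 (pA η t) ∧
      0 < NUGC.ThN (pA η t) ∧ thV z z' (pA η t) * PBO.rwC x (pA η t) =
        PBO.rwC 0 (pA η t) * NUGC.ThN (pA η t) ^ κ * Real.exp (HlegV κ z z' x η a t) := by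
  have hl := NUMF.l_pos
  have p1 := (PBH.thZ_pA hδ (by linarith) hη h0 h1 t).1
  have p1' := (PBH.thZ_pA hδ (by linarith) hη h0' h1' t).1
  have p2 := (PBH.rwC_pA hδ (by linarith) hη hx t).1
  have p3 := (PBH.rwC_pA hδ (by linarith) hη (x := 0) (by simp; linarith) t).1
  have p4 := (PBH.ThN_pA hδ hδ1 hη t).1
  have e : thV z z' (pA η t) = PBO.thZ z (pA η t) / PBO.thZ z' (pA η t) := rfl
  refine ⟨by rw [e]; positivity, p2, p3, p4, ?_⟩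
  rw [e, PVV.HlegV_eq]
  unfold PBH.Hleg
  rw [Real.exp_sub, Real.exp_sub, Real.exp_sub, Real.exp_add, Real.exp_log p1, Real.exp_log p2,
    Real.exp_log p3, Real.exp_log p1', mul_comm κ, Real.exp_mul, Real.exp_log p4]
  have p5 := Real.rpow_pos_of_pos p4 κ
  field_simp

end PVT

end
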