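import Pool.Agent.PV.Defs
import Pool.Agent.PV.EnvV
import Pool.Agent.PV.HPotV
import Pool.Agent.PB.Mom4L

/-!
# Plan V: the bounds of the family `famV` (helper79)

* `LV_eq`, `thV_eq`, `ZV_eq`: the words of `PV.Defs` and of `PV.SpV`;
* `BV`, `linF`, **`envF_famV`**; **`uxV_of : TopF famV BV linF → UX famV`**; `mc_famV`;
* `mom4V_of`, `mbdV_of`: products of four statistics, the interface `MBd`, from `UX famV`.
-/

set_option autoImplicit false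
set_option linter.unusedSectionVars false

noncomputable section

open Complex MeasureTheory Finset
open scoped ENNReal

namespace PBU

open NUO NUP1 NUP1S NUP1S.Ab NUP1S.AbC NUGC PBF PBP PBFunc
open PBQM (Mom4 BB VN)

section gen

variable [NUSea.Sea] {ι : Type}

/-- **products of four statistics of a family**, one choice of the small parameters -/
theorem UX.mom4P {F : Fam ι} (h0 : UX F) (hmc : ∀ (ep e1 J : ℝ) (m : ℕ) (i : ι),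
    MC (F.Z ep m i) (NUSea.O.par0 m) (cr e1 J m) (cr' e1 J m)) {ε : ℝ} (hε : 0 < ε) :
    ∃ a0 : ℝ, 0 < a0 ∧ ∀ ep e1 J : ℝ, 0 < ep → 0 < e1 →
    e1 ≤ 1 / 100 → 0 ≤ J → Real.exp (-(2 * Real.pi * J)) + 3 * e1 + 3 * ep ≤ a0 →
    ∀ C0 y₁ y₂ : ℝ, y₁ < 0 → 0 < y₂ → ∃ m0 : ℕ, ∀ m ≥ m0, ∀ i : ι, F.ok m i →
    ∀ ρ : ℂ → ℂ, (Measurable fun u : ℝ => ρ u) → DN C0 m (fun t : ℝ => ρ t) →
      Mom4 (mN (F.top m)) (wF F ep e1 J m i) (VN (F.top m) (fun _ => cr e1 J m) ρ) y₁ y₂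
        ((m : ℝ) ^ ε * F.bd m i) := by
  obtain ⟨a0, ha0, h0⟩ := h0 4 1 ε hε
  refine ⟨a0, ha0, fun ep e1 J hep he he1 hJ hs C0 y₁ y₂ h1 h2 => ?_⟩
  obtain ⟨m0, h3⟩ := (h0 ep e1 J hep he hJ hs).mom4 le_rfl le_rfl he he1 hJ C0 y₁ y₂ h1 h2
  exact ⟨m0, fun m hm i hi ρ hρm hρ => h3 m hm i hi (hmc ep e1 J m i) ρ hρm hρ⟩

/-- **the interface `MBd` of a family**, one choice of the small parameters -/
theorem UX.mbdP {F : Fam ι} (h0 : UX F) (hmc : ∀ (ep e1 J : ℝ) (m : ℕ) (i : ι),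
    MC (F.Z ep m i) (NUSea.O.par0 m) (cr e1 J m) (cr' e1 J m)) {ε : ℝ} (hε : 0 < ε) :
    ∃ a0 : ℝ, 0 < a0 ∧ ∀ ep e1 J : ℝ, 0 < ep → 0 < e1 →
    0 ≤ J → Real.exp (-(2 * Real.pi * J)) + 3 * e1 + 3 * ep ≤ a0 →
    ∀ q : ℝ, 0 ≤ q → q ≤ 8 / 3 →
    ∀ C0 y₁ y₂ : ℝ, y₁ < 0 → 0 < y₂ → ∃ m0 : ℕ, ∀ m ≥ m0, ∀ i : ι, F.ok m i →
    ∀ ρ : ℂ → ℂ, DN C0 m (fun t : ℝ => ρ t) →
      MBd (F.top m) (fun _ => F.Z ep m i) (fun _ => NUSea.O.par0 m) (fun _ => cr e1 J m)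
        (fun _ => cr' e1 J m) (fun _ => F.Pf m i) ρ y₁ y₂ (6 * ((m : ℝ) ^ ε * F.bd m i)) q
        (3 * (m : ℝ) ^ (-(3 / 8 * q * (1 - 4 * e1))) * ((m : ℝ) ^ ε * F.bd m i)) := by
  obtain ⟨a0, ha0, h0⟩ := h0 2 6 ε hε
  refine ⟨a0, ha0, fun ep e1 J hep he hJ hs q hq0 hq C0 y₁ y₂ h1 h2 => ?_⟩
  obtain ⟨m0, h3⟩ := (h0 ep e1 J hep he hJ hs).mbd le_rfl le_rfl hq0 hq C0 y₁ y₂ h1 h2
  exact ⟨m0, fun m hm i hi ρ hρ => h3 m hm i hi (hmc ep e1 J m i) ρ hρ⟩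

end gen

end PBU

namespace PV

open NUO NUP1 NUP1S NUP1S.Ab NUP1S.AbC NUGC PBF PBP PBFunc PBU
open PBQM (Mom4 BB VN)

/-- the two forms of the spectator -/
theorem LV_eq (z z' : ℂ) : LV z z' = PVS.LgV z z' := funext fun u => (PVS.LgV_eq z z' u).symm

theorem norm_LV (z z' u : ℂ) : ‖LV z z' u‖ = thV z z' u := by
  unfold LV thV
  rw [norm_mul, PBX.norm_Lg]
  rfl

theorem thV_eq (z z' : ℂ) : thV z z' = PVS.thV z z' := by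
  funext u
  rw [← norm_LV, LV_eq, PVS.norm_LgV]

theorem ZV_eq {m : ℕ} (β : ℝ) (x : Fin m → ℂ) (ex ex0 : List ℂ) (z z' : ℂ) :
    ZV β x ex ex0 z z' = PVS.ZV β x ex ex0 z z' := by
  unfold ZV PVS.ZV
  rw [LV_eq]

attribute [local instance] NUSea.seaP

/-- one body data of `famV` -/
def BV (ep : ℝ) (m : ℕ) (i : ℂ × ℂ) : OB := PVT.obV (m - 1) (4 / 3 * (1 - ep)) i.1 i.2 0

/-- exponent of `famV` -/
def linF (e1 J : ℝ) (m : ℕ) (i : ℂ × ℂ) : ℝ := PVT.linV e1 J m i.1 i.2 0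

/-- **curve, cutoff, potential and one body data of `famV`** -/
theorem envF_famV : EnvF famV BV linF := by
  have hl := NUP1.l_pos
  exact PVD.envF_V (z' := 0) (by rw [Complex.zero_re]; linarith) (by rw [Complex.zero_re]; linarith)
    (fun m i hi => hi) (s := fun z u => PVS.thV z 0 u) (fun z u => rfl) (fun ep m i => rfl)
    fun e1 J m i => le_rfl

/-- **U1, U3, U4 of `famV` from the bound of its gas** -/
theorem uxV_of (hT : TopF famV BV linF) : UX famV :=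
  ux_of (F := famV) (B := BV) (lin := linF) (fun m => by
    show 2 * m ≤ 3 * m
    omega) (fun m i => mul_nonneg (Real.rpow_nonneg (Nat.cast_nonneg m) _) (Real.exp_pos _).le)
    statU_all hT envF_famV

theorem mc_famV (ep e1 J : ℝ) (m : ℕ) (i : ℂ × ℂ) :
    MC (famV.Z ep m i) (NUSea.O.par0 m) (cr e1 J m) (cr' e1 J m) :=
  MC.of (PBX.ParC_par0 m).rm (fun a k => by
    show Measurable (ZV (4 / 3 * (1 - ep)) (PBL.mu1 (m - 1) i.1) [I, -I] [] i.2 0 a k)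
    rw [ZV_eq]
    exact PVS.measurable_ZV _ _ _ _ _ _ a k) (mcr_cr e1 J m)

/-- **products of four statistics of `famV`**, from `UX famV` -/
theorem mom4V_of (hX : UX famV) {ε : ℝ} (hε : 0 < ε) : ∃ a0 : ℝ, 0 < a0 ∧
    ∀ ep e1 J : ℝ, 0 < ep → 0 < e1 →
    e1 ≤ 1 / 100 → 0 ≤ J → Real.exp (-(2 * Real.pi * J)) + 3 * e1 + 3 * ep ≤ a0 →
    ∀ C0 y₁ y₂ : ℝ, y₁ < 0 → 0 < y₂ → ∃ m0 : ℕ, ∀ m ≥ m0, ∀ i : ℂ × ℂ, famV.ok m i →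
    ∀ ρ : ℂ → ℂ, (Measurable fun u : ℝ => ρ u) → DN C0 m (fun t : ℝ => ρ t) →
      Mom4 (mN (famV.top m)) (wF famV ep e1 J m i) (VN (famV.top m) (fun _ => cr e1 J m) ρ) y₁ y₂
        ((m : ℝ) ^ ε * famV.bd m i) :=
  hX.mom4P mc_famV hε

/-- **the interface `MBd` of `famV`**, from `UX famV` -/
theorem mbdV_of (hX : UX famV) {ε : ℝ} (hε : 0 < ε) : ∃ a0 : ℝ, 0 < a0 ∧
    ∀ ep e1 J : ℝ, 0 < ep → 0 < e1 →
    0 ≤ J → Real.exp (-(2 * Real.pi * J)) + 3 * e1 + 3 * ep ≤ a0 →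
    ∀ q : ℝ, 0 ≤ q → q ≤ 8 / 3 →
    ∀ C0 y₁ y₂ : ℝ, y₁ < 0 → 0 < y₂ → ∃ m0 : ℕ, ∀ m ≥ m0, ∀ i : ℂ × ℂ, famV.ok m i →
    ∀ ρ : ℂ → ℂ, DN C0 m (fun t : ℝ => ρ t) →
      MBd (famV.top m) (fun _ => famV.Z ep m i) (fun _ => NUSea.O.par0 m) (fun _ => cr e1 J m)
        (fun _ => cr' e1 J m) (fun _ => famV.Pf m i) ρ y₁ y₂ (6 * ((m : ℝ) ^ ε * famV.bd m i)) q
        (3 * (m : ℝ) ^ (-(3 / 8 * q * (1 - 4 * e1))) * ((m : ℝ) ^ ε * famV.bd m i)) :=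
  hX.mbdP mc_famV hε

end PV

end
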