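import Pool.Agent.PV.ValV
import Pool.Agent.PB.TopG
import Pool.Agent.PV.HPotV

/-!
# Plan V: the value on the landed centred tent

* `cur_numV`: `bil - 12 l h(y) + 12 l h(y') ≤ (1 - e1) Tb + 2 |y| + C`;
* **`valV_nrm`**: `nrmV z z' mu * exp linV ≤ C exp ((1 - e1) Tb (log m) + 2 |Im z|)`;
* `norm_PfV`, **`valV_x`**: the same with the prefactor `rh (z - z') ^ 2 ..` of the normalised function:
  `C exp ((1 - e1) Tb (log m) + 4 |Im z| + 2 |Im z'|)`.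
-/

set_option autoImplicit false
set_option linter.unusedSectionVars false

noncomputable section

open Complex MeasureTheory Finset

namespace PVV

open NUO NUP1 NUP1S NUGC
open PBL (mu1)
open PotH (crH)
open PBT (etL etL')
open PVT (linV)

attribute [local instance] NUSea.seaP

/-- the largest value of the current -/
theorem hC_top {e1 J : ℝ} {m : ℕ} (he1 : e1 ≤ 1 / 100) (hJ : 0 ≤ J) (hT : 20 ≤ Tb (Real.log m))
    (t : ℝ) : 12 * NUMF.l * hC e1 J m t ≤ 2 * ((1 - e1) * Tb (Real.log m)) + 12 * NUMF.l * J := by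
  have h1 := (tent_bd (DC_nonneg he1 hT) aC_pos.le t).2
  have h2 := NUCUR.cur_le (e := e1) (T := Tb (Real.log m)) hJ t
  have hl := NUMF.l_pos
  have h3 : 12 * NUMF.l * (aC * DC e1 m) = 2 * DC e1 m := by
    unfold aC NUMF.l
    have := Real.pi_ne_zero
    field_simp
    ring
  have h4 : 2 * DC e1 m ≤ 2 * ((1 - e1) * Tb (Real.log m)) := by
    unfold DC
    linarith
  have h5 : hC e1 J m t ≤ aC * DC e1 m + J := by
    unfold hC
    linarith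
  calc 12 * NUMF.l * hC e1 J m t ≤ 12 * NUMF.l * (aC * DC e1 m + J) :=
        mul_le_mul_of_nonneg_left h5 (by positivity)
    _ = 12 * NUMF.l * (aC * DC e1 m) + 12 * NUMF.l * J := by ring
    _ ≤ _ := by
        rw [h3]
        linarith

/-- the exponents of the current: `(1 - e1) Tb + 2 |Im z| + O(1)` -/
theorem cur_numV {e1 : ℝ} (he : 0 < e1) (he1 : e1 ≤ 1 / 100) {J : ℝ} (hJ : 0 ≤ J) :
    ∃ C : ℝ, 0 ≤ C ∧ ∃ m0 : ℕ, ∀ m : ℕ, m0 ≤ m → 20 ≤ Tb (Real.log m) ∧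
      (∀ t, |NUSea.hd m (etL e1 J m) (etL' e1 J m) t| ≤ 1) ∧
      ∀ y : ℝ, |y| ≤ 3 / 20 * Real.log m + 2 → ∀ y' : ℝ,
        NUCR.bil (NUSea.hd m (etL e1 J m) (etL' e1 J m)) (NUSea.hd m (etL e1 J m) (etL' e1 J m)) -
          12 * NUMF.l * crH (etL e1 J m) m y + 12 * NUMF.l * crH (etL e1 J m) m y' ≤
          (1 - e1) * Tb (Real.log m) + 2 * |y| + C := by
  obtain ⟨C, hC0, m0, H⟩ := PBT.cur_num he he1 hJ
  have hl := NUMF.l_pos
  refine ⟨C + 12 * NUMF.l * J, by positivity, max m0 1, fun m hm => ?_⟩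
  obtain ⟨hT, hd1, hb⟩ := H m ((le_max_left _ _).trans hm)
  have hmp : (0 : ℝ) < m := by
    exact_mod_cast (le_max_right m0 1).trans hm
  refine ⟨hT, hd1, fun y hy y' => ?_⟩
  have h1 := hb y hy
  have h2 := hC_top (e1 := e1) (J := J) (m := m) he1 hJ hT y'
  have e0 : crH (etL e1 J m) m y' = hC e1 J m y' := mul_etaC hmp y'
  rw [e0]
  linarith

/-- **the value of the normaliser on the tent** -/
theorem valV_nrm {e1 : ℝ} (he : 0 < e1) (he1 : e1 ≤ 1 / 100) {J : ℝ} (hJ : 0 ≤ J) :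
    ∃ C : ℝ, 0 ≤ C ∧ ∃ m0 : ℕ, ∀ k : ℕ, m0 ≤ k → ∀ x z z' : ℂ, |x.re| ≤ NUMF.l / 10 →
      -(9 / 10 * NUMF.l) ≤ z.re → z.re ≤ 37 / 10 * NUMF.l → |z'.re| ≤ NUMF.l / 10 →
      |z.im| ≤ 3 / 20 * Real.log (k + 1 : ℕ) + 2 →
      nrmV z z' (mu1 k x) * Real.exp (linV e1 J (k + 1) x z z') ≤
        C * Real.exp ((1 - e1) * Tb (Real.log (k + 1 : ℕ)) + 2 * |z.im|) := by
  obtain ⟨Cc, hCc, mc, Hc⟩ := PBT.crvL he he1 hJ
  obtain ⟨CV, hCV, HV⟩ := exists_valV he (by linarith : e1 ≤ 1) (by linarith : 0 ≤ Cc)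
  obtain ⟨CN, hCN, mn, HN⟩ := cur_numV he he1 hJ
  have hl := NUMF.l_pos
  refine ⟨CV * Real.exp CN, by positivity, max mc mn, fun k hk x z z' hx z1 z2 hz' z3 => ?_⟩
  have k1 : mc ≤ k + 1 := by
    have := (le_max_left _ _).trans hk
    omega
  have k2 : mn ≤ k + 1 := by
    have := (le_max_right _ _).trans hk
    omega
  obtain ⟨hT, hd1, hb⟩ := HN (k + 1) k2
  obtain ⟨x1, x2⟩ := abs_le.1 hx
  obtain ⟨y1, y2⟩ := abs_le.1 hz'
  have key := HV k (etL e1 J (k + 1)) (etL' e1 J (k + 1)) (Hc (k + 1) k1) hd1 1 z z' x (by norm_num)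
    z1 z2 (by linarith) (by linarith) (by linarith) (by rw [Complex.sub_re]; linarith)
    (by rw [Complex.sub_re]; linarith) (by rw [Complex.sub_re]; linarith)
    (by rw [Complex.sub_re]; linarith)
  have hmu : PBV.mu0 k x = mu1 k x := rfl
  rw [hmu] at key
  have hb' := hb z.im z3 z'.im
  obtain ⟨N0, hN0⟩ : ∃ N0, N0 = nrmV z z' (mu1 k x) := ⟨_, rfl⟩
  obtain ⟨S, hS⟩ : ∃ S, S = ∑ a : Bool, ∫ t, ((k + 1 : ℕ) : ℝ) * NUSea.P t *
    HlegV 1 z z' x (etL e1 J (k + 1)) a t := ⟨_, rfl⟩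
  obtain ⟨MF, hMF⟩ : ∃ MF, MF = NUSea.MF ((k + 1 : ℕ) : ℝ) := ⟨_, rfl⟩
  obtain ⟨bl, hbl⟩ : ∃ bl, bl = NUCR.bil
    (NUSea.hd ((k + 1 : ℕ) : ℝ) (etL e1 J (k + 1)) (etL' e1 J (k + 1)))
    (NUSea.hd ((k + 1 : ℕ) : ℝ) (etL e1 J (k + 1)) (etL' e1 J (k + 1))) := ⟨_, rfl⟩
  obtain ⟨h0, hh0⟩ : ∃ h0, h0 = crH (etL e1 J (k + 1)) (k + 1) 0 := ⟨_, rfl⟩
  obtain ⟨hz, hhz⟩ : ∃ hz, hz = crH (etL e1 J (k + 1)) (k + 1) z.im := ⟨_, rfl⟩
  obtain ⟨hy, hhy⟩ : ∃ hy, hy = crH (etL e1 J (k + 1)) (k + 1) z'.im := ⟨_, rfl⟩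
  have e1' : ((k + 1 : ℕ) : ℝ) * NUSea.P z.im * etL e1 J (k + 1) z.im = hz := by rw [hhz]; rfl
  have e3' : ((k + 1 : ℕ) : ℝ) * NUSea.P z'.im * etL e1 J (k + 1) z'.im = hy := by rw [hhy]; rfl
  have e2' : ((k + 1 : ℕ) : ℝ) * NUSea.P 0 * etL e1 J (k + 1) 0 = h0 := by rw [hh0]; rfl
  rw [← hN0, ← hS, ← hMF, e1', e2', e3'] at key
  rw [← hbl, ← hhz, ← hhy] at hb'
  have hL : linV e1 J (k + 1) x z z' = (MF + S) + (bl - 24 * NUMF.l * h0) := by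
    unfold linV
    rw [← hS, ← hMF, ← hbl, ← hh0]
    ring
  rw [← hN0, hL, Real.exp_add, ← mul_assoc]
  calc N0 * Real.exp (MF + S) * Real.exp (bl - 24 * NUMF.l * h0) ≤
      CV * Real.exp (-(12 * NUMF.l * hz) + 12 * NUMF.l * hy + 24 * 1 * NUMF.l * h0) *
        Real.exp (bl - 24 * NUMF.l * h0) := mul_le_mul_of_nonneg_right key (Real.exp_pos _).le
    _ = CV * Real.exp (bl - 12 * NUMF.l * hz + 12 * NUMF.l * hy) := by
        rw [mul_assoc, ← Real.exp_add]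
        congr 2
        ring
    _ ≤ CV * Real.exp (CN + ((1 - e1) * Tb (Real.log (k + 1 : ℕ)) + 2 * |z.im|)) := by
        refine mul_le_mul_of_nonneg_left (Real.exp_le_exp.2 ?_) (by linarith)
        linarith
    _ = _ := by
        rw [Real.exp_add]
        ring

/-- the anti-leg factor of one row -/
theorem antiV {z' x : ℂ} (h1 : -NUMF.l ≤ (z' - x).re) (h2 : (z' - x).re ≤ 4 * NUMF.l) :
    ‖PBR.rh (z' - x) ^ 2 / Pool.Agent.PB.Lp z' x‖ ^ 2 = Real.exp (2 * NUMFH.lE (z' - x)) := by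
  have e : Pool.Agent.PB.Lp z' x = PBS.Lw .pos (z' - x) := by
    show sin (z' - x + 2 * NUP1.l) * sin (z' - x + 3 * NUP1.l) =
      sin (z' - x + 3 * NUP1.l) * sin (z' - x + 2 * NUP1.l)
    ring
  rw [PBS.exp_lE h1 h2, e, norm_div, norm_pow, div_pow]
  ring

/-- **the prefactor with anti-legs is the normaliser** (`PfV z z' x x`, spelled out) -/
theorem norm_PfV {m : ℕ} {z z' : ℂ} {x : Fin m → ℂ} (h1 : ∀ i, -NUMF.l ≤ (z' - x i).re)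
    (h2 : ∀ i, (z' - x i).re ≤ 4 * NUMF.l) :
    ‖PBR.rh (z - z') ^ 2 * (2 / 3 * PBR.rh 0 / sin NUP1.l) *
      ((∏ i, (PBR.rh (z' - x i) ^ 2 / Pool.Agent.PB.Lp z' (x i))) *
        ∏ i, (PBR.rh (z' - x i) ^ 2 / Pool.Agent.PB.Lp z' (x i))) *
      Pool.Agent.PB.Pf z x x‖ =
      ‖PBR.rh (z - z')‖ ^ 2 * (2 / 3 * ‖PBR.rh 0‖ / ‖sin (NUP1.l : ℂ)‖) * nrmV z z' x := by
  have h3 : ‖∏ i, (PBR.rh (z' - x i) ^ 2 / Pool.Agent.PB.Lp z' (x i))‖ *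
      ‖∏ i, (PBR.rh (z' - x i) ^ 2 / Pool.Agent.PB.Lp z' (x i))‖ =
      Real.exp (2 * ∑ i, NUMFH.lE (z' - x i)) := by
    rw [← pow_two, norm_prod, ← Finset.prod_pow, Finset.mul_sum, Real.exp_sum]
    exact Finset.prod_congr rfl fun i _ => antiV (h1 i) (h2 i)
  rw [norm_mul, norm_mul, norm_mul, norm_mul, h3]
  unfold nrmV
  rw [PBV.nrm_Pf, norm_pow, norm_div, norm_mul, norm_div, Complex.norm_ofNat, Complex.norm_ofNat]
  ring

/-- the factor of leg and anti-leg -/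
theorem rh_zz {z z' : ℂ} (h : |(z - z').re| ≤ 4 * NUMF.l) :
    ‖PBR.rh (z - z')‖ ^ 2 ≤ (4 / PBR.sδ 4 ^ 4) ^ 2 * Real.exp (2 * |z.im| + 2 * |z'.im|) := by
  have h1 := PBR.rh_upper (δ := 4) (w := z - z') (by norm_num) le_rfl (by
    show |(z - z').re| ≤ (8 - 4) * NUMF.l
    linarith)
  have h2 : |(z - z').im| ≤ |z.im| + |z'.im| := by
    rw [Complex.sub_im]
    exact abs_sub _ _
  have h3 : 0 ≤ 4 / PBR.sδ 4 ^ 4 := by
    have := PBR.sδ_pos (δ := 4) (by norm_num) le_rfl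
    positivity
  calc ‖PBR.rh (z - z')‖ ^ 2 ≤ (4 / PBR.sδ 4 ^ 4 * Real.exp |(z - z').im|) ^ 2 :=
        pow_le_pow_left₀ (norm_nonneg _) h1 2
    _ = (4 / PBR.sδ 4 ^ 4) ^ 2 * Real.exp (2 * |(z - z').im|) := by
        rw [mul_pow, ← Real.exp_nat_mul]
        push_cast
        ring
    _ ≤ _ := by
        refine mul_le_mul_of_nonneg_left (Real.exp_le_exp.2 ?_) (by positivity)
        linarith

/-- **the value of plan V**: prefactor times `exp linV` -/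
theorem valV_x {e1 : ℝ} (he : 0 < e1) (he1 : e1 ≤ 1 / 100) {J : ℝ} (hJ : 0 ≤ J) :
    ∃ C : ℝ, 0 ≤ C ∧ ∃ m0 : ℕ, ∀ k : ℕ, m0 ≤ k → ∀ x z z' : ℂ, |x.re| ≤ NUMF.l / 10 →
      -(9 / 10 * NUMF.l) ≤ z.re → z.re ≤ 37 / 10 * NUMF.l → |z'.re| ≤ NUMF.l / 10 →
      |z.im| ≤ 3 / 20 * Real.log (k + 1 : ℕ) + 2 →
      ‖PBR.rh (z - z') ^ 2 * (2 / 3 * PBR.rh 0 / sin NUP1.l) *
        ((∏ i, (PBR.rh (z' - mu1 k x i) ^ 2 / Pool.Agent.PB.Lp z' (mu1 k x i))) *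
          ∏ i, (PBR.rh (z' - mu1 k x i) ^ 2 / Pool.Agent.PB.Lp z' (mu1 k x i))) *
        Pool.Agent.PB.Pf z (mu1 k x) (mu1 k x)‖ * Real.exp (linV e1 J (k + 1) x z z') ≤
        C * Real.exp ((1 - e1) * Tb (Real.log (k + 1 : ℕ)) + 4 * |z.im| + 2 * |z'.im|) := by
  obtain ⟨C, hC, m0, H⟩ := valV_nrm he he1 hJ
  have hl := NUMF.l_pos
  obtain ⟨c1, hc1⟩ : ∃ c1 : ℝ, c1 = (4 / PBR.sδ 4 ^ 4) ^ 2 := ⟨_, rfl⟩
  obtain ⟨c2, hc2⟩ : ∃ c2 : ℝ, c2 = 2 / 3 * ‖PBR.rh 0‖ / ‖sin (NUP1.l : ℂ)‖ := ⟨_, rfl⟩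
  have hc10 : 0 ≤ c1 := by rw [hc1]; positivity
  have hc20 : 0 ≤ c2 := by rw [hc2]; positivity
  refine ⟨c1 * c2 * C, by positivity, m0, fun k hk x z z' hx z1 z2 hz' z3 => ?_⟩
  have key := H k hk x z z' hx z1 z2 hz' z3
  obtain ⟨x1, x2⟩ := abs_le.1 hx
  obtain ⟨y1, y2⟩ := abs_le.1 hz'
  have hmu : ∀ i, -(NUMF.l / 10) ≤ (mu1 k x i).re ∧ (mu1 k x i).re ≤ NUMF.l / 10 := by
    intro i
    unfold PBL.mu1
    refine Fin.cases ?_ (fun j => ?_) i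
    · simpa using ⟨x1, x2⟩
    · simp
      positivity
  have hr := rh_zz (z := z) (z' := z') (by
    rw [Complex.sub_re, abs_le]
    constructor <;> linarith)
  rw [← hc1] at hr
  rw [norm_PfV (fun i => by
      rw [Complex.sub_re]
      linarith [(hmu i).2]) (fun i => by
      rw [Complex.sub_re]
      linarith [(hmu i).1]), ← hc2]
  have hn := nrmV_nonneg z z' (mu1 k x)
  calc ‖PBR.rh (z - z')‖ ^ 2 * c2 * nrmV z z' (mu1 k x) * Real.exp (linV e1 J (k + 1) x z z') =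
        ‖PBR.rh (z - z')‖ ^ 2 * (c2 * (nrmV z z' (mu1 k x) *
          Real.exp (linV e1 J (k + 1) x z z'))) := by ring
    _ ≤ c1 * Real.exp (2 * |z.im| + 2 * |z'.im|) * (c2 *
          (C * Real.exp ((1 - e1) * Tb (Real.log (k + 1 : ℕ)) + 2 * |z.im|))) := by
        refine mul_le_mul hr (mul_le_mul_of_nonneg_left key hc20) ?_ (by positivity)
        exact mul_nonneg hc20 (mul_nonneg hn (Real.exp_pos _).le)
    _ = c1 * c2 * C * (Real.exp (2 * |z.im| + 2 * |z'.im|) *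
          Real.exp ((1 - e1) * Tb (Real.log (k + 1 : ℕ)) + 2 * |z.im|)) := by ring
    _ = _ := by
        rw [← Real.exp_add]
        congr 2
        ring

end PVV
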