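import Pool.Agent.PV.TopV
import Pool.Agent.PV.ValW
import Pool.Agent.PV.UXV

/-!
# Plan V: `TopF` for the family `famV`

**`topF_famV : TopF famV BV linF`** (from the stability theorem `StabProd`).
-/

set_option autoImplicit false
set_option linter.unusedSectionVars false

noncomputable section

open Complex MeasureTheory Finset
open scoped ENNReal

namespace PV

open NUO NUP1 NUP1S NUP1S.Ab NUP1S.AbC NUGC PBF PBP PBFunc PBU
open PBL (mu1)
open PBT (etL etL' crL crL' pL)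

attribute [local instance] NUSea.seaP

/-- **`TopF` for the family of plan V** -/
theorem topF_famV (hS : NUStabP.StabProd) : TopF famV BV linF := by
  intro K K2
  obtain ⟨c1, hc1, H⟩ := PVT.topZV hS K K2
  refine ⟨c1, hc1, fun c' hc' δ hδ => ?_⟩
  obtain ⟨a0, ha0, H⟩ := H c' hc' δ hδ
  refine ⟨a0, ha0, fun ep hep hep1 e1 he he1 J hJ hsm => ?_⟩
  obtain ⟨m0, H⟩ := H ep hep hep1 e1 he he1 J hJ hsm
  obtain ⟨C, hC, m1, HV⟩ := PVV.valV_x he he1 hJ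
  refine ⟨C, hC, max m0 m1 + 1, fun m hm i hi φ w Q Bw d hQ hBw hd hw hg => ?_⟩
  obtain ⟨k, rfl⟩ : ∃ k, m = k + 1 := ⟨m - 1, by omega⟩
  have k1 : m0 ≤ k := (le_max_left m0 m1).trans (by omega)
  have k2 : m1 ≤ k := (le_max_right m0 m1).trans (by omega)
  obtain ⟨x, z⟩ := i
  obtain ⟨h1, h2, h3, h4, h5⟩ := hi
  have hl := NUP1.l_pos
  have h0 : |(0 : ℂ).re| ≤ NUP1.l / 10 := by
    rw [Complex.zero_re, abs_zero]
    positivity
  obtain ⟨y, hy⟩ : ∃ y : ℝ, y = 3 / 4 * Real.log (k + 1 : ℕ) + 4 * |z.im| := ⟨_, rfl⟩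
  have hv := HV k k2 x z 0 h1 h3 h4.le h0 h5
  have hmp : (0 : ℝ) < ((k + 1 : ℕ) : ℝ) := by positivity
  have hL : 0 ≤ Real.log (k + 1 : ℕ) := Real.log_nonneg (by exact_mod_cast Nat.le_add_left 1 k)
  have hv' : ‖PfV z 0 (mu1 k x) (mu1 k x)‖ * Real.exp (PVT.linV e1 J (k + 1) x z 0) ≤
      C * Real.exp (-((1 - e1) * Tb (Real.log (k + 1 : ℕ))) + y) := by
    refine hv.trans (mul_le_mul_of_nonneg_left (Real.exp_le_exp.2 ?_) hC)
    have hTb : Tb (Real.log (k + 1 : ℕ)) = 3 / 8 * Real.log (k + 1 : ℕ) := rfl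
    rw [hTb, hy, Complex.zero_im, abs_zero]
    nlinarith
  have key := H k k1 x z 0 h1 h2 h3 h4 h0 ‖PfV z 0 (mu1 k x) (mu1 k x)‖ y C (norm_nonneg _) hC hv'
    φ w Q Bw d hQ hBw hd hw hg
  have e1 : Real.exp y = ((k + 1 : ℕ) : ℝ) ^ (3 / 4 : ℝ) * Real.exp (4 * |z.im|) := by
    rw [hy, Real.exp_add, Real.rpow_def_of_pos hmp, mul_comm (Real.log _)]
  rw [e1, ← ZV_eq] at key
  exact key

end PV

end
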