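import Pool.Agent.PV.UXV
import Pool.Agent.PV.TopFV
import Pool.Agent.NUM3.Certs4

/-!
# Plan V: U1, U3, U4 of `famV` without hypotheses (helper79)

**`uxV : UX famV`**, **`mom4V`**, **`mbdV`** (`topF_famV` is 75's `PV/TopFV`).
-/

set_option autoImplicit false
set_option linter.unusedSectionVars false

noncomputable section

open Complex MeasureTheory Finset
open scoped ENNReal

namespace PV

open NUO NUP1 NUP1S NUP1S.Ab NUP1S.AbC NUGC PBF PBP PBFunc PBU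
open PBQM (Mom4 BB VN)

attribute [local instance] NUSea.seaP

/-- **U1, U3, U4 of `famV`** -/
theorem uxV : UX famV := uxV_of (topF_famV Pool.Agent.NUM3.stabProd)

/-- **products of four statistics of `famV`** -/
theorem mom4V {ε : ℝ} (hε : 0 < ε) : ∃ a0 : ℝ, 0 < a0 ∧
    ∀ ep e1 J : ℝ, 0 < ep → 0 < e1 →
    e1 ≤ 1 / 100 → 0 ≤ J → Real.exp (-(2 * Real.pi * J)) + 3 * e1 + 3 * ep ≤ a0 →
    ∀ C0 y₁ y₂ : ℝ, y₁ < 0 → 0 < y₂ → ∃ m0 : ℕ, ∀ m ≥ m0, ∀ i : ℂ × ℂ, famV.ok m i →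
    ∀ ρ : ℂ → ℂ, (Measurable fun u : ℝ => ρ u) → DN C0 m (fun t : ℝ => ρ t) →
      Mom4 (mN (famV.top m)) (wF famV ep e1 J m i) (VN (famV.top m) (fun _ => cr e1 J m) ρ) y₁ y₂
        ((m : ℝ) ^ ε * famV.bd m i) :=
  mom4V_of uxV hε

/-- **the interface `MBd` of `famV`** -/
theorem mbdV {ε : ℝ} (hε : 0 < ε) : ∃ a0 : ℝ, 0 < a0 ∧
    ∀ ep e1 J : ℝ, 0 < ep → 0 < e1 →
    0 ≤ J → Real.exp (-(2 * Real.pi * J)) + 3 * e1 + 3 * ep ≤ a0 →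
    ∀ q : ℝ, 0 ≤ q → q ≤ 8 / 3 →
    ∀ C0 y₁ y₂ : ℝ, y₁ < 0 → 0 < y₂ → ∃ m0 : ℕ, ∀ m ≥ m0, ∀ i : ℂ × ℂ, famV.ok m i →
    ∀ ρ : ℂ → ℂ, DN C0 m (fun t : ℝ => ρ t) →
      MBd (famV.top m) (fun _ => famV.Z ep m i) (fun _ => NUSea.O.par0 m) (fun _ => cr e1 J m)
        (fun _ => cr' e1 J m) (fun _ => famV.Pf m i) ρ y₁ y₂ (6 * ((m : ℝ) ^ ε * famV.bd m i)) q
        (3 * (m : ℝ) ^ (-(3 / 8 * q * (1 - 4 * e1))) * ((m : ℝ) ^ ε * famV.bd m i)) :=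
  mbdV_of uxV hε

end PV

end
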