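import Pool.Agent.PV.RecVF
import Pool.Agent.PB.EPrOf

/-!
# Plan V: the function side (helper12)

`f j` = the function of plan V with `j` rows at `0`, `Psi j z x` = the same with one more row at `x` (both
groups), legs at `z`, anti-legs at `0`.

* `FunHV C f Psi`: zeros at the rows and crude bound (`FD`), `Psi j z 0 = f (j + 1) z`, (A1)
  `Psi j (x + 3l) x = f j x`, and (V1) `‖Psi j (i t) x‖ ≤ j^(3/4+ε)`;
* `E2V p Psi`: `‖(j + 1) d_s Psi - ((r₊ - r₋)/2 Psi + (r₊ - r₋)/8 d_z² Psi)‖ ≤ C j^p` at `x = i s`, `z = i t`;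
* **`funV`** (`0 ≤ p < 3/8`): there is `g` with `‖f j z - g j^(3/8)‖ ≤ C j^p`, `|Re z| ≤ 3l`, `|Im z| < 2`.
-/

set_option autoImplicit false

noncomputable section

open Complex MeasureTheory Set Filter Topology
open Pool.Agent.PB.Rec (EL EL_coef EL_add EL_sub EL_le ReR seg Bx)
open PBV (FD aL σL aL_pos σL_pos σL_lt two_σL pi_div_aL kL log_ev bK aK pow_ev one_le_aL ball_box rP rM
  field_diff mem_seg0)

namespace PVF

/-- the hypotheses of the function side -/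
structure FunHV (C : ℝ) (f : ℕ → ℂ → ℂ) (Psi : ℕ → ℂ → ℂ → ℂ) : Prop where
  ff : ∀ᶠ j : ℕ in atTop, FD aL σL 1 0 C j (f j)
  fp : ∀ᶠ j : ℕ in atTop, ∀ x ∈ seg 0, FD aL σL 1 0 C j (fun z => Psi j z x)
  p0 : ∀ᶠ j : ℕ in atTop, ∀ z, Psi j z 0 = f (j + 1) z
  a1 : ∀ᶠ j : ℕ in atTop, ∀ x ∈ seg 0, Psi j (x + aL) x = f j x
  up : ∀ ε : ℝ, 0 < ε → ∀ᶠ j : ℕ in atTop, ∀ x ∈ seg 0, ∀ t ∈ Icc (0 : ℝ) 1,
    ‖Psi j (I * t) x‖ ≤ (j : ℝ) ^ (3 / 4 + ε)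

variable {C : ℝ} {f : ℕ → ℂ → ℂ} {Psi : ℕ → ℂ → ℂ → ℂ}

/-- K-terms of `f` -/
theorem FunHV.kf (h : FunHV C f Psi) (e : ℝ) {ρ : ℝ} (hρ : 0 ≤ ρ) (hρσ : ρ < σL) :
    ∃ K0 : ℕ, ∀ K ≥ K0, ∀ᶠ j : ℕ in atTop, ∀ z : ℂ, |z.re| ≤ aL + ρ → |z.im| ≤ 2 →
      ‖f j z - EL (8 / 3) K (bK f j) z‖ ≤ (j : ℝ) ^ (-e) := by
  obtain ⟨K0, hK0⟩ := kL C e hρ hρσ
  refine ⟨K0, fun K hK => ?_⟩
  obtain ⟨V, -, hV⟩ := hK0 K hK
  filter_upwards [hV, h.ff, log_ev (25 / 3)] with j h1 h2 h3 z hz hzi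
  exact (h1 _ h2).1 z hz (by linarith)

/-- K-terms of `Psi (., x)` -/
theorem FunHV.kp (h : FunHV C f Psi) (e : ℝ) {ρ : ℝ} (hρ : 0 ≤ ρ) (hρσ : ρ < σL) :
    ∃ K0 : ℕ, ∀ K ≥ K0, ∀ᶠ j : ℕ in atTop, ∀ x ∈ seg 0, ∀ z : ℂ, |z.re| ≤ aL + ρ → |z.im| ≤ 2 →
      ‖Psi j z x - EL (8 / 3) K (aK Psi j x) z‖ ≤ (j : ℝ) ^ (-e) := by
  obtain ⟨K0, hK0⟩ := kL C e hρ hρσ
  refine ⟨K0, fun K hK => ?_⟩
  obtain ⟨V, -, hV⟩ := hK0 K hK
  filter_upwards [hV, h.fp, log_ev (25 / 3)] with j h1 h2 h3 x hx z hz hzi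
  exact (h1 _ (h2 x hx)).1 z hz (by linarith)

/-- `Psi` in the box -/
theorem FunHV.bd (h : FunHV C f Psi) {ε : ℝ} (hε : 0 < ε) : ∀ᶠ j : ℕ in atTop, ∀ x ∈ seg 0,
    ∀ z : ℂ, |z.re| ≤ aL → |z.im| ≤ 2 → ‖Psi j z x‖ ≤ (j : ℝ) ^ (3 / 4 + ε) := by
  obtain ⟨K0, hK0⟩ := kL C 1 (ρ := 0) le_rfl σL_pos
  obtain ⟨V, hV0, hV⟩ := hK0 K0 le_rfl
  set E : ℝ := (2 * K0 + 1) * Real.exp (|(8 / 3 : ℝ)| * K0 * 2) with hE
  have hE0 : 0 < E := by positivity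
  filter_upwards [hV, h.fp, h.up (ε / 2) (by positivity), log_ev (25 / 3),
    pow_ev (show 0 < ε / 2 by positivity) (1 + E * (V * 2)), eventually_ge_atTop 1]
    with j h1 h2 h3 h4 h5 h6 x hx z hz hzi
  have hj1 : (1 : ℝ) ≤ j := by exact_mod_cast h6
  have hj0 : (0 : ℝ) < j := by linarith
  obtain ⟨k1, k2⟩ := h1 _ (h2 x hx)
  set S : ℝ := (j : ℝ) ^ (3 / 4 + ε / 2) with hS
  have hS1 : 1 ≤ S := Real.one_le_rpow hj1 (by positivity)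
  have hm1 : (j : ℝ) ^ (-(1 : ℝ)) ≤ 1 := Real.rpow_le_one_of_one_le_of_nonpos hj1 (by norm_num)
  have e1 := k1 z (by linarith) (by linarith)
  have e2 : ‖EL (8 / 3) K0 (PBV.kc aL σL (1 / 5) j (fun z => Psi j z x)) z‖ ≤ E * (V * (2 * S)) := by
    refine (EL_le (fun k hk => (k2 S (h3 x hx) k hk).trans
      (mul_le_mul_of_nonneg_left (show S + (j : ℝ) ^ (-(1 : ℝ)) ≤ 2 * S by linarith) hV0.le)) z).trans ?_
    rw [hE]
    gcongr
  have e3 : Psi j z x = (Psi j z x - EL (8 / 3) K0 (PBV.kc aL σL (1 / 5) j (fun z => Psi j z x)) z) +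
      EL (8 / 3) K0 (PBV.kc aL σL (1 / 5) j (fun z => Psi j z x)) z := by ring
  have e4 : ‖Psi j z x‖ ≤ (1 + E * (V * 2)) * S := by
    rw [e3]
    refine (norm_add_le _ _).trans ?_
    have : E * (V * (2 * S)) = E * (V * 2) * S := by ring
    rw [this] at e2
    rw [add_mul, one_mul]
    linarith
  calc ‖Psi j z x‖ ≤ (1 + E * (V * 2)) * S := e4
    _ ≤ (j : ℝ) ^ (ε / 2) * S := by gcongr
    _ = (j : ℝ) ^ (3 / 4 + ε) := by
      rw [hS, ← Real.rpow_add hj0]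
      congr 1
      ring

/-- the second derivative in the legs -/
theorem FunHV.dbd (h : FunHV C f Psi) {ε : ℝ} (hε : 0 < ε) : ∀ᶠ j : ℕ in atTop, ∀ x ∈ seg 0,
    ∀ t ∈ Icc (0 : ℝ) 1, ‖deriv (deriv fun z => Psi j z x) (I * t)‖ ≤ (j : ℝ) ^ (3 / 4 + ε) := by
  filter_upwards [h.bd (show 0 < ε / 2 by positivity), h.fp, log_ev (20 / 3),
    pow_ev (show 0 < ε / 2 by positivity) 16, eventually_ge_atTop 1] with j h1 h2 h3 h4 h5 x hx t ht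
  have hj1 : (1 : ℝ) ≤ j := by exact_mod_cast h5
  have hj0 : (0 : ℝ) < j := by linarith
  have key := Pool.Agent.PB.Rec.cauchy2 (f := fun z => Psi j z x) (z := I * t) (r := 1 / 2)
    (ε := (j : ℝ) ^ (3 / 4 + ε / 2)) (by norm_num)
    (fun z hz => ((h2 x hx).df z (by
      have := ball_box ht hz
      have := σL_pos
      linarith) (by
      rw [two_σL]
      have := ball_box ht hz
      linarith)).differentiableWithinAt)
    (fun z hz => h1 x hx z (ball_box ht hz).1 (ball_box ht hz).2)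
  have e0 : 0 < (j : ℝ) ^ (3 / 4 + ε / 2) := by positivity
  have e1 : (j : ℝ) ^ (3 / 4 + ε) = (j : ℝ) ^ (ε / 2) * (j : ℝ) ^ (3 / 4 + ε / 2) := by
    rw [← Real.rpow_add hj0]
    congr 1
    ring
  refine key.2.trans ?_
  rw [e1, div_le_iff₀ (by norm_num)]
  nlinarith

/-- (E_V), gas side -/
def E2V (p : ℝ) (Psi : ℕ → ℂ → ℂ → ℂ) : Prop :=
  ∃ C' : ℝ, ∀ᶠ j : ℕ in atTop, ∀ s ∈ Icc (0 : ℝ) 1, ∀ t ∈ Icc (0 : ℝ) 1, ∃ D : ℂ,
    HasDerivAt (fun s : ℝ => Psi j (I * t) (I * s)) D s ∧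
    ‖((j + 1 : ℝ) : ℂ) * D - ((((rP j s - rM j s) / 2 : ℝ) : ℂ) * Psi j (I * t) (I * s) +
      (((rP j s - rM j s) / 8 : ℝ) : ℂ) * deriv (deriv fun z => Psi j z (I * s)) (I * t))‖ ≤ C' * (j : ℝ) ^ p

/-- (E_V), first order form -/
def EPrV (p : ℝ) (Psi : ℕ → ℂ → ℂ → ℂ) : Prop :=
  ∃ C' : ℝ, ∀ᶠ j : ℕ in atTop, ∀ s ∈ Icc (0 : ℝ) 1, ∀ t ∈ Icc (0 : ℝ) 1, ∃ D : ℂ,
    HasDerivAt (fun s : ℝ => Psi j (I * t) (I * s)) D s ∧
    ‖D - (1 / j : ℝ) * OpV (1 / 2) (1 / 8) (fun z => Psi j z (I * s))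
      (exp (I * (8 / 3 : ℝ) * (I * s))) (I * t)‖ ≤ C' * (j : ℝ) ^ (p - 1)

theorem E2V.mono {p p' : ℝ} (hp : p ≤ p') (h : E2V p Psi) : E2V p' Psi := by
  obtain ⟨C1, h⟩ := h
  refine ⟨|C1|, ?_⟩
  filter_upwards [h, eventually_ge_atTop 1] with j h1 h2 s hs t ht
  obtain ⟨D, hD, hD1⟩ := h1 s hs t ht
  have hj1 : (1 : ℝ) ≤ j := by exact_mod_cast h2
  refine ⟨D, hD, hD1.trans ?_⟩
  have e1 : 0 ≤ (j : ℝ) ^ p := by positivity
  calc C1 * (j : ℝ) ^ p ≤ |C1| * (j : ℝ) ^ p := by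
        gcongr
        exact le_abs_self _
    _ ≤ _ := by
        gcongr

theorem EPrV_of (h : FunHV C f Psi) {p : ℝ} (hp : 0 ≤ p) (hE : E2V p Psi) : EPrV p Psi := by
  obtain ⟨C1, hE⟩ := hE
  set Y : ℝ := Real.exp (8 / 3) with hY
  have hY1 : 1 ≤ Y := Real.one_le_exp (by norm_num)
  refine ⟨|C1| + 2 * Y ^ 2, ?_⟩
  filter_upwards [hE, h.dbd (show (0 : ℝ) < 1 / 4 by norm_num), h.up (1 / 4) (by norm_num),
    eventually_ge_atTop 1] with j h1 h2 h4 h3 s hs t ht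
  obtain ⟨D, hD, hD1⟩ := h1 s hs t ht
  refine ⟨D, hD, ?_⟩
  have hj1 : (1 : ℝ) ≤ j := by exact_mod_cast h3
  have hj0 : (0 : ℝ) < j := by linarith
  have hx : I * (s : ℂ) ∈ seg 0 := ⟨s, hs, by simp⟩
  have d2 := h2 _ hx t ht
  have d0 := h4 _ hx t ht
  rw [show (3 / 4 : ℝ) + 1 / 4 = 1 by norm_num, Real.rpow_one] at d2 d0
  set g0 := Psi j (I * t) (I * s) with hg0
  set g2 := deriv (deriv fun z => Psi j z (I * s)) (I * t) with hg2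
  set E : ℝ := Real.exp (8 / 3 * s) with hEd
  have hE0 : 0 < E := Real.exp_pos _
  have hEY : E ≤ Y := Real.exp_le_exp.2 (by linarith [hs.2])
  have hE0' : 0 < E⁻¹ := by positivity
  have hE1 : 1 ≤ E := Real.one_le_exp (by linarith [hs.1])
  have hEY' : E⁻¹ ≤ Y := (inv_le_one_of_one_le₀ hE1).trans hY1
  have hEm : Real.exp (-(8 / 3 * s)) = E⁻¹ := by rw [hEd, Real.exp_neg]
  -- y
  have hy : exp (I * (8 / 3 : ℝ) * (I * s)) = ((E⁻¹ : ℝ) : ℂ) := by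
    rw [← hEm, ofReal_exp]
    congr 1
    push_cast
    linear_combination (8 / 3 * s : ℂ) * I_sq
  have hy' : (exp (I * (8 / 3 : ℝ) * (I * s)))⁻¹ = ((E : ℝ) : ℂ) := by
    rw [hy, ofReal_inv, inv_inv]
  unfold OpV
  rw [hy', hy, ← hg2]
  beta_reduce
  rw [← hg0]
  -- the two fields
  set A : ℝ := E / (j + E) with hA
  set B : ℝ := E⁻¹ / (j + E⁻¹) with hB
  have hrP : rP j s = (j + 1) * A := by
    unfold rP
    rw [← hEd, hA, mul_div_assoc]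
  have hrM : rM j s = (j + 1) * B := by
    unfold rM
    rw [hEm, hB, mul_div_assoc]
  have hA1 := field_diff hj1 hE0 hEY
  have hB1 := field_diff hj1 hE0' hEY'
  rw [← hA] at hA1
  rw [← hB] at hB1
  have pw : (j : ℝ) ^ p = (j : ℝ) * (j : ℝ) ^ (p - 1) := by
    rw [Real.rpow_sub hj0, Real.rpow_one]
    field_simp
  have pw1 : (j : ℝ)⁻¹ ≤ (j : ℝ) ^ (p - 1) := by
    rw [← Real.rpow_neg_one]
    exact Real.rpow_le_rpow_of_exponent_le hj1 (by linarith)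
  -- first part
  have p1 : ‖D - ((((A - B) / 2 : ℝ) : ℂ) * g0 + (((A - B) / 8 : ℝ) : ℂ) * g2)‖ ≤
      |C1| * (j : ℝ) ^ (p - 1) := by
    have e1 : ((j + 1 : ℝ) : ℂ) * D - ((((rP j s - rM j s) / 2 : ℝ) : ℂ) * g0 +
        (((rP j s - rM j s) / 8 : ℝ) : ℂ) * g2) = ((j + 1 : ℝ) : ℂ) *
        (D - ((((A - B) / 2 : ℝ) : ℂ) * g0 + (((A - B) / 8 : ℝ) : ℂ) * g2)) := by
      rw [hrP, hrM]
      push_cast
      ring
    rw [e1, norm_mul, norm_real, Real.norm_of_nonneg (by linarith)] at hD1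
    have e3 : (j : ℝ) * ‖D - ((((A - B) / 2 : ℝ) : ℂ) * g0 + (((A - B) / 8 : ℝ) : ℂ) * g2)‖ ≤
        (j : ℝ) * (|C1| * (j : ℝ) ^ (p - 1)) := by
      have e4 : 0 ≤ (j : ℝ) ^ p := by positivity
      calc _ ≤ ((j : ℝ) + 1) * ‖D - ((((A - B) / 2 : ℝ) : ℂ) * g0 + (((A - B) / 8 : ℝ) : ℂ) * g2)‖ := by
            have := norm_nonneg (D - ((((A - B) / 2 : ℝ) : ℂ) * g0 + (((A - B) / 8 : ℝ) : ℂ) * g2))
            nlinarith
        _ ≤ C1 * (j : ℝ) ^ p := hD1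
        _ ≤ |C1| * (j : ℝ) ^ p := by
            gcongr
            exact le_abs_self _
        _ = _ := by rw [pw]; ring
    exact le_of_mul_le_mul_left e3 hj0
  -- second part
  have p2 : ‖((((A - B) / 2 : ℝ) : ℂ) * g0 + (((A - B) / 8 : ℝ) : ℂ) * g2) -
      ((1 / j : ℝ) : ℂ) * ((((E : ℝ) : ℂ) - ((E⁻¹ : ℝ) : ℂ)) * (((1 / 2 : ℝ) : ℂ) * g0 +
        ((1 / 8 : ℝ) : ℂ) * g2))‖ ≤ 2 * Y ^ 2 * (j : ℝ) ^ (p - 1) := by
    have e1 : ((((A - B) / 2 : ℝ) : ℂ) * g0 + (((A - B) / 8 : ℝ) : ℂ) * g2) -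
      ((1 / j : ℝ) : ℂ) * ((((E : ℝ) : ℂ) - ((E⁻¹ : ℝ) : ℂ)) * (((1 / 2 : ℝ) : ℂ) * g0 +
        ((1 / 8 : ℝ) : ℂ) * g2)) =
      (((A - E / j) - (B - E⁻¹ / j) : ℝ) : ℂ) * (1 / 2 * g0 + 1 / 8 * g2) := by
      push_cast
      ring
    have hQ : ‖(((A - E / j) - (B - E⁻¹ / j) : ℝ) : ℂ)‖ ≤ 2 * (Y ^ 2 / j ^ 2) := by
      rw [norm_real, Real.norm_eq_abs]
      exact (abs_sub _ _).trans (by linarith)
    have hn : ‖(1 / 2 * g0 + 1 / 8 * g2 : ℂ)‖ ≤ (j : ℝ) := by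
      refine (norm_add_le _ _).trans ?_
      rw [norm_mul, norm_mul]
      have c1 : ‖(1 / 2 : ℂ)‖ = 1 / 2 := by norm_num
      have c2 : ‖(1 / 8 : ℂ)‖ = 1 / 8 := by norm_num
      rw [c1, c2]
      linarith
    rw [e1, norm_mul]
    calc _ ≤ 2 * (Y ^ 2 / j ^ 2) * (j : ℝ) := mul_le_mul hQ hn (norm_nonneg _) (by positivity)
      _ = 2 * Y ^ 2 * (j : ℝ)⁻¹ := by
        field_simp
      _ ≤ _ := by gcongr
  have e5 : D - ((1 / j : ℝ) : ℂ) * ((((E : ℝ) : ℂ) - ((E⁻¹ : ℝ) : ℂ)) * (((1 / 2 : ℝ) : ℂ) * g0 +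
        ((1 / 8 : ℝ) : ℂ) * g2)) =
      (D - ((((A - B) / 2 : ℝ) : ℂ) * g0 + (((A - B) / 8 : ℝ) : ℂ) * g2)) +
      (((((A - B) / 2 : ℝ) : ℂ) * g0 + (((A - B) / 8 : ℝ) : ℂ) * g2) -
      ((1 / j : ℝ) : ℂ) * ((((E : ℝ) : ℂ) - ((E⁻¹ : ℝ) : ℂ)) * (((1 / 2 : ℝ) : ℂ) * g0 +
        ((1 / 8 : ℝ) : ℂ) * g2))) := by ring
  rw [e5]
  exact (norm_add_le _ _).trans ((add_le_add p1 p2).trans (le_of_eq (by ring)))

/-- **the function side of plan V** -/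
theorem funV (h : FunHV C f Psi) {p : ℝ} (hp0 : 0 ≤ p) (hp : p < 3 / 8) (hE : E2V p Psi) :
    ∃ (g : ℂ) (C' : ℝ), 0 ≤ C' ∧ ∀ᶠ j : ℕ in atTop, ∀ z : ℂ, |z.re| ≤ aL → |z.im| < 2 →
      ‖f j z - g * (((j : ℝ) ^ (3 / 8 : ℝ) : ℝ) : ℂ)‖ ≤ C' * (j : ℝ) ^ p := by
  have hpi := Real.pi_pos
  obtain ⟨C1, hE⟩ := EPrV_of h hp0 hE
  set ρ : ℝ := σL / 2 with hρ
  have hρ0 : 0 < ρ := by
    have := σL_pos
    positivity
  have hρ1 : ρ < σL := by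
    have := σL_pos
    linarith
  obtain ⟨K1, hK1⟩ := h.kf 1 hρ0.le hρ1
  obtain ⟨K2, hK2⟩ := h.kp 1 hρ0.le hρ1
  set K := max K1 K2 with hK
  have hk1 := hK1 K (le_max_left _ _)
  have hk2 := hK2 K (le_max_right _ _)
  set C2 : ℝ := max C1 1 with hC2
  have hC21 : 1 ≤ C2 := le_max_right _ _
  have hC2' : C1 ≤ C2 := le_max_left _ _
  have pw1 : ∀ j : ℕ, 1 ≤ j → (j : ℝ) ^ (-(1 : ℝ)) ≤ (j : ℝ) ^ (p - 1) := fun j hj =>
    Real.rpow_le_rpow_of_exponent_le (by exact_mod_cast hj) (by linarith)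
  have key := chainV (w := 8 / 3) (L := aL) (R := aL + ρ) (γ := 1 / 2) (α := 1 / 8) (p := p) (e0 := 1)
    (C := C2) (by norm_num) (by unfold aL; ring)
    (by rw [abs_of_pos aL_pos]; linarith) hp0 (by linarith) (by linarith) (by linarith) (by norm_num)
    K (n := f) (Psi := Psi) (b := bK f) (a := aK Psi) (by norm_num) ?_ ?_ ?_ ?_ ?_ ?_ ?_
  · obtain ⟨C', hC'0, h1, h2, h3⟩ := key
    have hlam : lamV (8 / 3) (1 / 2) (1 / 8) 0 = 3 / 16 := by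
      unfold lamV
      push_cast
      norm_num
    obtain ⟨g, C3, hC30, h4⟩ := seq_powV (b := fun j => bK f j 0) (μ := 3 / 8) (p := p) (e := 1) (C := C')
      (by norm_num) (by norm_num) hp (by linarith) (by
      filter_upwards [h2] with j hj
      rw [hlam] at hj
      have e1 : (1 : ℂ) - (((3 / 8) / j : ℝ) : ℂ) = 1 - 2 * (3 / 16) / j := by
        push_cast
        ring
      rw [e1]
      exact hj) h3
    set E : ℝ := (2 * K + 1) * Real.exp (|(8 / 3 : ℝ)| * K * 2) with hEdef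
    have hE0 : 0 < E := by positivity
    refine ⟨g, 1 + E * C' + C3, by positivity, ?_⟩
    filter_upwards [hk1, h1, h4, eventually_ge_atTop 1] with j a1 a2 a3 a4 z hz hzi
    have hj1 : (1 : ℝ) ≤ j := by exact_mod_cast a4
    have hj0 : (0 : ℝ) < j := by linarith
    have hjp : 1 ≤ (j : ℝ) ^ p := Real.one_le_rpow hj1 hp0
    have e1 := a1 z (by linarith) hzi.le
    have e1' : ‖f j z - EL (8 / 3) K (bK f j) z‖ ≤ 1 * (j : ℝ) ^ p := by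
      refine e1.trans ?_
      have : (j : ℝ) ^ (-(1 : ℝ)) ≤ 1 := Real.rpow_le_one_of_one_le_of_nonpos hj1 (by norm_num)
      linarith
    have e2 : EL (8 / 3) K (bK f j) z = bK f j 0 + EL (8 / 3) K (fun k => if k = 0 then 0 else bK f j k) z := by
      unfold EL
      rw [← Finset.add_sum_erase _ _ (show (0 : ℤ) ∈ Finset.Icc (-(K : ℤ)) K by simp),
        ← Finset.add_sum_erase _ _ (show (0 : ℤ) ∈ Finset.Icc (-(K : ℤ)) K by simp)]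
      simp only [Int.cast_zero, mul_zero, zero_mul, exp_zero, mul_one, if_true, zero_add]
      congr 1
      refine Finset.sum_congr rfl fun k hk => ?_
      rw [if_neg (Finset.ne_of_mem_erase hk)]
    have e3 : ‖EL (8 / 3) K (fun k => if k = 0 then 0 else bK f j k) z‖ ≤ E * (C' * (j : ℝ) ^ p) := by
      refine (EL_le (a := fun k => if k = 0 then 0 else bK f j k) (A := C' * (j : ℝ) ^ p)
        (fun k hk => ?_) z).trans ?_
      · split_ifs with h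
        · rw [norm_zero]
          positivity
        · exact a2 k hk h
      · rw [hEdef]
        have := hzi.le
        gcongr
    have e4 : f j z - g * (((j : ℝ) ^ (3 / 8 : ℝ) : ℝ) : ℂ) = (f j z - EL (8 / 3) K (bK f j) z) +
        EL (8 / 3) K (fun k => if k = 0 then 0 else bK f j k) z +
        (bK f j 0 - g * (((j : ℝ) ^ (3 / 8 : ℝ) : ℝ) : ℂ)) := by
      rw [e2]
      ring
    rw [e4]
    refine (norm_add_le _ _).trans ((add_le_add (norm_add_le _ _) le_rfl).trans ?_)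
    have e5 := add_le_add (add_le_add e1' e3) a3
    refine e5.trans (le_of_eq ?_)
    ring
  · -- differentiability
    filter_upwards [h.fp, log_ev (20 / 3)] with j hj hL x hx z hz
    refine ((hj x hx).df z ?_ ?_).differentiableWithinAt
    · linarith [hz.1]
    · rw [two_σL]
      linarith [hz.2]
  · -- K-terms of Psi
    filter_upwards [hk2, eventually_ge_atTop 1] with j hj hj1 x hx z hz
    refine (hj x hx z hz.1.le hz.2.le).trans ((pw1 j hj1).trans ?_)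
    have : 0 ≤ (j : ℝ) ^ (p - 1) := by positivity
    nlinarith
  · filter_upwards [hk1, eventually_ge_atTop 1] with j hj hj1 z hz
    refine (hj z hz.1.le hz.2.le).trans ((pw1 j hj1).trans ?_)
    have : 0 ≤ (j : ℝ) ^ (p - 1) := by positivity
    nlinarith
  · filter_upwards [h.up (1 / 4) (by norm_num)] with j hj x hx t ht
    refine (hj x hx t ht).trans ?_
    rw [show (3 / 4 : ℝ) + 1 / 4 = 1 by norm_num]
    have : 0 ≤ (j : ℝ) ^ (1 : ℝ) := by positivity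
    nlinarith
  · filter_upwards [hE] with j hj s hs t ht
    obtain ⟨D, h1, h2⟩ := hj s hs t ht
    refine ⟨D, h1, h2.trans ?_⟩
    have : 0 ≤ (j : ℝ) ^ (p - 1) := by positivity
    gcongr
  · filter_upwards [h.p0] with j hj z _
    exact hj z
  · filter_upwards [h.a1] with j hj x hx
    exact hj x hx

end PVF
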