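import Pool.Agent.PV.ValsV
import Pool.Agent.PV.FunV
import Pool.Agent.PB.EMain
import Pool.Agent.PB.VInst2

/-!
# Plan V: `(E_V)` from the Ward identities at the true field

* `PBEI.E_instV`: `VDat.E_primeV` at the true field, one moved row at height `s`, legs at height `t`, anti-legs
  at height `0`; constants before `j`, `s`, `t`;
* **`PBEM.E2V_of`**: families over `j`, `s`, `t`: `LevD` with the mean density `mfL t - mfL 0`, the first Ward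
  identity `hD`, `F[1] = Ψ`, the leg derivatives with prefactor `R`, `R' / R = p0`, `p0' = p1`, sizes `≤ C j^e`
  `=> PVF.E2V e Psi`.
-/

set_option autoImplicit false

open MeasureTheory Set Filter Topology Complex

noncomputable section

namespace PBEI

open NUMF (l l_pos)
open PBForce (Rws0)
open PBV
open Pool.Agent.PB (rl MeanDat VDat mV CV CmV CsV CssV)

lemma norm_lim_le {f f' : ℝ → ℂ} {B : ℝ} {fp fm : ℂ} (h : Pool.Agent.PB.Lim f f' B fp fm) :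
    ‖fp‖ ≤ B ∧ ‖fm‖ ≤ B :=
  ⟨le_of_tendsto h.top.norm (Eventually.of_forall h.b),
    le_of_tendsto h.bot.norm (Eventually.of_forall h.b)⟩

/-- **`(E_V)`**, one moved row at height `s`, legs at height `t` -/
theorem E_instV {a' : ℝ} (ha : 1 / 2 ≤ a') (ha2 : a' < 2) : ∃ K : ℝ, 0 < K ∧
    ∀ (j : ℕ) (s t : ℝ), |s| ≤ 1 → |t| ≤ 1 →
    ∀ (f fη fτ fττ p p' : ℂ) (G1 : (ℂ → ℂ) → ℂ) (G2 H2 : (ℂ → ℂ) → (ℂ → ℂ) → ℂ) (Hs : (ℂ → ℂ) → ℂ)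
      (Hss : ℂ) (δ δ0 : ℝ), 0 ≤ δ →
      PBE.Lev2 y1 y2 a' f G1 G2 (mV fun u => mfL t u - mfL 0 u) CV δ →
      PBE.Lev2m y1 y2 a' f H2 Hs Hss CmV (CsV sg') (CssV sg') δ →
      PBE.Lin1 y1 y2 a' G1 → PBE.Lin2 y1 y2 a' G2 →
      Integrable (fun q => G2 (Apl (rowS j s) 0 q) (Bch q)) wm →
      Integrable (fun q => H2 (Ami (rowS j s) 0 q) (Bch q)) wm →
      ‖fη - ((∫ q, G2 (Apl (rowS j s) 0 q) (Bch q) ∂wm) +
        ((∫ q, H2 (Ami (rowS j s) 0 q) (Bch q) ∂wm) + 2 * Hs (uF (rowS j s) 0) -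
          ((rpS j s : ℂ) - (rmS j s : ℂ)) / 2 * Hss) +
            G1 (fun z => qF (rowS j s) 0 t z - qF (rowS j s) 0 0 z))‖ ≤ δ0 →
      mV (mfL 0) (h0T t) = -p → mV (mfL 0) (g2T t) = p' →
      (‖p‖ ≤ K ∧ ‖p'‖ ≤ K ∧ ‖((rpS j s : ℂ) - (rmS j s : ℂ)) / 2‖ ≤ K) ∧
      (‖G1 (h0T t) + (fτ - p * f)‖ ≤ δ →
        ‖G2 (h0T t) (h0T t) + G1 (g2T t) - (fττ - 2 * p * fτ + (p ^ 2 - p') * f)‖ ≤ δ →
      ‖fη - (-(((rpS j s : ℂ) - (rmS j s : ℂ)) / 8) * fττ +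
        ((rpS j s : ℂ) - (rmS j s : ℂ)) / 2 * f)‖ ≤ δ0 + K * δ) := by
  have hl := l_pos
  obtain ⟨C1, C, hC1, hC, h⟩ := vinst2 (a := (a' + 2) / 2) ha (by linarith) (by linarith)
  have ha0 : 0 < a' := by linarith
  have hC0 : 0 < C := by linarith
  set n := 2 * (3 * l) with hn
  have hn0 : 0 < n := by positivity
  set F := 1 + 2 * C / (a' * n) with hF
  have hF0 : 0 < F := by positivity
  set P := (C * (2 / a')) * C with hP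
  have hP0 : 0 < P := by positivity
  set K := ((3 + (C + C) * (2 / a') * F) * F ^ 2 * C + (C + 2 * C + C) + (C + C) * F + 2 * P * C +
    C * (1 + C)) + P with hK
  have hK0 : 0 < K := by positivity
  refine ⟨K, hK0, fun j s t hs ht f fη fτ fττ p p' G1 G2 H2 Hs Hss δ δ0 hδ hL hL' hG1 hG2 iG iH hI
    hp hp' => ?_⟩
  obtain ⟨d, hint⟩ := h j s t hs ht
  obtain ⟨d0, -⟩ := h j s 0 hs (by simp)
  obtain ⟨hrp, hrm⟩ := norm_lim_le d.lr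
  have pb : ‖p‖ ≤ P := by
    have h1 := Pool.Agent.PB.mV_le d.ha d.y1 d.y2 d0.hm.lim.b d.th0
    rw [hp, norm_neg] at h1
    exact h1
  have pb' : ‖p'‖ ≤ P := by
    have h1 := Pool.Agent.PB.mV_le d.ha d.y1 d.y2 d0.hm.lim.b d.tg2
    rw [hp'] at h1
    exact h1
  have hPK : P ≤ K := by
    rw [hK]
    have : 0 ≤ (3 + (C + C) * (2 / a') * F) * F ^ 2 * C + (C + 2 * C + C) + (C + C) * F + 2 * P * C +
      C * (1 + C) := by positivity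
    linarith
  have hCK : C ≤ K := by
    rw [hK]
    have : 0 ≤ (3 + (C + C) * (2 / a') * F) * F ^ 2 * C + (2 * C + C) + (C + C) * F + 2 * P * C +
      C * (1 + C) := by positivity
    linarith
  have hr2 : ‖((rpS j s : ℂ) - (rmS j s : ℂ)) / 2‖ ≤ C := by
    have h1 : ‖(rpS j s : ℂ) - (rmS j s : ℂ)‖ ≤ 2 * C := (norm_sub_le _ _).trans (by linarith)
    rw [norm_div]
    have : ‖(2 : ℂ)‖ = 2 := by simp
    rw [this]
    linarith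
  refine ⟨⟨pb.trans hPK, pb'.trans hPK, hr2.trans hCK⟩, fun hτ hττ => ?_⟩
  have key := d.E_primeV d0.hm d0.tq d0.eq hδ hL hL' hG1 hG2 iG iH hI hτ hττ hp hp'
  refine key.trans ?_
  have hmass : ‖PBE.mass (h0T t)‖ = n := by
    rw [mass_h0, norm_mul, norm_mul, norm_I, norm_real, Real.norm_of_nonneg hl.le]
    have : ‖(6 : ℂ)‖ = 6 := by simp
    rw [this, hn]; ring
  rw [hmass]
  have hD : ‖(rpS j s : ℂ) - (rmS j s : ℂ)‖ ≤ 2 * C := (norm_sub_le _ _).trans (by linarith)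
  have hD8 : ‖-(((rpS j s : ℂ) - (rmS j s : ℂ)) / 8)‖ ≤ C := by
    rw [norm_neg, norm_div]
    have : ‖(8 : ℂ)‖ = 8 := by simp
    rw [this]; linarith
  have hpD : ‖-(2 * p * -(((rpS j s : ℂ) - (rmS j s : ℂ)) / 8))‖ ≤ 2 * P * C := by
    rw [norm_neg, norm_mul, norm_mul]
    have : ‖(2 : ℂ)‖ = 2 := by simp
    rw [this]
    gcongr
  have hIn0 : 0 ≤ ∫ q, aE C1 ((a' + 2) / 2) q * bE' C1 a' q ∂wm := integral_nonneg fun q => by positivity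
  have hFe : 1 + 2 * C / (a' * n) = F := rfl
  rw [hFe]
  have hD2 : ‖(rpS j s : ℂ) - (rmS j s : ℂ)‖ / 2 ≤ C := by linarith
  have t1 : (3 + (C + C) * (2 / a') * F) * F ^ 2 * (∫ q, aE C1 ((a' + 2) / 2) q * bE' C1 a' q ∂wm) ≤
      (3 + (C + C) * (2 / a') * F) * F ^ 2 * C := by gcongr
  have t2 : ‖-(((rpS j s : ℂ) - (rmS j s : ℂ)) / 8)‖ * (1 + C) ≤ C * (1 + C) := by gcongr
  have : (3 + (C + C) * (2 / a') * F) * F ^ 2 * (∫ q, aE C1 ((a' + 2) / 2) q * bE' C1 a' q ∂wm) +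
      ((∫ q, aE C1 ((a' + 2) / 2) q * bE' C1 a' q ∂wm) + 2 * C + ‖(rpS j s : ℂ) - (rmS j s : ℂ)‖ / 2) +
      (C + C) * F + ‖-(2 * p * -(((rpS j s : ℂ) - (rmS j s : ℂ)) / 8))‖ +
      ‖-(((rpS j s : ℂ) - (rmS j s : ℂ)) / 8)‖ * (1 + C) ≤ K := by
    rw [hK]
    linarith
  have h9 := mul_le_mul_of_nonneg_right this hδ
  linarith

end PBEI

namespace PBEM

open PBE PBFunc PBEI PBV
open Pool.Agent.PB (rl MeanDat VDat mV CV CmV CsV CssV)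

/-- **(E_V)**, families -/
theorem E2V_of {a' : ℝ} (ha : 1 / 2 ≤ a') (ha2 : a' < 2) {e C : ℝ} {Psi : ℕ → ℂ → ℂ → ℂ}
    {Ω : ℕ → Type*} [∀ j, MeasurableSpace (Ω j)] {μ : ∀ j, Measure (Ω j)} [∀ j, SFinite (μ j)]
    {w : ∀ j, ℝ → ℝ → Ω j → ℂ} {V Vm : ∀ j, ℝ → ℝ → (ℂ → ℂ) → Ω j → ℂ} {S : ∀ j, ℝ → ℝ → Ω j → ℂ}
    {K th δp δ0 δ1 : ℕ → ℝ} {p0 p1 : ℝ → ℂ}
    (hp0 : ∀ t ∈ Icc (0 : ℝ) 1, mV (mfL 0) (h0T t) = -p0 t)
    (hp1 : ∀ t ∈ Icc (0 : ℝ) 1, mV (mfL 0) (g2T t) = p1 t)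
    (hL : ∀ᶠ j : ℕ in atTop, ∀ s ∈ Icc (0 : ℝ) 1, ∀ t ∈ Icc (0 : ℝ) 1,
      LevD y1 y2 a' (μ j) (w j s t) (V j s t) (Vm j s t) (S j s t) (K j) (th j) (δp j)
        (fun u => mfL t u - mfL 0 u) PBEI.sg' wm (Apl (rowS j s) 0) (Ami (rowS j s) 0) Bch)
    (hD : ∀ᶠ j : ℕ in atTop, ∀ s ∈ Icc (0 : ℝ) 1, ∀ t ∈ Icc (0 : ℝ) 1, ∃ D : ℂ,
      HasDerivAt (fun s : ℝ => Psi j (I * t) (I * s)) D s ∧
      ‖((j + 1 : ℝ) : ℂ) * D -
        ((∫ q, F (μ j) (w j s t) (fun ω => V j s t (Apl (rowS j s) 0 q) ω * V j s t (Bch q) ω) ∂wm) +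
        ((∫ q, F (μ j) (w j s t) (fun ω => Vm j s t (Ami (rowS j s) 0 q) ω * Vm j s t (Bch q) ω) ∂wm) +
          2 * F (μ j) (w j s t) (fun ω => Vm j s t (uF (rowS j s) 0) ω * S j s t ω) -
          ((PBV.rP j s : ℂ) - (PBV.rM j s : ℂ)) / 2 * F (μ j) (w j s t) (fun ω => S j s t ω * S j s t ω)) +
        F (μ j) (w j s t) (V j s t (fun z => qF (rowS j s) 0 t z - qF (rowS j s) 0 0 z)))‖ ≤ δ0 j)
    (h1 : ∀ᶠ j : ℕ in atTop, ∀ s ∈ Icc (0 : ℝ) 1, ∀ t ∈ Icc (0 : ℝ) 1,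
      ‖F (μ j) (w j s t) (fun _ => 1) - Psi j (I * t) (I * s)‖ ≤ δ1 j)
    (hτ : ∀ᶠ j : ℕ in atTop, ∀ s ∈ Icc (0 : ℝ) 1, ∀ t ∈ Icc (0 : ℝ) 1,
      ‖F (μ j) (w j s t) (V j s t (h0T t)) +
        (I * deriv (fun z => Psi j z (I * s)) (I * t) - p0 t * Psi j (I * t) (I * s))‖ ≤ δ1 j ∧
      ‖F (μ j) (w j s t) (fun ω => V j s t (h0T t) ω * V j s t (h0T t) ω) +
        F (μ j) (w j s t) (V j s t (g2T t)) -
        (-deriv (deriv fun z => Psi j z (I * s)) (I * t) -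
          2 * p0 t * (I * deriv (fun z => Psi j z (I * s)) (I * t)) +
          (p0 t ^ 2 - p1 t) * Psi j (I * t) (I * s))‖ ≤ δ1 j)
    (hsz : ∀ᶠ j : ℕ in atTop, δ0 j ≤ C * (j : ℝ) ^ e ∧ 2 * K j * th j ≤ C * (j : ℝ) ^ e ∧
      δp j ≤ C * (j : ℝ) ^ e ∧ 0 ≤ δ1 j ∧ δ1 j ≤ C * (j : ℝ) ^ e) : PVF.E2V e Psi := by
  obtain ⟨K0, hK0, hE⟩ := E_instV ha ha2
  obtain ⟨C1, CC, -, -, hV⟩ := vinst2 (a := (a' + 2) / 2) ha (by linarith) (by linarith)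
  set Q : ℝ := 1 + K0 + K0 ^ 2 with hQ
  have hQ1 : 1 ≤ Q := by
    rw [hQ]
    nlinarith
  refine ⟨C + K0 * ((2 + Q) * C) + K0 * C, ?_⟩
  filter_upwards [hL, hD, h1, hτ, hsz] with j h1 h2 h5 h3 h4 s hs t ht
  have hs1 : |s| ≤ 1 := abs_le.2 ⟨by linarith [hs.1], hs.2⟩
  have ht1 : |t| ≤ 1 := abs_le.2 ⟨by linarith [ht.1], ht.2⟩
  obtain ⟨D, hD1, hD2⟩ := h2 s hs t ht
  obtain ⟨e1, e2⟩ := h3 s hs t ht
  have e0 := h5 s hs t ht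
  obtain ⟨z0, z1, z2, z3, z4⟩ := h4
  have L := h1 s hs t ht
  refine ⟨D, hD1, ?_⟩
  obtain ⟨dv, -⟩ := hV j s t hs1 ht1
  have hy1 := y1_neg
  have hy2 := y2_pos
  have hKt : 0 ≤ 2 * K j * th j := by
    have := L.K0
    have := L.th0
    positivity
  set g1 := I * deriv (fun z => Psi j z (I * s)) (I * t) with hg1
  set g2 := -deriv (deriv fun z => Psi j z (I * s)) (I * t) with hg2
  set f := F (μ j) (w j s t) (fun _ => 1) with hf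
  set δ := 2 * K j * th j + δp j + Q * δ1 j with hδd
  have hQδ : δ1 j ≤ Q * δ1 j := by nlinarith
  have hδ : 2 * K j * th j + δp j ≤ δ := by
    rw [hδd]
    linarith
  have hδ1 : Q * δ1 j ≤ δ := by
    rw [hδd]
    linarith [L.dp0]
  have hδ0 : 0 ≤ δ := by
    rw [hδd]
    linarith [L.dp0]
  obtain ⟨⟨bp, bp', br⟩, key⟩ := hE j s t hs1 ht1 f (((j + 1 : ℝ) : ℂ) * D) g1 g2 (p0 t) (p1 t)
    _ _ _ _ _ δ (δ0 j) hδ0
    ((L.lev2 hy1 hy2).mono hy1 hy2 hδ) ((L.lev2m hy1 hy2).mono hy1 hy2 hδ) (L.lin1 hy1 hy2)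
    (L.lin2 hy1 hy2) (L.iG hy1 hy2 dv.hR) (L.iH hy1 hy2 dv.hR') hD2 (hp0 t ht) (hp1 t ht)
  have c1 : ‖F (μ j) (w j s t) (V j s t (h0T t)) + (g1 - p0 t * f)‖ ≤ δ := by
    have e3 : F (μ j) (w j s t) (V j s t (h0T t)) + (g1 - p0 t * f) =
        (F (μ j) (w j s t) (V j s t (h0T t)) + (g1 - p0 t * Psi j (I * t) (I * s))) -
          p0 t * (f - Psi j (I * t) (I * s)) := by ring
    rw [e3]
    refine (norm_sub_le _ _).trans ?_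
    rw [norm_mul]
    have e4 : ‖p0 t‖ * ‖f - Psi j (I * t) (I * s)‖ ≤ K0 * δ1 j :=
      mul_le_mul bp e0 (norm_nonneg _) hK0.le
    have e5 : δ1 j + K0 * δ1 j ≤ Q * δ1 j := by
      rw [hQ]
      have : 0 ≤ K0 ^ 2 * δ1 j := by positivity
      linarith
    linarith
  have c2 : ‖F (μ j) (w j s t) (fun ω => V j s t (h0T t) ω * V j s t (h0T t) ω) +
      F (μ j) (w j s t) (V j s t (g2T t)) -
      (g2 - 2 * p0 t * g1 + (p0 t ^ 2 - p1 t) * f)‖ ≤ δ := by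
    have e3 : F (μ j) (w j s t) (fun ω => V j s t (h0T t) ω * V j s t (h0T t) ω) +
        F (μ j) (w j s t) (V j s t (g2T t)) - (g2 - 2 * p0 t * g1 + (p0 t ^ 2 - p1 t) * f) =
        (F (μ j) (w j s t) (fun ω => V j s t (h0T t) ω * V j s t (h0T t) ω) +
          F (μ j) (w j s t) (V j s t (g2T t)) -
          (g2 - 2 * p0 t * g1 + (p0 t ^ 2 - p1 t) * Psi j (I * t) (I * s))) -
          (p0 t ^ 2 - p1 t) * (f - Psi j (I * t) (I * s)) := by ring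
    rw [e3]
    refine (norm_sub_le _ _).trans ?_
    rw [norm_mul]
    have e6 : ‖p0 t ^ 2 - p1 t‖ ≤ K0 ^ 2 + K0 := by
      refine (norm_sub_le _ _).trans ?_
      rw [norm_pow]
      gcongr
    have e4 : ‖p0 t ^ 2 - p1 t‖ * ‖f - Psi j (I * t) (I * s)‖ ≤ (K0 ^ 2 + K0) * δ1 j :=
      mul_le_mul e6 e0 (norm_nonneg _) (by positivity)
    have e5 : δ1 j + (K0 ^ 2 + K0) * δ1 j ≤ Q * δ1 j := by
      rw [hQ]
      linarith
    linarith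
  have key2 := key c1 c2
  have hrp : (rpS j s : ℂ) = (PBV.rP j s : ℂ) := rfl
  have hrm : (rmS j s : ℂ) = (PBV.rM j s : ℂ) := rfl
  rw [hrp, hrm] at key2 br
  have e7 : ((j + 1 : ℝ) : ℂ) * D - ((((PBV.rP j s - PBV.rM j s) / 2 : ℝ) : ℂ) * Psi j (I * t) (I * s) +
      (((PBV.rP j s - PBV.rM j s) / 8 : ℝ) : ℂ) * deriv (deriv fun z => Psi j z (I * s)) (I * t)) =
      (((j + 1 : ℝ) : ℂ) * D - (-(((PBV.rP j s : ℂ) - (PBV.rM j s : ℂ)) / 8) * g2 +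
        ((PBV.rP j s : ℂ) - (PBV.rM j s : ℂ)) / 2 * f)) +
        ((PBV.rP j s : ℂ) - (PBV.rM j s : ℂ)) / 2 * (f - Psi j (I * t) (I * s)) := by
    rw [hg2]
    push_cast
    ring
  rw [e7]
  refine (norm_add_le _ _).trans ?_
  have e8 : ‖((PBV.rP j s : ℂ) - (PBV.rM j s : ℂ)) / 2 * (f - Psi j (I * t) (I * s))‖ ≤
      K0 * (C * (j : ℝ) ^ e) := by
    rw [norm_mul]
    exact mul_le_mul br (e0.trans z4) (norm_nonneg _) hK0.le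
  have e9 : K0 * δ ≤ K0 * ((2 + Q) * (C * (j : ℝ) ^ e)) := by
    refine mul_le_mul_of_nonneg_left ?_ hK0.le
    have : Q * δ1 j ≤ Q * (C * (j : ℝ) ^ e) := mul_le_mul_of_nonneg_left z4 (by linarith)
    rw [hδd]
    linarith
  linarith

end PBEM

end
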