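import Pool.Agent.PV.XvE
import Pool.Agent.PV.FunIV

/-!
# Plan V: the exact facts in the form of the function side (helper96)
-/

set_option autoImplicit false

noncomputable section

open Complex

namespace PV

open NUP1 (l)

/-- **the exact facts: holomorphy, leg relation, zeros** -/
theorem xvP : XvP where
  fd := fV_diff
  fxd N _ h := fVx_diff N h
  leg N _ h := fVx_leg N h
  fz := fV_zeros
  fxz N _ h := fVx_zeros N h

end PV

end
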