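import Pool.Agent.PV.CloseEV
import Pool.Agent.PV.XvF

/-!
# Plan V: analyticity in the legs (helper96)
-/

set_option autoImplicit false

noncomputable section

open Complex

namespace PVX

open NUP1 (l lpos)

theorem anV : AnV := by
  have hl := lpos
  refine ⟨{z | |z.re| < 43 / 10 * l}, isOpen_lt (continuous_abs.comp Complex.continuous_re)
    continuous_const, fun τ => ?_, fun j s _ => PV.fVx_diff j ?_⟩
  · show |(I * (τ : ℂ)).re| < 43 / 10 * l
    simp
    linarith
  · simp
    linarith

end PVX

end
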