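import Pool.Agent.PB.VInst2
import Pool.Agent.PB.MFrho3
import Pool.Agent.PB.PfD

/-!
# Plan V: the mean field of the legs at height `τ` minus the legs at height `0` (helper23)

`mF0 (t - τ - 3/2 l i)` the mean density of a leg, `dleg (t - τ)` the derivative of its potential,
`rr = rh' / rh`.

* `rr_PT`: `I rr (I t) = ∫ P s tanh (t - s) ds`;
* **`leg_mass`**: `∫ dleg (t - τ) mF0 (t - 3/2 l i) dt = - 2 I rr (I τ)`; `rV_hasDerivAt` its derivative;
* `MeanDat0`: mean data with limits `0`, `value`, `value_lin`; `meanDat_sub`;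
* **`mean0`**: `MeanDat0` of `mfL τ - mfL 0`, `Dleg τ - Dleg 0`, `h0T τ - h0T 0`, uniform in `|τ| ≤ 1`;
* **`mV_h0`**: `mV (mfL 0) (h0T τ) = - (2 I rr (I τ))`, **`mV_g2`**, `mV_g2_deriv`: `mV (mfL 0) (g2T τ)` is its
  derivative up to the sign, every `τ`;
* `mV_sub`, `mV_sub_h0`: `mV (mfL τ - mfL 0) (h0T τ) = 2 I rr (I τ)`, `|τ| ≤ 1`.
-/

set_option autoImplicit false

noncomputable section

open MeasureTheory Set Filter Topology Complex

namespace PV

open NUMF hiding KC
open PBLeg Pool.Agent.PB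

/-! ## 1. The logarithmic derivative of the bulk factor on the imaginary axis -/

/-- `∫ P(s) tanh (t - s) ds` -/
def PT (t : ℝ) : ℝ := ∫ s : ℝ, P s * Real.tanh (t - s)

theorem h_hasDerivAt (x : ℝ) : HasDerivAt (fun x => h x 0) (2 * Real.tanh x) x := by
  have e : (fun x : ℝ => h x 0) = fun x => Real.log (Real.cosh (2 * x) + 1) := by
    funext x
    exact h0 x
  rw [e]
  have h1 : HasDerivAt (fun x : ℝ => Real.cosh (2 * x) + 1) (Real.sinh (2 * x) * 2) x := by
    have h2 : HasDerivAt (fun x : ℝ => 2 * x) 2 x := by simpa using (hasDerivAt_id x).const_mul 2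
    exact (h2.cosh).add_const 1
  have hc := Real.cosh_pos x
  have h2 : Real.cosh (2 * x) + 1 = 2 * Real.cosh x ^ 2 := by
    rw [Real.cosh_two_mul]
    have := Real.cosh_sq x
    linarith
  have h3 : Real.cosh (2 * x) + 1 ≠ 0 := by
    rw [h2]
    positivity
  refine (h1.log h3).congr_deriv ?_
  rw [h2, Real.sinh_two_mul, Real.tanh_eq_sinh_div_cosh]
  field_simp

theorem tanh_cont : Continuous Real.tanh := by
  have : Real.tanh = fun x => Real.sinh x / Real.cosh x := funext Real.tanh_eq_sinh_div_cosh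
  rw [this]
  exact Real.continuous_sinh.div Real.continuous_cosh fun x => (Real.cosh_pos x).ne'

theorem PT_int (t : ℝ) : Integrable fun s : ℝ => P s * Real.tanh (t - s) := by
  refine P_integrable.mul_bdd (c := 1)
    (tanh_cont.comp (continuous_const.sub continuous_id)).aestronglyMeasurable
    (Eventually.of_forall fun s => ?_)
  rw [Real.norm_eq_abs]
  exact (Real.abs_tanh_lt_one _).le

theorem H_hasDerivAt (t : ℝ) : HasDerivAt (fun t : ℝ => H t 0) (2 * PT t) t := by
  have key := hasDerivAt_integral_of_dominated_loc_of_deriv_le (μ := volume) (𝕜 := ℝ) (x₀ := t)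
    (s := univ) (F := fun t s : ℝ => P s * h (t - s) 0) (F' := fun t s : ℝ => P s * (2 * Real.tanh (t - s)))
    (bound := fun s => P s * 2) univ_mem (Eventually.of_forall fun t => Ph_meas t 0)
    (Ph_integrable t 0)
    ((P_cont.mul (continuous_const.mul (tanh_cont.comp
      (continuous_const.sub continuous_id)))).aestronglyMeasurable)
    (Eventually.of_forall fun s x _ => by
      rw [norm_mul, norm_mul, Real.norm_eq_abs, Real.norm_eq_abs, Real.norm_eq_abs,
        abs_of_pos (P_pos s), abs_of_pos (two_pos)]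
      have := (Real.abs_tanh_lt_one (x - s)).le
      have := P_pos s
      gcongr
      linarith)
    (P_integrable.mul_const 2)
    (Eventually.of_forall fun s x _ => by
      have h1 : HasDerivAt (fun x : ℝ => x - s) 1 x := (hasDerivAt_id x).sub_const s
      have h2 := (h_hasDerivAt (x - s)).comp x h1
      rw [mul_one] at h2
      exact h2.const_mul (P s))
  refine key.2.congr_deriv ?_
  unfold PT
  rw [← integral_const_mul]
  refine integral_congr_ae (Eventually.of_forall fun s => ?_)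
  simp only
  ring

theorem H_rhR (t : ℝ) : H t 0 = 2 * Real.log (PBR.rhR t) + Real.log 2 := by
  have hl := l_pos
  have e1 : (I * (t : ℂ)).re = 0 := by simp
  have e2 : (I * (t : ℂ)).im = t := by simp
  have h1 := H_rh0 (z := I * t) (by rw [e1, abs_zero]; positivity)
  rw [e1, e2, mul_comm I, PBR.rh_I, Complex.norm_real, Real.norm_eq_abs, abs_of_pos (PBR.rhR_pos t)] at h1
  exact h1

theorem rhR_hasDerivAt (t : ℝ) : HasDerivAt PBR.rhR (PBR.rhR t * PT t) t := by
  have hR : PBR.rhR = fun t => Real.exp ((H t 0 - Real.log 2) / 2) := by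
    funext t
    rw [H_rhR t, show (2 * Real.log (PBR.rhR t) + Real.log 2 - Real.log 2) / 2 = Real.log (PBR.rhR t) by ring,
      Real.exp_log (PBR.rhR_pos t)]
  have h1 := (((H_hasDerivAt t).sub_const (Real.log 2)).div_const 2).exp
  have e : Real.exp ((H t 0 - Real.log 2) / 2) = PBR.rhR t := by rw [hR]
  rw [e] at h1
  have h2 : HasDerivAt PBR.rhR (PBR.rhR t * (2 * PT t / 2)) t := by
    have h3 : HasDerivAt (fun t => Real.exp ((H t 0 - Real.log 2) / 2)) (PBR.rhR t * (2 * PT t / 2)) t := h1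
    rw [← hR] at h3
    exact h3
  refine h2.congr_deriv ?_
  ring

/-- **logarithmic derivative of the bulk factor** -/
theorem rr_PT (t : ℝ) : I * rr (I * t) = (PT t : ℂ) := by
  have hl := l_pos
  have d2 := (rhR_hasDerivAt t).ofReal_comp
  have e0 : ((0 : ℂ) + I * t).re = 0 := by simp
  have d3 := HLD.real (x0 := 0) (s := t) (rh_HLD (w := 0 + I * t) (by
    rw [e0, abs_zero]
    exact mul_pos (by norm_num) NUP1.lpos))
  have e : (fun s : ℝ => PBR.rh (0 + I * s)) = fun s => ((PBR.rhR s : ℝ) : ℂ) := by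
    funext s
    rw [zero_add, mul_comm, PBR.rh_I]
  rw [e, zero_add, mul_comm I (t : ℂ), PBR.rh_I] at d3
  have h4 := d3.unique d2
  have h5 : ((PBR.rhR t : ℝ) : ℂ) ≠ 0 := by
    exact_mod_cast (PBR.rhR_pos t).ne'
  push_cast at h4
  rw [mul_comm I (t : ℂ)]
  exact mul_left_cancel₀ h5 h4

/-! ## 2. The primitive of the leg function -/

/-- primitive of `TT` on the real line -/
def LL (x : ℝ) : ℂ := (F (x + ((3 / 2 * l : ℝ) : ℂ) * I) - F (x - ((3 / 2 * l : ℝ) : ℂ) * I)) / 2

theorem F_even (w : ℂ) : F (-w) = F w := by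
  unfold F
  rw [Complex.cosh_neg]

theorem LL_neg (x : ℝ) : LL (-x) = -LL x := by
  unfold LL
  rw [← F_even (x + ((3 / 2 * l : ℝ) : ℂ) * I), ← F_even (x - ((3 / 2 * l : ℝ) : ℂ) * I)]
  push_cast
  rw [show -((x : ℂ) + 3 / 2 * l * I) = -x - 3 / 2 * l * I by ring,
    show -((x : ℂ) - 3 / 2 * l * I) = -x + 3 / 2 * l * I by ring]
  ring

theorem LL_hasDerivAt (x : ℝ) : HasDerivAt LL (TT x) x := by
  have hl := l_pos
  have h8 := lt_half_pi
  have i1 : ((x : ℂ) + ((3 / 2 * l : ℝ) : ℂ) * I).im = 3 / 2 * l := by simp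
  have i2 : ((x : ℂ) - ((3 / 2 * l : ℝ) : ℂ) * I).im = -(3 / 2 * l) := by simp
  have k1 := (F_hasDerivAt (w := x + ((3 / 2 * l : ℝ) : ℂ) * I) (by
    rw [i1, abs_of_pos (by positivity), ← h8]; linarith)).comp (x : ℂ) ((hasDerivAt_id (x : ℂ)).add_const (((3 / 2 * l : ℝ) : ℂ) * I))
  have k2 := (F_hasDerivAt (w := x - ((3 / 2 * l : ℝ) : ℂ) * I) (by
    rw [i2, abs_neg, abs_of_pos (by positivity), ← h8]; linarith)).comp (x : ℂ)
    ((hasDerivAt_id (x : ℂ)).sub_const (((3 / 2 * l : ℝ) : ℂ) * I))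
  have k3 := ((k1.sub k2).div_const 2).comp_ofReal
  refine k3.congr_deriv ?_
  unfold TT
  ring

theorem TT_le (x : ℝ) : ‖TT x‖ ≤ 4 / Real.cos (3 / 2 * l) * Real.exp (-2 * |x|) := by
  have hl := l_pos
  have h8 := lt_half_pi
  have i1 : ((x : ℂ) + ((3 / 2 * l : ℝ) : ℂ) * I).im = 3 / 2 * l := by simp
  have i2 : ((x : ℂ) - ((3 / 2 * l : ℝ) : ℂ) * I).im = -(3 / 2 * l) := by simp
  have r1 : ((x : ℂ) + ((3 / 2 * l : ℝ) : ℂ) * I).re = x := by simp
  have r2 : ((x : ℂ) - ((3 / 2 * l : ℝ) : ℂ) * I).re = x := by simp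
  have ha : 3 / 2 * l < Real.pi / 2 := by rw [← h8]; linarith
  have h := tanh_sub_tanh (w := x + ((3 / 2 * l : ℝ) : ℂ) * I) (v := x - ((3 / 2 * l : ℝ) : ℂ) * I) ha (by
    rw [i1, abs_of_pos (by positivity)]) ha (by rw [i2, abs_neg, abs_of_pos (by positivity)]) (by rw [r1, r2])
  rw [r1] at h
  unfold TT
  refine h.trans (le_of_eq ?_)
  ring

theorem TT_cont : Continuous fun x : ℝ => TT x := by
  have hl := l_pos
  have h8 := lt_half_pi
  rw [continuous_iff_continuousAt]
  intro x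
  have i1 : ((x : ℂ) + ((3 / 2 * l : ℝ) : ℂ) * I).im = 3 / 2 * l := by simp
  have i2 : ((x : ℂ) - ((3 / 2 * l : ℝ) : ℂ) * I).im = -(3 / 2 * l) := by simp
  have h1 : ContinuousAt Complex.tanh (x + ((3 / 2 * l : ℝ) : ℂ) * I) := (tanh_hasDerivAt (by
    rw [i1, abs_of_pos (by positivity), ← h8]; linarith)).continuousAt
  have h2 : ContinuousAt Complex.tanh (x - ((3 / 2 * l : ℝ) : ℂ) * I) := (tanh_hasDerivAt (by
    rw [i2, abs_neg, abs_of_pos (by positivity), ← h8]; linarith)).continuousAt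
  have g1 := ContinuousAt.comp (f := fun x : ℝ => (x : ℂ) + ((3 / 2 * l : ℝ) : ℂ) * I) h1 (by fun_prop)
  have g2 := ContinuousAt.comp (f := fun x : ℝ => (x : ℂ) - ((3 / 2 * l : ℝ) : ℂ) * I) h2 (by fun_prop)
  exact g1.sub g2

theorem cos_b_pos : 0 < Real.cos (3 / 2 * l) := by
  have hl := l_pos
  have h8 := lt_half_pi
  exact Real.cos_pos_of_mem_Ioo ⟨by linarith, by rw [← h8]; linarith⟩

theorem TT_int : Integrable fun x : ℝ => TT x :=
  ((int_exp_abs (b := 2) (by norm_num)).const_mul (4 / Real.cos (3 / 2 * l))).mono' TT_cont.aestronglyMeasurable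
    (Eventually.of_forall TT_le)

theorem LL_zero : LL 0 = 0 := by
  have h := LL_neg 0
  rw [neg_zero] at h
  have h2 : (2 : ℂ) * LL 0 = 0 := by linear_combination h
  rcases mul_eq_zero.1 h2 with h3 | h3
  · exact absurd h3 two_ne_zero
  · exact h3

theorem LL_eq (x : ℝ) : LL x = ∫ u in (0 : ℝ)..x, TT u := by
  have h := intervalIntegral.integral_eq_sub_of_hasDerivAt (a := 0) (b := x) (f := LL) (f' := fun u : ℝ => TT u)
    (fun u _ => LL_hasDerivAt u) (TT_cont.intervalIntegrable _ _)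
  rw [h, LL_zero, sub_zero]

theorem LL_cont : Continuous LL := continuous_iff_continuousAt.2 fun x => (LL_hasDerivAt x).continuousAt

theorem LL_bdd (x : ℝ) : ‖LL x‖ ≤ ∫ u : ℝ, ‖TT u‖ := by
  rw [LL_eq]
  refine intervalIntegral.norm_integral_le_integral_norm_uIoc.trans ?_
  exact setIntegral_le_integral TT_int.norm (Eventually.of_forall fun _ => norm_nonneg _)

theorem LL_top : Tendsto LL atTop (𝓝 (∫ u in Ioi (0 : ℝ), TT u)) := by
  have h := intervalIntegral_tendsto_integral_Ioi (a := (0 : ℝ)) (f := fun u : ℝ => TT u) (μ := volume)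
    TT_int.integrableOn (tendsto_id (α := ℝ) (x := atTop))
  refine h.congr fun x => ?_
  rw [LL_eq]
  rfl

theorem LL_bot : Tendsto LL atBot (𝓝 (-∫ u in Ioi (0 : ℝ), TT u)) := by
  have h := (LL_top.comp tendsto_neg_atBot_atTop).neg
  refine h.congr fun x => ?_
  simp only [Function.comp, LL_neg, neg_neg]

/-! ## 3. Bounds -/

theorem mF0_bd : ∃ M : ℝ, 0 < M ∧ ∀ w : ℂ, |w.im| ≤ 3 / 2 * l → ‖mF0 w‖ ≤ M := by
  have hpi := Real.pi_pos
  have hl := l_pos
  have h8 := lt_half_pi
  have ha : 3 * l < Real.pi / 2 := by linarith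
  have hc : 0 < Real.cos (3 * l) := Real.cos_pos_of_mem_Ioo ⟨by linarith, ha⟩
  have hnc : ‖(8 * I / (3 * Real.pi) : ℂ)‖ ≤ 1 := by
    rw [norm_div, norm_mul, norm_mul, Complex.norm_I, Complex.norm_real, Real.norm_eq_abs,
      abs_of_pos hpi, Complex.norm_ofNat, Complex.norm_ofNat, div_le_one (by positivity)]
    have := Real.pi_gt_three
    linarith
  have hnear : ∀ w : ℂ, 4 / Real.cos (3 * l) * Real.exp (-2 * |4 / 3 * w.re|) ≤ 4 / Real.cos (3 * l) := by
    intro w
    refine mul_le_of_le_one_right (by positivity) (Real.exp_le_one_iff.2 ?_)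
    have := abs_nonneg (4 / 3 * w.re)
    linarith
  refine ⟨4 / Real.cos (3 * l) + 1, by positivity, fun w hw => ?_⟩
  obtain ⟨n1, n2⟩ := mF0_near hw
  have hn := hnear w
  rcases le_total 0 w.re with hr | hr
  · have h1 := n1 hr
    have h2 : ‖mF0 w‖ ≤ ‖mF0 w - 8 * I / (3 * Real.pi)‖ + ‖(8 * I / (3 * Real.pi) : ℂ)‖ := by
      have := norm_add_le (mF0 w - 8 * I / (3 * Real.pi)) (8 * I / (3 * Real.pi))
      rwa [sub_add_cancel] at this
    linarith
  · have h1 := n2 hr
    have h2 : ‖mF0 w‖ ≤ ‖mF0 w - -(8 * I / (3 * Real.pi))‖ + ‖(8 * I / (3 * Real.pi) : ℂ)‖ := by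
      have := norm_add_le (mF0 w - -(8 * I / (3 * Real.pi))) (-(8 * I / (3 * Real.pi)))
      rwa [sub_add_cancel, norm_neg] at this
    linarith

theorem dleg_bd : ∃ N : ℝ, 0 < N ∧ ∀ w : ℂ, 0 ≤ w.im → w.im ≤ 3 / 2 * l →
    ‖dleg w‖ ≤ N * Real.exp (-2 * |w.re|) := by
  have hl := l_pos
  have h8 := lt_half_pi
  have ha : 3 / 2 * l < Real.pi / 2 := by linarith
  have hb : 3 * l < Real.pi / 2 := by linarith
  have hc : 0 < Real.cos (3 * l) := Real.cos_pos_of_mem_Ioo ⟨by linarith, hb⟩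
  have hc' := cos_b_pos
  refine ⟨2 / Real.cos (3 / 2 * l) + 2 / Real.cos (3 * l), by positivity, fun w h1 h2 => ?_⟩
  have i2 : (w - (3 * l : ℝ) * I : ℂ).im = w.im - 3 * l := by simp
  have r2 : (w - (3 * l : ℝ) * I : ℂ).re = w.re := by simp
  rw [dleg_eq]
  exact tanh_sub_tanh ha (by rw [abs_of_nonneg h1]; exact h2) hb
    (by rw [i2, abs_le]; constructor <;> linarith) r2.symm

/-- values at infinity on the real line -/
theorem mF0_lim : Tendsto (fun t : ℝ => mF0 t) atTop (𝓝 (8 * I / (3 * Real.pi))) ∧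
    Tendsto (fun t : ℝ => mF0 t) atBot (𝓝 (-(8 * I / (3 * Real.pi)))) := by
  have hl := l_pos
  have lim0 : ∀ F : Filter ℝ, Tendsto (fun t : ℝ => |t|) F atTop →
      Tendsto (fun t : ℝ => 4 / Real.cos (3 * l) * Real.exp (-2 * |4 / 3 * t|)) F (𝓝 0) := by
    intro F hF
    have h1 : Tendsto (fun t : ℝ => -2 * |4 / 3 * t|) F atBot := by
      have e : (fun t : ℝ => -2 * |4 / 3 * t|) = fun t => -(8 / 3) * |t| := by
        funext t
        rw [abs_mul, abs_of_pos (by norm_num : (0 : ℝ) < 4 / 3)]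
        ring
      rw [e]
      exact hF.const_mul_atTop_of_neg (by norm_num)
    have h2 := (Real.tendsto_exp_atBot.comp h1).const_mul (4 / Real.cos (3 * l))
    simpa using h2
  have im0 : ∀ t : ℝ, |((t : ℂ)).im| ≤ 3 / 2 * l := by
    intro t
    rw [Complex.ofReal_im, abs_zero]
    positivity
  constructor
  · rw [tendsto_iff_norm_sub_tendsto_zero]
    refine squeeze_zero' (Eventually.of_forall fun _ => norm_nonneg _) ?_ (lim0 atTop tendsto_abs_atTop_atTop)
    filter_upwards [eventually_ge_atTop 0] with t ht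
    have := (mF0_near (im0 t)).1 (by rw [Complex.ofReal_re]; exact ht)
    rwa [Complex.ofReal_re] at this
  · rw [tendsto_iff_norm_sub_tendsto_zero]
    refine squeeze_zero' (Eventually.of_forall fun _ => norm_nonneg _) ?_ (lim0 atBot tendsto_abs_atBot_atTop)
    filter_upwards [eventually_le_atBot 0] with t ht
    have := (mF0_near (im0 t)).2 (by rw [Complex.ofReal_re]; exact ht)
    rwa [Complex.ofReal_re] at this

theorem mF0_real (t : ℝ) : HasDerivAt (fun t : ℝ => mF0 t) (mF0' t) t := by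
  have hl := l_pos
  exact (mF0_hasDerivAt (z := (t : ℂ)) (by rw [Complex.ofReal_im, abs_zero]; positivity)).comp_ofReal

theorem mF0'_real_cont : Continuous fun t : ℝ => mF0' t := by
  have hl := l_pos
  rw [continuous_iff_continuousAt]
  intro t
  have h1 : ContinuousAt mF0' ((t : ℂ)) := (mF0'_diff (by rw [Complex.ofReal_im, abs_zero]; positivity)).continuousAt
  exact ContinuousAt.comp (f := fun t : ℝ => (t : ℂ)) h1 Complex.continuous_ofReal.continuousAt

theorem mF0'_real_int : Integrable fun t : ℝ => mF0' t := by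
  have hl := l_pos
  obtain ⟨C, hC0, hC⟩ := mF0'_le (β := 0) (by positivity)
  refine ((int_exp_abs (b := 8 / 3) (by norm_num)).const_mul C).mono' mF0'_real_cont.aestronglyMeasurable
    (Eventually.of_forall fun t => ?_)
  have := hC (t : ℂ) (by rw [Complex.ofReal_im, abs_zero])
  rwa [Complex.ofReal_re] at this

/-! ## 4. The mass -/

/-- **shift of the line** -/
theorem leg_shift (τ : ℝ) : Integrable (fun t : ℝ => dleg (t - τ) * mF0 (t - 3 / 2 * l * I)) ∧
    Integrable (fun t : ℝ => TT (t - τ) * mF0 t) ∧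
    ∫ t : ℝ, dleg (t - τ) * mF0 (t - 3 / 2 * l * I) = ∫ t : ℝ, TT (t - τ) * mF0 t := by
  have hl := l_pos
  obtain ⟨M, hM, hm⟩ := mF0_bd
  obtain ⟨N, hN, hd⟩ := dleg_bd
  set Φ : ℂ → ℂ := fun z => dleg (z - τ) * mF0 (z - 3 / 2 * l * I) with hΦ
  have i1 : ∀ z : ℂ, (z - τ : ℂ).im = z.im := by intro z; simp
  have r1 : ∀ z : ℂ, (z - τ : ℂ).re = z.re - τ := by intro z; simp
  have e2 : ∀ z : ℂ, (z - 3 / 2 * l * I : ℂ) = z - ((3 / 2 * l : ℝ) : ℂ) * I := by intro z; push_cast; ring
  have i2 : ∀ z : ℂ, (z - 3 / 2 * l * I : ℂ).im = z.im - 3 / 2 * l := by intro z; rw [e2]; simp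
  have hdiff : ∀ z : ℂ, 0 ≤ z.im → z.im ≤ 3 / 2 * l → DifferentiableAt ℂ Φ z := by
    intro z h1 h2
    have g1 : DifferentiableAt ℂ (fun z : ℂ => dleg (z - τ)) z :=
      DifferentiableAt.comp (f := fun z : ℂ => z - (τ : ℂ)) z
        (dleg_hasDerivAt (z := z - τ) (by rw [i1]; linarith) (by rw [i1]; linarith)).differentiableAt
        (by fun_prop)
    have g2 : DifferentiableAt ℂ (fun z : ℂ => mF0 (z - 3 / 2 * l * I)) z :=
      DifferentiableAt.comp (f := fun z : ℂ => z - 3 / 2 * l * I) z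
        (mF0_hasDerivAt (z := z - 3 / 2 * l * I) (by rw [i2, abs_lt]; constructor <;> linarith)).differentiableAt
        (by fun_prop)
    exact g1.mul g2
  have h := NUMF.hshift (Φ := Φ) (θ := 3 / 2 * l) (C := N * Real.exp (2 * |τ|) * M) (κ := 2) (by positivity)
    (by norm_num) (fun z hz => (hdiff z hz.1 hz.2).continuousAt.continuousWithinAt)
    (fun z h1 h2 => hdiff z h1.le h2.le) (by
      intro z h1 h2 _
      rw [hΦ]
      simp only
      rw [norm_mul]
      have a1 := hd (z - τ) (by rw [i1]; exact h1) (by rw [i1]; exact h2)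
      have a2 := hm (z - 3 / 2 * l * I) (by rw [i2, abs_le]; constructor <;> linarith)
      rw [r1] at a1
      have a3 : Real.exp (-2 * |z.re - τ|) ≤ Real.exp (2 * |τ|) * Real.exp (-2 * |z.re|) := by
        rw [← Real.exp_add]
        refine Real.exp_le_exp.2 ?_
        have : |z.re| ≤ |z.re - τ| + |τ| := by
          have := abs_add_le (z.re - τ) τ
          rwa [sub_add_cancel] at this
        linarith
      calc ‖dleg (z - τ)‖ * ‖mF0 (z - 3 / 2 * l * I)‖ ≤
            (N * (Real.exp (2 * |τ|) * Real.exp (-2 * |z.re|))) * M :=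
            mul_le_mul (a1.trans (mul_le_mul_of_nonneg_left a3 hN.le)) a2 (norm_nonneg _) (by positivity)
        _ = _ := by ring)
  have e : ∀ t : ℝ, Φ (t + ((3 / 2 * l : ℝ) : ℂ) * I) = TT (t - τ) * mF0 t := by
    intro t
    rw [hΦ]
    simp only
    have e3 : dleg (t + ((3 / 2 * l : ℝ) : ℂ) * I - τ) = TT (t - τ) := by
      rw [dleg_eq]
      unfold TT
      congr 2
      · push_cast; ring
      · push_cast; ring
    rw [e3]
    congr 2
    push_cast
    ring
  simp only [e] at h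
  exact h

/-- integration by parts -/
theorem TT_parts (τ : ℝ) : ∫ t : ℝ, TT (t - τ) * mF0 t = -∫ t : ℝ, LL (t - τ) * mF0' t := by
  obtain ⟨-, i1, -⟩ := leg_shift τ
  have i2 : Integrable fun t : ℝ => LL (t - τ) * mF0' t :=
    mF0'_real_int.bdd_mul (c := ∫ u : ℝ, ‖TT u‖) (LL_cont.comp (continuous_id.sub continuous_const)).aestronglyMeasurable
      (Eventually.of_forall fun t => LL_bdd _)
  have hd : ∀ t : ℝ, HasDerivAt (fun t : ℝ => LL (t - τ) * mF0 t) (TT (t - τ) * mF0 t + LL (t - τ) * mF0' t) t := by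
    intro t
    have h1 : HasDerivAt (fun t : ℝ => LL (t - τ)) (TT (t - τ)) t := by
      have h2 := (LL_hasDerivAt (t - τ)).scomp t ((hasDerivAt_id t).sub_const τ)
      rw [one_smul] at h2
      push_cast at h2
      exact h2
    exact h1.mul (mF0_real t)
  obtain ⟨l1, l2⟩ := mF0_lim
  have t1 : Tendsto (fun t : ℝ => LL (t - τ)) atTop (𝓝 (∫ u in Ioi (0 : ℝ), TT u)) :=
    LL_top.comp (tendsto_atTop_add_const_right atTop (-τ) tendsto_id)
  have t2 : Tendsto (fun t : ℝ => LL (t - τ)) atBot (𝓝 (-∫ u in Ioi (0 : ℝ), TT u)) :=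
    LL_bot.comp (tendsto_atBot_add_const_right atBot (-τ) tendsto_id)
  have hp := integral_of_hasDerivAt_of_tendsto hd (i1.add i2) (t2.mul l2) (t1.mul l1)
  rw [integral_add i1 i2] at hp
  linear_combination hp

/-- the inner integral -/
theorem LL_Rk (s τ : ℝ) : ∫ t : ℝ, LL (t - τ) * Rk (t - s) = -2 * Complex.tanh (s - τ) := by
  have hpi := Real.pi_pos
  have hl := l_pos
  have h8 := lt_half_pi
  have hb : 3 / 2 * l < Real.pi / 2 := by linarith
  set f : ℂ → ℂ := fun w => F (w + (s - τ)) / 2 with hf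
  have im1 : ∀ w : ℂ, (w + ((s : ℂ) - τ)).im = w.im := by intro w; simp
  have re1 : ∀ w : ℂ, (w + ((s : ℂ) - τ)).re = w.re + (s - τ) := by intro w; simp
  have hder : ∀ w : ℂ, |w.im| ≤ 3 / 2 * l → HasDerivAt f (Complex.tanh (w + (s - τ))) w := by
    intro w hw
    have k1 := (F_hasDerivAt (w := w + ((s : ℂ) - τ)) (by rw [im1]; linarith)).comp w
      ((hasDerivAt_id w).add_const ((s : ℂ) - τ))
    have k2 := k1.div_const 2
    have e : 2 * Complex.tanh (w + (s - τ)) * 1 / 2 = Complex.tanh (w + (s - τ)) := by ring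
    rw [e] at k2
    exact k2
  obtain ⟨B, hB⟩ : ∃ B : ℝ, B = 2 * |Real.log (Real.cos (3 / 2 * l))| + 2 * Real.pi + 1 := ⟨_, rfl⟩
  have hB0 : 0 ≤ B := by rw [hB]; positivity
  have rule := rule2 (f := f) (A := |s - τ| + B + 1) (y := 0) (by rw [abs_zero]; positivity)
    (by
      intro w h1 h2
      exact (hder w (by rw [abs_le]; constructor <;> linarith)).differentiableAt)
    (by
      intro w h1 h2
      have h4 := F_bound (b := 3 / 2 * l) (w := w + ((s : ℂ) - τ)) hb
        (by rw [im1, abs_le]; constructor <;> linarith)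
      rw [re1, ← hB] at h4
      rw [hf]
      simp only
      rw [norm_div, Complex.norm_ofNat]
      have h5 := abs_add_le w.re (s - τ)
      have h6 := Real.add_one_le_exp |w.re|
      have h7 := abs_nonneg (s - τ)
      have h8 := abs_nonneg w.re
      nlinarith)
  have df : deriv f 0 = Complex.tanh (s - τ) := by
    have h4 := (hder 0 (by rw [Complex.zero_im, abs_zero]; positivity)).deriv
    rwa [zero_add] at h4
  rw [df] at rule
  have e1 : ∀ x : ℝ, S2 (8 / 3 * (x - (0 : ℝ) * I)) * (f (x + (3 / 2 * l - 0 : ℝ) * I) -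
      f (x - (3 / 2 * l + 0 : ℝ) * I)) = S2 (8 / 3 * x) * LL (x + s - τ) := by
    intro x
    rw [hf]
    unfold LL
    simp only
    have a0 : (8 / 3 * ((x : ℂ) - (0 : ℝ) * I)) = 8 / 3 * x := by push_cast; ring
    have a1 : (x : ℂ) + (3 / 2 * l - 0 : ℝ) * I + (s - τ) = ((x + s - τ : ℝ) : ℂ) + (3 / 2 * l : ℝ) * I := by
      push_cast; ring
    have a2 : (x : ℂ) - (3 / 2 * l + 0 : ℝ) * I + (s - τ) = ((x + s - τ : ℝ) : ℂ) - (3 / 2 * l : ℝ) * I := by
      push_cast; ring
    rw [a0, a1, a2]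
    ring
  simp only [e1] at rule
  have e2 : ∫ t : ℝ, LL (t - τ) * Rk (t - s) = ∫ x : ℝ, 64 * I / (9 * Real.pi) * (S2 (8 / 3 * x) * LL (x + s - τ)) := by
    rw [← integral_add_right_eq_self (fun t : ℝ => LL (t - τ) * Rk (t - s)) s]
    refine integral_congr_ae (Eventually.of_forall fun x => ?_)
    simp only
    unfold Rk
    have a3 : (((x + s : ℝ) : ℂ) - s) = x := by push_cast; ring
    rw [a3]
    ring
  rw [e2, integral_const_mul, rule]
  have hpi' : (Real.pi : ℂ) ≠ 0 := by exact_mod_cast hpi.ne'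
  have e4 : 64 * I / (9 * (Real.pi : ℂ)) * (9 * Real.pi / 32 * I * Complex.tanh (s - τ)) =
      2 * I ^ 2 * Complex.tanh (s - τ) := by
    field_simp
    ring
  rw [e4, I_sq]
  ring

/-- Fubini -/
theorem LL_mF0' (τ : ℝ) : ∫ t : ℝ, LL (t - τ) * mF0' t = 2 * (PT τ : ℂ) := by
  have hl := l_pos
  have iP : Integrable fun s : ℝ => (P s : ℂ) := P_integrable.ofReal
  have iR : Integrable fun t : ℝ => Rk t := by
    have h := (S2_line_int (y := 0) (by rw [abs_zero]; positivity)).const_mul (64 * I / (9 * (Real.pi : ℂ)))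
    refine h.congr (Eventually.of_forall fun t => ?_)
    simp only
    unfold Rk
    congr 2
    push_cast
    ring
  have j : Integrable (fun p : ℝ × ℝ => LL (p.1 - τ) * ((P p.2 : ℂ) * Rk (p.1 - p.2 : ℝ)))
      (volume.prod volume) := by
    have h0 := MeasureTheory.Integrable.convolution_integrand (ContinuousLinearMap.mul ℝ ℂ) iP iR
    refine Integrable.bdd_mul (c := ∫ u : ℝ, ‖TT u‖) ?_ ?_ ?_
    · simpa using h0
    · exact (LL_cont.comp (continuous_fst.sub continuous_const)).aestronglyMeasurable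
    · exact Eventually.of_forall fun p => LL_bdd _
  have e1 : ∀ t : ℝ, LL (t - τ) * mF0' t = ∫ s : ℝ, LL (t - τ) * ((P s : ℂ) * Rk (t - s : ℝ)) := by
    intro t
    rw [integral_const_mul, ← mF_P (z := (t : ℂ)) (by rw [Complex.ofReal_im, abs_zero]; positivity)]
    congr 1
    refine integral_congr_ae (Eventually.of_forall fun s => ?_)
    simp only
    push_cast
    rfl
  simp only [e1]
  have hsw := integral_integral_swap (f := fun t s : ℝ => LL (t - τ) * ((P s : ℂ) * Rk (t - s : ℝ))) j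
  rw [hsw]
  have e2 : ∀ s : ℝ, ∫ t : ℝ, LL (t - τ) * ((P s : ℂ) * Rk (t - s : ℝ)) = ((2 * (P s * Real.tanh (τ - s)) : ℝ) : ℂ) := by
    intro s
    have h1 := LL_Rk s τ
    have h2 : ∫ t : ℝ, LL (t - τ) * ((P s : ℂ) * Rk (t - s : ℝ)) = (P s : ℂ) * ∫ t : ℝ, LL (t - τ) * Rk (t - s) := by
      rw [← integral_const_mul]
      refine integral_congr_ae (Eventually.of_forall fun t => ?_)
      simp only
      push_cast
      ring
    rw [h2, h1, show ((s : ℂ) - τ) = -((τ - s : ℝ) : ℂ) by push_cast; ring, Complex.tanh_neg,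
      ← Complex.ofReal_tanh]
    push_cast
    ring
  simp only [e2]
  rw [integral_complex_ofReal, integral_const_mul]
  unfold PT
  push_cast
  rfl

/-- **the mass of a leg in the mean field of the leg at `0`** -/
theorem leg_mass (τ : ℝ) : ∫ t : ℝ, dleg (t - τ) * mF0 (t - 3 / 2 * l * I) = -(2 * I * rr (I * τ)) := by
  rw [(leg_shift τ).2.2, TT_parts, LL_mF0', ← rr_PT]
  ring

/-! ## 5. The derivative of the mass -/

theorem dleg'_bd : ∃ B : ℝ, 0 < B ∧ ∀ u : ℝ, ‖dleg' u‖ ≤ B * Real.exp (-(|u| / 2)) := by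
  obtain ⟨B, hB, h⟩ := dleg_Lim
  refine ⟨B, hB, fun u => ?_⟩
  have := (h 0 (by simp)).1.b' u
  simpa using this

theorem dleg'_real_cont : Continuous fun u : ℝ => dleg' u := by
  have hl := l_pos
  rw [continuous_iff_continuousAt]
  intro t
  have h1 : ContinuousAt dleg' ((t : ℂ)) := (dleg'_diff (z := (t : ℂ)) (by rw [Complex.ofReal_im]; linarith)
    (by rw [Complex.ofReal_im]; positivity)).continuousAt
  exact ContinuousAt.comp (f := fun t : ℝ => (t : ℂ)) h1 Complex.continuous_ofReal.continuousAt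

theorem mF0_line_cont : Continuous fun t : ℝ => mF0 (t - 3 / 2 * l * I) := by
  obtain ⟨B, hB, h⟩ := mF_Lim
  have := (h 0 (by simp)).cont
  simpa using this

theorem leg_mass_hasDerivAt (τ : ℝ) :
    HasDerivAt (fun τ : ℝ => ∫ t : ℝ, dleg (t - τ) * mF0 (t - 3 / 2 * l * I))
      (-∫ t : ℝ, dleg' (t - τ) * mF0 (t - 3 / 2 * l * I)) τ := by
  have hl := l_pos
  obtain ⟨M, hM, hm⟩ := mF0_bd
  obtain ⟨B, hB, hb⟩ := dleg'_bd
  have hm' : ∀ t : ℝ, ‖mF0 (t - 3 / 2 * l * I)‖ ≤ M := by
    intro t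
    refine hm _ ?_
    have := abs_line t 0
    rw [Complex.ofReal_zero, sub_zero] at this
    exact this.le
  have ht : ∀ x : ℝ, ∀ t : ℝ, HasDerivAt (fun x : ℝ => dleg ((t : ℂ) - x)) (-dleg' ((t : ℂ) - x)) x := by
    intro x t
    have i1 : ((t : ℂ) - x).im = 0 := by simp
    have h := dleg_hasDerivAt (z := (t : ℂ) - x) (by rw [i1]; linarith) (by rw [i1]; linarith)
    have h1 : HasDerivAt (fun x : ℝ => (t : ℂ) - x) (-1) x := by
      simpa using ((hasDerivAt_id x).ofReal_comp).const_sub (t : ℂ)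
    have h2 := h.comp x h1
    rw [mul_neg_one] at h2
    exact h2
  have hexp : ∀ x ∈ Metric.ball τ 1, ∀ t : ℝ, ‖dleg' ((t : ℂ) - x)‖ ≤ B * Real.exp (1 / 2) * Real.exp (-(|t - τ| / 2)) := by
    intro x hx t
    have h1 := hb (t - x)
    push_cast at h1
    refine h1.trans ?_
    rw [mul_assoc, ← Real.exp_add]
    refine mul_le_mul_of_nonneg_left (Real.exp_le_exp.2 ?_) hB.le
    have h2 : |t - τ| ≤ |t - x| + |x - τ| := abs_sub_le t x τ
    rw [Metric.mem_ball, Real.dist_eq] at hx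
    linarith
  have key := hasDerivAt_integral_of_dominated_loc_of_deriv_le (μ := volume) (𝕜 := ℝ) (x₀ := τ)
    (s := Metric.ball τ 1) (F := fun x t : ℝ => dleg ((t : ℂ) - x) * mF0 (t - 3 / 2 * l * I))
    (F' := fun x t : ℝ => -dleg' ((t : ℂ) - x) * mF0 (t - 3 / 2 * l * I))
    (bound := fun t => B * Real.exp (1 / 2) * Real.exp (-(|t - τ| / 2)) * M) (Metric.ball_mem_nhds _ one_pos)
    (Eventually.of_forall fun x => (leg_shift x).1.aestronglyMeasurable) (leg_shift τ).1
    (by
      refine AEStronglyMeasurable.mul ?_ mF0_line_cont.aestronglyMeasurable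
      have h1 : Continuous fun t : ℝ => -dleg' ((t : ℂ) - τ) := by
        have h2 := (dleg'_real_cont.comp (continuous_id.sub (continuous_const (y := τ)))).neg
        have h3 : (fun t : ℝ => -dleg' ((t : ℂ) - τ)) = fun t : ℝ => -(fun u : ℝ => dleg' u) (id t - τ) := by
          funext t
          simp
        rw [h3]
        exact h2
      exact h1.aestronglyMeasurable)
    (Eventually.of_forall fun t x hx => by
      rw [norm_mul, norm_neg]
      exact mul_le_mul (hexp x hx t) (hm' t) (norm_nonneg _) (by positivity))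
    (by
      refine Integrable.mul_const ?_ M
      refine Integrable.const_mul ?_ _
      exact int_exp_half.comp_sub_right τ)
    (Eventually.of_forall fun t x _ => (ht x t).mul_const _)
  refine key.2.congr_deriv ?_
  rw [← integral_neg]
  refine integral_congr_ae (Eventually.of_forall fun t => ?_)
  simp only
  ring

/-- **derivative of the mass** -/
theorem rV_hasDerivAt (τ : ℝ) : HasDerivAt (fun t : ℝ => 2 * I * rr (I * t))
    (∫ t : ℝ, dleg' (t - τ) * mF0 (t - 3 / 2 * l * I)) τ := by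
  have h := (leg_mass_hasDerivAt τ).neg
  rw [neg_neg] at h
  have e : (fun t : ℝ => 2 * I * rr (I * t)) = fun τ : ℝ => -∫ t : ℝ, dleg (t - τ) * mF0 (t - 3 / 2 * l * I) := by
    funext x
    rw [leg_mass, neg_neg]
  rw [e]
  exact h

/-! ## 6. Mean data with limits `0` -/

/-- mean potential `D` and mean density `m`: `V * m = 2 D`, limits `0` -/
structure MeanDat0 (m m' D D' : ℝ → ℂ) (B : ℝ) : Prop where
  lim : Lim m m' B 0 0
  dD : ∀ t, HasDerivAt D (D' t) t
  eq : ∀ t, ∫ s, m s * (V (t - s) : ℂ) = 2 * D t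
  top : Tendsto D atTop (𝓝 0)
  bot : Tendsto D atBot (𝓝 0)

namespace MeanDat0

variable {m m' D D' x x' : ℝ → ℂ} {B : ℝ} {xp xm : ℂ}

lemma eq' (h : MeanDat0 m m' D D' B) (t : ℝ) : ∫ s, m' s * (V (t - s) : ℂ) = 2 * D' t := by
  have h1 := h.lim.conv_hasDerivAt t
  have h2 : HasDerivAt (fun t => ∫ s, m s * (V (t - s) : ℂ)) (2 * D' t) t := by
    have : (fun t => ∫ s, m s * (V (t - s) : ℂ)) = fun t => 2 * D t := funext h.eq
    rw [this]
    exact (h.dD t).const_mul 2
  exact h1.unique h2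

/-- **mean part of the value** -/
theorem value (h : MeanDat0 m m' D D' B) (hx : Lim x x' B xp xm) :
    Integrable (fun t => m t * x t * D' t) ∧
    (1 / 4) * (∫ t, m t * ∫ s, (x t - x s) * KC (t - s) * m s) + ∫ t, m t * x t * D' t = 0 := by
  have h1 := mv_quad hx h.lim
  have h2 := (mv_bil hx h.lim h.lim).1
  simp_rw [h.eq'] at h1 h2
  have e : ∀ t, x t * m t * (2 * D' t) = 2 * (m t * x t * D' t) := fun t => by ring
  simp_rw [e] at h1 h2
  have h3 : Integrable fun t => m t * x t * D' t := by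
    refine (h2.const_mul (1 / 2)).congr (Eventually.of_forall fun t => ?_)
    simp only
    ring
  refine ⟨h3, ?_⟩
  rw [integral_const_mul] at h1
  rw [h1]
  ring

/-- **linear part** -/
theorem value_lin (h : MeanDat0 m m' D D' B) (hx : Lim x x' B xp xm) (hB : 1 ≤ B) :
    Integrable (fun t => x t * D' t) ∧
    (∫ t, x t * D' t) + (1 / 2) * (∫ t, ∫ s, (x t - x s) * KC (t - s) * m s) = 0 := by
  have h1 := mv_lin hx h.lim hB
  have h2 := (mv_bil hx h.lim (Lim.const (1 : ℂ) (B := B) (by simpa using hB))).2.1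
  simp_rw [h.eq'] at h1 h2
  have e : ∀ t, x t * (2 * D' t) = 2 * (x t * D' t) := fun t => by ring
  have h3 : Integrable fun t => x t * D' t := by
    refine (h2.const_mul (1 / 2)).congr (Eventually.of_forall fun t => ?_)
    simp only
    ring
  refine ⟨h3, ?_⟩
  simp_rw [e] at h1
  rw [integral_const_mul] at h1
  rw [h1]
  ring

end MeanDat0

/-- difference of two limits -/
theorem lim_sub {f f' g g' : ℝ → ℂ} {B : ℝ} {p q p' q' : ℂ} (h : Lim f f' B p q) (h' : Lim g g' B p' q') :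
    Lim (fun t => f t - g t) (fun t => f' t - g' t) (2 * B) (p - p') (q - q') where
  d s := (h.d s).sub (h'.d s)
  c := h.c.sub h'.c
  b s := by
    have h1 := h.b s
    have h2 := h'.b s
    have := norm_sub_le (f s) (g s)
    linarith
  b' s := by
    have h1 := h.b' s
    have h2 := h'.b' s
    have := norm_sub_le (f' s) (g' s)
    linarith
  top := h.top.sub h'.top
  bot := h.bot.sub h'.bot

/-- **difference of two mean data** -/
theorem meanDat_sub {m m' D D' n n' E E' : ℝ → ℂ} {B : ℝ} {mp mm : ℂ} (h : MeanDat m m' D D' B mp mm)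
    (h' : MeanDat n n' E E' B mp mm) :
    MeanDat0 (fun t => m t - n t) (fun t => m' t - n' t) (fun t => D t - E t) (fun t => D' t - E' t) (2 * B) where
  lim := by
    have := lim_sub h.lim h'.lim
    rwa [sub_self, sub_self] at this
  dD t := (h.dD t).sub (h'.dD t)
  eq t := by
    have i1 := h.lim.conv_i t
    have i2 := h'.lim.conv_i t
    have e : ∀ s, (m s - n s) * (V (t - s) : ℂ) = m s * (V (t - s) : ℂ) - n s * (V (t - s) : ℂ) := fun s => by ring
    simp only [e]
    rw [integral_sub i1 i2, h.eq, h'.eq]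
    ring
  top := by
    have := h.top.sub h'.top
    rwa [sub_self] at this
  bot := by
    have := h.bot.sub h'.bot
    rwa [sub_self] at this

/-! ## 7. In terms of `PBEI` -/

open PBEI (h0T g2T mfL mfL' h0T_dleg h00_dleg meanDat)

/-- **the mean data of `D_τ - D_0`** -/
theorem mean0 : ∃ B : ℝ, 1 ≤ B ∧ ∀ τ : ℝ, |τ| ≤ 1 →
    MeanDat0 (fun u => mfL τ u - mfL 0 u) (fun u => mfL' τ u - mfL' 0 u) (fun u => Dleg τ u - Dleg 0 u)
      (fun u => rl (h0T τ) u - rl (h0T 0) u) B := by
  obtain ⟨B, hB, h⟩ := meanDat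
  exact ⟨2 * B, by linarith, fun τ hτ => meanDat_sub (h τ hτ) (h 0 (by simp))⟩

theorem g2T_dleg (τ t : ℝ) : g2T τ t = dleg' (t - τ) := by
  have hl := l_pos
  have i1 : ((t : ℂ) - τ).im = 0 := by simp
  have hev : h0T τ =ᶠ[𝓝 (t : ℂ)] fun z => dleg (z - τ) := by
    have ho : IsOpen {z : ℂ | -(2 / 5 * l) < z.im ∧ z.im < l} :=
      (isOpen_lt continuous_const Complex.continuous_im).inter (isOpen_lt Complex.continuous_im continuous_const)
    filter_upwards [ho.mem_nhds (⟨by rw [Complex.ofReal_im]; linarith, by rw [Complex.ofReal_im]; exact hl⟩ :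
      (t : ℂ) ∈ {z : ℂ | -(2 / 5 * l) < z.im ∧ z.im < l})] with z hz
    have i2 : (z - τ : ℂ).im = z.im := by simp
    show PBEI.h00 (z - τ) = _
    exact h00_dleg (by rw [i2]; exact hz.1.le) (by rw [i2]; exact hz.2.le)
  unfold PBEI.g2T
  rw [hev.deriv_eq]
  have h := (dleg_hasDerivAt (z := (t : ℂ) - τ) (by rw [i1]; linarith) (by rw [i1]; linarith)).comp (t : ℂ)
    ((hasDerivAt_id (t : ℂ)).sub_const (τ : ℂ))
  rw [mul_one] at h
  exact h.deriv

/-- **the mass of the leg `τ` in the mean field of the leg `0`** -/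
theorem mV_h0 (τ : ℝ) : mV (mfL 0) (h0T τ) = -(2 * I * rr (I * τ)) := by
  rw [← leg_mass]
  unfold mV
  refine integral_congr_ae (Eventually.of_forall fun t => ?_)
  simp only
  rw [h0T_dleg]
  unfold PBEI.mfL
  rw [Complex.ofReal_zero, sub_zero]

theorem mV_g2' (τ : ℝ) : mV (mfL 0) (g2T τ) = ∫ t : ℝ, dleg' (t - τ) * mF0 (t - 3 / 2 * l * I) := by
  unfold mV
  refine integral_congr_ae (Eventually.of_forall fun t => ?_)
  simp only
  rw [g2T_dleg]
  unfold PBEI.mfL
  rw [Complex.ofReal_zero, sub_zero]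

/-- **its derivative** -/
theorem mV_g2 (τ : ℝ) : HasDerivAt (fun t : ℝ => 2 * I * rr (I * t)) (mV (mfL 0) (g2T τ)) τ := by
  rw [mV_g2']
  exact rV_hasDerivAt τ

theorem mV_g2_deriv (τ : ℝ) : mV (mfL 0) (g2T τ) = deriv (fun t : ℝ => 2 * I * rr (I * t)) τ :=
  (mV_g2 τ).deriv.symm

/-- the mean functional of the difference -/
theorem mV_sub {τ : ℝ} (hτ : |τ| ≤ 1) {g : ℂ → ℂ} (hg : Integrable (rl g)) :
    mV (fun u => mfL τ u - mfL 0 u) g = mV (mfL τ) g - mV (mfL 0) g := by
  obtain ⟨B, hB, h⟩ := meanDat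
  have h1 := (h τ hτ).lim
  have h2 := (h 0 (by simp)).lim
  have i1 : Integrable fun t : ℝ => g (t : ℂ) * mfL τ t :=
    hg.mul_bdd (c := B) h1.cont.aestronglyMeasurable (Eventually.of_forall h1.b)
  have i2 : Integrable fun t : ℝ => g (t : ℂ) * mfL 0 t :=
    hg.mul_bdd (c := B) h2.cont.aestronglyMeasurable (Eventually.of_forall h2.b)
  unfold mV
  rw [← integral_sub i1 i2]
  refine integral_congr_ae (Eventually.of_forall fun t => ?_)
  simp only
  ring

theorem dleg_int (τ : ℝ) : Integrable (rl (h0T τ)) := by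
  obtain ⟨N, hN, h⟩ := dleg_bd
  have hl := l_pos
  have e : rl (h0T τ) = fun t : ℝ => dleg ((t - τ : ℝ) : ℂ) := by
    funext t
    have := h0T_dleg τ t
    push_cast
    exact this
  have hc : Continuous fun t : ℝ => dleg (t : ℂ) := by
    rw [continuous_iff_continuousAt]
    intro t
    have h1 : ContinuousAt dleg ((t : ℂ)) := (dleg_hasDerivAt (z := (t : ℂ)) (by rw [Complex.ofReal_im]; linarith)
      (by rw [Complex.ofReal_im]; positivity)).continuousAt
    exact ContinuousAt.comp (f := fun t : ℝ => (t : ℂ)) h1 Complex.continuous_ofReal.continuousAt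
  have i : Integrable fun t : ℝ => dleg (t : ℂ) := by
    refine ((int_exp_abs (b := 2) (by norm_num)).const_mul N).mono' hc.aestronglyMeasurable
      (Eventually.of_forall fun t => ?_)
    have := h (t : ℂ) (by rw [Complex.ofReal_im]) (by rw [Complex.ofReal_im]; positivity)
    rwa [Complex.ofReal_re] at this
  rw [e]
  exact i.comp_sub_right τ

/-- **the mass of the leg in the difference of the mean fields** -/
theorem mV_sub_h0 {τ : ℝ} (hτ : |τ| ≤ 1) : mV (fun u => mfL τ u - mfL 0 u) (h0T τ) = 2 * I * rr (I * τ) := by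
  have hi := dleg_int τ
  obtain ⟨B, hB, h⟩ := meanDat
  have h1 := h τ hτ
  have hc : Continuous (rl (h0T τ)) := by
    have e : rl (h0T τ) = fun t : ℝ => dleg (t - τ) := funext fun t => h0T_dleg τ t
    rw [e]
    exact continuous_iff_continuousAt.2 fun t => (dleg_rl_hasDerivAt τ t).continuousAt
  have h2 : mV (mfL τ) (h0T τ) = 0 := h1.self_zero hi hc
  rw [mV_sub hτ hi, h2, mV_h0]
  ring

end PV

end
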