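import Pool.Agent.PB.FNeq
import Pool.Agent.PB.UProps

/-!
# Plan V: legs at `z`, anti-legs at `z'` (helper96)

An anti-leg at `z'` is the split leg `(z' + 3 l, z' - 3 l)`: `1 / Lg z' z' = Lg (z' + 3 l) (z' - 3 l)` (helper29).

* `LV z z'`: factor of a quantum with legs at `z` and anti-legs at `z'`; `thV z z'` its modulus;
* `ZV β x ex ex0 z z'`: class functions (rows `x` in both groups, cutoff points `ex` (quanta), `ex0` (strings));
* `AV`, `PfV`: prefactors; `nv z z' x y`: the function at all rows (`|Re| ≤ l / 2`, also equal rows);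
* `xN mu z`: `z' = 0`, rows `mu` in both groups, all `|Re z| < 43 l / 10`; `fV N z`: rows `0^N`;
  `fVx N x z`: rows `x, 0^N` (`N + 1` rows);
* `famV`: the family (`PBU.Fam`), index `(x, z)`, bound `m ^ (3/4) exp (4 |Im z|)` (landed centred tent).
-/

set_option autoImplicit false

noncomputable section

open Complex

namespace PV

open NUP1 (l)
open PBX (Lg XX gP DZ)
open PBR (rh)
open Pool.Agent.PB (cn Lp Pf)

variable {m M : ℕ}

/-- factor of the legs at `z` and the anti-legs at `z'` on a quantum -/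
def LV (z z' u : ℂ) : ℂ := Lg z z u * Lg (z' + 3 * l) (z' - 3 * l) u

/-- its modulus -/
def thV (z z' u : ℂ) : ℝ := PBO.thZ z u * ‖Lg (z' + 3 * l) (z' - 3 * l) u‖

/-- class functions: rows `x`, cutoff points `x`, `ex` (quanta) and `x`, `ex0` (strings), legs at `z`,
anti-legs at `z'` -/
def ZV (β : ℝ) (x : Fin m → ℂ) (ex ex0 : List ℂ) (z z' : ℂ) :
    Bool → Option NUP1S.O3 → ℂ → ℂ := fun _ =>
  XX (NUP1.Leg.cc m) β x x (gP β ex) (gP (4 / 3) ex0) (LV z z')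
    (fun w => LV z z' w * LV z z' (w - l))

/-- the anti-legs and the rows of a group -/
def AV (z' : ℂ) (x : Fin m → ℂ) : ℂ := ∏ i, (rh (z' - x i) ^ 2 / Lp z' (x i))

/-- the prefactor -/
def PfV (z z' : ℂ) (x : Fin m → ℂ) (y : Fin M → ℂ) : ℂ :=
  rh (z - z') ^ 2 * (2 / 3 * rh 0 / sin l) * (AV z' x * AV z' y) * Pf z x y

/-- **the function, legs at `z`, anti-legs at `z'`, all rows** -/
def nv (z z' : ℂ) (x y : Fin m → ℂ) : ℂ :=
  PfV z z' x y * ∑ n ∈ Finset.range (2 * m + 1), DZ (cn m) (cn m) (LV z z') (LV z z') x y n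

/-- **rows `mu` in both groups, legs at `z`, anti-legs at `0`** -/
def xN (mu : Fin m → ℂ) (z : ℂ) : ℂ := if 0 ≤ z.re then nv z 0 mu mu else nv (-z) 0 (-mu) (-mu)

/-- `N` rows at `0` -/
def fV (N : ℕ) (z : ℂ) : ℂ := xN (fun _ : Fin N => (0 : ℂ)) z

/-- one row at `x`, `N` rows at `0` -/
def fVx (N : ℕ) (x z : ℂ) : ℂ := xN (Fin.cons x (fun _ : Fin N => (0 : ℂ)) : Fin (N + 1) → ℂ) z

/-- **the family of plan V**: index `(x, z)`, one row at `x`, `m - 1` rows at `0`, legs at `z`, anti-legs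
at `0` -/
def famV : PBU.Fam (ℂ × ℂ) where
  Z ep m i := ZV (4 / 3 * (1 - ep)) (PBL.mu1 (m - 1) i.1) [I, -I] [] i.2 0
  Pf m i := PfV i.2 0 (PBL.mu1 (m - 1) i.1) (PBL.mu1 (m - 1) i.1)
  top m := 2 * m
  ok m i := |i.1.re| ≤ l / 10 ∧ |i.1.im| ≤ 2 ∧ -(9 / 10 * l) ≤ i.2.re ∧
    i.2.re < 37 / 10 * l ∧ |i.2.im| ≤ 3 / 20 * Real.log m + 2
  bd m i := (m : ℝ) ^ (3 / 4 : ℝ) * Real.exp (4 * |i.2.im|)

/-- the unknown of plan V: `F_N`, rows `0^N`, no legs -/
def FN (N : ℕ) : ℂ := fV N 0 / rh 0 ^ 2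

end PV

end
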