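import Pool.Agent.PV.ZLegF
import Pool.Agent.PV.Defs
import Pool.Agent.PV.SpV

/-!
# Plan V, (Z) at the function with one anti-leg (helper61)

Rows `i s, 0, …, 0` (`j + 1` rows), legs at `i t`, anti-legs at `0`; the landed curve, `2 (j + 1)`
quanta.

* `ZV_Zm`: the legs split off; `PfV_eq`: the prefactor `R t * ccV j s t`, `R t = rh (i t) ^ 2`;
* `p0V = 2 i (rh' / rh) (i t)`, `p1V = p0V'`; `hasDerivAt_RV`, `hasDerivAt_p0V`;
* `legV : LegFam famV ..`; `fVx_FF`: the function on the imaginary axis;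
* **`zlegV`**: `F[V h0] + (i f' - p0 f)` and
  `F[V h0 V h0] + F[V g2] - (- f'' - 2 p0 i f' + (p0² - p1) f)` are at most `C j ^ c`, from
  `UB famV` and the analyticity of `f = fVx j (i s)` near the imaginary axis; `3 e1 + ε ≤ c`.
-/

set_option autoImplicit false
set_option linter.unusedSectionVars false
set_option linter.unusedVariables false

noncomputable section

open Complex MeasureTheory Finset Filter Topology
open scoped ENNReal

namespace PVLg

open NUO NUP1S NUP1S.AbC NUGC NUCR PBF PBFunc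
open PBI (Stt)
open NUMF (l P)
open PBU (Fam UB DN BC nu1)
open PBLg
open PBX (Lg XX gP DZ Rws)
open Pool.Agent.PB (Pf)
open PBR (rh)
open PBL (mu1)
open PV (LV ZV AV PfV nv xN fVx famV)

attribute [local instance] NUSea.seaP

/-! ### the class functions -/

/-- the factor of the anti-legs at `z'` -/
def aL (z' u : ℂ) : ℂ := Lg (z' + 3 * NUP1.l) (z' - 3 * NUP1.l) u

/-- class functions with the anti-legs only -/
def Z0V {m : ℕ} (β : ℝ) (x : Fin m → ℂ) (ex ex0 : List ℂ) (z' : ℂ) : Stt := fun _ =>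
  XX (NUP1.Leg.cc m) β x x (gP β ex) (gP (4 / 3) ex0) (aL z')
    (fun w => aL z' w * aL z' (w - NUP1.l))

theorem measurable_aL (z' : ℂ) : Measurable (aL z') := PBX.Lg_meas _ _

theorem measurable_Z0V {m : ℕ} (β : ℝ) (x : Fin m → ℂ) (ex ex0 : List ℂ) (z' : ℂ) (a : Bool)
    (k : Option O3) : Measurable (Z0V β x ex ex0 z' a k) :=
  PBX.measurable_XX (PBX.measurable_gP _ _) (PBX.measurable_gP _ _) (measurable_aL z')
    ((measurable_aL z').mul ((measurable_aL z').comp (measurable_id.sub_const _))) k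

/-- **the legs are a multiplicative insertion** -/
theorem ZV_Zm {m : ℕ} (β : ℝ) (x : Fin m → ℂ) (ex ex0 : List ℂ) (z z' : ℂ) :
    ZV β x ex ex0 z z' = Zm (Z0V β x ex ex0 z') (lgK z) := by
  rw [← lgF_eq]
  funext a k u
  rcases k with _ | k
  · show _ * PBX.ph _ _ _ _ * (Lg z z u * aL z' u) =
      _ * PBX.ph _ _ _ _ * aL z' u * Lg z z u
    ring
  · rcases k with _ | _ | _
    · show _ * PBX.ph _ _ _ _ * (Lg z z u * aL z' u) =
        _ * PBX.ph _ _ _ _ * aL z' u * Lg z z u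
      ring
    · show _ * _ * PBX.ph _ _ _ _ *
          (Lg z z u * aL z' u * (Lg z z (u - NUP1.l) * aL z' (u - NUP1.l))) =
        _ * _ * PBX.ph _ _ _ _ * (aL z' u * aL z' (u - NUP1.l)) *
          (Lg z z u * Lg z z (u - NUP1.l))
      ring
    · show PBX.TT _ _ _ _ _ _ _ _ *
          (Lg z z u * aL z' u * (Lg z z (u - NUP1.l) * aL z' (u - NUP1.l))) =
        PBX.TT _ _ _ _ _ _ _ _ * (aL z' u * aL z' (u - NUP1.l)) *
          (Lg z z u * Lg z z (u - NUP1.l))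
      ring

theorem LV_LgV (z z' : ℂ) : LV z z' = PVS.LgV z z' := funext fun u => (PVS.LgV_eq z z' u).symm

theorem ZV_ZV {m : ℕ} (β : ℝ) (x : Fin m → ℂ) (ex ex0 : List ℂ) (z z' : ℂ) :
    PVS.ZV β x ex ex0 z z' = ZV β x ex ex0 z z' := by
  unfold PVS.ZV PV.ZV
  rw [LV_LgV]

/-! ### the prefactor -/

/-- the factor `rh (i t) ^ 2` -/
def RV (t : ℝ) : ℂ := rh (I * t - 0) ^ 2

/-- `R' / R` -/
def p0V (t : ℝ) : ℂ := 2 * I * Pool.Agent.PB.rr (I * t)

/-- `(R' / R)'` -/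
def p1V : ℝ → ℂ := deriv p0V

/-- the rest of the prefactor -/
def ccV (j : ℕ) (s t : ℝ) : ℂ :=
  (2 / 3 * rh 0 / sin NUP1.l) * (AV 0 (mu1 j (I * s)) * AV 0 (mu1 j (I * s))) *
    Pf (I * t) (mu1 j (I * s)) (mu1 j (I * s))

theorem PfV_eq (j : ℕ) (s t : ℝ) :
    PfV (I * t) 0 (mu1 j (I * s)) (mu1 j (I * s)) = RV t * ccV j s t := by
  unfold PV.PfV RV ccV
  ring

theorem re_It (t : ℝ) : (I * (t : ℂ)).re = 0 := by simp

theorem RV_ne (t : ℝ) : RV t ≠ 0 := by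
  have hl := NUMF.l_pos
  unfold RV
  refine pow_ne_zero _ (rh_ne ?_)
  rw [sub_zero, re_It, abs_zero]
  positivity

theorem hasDerivAt_It (τ : ℝ) : HasDerivAt (fun τ : ℝ => I * (τ : ℂ)) I τ := by
  simpa using (Complex.ofRealCLM.hasDerivAt (x := τ)).const_mul I

theorem hasDerivAt_RV (τ : ℝ) : HasDerivAt RV (p0V τ * RV τ) τ := by
  have hl := NUMF.l_pos
  have hl1 : NUP1.l = l := rfl
  have h5 : |(I * (τ : ℂ)).re| < 5 * NUP1.l := by
    rw [re_It, abs_zero, hl1]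
    positivity
  have d1 := ((Pool.Agent.PB.rh_HLD h5).hasDerivAt.comp_of_eq τ (hasDerivAt_It τ) rfl).pow 2
  have e : RV = (rh ∘ fun τ : ℝ => I * (τ : ℂ)) ^ 2 := by
    funext t
    unfold RV
    simp
  rw [e]
  refine d1.congr_deriv ?_
  simp only [Function.comp, Pi.pow_apply]
  unfold p0V
  push_cast
  ring

theorem hasDerivAt_p0V (τ : ℝ) : HasDerivAt p0V (p1V τ) τ := by
  have hl := NUMF.l_pos
  have hl1 : NUP1.l = l := rfl
  have hS : IsOpen {w : ℂ | |w.re| < 5 * NUP1.l} :=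
    isOpen_lt (continuous_abs.comp Complex.continuous_re) continuous_const
  have hd : DifferentiableOn ℂ rh {w : ℂ | |w.re| < 5 * NUP1.l} := fun w hw =>
    (PBR.differentiableAt_rh (by
      have h1 : |w.re| < 5 * NUP1.l := hw
      have h2 := NUP1.Bd.l_pos
      linarith)).differentiableWithinAt
  have hd' := hd.deriv hS
  have hm : I * (τ : ℂ) ∈ {w : ℂ | |w.re| < 5 * NUP1.l} := by
    show |(I * (τ : ℂ)).re| < 5 * NUP1.l
    rw [re_It, abs_zero, hl1]
    positivity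
  have h0 : rh (I * (τ : ℂ)) ≠ 0 := rh_ne (by rw [re_It, abs_zero]; positivity)
  have d1 : DifferentiableAt ℂ Pool.Agent.PB.rr (I * (τ : ℂ)) := by
    unfold Pool.Agent.PB.rr
    exact (hd'.differentiableAt (hS.mem_nhds hm)).div (hd.differentiableAt (hS.mem_nhds hm)) h0
  have d2 : DifferentiableAt ℝ p0V τ :=
    ((d1.hasDerivAt.comp_of_eq τ (hasDerivAt_It τ) rfl).const_mul (2 * I)).differentiableAt
  exact d2.hasDerivAt

theorem AV_ne {m : ℕ} {X : Fin m → ℂ} (hX : ∀ i, (X i).re = 0) : AV 0 X ≠ 0 := by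
  have hl := NUMF.l_pos
  unfold PV.AV
  refine Finset.prod_ne_zero_iff.2 fun i _ => ?_
  have h0 : |((0 : ℂ) - X i).re| < 2 * l := by
    rw [sub_re, hX, Complex.zero_re, sub_zero, abs_zero]
    positivity
  exact div_ne_zero (pow_ne_zero _ (rh_ne h0)) (Lp_ne h0)

theorem mu1_re (j : ℕ) (s : ℝ) (i : Fin (j + 1)) : (mu1 j (I * s) i).re = 0 := by
  rw [mu1_hS]
  simp

theorem ccV_ne (j : ℕ) (s t : ℝ) : ccV j s t ≠ 0 := by
  have hl := NUMF.l_pos
  have hl1 : NUP1.l = l := rfl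
  have hA := AV_ne (X := mu1 j (I * s)) (mu1_re j s)
  unfold ccV
  refine mul_ne_zero (mul_ne_zero (div_ne_zero (mul_ne_zero (by norm_num) (rh_ne ?_)) ?_)
    (mul_ne_zero hA hA)) (Pf_ne (mu1_re j s) (re_It t))
  · rw [Complex.zero_re, abs_zero]
    positivity
  · rw [hl1]
    exact sin_strip (by simpa using hl) (by simp; linarith)

theorem hasDerivAt_ccV (j : ℕ) (s τ : ℝ) :
    HasDerivAt (ccV j s) (Mn (rhS (hS j s)) τ * ccV j s τ) τ := by
  have d := (Pf_Mn (X := mu1 j (I * s)) (h := hS j s) (mu1_hS j s) τ).const_mul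
    ((2 / 3 * rh 0 / sin NUP1.l) * (AV 0 (mu1 j (I * s)) * AV 0 (mu1 j (I * s))))
  refine d.congr_deriv ?_
  unfold ccV
  ring

/-! ### the family -/

/-- **the family with an anti-leg has split legs** -/
theorem legV (ep : ℝ) : LegFam famV ep (fun s t => ((I * s, I * t) : ℂ × ℂ))
    (fun j s => Z0V (4 / 3 * (1 - ep)) (mu1 j (I * s)) [I, -I] [] 0) RV ccV where
  top _ := rfl
  Z j s t := ZV_Zm _ _ _ _ _ _
  mZ j s a k := measurable_Z0V _ _ _ _ _ a k
  ok j s t hs ht := ok_L (m := j + 1) (by omega) hs ht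
  Pf j s t := PfV_eq j s t
  R0 := RV_ne
  c0 := ccV_ne
  cd := hasDerivAt_ccV

/-- **the function on the imaginary axis** -/
theorem fVx_FF {ep e1 J : ℝ} (hep : 0 < ep) (hep1 : ep ≤ 1 / 100) (he : 0 < e1)
    (he1 : e1 ≤ 1 / 100) (hJ : 0 ≤ J) : ∀ᶠ j : ℕ in atTop, ∀ s τ : ℝ,
    fVx j (I * s) (I * τ) = RV τ * (ccV j s τ * ∑ n ∈ range (2 * (j + 1) + 1),
      FF (Zm (Z0V (4 / 3 * (1 - ep)) (mu1 j (I * s)) [I, -I] [] 0) (lgK (I * τ)))
        (NUSea.O.par0 (j + 1)) n n (PBU.cr e1 J (j + 1)) (PBU.cr' e1 J (j + 1))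
        (fun _ _ _ _ _ => 1)) := by
  have hl := NUMF.l_pos
  have hl1 : NUP1.l = l := rfl
  obtain ⟨mc, -, Hcur⟩ := curZ_crs he he1 hJ hep
  filter_upwards [eventually_ge_atTop mc] with j h1 s τ
  have hRws : Rws (mu1 j (I * s)) := fun i => by
    rw [mu1_re, hl1, abs_zero]
    positivity
  have e0 : fVx j (I * s) (I * τ) = nv (I * τ) 0 (mu1 j (I * s)) (mu1 j (I * s)) := by
    unfold PV.fVx PV.xN
    rw [if_pos (by rw [re_It])]
    rfl
  rw [e0]
  unfold PV.nv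
  rw [PfV_eq, mul_assoc]
  congr 2
  refine Finset.sum_congr rfl fun n _ => ?_
  rw [← ZV_Zm, ← ZV_ZV, LV_LgV]
  refine PVS.DZ_ZV (P := NUSea.O.par0 (j + 1)) (PBX.ParC_par0 (j + 1)) (PBX.rad_low (j + 1)) hep
    hep1 (by linarith) (by linarith) hRws (ex := [I, -I]) (ex0 := []) ?_ (by simp) ?_ ?_ ?_
    (fun r _ => Eventually.of_forall fun O => Hcur (j + 1) (by omega) r O)
  · intro w hw
    rw [List.mem_cons, List.mem_singleton] at hw
    rcases hw with rfl | rfl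
    · rw [Complex.I_re, abs_zero, hl1]
      positivity
    · rw [Complex.neg_re, Complex.I_re, neg_zero, abs_zero, hl1]
      positivity
  · rw [re_It, hl1]
    linarith
  · rw [re_It, hl1]
    positivity
  · rw [Complex.zero_re, abs_zero, hl1]
    positivity

/-- **(Z)**: the derivatives in the height of the legs, one anti-leg; `3 e1 + ε ≤ c` -/
theorem zlegV_of {ep e1 J K ε c : ℝ} {p : ℕ} (hU : UB famV ep e1 J p K ε) (hp : 0 < p)
    (hK : 6 ≤ K) (hep : 0 < ep) (hep1 : ep ≤ 1 / 100) (he : 0 < e1) (he1 : e1 ≤ 1 / 100)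
    (hJ : 0 ≤ J) (hc : 3 * e1 + ε ≤ c) {S : Set ℂ} (hS' : IsOpen S)
    (hmem : ∀ τ : ℝ, I * (τ : ℂ) ∈ S)
    (hfd : ∀ (j : ℕ) (s : ℝ), |s| ≤ 1 → DifferentiableOn ℂ (fVx j (I * s)) S) :
    ∃ C : ℝ, 0 < C ∧ ∀ᶠ j : ℕ in atTop, ∀ s t : ℝ, |s| ≤ 1 → |t| ≤ 1 →
      ‖PBFunc.F (mN (2 * (j + 1))) (wF famV ep e1 J (fun s t => ((I * s, I * t) : ℂ × ℂ)) j s t)
          (Vp (rhS (hS j s)) (fun _ => PBU.cr e1 J (j + 1)) (PBEI.h0T t)) +
        (I * deriv (fun z => fVx j (I * s) z) (I * t) - p0V t * fVx j (I * s) (I * t))‖ ≤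
          C * (j : ℝ) ^ c ∧
      ‖PBFunc.F (mN (2 * (j + 1))) (wF famV ep e1 J (fun s t => ((I * s, I * t) : ℂ × ℂ)) j s t)
          (fun ω => Vp (rhS (hS j s)) (fun _ => PBU.cr e1 J (j + 1)) (PBEI.h0T t) ω *
            Vp (rhS (hS j s)) (fun _ => PBU.cr e1 J (j + 1)) (PBEI.h0T t) ω) +
        PBFunc.F (mN (2 * (j + 1)))
          (wF famV ep e1 J (fun s t => ((I * s, I * t) : ℂ × ℂ)) j s t)
          (Vp (rhS (hS j s)) (fun _ => PBU.cr e1 J (j + 1)) (PBEI.g2T t)) -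
        (-deriv (deriv fun z => fVx j (I * s) z) (I * t) -
          2 * p0V t * (I * deriv (fun z => fVx j (I * s) z) (I * t)) +
          (p0V t ^ 2 - p1V t) * fVx j (I * s) (I * t))‖ ≤ C * (j : ℝ) ^ c := by
  have hE := Real.exp_pos 4
  refine (legV ep).zleg hU hp hK hep he he1 hJ hasDerivAt_RV hasDerivAt_p0V
    (f := fun j s z => fVx j (I * s) z) hS' hmem hfd ?_ (b := 3 / 4) (B := Real.exp 4) hE.le ?_
    (by linarith)
  · filter_upwards [fVx_FF hep hep1 he he1 hJ] with j h s τ _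
    exact h s τ
  · intro j s t hs ht
    show ((j + 1 : ℕ) : ℝ) ^ (3 / 4 : ℝ) * Real.exp (4 * |(I * (t : ℂ)).im|) ≤ _
    rw [show (I * (t : ℂ)).im = t by simp, mul_comm]
    refine mul_le_mul_of_nonneg_right (Real.exp_le_exp.2 (by linarith)) (by positivity)

end PVLg

end
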