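import Pool.Agent.PV.LevFV
import Pool.Agent.PV.E2V
import Pool.Agent.PV.MeanV
import Pool.Agent.PV.ZLegV
import Pool.Agent.PV.FunIV

/-!
# Plan V: `(E_V)` of the dislocated function (helper91)

* `F_oneV`: the mass of the family is the function;
* `mainLV`, `HDV p`: the first Ward identity (helper89, helper5);
* `AnV`: analyticity in the legs near the imaginary axis;
* **`closeEV`**: `PV.EVP p` for `1 / 10 ≤ p ≤ 1` from the second Ward identities of both channels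
  (helper13, helper38), `HDV p` and `AnV`.
-/

set_option autoImplicit false
set_option linter.unusedSectionVars false

noncomputable section

open Complex MeasureTheory Filter Topology Set
open scoped ENNReal

namespace PVX

open NUO NUP1S NUP1S.Ab NUP1S.AbC NUGC PBF PBFunc PBU PBWP PBLX PVLX PV PVL
open NUP1 hiding Kd
open PBEI (rowS y1 y2 Apl Ami Bch)
open PBV (wm)

attribute [local instance] NUSea.seaP

/-- **the mass of the family is the function** -/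
theorem F_oneV {ep e1 J K ε : ℝ} {p : ℕ} (hU : UB famV ep e1 J p K ε) (hK : 1 ≤ K) (hep : 0 < ep)
    (hep1 : ep ≤ 1 / 100) (he : 0 < e1) (he1 : e1 ≤ 1 / 100) (hJ : 0 ≤ J) :
    ∀ᶠ j : ℕ in atTop, ∀ s ∈ Icc (0 : ℝ) 1, ∀ t ∈ Icc (0 : ℝ) 1,
      F (mN (2 * (j + 1))) (wSV ep e1 J j s t) (fun _ => 1) = fVx j (I * s) (I * t) := by
  obtain ⟨m0, H0⟩ := hU.mass hK
  filter_upwards [eventually_ge_atTop m0, PVLg.fVx_FF hep hep1 he he1 hJ] with j hj h s hs t ht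
  have hf : FS famV ep e1 J (j + 1) (I * (s : ℂ), I * (t : ℂ)) (fun _ => 1)
      (fun _ _ _ _ _ => ‖(1 : ℂ)‖ₑ) < ⊤ := by
    simp only [enorm_one]
    exact (H0 (j + 1) (by omega) _ (ok_famV j hs ht)).trans_lt ENNReal.ofReal_lt_top
  have e1' := FL_wF (mc_famV ep e1 J (j + 1) (I * (s : ℂ), I * (t : ℂ)))
    (Ψ := fun _ _ _ _ _ => 1) (fun _ _ _ => measurable_const) hf
  have e2 : PBU.FL famV ep e1 J (j + 1) (I * (s : ℂ), I * (t : ℂ)) (fun _ _ _ _ _ => 1) =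
      fVx j (I * s) (I * t) := by
    have eZ : famV.Z ep (j + 1) (I * (s : ℂ), I * (t : ℂ)) = _ := (PVLg.legV ep).Z j s t
    have eP : famV.Pf (j + 1) (I * (s : ℂ), I * (t : ℂ)) = _ := (PVLg.legV ep).Pf j s t
    have eT : famV.top (j + 1) = 2 * (j + 1) := rfl
    rw [h s t]
    unfold PBU.FL
    rw [eZ, eP, eT, ← Finset.mul_sum, mul_assoc]
  rw [← e2, e1']
  rfl

/-- the main term of the first Ward identity -/
def mainLV (ep e1 J : ℝ) (j : ℕ) (s t : ℝ) : ℂ :=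
  (∫ q, F (mN (2 * (j + 1))) (wSV ep e1 J j s t) (fun ω =>
      Vp (rh0 j s) (eC e1 J j) (Apl (rowS j s) 0 q) ω * Vp (rh0 j s) (eC e1 J j) (Bch q) ω) ∂wm) +
    ((∫ q, F (mN (2 * (j + 1))) (wSV ep e1 J j s t) (fun ω =>
        Vm (eC e1 J j) (Ami (rowS j s) 0 q) ω * Vm (eC e1 J j) (Bch q) ω) ∂wm) +
      2 * F (mN (2 * (j + 1))) (wSV ep e1 J j s t) (fun ω =>
        Vm (eC e1 J j) (PBEI.uF (rowS j s) 0) ω * SN (NUSea.O.par0 (j + 1)) (eC e1 J j) ω) -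
      ((PBV.rP j s : ℂ) - (PBV.rM j s : ℂ)) / 2 * F (mN (2 * (j + 1))) (wSV ep e1 J j s t)
        (fun ω => SN (NUSea.O.par0 (j + 1)) (eC e1 J j) ω *
          SN (NUSea.O.par0 (j + 1)) (eC e1 J j) ω)) +
    F (mN (2 * (j + 1))) (wSV ep e1 J j s t)
      (Vp (rh0 j s) (eC e1 J j) (fun z => PBEI.qF (rowS j s) 0 t z - PBEI.qF (rowS j s) 0 0 z))

/-- **the first Ward identity of plan V** -/
def HDV (p : ℝ) : Prop :=
  ∃ a0 : ℝ, 0 < a0 ∧ ∀ ep e1 J : ℝ, SmallP a0 ep e1 J → ∃ C : ℝ, 0 ≤ C ∧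
    ∀ᶠ j : ℕ in atTop, ∀ s ∈ Icc (0 : ℝ) 1, ∀ t ∈ Icc (0 : ℝ) 1, ∃ D : ℂ,
      HasDerivAt (fun s : ℝ => fVx j (I * s) (I * t)) D s ∧
      ‖((j + 1 : ℝ) : ℂ) * D - mainLV ep e1 J j s t‖ ≤ C * (j : ℝ) ^ p

/-- **analyticity in the legs near the imaginary axis** -/
def AnV : Prop :=
  ∃ S : Set ℂ, IsOpen S ∧ (∀ τ : ℝ, I * (τ : ℂ) ∈ S) ∧
    ∀ (j : ℕ) (s : ℝ), |s| ≤ 1 → DifferentiableOn ℂ (fVx j (I * s)) S

/-- **`(E_V)`** -/
theorem closeEV {p : ℝ} (hp : 1 / 10 ≤ p) (hp1 : p ≤ 1)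
    (hW1 : LevWV (WpSV (19 / 10) fun t u => PBEI.mfL t u - PBEI.mfL 0 u))
    (hW2 : LevWV (WmSV (19 / 10))) (hDV : HDV p) (hA : AnV) : PV.EVP p := by
  obtain ⟨a1, ha1, H1⟩ := levFV hW1 hW2
  obtain ⟨a2, ha2, H2⟩ := hDV
  obtain ⟨a3, ha3, H3⟩ := uxV 2 6 (1 / 100) (by norm_num)
  obtain ⟨S, hS, hmem, hfd⟩ := hA
  obtain ⟨a0, h0⟩ : ∃ a0 : ℝ, a0 = min (min a1 a2) (min a3 (1 / 10)) := ⟨_, rfl⟩
  have ha0 : 0 < a0 := by
    rw [h0]
    exact lt_min (lt_min ha1 ha2) (lt_min ha3 (by norm_num))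
  have e1' : a0 ≤ a1 := by rw [h0]; exact (min_le_left _ _).trans (min_le_left _ _)
  have e2' : a0 ≤ a2 := by rw [h0]; exact (min_le_left _ _).trans (min_le_right _ _)
  have e3' : a0 ≤ a3 := by rw [h0]; exact (min_le_right _ _).trans (min_le_left _ _)
  have e4' : a0 ≤ 1 / 10 := by rw [h0]; exact (min_le_right _ _).trans (min_le_right _ _)
  obtain ⟨J, hJ0, hJ⟩ : ∃ J : ℝ, 0 ≤ J ∧ Real.exp (-(2 * Real.pi * J)) ≤ a0 / 10 := by
    have h1 : Tendsto (fun J : ℝ => Real.exp (-(2 * Real.pi * J))) atTop (𝓝 0) := by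
      refine Real.tendsto_exp_atBot.comp ?_
      exact (tendsto_neg_atTop_atBot).comp (tendsto_id.const_mul_atTop (by positivity))
    have h2 := h1.eventually (Iic_mem_nhds (show (0 : ℝ) < a0 / 10 by positivity))
    obtain ⟨J, h3, h4⟩ := (h2.and (eventually_ge_atTop (0 : ℝ))).exists
    exact ⟨J, h4, h3⟩
  have hP : SmallP a0 (a0 / 10) (a0 / 10) J :=
    ⟨by positivity, by linarith, by positivity, by linarith, hJ0, by linarith⟩
  obtain ⟨K, th, dp, C1, hC1, hL, hs⟩ := H1 _ _ _ (hP.mono e1')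
  obtain ⟨C2, hC2, hD⟩ := H2 _ _ _ (hP.mono e2')
  have hU : UB famV (a0 / 10) (a0 / 10) J 2 6 (1 / 100) :=
    H3 _ _ _ hP.ep0 hP.e0 hP.J0 (hP.sm.trans e3')
  obtain ⟨C3, hC3, hZ⟩ := PVLg.zlegV_of hU (by norm_num) le_rfl hP.ep0 hP.ep1 hP.e0 hP.e1' hP.J0
    (c := p) (by have := hP.e1'; linarith) hS hmem hfd
  have h1' := F_oneV hU (by norm_num) hP.ep0 hP.ep1 hP.e0 hP.e1' hP.J0
  have er : ∀ (j : ℕ) (s : ℝ), PBLg.rhS (PBLg.hS j s) = rh0 j s := fun j s =>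
    (funext (PBLg.rhoR_hS j s)).symm
  refine PBEM.E2V_of (a' := 19 / 10) (C := C1 + C2 + C3) (by norm_num) (by norm_num)
    (Ω := fun j => CfN (2 * (j + 1))) (μ := fun j => mN (2 * (j + 1)))
    (w := fun j s t => wSV (a0 / 10) (a0 / 10) J j s t)
    (V := fun j s _ => Vp (rh0 j s) (eC (a0 / 10) J j))
    (Vm := fun j _ _ => Vm (eC (a0 / 10) J j))
    (S := fun j _ _ => SN (NUSea.O.par0 (j + 1)) (eC (a0 / 10) J j))
    (K := K) (th := th) (δp := dp) (δ0 := fun j => C2 * (j : ℝ) ^ p)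
    (δ1 := fun j => C3 * (j : ℝ) ^ p) (p0 := PVLg.p0V) (p1 := PVLg.p1V)
    (fun t _ => PV.mV_h0 t) (fun t _ => PV.mV_g2_deriv t) hL ?_ ?_ ?_ ?_
  · filter_upwards [hD] with j h s hs t ht
    obtain ⟨D, h1, h2⟩ := h s hs t ht
    exact ⟨D, h1, h2⟩
  · filter_upwards [h1'] with j h s hs t ht
    have e := h s hs t ht
    have e' : F (mN (2 * (j + 1))) (wSV (a0 / 10) (a0 / 10) J j s t) (fun _ => 1) -
        fVx j (I * s) (I * t) = 0 := sub_eq_zero.2 e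
    show ‖F (mN (2 * (j + 1))) (wSV (a0 / 10) (a0 / 10) J j s t) (fun _ => 1) -
        fVx j (I * s) (I * t)‖ ≤ _
    rw [e', norm_zero]
    positivity
  · filter_upwards [hZ] with j h s hs t ht
    have h1 := h s t (abs_le.2 ⟨by linarith [hs.1], hs.2⟩) (abs_le.2 ⟨by linarith [ht.1], ht.2⟩)
    rw [er] at h1
    exact h1
  · filter_upwards [eventually_ge_atTop 1] with j hj
    obtain ⟨h1, h2⟩ := hs p hp hp1 j hj
    have hx : (0 : ℝ) ≤ (j : ℝ) ^ p := by positivity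
    refine ⟨?_, ?_, ?_, ?_, ?_⟩
    · exact mul_le_mul_of_nonneg_right (by linarith) hx
    · exact h1.trans (mul_le_mul_of_nonneg_right (by linarith) hx)
    · exact h2.trans (mul_le_mul_of_nonneg_right (by linarith) hx)
    · exact mul_nonneg hC3.le hx
    · exact mul_le_mul_of_nonneg_right (by linarith) hx

end PVX

end
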