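import Pool.Agent.PB.LevX

/-!
# Level two data for a general family (helper91)

Any one body functions `Zf j s t`, prefactors `cf j s t`, the rows `rowS j s`, the landed curves and
parameters of objects; weight `wG Zf cf e1 J j s t`.

* `WpG`, `WmG`: the second Ward identities of both channels;
* **`levXG`**: `PBEM.LevD` for large `j`.
-/

set_option autoImplicit false
set_option linter.unusedSectionVars false

noncomputable section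

open Complex MeasureTheory Filter Topology Set
open scoped ENNReal

namespace PVLX

open NUO NUP1S NUP1S.Ab NUP1S.AbC NUGC PBF PBFunc PBU PBWP PBLX
open NUP1 hiding Kd
open PBEI (rowS y1 y2 Apl Ami Bch)
open PBE (TC mass WPl WMi)
open PBV (wm)

attribute [local instance] NUSea.seaP

/-- the weight of a family -/
abbrev wG (Zf : ℕ → ℝ → ℝ → Bool → Option O3 → ℂ → ℂ) (cf : ℕ → ℝ → ℝ → ℕ → ℂ) (e1 J : ℝ)
    (j : ℕ) (s t : ℝ) : CfN (2 * (j + 1)) → ℂ :=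
  wN (fun _ => Zf j s t) (pS j) (2 * (j + 1)) (eC e1 J j) (eC' e1 J j) (cf j s t)

theorem wG_eq (ep e1 J : ℝ) : wG (ZF ep) cF e1 J = wS ep e1 J := rfl

/-- the identities of neutral test functions, plus channel; weight `w`, legs `mf t` -/
def WpG (w : ∀ j : ℕ, ℝ → ℝ → CfN (2 * (j + 1)) → ℂ) (a : ℝ) (mf : ℝ → ℝ → ℂ) (K th dp : ℕ → ℝ)
    (e1 J : ℝ) : Prop :=
  ∀ᶠ j : ℕ in atTop, ∀ s ∈ Icc (0 : ℝ) 1, ∀ t ∈ Icc (0 : ℝ) 1, ∀ M g, TC y1 y2 a M g →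
    mass g = 0 → ∃ (D : (ℂ → ℂ) → CfN (2 * (j + 1)) → ℂ) (Q P : CfN (2 * (j + 1)) → ℂ),
      WPl y1 y2 a (mN (2 * (j + 1))) (w j s t) (K j) (th j) (dp j) M
        (fun h => evN fun n => Vy 0 (eC e1 J j n) (rhS j s) fun _ => h) g
        (Pool.Agent.PB.mV (mf t) g) (Pool.Agent.PB.CV g) D Q P

/-- the identities of the minus channel; weight `w` -/
def WmG (w : ∀ j : ℕ, ℝ → ℝ → CfN (2 * (j + 1)) → ℂ) (a : ℝ) (K th dp : ℕ → ℝ) (e1 J : ℝ) :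
    Prop :=
  ∀ᶠ j : ℕ in atTop, ∀ s ∈ Icc (0 : ℝ) 1, ∀ t ∈ Icc (0 : ℝ) 1,
    (∀ M g, TC y1 y2 a M g →
      ∃ (D : (ℂ → ℂ) → CfN (2 * (j + 1)) → ℂ) (Ds Q P : CfN (2 * (j + 1)) → ℂ),
      WMi y1 y2 a (mN (2 * (j + 1))) (w j s t) (K j) (th j) (dp j) M (Vm (eC e1 J j))
        (SN (NUSea.O.par0 (j + 1)) (eC e1 J j)) (Vm (eC e1 J j) g)
        (Pool.Agent.PB.CmV g) (Pool.Agent.PB.CsV PBEI.sg' g) D Ds Q P) ∧
    ∃ (C : (ℂ → ℂ) → ℂ) (D : (ℂ → ℂ) → CfN (2 * (j + 1)) → ℂ)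
      (Ds Q P : CfN (2 * (j + 1)) → ℂ),
      WMi y1 y2 a (mN (2 * (j + 1))) (w j s t) (K j) (th j) (dp j) 1 (Vm (eC e1 J j))
        (SN (NUSea.O.par0 (j + 1)) (eC e1 J j)) (SN (NUSea.O.par0 (j + 1)) (eC e1 J j)) C
        (Pool.Agent.PB.CssV PBEI.sg') D Ds Q P

theorem WpG_iff {ep e1 J a : ℝ} {mf : ℝ → ℝ → ℂ} {K th dp : ℕ → ℝ} :
    WpG (wS ep e1 J) a mf K th dp e1 J ↔ WpS a mf K th dp ep e1 J := Iff.rfl

theorem WmG_iff {ep e1 J a : ℝ} {K th dp : ℕ → ℝ} :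
    WmG (wS ep e1 J) a K th dp e1 J ↔ WmS a K th dp ep e1 J := Iff.rfl

/-- **the data of level two, general family**: `b'` is the half width of the strip, `K0`, `d0` the
sizes of the moments -/
theorem levXG {Zf : ℕ → ℝ → ℝ → Bool → Option O3 → ℂ → ℂ} {cf : ℕ → ℝ → ℝ → ℕ → ℂ}
    {e1 J a q A : ℝ} {Y₁ : ℝ} (hY : -(NUP1.l / 10) ≤ Y₁) (ha : 0 < a) {mf : ℝ → ℝ → ℂ}
    {K0 d0 th dp : ℕ → ℝ} (hA : KS ≤ A) (hK0 : ∀ j, 0 ≤ K0 j) (hth : ∀ j, 0 ≤ th j)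
    (hdp : ∀ j, 0 ≤ dp j)
    (hB : ∀ᶠ j : ℕ in atTop, ∀ s ∈ Icc (0 : ℝ) 1, ∀ t ∈ Icc (0 : ℝ) 1,
      Bas (2 * (j + 1)) (fun _ => Zf j s t) (NUSea.O.par0 (j + 1)) (eC e1 J j) (eC' e1 J j)
        (NUP1.l / 20) (9 / 100 * NUP1.l))
    (hM : ∀ᶠ j : ℕ in atTop, ∀ s ∈ Icc (0 : ℝ) 1, ∀ t ∈ Icc (0 : ℝ) 1,
      MBd (2 * (j + 1)) (fun _ => Zf j s t) (pS j) (eC e1 J j) (eC' e1 J j) (cf j s t)
        (rhS j s) Y₁ (9 / 100 * NUP1.l) (K0 j) q (d0 j))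
    (hwp : WpG (wG Zf cf e1 J) a mf (fun j => A * K0 j) th dp e1 J)
    (hwm : WmG (wG Zf cf e1 J) a (fun j => A * K0 j) th dp e1 J) :
    ∀ᶠ j : ℕ in atTop, ∀ s ∈ Icc (0 : ℝ) 1, ∀ t ∈ Icc (0 : ℝ) 1,
      PBEM.LevD y1 y2 a (mN (2 * (j + 1))) (wG Zf cf e1 J j s t) (Vp (rh0 j s) (eC e1 J j))
        (Vm (eC e1 J j)) (SN (NUSea.O.par0 (j + 1)) (eC e1 J j)) (A * K0 j) (th j) (dp j) (mf t)
        PBEI.sg' wm (Apl (rowS j s) 0) (Ami (rowS j s) 0) Bch := by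
  have hl := NUP1.Bd.l_pos
  have hlM : NUMF.l = NUP1.l := rfl
  filter_upwards [hM, hwp, hwm, hB] with j h1 h2 h3 h4 s hs t ht
  have hs1 : |s| ≤ 1 := abs_le.2 ⟨by linarith [hs.1], hs.2⟩
  obtain ⟨B, hB⟩ := rhS_bd j hs1
  obtain ⟨hm, hm'⟩ := h3 s hs t ht
  have e0 : rh0 j s = fun u : ℝ => rhS j s u := (rho0_eq j s).symm
  have e1' : (Vp (fun u : ℝ => rhS j s u) (eC e1 J j) : (ℂ → ℂ) → CfN (2 * (j + 1)) → ℂ) =
      fun h => evN fun n => Vy 0 (eC e1 J j n) (rhS j s) fun _ => h := funext fun h => Vp_evN _ _ _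
  have key := levD_of (h4 s hs t ht) (h1 s hs t ht) (y₁ := y1) (y₂ := y2) (a := a) (th := th j)
    (dp' := dp j) (K' := A * K0 j) (mf := mf t) (s' := PBEI.sg') (σ := wm)
    (ap := Apl (rowS j s) 0) (am := Ami (rowS j s) 0) (bc := Bch) (Bρ := B) ha PBEM.y1_neg
    PBEM.y2_pos (by unfold PBEI.y1; rw [hlM]; exact hY) (by unfold PBEI.y2; rw [hlM]; linarith)
    (by linarith) (by linarith) (by unfold PBEI.y1; rw [hlM]; linarith)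
    (by unfold PBEI.y2; rw [hlM]; linarith) (hK0 j)
    (mul_le_mul_of_nonneg_right hA (hK0 j)) (hth j) (hdp j)
    (rhS_meas j hs1).aestronglyMeasurable hB
    (by rw [e1']; exact h2 s hs t ht) hm hm' (PBEI.Apl_measurable _ _) (PBEI.Ami_measurable _ _)
    PBEI.Bch_measurable
  rw [e0]
  exact key

end PVLX

end
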