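import Pool.Agent.PV.LevHV
import Pool.Agent.PV.LevXG
import Pool.Agent.PV.UXVfin

/-!
# Plan V: the data of level two at the family, final form (helper91)

`LevWV Q`: the identities `Q K th dp` hold for large sizes.
* `WpG_V`, `WmG_V`: the general forms of `LevXG` at the weight of plan V;
* **`levFV`**: `PBEM.LevD` (rate `19/10`) at `famV` for large `j`, all `s`, `t` in `[0, 1]`, with the
  sizes `C j^e`, any `e ≥ 1/10`.
-/

set_option autoImplicit false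
set_option linter.unusedSectionVars false

noncomputable section

open Complex MeasureTheory Filter Topology Set
open scoped ENNReal

namespace PVX

open NUO NUP1S NUP1S.Ab NUP1S.AbC NUGC PBF PBFunc PBU PBWP PBLX PVLX PV PVL
open NUP1 hiding Kd
open PBEI (rowS y1 y2 Apl Ami Bch)
open PBV (wm)

attribute [local instance] NUSea.seaP

theorem WpG_V {ep e1 J a : ℝ} {mf : ℝ → ℝ → ℂ} {K th dp : ℕ → ℝ} :
    WpG (wSV ep e1 J) a mf K th dp e1 J ↔ WpSV a mf K th dp ep e1 J := Iff.rfl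

theorem WmG_V {ep e1 J a : ℝ} {K th dp : ℕ → ℝ} :
    WmG (wSV ep e1 J) a K th dp e1 J ↔ WmSV a K th dp ep e1 J := Iff.rfl

/-- the statement for large sizes -/
def LevWV (Q : (ℕ → ℝ) → (ℕ → ℝ) → (ℕ → ℝ) → ℝ → ℝ → ℝ → Prop) : Prop :=
  ∃ a0 : ℝ, 0 < a0 ∧ ∀ ep e1 J : ℝ, SmallP a0 ep e1 J → ∃ C : ℝ, 0 ≤ C ∧
    ∀ K th dp : ℕ → ℝ, (∀ j, C * KjV (1 / 100) j ≤ K j) →
      (∀ j : ℕ, C * ((j : ℝ) + 1) ^ (-(141 / 200 : ℝ)) ≤ th j) →
      (∀ j, C * djV (1 / 100) e1 (189 / 100) j ≤ dp j) → Q K th dp ep e1 J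

theorem pow_le_e {α e : ℝ} (h : α ≤ e) (he : 0 ≤ e) (he1 : e ≤ 1) {j : ℕ} (hj : 1 ≤ j) :
    ((j : ℝ) + 1) ^ α ≤ 2 * (j : ℝ) ^ e := by
  have h1 : (1 : ℝ) ≤ j := by exact_mod_cast hj
  calc ((j : ℝ) + 1) ^ α ≤ ((j : ℝ) + 1) ^ e :=
        Real.rpow_le_rpow_of_exponent_le (by linarith) h
    _ ≤ (2 * (j : ℝ)) ^ e := Real.rpow_le_rpow (by linarith) (by linarith) he
    _ = 2 ^ e * (j : ℝ) ^ e := Real.mul_rpow (by norm_num) (by linarith)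
    _ ≤ 2 * (j : ℝ) ^ e := by
        refine mul_le_mul_of_nonneg_right ?_ (by positivity)
        calc (2 : ℝ) ^ e ≤ 2 ^ (1 : ℝ) := Real.rpow_le_rpow_of_exponent_le (by norm_num) he1
          _ = 2 := Real.rpow_one 2

theorem sz_thV {A C e : ℝ} (hA : 0 ≤ A) (hC : 0 ≤ C) (he : 1 / 10 ≤ e) (he1 : e ≤ 1) {j : ℕ}
    (hj : 1 ≤ j) : 2 * (A * KjV (1 / 100) j) * (C * ((j : ℝ) + 1) ^ (-(141 / 200 : ℝ))) ≤
      (24 * A * Real.exp 4 * C) * (j : ℝ) ^ e := by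
  have hp : (0 : ℝ) < (j : ℝ) + 1 := by positivity
  have e0 : ((j : ℝ) + 1) ^ (1 / 100 : ℝ) * ((j : ℝ) + 1) ^ (3 / 4 : ℝ) *
      ((j : ℝ) + 1) ^ (-(141 / 200 : ℝ)) = ((j : ℝ) + 1) ^ (11 / 200 : ℝ) := by
    rw [← Real.rpow_add hp, ← Real.rpow_add hp]
    norm_num
  have e1 : 2 * (A * KjV (1 / 100) j) * (C * ((j : ℝ) + 1) ^ (-(141 / 200 : ℝ))) =
      (12 * A * Real.exp 4 * C) * ((j : ℝ) + 1) ^ (11 / 200 : ℝ) := by
    rw [← e0]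
    unfold KjV
    ring
  rw [e1]
  have h1 := pow_le_e (α := 11 / 200) (by linarith) (by linarith : 0 ≤ e) he1 hj
  calc (12 * A * Real.exp 4 * C) * ((j : ℝ) + 1) ^ (11 / 200 : ℝ) ≤
      (12 * A * Real.exp 4 * C) * (2 * (j : ℝ) ^ e) :=
        mul_le_mul_of_nonneg_left h1 (by positivity)
    _ = _ := by ring

theorem sz_dpV {e1 C e : ℝ} (he0 : e1 ≤ 1 / 100) (hC : 0 ≤ C) (he : 1 / 10 ≤ e)
    (he1 : e ≤ 1) {j : ℕ} (hj : 1 ≤ j) :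
    C * djV (1 / 100) e1 (189 / 100) j ≤ (6 * Real.exp 4 * C) * (j : ℝ) ^ e := by
  have hp : (0 : ℝ) < (j : ℝ) + 1 := by positivity
  obtain ⟨α, hα⟩ : ∃ α : ℝ, α = -(3 / 8 * (189 / 100) * (1 - 4 * e1)) + (1 / 100 + 3 / 4) :=
    ⟨_, rfl⟩
  have e0 : ((j : ℝ) + 1) ^ (-(3 / 8 * (189 / 100) * (1 - 4 * e1))) *
      (((j : ℝ) + 1) ^ (1 / 100 : ℝ) * ((j : ℝ) + 1) ^ (3 / 4 : ℝ)) = ((j : ℝ) + 1) ^ α := by
    rw [hα, ← Real.rpow_add hp, ← Real.rpow_add hp]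
  have e2 : C * djV (1 / 100) e1 (189 / 100) j = (3 * Real.exp 4 * C) * ((j : ℝ) + 1) ^ α := by
    rw [← e0]
    unfold djV
    ring
  rw [e2]
  have h1 := pow_le_e (α := α) (e := e) (by rw [hα]; linarith) (by linarith) he1 hj
  calc (3 * Real.exp 4 * C) * ((j : ℝ) + 1) ^ α ≤
      (3 * Real.exp 4 * C) * (2 * (j : ℝ) ^ e) :=
        mul_le_mul_of_nonneg_left h1 (by positivity)
    _ = _ := by ring

/-- **level two of plan V, final form** -/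
theorem levFV {mf : ℝ → ℝ → ℂ} (h1 : LevWV (WpSV (19 / 10) mf)) (h2 : LevWV (WmSV (19 / 10))) :
    ∃ a0 : ℝ, 0 < a0 ∧ ∀ ep e1 J : ℝ, SmallP a0 ep e1 J →
      ∃ (K th dp : ℕ → ℝ) (C : ℝ), 0 ≤ C ∧
        (∀ᶠ j : ℕ in atTop, ∀ s ∈ Icc (0 : ℝ) 1, ∀ t ∈ Icc (0 : ℝ) 1,
          PBEM.LevD y1 y2 (19 / 10) (mN (2 * (j + 1))) (wSV ep e1 J j s t)
            (Vp (rh0 j s) (eC e1 J j)) (Vm (eC e1 J j)) (SN (NUSea.O.par0 (j + 1)) (eC e1 J j))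
            (K j) (th j) (dp j) (mf t) PBEI.sg' wm (Apl (rowS j s) 0) (Ami (rowS j s) 0) Bch) ∧
        ∀ e : ℝ, 1 / 10 ≤ e → e ≤ 1 → ∀ j : ℕ, 1 ≤ j →
          2 * K j * th j ≤ C * (j : ℝ) ^ e ∧ dp j ≤ C * (j : ℝ) ^ e := by
  obtain ⟨a1, ha1, H1⟩ := h1
  obtain ⟨a2, ha2, H2⟩ := h2
  obtain ⟨a3, ha3, H3⟩ := mbdSV uxV (q := 189 / 100) (ε := 1 / 100) (by norm_num) (by norm_num)
    (by norm_num)
  refine ⟨min a1 (min a2 a3), lt_min ha1 (lt_min ha2 ha3), fun ep e1 J hp => ?_⟩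
  obtain ⟨C1, hC1, G1⟩ := H1 ep e1 J (hp.mono (min_le_left _ _))
  obtain ⟨C2, hC2, G2⟩ := H2 ep e1 J (hp.mono ((min_le_right _ _).trans (min_le_left _ _)))
  have hl := NUP1.Bd.l_pos
  have G3 := H3 ep e1 J (hp.mono ((min_le_right _ _).trans (min_le_right _ _))) (-(ep / 4))
    (9 / 100 * NUP1.l) (by linarith [hp.ep0]) (by positivity)
  obtain ⟨A, hA⟩ : ∃ A : ℝ, A = KS + C1 + C2 := ⟨_, rfl⟩
  have hKS := one_le_KS
  have hAK : KS ≤ A := by rw [hA]; linarith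
  have hA1 : C1 ≤ A := by rw [hA]; linarith
  have hA2 : C2 ≤ A := by rw [hA]; linarith
  have hA0 : 0 ≤ A := by linarith
  have hp0 : ∀ j : ℕ, (0 : ℝ) ≤ ((j : ℝ) + 1) ^ (-(141 / 200 : ℝ)) := fun j => by positivity
  have k1 := G1 (fun j => A * KjV (1 / 100) j) (fun j => A * ((j : ℝ) + 1) ^ (-(141 / 200 : ℝ)))
    (fun j => A * djV (1 / 100) e1 (189 / 100) j)
    (fun j => mul_le_mul_of_nonneg_right hA1 (KjV_pos _ j).le)
    (fun j => mul_le_mul_of_nonneg_right hA1 (hp0 j))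
    (fun j => mul_le_mul_of_nonneg_right hA1 (djV_pos _ _ _ j).le)
  have k2 := G2 (fun j => A * KjV (1 / 100) j) (fun j => A * ((j : ℝ) + 1) ^ (-(141 / 200 : ℝ)))
    (fun j => A * djV (1 / 100) e1 (189 / 100) j)
    (fun j => mul_le_mul_of_nonneg_right hA2 (KjV_pos _ j).le)
    (fun j => mul_le_mul_of_nonneg_right hA2 (hp0 j))
    (fun j => mul_le_mul_of_nonneg_right hA2 (djV_pos _ _ _ j).le)
  refine ⟨fun j => A * KjV (1 / 100) j, fun j => A * ((j : ℝ) + 1) ^ (-(141 / 200 : ℝ)),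
    fun j => A * djV (1 / 100) e1 (189 / 100) j, 24 * A * Real.exp 4 * A + 6 * Real.exp 4 * A,
    by positivity, ?_, fun e he he1 j hj => ⟨?_, ?_⟩⟩
  · exact levXV hp (by norm_num) hAK (fun j => mul_nonneg hA0 (hp0 j))
      (fun j => mul_nonneg hA0 (djV_pos _ _ _ j).le) G3 k1 k2
  · refine (sz_thV hA0 hA0 he he1 hj).trans (mul_le_mul_of_nonneg_right ?_ (by positivity))
    have : 0 ≤ 6 * Real.exp 4 * A := by positivity
    linarith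
  · refine (sz_dpV hp.e1' hA0 he he1 hj).trans (mul_le_mul_of_nonneg_right ?_ (by positivity))
    have : 0 ≤ 24 * A * Real.exp 4 * A := by positivity
    linarith

end PVX

end
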