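import Pool.Agent.PV.HQV
import Pool.Agent.PV.LevFV
import Pool.Agent.PB.LevN

/-!
# Plan V: level two at the family, minus channel

**`levNV`**: `PVX.WmSV` (the fields `wm`, `ws` of `PBEM.LevD` at the family `PV.famV`), for all
sizes `K ≥ C KjV`, `th ≥ C (j + 1)^(-141/200)`, `dp ≥ C djV`. Copy of `PBLX.levN`;
**`levWV_wm`**: the hypothesis `LevWV (WmSV (19 / 10))` of `PVX.levFV`.
-/

set_option autoImplicit false
set_option linter.unusedSectionVars false

noncomputable section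

open Complex MeasureTheory Filter Topology Set
open scoped ENNReal

namespace PVX

open NUO NUP1S NUP1S.Ab NUP1S.AbC NUGC PBF PBFunc PBU PBWP PBLX PV PVL
open PBEI (rowS h0T cL y1 y2)
open PBE (TC SeaL XS thX sg2 mass)

attribute [local instance] NUSea.seaP

/-- **level two at the family of plan V, minus channel** -/
theorem levNV : ∃ a0 : ℝ, 0 < a0 ∧ ∀ ep e1 J : ℝ, SmallP a0 ep e1 J → ∃ C : ℝ, 1 ≤ C ∧
    ∀ K th dp : ℕ → ℝ, (∀ j, C * KjV (1 / 100) j ≤ K j) →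
      (∀ j : ℕ, C * ((j : ℝ) + 1) ^ (-(141 / 200 : ℝ)) ≤ th j) →
      (∀ j, C * djV (1 / 100) e1 (189 / 100) j ≤ dp j) → WmSV (19 / 10) K th dp ep e1 J := by
  have hl := NUP1.Bd.l_pos
  have hl4 : 1 / 4 < NUP1.l := by
    unfold NUP1.l
    linarith [Real.pi_gt_three]
  have hb : bb < NUP1.l := by
    unfold bb
    linarith
  have e2 : NUMF.l = NUP1.l := rfl
  obtain ⟨c0, hc0, hc⟩ := seaL_rhS (b := bb) bb_pos.le hb
  obtain ⟨a1, ha1, H1⟩ := mbdSV uxV (q := 189 / 100) (ε := 1 / 100) (by norm_num) (by norm_num)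
    (by norm_num)
  obtain ⟨a2, ha2, H2⟩ := hQ_minusV (ε := 1 / 100) (by norm_num) (c0 := c0)
    (fun j s hs => (hc j s hs).1)
  refine ⟨min a1 a2, lt_min ha1 ha2, fun ep e1 J hp => ?_⟩
  have hep0 := hp.ep0
  have hep1 := hp.ep1
  obtain ⟨CQ, hCQ, hQ⟩ := H2 ep e1 J (hp.mono (min_le_right _ _))
  obtain ⟨C, hC, W⟩ := PBWM.wm_of (y₁ := y1) (y₂ := y2) (a := 19 / 10) (κ := 189 / 100)
    (κ₁ := 1 / 100) (κ₂ := 1 / 200) (b := bb) (b' := bb') (q := 189 / 100) (CQ := CQ)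
    (by norm_num) (by norm_num) (by norm_num) (by norm_num) (by norm_num) (by norm_num)
    (by norm_num) (by norm_num) bb'_pos bb'_lt
    (by unfold y1 bb; rw [e2]; linarith) (by unfold y2 bb; rw [e2]; linarith) hb (by norm_num)
    le_rfl hCQ
  have hm1 : (1 : ℝ) ≤ max 1 c0⁻¹ := le_max_left _ _
  have hCm : C ≤ C * max 1 c0⁻¹ := le_mul_of_one_le_right (by linarith) hm1
  refine ⟨C * max 1 c0⁻¹, hC.trans hCm, fun K th dp hK hth hdp => ?_⟩
  have hM := H1 ep e1 J (hp.mono (min_le_left _ _)) (-(ep / 4)) bb' (by linarith) bb'_pos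
  have hF := fib_SV hep0 hep1 hp.e0 hp.e1' hp.J0 (b1 := bb') (by unfold bb'; nlinarith)
    (by unfold bb'; linarith)
  filter_upwards [hM, hF, hQ] with j hMj hFj hQj s hs t ht
  have hs1 : |s| ≤ 1 := abs_le.2 ⟨by linarith [hs.1], hs.2⟩
  have hb25 : bb' ≤ 2 / 5 * NUP1.l := by
    unfold bb'
    linarith
  have hKj := KjV_pos (1 / 100) j
  have hdj := djV_pos (1 / 100) e1 (189 / 100) j
  exact W (hFj s hs t) le_rfl (hc j s hs1).1 (fun r O => PBOR.PO_par0 (j + 1) O)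
    (fun r O u y => LPo_line _ r O u y) (PBX.ParC_par0 (j + 1)).rm (h0V0_fam hb25 t).1
    (h0V0_fam hb25 t).2 (hl_fibV0 (hFj s hs t) rfl) (hQj s hs t ht) hKj.le hdj.le (hMj s hs t ht)
    (by unfold bb'; linarith) le_rfl (K j) (th j) (dp j)
    ((mul_le_mul_of_nonneg_right hCm hKj.le).trans (hK j))
    (by
      rw [thX_zero, ← mul_assoc]
      exact hth j)
    ((mul_le_mul_of_nonneg_right hCm hdj.le).trans (hdp j))

/-- **the minus channel**, the hypothesis of `levFV` -/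
theorem levWV_wm : LevWV (WmSV (19 / 10)) := by
  obtain ⟨a0, ha0, H⟩ := levNV
  refine ⟨a0, ha0, fun ep e1 J hp => ?_⟩
  obtain ⟨C, hC, h⟩ := H ep e1 J hp
  exact ⟨C, zero_le_one.trans hC, h⟩

end PVX

end
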