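import Pool.Agent.PV.HQV
import Pool.Agent.PV.LevFV
import Pool.Agent.PV.MeanV
import Pool.Agent.PB.WPlusG
import Pool.Agent.PB.LevP

/-!
# Plan V: level two, plus channel, at the family (legs at `i t`, anti-legs at `0`)

The copy of `PB/LevP`, `PB/LevPW`:
* `mB_V`: the mean field is `mfL t - mfL 0`;
* `levPV`; **`levW_wpV`**: the plus half of the hypotheses of `PVX.levFV`.
-/

set_option autoImplicit false
set_option linter.unusedSectionVars false

noncomputable section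

open Complex MeasureTheory Finset Filter Topology

namespace PVX

open NUCR hiding bb
open NUO NUP1 NUP1S NUP1S.Ab NUP1S.AbC NUGC PBFunc PBF PBE PBLX PBWP PV PVL
open PBEI (y1 y2 rowS h0T mfL cL)
open Pool.Agent.PB (mV CV)

attribute [local instance] NUSea.seaP

/-- the two legs are a test function -/
theorem h0V0_TC (t : ℝ) : TC y1 y2 (19 / 10)
    (cL * Real.exp (19 / 10 * |t|) + cL * Real.exp (19 / 10 * |(0 : ℝ)|)) (h0V0 t) := by
  have h1 := PBEI.h0_TC' (by norm_num : (0 : ℝ) ≤ 19 / 10) (by norm_num) t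
  have h2 := PBEI.h0_TC' (by norm_num : (0 : ℝ) ≤ 19 / 10) (by norm_num) 0
  refine ⟨h1.an.sub h2.an, fun z hz => ?_⟩
  unfold h0V0
  have h3 := h1.bd z hz
  have h4 := h2.bd z hz
  refine (norm_sub_le _ _).trans ?_
  rw [add_mul]
  exact add_le_add h3 h4

/-- **the mean field** -/
theorem mB_V {b κ M' Mg : ℝ} {β g : ℂ → ℂ} (hβ : TC (-b) b κ M' β) (hb : 0 < b)
    (hκ : 1 / 2 ≤ κ) (hg : TC y1 y2 (19 / 10) Mg g)
    (he : ∀ t : ℝ, PB.rsp (fun _ => β) true t = g t) {t : ℝ} (ht : |t| ≤ 1) :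
    mB (fun _ => β) (fun _ => h0V0 t) = mV (fun u => mfL t u - mfL 0 u) g := by
  have hl := Bd.l_pos
  have hy1 : y1 < 0 := PBEM.y1_neg
  have hy2 : 0 < y2 := PBEM.y2_pos
  obtain ⟨B, -, hmd⟩ := PBEI.meanDat
  have h1 := Pool.Agent.PB.dictR_m (hmd t ht) hβ hκ hb
    (PBEI.h0_TC' (by norm_num : (0 : ℝ) ≤ 19 / 10) (by norm_num) t) (by norm_num) hy1 hy2 he
  have h2 := Pool.Agent.PB.dictR_m (hmd 0 (by simp)) hβ hκ hb
    (PBEI.h0_TC' (by norm_num : (0 : ℝ) ≤ 19 / 10) (by norm_num) 0) (by norm_num) hy1 hy2 he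
  have ig := Pool.Agent.PB.TC_int hg (by norm_num) hy1 hy2
  rw [PV.mV_sub ht ig, ← h1.2, ← h2.2, ← mul_sub, ← integral_sub h1.1 h2.1]
  unfold mB h0V0
  rw [Fintype.sum_bool, ← two_mul]
  congr 1
  refine integral_congr_ae (Eventually.of_forall fun u => ?_)
  simp only
  ring

/-- **level two, plus channel, at the family** -/
theorem levPV {ε : ℝ} (hε : 0 < ε) :
    ∃ a0 : ℝ, 0 < a0 ∧ ∀ ep e1 J : ℝ, SmallP a0 ep e1 J → ∃ C : ℝ, 0 ≤ C ∧
      ∀ᶠ j : ℕ in atTop, ∀ s ∈ Set.Icc (0 : ℝ) 1, ∀ t ∈ Set.Icc (0 : ℝ) 1,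
        ∀ (M : ℝ) (g : ℂ → ℂ), TC y1 y2 (19 / 10) M g → mass g = 0 →
          ∃ (D : (ℂ → ℂ) → CfN (2 * (j + 1)) → ℂ) (Q P : CfN (2 * (j + 1)) → ℂ),
            WPl y1 y2 (19 / 10) (mN (2 * (j + 1))) (wSV ep e1 J j s t) (KjV ε j)
              (C * ((j : ℝ) + 1) ^ (-(3 / 8 * (189 / 100 - 1 / 100) : ℝ)))
              (C * djV ε e1 (189 / 100) j) M
              (fun h => evN fun n => Vy 0 (eC e1 J j n) (rhS j s) fun _ => h) g
              (mV (fun u => mfL t u - mfL 0 u) g) (CV g) D Q P := by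
  have hl := Bd.l_pos
  have hlM : (NUMF.l : ℝ) = NUP1.l := rfl
  have hl1 : NUP1.l < 1 := by
    unfold NUP1.l
    linarith [Real.pi_lt_d2]
  have hl2 : 1 / 4 < NUP1.l := by
    unfold NUP1.l
    linarith [Real.pi_gt_three]
  have hy1 : y1 = -(NUP1.l / 10) := rfl
  have hy2 : y2 = 9 / 20 * NUP1.l := rfl
  obtain ⟨c0, hc0, hc⟩ := seaL_rhS (b := bb) bb_pos.le (by unfold bb; linarith)
  obtain ⟨a1, ha1, H1⟩ := hQ_plusV hε (c0 := c0) fun j s hs => (hc j s hs).1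
  obtain ⟨a2, ha2, H2⟩ := mbdSV uxV (q := 189 / 100) (by norm_num) (by norm_num) hε
  refine ⟨min a1 a2, lt_min ha1 ha2, fun ep e1 J hp => ?_⟩
  have hep0 := hp.ep0
  have hep1 := hp.ep1
  obtain ⟨CQ, hCQ, H3⟩ := H1 ep e1 J (hp.mono (min_le_left _ _))
  have hCP : 0 ≤ PBOR.CK (189 / 100) := PBOR.CK_nonneg (by norm_num) (by norm_num)
  obtain ⟨C1, hC1, H4⟩ := wplusG (y₁ := y1) (y₂ := y2) (a := 19 / 10) (κ := 189 / 100)
    (κ₁ := 1 / 100) (κ₂ := 1 / 200) (b := bb) (b' := bb') (Y₁ := -(ep / 4)) (Y₂ := bb')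
    (CQ := CQ) (CP := PBOR.CK (189 / 100)) (by norm_num) (by norm_num) (by norm_num)
    (by norm_num) (by norm_num) (by norm_num) (by norm_num) bb'_pos bb'_lt
    (by rw [hy1]; unfold bb; linarith) (by rw [hy2]; unfold bb; linarith)
    (by unfold bb'; linarith) le_rfl hCQ hCP
  refine ⟨C1 * max 1 (max 1 c0⁻¹), by positivity, ?_⟩
  have hb0 : ep * NUP1.l / 4 < bb' := by unfold bb'; nlinarith
  filter_upwards [H3, H2 ep e1 J (hp.mono (min_le_right _ _)) (-(ep / 4)) bb' (by linarith)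
      bb'_pos, fib_SV hep0 hep1 hp.e0 hp.e1' hp.J0 hb0 (by unfold bb'; linarith)]
    with j h3 h2 h1 s hs t ht M g hg hmg
  have hs1 : |s| ≤ 1 := abs_le.2 ⟨by linarith [hs.1], hs.2⟩
  have ht1 : |t| ≤ 1 := abs_le.2 ⟨by linarith [ht.1], ht.2⟩
  have hM0 : 0 ≤ M := hg.nonneg (by rw [hy1]; linarith) (by rw [hy2]; linarith)
  have hF := h1 s hs t
  have hρ := (hc j s hs1).1
  have hth : 0 ≤ thS c0 j := thX_nonneg hρ.Np
  obtain ⟨D, Q, P, h5⟩ := H4 (c := cFV j s t) hF hρ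
    (fun M' Mg β g' hβ hg' he => mB_V hβ bb_pos (by norm_num) hg' he ht1)
    (h0V0_TC t)
    (cut := fun _ => cutJ ep j s) (fun n hn r O u y => hl_fibV0 hF rfl n hn r O u y)
    (fun r O u => obF_line (j + 1) r O u)
    (fun M β hM hβ r O a b x => Pp_le_plus (PBOR.PO_par0 (j + 1) O) hβ bb_pos (by norm_num)
      (by norm_num) le_rfl hM a b x)
    (h3 s hs t ht) (KjV_pos ε j).le (djV_pos ε e1 (189 / 100) j).le (h2 s hs t ht) M g hg hmg
  refine ⟨D, Q, P, WPl.mono' h5 (by rw [hy1]; linarith) (by rw [hy2]; linarith) hM0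
    (KjV_pos ε j).le le_rfl (mul_nonneg hC1 hth) ?_ ?_⟩
  · have e : thX c0 ((j + 1 : ℕ) : ℝ) (189 / 100 - 1 / 100) 0 =
        max 1 c0⁻¹ * ((j : ℝ) + 1) ^ (-(3 / 8 * (189 / 100 - 1 / 100) : ℝ)) := by
      unfold thX
      rw [abs_zero, mul_zero, Real.exp_zero, mul_one]
      push_cast
      rfl
    rw [e, ← mul_assoc]
    refine mul_le_mul_of_nonneg_right ?_ (by positivity)
    exact mul_le_mul_of_nonneg_left (le_max_right _ _) hC1
  · refine mul_le_mul_of_nonneg_right ?_ (djV_pos ε e1 (189 / 100) j).le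
    exact le_mul_of_one_le_right hC1 (le_max_left _ _)

/-- **the identities of neutral test functions, plus channel, large sizes** -/
theorem levW_wpV : LevWV (WpSV (19 / 10) fun t u => mfL t u - mfL 0 u) := by
  have hl := NUP1.Bd.l_pos
  obtain ⟨a0, ha0, H⟩ := levPV (ε := 1 / 100) (by norm_num)
  refine ⟨a0, ha0, fun ep e1 J hp => ?_⟩
  obtain ⟨C, hC, h1⟩ := H ep e1 J hp
  refine ⟨C + 1, by linarith, fun K th dp hK hth hdp => ?_⟩
  filter_upwards [h1] with j h2 s hs t ht M g hg hmg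
  obtain ⟨D, Q, P, h3⟩ := h2 s hs t ht M g hg hmg
  have hy1 : y1 = -(NUP1.l / 10) := rfl
  have hy2 : y2 = 9 / 20 * NUP1.l := rfl
  have hM0 : 0 ≤ M := hg.nonneg (by rw [hy1]; linarith) (by rw [hy2]; linarith)
  have hKj := KjV_pos (1 / 100) j
  have hdj := djV_pos (1 / 100) e1 (189 / 100) j
  have hpw : (0 : ℝ) ≤ ((j : ℝ) + 1) ^ (-(3 / 8 * (189 / 100 - 1 / 100) : ℝ)) := by positivity
  have e : (-(3 / 8 * (189 / 100 - 1 / 100) : ℝ)) = -(141 / 200) := by norm_num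
  refine ⟨D, Q, P, WPl.mono' h3 (by rw [hy1]; linarith) (by rw [hy2]; linarith) hM0 hKj.le ?_
    (mul_nonneg hC hpw) ?_ ?_⟩
  · refine le_trans ?_ (hK j)
    exact le_mul_of_one_le_left hKj.le (by linarith)
  · refine le_trans ?_ (hth j)
    rw [e]
    exact mul_le_mul_of_nonneg_right (by linarith) (by positivity)
  · refine le_trans ?_ (hdp j)
    exact mul_le_mul_of_nonneg_right (by linarith) hdj.le

end PVX

end
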