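import Pool.Agent.PV.HDV
import Pool.Agent.PV.LevPV
import Pool.Agent.PV.LevNV
import Pool.Agent.PV.AnV
import Pool.Agent.PV.FNval
import Pool.Agent.PV.U1V
import Pool.Agent.PV.UXVfin

/-!
# Plan V: the sharp law, unconditional (helper96)

* `evp : PV.EVP (1 / 10)`;
* **`sharpF`**: `W0 N * Z_N(2) / bulk N = C N^(3/8) (1 + O(N^-c))`.
-/

set_option autoImplicit false

noncomputable section

open Filter

namespace PV

/-- **(E_V)** -/
theorem evp : EVP (1 / 10) :=
  PVX.closeEV le_rfl (by norm_num) PVX.levW_wpV PVX.levWV_wm (PVI.hDV le_rfl) PVX.anV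

/-- **the sharp power law of the sphere function** -/
theorem sharpF : PVF.SharpF fun N => NUI.W0 N * (Pool.Agent.NUF.ZZ 2 N).re / Pool.Agent.NUF.bulk N :=
  sharpF_V xvP (v0P_of uxV) (v1P_of uxV) (by norm_num : (1 / 10 : ℝ) < 3 / 8) evp
    (Eventually.of_forall FN_val) PVA.apr_freq

end PV

end
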