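import Pool.Agent.PB.ZcC
import Pool.Agent.PV.HPotV

/-!
# Plan V: the cut term at the rows `η I :: 0 ^ k`, legs at `z`, anti-legs at `z'` (helper17)

* `antiZ`, `spV`: the spectators; `obZ_V`: the one body data `PVT.obV` are one body data of plan B;
* `ZLV`, `ZcLV`: class functions and their cut term;
* **`cut_dataV`**: `Zc` relative to `Z`, and for all `‖ε‖ ≤ (k + 1) ^ 2` the functions `Z + ε Zc` are bounded
  by one body data `obE (obV ..) (E Cc / k ^ 3) M` with the one body bounds `OneB` (constants before `ep`).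
-/

set_option autoImplicit false
set_option linter.unusedVariables false
set_option linter.unusedSectionVars false

noncomputable section

open Complex Set

namespace PVZ

open NUP1 NUP1S NUP1S.AbC NURow NUO NUGC PBX PBFar PBT PBC
open PBForce (xiR)
open PBL (mu1)
open PVS (LgV thV LgV_meas LgV_SpecAt LgV_SpecS norm_LgV)
open PVT (obV obV_nn)

/-! ## the spectators -/

/-- the factor of an anti-leg -/
theorem inv_thZ_le {z u : ℂ} (h1 : |z.re| ≤ 7 / 10 * l) (h3 : -((2 + PBO.eM) * l) ≤ u.re)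
    (h4 : u.re ≤ 4 / 5 * l) : (PBO.thZ z u)⁻¹ ≤ PBO.cZ := by
  have hl := Bd.l_pos
  have he : PBO.eM = 1251 / 5000 := rfl
  rw [he] at h3
  obtain ⟨z1, z2⟩ := abs_le.1 h1
  have hs := PBO.s1_pos
  have e1 : (z - u - 3 * l).re = z.re - u.re - 3 * l := by simp
  have i1 : (z - u + 2 * l).im = (z - u).im := by simp
  have i2 : (z - u - 3 * l).im = (z - u).im := by simp
  have hneg : z.re - u.re - 3 * l < 0 := by nlinarith
  have a1 := PBO.sin_up (z - u + 2 * l)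
  have a2 := PBO.sin_dn (z := z - u - 3 * l) (by rw [e1, abs_of_neg hneg]; nlinarith)
    (by rw [e1, abs_of_neg hneg]; nlinarith)
  rw [i1] at a1
  rw [i2] at a2
  have hc := Real.cosh_pos (z - u).im
  unfold PBO.thZ PBO.cZ
  rw [inv_div]
  have e : PBO.s1⁻¹ = Real.cosh (z - u).im / (PBO.s1 * Real.cosh (z - u).im) := by
    field_simp
  rw [e]
  exact div_le_div₀ hc.le a1 (mul_pos hs hc) a2

theorem antiZ {z : ℂ} (h1 : |z.re| ≤ 7 / 10 * l) :
    PBO.SpZ PBO.cZ PBO.eM fun _ u => (PBO.thZ z u)⁻¹ :=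
  fun _ u h3 h4 => ⟨inv_nonneg.2 (PBO.thZ_nonneg z u), inv_thZ_le h1 h3 h4⟩

/-- legs at `z`, anti-legs at `z'` -/
theorem spV {z z' : ℂ} (h1 : -(9 / 10 * l) ≤ z.re) (h2 : z.re ≤ 187 / 50 * l)
    (h3 : |z'.re| ≤ 7 / 10 * l) :
    PBO.SpZ (PBO.cZ * PBO.cZ) PBO.eM fun _ u => thV z z' u :=
  PBO.SpZ.mul (PBO.legZ h1 h2) (antiZ h3)

theorem obZ_V {ep : ℝ} (k : ℕ) {x z z' : ℂ} (hx : |x.re| ≤ NUP1.l / 5) (hx' : |x.im| ≤ 2)
    (h1 : -(9 / 10 * NUP1.l) ≤ z.re) (h2 : z.re ≤ 187 / 50 * NUP1.l)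
    (h3 : |z'.re| ≤ 7 / 10 * NUP1.l) :
    PBO.ObZ 2 2 (PBO.cZ * PBO.cZ) (k + 1) (4 / 3 * (1 - ep)) PBO.eM
      (obV k (4 / 3 * (1 - ep)) x z z') k
      (List.ofFn (mu1 k x)) [x] [I, -I] [] (2 * Real.cos NUP1.l) (fun _ u => thV z z' u) where
  rows := rowsZ k hx hx'
  w1 := PBO.PtsZ.II le_rfl (by norm_num)
  w2 := PBO.PtsZ.nil _ _
  cc := two_cos
  sp := spV h1 h2 h3
  R := fun a u => by
    show 2 * Real.cos NUP1.l * (∏ i, PBX.rwC (mu1 k x i) u) * thV z z' u =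
      2 * Real.cos NUP1.l * ((List.ofFn (mu1 k x)).map fun x => PBO.rwC x u).prod * thV z z' u
    rw [List.map_ofFn, List.prod_ofFn]
    rfl
  φ := rfl
  φ0 := rfl

attribute [local instance] NUSea.seaP

/-! ## class functions -/

/-- class functions, leg constants `c a`, legs at `z`, anti-legs at `z'` -/
def ZLV (c : Bool → ℂ) (k : ℕ) (β : ℝ) (x z z' : ℂ) : Bool → Option O3 → ℂ → ℂ := fun a =>
  XX (c a) β (mu1 k x) (mu1 k x) (gP β [I, -I]) (gP (4 / 3) []) (LgV z z')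
    (fun w => LgV z z' w * LgV z z' (w - NUP1.l))

/-- the cut term with legs at `z`, anti-legs at `z'` -/
def ZcLV (c : Bool → ℂ) (k : ℕ) (b : ℝ) (η : ℝ) (z z' : ℂ) (X : ℂ → ℂ) : Bool → Option O3 → ℂ → ℂ :=
  fun a => ZcX (c a) (rwx k η) b k ((η : ℂ) * I) I (xe k η) X (LgV z z')
    (fun w => LgV z z' w * LgV z z' (w - l))

/-- **all data of the cut term**: `Zc` relative to `Z`, and the one body bounds of the perturbed data -/
theorem cut_dataV (K' : ℝ) : ∃ C c : ℝ, 0 < C ∧ 0 < c ∧ ∀ C0 : ℝ, 1 ≤ C0 → ∀ ep : ℝ, 0 < ep →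
    ep ≤ 1 / 100 → ∃ Cc K : ℝ, 0 < Cc ∧ 0 < K ∧ ∀ e1 : ℝ, 0 < e1 → e1 ≤ 1 / 100 →
    ∃ k0 : ℕ, 1 ≤ k0 ∧ ∀ k : ℕ, k0 ≤ k → ∀ η : ℝ, |η| ≤ 1 → ∀ X : ℂ → ℂ, FlX k C0 X (xe k η) →
    ∀ z z' : ℂ, -(9 / 10 * l) ≤ z.re → z.re < 37 / 10 * l → |z'.re| < 7 / 10 * l →
    (∀ cc : Bool → ℂ, (∀ a, ‖cc a‖ = 2 * Real.cos l) →
      CutZ (ZLV cc k (4 / 3 * (1 - ep)) ((η : ℂ) * I) z z')
        (ZcLV cc k (4 / 3 * (1 - ep)) η z z' X)
        (obV k (4 / 3 * (1 - ep)) ((η : ℂ) * I) z z') (pL (k + 1)) ep (2 * (4 / 3 * (1 - ep)))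
        (3 / 5 * l) 0 (Set.range fun i => (PBL.mu1 k ((η : ℂ) * I) i).im) (Cc / (k : ℝ) ^ 3)
        (MT K (4 / 3 * (1 - ep)) k η) ∧
      ∃ D, PBI.ZcOk (ZLV cc k (4 / 3 * (1 - ep)) ((η : ℂ) * I) z z')
        (ZcLV cc k (4 / 3 * (1 - ep)) η z z' X) (pL (k + 1)) (3 / 5 * l) (2 * (4 / 3 * (1 - ep)))
        (ep / 4) (Cc / (k : ℝ) ^ 3) D) ∧
    ∀ E : ℝ, 0 ≤ E → E ≤ ((k : ℝ) + 1) ^ 2 → ∀ J : ℝ, 0 ≤ J →
      OneB C c K' ep e1 J (k + 1) (obE (obV k (4 / 3 * (1 - ep)) ((η : ℂ) * I) z z')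
        (E * (Cc / (k : ℝ) ^ 3)) fun t => E * MT K (4 / 3 * (1 - ep)) k η t) := by
  have hl := Bd.l_pos
  have hG : 0 < PBO.cZ * PBO.cZ := mul_pos PBO.cZ_pos PBO.cZ_pos
  obtain ⟨B0, hB0, HW⟩ := wkb_ObZ 2 (h0 := 2) (by norm_num) hG
  have hcw := cWT_pos (n0 := 2) hG
  obtain ⟨C, c, hC, hc, H⟩ := one_oneEHT_KB (B0 := 16 * (B0 + cWT 2 (PBO.cZ * PBO.cZ) * 1))
    (by positivity) K' 12
  refine ⟨C, c, hC, hc, fun C0 hC0 ep hep hep1 => ?_⟩
  obtain ⟨Cc, K, N0, hCc, hK, HC⟩ := cutH_R0 hep hep1 hC0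
  refine ⟨Cc, K, hCc, hK, fun e1 he he1 => ?_⟩
  obtain ⟨m0, H0⟩ := H e1 he he1
  set b := 4 / 3 * (1 - ep) with hb
  have hb0 : 0 < b := by rw [hb]; linarith
  have hb1 : b ≤ 4 / 3 := by rw [hb]; linarith
  obtain ⟨N1, hN1, h1⟩ := small_k hCc (p := -3) (by norm_num)
  obtain ⟨N2, hN2, h2⟩ := small_k hK (p := -(9 / 4 * b)) (by rw [hb]; linarith)
  refine ⟨max (max N0 N1) (max N2 m0), hN1.trans ((le_max_right _ _).trans (le_max_left _ _)),
    fun k hk η hη X hF z z' z1 z2 z3' => ?_⟩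
  simp only [max_le_iff] at hk
  obtain ⟨⟨k1, k2⟩, k3, k4⟩ := hk
  have hCH := HC k k1 η hη X hF
  have hre : |((η : ℂ) * I).re| ≤ l / 5 := by
    simp
    positivity
  have him : |((η : ℂ) * I).im| ≤ 2 := im_row hη
  have hre2 : |((η : ℂ) * I).re| ≤ l / 2 := re_row η
  have hrows : Rws (rwx k η) := rws_mu1 k hre2
  have hPC : ParC (pL (k + 1)) := PBF.parZ_parC (k + 1)
  have hj : (pL (k + 1)).jL ≤ 5 / 2 := (PBO.parOK_seaP (k + 1)).j2
  have z3 : z.re ≤ 187 / 50 * l := by linarith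
  have hkp : (0 : ℝ) < k := by
    have : 1 ≤ k := hN1.trans k2
    exact_mod_cast this
  refine ⟨fun cc hcc => ⟨?_, ?_⟩, fun E hE hE1 J hJ => ?_⟩
  · have key := cutZ_X (c := cc) (s1 := fun _ => LgV z z')
      (s2 := fun _ w => LgV z z' w * LgV z z' (w - l))
      (E := ∅) (q := 0) (x0 := 3 / 5 * l) le_rfl (by linarith) hPC hj hep hep1 hb0 hb1
      (hyp_ep hep hep1) le_rfl hrows hre2 (ofFn_rwx k η) hcc hF (fun _ => LgV_meas z z')
      (fun _ => (LgV_meas z z').mul ((LgV_meas z z').comp (measurable_id.sub_const _)))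
      (fun a => by simpa using LgV_SpecAt (le_refl (3 / 5 * l)) a z1 z2 z3')
      (fun _ => LgV_SpecS z z')
      (by simp) hCH
    rw [Set.empty_union] at key
    simp only [norm_LgV] at key
    exact key
  · have hS2 : ∀ (a : Bool) (t : ℝ), ‖LgV z z' (posT t) * LgV z z' (posT t - l)‖ ≤
        (PBO.cZ * PBO.cZ) * (PBO.cZ * PBO.cZ) := by
      intro a t
      rw [norm_mul, norm_LgV, norm_LgV]
      have r1 := PBO.zT_re t
      have r2 := PBO.zTl_re t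
      have he : PBO.eM = 1251 / 5000 := rfl
      obtain ⟨p0, p1⟩ := spV z1 z3 z3'.le a (posT t) (by rw [r1, he]; linarith)
        (by rw [r1]; linarith)
      obtain ⟨q0, q1⟩ := spV z1 z3 z3'.le a (posT t - l) (by rw [r2, he]; linarith)
        (by rw [r2]; linarith)
      exact mul_le_mul p1 q1 q0 (p0.trans p1)
    exact zcOk_X (c := cc) (s1 := fun _ => LgV z z')
      (s2 := fun _ w => LgV z z' w * LgV z z' (w - l))
      (h0 := 2) hPC hj (by linarith) (hyp_ep hep hep1) le_rfl hrows (fun i => by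
        refine Fin.cases ?_ (fun j => ?_) i
        · exact ⟨hre, him⟩
        · refine ⟨?_, ?_⟩
          · rw [rwx_succ]; simp; positivity
          · rw [rwx_succ]; simp) hre2 (ofFn_rwx k η) hF (fun _ => LgV_meas z z')
      (fun _ => (LgV_meas z z').mul ((LgV_meas z z').comp (measurable_id.sub_const _)))
      (fun a u u1 u2 => (LgV_SpecAt (le_refl (3 / 5 * l)) a z1 z2 z3').df u
        ⟨u1, u2.trans (by nlinarith)⟩)
      hS2 (fun t => MT_dec hK.le hb1 k η t) hCH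
  · have hZ := obZ_V (ep := ep) k hre him z1 z3 z3'.le
    have hN := obV_nn k b ((η : ℂ) * I) z z'
    have hWB := HW (k + 1) b (obV k b ((η : ℂ) * I) z z') k _ _ _ _ _ _ (by omega) hb0 hb1 hZ
    have hδ : E * (Cc / (k : ℝ) ^ 3) ≤ 1 := by
      have h3 := h1 k k2
      have e : (k : ℝ) ^ (-3 : ℝ) = ((k : ℝ) ^ 3)⁻¹ := by
        rw [Real.rpow_neg hkp.le]
        norm_num
      rw [e, ← div_eq_mul_inv] at h3
      exact (mul_le_mul_of_nonneg_right hE1 (by positivity)).trans h3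
    have hM : ∀ t, Real.exp (k * NUMF.Ag (1 / 2) t) * (E * MT K b k η t) ≤
        1 * NUO.cut (k + 1) b t := by
      intro t
      have h3 := h2 k k3
      have h4 := MT_mf hK.le hb1 k η t
      have hc0 := NUO.cut_nonneg (k + 1) b t
      calc _ = E * (Real.exp (k * NUMF.Ag (1 / 2) t) * MT K b k η t) := by ring
        _ ≤ ((k : ℝ) + 1) ^ 2 * (K * (k : ℝ) ^ (-(9 / 4 * b)) * NUO.cut (k + 1) b t) :=
            mul_le_mul hE1 h4 (mul_nonneg (Real.exp_pos _).le (MT_nonneg hK.le _ _ _ _))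
              (by positivity)
        _ = ((k : ℝ) + 1) ^ 2 * (K * (k : ℝ) ^ (-(9 / 4 * b))) * NUO.cut (k + 1) b t := by ring
        _ ≤ 1 * NUO.cut (k + 1) b t := mul_le_mul_of_nonneg_right h3 hc0
    have hW := wkb_obE 2 hG hZ hN hB0.le hWB (δ := E * (Cc / (k : ℝ) ^ 3)) (by positivity) hδ
      (M := fun t => E * MT K b k η t) (fun t => mul_nonneg hE (MT_nonneg hK.le _ _ _ _)) zero_le_one
      hM
    exact fun r O i => H0 (k + 1) (by omega) ep hep hep1 _ hW (obE_nn hN (by positivity)) J hJ r O i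

end PVZ

end
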