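import Pool.Agent.PV.CutG
import Pool.Agent.PV.ZcV
import Pool.Agent.PV.UXV
import Pool.Agent.PV.ValW

/-!
# Plan V: the cut term of the first Ward identity (helper17)

* `valF_V`: the value of `famV`;
* **`cutV0`**: rows `i η0, 0, …, 0`, legs at `z`, anti-legs at `0`: if `Zd` is the product form `ZcLV` on the
  final lines, `‖PfV ∑ n, F0D n Z Zd‖ ≤ (k + 1) ^ (- 2 + d) bd`, `bd = (k + 1) ^ (3/4) exp (4 |Im z|)`.
-/

set_option autoImplicit false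
set_option linter.unusedSectionVars false

noncomputable section

open Complex MeasureTheory Finset
open scoped ENNReal

namespace PVZ

open NUO NUP1 NUP1S NUP1S.Ab NUP1S.AbC NUGC PBF PBI PBT
open PBX (obX XX Lg gP Rws oneC_XX)
open PBL (mu1)
open PBFar (rwx)
open PVS (LgV thV LgV_meas LgV_SpecAt LgV_SpecS LgV_SpecQ norm_LgV)
open PVT (obV obV_nn linV)
open PV (famV BV linF PfV)

attribute [local instance] NUSea.seaP

/-- **the value of `famV`** -/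
theorem valF_V : ValF famV linF := by
  intro e1 he he1 J hJ
  obtain ⟨C, hC, m0, H⟩ := PVV.valV_x he he1 hJ
  refine ⟨C, hC, m0 + 1, fun m hm i hi => ?_⟩
  obtain ⟨k, rfl⟩ : ∃ k, m = k + 1 := ⟨m - 1, by omega⟩
  obtain ⟨x, z⟩ := i
  obtain ⟨h1, h2, h3, h4, h5⟩ := hi
  dsimp only at h1 h2 h3 h4 h5
  have hl := NUP1.l_pos
  have hlN : NUP1.l = NUMF.l := rfl
  have hmp : (0 : ℝ) < ((k + 1 : ℕ) : ℝ) := by positivity
  have hm1 : (1 : ℝ) ≤ ((k + 1 : ℕ) : ℝ) := by exact_mod_cast (by omega : 1 ≤ k + 1)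
  have hL : 0 ≤ Real.log ((k + 1 : ℕ) : ℝ) := Real.log_nonneg hm1
  have key := H k (by omega) x z 0 (by rw [← hlN]; exact h1) (by rw [← hlN]; linarith)
    (by rw [← hlN]; exact h4.le) (by rw [Complex.zero_re, abs_zero, ← hlN]; positivity) h5
  have e0 : famV.Pf (k + 1) (x, z) = PBR.rh (z - 0) ^ 2 * (2 / 3 * PBR.rh 0 / sin NUP1.l) *
      ((∏ i, (PBR.rh (0 - mu1 k x i) ^ 2 / Pool.Agent.PB.Lp 0 (mu1 k x i))) *
        ∏ i, (PBR.rh (0 - mu1 k x i) ^ 2 / Pool.Agent.PB.Lp 0 (mu1 k x i))) *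
      Pool.Agent.PB.Pf z (mu1 k x) (mu1 k x) := rfl
  have e1' : linF e1 J (k + 1) (x, z) = linV e1 J (k + 1) x z 0 := rfl
  have e2 : famV.bd (k + 1) (x, z) = ((k + 1 : ℕ) : ℝ) ^ (3 / 4 : ℝ) * Real.exp (4 * |z.im|) := rfl
  rw [e0, e1', e2]
  refine key.trans ?_
  have e3 : ((k + 1 : ℕ) : ℝ) ^ (3 / 4 : ℝ) = Real.exp (3 / 4 * Real.log ((k + 1 : ℕ) : ℝ)) := by
    rw [Real.rpow_def_of_pos hmp, mul_comm]
  rw [e3, mul_assoc, ← Real.exp_add, ← Real.exp_add]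
  refine mul_le_mul_of_nonneg_left (Real.exp_le_exp.2 ?_) hC
  rw [Complex.zero_im, abs_zero]
  unfold Tb
  nlinarith [mul_nonneg he.le hL]

theorem BV_nn (ep : ℝ) (m : ℕ) (i : ℂ × ℂ) : (BV ep m i).Nn := obV_nn _ _ _ _ _

theorem bd_pos {m : ℕ} (hm : 1 ≤ m) (i : ℂ × ℂ) : 0 < famV.bd m i := by
  have hmp : (0 : ℝ) < (m : ℝ) := by exact_mod_cast hm
  exact mul_pos (Real.rpow_pos_of_pos hmp _) (Real.exp_pos _)

/-- the one body data of the class functions -/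
theorem oneC_ZLV {P : NUO.Par} {ep : ℝ} (hP : ParC P) (hep : 0 < ep) (hep1 : ep ≤ 1 / 100)
    {cc : Bool → ℂ} (hcc : ∀ a, ‖cc a‖ = 2 * Real.cos NUP1.l) (k : ℕ) {x z z' : ℂ}
    (hx : |x.re| ≤ NUP1.l / 2) (h1 : -(9 / 10 * NUP1.l) ≤ z.re) (h2 : z.re < 37 / 10 * NUP1.l)
    (h3 : |z'.re| < 7 / 10 * NUP1.l) :
    OneC (ZLV cc k (4 / 3 * (1 - ep)) x z z') (obV k (4 / 3 * (1 - ep)) x z z') P ep
      (2 * (4 / 3 * (1 - ep))) (3 / 5 * NUP1.l) 0 (Set.range fun i => (mu1 k x i).im) := by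
  have hl := Bd.l_pos
  have h := oneC_XX (E := ∅) (q := 0) (P := P) (ep := ep) (β := 4 / 3 * (1 - ep))
    (x0 := 3 / 5 * NUP1.l) (x := mu1 k x) (ex := [I, -I]) (c := cc) (s1 := fun _ => LgV z z')
    (s2 := fun _ w => LgV z z' w * LgV z z' (w - NUP1.l)) le_rfl (by linarith) hP hep hep1
    (by linarith) (by linarith) (rws_mu1 k hx) (by
      intro w hw
      rw [List.mem_cons, List.mem_singleton] at hw
      rcases hw with rfl | rfl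
      · rw [Complex.I_re, abs_zero]; positivity
      · rw [Complex.neg_re, Complex.I_re, neg_zero, abs_zero]; positivity) []
    hcc (fun _ => LgV_meas z z')
    (fun _ => (LgV_meas z z').mul ((LgV_meas z z').comp (measurable_id.sub_const _)))
    (fun a => LgV_SpecAt le_rfl a h1 h2 h3) (fun _ => LgV_SpecS z z') (by simp)
  rw [Set.empty_union] at h
  simp only [norm_LgV] at h
  exact h

/-- **the cut term**, `Zd` = product form on the final lines -/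
theorem cutV0 (hS : NUStabP.StabProd) {d : ℝ} (hd : 0 < d) : ∃ a0 : ℝ, 0 < a0 ∧
    ∀ ep : ℝ, 0 < ep → ep ≤ 1 / 100 → ∀ e1 : ℝ, 0 < e1 → e1 ≤ 1 / 100 → ∀ J : ℝ, 0 ≤ J →
    Real.exp (-(2 * Real.pi * J)) + 3 * e1 + 3 * ep ≤ a0 →
    ∃ m0 : ℕ, ∀ k : ℕ, m0 ≤ k → ∀ η0 : ℝ, |η0| ≤ 1 → ∀ z : ℂ, -(9 / 10 * NUP1.l) ≤ z.re →
      z.re < 37 / 10 * NUP1.l →
      |z.im| ≤ 3 / 20 * Real.log (k + 1 : ℕ) + 2 → ∀ cc : Bool → ℂ,
      (∀ a, ‖cc a‖ = 2 * Real.cos NUP1.l) → ∀ Zd : Stt,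
      (∀ n ∈ range (2 * (k + 1) + 1),
        AllW (3 / 5 * NUP1.l) n n (Lfin (pL (k + 1))) fun c x => ∀ i, ∀ t : ℝ,
          Zd (c i).1 (c i).2 (vl (x i) t) =
            ZcLV cc k (4 / 3 * (1 - ep)) η0 z 0 (PBForce.xiR (rwx k η0) 0)
              (c i).1 (c i).2 (vl (x i) t)) →
      ‖PfV z 0 (rwx k η0) (rwx k η0) *
        ∑ n ∈ range (2 * (k + 1) + 1), F0D (3 / 5 * NUP1.l) n n (Lfin (pL (k + 1)))
          (ZLV cc k (4 / 3 * (1 - ep)) ((η0 : ℂ) * I) z 0) Zd‖ ≤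
        ((k + 1 : ℕ) : ℝ) ^ (-2 + d) *
          (((k + 1 : ℕ) : ℝ) ^ (3 / 4 : ℝ) * Real.exp (4 * |z.im|)) := by
  obtain ⟨K', HT⟩ := cutFinF hS PV.envF_famV valF_V BV_nn fun m hm i => bd_pos hm i
  obtain ⟨C, c, hC, hc, HD⟩ := cut_dataV K'
  obtain ⟨C0, hC0, HX⟩ := PBC.flX_xiR
  obtain ⟨a0, ha0, HT⟩ := HT C c hC hc (d / 2) (by linarith)
  refine ⟨a0, ha0, fun ep hep hep1 e1 he he1 J hJ hsm => ?_⟩
  obtain ⟨mt, HT⟩ := HT ep hep hep1 e1 he he1 J hJ hsm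
  obtain ⟨Cc, Kz, hCc, hKz, HD⟩ := HD C0 hC0 ep hep hep1
  obtain ⟨k0, hk0, HD⟩ := HD e1 he he1
  have t1 : Filter.Tendsto (fun m : ℕ => (m : ℝ) ^ (d / 2)) Filter.atTop Filter.atTop :=
    (tendsto_rpow_atTop (by positivity : 0 < d / 2)).comp tendsto_natCast_atTop_atTop
  obtain ⟨mx, hmx⟩ := Filter.eventually_atTop.1 (t1.eventually_ge_atTop (8 * Cc))
  refine ⟨max (max mt k0) (max mx 1), fun k hk η0 hη0 z z1 z2 z3 cc hcc Zd hZd => ?_⟩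
  have k1 : mt ≤ k + 1 := ((le_max_left _ _).trans ((le_max_left _ _).trans hk)).trans
    (Nat.le_succ k)
  have k2 : k0 ≤ k := (le_max_right _ _).trans ((le_max_left _ _).trans hk)
  have k3 : mx ≤ k + 1 := ((le_max_left _ _).trans ((le_max_right _ _).trans hk)).trans
    (Nat.le_succ k)
  have k4 : 1 ≤ k := (le_max_right _ _).trans ((le_max_right _ _).trans hk)
  have hl := NUP1.l_pos
  have hkp : (0 : ℝ) < (k : ℝ) := by exact_mod_cast k4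
  have hk1 : (1 : ℝ) ≤ (k : ℝ) := by exact_mod_cast k4
  have ek : ((k + 1 : ℕ) : ℝ) = (k : ℝ) + 1 := by push_cast; ring
  have hmp : (0 : ℝ) < ((k + 1 : ℕ) : ℝ) := by positivity
  have hm1 : (1 : ℝ) ≤ ((k + 1 : ℕ) : ℝ) := by rw [ek]; linarith
  obtain ⟨E, hE⟩ : ∃ E : ℝ, E = ((k + 1 : ℕ) : ℝ) ^ (2 - d / 2) := ⟨_, rfl⟩
  have hE0 : 0 < E := by rw [hE]; exact Real.rpow_pos_of_pos hmp _
  have hE2 : E ≤ ((k : ℝ) + 1) ^ 2 := by
    rw [hE, ← ek, ← Real.rpow_natCast]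
    exact Real.rpow_le_rpow_of_exponent_le hm1 (by push_cast; linarith)
  have hEd : E * ((k + 1 : ℕ) : ℝ) ^ (d / 2) = ((k + 1 : ℕ) : ℝ) ^ 2 := by
    rw [hE, ← Real.rpow_add hmp, ← Real.rpow_natCast]
    congr 1
    push_cast
    ring
  have hδ0 : 0 ≤ E * (Cc / (k : ℝ) ^ 3) := by positivity
  have hδ1 : E * (Cc / (k : ℝ) ^ 3) ≤ 1 / ((k + 1 : ℕ) : ℝ) := by
    have h1 := hmx (k + 1) k3
    have h2 : ((k + 1 : ℕ) : ℝ) ^ 3 ≤ 8 * (k : ℝ) ^ 3 := by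
      have h3 : ((k + 1 : ℕ) : ℝ) ≤ 2 * k := by rw [ek]; linarith
      calc ((k + 1 : ℕ) : ℝ) ^ 3 ≤ (2 * (k : ℝ)) ^ 3 := pow_le_pow_left₀ hmp.le h3 3
        _ = 8 * (k : ℝ) ^ 3 := by ring
    have h4 : E * (8 * Cc) ≤ ((k + 1 : ℕ) : ℝ) ^ 2 := by
      rw [← hEd]
      exact mul_le_mul_of_nonneg_left h1 hE0.le
    rw [mul_div_assoc', div_le_div_iff₀ (by positivity) hmp]
    have h5 : E * (8 * Cc) * ((k + 1 : ℕ) : ℝ) ≤ ((k + 1 : ℕ) : ℝ) ^ 2 * ((k + 1 : ℕ) : ℝ) :=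
      mul_le_mul_of_nonneg_right h4 hmp.le
    have h6 : ((k + 1 : ℕ) : ℝ) ^ 2 * ((k + 1 : ℕ) : ℝ) = ((k + 1 : ℕ) : ℝ) ^ 3 := by ring
    linarith
  have hre : |((η0 : ℂ) * I).re| ≤ NUP1.l / 10 := by
    simp
    positivity
  have him : |((η0 : ℂ) * I).im| ≤ 2 := by
    have : ((η0 : ℂ) * I).im = η0 := by simp
    rw [this]
    linarith
  have h0' : |(0 : ℂ).re| < 7 / 10 * NUP1.l := by
    rw [Complex.zero_re, abs_zero]
    positivity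
  obtain ⟨X, hX⟩ : ∃ X, X = PBForce.xiR (rwx k η0) 0 := ⟨_, rfl⟩
  have hFX : PBC.FlX k C0 X (PBFar.xe k η0) := by rw [hX]; exact HX k k4 η0 hη0
  obtain ⟨hD1, hD2⟩ := HD k k2 η0 hη0 X hFX z 0 z1 z2 h0'
  obtain ⟨hcut, D, hzc⟩ := hD1 cc hcc
  have hact := hD2 E hE0.le hE2 J hJ
  rw [← hX] at hZd
  have hok : famV.ok (k + 1) ((η0 : ℂ) * I, z) := ⟨hre, him, z1, z2, z3⟩
  have key := HT (k + 1) k1 ((η0 : ℂ) * I, z) hok cc (mu1 k ((η0 : ℂ) * I)) [I, -I] (LgV z 0)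
    (fun w => LgV z 0 w * LgV z 0 (w - NUP1.l)) (rws_mu1 k (by linarith)) (by
      intro w hw
      rw [List.mem_cons, List.mem_singleton] at hw
      rcases hw with rfl | rfl
      · rw [Complex.I_re, abs_zero]; positivity
      · rw [Complex.neg_re, Complex.I_re, neg_zero, abs_zero]; positivity)
    (fun a => LgV_SpecQ a (by linarith) z2 h0')
    (fun a => by
      have h := LgV_SpecAt (x0 := 3 / 5 * NUP1.l) le_rfl a z1 z2 h0'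
      simpa using h)
    (Set.range fun i => (mu1 k ((η0 : ℂ) * I) i).im)
    (oneC_ZLV (parZ_parC (k + 1)) hep hep1 hcc k (by linarith) z1 z2 h0')
    Zd (ZcLV cc k (4 / 3 * (1 - ep)) η0 z 0 X) (E * (Cc / (k : ℝ) ^ 3)) E (Cc / (k : ℝ) ^ 3)
    (PBC.MT Kz (4 / 3 * (1 - ep)) k η0) (fun t => E * PBC.MT Kz (4 / 3 * (1 - ep)) k η0 t)
    (Cc / (k : ℝ) ^ 3) D (range (2 * (k + 1) + 1)) hδ0 hδ1 hE0 (by positivity) hcut le_rfl
    (fun t => le_rfl) hact hzc (Finset.Subset.refl _) hZd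
  refine key.trans (le_of_eq ?_)
  have e2 : famV.bd (k + 1) ((η0 : ℂ) * I, z) =
    ((k + 1 : ℕ) : ℝ) ^ (3 / 4 : ℝ) * Real.exp (4 * |z.im|) := rfl
  rw [e2, hE, div_eq_mul_inv, ← Real.rpow_neg hmp.le, mul_right_comm, ← Real.rpow_add hmp]
  congr 2
  ring

end PVZ

end
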