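import Pool.Agent.PV.Defs
import Pool.Agent.PV.SpV
import Pool.Agent.PB.InsTwo
import Pool.Agent.PB.ParZ
import Pool.Agent.PB.InsInst

/-!
# Plan V: the straight lines, the state sum and the transfer at the class functions with anti-legs

* `LV_eq'`, `ZV_eq'`: the factor and the class functions of `PV/Defs` are those of `PV/SpV`;
* `clZ_ZV`, **`ins_ZV`**: products of statistics on the straight lines and on the curves;
* **`F0_DZV`**: the functional `F0 .. 1` of the straight lines is the state sum;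
* `nv_F0`: `nv z z' x x = PfV * ∑ n, F0 .. 1`, any cutoff points.
-/

set_option autoImplicit false
set_option linter.unusedSectionVars false

noncomputable section

open Complex MeasureTheory Finset
open scoped ENNReal

namespace PVI

open NUO NUP1 NUCR NUP1S NUP1S.Ab NUP1S.AbC NURow NUGC PBX PBF PBFunc PBC
open PBI (Stt F0 F0Ok fl)
open Pool.Agent.PB (cn)

variable {m : ℕ} {P : NUO.Par} {ep β x0 : ℝ} {x : Fin m → ℂ} {ex ex0 : List ℂ} {z z' : ℂ}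

theorem LV_eq' (z z' : ℂ) : PV.LV z z' = PVS.LgV z z' := by
  funext u
  rw [PVS.LgV_eq]
  rfl

theorem ZV_eq' (β : ℝ) (x : Fin m → ℂ) (ex ex0 : List ℂ) (z z' : ℂ) :
    PV.ZV β x ex ex0 z z' = PVS.ZV β x ex ex0 z z' := by
  unfold PV.ZV PVS.ZV
  rw [LV_eq']

/-- **the class** -/
theorem clZ_ZV (hP : ParC P) (hep0 : 0 < ep) (hep : ep ≤ 1 / 100) (hβ : 0 < β) (hβ' : β ≤ 4 / 3)
    (hx : Rws x) (hex : ∀ w ∈ ex, |w.re| ≤ NUP1.l / 2) (hex0 : ∀ w ∈ ex0, |w.re| ≤ NUP1.l / 2)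
    (h1 : -(9 / 10 * NUP1.l) ≤ z.re) (h2 : z.re < 37 / 10 * NUP1.l)
    (h3 : |z'.re| < 7 / 10 * NUP1.l) :
    ClZ (PV.ZV β x ex ex0 z z') P (3 / 5 * NUP1.l) (2 * β) (2 * β) (ep / 4) 0 := by
  have hl := Bd.l_pos
  rw [ZV_eq']
  refine clZ_of (PVS.oneC_ZV le_rfl (by linarith) hP hep0 hep hβ hβ' hx hex ex0 h1 h2 h3) ?_ hep0.le
  have := PVS.decZ_ZV (β := β) hP hβ hβ' hx hex hex0 (z := z) (z' := z') (by linarith) h2 h3
  rwa [Int.cast_zero]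

/-- **products of statistics at the class functions with anti-legs** -/
theorem ins_ZV (hP : ParC P) (hρ : ∀ r, ∃ ρ0, 0 < ρ0 ∧ ∀ t, ρ0 ≤ P.rad r t)
    (hep0 : 0 < ep) (hep : ep ≤ 1 / 100) (hβ : 0 < β) (hβ' : β ≤ 4 / 3) (hx : Rws x)
    (hex : ∀ w ∈ ex, |w.re| ≤ NUP1.l / 2) (hex0 : ∀ w ∈ ex0, |w.re| ≤ NUP1.l / 2)
    (h1 : -(9 / 10 * NUP1.l) ≤ z.re) (h2 : z.re < 37 / 10 * NUP1.l)
    (h3 : |z'.re| < 7 / 10 * NUP1.l) {n : ℕ} {η η' : Crs} (hc : MCr η η')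
    (hη : ∀ r ≤ n + n, ∀ O, CurB ep (η r O) (η' r O)) {L : List Stt}
    (hL : ∀ a ∈ L, AdS P (3 / 5 * NUP1.l) (ep / 4) a)
    (hf : FA (PV.ZV β x ex ex0 z z') P n n η η' (fun _ _ _ _ _ => 1) < ∞) :
    F0 (3 / 5 * NUP1.l) n n (fl P) (PV.ZV β x ex ex0 z z') (pSt L) =
        FF (PV.ZV β x ex ex0 z z') P n n η η' (pStA L P η) ∧
      PBI.F0Ok (3 / 5 * NUP1.l) n n (fl P) (PV.ZV β x ex ex0 z z') (pSt L) ∧ MIn (pStA L P η) ∧
      FA (PV.ZV β x ex ex0 z z') P n n η η' (pStA L P η) < ∞ :=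
  ins_listA (insQ_of (κ := 2 * β) (κ' := 2 * β) (Q := 0) hP hρ hep0 hep (by linarith) (by simp) hc hη)
    hL (clZ_ZV hP hep0 hep hβ hβ' hx hex hex0 h1 h2 h3) hf

/-- **the functional of the straight lines is the state sum**, any cutoff points -/
theorem F0_DZV (hP : ParC P) (hβ : 0 < β) (hβ' : β ≤ 4 / 3) (hx : Rws x)
    (hex : ∀ w ∈ ex, |w.re| ≤ NUP1.l / 2) (hex0 : ∀ w ∈ ex0, |w.re| ≤ NUP1.l / 2)
    (h1 : -(NUP1.l) < z.re) (h2 : z.re < 37 / 10 * NUP1.l) (h3 : |z'.re| < 7 / 10 * NUP1.l)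
    (n : ℕ) :
    F0 (3 / 5 * NUP1.l) n n (fl P) (PV.ZV β x ex ex0 z z') (fun _ _ _ _ => 1) =
      DZ (Leg.cc m) (Leg.cc m) (PV.LV z z') (PV.LV z z') x x n := by
  have hl := Bd.l_pos
  have hg := PBX.GOk.gP hβ hβ' hex
  have hg0 := PBX.GOk.gP (β := 4 / 3) (by norm_num) le_rfl hex0
  have L : LnH (lX P) (lY P) := LnH_P hP.goodP hP.j1 hP.j2 fun r => by
    have h3 := hP.e2 r
    have h4 := hP.d0 r
    linarith
  have e := PBX.DZ_cls (c := Leg.cc m) (c' := Leg.cc m) (s := PVS.LgV z z') (t := PVS.LgV z z')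
    hβ hβ' hx hx (g := gP β ex) (g' := gP β ex) (g0 := gP (4 / 3) ex0) (g0' := gP (4 / 3) ex0)
    hg hg hg0 hg0 (PVS.LgV_SpA (by linarith) (by linarith) h3)
    (PVS.LgV_SpA (by linarith) (by linarith) h3) (PVS.LgV_SpecQ true h1 h2 h3)
    (PVS.LgV_SpecQ false h1 h2 h3) n (lX P) (lY P) L.hX L.hY
  rw [LV_eq', e, ZV_eq']
  exact PBI.F0_ZobjQ (Q := 0) hP.goodQ (by linarith) (by linarith : (0 : ℝ) < 2 * β)
    (fun s k => PVS.measurable_ZV β _ _ _ z z' s k)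
    (by
      rw [Int.cast_zero]
      exact PVS.decZ_ZV hP hβ hβ' hx hex hex0 h1 h2 h3) (by simp)

/-- **the function is the functional of the straight lines**, any cutoff points -/
theorem nv_F0 (hP : ParC P) (hβ : 0 < β) (hβ' : β ≤ 4 / 3) (hx : Rws x)
    (hex : ∀ w ∈ ex, |w.re| ≤ NUP1.l / 2) (hex0 : ∀ w ∈ ex0, |w.re| ≤ NUP1.l / 2)
    (h1 : -(NUP1.l) < z.re) (h2 : z.re < 37 / 10 * NUP1.l) (h3 : |z'.re| < 7 / 10 * NUP1.l) :
    PV.nv z z' x x = PV.PfV z z' x x * ∑ n ∈ range (2 * m + 1),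
      F0 (3 / 5 * NUP1.l) n n (fl P) (PV.ZV β x ex ex0 z z') (fun _ _ _ _ => 1) := by
  unfold PV.nv
  congr 1
  refine Finset.sum_congr rfl fun n _ => ?_
  rw [F0_DZV hP hβ hβ' hx hex hex0 h1 h2 h3 n]
  rfl

end PVI

end
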