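import Pool.Agent.PV.ZFamW
import Pool.Agent.PV.CutV
import Pool.Agent.PV.InsV

/-!
# Plan V: the cut term of the first Ward identity, final form (helper17)

* `ZRV_ZV` : the family `ZRV` at the height `η` of the row is `PV.ZV`, cutoff points `vx`;
* **`F0_ZRV`** : the functional of the straight lines is the state sum, near `η0`;
* **`cutAllV`** : rows `i η0, 0, …, 0`, legs at `z`, anti-legs at `0`: the cut term of the first Ward identity is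
  `≤ (k + 1) ^ (- 2 + d) (k + 1) ^ (3/4) exp (4 |Im z|)`.
-/

set_option autoImplicit false
set_option maxHeartbeats 400000
set_option linter.unusedSectionVars false
set_option linter.unusedVariables false

noncomputable section

open Complex MeasureTheory Finset Filter Topology
open scoped ENNReal

namespace PVZ

open NUO NUP1 NUP1S NUP1S.Ab NUP1S.AbC NUGC PBF PBI PBT
open NURow (RR)
open PBX (obX XX Lg gP Rws DZ)
open PBZF (Lz rad rad_pos)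
open PVS (LgV LgV_eq)
open PV (lamV PfV LV)

attribute [local instance] NUSea.seaP

/-- **the family is `PV.ZV`** at every height of the row -/
theorem ZRV_ZV (b : ℝ) (a : ℕ) (z z' : ℂ) (η0 : ℝ) (v : Fin 2 → ℂ) (η : ℝ) :
    ZRV (fun _ => Leg.cc (a + 1)) b a z z' η0 v η =
      PV.ZV b (PBZF.rwx a (η : ℂ)) [PBZF.vx η0 v (η : ℂ) 0, PBZF.vx η0 v (η : ℂ) 1] [] z z' := by
  funext s o u
  unfold ZRV
  rcases o with _ | (_ | _ | _)
  · show RR (Leg.cc (a + 1)) _ _ u * PBX.ph b _ _ u * Lg z z u * PV.Ga z' u =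
      RR (Leg.cc (a + 1)) _ _ u * PBX.ph b _ _ u * LV z z' u
    rw [PV.LV_Ga]
    exact mul_assoc _ _ _
  · show RR (Leg.cc (a + 1)) _ _ u * PBX.ph b _ _ u * Lg z z u * PV.Ga z' u =
      RR (Leg.cc (a + 1)) _ _ u * PBX.ph b _ _ u * LV z z' u
    rw [PV.LV_Ga]
    exact mul_assoc _ _ _
  · show RR (Leg.cc (a + 1)) _ _ u * RR (Leg.cc (a + 1)) _ _ (u - NUP1.l) *
      PBX.ph (4 / 3) _ _ u * (Lg z z u * Lg z z (u - NUP1.l)) *
      (PV.Ga z' u * PV.Ga z' (u - NUP1.l)) =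
      RR (Leg.cc (a + 1)) _ _ u * RR (Leg.cc (a + 1)) _ _ (u - NUP1.l) *
      PBX.ph (4 / 3) _ _ u * (LV z z' u * LV z z' (u - NUP1.l))
    rw [PV.LV_Ga, PV.LV_Ga]
    have e : ∀ p q r s t : ℂ, p * (q * r) * (s * t) = p * (q * s * (r * t)) := by
      intros
      ring
    exact e _ _ _ _ _
  · show PBX.TT (Leg.cc (a + 1)) b (4 / 3) _ _ _ _ u * (Lg z z u * Lg z z (u - NUP1.l)) *
      (PV.Ga z' u * PV.Ga z' (u - NUP1.l)) =
      PBX.TT (Leg.cc (a + 1)) b (4 / 3) _ _ _ _ u * (LV z z' u * LV z z' (u - NUP1.l))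
    rw [PV.LV_Ga, PV.LV_Ga]
    have e : ∀ p q r s t : ℂ, p * (q * r) * (s * t) = p * (q * s * (r * t)) := by
      intros
      ring
    exact e _ _ _ _ _

/-- **the functional of the straight lines is the state sum** -/
theorem F0_ZRV {P : NUO.Par} (hP : ParC P) {b : ℝ} (hb : 0 < b) (hb' : b ≤ 4 / 3) (a : ℕ)
    {z z' : ℂ} (hz : Lz z) (hz' : |z'.re| < 7 / 10 * NUP1.l) {η0 : ℝ} (v : Fin 2 → ℂ) {η : ℝ}
    (hη : η ∈ Metric.ball η0 (rad v / 2)) (n : ℕ) :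
    F0 (3 / 5 * NUP1.l) n n (fl P) (ZRV (fun _ => Leg.cc (a + 1)) b a z z' η0 v η)
        (fun _ _ _ _ => 1) =
      DZ (Leg.cc (a + 1)) (Leg.cc (a + 1)) (LV z z') (LV z z') (PBZF.rwx a (η : ℂ))
        (PBZF.rwx a (η : ℂ)) n := by
  have hl := Bd.l_pos
  obtain ⟨hT, -, -⟩ := PBZF.SB_box (PBZF.mem_SB' (η0 := η0) (v := v) hη)
  have hx : Rws (PBZF.rwx a (η : ℂ)) := fun i =>
    (PBZF.rwx_re (a := a) (PBZF.real_Th η) i).trans (by linarith)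
  rw [ZRV_ZV]
  refine PVI.F0_DZV hP hb hb' hx ?_ ?_ ?_ ?_ hz' n
  · intro w hw
    rw [List.mem_cons, List.mem_singleton] at hw
    rcases hw with rfl | rfl
    · exact hT.v0.trans (by linarith)
    · exact hT.v1.trans (by linarith)
  · intro w hw
    exact absurd hw (List.not_mem_nil)
  · linarith [hz.a]
  · linarith [hz.b]

/-- the same, as a germ -/
theorem F0_ZRV_ev {P : NUO.Par} (hP : ParC P) {b : ℝ} (hb : 0 < b) (hb' : b ≤ 4 / 3) (a : ℕ)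
    {z z' : ℂ} (hz : Lz z) (hz' : |z'.re| < 7 / 10 * NUP1.l) (η0 : ℝ) (v : Fin 2 → ℂ)
    (S : Finset ℕ) : ∀ᶠ η : ℝ in 𝓝 η0, ∀ n ∈ S,
    F0 (3 / 5 * NUP1.l) n n (fl P) (ZRV (fun _ => Leg.cc (a + 1)) b a z z' η0 v η)
        (fun _ _ _ _ => 1) =
      DZ (Leg.cc (a + 1)) (Leg.cc (a + 1)) (LV z z') (LV z z') (PBZF.rwx a (η : ℂ))
        (PBZF.rwx a (η : ℂ)) n := by
  have hr := rad_pos v
  filter_upwards [Metric.ball_mem_nhds η0 (by positivity : 0 < rad v / 2)] with η hη n _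
  exact F0_ZRV hP hb hb' a hz hz' v hη n

/-- **the cut term of the first Ward identity** -/
theorem cutAllV (hS : NUStabP.StabProd) {d : ℝ} (hd : 0 < d) : ∃ a0 : ℝ, 0 < a0 ∧
    ∀ ep : ℝ, 0 < ep → ep ≤ 1 / 100 → ∀ e1 : ℝ, 0 < e1 → e1 ≤ 1 / 100 → ∀ J : ℝ, 0 ≤ J →
    Real.exp (-(2 * Real.pi * J)) + 3 * e1 + 3 * ep ≤ a0 →
    ∃ m0 : ℕ, ∀ k : ℕ, m0 ≤ k → ∀ η0 : ℝ, |η0| ≤ 1 → ∀ z : ℂ, Lz z →
      |z.im| ≤ 3 / 20 * Real.log (k + 1 : ℕ) + 2 → ∀ cc : Bool → ℂ,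
      (∀ a, ‖cc a‖ = 2 * Real.cos NUP1.l) → ∀ v : Fin 2 → ℂ,
      v = PBFar.vI (4 / 3 * (1 - ep)) k ((η0 : ℂ) * I) I (PBFar.xe k η0) →
      ‖PfV z 0 (PBZF.rwx k (η0 : ℂ)) (PBZF.rwx k (η0 : ℂ)) *
        ∑ n ∈ range (2 * (k + 1) + 1), F0D (3 / 5 * NUP1.l) n n (fl (pL (k + 1)))
          (ZRV cc (4 / 3 * (1 - ep)) k z 0 η0 v η0)
          (Zcut (ZRV cc (4 / 3 * (1 - ep)) k z 0 η0 v η0)
            (ZdRV cc (4 / 3 * (1 - ep)) k z 0 η0 v η0)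
            (ZpRV cc (4 / 3 * (1 - ep)) k z 0 η0 v)
            (PBQ1.xiK (PBZF.rwx k (η0 : ℂ)) 0) (PBQ1.krK (PBZF.rwx k (η0 : ℂ)))
            (PBQ1.r1K (PBZF.rwx k (η0 : ℂ)) 0) (lamV z 0))‖ ≤
        ((k + 1 : ℕ) : ℝ) ^ (-2 + d) *
          (((k + 1 : ℕ) : ℝ) ^ (3 / 4 : ℝ) * Real.exp (4 * |z.im|)) := by
  obtain ⟨a0, ha0, HT⟩ := cutV0 hS hd
  refine ⟨a0, ha0, fun ep hep hep1 e1 he he1 J hJ hsm => ?_⟩
  obtain ⟨m0, HT⟩ := HT ep hep hep1 e1 he he1 J hJ hsm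
  refine ⟨m0, fun k hk η0 hη0 z hz z3 cc hcc v hv => ?_⟩
  have hl := NUP1.l_pos
  obtain ⟨Zd, hZd⟩ : ∃ Zd : Stt, Zd = Zcut (ZRV cc (4 / 3 * (1 - ep)) k z 0 η0 v η0)
            (ZdRV cc (4 / 3 * (1 - ep)) k z 0 η0 v η0)
            (ZpRV cc (4 / 3 * (1 - ep)) k z 0 η0 v)
            (PBQ1.xiK (PBZF.rwx k (η0 : ℂ)) 0) (PBQ1.krK (PBZF.rwx k (η0 : ℂ)))
            (PBQ1.r1K (PBZF.rwx k (η0 : ℂ)) 0) (lamV z 0) := ⟨_, rfl⟩
  have hline : ∀ n ∈ range (2 * (k + 1) + 1),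
      AllW (3 / 5 * NUP1.l) n n (Lfin (pL (k + 1))) fun c x => ∀ i, ∀ t : ℝ,
        Zd (c i).1 (c i).2 (vl (x i) t) =
          ZcLV cc k (4 / 3 * (1 - ep)) η0 z 0 (PBForce.xiR (PBFar.rwx k η0) 0)
            (c i).1 (c i).2 (vl (x i) t) := by
    intro n _
    have h1 := zcut_KV (a := k) (b := 4 / 3 * (1 - ep)) (z := z) (z' := 0) cc (by linarith)
      (by linarith) hz (by rw [Complex.zero_re, abs_zero]; positivity) η0 (PBFar.xe k η0)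
      (α := 3 / 5 * NUP1.l) le_rfl (by linarith) (L := Lfin (pL (k + 1)))
      (NURow.LnH_P (parZ_parC (k + 1)).goodP (parZ_parC (k + 1)).j1 (parZ_parC (k + 1)).j2
        fun r => by
          have h3 := (parZ_parC (k + 1)).e2 r
          have h4 := (parZ_parC (k + 1)).d0 r
          linarith) n
    rw [← hv, ← hZd] at h1
    intro p p' w w' g1 g2 i t
    exact h1 p p' w w' g1 g2 i t
  have key := HT k hk η0 hη0 z hz.a (by linarith [hz.b]) z3 cc hcc Zd hline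
  rw [← hZd, ZRV_V]
  exact key

end PVZ

end
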