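import Pool.Agent.PB.CutBd
import Pool.Agent.PB.CutZ
import Pool.Agent.PB.UXof
import Pool.Agent.PB.TopD

/-!
# The cut term of the first Ward identity for a family (helper17)

* `gasF`: the tilted gas of a family with an admissible environment (`EnvF`), no statistic;
* `ValF F lin`: the value of the family against the bound `F.bd`;
* **`cutSupF`**: perturbed one body functions `Z` with data `obE (B ep m i) δ₀ M`, `δ₀ ≤ 1 / m`:
  `‖Pf‖ ∑ n ≤ 2 m, FE Z 1 ≤ m ^ δ bd`;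
* **`cutFinF`**: `‖Pf ∑ n ∈ S, F0D n Z Zd‖ ≤ m ^ δ bd / E` (product form of `Z`, any spectators).
-/

set_option autoImplicit false
set_option linter.unusedSectionVars false

noncomputable section

open Complex MeasureTheory Finset
open scoped ENNReal

namespace PBT

open NUO NUP1 NUP1S NUP1S.Ab NUP1S.AbC NUGC PBF PBI
open NURow (SpecQ)
open PBX (obX XX Lg gP Rws obX_nn)
open PBP (gT)
open PBU (Fam EnvF cr cr' FS)
open PotH (crH oneEH gasI)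

section gen

variable [NUSea.Sea] {ι : Type}

/-- **the tilted gas of a family with an admissible environment** -/
theorem gasF {F : Fam ι} {B : ℝ → ℕ → ι → OB} {lin : ℝ → ℝ → ℕ → ι → ℝ} (hE : EnvF F B lin) :
    ∃ K Ca : ℝ, 0 ≤ K ∧ 0 ≤ Ca ∧ ∀ kap : ℝ, 0 < kap → ∀ ep : ℝ, 0 < ep → ep ≤ 1 / 100 →
    ∀ e1 : ℝ, 0 < e1 → e1 ≤ 1 / 100 → ∀ J : ℝ, 0 ≤ J → ∀ δ : ℝ, 0 < δ →
    ∃ d Cst : ℝ, 0 < d ∧ 0 ≤ Cst ∧ ∃ m0 : ℕ, ∀ m : ℕ, m0 ≤ m → ∀ i : ι, F.ok m i →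
    ∀ b' : ℝ, |b'| ≤ d → ∀ n ≤ 3 * m, ∀ r ≤ 2 * n, ∀ O : Fin r → Xo,
      chgO O true ≤ n → chgO O false ≤ n →
      ENNReal.ofReal (Real.exp (b' * ((m : ℝ) - n))) *
        gasI (B ep m i) (NUSea.O.par0 m) (etaC e1 J m m) (etaC' e1 J m m) O
          (n - chgO O true) (n - chgO O false) (fun _ => 1) ≤
      ENNReal.ofReal (Cst * (m : ℝ) ^ (3 / 8 + Ca * (ep + e1) + δ) *
        Real.exp (lin e1 J m i + (∑ j, oneEH m (etaC e1 J m m) (TW ep e1 m) O j + K * r +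
          NUStabP.enC O + kap * NUDispW.win univ fun j => ht (O j)))) := by
  obtain ⟨B0, N0, hB0, hN0, HE⟩ := hE
  obtain ⟨K, Ca, hK, hCa, HG⟩ := gas_S4H B0 N0 hB0 hN0
  refine ⟨K, Ca, hK, hCa, ?_⟩
  intro kap hkap ep hep hep1 e1 he he1 J hJ δ hδ
  obtain ⟨Cc, C0, hCc, hC0, mE, HE⟩ := HE ep hep hep1 e1 he he1 J hJ
  obtain ⟨d, Cst, hd, hCst, mG, HG⟩ := HG kap hkap ep hep hep1 e1 he he1 Cc C0 hCc hC0 δ hδ
  refine ⟨d, Cst, hd, hCst, max mE mG, ?_⟩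
  intro m hm i hi b' hb' n hn r hr O h1 h2
  have k1 : mE ≤ m := (le_max_left _ _).trans hm
  have k2 : mG ≤ m := (le_max_right _ _).trans hm
  obtain ⟨cf, Bc, Bc', H, H', hEnv, hlin⟩ := HE m k1 i hi
  have hEnv' : PotH.EnvH ep e1 Cc C0 B0 N0 d m (etaC e1 J m m) (etaC' e1 J m m) cf Bc Bc' H H'
      (B ep m i) g0 := hEnv d hd.le
  refine (HG m k2 _ _ cf Bc Bc' _ H' _ hEnv' n hn b' hb' r O hr h1 h2).trans
    (ENNReal.ofReal_le_ofReal ?_)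
  refine mul_le_mul_of_nonneg_left (Real.exp_le_exp.2 ?_) (by positivity)
  have hlin' : linE (etaC e1 J m m) (etaC' e1 J m m) m H ≤ lin e1 J m i := hlin
  linarith

/-- **the value of a family** -/
def ValF (F : Fam ι) (lin : ℝ → ℝ → ℕ → ι → ℝ) : Prop :=
  ∀ e1 : ℝ, 0 < e1 → e1 ≤ 1 / 100 → ∀ J : ℝ, 0 ≤ J → ∃ CV : ℝ, 0 ≤ CV ∧ ∃ m0 : ℕ, ∀ m : ℕ,
    m0 ≤ m → ∀ i : ι, F.ok m i → ‖F.Pf m i‖ * Real.exp (lin e1 J m i) ≤
      CV * Real.exp (-((1 - e1) * Tb (Real.log m))) * F.bd m i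

end gen

attribute [local instance] NUSea.seaP

variable {ι : Type}

/-- **the supremum over the perturbations** -/
theorem cutSupF (hS : NUStabP.StabProd) {F : Fam ι} {B : ℝ → ℕ → ι → OB}
    {lin : ℝ → ℝ → ℕ → ι → ℝ} (hE : EnvF F B lin) (hV : ValF F lin)
    (hnn : ∀ ep m i, (B ep m i).Nn) (hbd : ∀ m, 1 ≤ m → ∀ i, 0 < F.bd m i) :
    ∃ K' : ℝ, ∀ C c : ℝ, 0 < C → 0 < c → ∀ δ : ℝ, 0 < δ → ∃ a0 : ℝ, 0 < a0 ∧
    ∀ ep : ℝ, 0 < ep → ep ≤ 1 / 100 → ∀ e1 : ℝ, 0 < e1 → e1 ≤ 1 / 100 → ∀ J : ℝ, 0 ≤ J →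
    Real.exp (-(2 * Real.pi * J)) + 3 * e1 + 3 * ep ≤ a0 →
    ∃ m0 : ℕ, ∀ m : ℕ, m0 ≤ m → ∀ i : ι, F.ok m i →
      ∀ (Z : Bool → Option O3 → ℂ → ℂ) (δ₀ : ℝ) (M : ℝ → ℝ) (κ x0 : ℝ) (Qc : ℤ) (E : Set ℝ),
      0 ≤ δ₀ → δ₀ ≤ 1 / (m : ℝ) →
      OneC Z (PBC.obE (B ep m i) δ₀ M) (pL m) ep κ x0 Qc E →
      OneB C c K' ep e1 J m (PBC.obE (B ep m i) δ₀ M) →
      ENNReal.ofReal ‖F.Pf m i‖ * ∑ n ∈ range (2 * m + 1), FE Z (pL m) n n
          (crL e1 J m) (crL' e1 J m) (fun _ _ _ _ _ => 1) ≤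
        ENNReal.ofReal ((m : ℝ) ^ δ * F.bd m i) := by
  obtain ⟨K, Ca, -, hCa, hG⟩ := gasF hE
  obtain ⟨K', c1, hc1, HT⟩ := topB hS K 0
  refine ⟨K', fun C c hC hc δ hδ => ?_⟩
  obtain ⟨a0, ha0, HT⟩ := HT C c 0 hC hc le_rfl (δ / 4) (by linarith)
  refine ⟨min a0 (δ / (4 * (Ca + 1))), lt_min ha0 (by positivity),
    fun ep hep hep1 e1 he he1 J hJ hsm => ?_⟩
  have hsm1 : Real.exp (-(2 * Real.pi * J)) + 3 * e1 + 3 * ep ≤ a0 := hsm.trans (min_le_left _ _)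
  have hCa1 : Ca * (ep + e1) ≤ δ / 4 := by
    have h1 := hsm.trans (min_le_right _ _)
    have h2 := Real.exp_pos (-(2 * Real.pi * J))
    have h3 : ep + e1 ≤ δ / (4 * (Ca + 1)) := by linarith
    calc Ca * (ep + e1) ≤ (Ca + 1) * (δ / (4 * (Ca + 1))) :=
          mul_le_mul (by linarith) h3 (by linarith) (by linarith)
      _ = δ / 4 := by field_simp
  obtain ⟨mt, HT⟩ := HT ep hep hep1 e1 he he1 J hJ hsm1
  obtain ⟨CV, hCV, mv, HV⟩ := hV e1 he he1 J hJ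
  obtain ⟨d, Cst, hd, hCst, mg, HG⟩ := hG c1 hc1 ep hep hep1 e1 he he1 J hJ (δ / 4) (by linarith)
  obtain ⟨X, hX⟩ : ∃ X : ℝ, X = CV * (Real.exp 4 * Cst) * (2 / (1 - Real.exp (-d))) := ⟨_, rfl⟩
  have t1 : Filter.Tendsto (fun m : ℕ => (m : ℝ) ^ (δ / 4)) Filter.atTop Filter.atTop :=
    (tendsto_rpow_atTop (by linarith : 0 < δ / 4)).comp tendsto_natCast_atTop_atTop
  obtain ⟨mx, hmx⟩ := Filter.eventually_atTop.1 (t1.eventually_ge_atTop X)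
  refine ⟨max (max mt mv) (max (max mg mx) 1), fun m hm i hi Z δ₀ M κ x0 Qc E h0 h1 hone hact
    => ?_⟩
  have k1 : mt ≤ m := (le_max_left _ _).trans ((le_max_left _ _).trans hm)
  have k2 : mv ≤ m := (le_max_right _ _).trans ((le_max_left _ _).trans hm)
  have k3 : mg ≤ m := (le_max_left _ _).trans ((le_max_left _ _).trans ((le_max_right _ _).trans hm))
  have k4 : mx ≤ m := (le_max_right _ _).trans ((le_max_left _ _).trans ((le_max_right _ _).trans hm))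
  have k5 : 1 ≤ m := (le_max_right _ _).trans ((le_max_right _ _).trans hm)
  have hm1 : (1 : ℝ) ≤ (m : ℝ) := by exact_mod_cast k5
  have hmp : (0 : ℝ) < (m : ℝ) := by linarith
  have hQ0 : 0 ≤ Real.exp 4 * Cst * (m : ℝ) ^ (3 / 8 + Ca * (ep + e1) + δ / 4) := by
    positivity
  have hb := hbd m k5 i
  have key := HT m k1 Z (PBC.obE (B ep m i) δ₀ M) κ x0 Qc E hone
    (PBC.obE_nn (hnn ep m i) h0) hact ‖F.Pf m i‖
    (lin e1 J m i) (Real.log (F.bd m i)) CV (norm_nonneg _) hCV (by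
      rw [Real.exp_add, Real.exp_log hb, ← mul_assoc]
      exact HV m k2 i hi)
    (fun _ _ _ _ _ _ => 1) (fun _ _ _ => 1)
    (Real.exp 4 * Cst * (m : ℝ) ^ (3 / 8 + Ca * (ep + e1) + δ / 4)) 1 d hQ0 zero_le_one
    hd ?_ ?_
  · refine key.trans (ENNReal.ofReal_le_ofReal ?_)
    rw [Real.exp_log hb]
    obtain ⟨D, hD⟩ : ∃ D, D = 2 / (1 - Real.exp (-d)) := ⟨_, rfl⟩
    have hD0 : 0 ≤ D := by
      rw [hD]
      have : Real.exp (-d) < 1 := by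
        rw [← Real.exp_zero]; exact Real.exp_lt_exp.2 (by linarith)
      exact div_nonneg (by norm_num) (by linarith)
    rw [← hD] at hX ⊢
    have e1' : (m : ℝ) ^ (3 / 8 + Ca * (ep + e1) + δ / 4) *
        (m : ℝ) ^ (-(3 / 8 : ℝ) + δ / 4) ≤ (m : ℝ) ^ (3 / 4 * δ) := by
      rw [← Real.rpow_add hmp]
      exact Real.rpow_le_rpow_of_exponent_le hm1 (by linarith)
    have e2 : X * (m : ℝ) ^ (3 / 4 * δ) ≤ (m : ℝ) ^ δ := by
      calc X * (m : ℝ) ^ (3 / 4 * δ) ≤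
          (m : ℝ) ^ (δ / 4) * (m : ℝ) ^ (3 / 4 * δ) :=
            mul_le_mul_of_nonneg_right (hmx m k4) (Real.rpow_nonneg hmp.le _)
        _ = (m : ℝ) ^ δ := by
            rw [← Real.rpow_add hmp]
            congr 1
            ring
    have hX0 : 0 ≤ X := by rw [hX]; positivity
    calc CV * 1 * (Real.exp 4 * Cst * (m : ℝ) ^ (3 / 8 + Ca * (ep + e1) + δ / 4)) *
          (m : ℝ) ^ (-(3 / 8 : ℝ) + δ / 4) * F.bd m i * D
        = X * ((m : ℝ) ^ (3 / 8 + Ca * (ep + e1) + δ / 4) *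
          (m : ℝ) ^ (-(3 / 8 : ℝ) + δ / 4)) * F.bd m i := by
          rw [hX]
          ring
      _ ≤ X * (m : ℝ) ^ (3 / 4 * δ) * F.bd m i := by gcongr
      _ ≤ _ := mul_le_mul_of_nonneg_right e2 hb.le
  · intro n _ r _ O
    refine ⟨zero_le_one, ?_⟩
    have hs : 0 ≤ ∑ i, gT e1 (Real.log m) (ht (O i)) :=
      Finset.sum_nonneg fun i _ => PBP.gT_nonneg _ _ _
    have h2 : (if (r : ℝ) ≤ Real.log m then (1 : ℝ) else
        1 * Real.exp (0 * Real.log m)) = 1 := by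
      split_ifs
      · rfl
      · rw [zero_mul, Real.exp_zero, one_mul]
    rw [h2, zero_mul, Real.exp_zero, one_mul, one_mul]
    exact Real.one_le_exp hs
  · intro b' hb' n hn r hr O g1 g2
    rw [gasI_obE _ _ h0]
    have hN : (n - chgO O true) + (n - chgO O false) ≤ 4 * m := by omega
    have hp := pow_obE_le h0 k5 hN h1
    have hg := HG m k3 i hi b' hb'.le n (by omega) r hr O g1 g2
    have eL : etL e1 J m = etaC e1 J m m := rfl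
    have eL' : etL' e1 J m = etaC' e1 J m m := rfl
    rw [eL, eL']
    obtain ⟨G, hGd⟩ : ∃ G, G = PotH.gasI (B ep m i) (pL m)
      (etaC e1 J m m) (etaC' e1 J m m) O (n - chgO O true) (n - chgO O false)
      (fun _ => 1) := ⟨_, rfl⟩
    rw [← hGd] at hg ⊢
    calc ENNReal.ofReal (Real.exp (b' * ((m : ℝ) - n))) *
          (ENNReal.ofReal ((1 + δ₀) ^ (n - chgO O true + (n - chgO O false))) * G)
        = ENNReal.ofReal ((1 + δ₀) ^ (n - chgO O true + (n - chgO O false))) *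
          (ENNReal.ofReal (Real.exp (b' * ((m : ℝ) - n))) * G) := by ring
      _ ≤ ENNReal.ofReal (Real.exp 4) * ENNReal.ofReal (Cst *
          (m : ℝ) ^ (3 / 8 + Ca * (ep + e1) + δ / 4) *
          Real.exp (lin e1 J m i +
            (∑ i, oneEH m (etaC e1 J m m) (TW ep e1 m) O i + K * r +
              NUStabP.enC O + c1 * NUDispW.win univ fun i => ht (O i)))) :=
          mul_le_mul' (ENNReal.ofReal_le_ofReal hp) hg
      _ = _ := by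
          rw [← ENNReal.ofReal_mul (Real.exp_pos 4).le]
          congr 1
          ring

/-- **the cut term**: Cauchy's estimate with the radius `E`, any spectators -/
theorem cutFinF (hS : NUStabP.StabProd) {F : Fam ι} {B : ℝ → ℕ → ι → OB}
    {lin : ℝ → ℝ → ℕ → ι → ℝ} (hE : EnvF F B lin) (hV : ValF F lin)
    (hnn : ∀ ep m i, (B ep m i).Nn) (hbd : ∀ m, 1 ≤ m → ∀ i, 0 < F.bd m i) :
    ∃ K' : ℝ, ∀ C c : ℝ, 0 < C → 0 < c → ∀ δ : ℝ, 0 < δ → ∃ a0 : ℝ, 0 < a0 ∧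
    ∀ ep : ℝ, 0 < ep → ep ≤ 1 / 100 → ∀ e1 : ℝ, 0 < e1 → e1 ≤ 1 / 100 → ∀ J : ℝ, 0 ≤ J →
    Real.exp (-(2 * Real.pi * J)) + 3 * e1 + 3 * ep ≤ a0 →
    ∃ m0 : ℕ, ∀ m : ℕ, m0 ≤ m → ∀ i : ι, F.ok m i →
      ∀ (cc : Bool → ℂ) (rw : Fin m → ℂ) (ex : List ℂ) (s1 s2 : ℂ → ℂ), Rws rw →
      (∀ w ∈ ex, |w.re| ≤ NUP1.l / 2) → (∀ a, SpecQ a 0 s1 s2) →
      (∀ a, SpecAt (3 / 5 * NUP1.l) a 0 s1) → ∀ Es : Set ℝ,
      OneC (fun a => XX (cc a) (4 / 3 * (1 - ep)) rw rw (gP (4 / 3 * (1 - ep)) ex)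
        (gP (4 / 3) []) s1 s2) (B ep m i) (pL m) ep (2 * (4 / 3 * (1 - ep))) (3 / 5 * NUP1.l) 0 Es →
      ∀ (Zd Zc : Stt) (δ₀ E cz : ℝ) (Mz M : ℝ → ℝ) (Cz D : ℝ) (S : Finset ℕ),
      0 ≤ δ₀ → δ₀ ≤ 1 / (m : ℝ) → 0 < E → 0 ≤ Cz →
      PBC.CutZ (fun a => XX (cc a) (4 / 3 * (1 - ep)) rw rw (gP (4 / 3 * (1 - ep)) ex)
        (gP (4 / 3) []) s1 s2) Zc (B ep m i) (pL m) ep
        (2 * (4 / 3 * (1 - ep))) (3 / 5 * NUP1.l) 0 Es cz Mz →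
      E * cz ≤ δ₀ → (∀ t, E * Mz t ≤ M t) →
      OneB C c K' ep e1 J m (PBC.obE (B ep m i) δ₀ M) →
      ZcOk (fun a => XX (cc a) (4 / 3 * (1 - ep)) rw rw (gP (4 / 3 * (1 - ep)) ex)
        (gP (4 / 3) []) s1 s2) Zc (pL m) (3 / 5 * NUP1.l)
        (2 * (4 / 3 * (1 - ep))) (ep / 4) Cz D →
      S ⊆ range (2 * m + 1) →
      (∀ n ∈ S, AllW (3 / 5 * NUP1.l) n n (Lfin (pL m)) fun c x => ∀ i, ∀ t : ℝ,
        Zd (c i).1 (c i).2 (vl (x i) t) = Zc (c i).1 (c i).2 (vl (x i) t)) →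
      ‖F.Pf m i * ∑ n ∈ S, F0D (3 / 5 * NUP1.l) n n (Lfin (pL m))
        (fun a => XX (cc a) (4 / 3 * (1 - ep)) rw rw (gP (4 / 3 * (1 - ep)) ex)
          (gP (4 / 3) []) s1 s2) Zd‖ ≤
        (m : ℝ) ^ δ * F.bd m i / E := by
  obtain ⟨K', HT⟩ := cutSupF hS hE hV hnn hbd
  refine ⟨K', fun C c hC hc δ hδ => ?_⟩
  obtain ⟨a0, ha0, HT⟩ := HT C c hC hc δ hδ
  refine ⟨a0, ha0, fun ep hep hep1 e1 he he1 J hJ hsm => ?_⟩
  obtain ⟨mt, HT⟩ := HT ep hep hep1 e1 he he1 J hJ hsm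
  obtain ⟨mc, -, Hcur⟩ := curZ_crs he he1 hJ hep
  refine ⟨max (max mt mc) 1, fun m hm i hi cc rw ex s1 s2 hr hex hQ hA Es hone Zd Zc δ₀ E cz Mz M
    Cz D S h0 h1 hE0 hCz hcut hcz hMz hact hzc hSs hd => ?_⟩
  have k1 : mt ≤ m := (le_max_left _ _).trans ((le_max_left _ _).trans hm)
  have k2 : mc ≤ m := (le_max_right _ _).trans ((le_max_left _ _).trans hm)
  have k3 : 1 ≤ m := (le_max_right _ _).trans hm
  have hcr : ∀ (r : ℕ) (O : Fin r → Xo), CrvR (ep / 4) (crL e1 J m r O)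
      (crL' e1 J m r O) := fun r O => PBF.crvR_of hep hep1 (Hcur m k2 r O)
  have hb := hbd m k3 i
  refine cut_le (m := m) (c := cc) (β := 4 / 3 * (1 - ep)) (rw := fun _ => rw)
    (s1 := fun _ => s1) (s2 := fun _ => s2) (ex := fun _ => ex)
    (ex0 := fun _ => []) (P := pL m) (parZ_parC m) (fun r => PBC.parZ_low m r)
    (δ := ep / 4) (by linarith) (by linarith) (by linarith) (by linarith) (fun _ => hr)
    (fun _ => hex) (fun _ w hw => absurd hw List.not_mem_nil) hQ hA hCz hzc hd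
    (fun r => Filter.Eventually.of_forall fun O => hcr r O) hE0 (by positivity) ?_
  intro ε hε
  have hone2 := PBC.OneC.eps hone hcut (by rw [(parZ_fields m).2.1]; norm_num) (ε := ε) h0
    (by rw [hε]; exact hcz) (M' := M) (fun t => by rw [hε]; exact hMz t)
  have key := HT m k1 i hi (Zep (fun a => XX (cc a) (4 / 3 * (1 - ep)) rw rw
    (gP (4 / 3 * (1 - ep)) ex) (gP (4 / 3) []) s1 s2) Zc ε) δ₀ M
    (2 * (4 / 3 * (1 - ep))) (3 / 5 * NUP1.l) 0 Es h0 h1 hone2 hact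
  refine le_trans ?_ key
  rw [Finset.mul_sum]
  calc ∑ n ∈ S, ‖F.Pf m i‖ₑ *
        FA (Zep (fun a => XX (cc a) (4 / 3 * (1 - ep)) rw rw
          (gP (4 / 3 * (1 - ep)) ex) (gP (4 / 3) []) s1 s2) Zc ε) (pL m) n n (crL e1 J m)
          (crL' e1 J m) (fun _ _ _ _ _ => 1)
      = ∑ n ∈ S, ENNReal.ofReal ‖F.Pf m i‖ *
        FE (Zep (fun a => XX (cc a) (4 / 3 * (1 - ep)) rw rw
          (gP (4 / 3 * (1 - ep)) ex) (gP (4 / 3) []) s1 s2) Zc ε) (pL m) n n (crL e1 J m)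
          (crL' e1 J m) (fun _ _ _ _ _ => 1) := by
        refine Finset.sum_congr rfl fun n _ => ?_
        rw [FA_eq_FE, ofReal_norm]
        simp only [enorm_one]
    _ ≤ _ := Finset.sum_le_sum_of_subset hSs

end PBT

end
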