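import Pool.Agent.PB.DomL

/-!
# Plan V: the one body factor with legs at `z`, anti-legs at `z'`, on the curve (helper79)

* `Hleg0_pA`: `Hleg 0 z' 0 = log thZ z'` on the curve;
* **`domV`**: the one body factor of the data `obX` with rows `mu1 k x` and spectator
  `thZ z / thZ z'` is `2 cos l exp ((k+1) Re vc) (exp (Re DD) * |phi|) exp (Hleg 1 z x - Hleg 0 z' 0)`.
-/

set_option autoImplicit false
set_option linter.unusedSectionVars false

noncomputable section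

open Complex

namespace PVD

open NUMF (l l_pos)
open NUO (pA)
open PBX (rwC thZ obX)
open PBL (mu1)

/-- **the anti-legs on the curve** -/
theorem Hleg0_pA (z' : ℂ) (η : ℝ → ℝ) (a : Bool) (t : ℝ) :
    PBH.Hleg 0 z' 0 η a t = Real.log (thZ z' (pA η t)) := by
  unfold PBH.Hleg
  rw [zero_mul, sub_zero, add_sub_cancel_right]
  rfl

/-- **the one body factor with legs at `z`, anti-legs at `z'`, on the curve** -/
theorem domV {δ : ℝ} (hδ : 0 < δ) (hδ1 : δ ≤ l / 4) {η : ℝ → ℝ} (hη : ∀ t, |η t| ≤ δ / 2)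
    {z z' x : ℂ} (h0 : -l + δ ≤ z.re) (h1 : z.re ≤ 4 * l - δ) (h0' : -l + δ ≤ z'.re)
    (h1' : z'.re ≤ 4 * l - δ) (hx : |x.re| ≤ l - δ) (k : ℕ) (β : ℝ) (ex ex0 : List ℂ)
    {s : ℂ → ℝ} (hs : ∀ u, s u = thZ z u / thZ z' u) (g : Fin 0 → NUSea.H0.Gd) (a : Bool) (t : ℝ) :
    (obX (2 * Real.cos NUP1.l) β (mu1 k x) ex ex0 fun _ u => s u).R a (pA η t) *
        ‖(obX (2 * Real.cos NUP1.l) β (mu1 k x) ex ex0 fun _ u => s u).φ (pA η t)‖ =
      2 * Real.cos NUP1.l * (Real.exp (((k + 1 : ℕ) : ℝ) *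
          (@NUSea.vc NUSea.seaP (NUAct.zt (NUKer.iD η) t)).re +
          (NUSp.DD NUGC.pE NUGC.qE (List.ofFn fun i => (g i).G) a
            (NUAct.zt (NUKer.iD η) t)).re + (PBH.Hleg 1 z x η a t - PBH.Hleg 0 z' 0 η a t)) *
          ‖NUP1.phi β (List.ofFn (mu1 k x) ++ ex) (pA η t)‖) := by
  have hl := l_pos
  have p' := (PBH.thZ_pA hδ (by linarith) hη h0' h1' t).1
  have e1 : PBO.thZ z' (pA η t) = thZ z' (pA η t) := rfl
  rw [e1] at p'
  have H := PBL.domL hδ hδ1 hη h0 h1 hx k β ex ex0 g a t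
  have e3 : (obX (2 * Real.cos NUP1.l) β (mu1 k x) ex ex0 fun _ u => s u).R a (pA η t) =
      (obX (2 * Real.cos NUP1.l) β (mu1 k x) ex ex0 fun _ u => thZ z u).R a (pA η t) /
        thZ z' (pA η t) := by
    show 2 * Real.cos NUP1.l * (∏ i, rwC (mu1 k x i) (pA η t)) * s (pA η t) =
      2 * Real.cos NUP1.l * (∏ i, rwC (mu1 k x i) (pA η t)) * thZ z (pA η t) / thZ z' (pA η t)
    rw [hs, mul_div_assoc]
  have e4 : (obX (2 * Real.cos NUP1.l) β (mu1 k x) ex ex0 fun _ u => s u).φ (pA η t) =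
      (obX (2 * Real.cos NUP1.l) β (mu1 k x) ex ex0 fun _ u => thZ z u).φ (pA η t) := rfl
  rw [e3, e4, div_mul_eq_mul_div, H, Hleg0_pA, ← add_sub_assoc, Real.exp_sub, Real.exp_log p']
  have hp := p'.ne'
  field_simp

end PVD

end
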