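import Pool.Agent.PB.Vals

/-!
# Plan V: `(E')` with a constant term and with a mean functional which does not vanish on the leg function

* `PBE.E_primeC`: `PBE.E_prime` with a constant term `K0 f`;
* `PBE.mt m h0` = `m - (m h0 / mass h0) mass`: the same values on neutral functions, zero at `h0`;
* **`PBE.E_primeV`**: `m h0 = p`, `C h0 h0 + m g2 = -p'`, leg derivatives of `f / R`, `R' / R = p`.
-/

set_option autoImplicit false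

open MeasureTheory Set Filter Topology

noncomputable section

namespace PBE

section

variable {y₁ y₂ a : ℝ} {T T' : Type*} [MeasurableSpace T] [MeasurableSpace T'] {σ : Measure T}
  {σ' : Measure T'}

/-- **`(E')` with a constant term** -/
theorem E_primeC {f fη fτ fττ : ℂ} {G1 m : (ℂ → ℂ) → ℂ} {G2 C H2 Cm : (ℂ → ℂ) → (ℂ → ℂ) → ℂ}
    {Hs Cs : (ℂ → ℂ) → ℂ} {Hss Css J : ℂ} {δ δ0 K M0 M2 Mq Mu : ℝ}
    {h0 g2 q u : ℂ → ℂ} {A B : T → ℂ → ℂ} {al be : T → ℝ} {A' B' : T' → ℂ → ℂ} {al' be' : T' → ℝ}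
    (ha : 0 < a) (h1 : y₁ < 0) (h2 : 0 < y₂) (hδ : 0 ≤ δ) (hK0 : 0 ≤ K)
    (hR : Rep y₁ y₂ a σ A B al be) (hR' : Rep y₁ y₂ a σ' A' B' al' be')
    (hL : Lev2 y₁ y₂ a f G1 G2 m C δ) (hL' : Lev2m y₁ y₂ a f H2 Hs Hss Cm Cs Css δ)
    (hG1 : Lin1 y₁ y₂ a G1) (hG2 : Lin2 y₁ y₂ a G2) (hm : Lin1 y₁ y₂ a m) (hC : Lin2 y₁ y₂ a C)
    (hK : ∀ M g, TC y₁ y₂ a M g → ‖m g‖ ≤ K * M) (hm0 : m h0 = 0)
    (hh : TC y₁ y₂ a M0 h0) (hA : mass h0 ≠ 0) (hg2 : TC y₁ y₂ a M2 g2) (hg20 : mass g2 = 0)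
    (hq : TC y₁ y₂ a Mq q) (hu : TC y₁ y₂ a Mu u)
    (iG : Integrable (fun s => G2 (A s) (B s)) σ)
    (i2 : Integrable (fun s => mass (A s) * mass (B s)) σ)
    (i1 : Integrable (fun s => mass (A s) * m (B s) + mass (B s) * m (A s)) σ)
    (iC : Integrable (fun s => C (A s) (B s)) σ)
    (im : Integrable (fun s => m (A s) * m (B s)) σ)
    (iH : Integrable (fun s => H2 (A' s) (B' s)) σ')
    (iC' : Integrable (fun s => Cm (A' s) (B' s)) σ')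
    (hI : ‖fη - ((∫ s, G2 (A s) (B s) ∂σ) +
      ((∫ s, H2 (A' s) (B' s) ∂σ') + 2 * Hs u - J / 2 * Hss) + G1 q)‖ ≤ δ0)
    (hτ : ‖G1 h0 + fτ‖ ≤ δ) (hττ : ‖G2 h0 h0 + G1 g2 - fττ‖ ≤ δ)
    {K2 L K0 : ℂ} (hK2 : ∫ s, mass (A s) * mass (B s) ∂σ = K2 * mass h0 ^ 2)
    (hK1 : (∫ s, (mass (A s) * m (B s) + mass (B s) * m (A s)) ∂σ) + mass q = L * mass h0)
    (hV : (∫ s, C (A s) (B s) ∂σ) + (∫ s, m (A s) * m (B s) ∂σ) + m q -
      K2 * (C h0 h0 + m g2) + ((∫ s, Cm (A' s) (B' s) ∂σ') + 2 * Cs u - J / 2 * Css) = K0) :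
    ‖fη - (K2 * fττ - L * fτ + K0 * f)‖ ≤ δ0 +
      ((3 + K) * (1 + 2 * M0 / (a * ‖mass h0‖)) ^ 2 * (∫ s, al s * be s ∂σ) +
        ((∫ s, al' s * be' s ∂σ') + 2 * Mu + ‖J‖ / 2) +
        Mq * (1 + 2 * M0 / (a * ‖mass h0‖)) + ‖L‖ + ‖K2‖ * (1 + M2)) * δ := by
  have hp := plus_int hR hL hG2 hm hC hK hm0 hh hA ha h1 h2 hδ hK0 iG i2 i1 iC im hK2
  have hn := minus_int hR' hL' iH iC' hu J
  have nq := ntr_TC hq hh ha h1 h2
  have zq := mass_ntr hq hh ha h1 h2 hA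
  have hLn : ‖G1 q - ((mass q / mass h0) * G1 h0 + m q * f)‖ ≤
      Mq * (1 + 2 * M0 / (a * ‖mass h0‖)) * δ := by
    rw [hG1.split hq hh ha h1 h2, hm.split hq hh ha h1 h2, hm0]
    have := hL.mean _ _ nq zq
    calc _ = ‖G1 (ntr h0 q) - m (ntr h0 q) * f‖ := by
          congr 1
          ring
      _ ≤ _ := this
  have hX2 : ‖G2 h0 h0 - (fττ - m g2 * f)‖ ≤ (1 + M2) * δ := by
    have h3 := hL.mean _ _ hg2 hg20
    have e : G2 h0 h0 - (fττ - m g2 * f) = (G2 h0 h0 + G1 g2 - fττ) - (G1 g2 - m g2 * f) := by ring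
    rw [e]
    refine (norm_sub_le _ _).trans ?_
    linarith
  have hI' : ‖(fη - K0 * f) - ((∫ s, G2 (A s) (B s) ∂σ) +
      (((∫ s, H2 (A' s) (B' s) ∂σ') + 2 * Hs u - J / 2 * Hss) - K0 * f) + G1 q)‖ ≤ δ0 := by
    refine le_trans (le_of_eq ?_) hI
    congr 1
    ring
  have hn' : ‖(((∫ s, H2 (A' s) (B' s) ∂σ') + 2 * Hs u - J / 2 * Hss) - K0 * f) -
      (((∫ s, Cm (A' s) (B' s) ∂σ') + 2 * Cs u - J / 2 * Css) - K0) * f‖ ≤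
      ((∫ s, al' s * be' s ∂σ') + 2 * Mu + ‖J‖ / 2) * δ := by
    refine le_trans (le_of_eq ?_) hn
    congr 1
    ring
  have key := PBFunc.E_asm (f := f) (fη := fη - K0 * f) (fτ := fτ) (fττ := fττ) (X1 := G1 h0)
    (X2 := G2 h0 h0) (G := m g2) hI' hp hn' hLn hτ hX2 (by linear_combination hV)
  have hL' : (∫ s, (mass (A s) * m (B s) + mass (B s) * m (A s)) ∂σ) / mass h0 +
      mass q / mass h0 = L := by
    rw [← add_div, hK1]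
    field_simp
  rw [hL'] at key
  have e : fη - (K2 * fττ - L * fτ + K0 * f) = (fη - K0 * f) - (K2 * fττ - L * fτ) := by ring
  rw [e]
  refine key.trans (le_of_eq ?_)
  ring

/-- the mean functional made zero at `h0` -/
def mt (m : (ℂ → ℂ) → ℂ) (h0 g : ℂ → ℂ) : ℂ := m g - m h0 / mass h0 * mass g

lemma mt_ntr (m : (ℂ → ℂ) → ℂ) (h0 : ℂ → ℂ) {g : ℂ → ℂ} (hg : mass g = 0) : mt m h0 g = m g := by
  unfold mt
  rw [hg]
  ring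

lemma mt_h0 (m : (ℂ → ℂ) → ℂ) {h0 : ℂ → ℂ} (hA : mass h0 ≠ 0) : mt m h0 h0 = 0 := by
  unfold mt
  field_simp
  ring

lemma mt_lin1 {m : (ℂ → ℂ) → ℂ} (hm : Lin1 y₁ y₂ a m) (ha : 0 < a) (h1 : y₁ < 0) (h2 : 0 < y₂)
    (h0 : ℂ → ℂ) : Lin1 y₁ y₂ a (mt m h0) where
  lin M M' g h c hg hh := by
    unfold mt
    rw [hm.lin _ _ _ _ c hg hh, mass_comb hg hh ha h1 h2]
    ring

lemma mt_le {m : (ℂ → ℂ) → ℂ} {K M0 : ℝ} {h0 : ℂ → ℂ} (hK : ∀ M g, TC y₁ y₂ a M g → ‖m g‖ ≤ K * M)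
    (hh : TC y₁ y₂ a M0 h0) (ha : 0 < a) (h1 : y₁ < 0) (h2 : 0 < y₂) (hK0 : 0 ≤ K) (M : ℝ)
    (g : ℂ → ℂ) (hg : TC y₁ y₂ a M g) :
    ‖mt m h0 g‖ ≤ (K * (1 + 2 * M0 / (a * ‖mass h0‖))) * M := by
  have hM := hg.nonneg h1 h2
  have hM0 := hh.nonneg h1 h2
  unfold mt
  have b1 := hK _ _ hg
  have b2 := hK _ _ hh
  have b3 : ‖mass g‖ ≤ M * (2 / a) := (hg.real ha h1 h2).2
  refine (norm_sub_le _ _).trans ?_
  rw [norm_mul, norm_div]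
  have b4 : ‖m h0‖ / ‖mass h0‖ * ‖mass g‖ ≤ K * M0 / ‖mass h0‖ * (M * (2 / a)) := by gcongr
  calc ‖m g‖ + ‖m h0‖ / ‖mass h0‖ * ‖mass g‖ ≤ K * M + K * M0 / ‖mass h0‖ * (M * (2 / a)) :=
        add_le_add b1 b4
    _ = _ := by
        rcases eq_or_ne ‖mass h0‖ 0 with h | h
        · rw [h]; simp
        · field_simp

lemma Lev2.mt {f : ℂ} {G1 m : (ℂ → ℂ) → ℂ} {G2 C : (ℂ → ℂ) → (ℂ → ℂ) → ℂ} {δ : ℝ}
    (hL : Lev2 y₁ y₂ a f G1 G2 m C δ) (h0 : ℂ → ℂ) : Lev2 y₁ y₂ a f G1 G2 (mt m h0) C δ where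
  mean M g hg hz := by
    rw [mt_ntr m h0 hz]
    exact hL.mean M g hg hz
  cov M M' g h hg hz hh := by
    rw [mt_ntr m h0 hz]
    exact hL.cov M M' g h hg hz hh

/-- **`(E')`, plan V**: the mean functional is `p` at the leg function; `R' / R = p`, `p'` its derivative;
the leg derivatives are those of `f / R` -/
theorem E_primeV {f fη fτ fττ p p' : ℂ} {G1 m : (ℂ → ℂ) → ℂ} {G2 C H2 Cm : (ℂ → ℂ) → (ℂ → ℂ) → ℂ}
    {Hs Cs : (ℂ → ℂ) → ℂ} {Hss Css J : ℂ} {δ δ0 K M0 M2 Mq Mu : ℝ}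
    {h0 g2 q u : ℂ → ℂ} {A B : T → ℂ → ℂ} {al be : T → ℝ} {A' B' : T' → ℂ → ℂ} {al' be' : T' → ℝ}
    (ha : 0 < a) (h1 : y₁ < 0) (h2 : 0 < y₂) (hδ : 0 ≤ δ) (hK0 : 0 ≤ K)
    (hR : Rep y₁ y₂ a σ A B al be) (hR' : Rep y₁ y₂ a σ' A' B' al' be')
    (hL : Lev2 y₁ y₂ a f G1 G2 m C δ) (hL' : Lev2m y₁ y₂ a f H2 Hs Hss Cm Cs Css δ)
    (hG1 : Lin1 y₁ y₂ a G1) (hG2 : Lin2 y₁ y₂ a G2) (hm : Lin1 y₁ y₂ a m) (hC : Lin2 y₁ y₂ a C)
    (hK : ∀ M g, TC y₁ y₂ a M g → ‖m g‖ ≤ K * M)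
    (hh : TC y₁ y₂ a M0 h0) (hA : mass h0 ≠ 0) (hg2 : TC y₁ y₂ a M2 g2) (hg20 : mass g2 = 0)
    (hq : TC y₁ y₂ a Mq q) (hu : TC y₁ y₂ a Mu u)
    (iG : Integrable (fun s => G2 (A s) (B s)) σ)
    (i2 : Integrable (fun s => mass (A s) * mass (B s)) σ)
    (i1 : Integrable (fun s => mass (A s) * m (B s) + mass (B s) * m (A s)) σ)
    (iC : Integrable (fun s => C (A s) (B s)) σ)
    (im : Integrable (fun s => m (A s) * m (B s)) σ)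
    (iH : Integrable (fun s => H2 (A' s) (B' s)) σ')
    (iC' : Integrable (fun s => Cm (A' s) (B' s)) σ')
    (hI : ‖fη - ((∫ s, G2 (A s) (B s) ∂σ) +
      ((∫ s, H2 (A' s) (B' s) ∂σ') + 2 * Hs u - J / 2 * Hss) + G1 q)‖ ≤ δ0)
    (hτ : ‖G1 h0 + (fτ - p * f)‖ ≤ δ)
    (hττ : ‖G2 h0 h0 + G1 g2 - (fττ - 2 * p * fτ + (p ^ 2 - p') * f)‖ ≤ δ)
    (hp : m h0 = p) (hp' : C h0 h0 + m g2 = -p')
    {K2 K0 : ℂ} (hK2 : ∫ s, mass (A s) * mass (B s) ∂σ = K2 * mass h0 ^ 2)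
    (hK1 : (∫ s, (mass (A s) * m (B s) + mass (B s) * m (A s)) ∂σ) + mass q = 0)
    (hV : (∫ s, C (A s) (B s) ∂σ) + (∫ s, m (A s) * m (B s) ∂σ) + m q +
      ((∫ s, Cm (A' s) (B' s) ∂σ') + 2 * Cs u - J / 2 * Css) = K0) :
    ‖fη - (K2 * fττ + K0 * f)‖ ≤ δ0 +
      ((3 + K * (1 + 2 * M0 / (a * ‖mass h0‖))) * (1 + 2 * M0 / (a * ‖mass h0‖)) ^ 2 *
          (∫ s, al s * be s ∂σ) +
        ((∫ s, al' s * be' s ∂σ') + 2 * Mu + ‖J‖ / 2) +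
        Mq * (1 + 2 * M0 / (a * ‖mass h0‖)) + ‖-(2 * p * K2)‖ + ‖K2‖ * (1 + M2)) * δ := by
  have hM0 := hh.nonneg h1 h2
  set μ : ℂ := m h0 / mass h0 with hμ
  have hμp : μ * mass h0 = p := by
    rw [hμ, ← hp]
    field_simp
  have hκ : 0 ≤ 1 + 2 * M0 / (a * ‖mass h0‖) := by positivity
  have e1 : ∀ s, mass (A s) * mt m h0 (B s) + mass (B s) * mt m h0 (A s) =
      (mass (A s) * m (B s) + mass (B s) * m (A s)) - (2 * μ) * (mass (A s) * mass (B s)) := by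
    intro s
    unfold mt
    rw [← hμ]
    ring
  have e0 : ∀ s, mt m h0 (A s) * mt m h0 (B s) = m (A s) * m (B s) -
      μ * (mass (A s) * m (B s) + mass (B s) * m (A s)) + μ ^ 2 * (mass (A s) * mass (B s)) := by
    intro s
    unfold mt
    rw [← hμ]
    ring
  have j1 : Integrable (fun s => mass (A s) * mt m h0 (B s) + mass (B s) * mt m h0 (A s)) σ := by
    simp_rw [e1]
    exact i1.sub (i2.const_mul _)
  have j0 : Integrable (fun s => mt m h0 (A s) * mt m h0 (B s)) σ := by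
    simp_rw [e0]
    exact (im.sub (i1.const_mul _)).add (i2.const_mul _)
  have w1 : (∫ s, (mass (A s) * mt m h0 (B s) + mass (B s) * mt m h0 (A s)) ∂σ) + mass q =
      (-(2 * p * K2)) * mass h0 := by
    simp_rw [e1]
    rw [integral_sub i1 (i2.const_mul _), integral_const_mul, hK2]
    linear_combination hK1 - 2 * K2 * mass h0 * hμp
  have w0 : (∫ s, mt m h0 (A s) * mt m h0 (B s) ∂σ) = (∫ s, m (A s) * m (B s) ∂σ) +
      μ * mass q + p ^ 2 * K2 := by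
    simp_rw [e0]
    have k1 : Integrable (fun s => m (A s) * m (B s) -
        μ * (mass (A s) * m (B s) + mass (B s) * m (A s))) σ := im.sub (i1.const_mul _)
    rw [integral_add k1 (i2.const_mul _), integral_sub im (i1.const_mul _),
      integral_const_mul, integral_const_mul, hK2]
    linear_combination -μ * hK1 + K2 * (μ * mass h0 + p) * hμp
  have key := E_primeC (K0 := K0 + K2 * (p ^ 2 + p')) (L := -(2 * p * K2)) (fτ := fτ - p * f)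
    (fττ := fττ - 2 * p * fτ + (p ^ 2 - p') * f) ha h1 h2 hδ (mul_nonneg hK0 hκ) hR hR' (hL.mt h0) hL'
    hG1 hG2 (mt_lin1 hm ha h1 h2 h0) hC (mt_le hK hh ha h1 h2 hK0) (mt_h0 m hA) hh hA hg2 hg20 hq hu
    iG i2 j1 iC j0 iH iC' hI hτ hττ hK2 w1 (by
      rw [w0, mt_ntr m h0 hg20]
      have e2 : mt m h0 q = m q - μ * mass q := rfl
      rw [e2]
      linear_combination hV - K2 * hp')
  refine le_trans (le_of_eq ?_) key
  congr 1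
  ring

end

end PBE

end
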