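import Pool.Agent.PB.FFam0
import Pool.Agent.PB.LamDec
import Pool.Agent.PB.ZRow

/-!
# Plan V: the instance `FFam` of the first Ward identity, legs at `z`, anti-legs at `z'` (helper24)

* `lamV z z' = lamK z - lamK z'`: the force of the legs and of the anti-legs on the kinds;
  `lamV_bd`, `lamV_DQ`, `measurable_lamV`;
* **`ffamV`**: `FFam`, rows `x` on the imaginary axis, `|Im x i| ≤ 1`, `|Re z|, |Re z'| ≤ l / 2`;
* **`ffamHV`**: the rows `i s, 0^j`, legs at `i t`, anti-legs at `0`.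
-/

set_option autoImplicit false

noncomputable section

attribute [local instance] NUSea.seaP

open Complex MeasureTheory Finset Filter
open scoped Classical

namespace PV

open NUP1 hiding Kd
open NUP1S NURow PB PBI PBZF PBRep PBQ1 PBForce PBT

variable {m : ℕ}

/-- the force of the legs at `z` and the anti-legs at `z'` -/
def lamV (z z' : ℂ) (b : PBI.Kd) (w : ℂ) : ℂ := lamK z b w - lamK z' b w

theorem lamV_self (z : ℂ) (b : PBI.Kd) (w : ℂ) : lamV z z b w = 0 := sub_self _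

theorem measurable_lamV (z z' : ℂ) (b : PBI.Kd) : Measurable (lamV z z' b) :=
  (measurable_lamK z b).sub (measurable_lamK z' b)

/-- bound in the strips -/
theorem lamV_bd : ∃ C : ℝ, 0 ≤ C ∧ ∀ z z' : ℂ, |z.re| ≤ NUP1.l / 2 → |z'.re| ≤ NUP1.l / 2 →
    ∀ (b : PBI.Kd) (w : ℂ), w ∈ PBOb.Str b.2 → ‖lamV z z' b w‖ ≤ C := by
  obtain ⟨C, hC, H⟩ := leg_bd
  exact ⟨C + C, by positivity, fun z z' hz hz' b w hw =>
    (norm_sub_le _ _).trans (add_le_add (H z hz b w hw) (H z' hz' b w hw))⟩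

/-- decay in the strips -/
theorem lamV_dec : ∃ C : ℝ, 0 < C ∧ ∀ z z' : ℂ, |z.re| ≤ NUP1.l / 2 → |z.im| ≤ 1 →
    |z'.re| ≤ NUP1.l / 2 → |z'.im| ≤ 1 → ∀ (b : PBI.Kd) (w : ℂ),
    w ∈ PBOb.Str b.2 → ‖lamV z z' b w‖ ≤ C * Real.exp (-2 * |w.im|) := by
  obtain ⟨C, hC, H⟩ := lamK_dec
  refine ⟨C + C, by positivity, fun z z' h1 h2 h3 h4 b w hw => ?_⟩
  rw [add_mul]
  exact (norm_sub_le _ _).trans (add_le_add (H z h1 h2 b w hw) (H z' h3 h4 b w hw))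

/-- decay on `DQ`, with a rate -/
theorem lamV_DQ : ∃ C : ℝ, 0 < C ∧ ∀ z z' : ℂ, |z.re| ≤ NUP1.l / 2 → |z.im| ≤ 1 →
    |z'.re| ≤ NUP1.l / 2 → |z'.im| ≤ 1 → ∀ a : ℝ, a ≤ 2 →
    ∀ b : PBI.Kd, ∀ w ∈ PBOb.DQ b, ‖lamV z z' b w‖ ≤ C * Real.exp (-a * |w.im|) := by
  obtain ⟨C, hC, H⟩ := lamK_DQ
  refine ⟨C + C, by positivity, fun z z' h1 h2 h3 h4 a ha b w hw => ?_⟩
  rw [add_mul]
  exact (norm_sub_le _ _).trans (add_le_add (H z h1 h2 a ha b w hw) (H z' h3 h4 a ha b w hw))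

/-- one more force -/
theorem ffam_sub {α : ℝ} {n : ℕ} {L : PBI.Lns} {B D : ℝ} {Ξ Ξ' : PBI.Kd → ℂ → ℂ}
    {A : PBI.Kd → PBI.Kd → ℂ → ℂ → ℂ} {ρ : PBI.Kd → ℝ → ℂ} {κr r1 lam mu : PBI.Kd → ℂ → ℂ}
    (h : FFam α n L B Ξ Ξ' A ρ κr r1 lam) (hm : ∀ b, Measurable (mu b)) (hD : 0 ≤ D)
    (hb : AllW α n n L fun c x => ∀ i, ∀ t : ℝ, ‖mu (c i) (vl (x i) t)‖ ≤ D) :
    FFam α n L (B + B * D) Ξ Ξ' A ρ κr r1 (fun b w => lam b w - mu b w) := by
  have hB := h.hB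
  have h' := FFam.mono h (B' := B + B * D) (by nlinarith [mul_nonneg hB hD])
  exact
    { hB := h'.hB
      hΞ := h'.hΞ
      hmΞ := h'.hmΞ
      hmΞ' := h'.hmΞ'
      ha := h'.ha
      has := h'.has
      had := h'.had
      hI1 := h'.hI1
      hI2 := h'.hI2
      hE := h'.hE
      hC := h'.hC
      hCv := h'.hCv
      mκ := h'.mκ
      mr := h'.mr
      ml := fun b => (h'.ml b).sub (hm b)
      bd := fun p p' k k' h1 h2 i t => by
        have e : ∀ r X κ a u : ℂ, r + X * (κ + (a - u)) = (r + X * (κ + a)) - X * u := by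
          intro r X κ a u
          ring
        rw [e]
        refine (norm_sub_le _ _).trans (add_le_add (h.bd p p' k k' h1 h2 i t) ?_)
        rw [norm_mul]
        exact mul_le_mul ((h.hΞ p p' k k' h1 h2).b i t) (hb p p' k k' h1 h2 i t)
          (norm_nonneg _) hB }

/-- **the instance** -/
theorem ffamV {P : NUO.Par} (hP : NURow.ParP P) {x : Fin m → ℂ} (hx : Rws0 x) (i0 : Fin m)
    {z z' : ℂ} (hz : |z.re| ≤ NUMF.l / 2) (hz' : |z'.re| ≤ NUMF.l / 2) (n : ℕ) :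
    ∃ B, FFam (3 / 5 * NUP1.l) n (fl P) B (xiK x i0)
      (fun b w => deriv (xiR x i0) (fp b w)) (PBOb.aK (xiR x i0)) (rhK x) (krK x) (r1K x i0)
      (lamV z z') := by
  obtain ⟨B, hB⟩ := ffam hP hx i0 hz n
  obtain ⟨C, hC, H⟩ := leg_bd
  refine ⟨_, ffam_sub hB (fun b => measurable_lamK z' b) hC ?_⟩
  intro p p' k k' _ _ i t
  exact H z' hz' _ _ (DF_Str _ _ (all_DF hP n n k k' i t))

/-- FFam at the rows `i s, 0^j`, legs at `i t`, anti-legs at `0` -/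
def FFamHV : Prop := ∀ (j : ℕ) (s t : ℝ) (n : ℕ), |s| ≤ 1 → |t| ≤ 1 → ∃ B,
  FFam (3 / 5 * NUP1.l) n (fl (pL (j + 1))) B (xiK (PBEI.rowS j s) 0)
    (fun b w => deriv (xiR (PBEI.rowS j s) 0) (fp b w)) (PBOb.aK (xiR (PBEI.rowS j s) 0))
    (rhK (PBEI.rowS j s)) (krK (PBEI.rowS j s)) (r1K (PBEI.rowS j s) 0) (lamV (I * t) 0)

theorem ffamHV : FFamHV := by
  intro j s t n hs ht
  refine ffamV (P := pL (j + 1)) ?_ (PBEI.rowS_ok j hs) 0 ?_ ?_ n
  · have hC : NUGC.ParC (pL (j + 1)) := PBF.parZ_parC (j + 1)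
    exact ⟨rfl, le_rfl, hC.d0, fun r => by
      have h1 := hC.e2 r
      have h2 := hC.d0 r
      linarith⟩
  · rw [show (I * (t : ℂ)).re = 0 by simp, abs_zero]
    exact (half_pos NUMF.l_pos).le
  · rw [zero_re, abs_zero]
    exact (half_pos NUMF.l_pos).le

end PV
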