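import Pool.Agent.PV.LogV

/-!
# Plan V: the data of all fibres with an anti-leg (helper90)

* `LogD_V`: `LogD` of every class function whose quanta have rows `x`, cutoff `x`, `W`, legs `p`,
  anti-legs `p'`;
* `QOkV`: decay and analyticity of the quanta from the landed statement for `ZL`;
* **`fibN_V`**, **`fibN_fxV`**: `PBF.FibN`;
* **`hl_fibV`**, `h0V_fam`: the force on the curves, the two legs `h0V t t' = h0T t - h0T t'`.
-/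

set_option autoImplicit false
set_option linter.unusedSectionVars false

noncomputable section

open Complex MeasureTheory Finset Filter Topology

namespace PVL

open NUP1 NUO NUCR NUP1S NUP1S.Ab NUP1S.AbC NUGC PBFunc PBF PBLZ

/-- the one body function of the quanta with legs `p`, anti-legs `p'` -/
def quV {m : ℕ} (β : ℝ) (x : Fin m → ℂ) (W : List ℂ) (p p' : ℂ) : ℂ → ℂ :=
  PBX.XX (Leg.cc m) β x x (PBX.gP β W) (fun _ => 1) (LgV p p') (fun _ => 1) none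

theorem quV_eq {m : ℕ} (β : ℝ) (x : Fin m → ℂ) (W W0 : List ℂ) (p p' : ℂ) (s : Bool) (u : ℂ) :
    quV β x W p p' u = PBX.ZL β x W W0 p s none u * (PBS.Th p' u)⁻¹ :=
  (XXV_eq (Leg.cc m) (fun _ => 1) (fun _ => 1) (fun w => PBX.Lg p p w * PBX.Lg p p (w - l)) u)

/-- **`LogD` with an anti-leg** -/
theorem LogD_V {ep : ℝ} (h0 : 0 < ep) (h1 : ep ≤ 1 / 100) {m : ℕ} (hm : 0 < m) {x : Fin m → ℂ}
    (hx : ∀ i, (x i).re = 0) {W : List ℂ} (hW : ∀ w ∈ W, w.re = 0) {p p' : ℂ}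
    (hp : |p.re| ≤ l / 2) (hp' : |p'.re| ≤ l / 2) {P : NUO.Par} (hP : NUGC.ParC P)
    {Z : Bool → Option O3 → ℂ → ℂ}
    (hZ : ∀ s u, Z s none u = quV (4 / 3 * (1 - ep)) x W p p' u) :
    LogD Z P (ep / 4) (fun _ => LZV (4 / 3 * (1 - ep)) x W p p') (LPo P) where
  dZ s z hz := by
    have e : Z s none = quV (4 / 3 * (1 - ep)) x W p p' := funext fun u => hZ s u
    rw [e]
    exact hasDerivAt_XXV (lzOk_std h0 h1 hm hx hW hp) hp' (Leg.cc m) (fun _ => 1) (fun _ => 1) hz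
  mZ _ := LZV_meas _ x W p p'
  bZ := by
    obtain ⟨B, hB⟩ := LZV_bd (lzOk_std h0 h1 hm hx hW hp) hp'
    exact ⟨B, fun _ z hz => hB z hz⟩
  dP r O s z hz := PBF.hasDerivAt_potC hP O s (by linarith) hz
  mP r O s := measurable_LPo P r O s
  bP r O := ⟨3 * cLP * r, fun s z hz => LPo_le hP O s (by linarith) hz⟩

/-- the anti-leg is analytic and bounded on the strip of the quanta -/
theorem invTh_bd {δ : ℝ} (hδ : δ ≤ 1 / 20) : ∃ B : ℝ, 0 ≤ B ∧ ∀ p' u : ℂ, |p'.re| ≤ l / 2 →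
    u.re ∈ Ks δ → ‖(PBS.Th p' u)⁻¹‖ ≤ B := by
  have hl := Bd.l_pos
  have hpi : Real.pi = 8 * l := PBQ1.pi8
  have hlM : NUMF.l = NUP1.l := rfl
  obtain ⟨C1, hC1, b1⟩ := PBQ1.ct_bound (a := 3 * NUP1.l) (b := 5 * NUP1.l) (by positivity)
    (by rw [hlM]; linarith)
  refine ⟨C1 + 1, by positivity, fun p' u hp' hu => ?_⟩
  obtain ⟨h1, h2⟩ := ks_re' hδ hu
  obtain ⟨h3, h4⟩ := abs_le.1 hp'
  obtain ⟨n1, n2⟩ := legOk' hδ hp' hu
  obtain ⟨v, hv⟩ : ∃ v : ℂ, v = 3 * l - p' + u := ⟨_, rfl⟩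
  have ev : v.re = 3 * l - p'.re + u.re := by rw [hv]; simp
  have e1 : p' - u - 3 * l = -v := by rw [hv]; ring
  have e2 : p' - u + 2 * l = ((5 * l : ℝ) : ℂ) - v := by
    rw [hv]
    push_cast
    ring
  have hs : Complex.sin v ≠ 0 := by
    rw [e1, Complex.sin_neg, neg_ne_zero] at n2
    exact n2
  have key : (PBS.Th p' u)⁻¹ = Complex.cos ((5 * l : ℝ) : ℂ) -
      Complex.sin ((5 * l : ℝ) : ℂ) * PBQ1.ct v := by
    show (Complex.sin (p' - u - 3 * l) / Complex.sin (p' - u + 2 * l))⁻¹ = _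
    rw [inv_div, e1, e2, Complex.sin_sub, Complex.sin_neg]
    unfold PBQ1.ct
    field_simp
    ring
  rw [key]
  have c1 : ‖Complex.cos ((5 * l : ℝ) : ℂ)‖ ≤ 1 := by
    rw [← Complex.ofReal_cos, Complex.norm_real]
    exact Real.abs_cos_le_one _
  have c2 : ‖Complex.sin ((5 * l : ℝ) : ℂ)‖ ≤ 1 := by
    rw [← Complex.ofReal_sin, Complex.norm_real]
    exact Real.abs_sin_le_one _
  have c3 := b1 v (by rw [ev]; linarith) (by rw [ev]; linarith)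
  refine (norm_sub_le _ _).trans ?_
  rw [norm_mul]
  have := mul_le_mul c2 c3 (norm_nonneg _) zero_le_one
  linarith

theorem invTh_dAt {δ : ℝ} (hδ : δ ≤ 1 / 20) {p' u : ℂ} (hp' : |p'.re| ≤ l / 2)
    (hu : u.re ∈ Ks δ) : DifferentiableAt ℂ (fun v => (PBS.Th p' v)⁻¹) u := by
  obtain ⟨b1, b2⟩ := legOk' hδ hp' hu
  have n2 : PBS.Th p' u ≠ 0 := by
    show Complex.sin (p' - u - 3 * NUP1.l) / Complex.sin (p' - u + 2 * NUP1.l) ≠ 0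
    exact div_ne_zero b2 b1
  exact (PBQ1.hasDerivAt_Th b1 b2).differentiableAt.inv n2

theorem QOkV {δ κ : ℝ} (hδ : δ ≤ 1 / 20) {Z Z' : Bool → Option O3 → ℂ → ℂ} {p' : ℂ}
    (hp' : |p'.re| ≤ l / 2) (h : QOk Z' δ κ 0) (hm : ∀ s, Measurable (Z s none))
    (hZ : ∀ s u, Z s none u = Z' s none u * (PBS.Th p' u)⁻¹) : QOk Z δ κ 0 where
  kpos := h.kpos
  m := hm
  d s u hu := by
    have e : Z s none = fun u => Z' s none u * (PBS.Th p' u)⁻¹ := funext fun u => hZ s u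
    rw [e]
    exact (h.d s u hu).mul (invTh_dAt hδ hp' hu)
  b s := by
    obtain ⟨C, hC, hb⟩ := h.b s
    obtain ⟨B, hB, hb'⟩ := invTh_bd hδ
    refine ⟨C * B, by positivity, fun z hz => ?_⟩
    rw [hZ s z, norm_mul]
    calc ‖Z' s none z‖ * ‖(PBS.Th p' z)⁻¹‖
        ≤ (C * Real.exp (-(κ + 2 * (sg s * (0 : ℤ) : ℤ)) * |z.im|)) * B :=
          mul_le_mul (hb z hz) (hb' p' z hp' hz) (norm_nonneg _) (by positivity)
      _ = _ := by ring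

/-- **the data of all fibres with an anti-leg** -/
theorem fibN_V [NUSea.Sea] {ep e1 J : ℝ} (hep0 : 0 < ep) (hep : ep ≤ 1 / 100) (he : 0 < e1)
    (he1 : e1 ≤ 1 / 100) (hJ : 0 ≤ J) :
    ∃ m0 : ℕ, ∀ M ≥ m0, ∀ (m : ℕ) (x : Fin m → ℂ), 0 < m → (∀ i, (x i).re = 0) →
      ∀ W : List ℂ, (∀ w ∈ W, w.re = 0) → ∀ z z' : ℂ, |z.re| ≤ l / 2 → |z'.re| ≤ l / 2 →
      ∀ Z : Bool → Option O3 → ℂ → ℂ,
      (∀ s u, Z s none u = quV (4 / 3 * (1 - ep)) x W z z' u) → (∀ s k, Measurable (Z s k)) →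
      ∀ (ρ : ℂ → ℂ) (b0 b1 : ℝ), ep * l / 4 ≤ b0 → b0 < b1 → 2 * b1 ≤ l → PB.SeaF b1 ρ →
      ∀ κ : ℕ → ℝ, (∀ n, 0 < κ n) → (∀ n, κ n ≤ 2 * (4 / 3 * (1 - ep))) →
      ∀ N : ℕ, FibN N (fun _ => Z)
        (fun _ => NUSea.O.par0 M) (fun _ => PBU.cr e1 J M) (fun _ => PBU.cr' e1 J M)
        (ep / 4) 0 b0 b1 κ (fun _ _ => LZV (4 / 3 * (1 - ep)) x W z z')
        (fun _ => LPo (NUSea.O.par0 M)) ρ := by
  have hl := Bd.l_pos
  obtain ⟨m0, H⟩ := PBFX.fibN_ZL hep0 hep he he1 hJ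
  refine ⟨m0, fun M hM m x hm hx W hW z z' hz hz' Z hZ hZm ρ b0 b1 hb0 hb01 hb1l hρ κ hκ0 hκ N =>
    ?_⟩
  have h := H M hM m x hm hx W hW [] z hz ρ b0 b1 hb0 hb01 hb1l hρ κ hκ0 hκ N
  have hP : NUGC.ParC (NUSea.O.par0 M) := PBX.ParC_par0 M
  exact {
    hQ := fun n hn => QOkV (by linarith) hz' (h.hQ n hn) (fun s => hZm s none) fun s u => by
      rw [hZ s u, quV_eq _ x W [] z z' s u]
    hP := h.hP
    hj := h.hj
    hδ0 := h.hδ0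
    hδ1 := h.hδ1
    crv := h.crv
    hL := fun n _ => LogD_V hep0 hep hm hx hW hz hz' hP hZ
    hs := h.hs
    b1p := h.b1p
    b01 := h.b01
    b1l := h.b1l
    sea := h.sea
    mc := h.mc
    mZ := fun n hn => MC.of hP.rm hZm (h.mc n hn)
    mP := h.mP }

/-- **the data of all fibres of `fVx j`**: rows `I s, 0, .., 0`, legs `I t`, anti-legs `z'`, on the
curve of order `j + 1`, any sea `ρ` -/
theorem fibN_fxV [NUSea.Sea] {ep e1 J : ℝ} (hep0 : 0 < ep) (hep : ep ≤ 1 / 100) (he : 0 < e1)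
    (he1 : e1 ≤ 1 / 100) (hJ : 0 ≤ J) :
    ∃ j0 : ℕ, ∀ j ≥ j0, ∀ (s t : ℝ) (z' : ℂ), |z'.re| ≤ l / 2 → ∀ Z : Bool → Option O3 → ℂ → ℂ,
      (∀ b u, Z b none u = quV (4 / 3 * (1 - ep)) (PBL.mu1 j (I * s)) [I, -I] (I * t) z' u) →
      (∀ b k, Measurable (Z b k)) →
      ∀ (ρ : ℂ → ℂ) (b0 b1 : ℝ), ep * l / 4 ≤ b0 → b0 < b1 → 2 * b1 ≤ l → PB.SeaF b1 ρ →
      ∀ κ : ℕ → ℝ, (∀ n, 0 < κ n) → (∀ n, κ n ≤ 2 * (4 / 3 * (1 - ep))) →
      ∀ N : ℕ, FibN N (fun _ => Z)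
        (fun _ => NUSea.O.par0 (j + 1)) (fun _ => PBU.cr e1 J (j + 1))
        (fun _ => PBU.cr' e1 J (j + 1)) (ep / 4) 0 b0 b1 κ
        (fun _ _ => LZV (4 / 3 * (1 - ep)) (PBL.mu1 j (I * s)) [I, -I] (I * t) z')
        (fun _ => LPo (NUSea.O.par0 (j + 1))) ρ := by
  have hl := Bd.l_pos
  obtain ⟨m0, H⟩ := fibN_V hep0 hep he he1 hJ
  refine ⟨m0, fun j hj s t z' hz' Z hZ hZm ρ b0 b1 hb0 hb01 hb1l hρ κ hκ0 hκ N => ?_⟩
  refine H (j + 1) (by omega) (j + 1) (PBL.mu1 j (I * s)) (by omega) (PBFX.mu1_re j s) [I, -I]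
    PBFX.re_pm (I * t) z' ?_ hz' Z hZ hZm ρ b0 b1 hb0 hb01 hb1l hρ κ hκ0 hκ N
  simp
  positivity

/-- the two legs of plan V -/
def h0V (t t' : ℝ) (z : ℂ) : ℂ := PBEI.h0T t z - PBEI.h0T t' z

theorem hl_famV (β : ℝ) (W : List ℂ) (j : ℕ) (s t t' : ℝ) {z : ℂ} (hz : |z.im| < NUP1.l) :
    I * LZV β (PBEI.rowS j s) W (I * t) (I * t') (NUP1.l + I * z) -
      PB.cV (deriv fun z => PBForce.rhoR (PBEI.rowS j s) (NUP1.l + I * z)) z =
      h0V t t' z + PBLZ.cutI β (List.ofFn (PBEI.rowS j s) ++ W) z := by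
  have h := PBWP.hl_fam β W j s t hz
  have h3 : PBQ1.lamL (I * t') (NUP1.l + I * z) = PBEI.h0T t' z := by
    rw [I_legL (by rw [PBWP.hr_I]; simpa using hz), PBWP.hr_I]
    rfl
  unfold LZV h0V
  rw [mul_add, ← mul_assoc, I_mul_I, h3]
  linear_combination h

/-- **the force on the curves**, in the form of `wplus` and `wm_of` -/
theorem hl_fibV {N : ℕ} {Z : ℕ → Bool → Option O3 → ℂ → ℂ} {P : ℕ → NUO.Par} {η η' : ℕ → Crs}
    {δ b0 b1 : ℝ} {κ : ℕ → ℝ} {LP : ℕ → (r : ℕ) → (Fin r → Xo) → Bool → ℂ → ℂ} {β : ℝ}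
    {W : List ℂ} {j : ℕ} {s t t' : ℝ} {ρ : ℂ → ℂ}
    (h : FibN N Z P η η' δ 0 b0 b1 κ (fun _ _ => LZV β (PBEI.rowS j s) W (I * t) (I * t')) LP ρ)
    (hρ : ρ = fun z => PBForce.rhoR (PBEI.rowS j s) (NUP1.l + I * z)) (n : ℕ) (hn : n ≤ N)
    (r : ℕ) (O : Fin r → Xo) (u : Bool) (y : ℝ) :
    I * LZV β (PBEI.rowS j s) W (I * t) (I * t') (NUP1.l + I * zy 0 (η n r O) y) -
      PB.cV (deriv ρ) (zy 0 (η n r O) y) =
      h0V t t' (zy 0 (η n r O) y) +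
        (fun _ : Bool => PBLZ.cutI β (List.ofFn (PBEI.rowS j s) ++ W)) u (zy 0 (η n r O) y) := by
  subst hρ
  refine hl_famV β W j s t t' ?_
  have h1 := zy_strip (h.hs n hn) r O y
  have h2 := h.b01
  have h3 := h.b1l
  have h4 := h.b1p
  linarith

/-- **the two legs are analytic and bounded** -/
theorem h0V_fam {b : ℝ} (hb : b ≤ 2 / 5 * NUP1.l) (t t' : ℝ) :
    (∀ z : ℂ, |z.im| < b → DifferentiableAt ℂ (h0V t t') z) ∧
    ∀ z : ℂ, |z.im| < b → ‖h0V t t' z‖ ≤ 2 * PBEI.cL := by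
  obtain ⟨a1, a2⟩ := PBWP.h0T_fam hb t
  obtain ⟨b1, b2⟩ := PBWP.h0T_fam hb t'
  refine ⟨fun z hz => (a1 z hz).sub (b1 z hz), fun z hz => (norm_sub_le _ _).trans ?_⟩
  have h1 := a2 z hz
  have h2 := b2 z hz
  linarith

end PVL

end
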