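import Pool.Agent.PV.HPotV
import Pool.Agent.PV.DomV
import Pool.Agent.PB.TopD

/-!
# Plan V: the bound of the gas with legs at `z`, anti-legs at `z'`

* `envV`: the environment (curve, cutoff, potential, one body data), every height of `z`, `z'`;
* **`gas_V`**: the bound of the gas (`PotH.s4H` without groups).
-/

set_option autoImplicit false
set_option linter.unusedSectionVars false

noncomputable section

open Complex MeasureTheory Finset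
open scoped ENNReal

namespace PVT

open NUO NUP1 NUP1S NUP1S.Ab NUP1S.AbC NUGC PBF
open PBL (mu1)
open PBP (gT)
open PotH
open PBT

attribute [local instance] NUSea.seaP

/-- **the environment with legs and anti-legs** -/
theorem envV : ∃ B0 N0 : ℝ, 0 ≤ B0 ∧ 0 ≤ N0 ∧ ∀ ep : ℝ, 0 < ep → ep ≤ 1 / 100 →
    ∀ e1 : ℝ, 0 < e1 → e1 ≤ 1 / 100 → ∀ J : ℝ, 0 ≤ J →
    ∃ Cc C0 : ℝ, 1 ≤ Cc ∧ 1 ≤ C0 ∧ ∃ m0 : ℕ, ∀ k : ℕ, m0 ≤ k → ∀ x z z' : ℂ,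
      |x.re| ≤ NUMF.l / 10 → |x.im| ≤ 2 → -(9 / 10 * NUMF.l) ≤ z.re → z.re < 37 / 10 * NUMF.l →
      -(9 / 10 * NUMF.l) ≤ z'.re → z'.re ≤ 37 / 10 * NUMF.l → ∀ d : ℝ, 0 ≤ d →
      ∃ (cr Bc Bc' : ℝ → ℝ) (H' : Bool → ℝ → ℝ),
        EnvH ep e1 Cc C0 B0 N0 d (k + 1) (etL e1 J (k + 1)) (etL' e1 J (k + 1)) cr Bc Bc'
          (PVV.HlegV 1 z z' x (etL e1 J (k + 1))) H' (obV k (4 / 3 * (1 - ep)) x z z') g0 := by
  have hl := NUMF.l_pos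
  obtain ⟨B0, N0, hB0, hN0, HK⟩ := hokV (δ := NUMF.l / 10) (by linarith) (by linarith)
  refine ⟨B0, N0, hB0, hN0, ?_⟩
  intro ep hep hep1 e1 he he1 J hJ
  obtain ⟨Cc, hCc, mc, Hc⟩ := crvL he he1 hJ
  obtain ⟨C0, hC0, mk, HC⟩ := cutX hep hep1 he he1 Cc
  obtain ⟨mh, HK⟩ := HK e1 he
  refine ⟨Cc, C0, hCc, hC0, max mc (max mk mh), ?_⟩
  intro k hk x z z' hx hx' z1 z2 z1' z2' d hd
  have k1 : mc ≤ k + 1 := ((le_max_left _ _).trans hk).trans (Nat.le_succ k)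
  have k2 : mk ≤ k := ((le_max_left _ _).trans (le_max_right _ _)).trans hk
  have k3 : mh ≤ k + 1 := (((le_max_right _ _).trans (le_max_right _ _)).trans hk).trans
    (Nat.le_succ k)
  have hcr := Hc (k + 1) k1
  obtain ⟨Bc, Bc', hcut⟩ := HC k k2 x hx hx' _ _ hcr
  obtain ⟨x1, x2⟩ := abs_le.1 hx
  have y1 : -NUMF.l + NUMF.l / 10 ≤ z.re := by linarith
  have y2 : z.re ≤ 4 * NUMF.l - NUMF.l / 10 := by linarith
  have y1' : -NUMF.l + NUMF.l / 10 ≤ z'.re := by linarith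
  have y2' : z'.re ≤ 4 * NUMF.l - NUMF.l / 10 := by linarith
  have y3 : |x.re| ≤ NUMF.l - NUMF.l / 10 := by linarith
  obtain ⟨hη, H', hok⟩ := HK (k + 1) k3 Cc _ _ hcr 1 z z' x (by norm_num) y1 y2 y1' y2' y3
  refine ⟨fun t => ‖NUP1.phi (4 / 3 * (1 - ep)) (List.ofFn (mu1 k x) ++ [I, -I])
    (pA (etL e1 J (k + 1)) t)‖, Bc, Bc', H', ?_⟩
  exact
    { crv := hcr
      cut := hcut
      hok := hok d _ hd
      nn := obV_nn _ _ _ _ _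
      dom := fun a t => (PVD.domV (δ := NUMF.l / 10) (by linarith) (by linarith) hη y1 y2 y1' y2' y3 k
        (4 / 3 * (1 - ep)) [I, -I] [] (s := fun u => PVS.thV z z' u) (fun _ => rfl) g0 a t).le }

/-- **the bound of the gas with legs and anti-legs** -/
theorem gas_V : ∃ K Ca : ℝ, 0 ≤ K ∧ 0 ≤ Ca ∧ ∀ kap : ℝ, 0 < kap →
    ∀ ep : ℝ, 0 < ep → ep ≤ 1 / 100 → ∀ e1 : ℝ, 0 < e1 → e1 ≤ 1 / 100 → ∀ J : ℝ, 0 ≤ J →
    ∀ δ : ℝ, 0 < δ → ∃ d Cst : ℝ, 0 < d ∧ 0 ≤ Cst ∧ ∃ m0 : ℕ, ∀ k : ℕ, m0 ≤ k →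
    ∀ x z z' : ℂ, |x.re| ≤ NUMF.l / 10 → |x.im| ≤ 2 → -(9 / 10 * NUMF.l) ≤ z.re →
      z.re < 37 / 10 * NUMF.l → |z'.re| ≤ NUMF.l / 10 →
    ∀ n ≤ 2 * (k + 1), ∀ b' : ℝ, |b'| ≤ d → ∀ (r : ℕ) (O : Fin r → Xo), r ≤ 2 * n →
      chgO O true ≤ n → chgO O false ≤ n →
      ENNReal.ofReal (Real.exp (b' * (((k + 1 : ℕ) : ℝ) - n))) *
        gasI (obV k (4 / 3 * (1 - ep)) x z z') (pL (k + 1)) (etL e1 J (k + 1))
          (etL' e1 J (k + 1)) O (n - chgO O true) (n - chgO O false) (fun _ => 1) ≤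
      ENNReal.ofReal (Cst * ((k + 1 : ℕ) : ℝ) ^ (3 / 8 + Ca * (ep + e1) + δ) *
        Real.exp (linV e1 J (k + 1) x z z' + (∑ i, oneEH (k + 1) (etL e1 J (k + 1))
          (TW ep e1 (k + 1)) O i + K * r + NUStabP.enC O +
          kap * NUDispW.win univ fun i => ht (O i)))) := by
  obtain ⟨B0, N0, hB0, hN0, HE⟩ := envV
  obtain ⟨K, Ca, hK, hCa, HG⟩ := gas_S4H B0 N0 hB0 hN0
  refine ⟨K, Ca, hK, hCa, ?_⟩
  intro kap hkap ep hep hep1 e1 he he1 J hJ δ hδ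
  obtain ⟨Cc, C0, hCc, hC0, mE, HE⟩ := HE ep hep hep1 e1 he he1 J hJ
  obtain ⟨d, Cst, hd, hCst, mG, HG⟩ := HG kap hkap ep hep hep1 e1 he he1 Cc C0 hCc hC0 δ hδ
  refine ⟨d, Cst, hd, hCst, max mE mG, ?_⟩
  intro k hk x z z' hx hx' z1 z2 h n hn b' hb' r O hr h1 h2
  have hl := NUMF.l_pos
  obtain ⟨y1, y2⟩ := abs_le.1 h
  have k1 : mE ≤ k := (le_max_left _ _).trans hk
  have k2 : mG ≤ k + 1 := ((le_max_right _ _).trans hk).trans (Nat.le_succ k)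
  obtain ⟨cr, Bc, Bc', H', hEnv⟩ := HE k k1 x z z' hx hx' z1 z2 (by linarith) (by linarith) d hd.le
  exact HG (k + 1) k2 _ _ cr Bc Bc' _ H' _ hEnv n (by omega) b' hb' r O hr h1 h2

end PVT

end
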