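import Pool.Agent.PV.RepVG
import Pool.Agent.PV.InsV
import Pool.Agent.PV.UXVfin
import Pool.Agent.PB.I1G

/-!
# Plan V: the total insertion of the first Ward identity at `famV`

Rows `i s, 0^j`, legs at `i t`, anti-legs at `0`. Copy of helper89's `PB/RepZ`, `PB/I1G`.

* `AV_ne`, `PfV_ne`: the prefactor does not vanish;
* **`trN_V`**: the data of the transfer;
* `wV`: the weight on the configurations (`wF famV`); `moV`: the moments;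
* `insTV`, `F0TV`: the total insertion and its value; `mainV`: the main term;
* **`total_leV`**: `‖(j + 1) F0TV - mainV‖ ≤ C (j + 1)^p`, every `p ≥ 1 / 10`.
-/

set_option autoImplicit false
set_option linter.unusedSectionVars false
set_option linter.unusedVariables false
set_option maxHeartbeats 1000000

noncomputable section

attribute [local instance] NUSea.seaP

open Complex MeasureTheory Finset Filter
open scoped ENNReal Classical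

namespace PVI

open NUP1 hiding Kd
open NUO NUP1S NUP1S.Ab NUP1S.AbC PBF PBFunc PB PBRep
open PBI (Stt Kd F0 F0Ok fl nuI nuQI mnI InD PAll Ins Pf_ne mu1_eq rowS_re meas_SN)
open PBForce (xiR rhoR Rws0)
open PBV (wm)
open PBEI (Apl Ami Bch rF uF qF rowS)
open PBLg (rhS hS)
open PBR (rh rh_ne_zero)
open Pool.Agent.PB (Pf Lp)

theorem Lp_ne {m : ℕ} {z : ℂ} {x : Fin m → ℂ} (hx : ∀ i, (x i).re = 0) (hz : z.re = 0)
    (i : Fin m) : Lp z (x i) ≠ 0 := by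
  have hl := Bd.l_pos
  have hpi : 8 * l = Real.pi := by
    unfold NUP1.l
    ring
  have hs : ∀ {w : ℂ}, 0 < w.re → w.re < 8 * l → Complex.sin w ≠ 0 := fun h1 h2 =>
    NUP1.Bd.sin_ne_zero_of_re (Real.sin_pos_of_pos_of_lt_pi h1 (by rw [← hpi]; exact h2)).ne'
  unfold Pool.Agent.PB.Lp
  refine mul_ne_zero (hs ?_ ?_) (hs ?_ ?_) <;> simp [hx, hz] <;> linarith

theorem rh_ne_re {w : ℂ} (h : w.re = 0) : rh w ≠ 0 := by
  have hl := Bd.l_pos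
  exact rh_ne_zero (by
    rw [h, abs_zero]
    positivity)

theorem AV_ne {m : ℕ} {z : ℂ} {x : Fin m → ℂ} (hx : ∀ i, (x i).re = 0) (hz : z.re = 0) :
    PV.AV z x ≠ 0 := by
  unfold PV.AV
  refine Finset.prod_ne_zero_iff.2 fun i _ => div_ne_zero (pow_ne_zero _ (rh_ne_re ?_)) (Lp_ne hx hz i)
  rw [sub_re, hz, hx, sub_zero]

/-- the prefactor does not vanish -/
theorem PfV_ne {m : ℕ} {z z' : ℂ} {x : Fin m → ℂ} (hx : ∀ i, (x i).re = 0) (hz : z.re = 0)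
    (hz' : z'.re = 0) : PV.PfV z z' x x ≠ 0 := by
  have hl := Bd.l_pos
  have hpi : 8 * l = Real.pi := by
    unfold NUP1.l
    ring
  have h0 : Complex.sin (l : ℂ) ≠ 0 := NUP1.Bd.sin_ne_zero_of_re
    (Real.sin_pos_of_pos_of_lt_pi (by simpa using hl) (by simp; linarith)).ne'
  unfold PV.PfV
  refine mul_ne_zero (mul_ne_zero (mul_ne_zero (pow_ne_zero _ (rh_ne_re ?_)) (div_ne_zero
    (mul_ne_zero (by norm_num) (rh_ne_re (by simp))) h0))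
    (mul_ne_zero (AV_ne hx hz') (AV_ne hx hz'))) (Pf_ne hx hz)
  rw [sub_re, hz, hz', sub_zero]

/-- the weight of the family on the configurations -/
abbrev wV (ep e1 J : ℝ) (j : ℕ) (s t : ℝ) : CfN (2 * (j + 1)) → ℂ :=
  wN (fun _ => PV.ZV (4 / 3 * (1 - ep)) (rowS j s) [I, -I] [] (I * t) 0)
    (fun _ => NUSea.O.par0 (j + 1)) (2 * (j + 1)) (fun _ => PBU.cr e1 J (j + 1))
    (fun _ => PBU.cr' e1 J (j + 1)) fun _ => PV.PfV (I * t) 0 (rowS j s) (rowS j s)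

theorem wV_eq (ep e1 J : ℝ) (j : ℕ) (s t : ℝ) :
    PBUI.wF PV.famV ep e1 J (j + 1) ((I * s, I * t) : ℂ × ℂ) = wV ep e1 J j s t := rfl

theorem ok_V (j : ℕ) {s t : ℝ} (hs : |s| ≤ 1) (ht : |t| ≤ 1) :
    PV.famV.ok (j + 1) ((I * s, I * t) : ℂ × ℂ) :=
  PBLg.ok_L (m := j + 1) (Nat.le_add_left 1 j) hs ht

theorem bd_V (j : ℕ) (s t : ℝ) : PV.famV.bd (j + 1) ((I * s, I * t) : ℂ × ℂ) =
    ((j + 1 : ℕ) : ℝ) ^ (3 / 4 : ℝ) * Real.exp (4 * |t|) := by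
  show ((j + 1 : ℕ) : ℝ) ^ (3 / 4 : ℝ) * Real.exp (4 * |(I * (t : ℂ)).im|) = _
  simp

/-- **the data of the transfer at `famV`** -/
theorem trN_V : ∃ a0 : ℝ, 0 < a0 ∧ ∀ ep e1 J : ℝ, 0 < ep → ep ≤ 1 / 100 → 0 < e1 →
    e1 ≤ 1 / 100 → 0 ≤ J → Real.exp (-(2 * Real.pi * J)) + 3 * e1 + 3 * ep ≤ a0 →
    ∃ m0 : ℕ, ∀ j : ℕ, m0 ≤ j → ∀ s t : ℝ, |s| ≤ 1 → |t| ≤ 1 →
      PBRep.TrN (PV.ZV (4 / 3 * (1 - ep)) (rowS j s) [I, -I] [] (I * t) 0)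
        (PBT.pL (j + 1)) (3 / 5 * NUP1.l) (2 * (4 / 3 * (1 - ep))) (2 * (4 / 3 * (1 - ep)))
        (ep / 4) (2 * (j + 1)) (fun _ => PBT.crL e1 J (j + 1)) (fun _ => PBT.crL' e1 J (j + 1)) := by
  obtain ⟨a0, ha0, HU⟩ := PV.uxV 2 1 1 one_pos
  refine ⟨a0, ha0, fun ep e1 J hep hep1 he he1 hJ hsm => ?_⟩
  obtain ⟨m1, H⟩ := (HU ep e1 J hep he hJ hsm).mass le_rfl
  obtain ⟨mc, -, Hcur⟩ := PBF.curZ_crs he he1 hJ hep
  refine ⟨max m1 mc, fun j hj s t hs ht => ?_⟩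
  have k1 : m1 ≤ j + 1 := ((le_max_left _ _).trans hj).trans (Nat.le_succ j)
  have k2 : mc ≤ j + 1 := ((le_max_right _ _).trans hj).trans (Nat.le_succ j)
  have hl := Bd.l_pos
  have hlN : NUP1.l = NUMF.l := rfl
  have hre : ∀ r : ℝ, (I * (r : ℂ)).re = 0 := fun r => by simp
  have key := H (j + 1) k1 _ (ok_V j hs ht)
  have hPf : PV.famV.Pf (j + 1) ((I * s, I * t) : ℂ × ℂ) ≠ 0 :=
    PfV_ne (fun i => by
      show (PBL.mu1 j (I * (s : ℂ)) i).re = 0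
      rw [mu1_eq]
      exact rowS_re j s i) (hre t) (by simp)
  have hP : NUGC.ParC (PBT.pL (j + 1)) := PBF.parZ_parC (j + 1)
  have hβ : (0 : ℝ) < 4 / 3 * (1 - ep) := by linarith
  refine ⟨fun n hn => ?_, ?_, fun n hn => ?_⟩
  · exact insQ_of (κ := 2 * (4 / 3 * (1 - ep))) hP (PBX.rad_low (j + 1)) hep hep1 (by linarith)
      (by simp) (mcr_const (curZ_cont e1 J (j + 1) (j + 1 : ℕ)).measurable
        (curZ_cont' e1 J (j + 1) (j + 1 : ℕ)).measurable) fun r _ O => Hcur (j + 1) k2 r O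
  · refine clZ_ZV (β := 4 / 3 * (1 - ep)) hP hep hep1 hβ (by linarith)
      (x := PBL.mu1 j (I * (s : ℂ))) (PBT.rws_mu1 j (by rw [hre, abs_zero]; positivity))
      (ex := [I, -I]) (ex0 := []) ?_ (by simp) (z := I * (t : ℂ)) (by rw [hre]; linarith)
      (by rw [hre]; linarith) (z' := 0) (by rw [zero_re, abs_zero]; positivity)
    intro w hw
    rw [List.mem_cons, List.mem_singleton] at hw
    rcases hw with rfl | rfl
    · rw [Complex.I_re, abs_zero]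
      positivity
    · rw [Complex.neg_re, Complex.I_re, neg_zero, abs_zero]
      positivity
  · rw [PBU.FS_eq] at key
    have h1 : ‖PV.famV.Pf (j + 1) ((I * s, I * t) : ℂ × ℂ)‖ₑ *
        PBF.FE (PV.famV.Z ep (j + 1) ((I * s, I * t) : ℂ × ℂ)) (NUSea.O.par0 (j + 1)) n n
          (PBU.cr e1 J (j + 1)) (PBU.cr' e1 J (j + 1)) (fun _ _ _ _ _ => 1) < ∞ := by
      refine lt_of_le_of_lt ((mul_le_mul_right (Finset.single_le_sum (f := fun n => PBF.FE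
        (PV.famV.Z ep (j + 1) ((I * s, I * t) : ℂ × ℂ)) (NUSea.O.par0 (j + 1)) n n
          (PBU.cr e1 J (j + 1)) (PBU.cr' e1 J (j + 1)) (fun _ _ _ _ _ => 1))
          (fun _ _ => zero_le)
          (Finset.mem_range.2 (Nat.lt_succ_of_le hn))) _).trans key) ENNReal.ofReal_lt_top
    have h2 : ‖PV.famV.Pf (j + 1) ((I * s, I * t) : ℂ × ℂ)‖ₑ ≠ 0 := by
      rwa [Ne, enorm_eq_zero]
    have h3 : PBF.FE (PV.famV.Z ep (j + 1) ((I * s, I * t) : ℂ × ℂ)) (NUSea.O.par0 (j + 1)) n n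
          (PBU.cr e1 J (j + 1)) (PBU.cr' e1 J (j + 1)) (fun _ _ _ _ _ => 1) ≠ ∞ := by
      intro h
      rw [h, ENNReal.mul_top h2] at h1
      exact lt_irrefl _ h1
    rw [PBF.FA_eq_FE]
    simp only [enorm_one]
    exact lt_top_iff_ne_top.2 h3

/-- the total insertion -/
def insTV (j : ℕ) (s t : ℝ) : PBI.Ins := fun ι _ c z =>
  nuQI (PBQ1.rhK (rowS j s)) (PBOb.aK (xiR (rowS j s) 0)) ι c z +
    nuI (PBQ1.rhK (rowS j s)) (PVR.glV (rowS j s) 0 (I * t) 0) ι c z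

/-- its value, sum over the number of quanta, coefficients `PfV` -/
def F0TV (ep : ℝ) (j : ℕ) (s t : ℝ) : ℂ :=
  F0N (PV.ZV (4 / 3 * (1 - ep)) (rowS j s) [I, -I] [] (I * t) 0) (PBT.pL (j + 1))
    (3 / 5 * NUP1.l) (2 * (j + 1)) (fun _ => PV.PfV (I * t) 0 (rowS j s) (rowS j s)) (insTV j s t)

/-- the density of the rows -/
abbrev rhV (j : ℕ) (s : ℝ) : ℝ → ℂ := fun u => rhoR (rowS j s) (vl NUP1.l u)

/-- **the main term**: the form of `PBEM.E2V_of` (`PVX.mainLV`, literally) -/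
def mainV (ep e1 J : ℝ) (j : ℕ) (s t : ℝ) : ℂ :=
  (∫ q, F (mN (2 * (j + 1))) (wV ep e1 J j s t) (fun ω =>
      Vp (rhV j s) (fun _ => PBU.cr e1 J (j + 1)) (Apl (rowS j s) 0 q) ω *
        Vp (rhV j s) (fun _ => PBU.cr e1 J (j + 1)) (Bch q) ω) ∂wm) +
    ((∫ q, F (mN (2 * (j + 1))) (wV ep e1 J j s t) (fun ω =>
        Vm (fun _ => PBU.cr e1 J (j + 1)) (Ami (rowS j s) 0 q) ω *
          Vm (fun _ => PBU.cr e1 J (j + 1)) (Bch q) ω) ∂wm) +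
      2 * F (mN (2 * (j + 1))) (wV ep e1 J j s t) (fun ω =>
        Vm (fun _ => PBU.cr e1 J (j + 1)) (uF (rowS j s) 0) ω *
          SN (NUSea.O.par0 (j + 1)) (fun _ => PBU.cr e1 J (j + 1)) ω) -
      ((PBV.rP j s : ℂ) - (PBV.rM j s : ℂ)) / 2 * F (mN (2 * (j + 1))) (wV ep e1 J j s t)
        (fun ω => SN (NUSea.O.par0 (j + 1)) (fun _ => PBU.cr e1 J (j + 1)) ω *
          SN (NUSea.O.par0 (j + 1)) (fun _ => PBU.cr e1 J (j + 1)) ω)) +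
    F (mN (2 * (j + 1))) (wV ep e1 J j s t)
      (Vp (rhV j s) (fun _ => PBU.cr e1 J (j + 1))
        (fun z => qF (rowS j s) 0 t z - qF (rowS j s) 0 0 z))

/-- the density of the rows is admissible -/
theorem DN_rhV (j : ℕ) (s : ℝ) : rhV j s = rhS (hS j s) := by
  funext u
  exact PBLg.rhoR_hS j s u

/-- **the moments of the family** -/
theorem moV {ep e1 J ε a : ℝ} {Kc : ℝ} (hU : PBU.UB PV.famV ep e1 J 2 Kc ε) (hK : 6 ≤ Kc)
    (ha0 : 0 ≤ a) (ha : a ≤ 8 / 3) : ∃ m0 : ℕ, ∀ j : ℕ, m0 ≤ j → ∀ s t : ℝ, |s| ≤ 1 → |t| ≤ 1 →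
      AEStronglyMeasurable (wV ep e1 J j s t) (mN (2 * (j + 1))) →
      PBRep.Mo a (wV ep e1 J j s t) (rhV j s) (NUSea.O.par0 (j + 1))
        (fun _ => PBU.cr e1 J (j + 1))
        (345600 * ((j + 1 : ℕ) : ℝ) ^ ε * (((j + 1 : ℕ) : ℝ) ^ (3 / 4 : ℝ) * Real.exp (4 * |t|)))
        (PBUI.dl 720 e1 a ε (((j + 1 : ℕ) : ℝ) ^ (3 / 4 : ℝ) * Real.exp (4 * |t|)) (j + 1)) := by
  have hl := Bd.l_pos
  obtain ⟨n1, h1⟩ := PBUI.M2_all hU hK 2 (-(l / 10)) (9 / 20 * l) (by linarith) (by linarith)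
  obtain ⟨n2, h2⟩ := PBUI.pins hU hK ha0 ha 2 (-(l / 10)) (9 / 20 * l) (by linarith) (by linarith)
  refine ⟨max n1 n2, fun j hj s t hs ht hw => ?_⟩
  have j1 : n1 ≤ j + 1 := ((le_max_left _ _).trans hj).trans (Nat.le_succ j)
  have j2 : n2 ≤ j + 1 := ((le_max_right _ _).trans hj).trans (Nat.le_succ j)
  have hok := ok_V j hs ht
  have hDN := PBLg.DN_rhS j s
  rw [← DN_rhV] at hDN
  have hbd := bd_V j s t
  have hb0 : 0 ≤ PV.famV.bd (j + 1) ((I * s, I * t) : ℂ × ℂ) := by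
    rw [hbd]
    positivity
  obtain ⟨k1, k2, k3, k4⟩ := h1 (j + 1) j1 _ hok hb0 _ hDN
  have k5 := h2 (j + 1) j2 _ hok hb0 _ hDN
  rw [hbd, wV_eq] at k1 k4 k5
  simp only [hbd, wV_eq] at k2 k3
  refine ⟨by positivity, hw, k5, k1, fun M h hh _ => ?_, fun M h hh _ => ?_, ?_, k4⟩
  · have hM := hh.nonneg (by linarith) (by linarith)
    exact k2 M h hM (PBU.BC.of_TC hh ha0 hM)
  · have hM := hh.nonneg (by linarith) (by linarith)
    exact k3 M h hM (PBU.BC.of_TC hh ha0 hM)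
  · exact (meas_SN (fun r => (PBF.parZ_parC (j + 1)).rm r)
      fun n _ => PBLg.MCr_cr e1 J (j + 1)).aestronglyMeasurable

/-- **the total insertion against the main term** -/
theorem total_leV {p : ℝ} (hp : 1 / 10 ≤ p) : ∃ a0 : ℝ, 0 < a0 ∧
    ∀ ep e1 J : ℝ, 0 < ep → ep ≤ 1 / 100 → 0 < e1 → e1 ≤ 1 / 100 → 0 ≤ J →
    Real.exp (-(2 * Real.pi * J)) + 3 * e1 + 3 * ep ≤ a0 → ∃ C : ℝ, 0 < C ∧
    ∀ᶠ j : ℕ in atTop, ∀ s ∈ Set.Icc (0 : ℝ) 1, ∀ t ∈ Set.Icc (0 : ℝ) 1,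
      ‖((j + 1 : ℝ) : ℂ) * F0TV ep j s t - mainV ep e1 J j s t‖ ≤
        C * ((j + 1 : ℕ) : ℝ) ^ p := by
  have hl := Bd.l_pos
  have hlN : NUP1.l = NUMF.l := rfl
  obtain ⟨a1, ha1, HT⟩ := trN_V
  obtain ⟨a2, ha2, HU⟩ := PV.uxV 2 6 (1 / 40) (by norm_num)
  obtain ⟨Kr, hKr, HR⟩ := PVR.repI_q (a' := 19 / 10) (by norm_num) (by norm_num)
  obtain ⟨C1, hC1, HE⟩ := PBEI.rep_EF (a := 39 / 20) (a' := 19 / 10) (by norm_num) (by norm_num)
    (by norm_num)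
  obtain ⟨Mq, hMq, HQ⟩ := PVR.exists_glV_dec
  refine ⟨min a1 a2, lt_min ha1 ha2, fun ep e1 J hep hep1 he he1 hJ hsm => ?_⟩
  obtain ⟨m1, HT⟩ := HT ep e1 J hep hep1 he he1 hJ (hsm.trans (min_le_left _ _))
  have hU := HU ep e1 J hep he hJ (hsm.trans (min_le_right _ _))
  obtain ⟨m2, HM⟩ := moV hU le_rfl (a := 19 / 10) (by norm_num) (by norm_num)
  refine ⟨Kr * (1 + Mq) * (720 * Real.exp 4), by positivity, ?_⟩
  filter_upwards [eventually_ge_atTop m1, eventually_ge_atTop m2] with j j1 j2 s hs t ht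
  have hs1 : |s| ≤ 1 := abs_le.2 ⟨by linarith [hs.1], hs.2⟩
  have ht1 : |t| ≤ 1 := abs_le.2 ⟨by linarith [ht.1], ht.2⟩
  have hx := PBEI.rowS_ok j hs1
  have hT := HT j j1 s t hs1 ht1
  have hP : NURow.ParP (PBT.pL (j + 1)) := parP_par0 (j + 1)
  have hPO : PBOb.ParO (PBT.pL (j + 1)) := PBOb.ParO.of hP
  have hPC : NUGC.ParC (PBT.pL (j + 1)) := PBF.parZ_parC (j + 1)
  have hL := ln_row (N := 2 * (j + 1)) hP (x0 := 3 / 5 * l) (by linarith) (by linarith) hx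
  have hw : AEStronglyMeasurable (wV ep e1 J j s t) (mN (2 * (j + 1))) :=
    (wN_meas hT.mc).aestronglyMeasurable
  have hM := HM j j2 s t hs1 ht1 hw
  have hc0 : ∀ n ≤ 2 * (j + 1), MCr (PBT.crL e1 J (j + 1)) (PBT.crL' e1 J (j + 1)) := fun n hn =>
    (hT.ins n hn).hc
  have hre : |(I * (t : ℂ)).re| ≤ l / 2 := by
    rw [show (I * (t : ℂ)).re = 0 by simp, abs_zero]
    positivity
  have hI0 : I * ((0 : ℝ) : ℂ) = 0 := by simp
  -- the linear insertion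
  have hadl : AdS (PBT.pL (j + 1)) (3 / 5 * l) (ep / 4)
      (sK fun b z => ((j + 1 : ℕ) : ℂ) * PVR.glV (rowS j s) 0 (I * t) 0 b z) :=
    (PVR.adS_glV hPO (by linarith) (by linarith) hx 0 hre (p' := 0)
      (by rw [zero_re, abs_zero]; positivity)).cmul _
  obtain ⟨q1, q2⟩ := HQ (j + 1) (rowS j s) 0 hx t 0 ht1 (by simp) (19 / 10) (by norm_num)
    (by norm_num)
  have hobs := PVR.obs_glV (N := 2 * (j + 1)) (P := PBT.pL (j + 1)) (x0 := 3 / 5 * l) (δ := ep / 4)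
    (a := 19 / 10) (Mq := Mq) (η := fun _ => PBT.crL e1 J (j + 1))
    (η' := fun _ => PBT.crL' e1 J (j + 1)) hPC.goodQ hPO (by linarith) hPC.rm hc0
    (by linarith) (fun n hn r hr O => (hT.ins n hn).hη r hr O) hL.hρ (rowS j s) 0 t 0
    (by norm_num) (by norm_num) hMq.le q1 q2
  rw [hI0] at hobs
  have evc : (VC (PBQ1.rhK (rowS j s)) (PBT.pL (j + 1)) (fun _ => PBT.crL e1 J (j + 1))
      fun b z => ((j + 1 : ℕ) : ℂ) * PVR.glV (rowS j s) 0 (I * t) 0 b z :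
        CfN (2 * (j + 1)) → ℂ) =
      fun ω => ((j + 1 : ℕ) : ℂ) * VC (PBQ1.rhK (rowS j s)) (PBT.pL (j + 1))
        (fun _ => PBT.crL e1 J (j + 1)) (PVR.glV (rowS j s) 0 (I * t) 0) ω := by
    funext ω
    exact VC_smul _ _ _ ω
  rw [← evc] at hobs
  -- integrability of the two channels
  obtain ⟨r1, r2, -⟩ := HE (j + 1) (rowS j s) 0 hx
  have y1 : -(NUMF.l / 10) < 0 := by rw [← hlN]; linarith
  have y2 : 0 < 9 / 20 * NUMF.l := by rw [← hlN]; linarith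
  have hρm : AEStronglyMeasurable (rhV j s) volume := by
    rw [DN_rhV]
    exact (PBLg.DN_rhS j s).1.1
  have i1 := i2 (N := 2 * (j + 1)) (η := fun _ => PBT.crL e1 J (j + 1))
    (η' := fun _ => PBT.crL' e1 J (j + 1)) (rowS j s) 0 r1 y1 y2 hρm hc0 hw hM.K0 hM.vp
  have i1' := i2' (N := 2 * (j + 1)) (η := fun _ => PBT.crL e1 J (j + 1))
    (η' := fun _ => PBT.crL' e1 J (j + 1)) (rowS j s) 0 r2 y1 y2 hc0 hw hM.K0 hM.vm
  have key := HR (j + 1) (rowS j s) 0 hx _ (PBT.pL (j + 1)) (3 / 5 * l) _ _ _ (2 * (j + 1)) _ _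
    (fun _ => PV.PfV (I * t) 0 (rowS j s) (rowS j s)) _ (PBQ1.rhK (rowS j s)) (rhV j s)
    (PVR.glV (rowS j s) 0 (I * t) 0) (PVR.qV (rowS j s) 0 t 0) Mq _ _ hT hL hM hadl hobs i1 i1'
  have e1' : ((j + 1 : ℝ) : ℂ) = ((j + 1 : ℕ) : ℂ) := by push_cast; ring
  have eP : PBEI.rP (rowS j s) 0 = (PBV.rP j s : ℂ) := PBEI.rP_rowS j s
  have eM : PBEI.rM (rowS j s) 0 = (PBV.rM j s : ℂ) := PBEI.rM_rowS j s
  rw [eP, eM] at key
  rw [e1']
  refine (key).trans ?_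
  -- sizes
  have hm0 : (0 : ℝ) < ((j + 1 : ℕ) : ℝ) := by positivity
  have hm1 : (1 : ℝ) ≤ ((j + 1 : ℕ) : ℝ) := by exact_mod_cast Nat.succ_le_succ (Nat.zero_le j)
  have hexp : Real.exp (4 * |t|) ≤ Real.exp 4 := Real.exp_le_exp.2 (by linarith)
  have hpow : ((j + 1 : ℕ) : ℝ) ^ (-(3 / 8 * (19 / 10) * (1 - 4 * e1))) *
      ((j + 1 : ℕ) : ℝ) ^ (1 / 40 : ℝ) * ((j + 1 : ℕ) : ℝ) ^ (3 / 4 : ℝ) ≤
      ((j + 1 : ℕ) : ℝ) ^ p := by
    rw [← Real.rpow_add hm0, ← Real.rpow_add hm0]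
    refine Real.rpow_le_rpow_of_exponent_le hm1 ?_
    linarith
  have hdl : PBUI.dl 720 e1 (19 / 10) (1 / 40)
      (((j + 1 : ℕ) : ℝ) ^ (3 / 4 : ℝ) * Real.exp (4 * |t|)) (j + 1) ≤
      720 * Real.exp 4 * ((j + 1 : ℕ) : ℝ) ^ p := by
    unfold PBUI.dl
    calc 720 * ((j + 1 : ℕ) : ℝ) ^ (-(3 / 8 * (19 / 10) * (1 - 4 * e1))) *
          ((j + 1 : ℕ) : ℝ) ^ (1 / 40 : ℝ) *
            (((j + 1 : ℕ) : ℝ) ^ (3 / 4 : ℝ) * Real.exp (4 * |t|)) =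
        720 * (((j + 1 : ℕ) : ℝ) ^ (-(3 / 8 * (19 / 10) * (1 - 4 * e1))) *
          ((j + 1 : ℕ) : ℝ) ^ (1 / 40 : ℝ) * ((j + 1 : ℕ) : ℝ) ^ (3 / 4 : ℝ)) *
            Real.exp (4 * |t|) := by ring
      _ ≤ 720 * ((j + 1 : ℕ) : ℝ) ^ p * Real.exp 4 := by gcongr
      _ = _ := by ring
  have hK0 : 0 ≤ Kr * (1 + Mq) := by positivity
  refine (mul_le_mul_of_nonneg_left hdl hK0).trans (le_of_eq ?_)
  ring

end PVI

end
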