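import Pool.Agent.PV.I1V
import Pool.Agent.PV.RepV
import Pool.Agent.PV.CutAllV
import Pool.Agent.PV.CloseEV

/-!
# Plan V: the first Ward identity of the function with anti-legs (helper89)

Rows `i s, 0^j` (`PBEI.rowS j s`), legs at `i t`, anti-legs at `0`, `b = 4 (1 - ep) / 3`,
`P = par0 (j + 1)`.

* `dPfV`: `d/dη PfV = - PfV (C0 + (C1v z - C1v z'))`; `fVx_num`: the numbers cancel;
* **`hD_allV`**: `‖(j + 1) F0TV - main‖ ≤ δa j` for large `j` gives the first Ward identity with error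
  `δa j + e^4 (j + 1)^(-1/4 + d)`;
* **`hDV`**: `PVX.HDV p` for `1 / 10 ≤ p`, no hypothesis.
-/

set_option autoImplicit false
set_option linter.unusedSectionVars false
set_option linter.unusedVariables false

noncomputable section

attribute [local instance] NUSea.seaP

open Complex MeasureTheory Finset Filter Topology
open scoped Classical

namespace PVI

section num

open NUMF PBForce Pool.Agent.PB PBQ1

variable {m : ℕ}

/-- the derivative of the prefactor in the height of a row -/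
theorem dPfV {y : ℝ → Fin m → ℂ} {t : ℝ} {z z' : ℂ} (i0 : Fin m)
    (hy : ∀ i, HasDerivAt (fun η => y η i) (PBQ1.vv i0 i) t) (hx : ∀ i, (y t i).re = 0)
    (h0 : -l < z.re) (h1 : z.re < 4 * l) (h0' : -l < z'.re) (h1' : z'.re < 4 * l) :
    HasDerivAt (fun η => PV.PfV z z' (y η) (y η))
      (-(PV.PfV z z' (y t) (y t) *
        (PBQ1.C0 (y t) i0 + (C1v z (y t) i0 - C1v z' (y t) i0)))) t := by
  have hl := l_pos
  have hrz : ∀ i, (z' - y t i).re = z'.re := fun i => by simp [hx]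
  have hz5 : ∀ i, |(z' - y t i).re| < 5 * l := fun i => by
    rw [hrz, abs_lt]
    constructor <;> linarith
  have hA : LD (fun η => PV.AV z' (y η))
      (-(Complex.I * (2 * lrh (z' - y t i0) - lLp (z' - y t i0)))) t := by
    have a := LD.ones (F := fun v : ℂ => PBR.rh v ^ 2 /
        (Complex.sin (v + 2 * l) * Complex.sin (v + 3 * l)))
      (g := fun v => 2 * lrh v - lLp v) z' i0 hy (fun i => by
        have q1 := hasDerivAt_rh2 (hz5 i)
        have q2 := hasDerivAt_Lpf (v := z' - y t i) (by rw [hrz]; exact h0') (by rw [hrz]; exact h1')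
        have n2 : Complex.sin (z' - y t i + 2 * l) ≠ 0 := sin_neS
          (by have := hrz i; simp at this ⊢; linarith) (by have := hrz i; simp at this ⊢; linarith)
        have n3 : Complex.sin (z' - y t i + 3 * l) ≠ 0 := sin_neS
          (by have := hrz i; simp at this ⊢; linarith) (by have := hrz i; simp at this ⊢; linarith)
        have n : Complex.sin (z' - y t i + 2 * l) * Complex.sin (z' - y t i + 3 * l) ≠ 0 :=
          mul_ne_zero n2 n3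
        refine (q1.div q2 n).congr_deriv ?_
        field_simp)
    exact a
  have hN : LD (fun η => Pf z (y η) (y η)) (-(PBQ1.C0 (y t) i0 + C1v z (y t) i0)) t := by
    unfold LD
    rw [mul_neg]
    exact Num i0 hy hx h0 h1
  have key := ((LD.const (PBR.rh (z - z') ^ 2 * (2 / 3 * PBR.rh 0 / Complex.sin NUP1.l)) t).mul
    (hA.mul hA)).mul hN
  unfold LD at key
  have e := C1_eq (z := z') i0 hx h0' h1'
  rw [dTT_eq (w := z' - y t i0) (by rw [hrz]; exact h0') (by rw [hrz]; exact h1')] at e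
  refine HasDerivAt.congr_deriv key ?_
  show PV.PfV z z' (y t) (y t) * _ = _
  rw [← mul_neg]
  congr 1
  rw [e]
  unfold lLp
  ring
/-- the force of a leg against the densities is integrable -/
theorem int_C1v {x : Fin m → ℂ} {z : ℂ} (i0 : Fin m) (hx : ∀ i, (x i).re = 0) (h0 : -l < z.re)
    (h1 : z.re < 4 * l) (b : K4) :
    Integrable fun s : ℝ => rhK x b s * (xiK x i0 b (NUP1.vl NUP1.l s) *
      lamK z b (NUP1.vl NUP1.l s)) := by
  have hl := l_pos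
  obtain ⟨σ, k⟩ := b
  rcases k with _ | k
  · have e1 : ∀ s : ℝ, rhK x (σ, none) s * (xiK x i0 (σ, none) (NUP1.vl NUP1.l s) *
        lamK z (σ, none) (NUP1.vl NUP1.l s)) =
        (fun s : ℝ => Complex.I * (Pc s * fSd (z - x i0 + l - s * Complex.I))) (s - (x i0).im) := by
      intro s
      change rhoR x (l + s * Complex.I) * (xiR x i0 (l + s * Complex.I) *
        lamL z (l + s * Complex.I)) = _
      rw [rhoR_line (fun i => by rw [hx i, abs_zero]; exact hl),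
        xiR_line i0 (fun i => by rw [hx i, abs_zero]; exact hl), hr_real (hx i0)]
      have hne := ro_ne i0 hx s
      unfold lamL
      have e3 : z + 2 * (l : ℂ) - (l + s * Complex.I) =
          z - x i0 + l - ((s - (x i0).im : ℝ) : ℂ) * Complex.I := by
        conv_rhs => rw [im_eq (hx i0)]
        push_cast
        ring_nf
        simp
      have e4 : (((s - (x i0).im : ℝ) : ℂ)) = s - ((x i0).im : ℂ) := by push_cast; ring
      rw [e3, ← e4]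
      beta_reduce
      generalize ((s - (x i0).im : ℝ) : ℂ) = q
      generalize fSd (z - x i0 + l - q * Complex.I) = F
      field_simp
    simp only [e1]
    have hz : (z - x i0).re = z.re := by simp [hx]
    have h := (int_dTT (w := z - x i0) (by rw [hz]; exact h0) (by rw [hz]; exact h1)).const_mul
      Complex.I
    exact h.comp_sub_right (x i0).im
  · have e : (fun s : ℝ => rhK x (σ, some k) s * (xiK x i0 (σ, some k) (NUP1.vl NUP1.l s) *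
        lamK z (σ, some k) (NUP1.vl NUP1.l s))) = fun _ => 0 := by
      funext s
      simp [rhK_some]
    rw [e]
    exact integrable_zero _ _ _

/-- **the constant of the legs and the anti-legs** -/
theorem C1V_sub {x : Fin m → ℂ} {z z' : ℂ} (i0 : Fin m) (hx : ∀ i, (x i).re = 0)
    (h0 : -l < z.re) (h1 : z.re < 4 * l) (h0' : -l < z'.re) (h1' : z'.re < 4 * l) :
    PBI.C1 (rhK x) (xiK x i0) (PV.lamV z z') = C1v z x i0 - C1v z' x i0 := by
  unfold PBI.C1 C1v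
  rw [← Finset.sum_sub_distrib]
  refine Finset.sum_congr rfl fun b _ => ?_
  rw [← integral_sub (int_C1v i0 hx h0 h1 b) (int_C1v i0 hx h0' h1' b)]
  refine integral_congr_ae (Filter.Eventually.of_forall fun s => ?_)
  show rhK x b s * (xiK x i0 b (NUP1.vl NUP1.l s) * (lamK z b (NUP1.vl NUP1.l s) -
    lamK z' b (NUP1.vl NUP1.l s))) = _
  ring

end num

open NUP1 hiding Kd
open NUP1S NUP1.Bd NURow PB PBZF PBRep PBQ1 PBForce PBI PBT PV
open PBX (Lg DZ)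
open PBLX (SmallP)
open PVZ (ZRV ZdRV ZpRV ZRV_ZV exists_zfamV_P cutAllV F0_ZRV_ev)

/-- the family at `η0` is `ZV` -/
theorem ZRV_I (b : ℝ) (a : ℕ) (z z' : ℂ) (η0 : ℝ) (v : Fin 2 → ℂ) :
    ZRV (fun _ => Leg.cc (a + 1)) b a z z' η0 v η0 =
      PV.ZV b (PBZF.rwx a (η0 : ℂ)) [I, -I] [] z z' := by
  have h := PBZF.vx_at η0 v
  have h0 : PBZF.vx η0 v (η0 : ℂ) 0 = I := by rw [h]; rfl
  have h1 : PBZF.vx η0 v (η0 : ℂ) 1 = -I := by rw [h]; rfl
  rw [ZRV_ZV, h0, h1]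

/-- the numbers of the first Ward identity cancel -/
theorem fVx_num {a : ℕ} {s : ℝ} {z : ℂ} (h0 : -NUMF.l < z.re) (h1 : z.re < 4 * NUMF.l) :
    ∃ Pf' : ℂ, HasDerivAt (fun η : ℝ => PfV z 0 (PBZF.rwx a (η : ℂ)) (PBZF.rwx a (η : ℂ))) Pf' s ∧
      Pf' + PfV z 0 (PBZF.rwx a (s : ℂ)) (PBZF.rwx a (s : ℂ)) *
        (PBI.C0 (rhK (PBZF.rwx a s)) (r1K (PBZF.rwx a s) 0) +
          C1 (rhK (PBZF.rwx a s)) (xiK (PBZF.rwx a s) 0) (lamV z 0)) = 0 := by
  have hl := NUMF.l_pos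
  refine ⟨_, dPfV (y := fun η : ℝ => PBZF.rwx a (η : ℂ)) (t := s) (z := z) (z' := 0) 0
    (rwx_deriv a s) (rwx_re a s) h0 h1 (by rw [Complex.zero_re]; linarith)
    (by rw [Complex.zero_re]; linarith), ?_⟩
  have e1 : PBI.C0 (rhK (PBZF.rwx a s)) (r1K (PBZF.rwx a s) 0) = PBQ1.C0 (PBZF.rwx a s) 0 :=
    PBQ1.C0_eq
  have e2 : C1 (rhK (PBZF.rwx a s)) (xiK (PBZF.rwx a s) 0) (lamV z 0) =
      C1v z (PBZF.rwx a s) 0 - C1v 0 (PBZF.rwx a s) 0 :=
    C1V_sub 0 (rwx_re a s) h0 h1 (by rw [Complex.zero_re]; linarith)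
      (by rw [Complex.zero_re]; linarith)
  rw [e1, e2]
  ring

/-- **the first Ward identity for large `j`** -/
theorem hD_allV (hS : NUStabP.StabProd) {d : ℝ} (hd : 0 < d) : ∃ a0 : ℝ, 0 < a0 ∧
    ∀ ep : ℝ, 0 < ep → ep ≤ 1 / 100 → ∀ e1 : ℝ, 0 < e1 → e1 ≤ 1 / 100 → ∀ J : ℝ, 0 ≤ J →
    Real.exp (-(2 * Real.pi * J)) + 3 * e1 + 3 * ep ≤ a0 →
    ∀ {main : ℕ → ℝ → ℝ → ℂ} {δa : ℕ → ℝ},
    (∀ᶠ j : ℕ in atTop, ∀ s ∈ Set.Icc (0 : ℝ) 1, ∀ t ∈ Set.Icc (0 : ℝ) 1,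
      ‖((j + 1 : ℝ) : ℂ) * F0TV ep j s t - main j s t‖ ≤ δa j) →
    ∀ᶠ j : ℕ in atTop, ∀ s ∈ Set.Icc (0 : ℝ) 1, ∀ t ∈ Set.Icc (0 : ℝ) 1, ∃ D : ℂ,
      HasDerivAt (fun s : ℝ => fVx j (I * s) (I * t)) D s ∧
      ‖((j + 1 : ℝ) : ℂ) * D - main j s t‖ ≤
        δa j + Real.exp 4 * ((j + 1 : ℕ) : ℝ) ^ (-(1 / 4) + d) := by
  obtain ⟨a0, ha0, HT⟩ := cutAllV hS hd
  refine ⟨a0, ha0, fun ep hep hep1 e1 he he1 J hJ hsm main δa hmain => ?_⟩
  obtain ⟨m0, HT⟩ := HT ep hep hep1 e1 he he1 J hJ hsm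
  filter_upwards [hmain, eventually_ge_atTop m0] with j h1 hj s hs t ht
  have hl := Bd.l_pos
  have hlN : NUP1.l = NUMF.l := rfl
  have hs1 : |s| ≤ 1 := abs_le.2 ⟨by linarith [hs.1], hs.2⟩
  have ht1 : |t| ≤ 1 := abs_le.2 ⟨by linarith [ht.1], ht.2⟩
  have hre : (I * (t : ℂ)).re = 0 := by simp
  have him : (I * (t : ℂ)).im = t := by simp
  have hz : Lz (I * (t : ℂ)) := by
    constructor <;> rw [hre] <;> linarith
  have hP : NUGC.ParC (pL (j + 1)) := PBF.parZ_parC (j + 1)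
  have h0' : |(0 : ℂ).re| ≤ NUP1.l / 2 := by
    rw [Complex.zero_re, abs_zero]
    positivity
  have h0'' : |(0 : ℂ).re| < 7 / 10 * NUP1.l := by
    rw [Complex.zero_re, abs_zero]
    positivity
  set v : Fin 2 → ℂ := PBFar.vI (4 / 3 * (1 - ep)) j ((s : ℂ) * I) I (PBFar.xe j s) with hv
  have hb : (0 : ℝ) < 4 / 3 * (1 - ep) := by linarith
  have hb' : 4 / 3 * (1 - ep) ≤ 4 / 3 := by linarith
  obtain ⟨Dz, -, hZF⟩ := exists_zfamV_P (fun _ => Leg.cc (j + 1)) j (z := I * (t : ℂ))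
    (z' := 0) s v hb hb' hz h0' 
  obtain ⟨Pf', hPf, hN⟩ := fVx_num (a := j) (s := s) (z := I * (t : ℂ))
    (by rw [hre]; linarith) (by rw [hre]; linarith)
  have hF : ∀ n ∈ range (2 * (j + 1) + 1), ∃ B, FFam (3 / 5 * l) n (fl (pL (j + 1))) B
      (xiK (PBZF.rwx j s) 0) (fun b w => deriv (xiR (PBZF.rwx j s) 0) (fp b w))
      (PBOb.aK (xiR (PBZF.rwx j s) 0)) (rhK (PBZF.rwx j s)) (krK (PBZF.rwx j s))
      (r1K (PBZF.rwx j s) 0) (lamV (I * t) 0) := fun n _ => by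
    rw [rwx_rowS]
    exact ffamHV j s t n hs1 ht1
  have key := fVx_D (a := j) (s := s) (z := I * (t : ℂ)) (P := pL (j + 1)) (by rw [hre])
    (Z := ZRV (fun _ => Leg.cc (j + 1)) (4 / 3 * (1 - ep)) j (I * t) 0 s v)
    (Zd := ZdRV (fun _ => Leg.cc (j + 1)) (4 / 3 * (1 - ep)) j (I * t) 0 s v)
    (Zp := ZpRV (fun _ => Leg.cc (j + 1)) (4 / 3 * (1 - ep)) j (I * t) 0 s v)
    (fun n _ => hZF _ hP n) hF
    (F0_ZRV_ev hP hb hb' j hz h0'' s v (range (2 * (j + 1) + 1)))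
    hPf hN
  have ecc : ∀ a : Bool, ‖(fun _ : Bool => Leg.cc (j + 1)) a‖ = 2 * Real.cos NUP1.l := fun _ =>
    norm_ccL _
  have hlog : 0 ≤ Real.log ((j + 1 : ℕ) : ℝ) := Real.log_nonneg (by
    have : (1 : ℝ) ≤ ((j + 1 : ℕ) : ℝ) := by exact_mod_cast Nat.succ_le_succ (Nat.zero_le j)
    exact this)
  have hc := HT j hj s hs1 (I * t) hz (by rw [him]; linarith [ht1]) (fun _ => Leg.cc (j + 1)) ecc v hv
  have efx : (fun s : ℝ => fVx j (I * s) (I * t)) = fun η : ℝ => fVx j ((η : ℂ) * I) (I * t) := by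
    funext η
    rw [mul_comm]
  rw [efx]
  have eA : F0TV ep j s t = F0N (ZRV (fun _ => Leg.cc (j + 1)) (4 / 3 * (1 - ep)) j (I * t) 0 s v s)
      (pL (j + 1)) (3 / 5 * NUP1.l) (2 * (j + 1))
      (fun _ => PfV (I * t) 0 (PBZF.rwx j s) (PBZF.rwx j s))
      (fun ι _ c z => nuQI (rhK (PBZF.rwx j s)) (PBOb.aK (xiR (PBZF.rwx j s) 0)) ι c z +
        nuI (rhK (PBZF.rwx j s)) (glKV (I * t) 0 (PBZF.rwx j s) 0) ι c z) := by
    unfold F0TV insTV
    rw [ZRV_I, rwx_rowS]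
    rfl
  have h2 := h1 s hs t ht
  rw [eA] at h2
  have hcn := hD_one key h2 hc
  obtain ⟨D, hD, hb2⟩ := hcn
  refine ⟨D, hD, hb2.trans ?_⟩
  have hj0 : (0 : ℝ) < ((j + 1 : ℕ) : ℝ) := by positivity
  have en : ‖(((j : ℝ) + 1 : ℝ) : ℂ)‖ = ((j + 1 : ℕ) : ℝ) := by
    rw [Complex.norm_real, Real.norm_of_nonneg (by positivity)]
    push_cast
    ring
  have e2 : Real.exp (4 * |(I * (t : ℂ)).im|) ≤ Real.exp 4 := by
    rw [him]
    exact Real.exp_le_exp.2 (by linarith)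
  have e3 : ((j + 1 : ℕ) : ℝ) * (((j + 1 : ℕ) : ℝ) ^ (-2 + d) * ((j + 1 : ℕ) : ℝ) ^ (3 / 4 : ℝ)) =
      ((j + 1 : ℕ) : ℝ) ^ (-(1 / 4) + d) := by
    have h := Real.rpow_add hj0 1 (-2 + d)
    rw [Real.rpow_one] at h
    rw [← mul_assoc, ← h, ← Real.rpow_add hj0]
    congr 1
    ring
  rw [en]
  have hp : 0 ≤ ((j + 1 : ℕ) : ℝ) ^ (-2 + d) := Real.rpow_nonneg hj0.le _
  have hp' : 0 ≤ ((j + 1 : ℕ) : ℝ) ^ (3 / 4 : ℝ) := Real.rpow_nonneg hj0.le _
  calc δa j + ((j + 1 : ℕ) : ℝ) * (((j + 1 : ℕ) : ℝ) ^ (-2 + d) *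
        (((j + 1 : ℕ) : ℝ) ^ (3 / 4 : ℝ) * Real.exp (4 * |(I * (t : ℂ)).im|)))
      ≤ δa j + ((j + 1 : ℕ) : ℝ) * (((j + 1 : ℕ) : ℝ) ^ (-2 + d) *
        (((j + 1 : ℕ) : ℝ) ^ (3 / 4 : ℝ) * Real.exp 4)) := by gcongr
    _ = δa j + Real.exp 4 * (((j + 1 : ℕ) : ℝ) *
        (((j + 1 : ℕ) : ℝ) ^ (-2 + d) * ((j + 1 : ℕ) : ℝ) ^ (3 / 4 : ℝ))) := by ring
    _ = _ := by rw [e3]

/-- **`HDV`**, no hypothesis -/
theorem hDV {p : ℝ} (hp : 1 / 10 ≤ p) : PVX.HDV p := by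
  obtain ⟨a1, ha1, H1⟩ := total_leV hp
  obtain ⟨a2, ha2, H2⟩ := hD_allV Pool.Agent.NUM3.stabProd (d := 1 / 4) (by norm_num)
  refine ⟨min a1 a2, lt_min ha1 ha2, fun ep e1 J hP => ?_⟩
  obtain ⟨C, hC, H1⟩ := H1 ep e1 J hP.ep0 hP.ep1 hP.e0 hP.e1' hP.J0 (hP.sm.trans (min_le_left _ _))
  have hp0 : (0 : ℝ) ≤ p := by linarith
  have H := H2 ep hP.ep0 hP.ep1 e1 hP.e0 hP.e1' J hP.J0 (hP.sm.trans (min_le_right _ _))
    (main := fun j s t => PVX.mainLV ep e1 J j s t) (δa := fun j => C * ((j + 1 : ℕ) : ℝ) ^ p) H1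
  refine ⟨C * 2 ^ p + Real.exp 4, by positivity, ?_⟩
  filter_upwards [H, eventually_ge_atTop 1] with j h1 h2 s hs t ht
  obtain ⟨D, hD, hb⟩ := h1 s hs t ht
  refine ⟨D, hD, hb.trans ?_⟩
  have hj1 : (1 : ℝ) ≤ j := by exact_mod_cast h2
  have hj0 : (0 : ℝ) < j := by linarith
  have p1 : ((j + 1 : ℕ) : ℝ) ^ (-(1 / 4) + 1 / 4 : ℝ) ≤ (j : ℝ) ^ p := by
    rw [show (-(1 / 4) + 1 / 4 : ℝ) = 0 by norm_num, Real.rpow_zero]
    exact Real.one_le_rpow hj1 hp0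
  have p2 : ((j + 1 : ℕ) : ℝ) ^ p ≤ 2 ^ p * (j : ℝ) ^ p := by
    rw [← Real.mul_rpow (by norm_num) hj0.le]
    refine Real.rpow_le_rpow (by positivity) ?_ hp0
    push_cast
    linarith
  have hE := Real.exp_pos (4 : ℝ)
  calc C * ((j + 1 : ℕ) : ℝ) ^ p + Real.exp 4 * ((j + 1 : ℕ) : ℝ) ^ (-(1 / 4) + 1 / 4 : ℝ) ≤
      C * (2 ^ p * (j : ℝ) ^ p) + Real.exp 4 * (j : ℝ) ^ p := by gcongr
    _ = _ := by ring

end PVI

end
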