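import Pool.Agent.PB.LevX
import Pool.Agent.PV.Defs
import Pool.Agent.PV.FibV

/-!
# Plan V: the family of the second Ward identity (helper90)

The copy of `PB/LevH` and `PB/LevX` (helper91) for the family `PV.famV` of legs at `i t` and anti-legs
at `0`. Rows `rowS j s`, density `rhS`, curves `eC`, parameters `pS`, `SmallP` are those of plan B.

* `ZFV`, `cFV`, `wSV` (`wSV_eq`: the weight of `famV`); `KjV`, `djV`: sizes of the moments;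
* `mbdSV`, `mom4SV`: the moments of the family, from `UX famV`;
* `fibSV`, `hl_fibV0`, `h0V0_fam`, `LPo`: the instances of the second Ward identities;
* `WpSV`, `WmSV`; **`levXV`**: `PBEM.LevD` at the family.
-/

set_option autoImplicit false
set_option linter.unusedSectionVars false

noncomputable section

open Complex MeasureTheory Filter Topology Set
open scoped ENNReal

namespace PVX

open NUO NUP1S NUP1S.Ab NUP1S.AbC NUGC PBF PBFunc PBU PBLX PV PVL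
open NUP1 hiding Kd
open PBEI (rowS rowS_zero rowS_ne rowS_ok)
open PBQ1 (hr)

attribute [local instance] NUSea.seaP

/-- the one body functions -/
abbrev ZFV (ep : ℝ) (j : ℕ) (s t : ℝ) : Bool → Option O3 → ℂ → ℂ :=
  ZV (4 / 3 * (1 - ep)) (rowS j s) [I, -I] [] (I * t) 0

/-- the prefactor -/
abbrev cFV (j : ℕ) (s t : ℝ) : ℕ → ℂ := fun _ => PfV (I * t) 0 (rowS j s) (rowS j s)

/-- **the weight of the family** -/
abbrev wSV (ep e1 J : ℝ) (j : ℕ) (s t : ℝ) : CfN (2 * (j + 1)) → ℂ :=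
  wN (fun _ => ZFV ep j s t) (pS j) (2 * (j + 1)) (eC e1 J j) (eC' e1 J j) (cFV j s t)

theorem wSV_eq (ep e1 J : ℝ) (j : ℕ) (s t : ℝ) :
    wSV ep e1 J j s t = wF famV ep e1 J (j + 1) (I * s, I * t) := rfl

/-! ### the spectator -/

theorem LV_eq (z z' u : ℂ) : LV z z' u = LgV z z' u := rfl

theorem LV_meas (z z' : ℂ) : Measurable (LV z z') := LgV_meas z z'

variable {m : ℕ}

theorem ZV_meas (β : ℝ) (x : Fin m → ℂ) (ex ex0 : List ℂ) (z z' : ℂ) (a : Bool)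
    (k : Option O3) : Measurable (ZV β x ex ex0 z z' a k) :=
  PBX.measurable_XX (PBX.measurable_gP _ _) (PBX.measurable_gP _ _) (LV_meas z z')
    ((LV_meas z z').mul ((LV_meas z z').comp (measurable_id.sub_const _))) k

theorem ZV_qu (β : ℝ) (x : Fin m → ℂ) (W W0 : List ℂ) (z z' : ℂ) (s : Bool) (u : ℂ) :
    ZV β x W W0 z z' s none u = quV β x W z z' u := rfl

/-- measurability of the family -/
theorem mc_famV (ep e1 J : ℝ) (m : ℕ) (i : ℂ × ℂ) :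
    MC (famV.Z ep m i) (NUSea.O.par0 m) (cr e1 J m) (cr' e1 J m) :=
  MC.of (PBX.ParC_par0 m).rm (fun a k => ZV_meas _ _ _ _ _ _ a k) (PBFX.mcr_cr' e1 J m)

/-! ### the moments -/

/-- the constant of the second moments -/
def KjV (ε : ℝ) (j : ℕ) : ℝ := 6 * (((j : ℝ) + 1) ^ ε * (((j : ℝ) + 1) ^ (3 / 4 : ℝ) * Real.exp 4))

/-- the size of the pins -/
def djV (ε e1 q : ℝ) (j : ℕ) : ℝ :=
  3 * ((j : ℝ) + 1) ^ (-(3 / 8 * q * (1 - 4 * e1))) *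
    (((j : ℝ) + 1) ^ ε * (((j : ℝ) + 1) ^ (3 / 4 : ℝ) * Real.exp 4))

theorem KjV_pos (ε : ℝ) (j : ℕ) : 0 < KjV ε j := by unfold KjV; positivity

theorem djV_pos (ε e1 q : ℝ) (j : ℕ) : 0 < djV ε e1 q j := by unfold djV; positivity

/-- the index is admissible -/
theorem ok_famV (j : ℕ) {s t : ℝ} (hs : s ∈ Icc (0 : ℝ) 1) (ht : t ∈ Icc (0 : ℝ) 1) :
    famV.ok (j + 1) (I * s, I * t) := ok_famL j hs ht

theorem bd_famV (j : ℕ) {s t : ℝ} (ht : t ∈ Icc (0 : ℝ) 1) :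
    famV.bd (j + 1) (I * (s : ℂ), I * (t : ℂ)) ≤ ((j : ℝ) + 1) ^ (3 / 4 : ℝ) * Real.exp 4 := by
  show ((j + 1 : ℕ) : ℝ) ^ (3 / 4 : ℝ) * Real.exp (4 * |(I * (t : ℂ)).im|) ≤ _
  have e : (I * (t : ℂ)).im = t := by simp
  rw [e, abs_of_nonneg ht.1]
  have ec : ((j + 1 : ℕ) : ℝ) = (j : ℝ) + 1 := by push_cast; rfl
  rw [ec]
  exact mul_le_mul_of_nonneg_left (Real.exp_le_exp.2 (by linarith [ht.2])) (by positivity)

theorem bd0_famV (j : ℕ) (s t : ℝ) : 0 ≤ famV.bd (j + 1) (I * (s : ℂ), I * (t : ℂ)) := by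
  show 0 ≤ ((j + 1 : ℕ) : ℝ) ^ (3 / 4 : ℝ) * Real.exp (4 * |(I * (t : ℂ)).im|)
  positivity

/-- **the moments of the family** -/
theorem mbdSV (hU : UX famV) {q ε : ℝ} (hq0 : 0 ≤ q) (hq : q ≤ 8 / 3) (hε : 0 < ε) :
    ∃ a0 : ℝ, 0 < a0 ∧ ∀ ep e1 J : ℝ, SmallP a0 ep e1 J → ∀ y₁ y₂ : ℝ, y₁ < 0 → 0 < y₂ →
    ∀ᶠ j : ℕ in atTop, ∀ s ∈ Icc (0 : ℝ) 1, ∀ t ∈ Icc (0 : ℝ) 1,
      MBd (2 * (j + 1)) (fun _ => ZFV ep j s t) (pS j) (eC e1 J j) (eC' e1 J j) (cFV j s t)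
        (rhS j s) y₁ y₂ (KjV ε j) q (djV ε e1 q j) := by
  obtain ⟨a0, ha0, H⟩ := hU 2 6 ε hε
  obtain ⟨C0, -, hC0⟩ := dn_rows
  refine ⟨a0, ha0, fun ep e1 J hp y₁ y₂ h1 h2 => ?_⟩
  have hUB : UB famV ep e1 J 2 6 ε := H ep e1 J hp.ep0 hp.e0 hp.J0 hp.sm
  obtain ⟨m0, hm0⟩ := hUB.mbd le_rfl le_rfl hq0 hq C0 y₁ y₂ h1 h2
  filter_upwards [eventually_ge_atTop m0] with j hj s hs t ht
  have key := hm0 (j + 1) (by omega) (I * s, I * t) (ok_famV j hs ht)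
    (mc_famV ep e1 J (j + 1) _) (rhS j s) (hC0 j s)
  have hb := bd_famV (s := s) j ht
  have hb0 := bd0_famV j s t
  have hj1 : (0 : ℝ) < ((j + 1 : ℕ) : ℝ) := by positivity
  have ec : ((j + 1 : ℕ) : ℝ) = (j : ℝ) + 1 := by push_cast; rfl
  refine PBLX.MBd.mono key (by positivity) ?_ ?_
  · unfold KjV
    rw [← ec] at hb ⊢
    gcongr
  · unfold djV
    rw [← ec] at hb ⊢
    gcongr

/-- **products of four statistics at the family** -/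
theorem mom4SV (hU : UX famV) {ε : ℝ} (hε : 0 < ε) :
    ∃ a0 : ℝ, 0 < a0 ∧ ∀ ep e1 J : ℝ, SmallP a0 ep e1 J → ∀ y₁ y₂ : ℝ, y₁ < 0 → 0 < y₂ →
    ∀ᶠ j : ℕ in atTop, ∀ s ∈ Icc (0 : ℝ) 1, ∀ t ∈ Icc (0 : ℝ) 1,
      PBQM.Mom4 (mN (2 * (j + 1))) (wSV ep e1 J j s t)
        (PBQM.VN (2 * (j + 1)) (eC e1 J j) (rhS j s)) y₁ y₂ (KjV ε j) := by
  obtain ⟨a0, ha0, H⟩ := hU 4 1 ε hε
  obtain ⟨C0, -, hC0⟩ := dn_rows
  refine ⟨a0, ha0, fun ep e1 J hp y₁ y₂ h1 h2 => ?_⟩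
  have hUB : UB famV ep e1 J 4 1 ε := H ep e1 J hp.ep0 hp.e0 hp.J0 hp.sm
  obtain ⟨m0, hm0⟩ := hUB.mom4 le_rfl le_rfl hp.e0 hp.e1' hp.J0 C0 y₁ y₂ h1 h2
  filter_upwards [eventually_ge_atTop m0] with j hj s hs t ht
  have key := hm0 (j + 1) (by omega) (I * s, I * t) (ok_famV j hs ht)
    (mc_famV ep e1 J (j + 1) _) (rhS j s)
    (rhS_meas j (abs_le.2 ⟨by linarith [hs.1], hs.2⟩)) (hC0 j s)
  have hb := bd_famV (s := s) j ht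
  have hb0 := bd0_famV j s t
  have ec : ((j + 1 : ℕ) : ℝ) = (j : ℝ) + 1 := by push_cast; rfl
  intro M g hM hg
  refine (key M g hM hg).trans (ENNReal.ofReal_le_ofReal
    (mul_le_mul_of_nonneg_left ?_ (Finset.prod_nonneg fun j _ => hM j)))
  unfold KjV
  rw [ec]
  have h5 : ((j : ℝ) + 1) ^ ε * famV.bd (j + 1) (I * (s : ℂ), I * (t : ℂ)) ≤
      ((j : ℝ) + 1) ^ ε * (((j : ℝ) + 1) ^ (3 / 4 : ℝ) * Real.exp 4) :=
    mul_le_mul_of_nonneg_left hb (by positivity)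
  have h6 : 0 ≤ ((j : ℝ) + 1) ^ ε * (((j : ℝ) + 1) ^ (3 / 4 : ℝ) * Real.exp 4) := by positivity
  linarith

/-! ### the instances of the second Ward identities -/

/-- **the data of all fibres of the family**, any sea `ρ` -/
theorem fibSV {ep e1 J : ℝ} (hep0 : 0 < ep) (hep : ep ≤ 1 / 100) (he : 0 < e1)
    (he1 : e1 ≤ 1 / 100) (hJ : 0 ≤ J) :
    ∃ j0 : ℕ, ∀ j ≥ j0, ∀ (s t : ℝ) (ρ : ℂ → ℂ) (b0 b1 : ℝ), ep * l / 4 ≤ b0 → b0 < b1 →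
      2 * b1 ≤ l → PB.SeaF b1 ρ →
      ∀ κ : ℕ → ℝ, (∀ n, 0 < κ n) → (∀ n, κ n ≤ 2 * (4 / 3 * (1 - ep))) →
      ∀ N : ℕ, FibN N (fun _ => ZFV ep j s t) (pS j) (eC e1 J j) (eC' e1 J j) (ep / 4) 0 b0 b1 κ
        (fun _ _ => LZV (4 / 3 * (1 - ep)) (rowS j s) [I, -I] (I * t) 0)
        (fun _ => LPo (NUSea.O.par0 (j + 1))) ρ := by
  have hl := NUP1.Bd.l_pos
  obtain ⟨j0, H⟩ := fibN_fxV hep0 hep he he1 hJ
  refine ⟨j0, fun j hj s t ρ b0 b1 hb0 hb01 hb1l hρ κ hκ0 hκ N => ?_⟩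
  exact H j hj s t 0 (by rw [zero_re, abs_zero]; positivity) (ZFV ep j s t) (fun b u => rfl)
    (fun b k => ZV_meas _ _ _ _ _ _ b k) ρ b0 b1 hb0 hb01 hb1l hρ κ hκ0 hκ N

/-- the legs at `i t`, the anti-legs at `0` -/
def h0V0 (t : ℝ) (z : ℂ) : ℂ := PBEI.h0T t z - PBEI.h0T 0 z

theorem h0V0_eq (t : ℝ) : h0V0 t = h0V t 0 := rfl

theorem LZV0 (β : ℝ) (x : Fin m → ℂ) (W : List ℂ) (p u : ℂ) :
    LZV β x W p 0 u = LZV β x W p (I * (0 : ℝ)) u := by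
  rw [ofReal_zero, mul_zero]

/-- **the force on the curves**, in the form of `wplus` and `wm_of` -/
theorem hl_fibV0 {N : ℕ} {Z : ℕ → Bool → Option O3 → ℂ → ℂ} {P : ℕ → NUO.Par} {η η' : ℕ → Crs}
    {δ b0 b1 : ℝ} {κ : ℕ → ℝ} {LP : ℕ → (r : ℕ) → (Fin r → Xo) → Bool → ℂ → ℂ} {β : ℝ}
    {W : List ℂ} {j : ℕ} {s t : ℝ} {ρ : ℂ → ℂ}
    (h : FibN N Z P η η' δ 0 b0 b1 κ (fun _ _ => LZV β (rowS j s) W (I * t) 0) LP ρ)
    (hρ : ρ = fun z => PBForce.rhoR (rowS j s) (NUP1.l + I * z)) (n : ℕ) (hn : n ≤ N)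
    (r : ℕ) (O : Fin r → Xo) (u : Bool) (y : ℝ) :
    I * LZV β (rowS j s) W (I * t) 0 (NUP1.l + I * zy 0 (η n r O) y) -
      PB.cV (deriv ρ) (zy 0 (η n r O) y) =
      h0V0 t (zy 0 (η n r O) y) +
        (fun _ : Bool => PBLZ.cutI β (List.ofFn (rowS j s) ++ W)) u (zy 0 (η n r O) y) := by
  subst hρ
  rw [LZV0]
  refine hl_famV β W j s t 0 ?_
  have h1 := zy_strip (h.hs n hn) r O y
  have h2 := h.b01
  have h3 := h.b1l
  have h4 := h.b1p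
  linarith

/-- **the two legs are analytic and bounded** -/
theorem h0V0_fam {b : ℝ} (hb : b ≤ 2 / 5 * NUP1.l) (t : ℝ) :
    (∀ z : ℂ, |z.im| < b → DifferentiableAt ℂ (h0V0 t) z) ∧
    ∀ z : ℂ, |z.im| < b → ‖h0V0 t z‖ ≤ 2 * PBEI.cL := h0V_fam hb t 0

/-! ### level two at the family -/

/-- the fibres of the family -/
theorem bas_fxV {a0 ep e1 J : ℝ} (hp : SmallP a0 ep e1 J) {b' : ℝ} (hb : NUP1.l / 20 < b')
    (hb' : b' ≤ 9 / 100 * NUP1.l) : ∀ᶠ j : ℕ in atTop, ∀ s ∈ Icc (0 : ℝ) 1, ∀ t ∈ Icc (0 : ℝ) 1,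
      Bas (2 * (j + 1)) (fun _ => ZFV ep j s t) (NUSea.O.par0 (j + 1)) (eC e1 J j) (eC' e1 J j)
        (NUP1.l / 20) b' := by
  have hl := NUP1.Bd.l_pos
  obtain ⟨j0, H⟩ := fibSV hp.ep0 hp.ep1 hp.e0 hp.e1' hp.J0
  obtain ⟨c0, -, hs0⟩ := seaL_rhS (b := b') (by linarith) (by linarith)
  filter_upwards [eventually_ge_atTop j0] with j hj s hs t ht
  have hF := H j hj s t (rhS j s) (NUP1.l / 20) b' (by nlinarith [hp.ep1]) hb (by linarith)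
    (hs0 j s (abs_le.2 ⟨by linarith [hs.1], hs.2⟩)).2 (fun _ => 1) (fun _ => one_pos)
    (fun _ => by linarith [hp.ep1]) (2 * (j + 1))
  exact
  { mc := hF.mc
    hs := hF.hs
    hb := hb
    hbl := by linarith
    mZ := hF.mZ
    po := fun r O => PBOR.PO_par0 (j + 1) O
    rad := (PBX.ParC_par0 (j + 1)).rm }

open PBE (TC mass WPl WMi)
open PBEI (y1 y2 Apl Ami Bch)
open PBV (wm)

/-- the identities of neutral test functions, plus channel -/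
def WpSV (a : ℝ) (mf : ℝ → ℝ → ℂ) (K th dp : ℕ → ℝ) (ep e1 J : ℝ) : Prop :=
  ∀ᶠ j : ℕ in atTop, ∀ s ∈ Icc (0 : ℝ) 1, ∀ t ∈ Icc (0 : ℝ) 1, ∀ M g, TC y1 y2 a M g →
    mass g = 0 → ∃ (D : (ℂ → ℂ) → CfN (2 * (j + 1)) → ℂ) (Q P : CfN (2 * (j + 1)) → ℂ),
      WPl y1 y2 a (mN (2 * (j + 1))) (wSV ep e1 J j s t) (K j) (th j) (dp j) M
        (fun h => evN fun n => Vy 0 (eC e1 J j n) (rhS j s) fun _ => h) g
        (Pool.Agent.PB.mV (mf t) g) (Pool.Agent.PB.CV g) D Q P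

/-- the identities of test functions, minus channel -/
def WmSV (a : ℝ) (K th dp : ℕ → ℝ) (ep e1 J : ℝ) : Prop :=
  ∀ᶠ j : ℕ in atTop, ∀ s ∈ Icc (0 : ℝ) 1, ∀ t ∈ Icc (0 : ℝ) 1,
    (∀ M g, TC y1 y2 a M g →
      ∃ (D : (ℂ → ℂ) → CfN (2 * (j + 1)) → ℂ) (Ds Q P : CfN (2 * (j + 1)) → ℂ),
      WMi y1 y2 a (mN (2 * (j + 1))) (wSV ep e1 J j s t) (K j) (th j) (dp j) M (Vm (eC e1 J j))
        (SN (NUSea.O.par0 (j + 1)) (eC e1 J j)) (Vm (eC e1 J j) g)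
        (Pool.Agent.PB.CmV g) (Pool.Agent.PB.CsV PBEI.sg' g) D Ds Q P) ∧
    ∃ (C : (ℂ → ℂ) → ℂ) (D : (ℂ → ℂ) → CfN (2 * (j + 1)) → ℂ)
      (Ds Q P : CfN (2 * (j + 1)) → ℂ),
      WMi y1 y2 a (mN (2 * (j + 1))) (wSV ep e1 J j s t) (K j) (th j) (dp j) 1 (Vm (eC e1 J j))
        (SN (NUSea.O.par0 (j + 1)) (eC e1 J j)) (SN (NUSea.O.par0 (j + 1)) (eC e1 J j)) C
        (Pool.Agent.PB.CssV PBEI.sg') D Ds Q P

/-- **the data of level two at the family of plan V** -/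
theorem levXV {a0 ep e1 J a ε q A : ℝ} (hp : SmallP a0 ep e1 J) (ha : 0 < a) {mf : ℝ → ℝ → ℂ}
    {th dp : ℕ → ℝ} (hA : KS ≤ A) (hth : ∀ j, 0 ≤ th j) (hdp : ∀ j, 0 ≤ dp j)
    (hM : ∀ᶠ j : ℕ in atTop, ∀ s ∈ Icc (0 : ℝ) 1, ∀ t ∈ Icc (0 : ℝ) 1,
      MBd (2 * (j + 1)) (fun _ => ZFV ep j s t) (pS j) (eC e1 J j) (eC' e1 J j) (cFV j s t)
        (rhS j s) (-(ep / 4)) (9 / 100 * NUP1.l) (KjV ε j) q (djV ε e1 q j))
    (hwp : WpSV a mf (fun j => A * KjV ε j) th dp ep e1 J)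
    (hwm : WmSV a (fun j => A * KjV ε j) th dp ep e1 J) :
    ∀ᶠ j : ℕ in atTop, ∀ s ∈ Icc (0 : ℝ) 1, ∀ t ∈ Icc (0 : ℝ) 1,
      PBEM.LevD y1 y2 a (mN (2 * (j + 1))) (wSV ep e1 J j s t) (Vp (rh0 j s) (eC e1 J j))
        (Vm (eC e1 J j)) (SN (NUSea.O.par0 (j + 1)) (eC e1 J j)) (A * KjV ε j) (th j) (dp j) (mf t)
        PBEI.sg' wm (Apl (rowS j s) 0) (Ami (rowS j s) 0) Bch := by
  have hl := NUP1.Bd.l_pos
  have hlM : NUMF.l = NUP1.l := rfl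
  have hl1 : NUP1.l ≤ 1 := by
    unfold NUP1.l
    linarith [Real.pi_le_four]
  have hl3 : 3 / 8 ≤ NUP1.l := by
    unfold NUP1.l
    linarith [Real.pi_gt_three]
  have he := hp.ep0
  have he' := hp.ep1
  filter_upwards [hM, hwp, hwm, bas_fxV hp (b' := 9 / 100 * NUP1.l) (by linarith) le_rfl] with j h1 h2
    h3 h4 s hs t ht
  have hs1 : |s| ≤ 1 := abs_le.2 ⟨by linarith [hs.1], hs.2⟩
  obtain ⟨B, hB⟩ := rhS_bd j hs1
  obtain ⟨hm, hm'⟩ := h3 s hs t ht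
  have e0 : rh0 j s = fun u : ℝ => rhS j s u := (rho0_eq j s).symm
  have e1' : (Vp (fun u : ℝ => rhS j s u) (eC e1 J j) : (ℂ → ℂ) → CfN (2 * (j + 1)) → ℂ) =
      fun h => evN fun n => Vy 0 (eC e1 J j n) (rhS j s) fun _ => h := funext fun h => Vp_evN _ _ _
  have key := levD_of (h4 s hs t ht) (h1 s hs t ht) (y₁ := y1) (y₂ := y2) (a := a) (th := th j)
    (dp' := dp j) (K' := A * KjV ε j) (mf := mf t) (s' := PBEI.sg') (σ := wm)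
    (ap := Apl (rowS j s) 0) (am := Ami (rowS j s) 0) (bc := Bch) (Bρ := B) ha PBEM.y1_neg
    PBEM.y2_pos (by unfold PBEI.y1; rw [hlM]; linarith) (by unfold PBEI.y2; rw [hlM]; linarith)
    (by linarith) (by linarith) (by unfold PBEI.y1; rw [hlM]; linarith)
    (by unfold PBEI.y2; rw [hlM]; linarith) (KjV_pos ε j).le
    (mul_le_mul_of_nonneg_right hA (KjV_pos ε j).le) (hth j) (hdp j)
    (rhS_meas j hs1).aestronglyMeasurable hB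
    (by rw [e1']; exact h2 s hs t ht) hm hm' (PBEI.Apl_measurable _ _) (PBEI.Ami_measurable _ _)
    PBEI.Bch_measurable
  rw [e0]
  exact key

end PVX

end

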