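import Pool.Agent.PB.I1F
import Pool.Agent.PV.Defs
import Pool.Agent.PV.FFamV

/-!
# Plan V: the first Ward identity of the function with anti-legs, exact form (helper89)

Rows `i η, 0^a` (`PBZF.rwx`), legs at `z`, anti-legs at `0`.

* `fVx_nv`: the function as a sum over the number of quanta;
* `glKV`: the linear insertion, force of the legs and of the anti-legs;
* **`fVx_D`**: the derivative in the height of the row, for any family of one body functions (`ZFam`)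
  whose functionals of the straight lines are the state sums.
-/

set_option autoImplicit false
set_option linter.unusedSectionVars false
set_option linter.unusedVariables false

noncomputable section

open Complex MeasureTheory Finset Filter Topology
open scoped Classical

namespace PVI

open NUP1 hiding Kd
open NUP1S NUP1.Bd NURow PB PBZF PBRep PBQ1 PBForce PBI PV
open PBX (Lg DZ)

/-- the function on the rows `i η, 0^a` as a sum over the number of quanta -/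
theorem fVx_nv {a : ℕ} {z : ℂ} (hz : 0 ≤ z.re) (η : ℝ) :
    fVx a ((η : ℂ) * I) z = PfV z 0 (PBZF.rwx a (η : ℂ)) (PBZF.rwx a (η : ℂ)) *
      ∑ n ∈ range (2 * (a + 1) + 1), DZ (Leg.cc (a + 1)) (Leg.cc (a + 1)) (LV z 0) (LV z 0)
        (PBZF.rwx a (η : ℂ)) (PBZF.rwx a (η : ℂ)) n := by
  show xN (PBZF.rwx a (η : ℂ)) z = _
  unfold xN
  rw [if_pos hz]
  rfl

/-- the linear insertion -/
def glKV (z z' : ℂ) {m : ℕ} (x : Fin m → ℂ) (i0 : Fin m) : Kd → ℂ → ℂ := fun b w =>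
  xiK x i0 b w * lamV z z' b w

theorem glKV_sub (z z' : ℂ) {m : ℕ} (x : Fin m → ℂ) (i0 : Fin m) :
    glKV z z' x i0 = fun b w => glK z x i0 b w - glK z' x i0 b w := by
  funext b w
  unfold glKV glK lamV
  ring

/-- **the exact derivative** -/
theorem fVx_D {a : ℕ} {s κ D r : ℝ} {z : ℂ} {P : NUO.Par} (hz : 0 ≤ z.re)
    {Z Zd : ℝ → Stt} {Zp : Stt}
    (hZ : ∀ n ∈ range (2 * (a + 1) + 1), ZFam (3 / 5 * l) n (fl P) κ D r s Z Zd Zp)
    (hF : ∀ n ∈ range (2 * (a + 1) + 1), ∃ B, FFam (3 / 5 * l) n (fl P) B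
      (xiK (PBZF.rwx a s) 0) (fun b w => deriv (xiR (PBZF.rwx a s) 0) (fp b w))
      (PBOb.aK (xiR (PBZF.rwx a s) 0)) (rhK (PBZF.rwx a s)) (krK (PBZF.rwx a s))
      (r1K (PBZF.rwx a s) 0) (lamV z 0))
    (hv : ∀ᶠ η : ℝ in 𝓝 s, ∀ n ∈ range (2 * (a + 1) + 1),
      F0 (3 / 5 * l) n n (fl P) (Z η) (fun _ _ _ _ => 1) =
        DZ (Leg.cc (a + 1)) (Leg.cc (a + 1)) (LV z 0) (LV z 0) (PBZF.rwx a (η : ℂ))
          (PBZF.rwx a (η : ℂ)) n)
    {Pf' : ℂ}
    (hPf : HasDerivAt (fun η : ℝ => PfV z 0 (PBZF.rwx a (η : ℂ)) (PBZF.rwx a (η : ℂ))) Pf' s)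
    (hN : Pf' + PfV z 0 (PBZF.rwx a (s : ℂ)) (PBZF.rwx a (s : ℂ)) *
      (PBI.C0 (rhK (PBZF.rwx a s)) (r1K (PBZF.rwx a s) 0) +
        C1 (rhK (PBZF.rwx a s)) (xiK (PBZF.rwx a s) 0) (lamV z 0)) = 0) :
    HasDerivAt (fun η : ℝ => fVx a ((η : ℂ) * I) z)
      (F0N (Z s) P (3 / 5 * l) (2 * (a + 1)) (fun _ => PfV z 0 (PBZF.rwx a s) (PBZF.rwx a s))
          (fun ι _ c w => nuQI (rhK (PBZF.rwx a s)) (PBOb.aK (xiR (PBZF.rwx a s) 0)) ι c w +
            nuI (rhK (PBZF.rwx a s)) (glKV z 0 (PBZF.rwx a s) 0) ι c w) +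
        PfV z 0 (PBZF.rwx a s) (PBZF.rwx a s) * ∑ n ∈ range (2 * (a + 1) + 1),
          F0D (3 / 5 * l) n n (fl P) (Z s)
            (Zcut (Z s) (Zd s) Zp (xiK (PBZF.rwx a s) 0) (krK (PBZF.rwx a s))
              (r1K (PBZF.rwx a s) 0) (lamV z 0))) s := by
  obtain ⟨B, hF⟩ := FFam.unif hF
  have key := I1A (S := range (2 * (a + 1) + 1))
    (Pf := fun η : ℝ => PfV z 0 (PBZF.rwx a (η : ℂ)) (PBZF.rwx a (η : ℂ))) hZ hF hPf hN
  have key2 := key.congr_of_eventuallyEq (f₁ := fun η : ℝ => fVx a ((η : ℂ) * I) z) (by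
    filter_upwards [hv] with η hη
    rw [fVx_nv hz]
    congr 1
    exact Finset.sum_congr rfl fun n hn => (hη n hn).symm)
  refine key2.congr_deriv ?_
  rw [Finset.sum_add_distrib, mul_add]
  congr 1
  unfold F0N
  rw [Finset.mul_sum]
  rfl

end PVI

end
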