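import Pool.Agent.PB.FibX
import Pool.Agent.PB.LevI

/-!
# Plan V: the logarithmic derivative with an anti-leg (helper90)

The copy of `PB/LogZ`, `PB/LevI`, `PB/FibX` for the spectator
`LgV z z' u = Lg z z u * Lg (z' + 3 l) (z' - 3 l) u = Th z u / Th z' u` (legs at `z`, anti-legs at
`z'`).

* `LgV_eq`, `hasDerivAt_LgV`, `LgV` analytic and bounded on the strip of the quanta;
* `LZV = LZX p + I lamL p'`, `hasDerivAt_XXV`, `LZV_meas`, `LZV_bd`, **`LogD_XXV`**;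
* **`I_LZV`** (the splitting of the force), `lamF_XXV`;
* **`fibN_V`**: `PBF.FibN` for every class function with these one body functions.
-/

set_option autoImplicit false
set_option linter.unusedSectionVars false

noncomputable section

open Complex MeasureTheory Set Filter Topology

namespace PVL

open PBLZ
open PBForce (rowD)
open PBQ1 (hr lamL ct)
open NUO (Ks)

/-! ### the spectator -/

/-- legs at `z`, anti-legs at `z'` -/
def LgV (z z' u : ℂ) : ℂ := PBX.Lg z z u * PBX.Lg (z' + 3 * NUP1.l) (z' - 3 * NUP1.l) u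

theorem sin_sub8 (w : ℂ) : Complex.sin (w - 8 * NUP1.l) = -Complex.sin w := by
  have e : (8 : ℂ) * NUP1.l = Real.pi := by
    have h : Real.pi = 8 * NUP1.l := PBQ1.pi8
    rw [h]
    push_cast
    rfl
  rw [e, Complex.sin_sub_pi]

theorem sin_add8 (w : ℂ) : Complex.sin (w + 8 * NUP1.l) = -Complex.sin w := by
  have e : (8 : ℂ) * NUP1.l = Real.pi := by
    have h : Real.pi = 8 * NUP1.l := PBQ1.pi8
    rw [h]
    push_cast
    rfl
  rw [e, Complex.sin_add_pi]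

/-- **the reciprocal of a leg factor is a leg factor** -/
theorem Lg_anti (p q u : ℂ) :
    PBX.Lg (q + 3 * NUP1.l) (p - 3 * NUP1.l) u = (PBX.Lg p q u)⁻¹ := by
  unfold PBX.Lg
  rw [inv_div, show p - 3 * (NUP1.l : ℂ) - u - 3 * NUP1.l = p - u + 2 * NUP1.l - 8 * NUP1.l by ring,
    sin_sub8, show q + 3 * (NUP1.l : ℂ) - u + 2 * NUP1.l = q - u - 3 * NUP1.l + 8 * NUP1.l by ring,
    sin_add8, neg_div_neg_eq]

theorem LgV_eq (z z' u : ℂ) : LgV z z' u = PBS.Th z u / PBS.Th z' u := by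
  unfold LgV
  rw [Lg_anti, Lg_Th, Lg_Th, div_eq_mul_inv]

theorem LgV_meas (z z' : ℂ) : Measurable (LgV z z') :=
  (PBX.Lg_meas z z).mul (PBX.Lg_meas _ _)

section strip

variable {p p' u : ℂ} {δ : ℝ}

theorem ks_re' (hδ : δ ≤ 1 / 20) (hu : u.re ∈ Ks δ) :
    19 / 20 * NUP1.l ≤ u.re ∧ u.re ≤ 21 / 20 * NUP1.l := by
  have hl := NUP1.Bd.l_pos
  obtain ⟨h3, h4⟩ := hu
  exact ⟨h3, h4.trans (by nlinarith)⟩

theorem legOk' (hδ : δ ≤ 1 / 20) (hp : |p.re| ≤ NUP1.l / 2) (hu : u.re ∈ Ks δ) :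
    Complex.sin (p - u + 2 * NUP1.l) ≠ 0 ∧ Complex.sin (p - u - 3 * NUP1.l) ≠ 0 := by
  have hl := NUP1.Bd.l_pos
  have hpi : Real.pi = 8 * NUP1.l := PBQ1.pi8
  obtain ⟨h1, h2⟩ := ks_re' hδ hu
  obtain ⟨h3, h4⟩ := abs_le.1 hp
  constructor
  · have e : (p - u + 2 * NUP1.l).re = p.re - u.re + 2 * NUP1.l := by simp
    exact PBQ1.sin_ne_of_re (by rw [e]; linarith) (by rw [e, hpi]; linarith)
  · have e : (-(p - u - 3 * NUP1.l)).re = 3 * NUP1.l - (p.re - u.re) := by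
      simp
    have := PBQ1.sin_ne_of_re (z := -(p - u - 3 * NUP1.l)) (by rw [e]; linarith)
      (by rw [e, hpi]; linarith)
    rwa [Complex.sin_neg, neg_ne_zero] at this

/-- **the log derivative of the spectator** -/
theorem hasDerivAt_LgV (hδ : δ ≤ 1 / 20) (hp : |p.re| ≤ NUP1.l / 2) (hp' : |p'.re| ≤ NUP1.l / 2)
    (hu : u.re ∈ Ks δ) : HasDerivAt (LgV p p') ((-I * lamL p u + I * lamL p' u) * LgV p p' u) u := by
  obtain ⟨a1, a2⟩ := legOk' hδ hp hu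
  obtain ⟨b1, b2⟩ := legOk' hδ hp' hu
  have d1 := PBQ1.hasDerivAt_Th a1 a2
  have d2 := PBQ1.hasDerivAt_Th b1 b2
  have n2 : PBS.Th p' u ≠ 0 := by
    show Complex.sin (p' - u - 3 * NUP1.l) / Complex.sin (p' - u + 2 * NUP1.l) ≠ 0
    exact div_ne_zero b2 b1
  have hf : LgV p p' = fun v => PBS.Th p v / PBS.Th p' v := funext fun v => LgV_eq p p' v
  rw [hf]
  refine (d1.div d2 n2).congr_deriv ?_
  field_simp
  ring

theorem lamL_bd (hδ : δ ≤ 1 / 20) : ∃ B : ℝ, 0 ≤ B ∧ ∀ p u : ℂ, |p.re| ≤ NUP1.l / 2 →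
    u.re ∈ Ks δ → ‖lamL p u‖ ≤ B := by
  have hl := NUP1.Bd.l_pos
  have hpi : Real.pi = 8 * NUP1.l := PBQ1.pi8
  have hlM : NUMF.l = NUP1.l := rfl
  obtain ⟨C2, hC2, b2⟩ := PBQ1.fSd_bound (a := 9 / 20 * NUP1.l) (b := 31 / 20 * NUP1.l)
    (by positivity) (by rw [hlM]; linarith)
  refine ⟨C2, hC2, fun p u hp hu => ?_⟩
  obtain ⟨h1, h2⟩ := ks_re' hδ hu
  obtain ⟨h3, h4⟩ := abs_le.1 hp
  have e : (p + 2 * NUP1.l - u).re = p.re + 2 * NUP1.l - u.re := by simp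
  unfold PBQ1.lamL
  rw [norm_mul, norm_I, one_mul]
  exact b2 _ (e.symm ▸ by linarith) (e.symm ▸ by linarith)

theorem lamL_meas (p : ℂ) : Measurable (lamL p) := by
  have h2 : Measurable ct := by
    unfold PBQ1.ct
    fun_prop
  unfold PBQ1.lamL PBQ1.fSd
  exact ((h2.comp (measurable_const.sub measurable_id)).sub
    (h2.comp ((measurable_const.sub measurable_id).add_const _))).const_mul I

end strip

/-! ### the quanta -/

section XX

variable {m : ℕ} {β s δ r : ℝ} {x : Fin m → ℂ} {W : List ℂ} {p p' : ℂ}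

/-- log derivative of the one body function of the quanta: rows, cutoff, legs `p`, anti-legs `p'` -/
def LZV (β : ℝ) (x : Fin m → ℂ) (W : List ℂ) (p p' u : ℂ) : ℂ :=
  LZX β x W p u + I * lamL p' u

theorem XXV_eq (c : ℂ) (g0 s2 s2' : ℂ → ℂ) (v : ℂ) :
    PBX.XX c β x x (PBX.gP β W) g0 (LgV p p') s2 none v =
      PBX.XX c β x x (PBX.gP β W) g0 (PBX.Lg p p) s2' none v * (PBS.Th p' v)⁻¹ := by
  show NURow.RR c x x v * PBX.ph β x (PBX.gP β W) v * LgV p p' v =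
    NURow.RR c x x v * PBX.ph β x (PBX.gP β W) v * PBX.Lg p p v * (PBS.Th p' v)⁻¹
  rw [LgV_eq, Lg_Th, div_eq_mul_inv]
  ring

theorem hasDerivAt_XXV (h : LZOk β s δ r x W p) (hp' : |p'.re| ≤ NUP1.l / 2) (c : ℂ)
    (g0 s2 : ℂ → ℂ) {u : ℂ} (hu : u.re ∈ Ks δ) :
    HasDerivAt (PBX.XX c β x x (PBX.gP β W) g0 (LgV p p') s2 none)
      (LZV β x W p p' u * PBX.XX c β x x (PBX.gP β W) g0 (LgV p p') s2 none u) u := by
  have d1 := hasDerivAt_XX h c g0 s2 hu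
  obtain ⟨b1, b2⟩ := legOk' h.δ1 hp' hu
  have d2 := PBQ1.hasDerivAt_Th b1 b2
  have n2 : PBS.Th p' u ≠ 0 := by
    show Complex.sin (p' - u - 3 * NUP1.l) / Complex.sin (p' - u + 2 * NUP1.l) ≠ 0
    exact div_ne_zero b2 b1
  have hf : PBX.XX c β x x (PBX.gP β W) g0 (LgV p p') s2 none =
      fun v => PBX.XX c β x x (PBX.gP β W) g0 (PBX.Lg p p) s2 none v * (PBS.Th p' v)⁻¹ :=
    funext fun v => XXV_eq c g0 s2 s2 v
  rw [hf]
  refine (d1.mul (d2.inv n2)).congr_deriv ?_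
  unfold LZV
  simp only [Pi.inv_apply]
  field_simp

theorem LZV_meas (β : ℝ) (x : Fin m → ℂ) (W : List ℂ) (p p' : ℂ) : Measurable (LZV β x W p p') :=
  (LZX_meas β x W p).add ((lamL_meas p').const_mul I)

theorem LZV_bd (h : LZOk β s δ r x W p) (hp' : |p'.re| ≤ NUP1.l / 2) :
    ∃ B : ℝ, ∀ u : ℂ, u.re ∈ Ks δ → ‖LZV β x W p p' u‖ ≤ B := by
  obtain ⟨B1, h1⟩ := LZX_bd h
  obtain ⟨B2, -, h2⟩ := lamL_bd (δ := δ) h.δ1
  refine ⟨B1 + B2, fun u hu => (norm_add_le _ _).trans (add_le_add (h1 u hu) ?_)⟩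
  rw [norm_mul, norm_I, one_mul]
  exact h2 p' u hp' hu

/-- **the splitting of the force** -/
theorem I_LZV (β : ℝ) (W : List ℂ) {z : ℂ} (h1 : ∀ i, |(z - hr (x i)).im| < NUP1.l)
    (h2 : |(z - hr p).im| < NUP1.l) (h3 : |(z - hr p').im| < NUP1.l) :
    I * LZV β x W p p' (NUP1.l + I * z) = PB.cV (deriv (rhoH x)) z +
      (PBEI.h00 (z - hr p) - PBEI.h00 (z - hr p')) + cutI β (List.ofFn x ++ W) z := by
  unfold LZV
  rw [mul_add, I_LZX β W h1 h2, I_legL h3, ← mul_assoc, I_mul_I]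
  ring

theorem lamF_XXV (β : ℝ) (W : List ℂ) {z : ℂ} (h1 : ∀ i, |(z - hr (x i)).im| < NUP1.l)
    (h2 : |(z - hr p).im| < NUP1.l) (h3 : |(z - hr p').im| < NUP1.l)
    (LP : (r : ℕ) → (Fin r → NUO.Xo) → Bool → ℂ → ℂ) (r : ℕ) (O : Fin r → NUO.Xo) (b : Bool) :
    PBF.lamF (rhoH x) (PBF.LT (fun _ => LZV β x W p p') LP) r O b z =
      (PBEI.h00 (z - hr p) - PBEI.h00 (z - hr p')) + cutI β (List.ofFn x ++ W) z +
        I * LP r O b (NUP1.l + I * z) := by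
  unfold PBF.lamF PBF.LT
  rw [mul_add, I_LZV β W h1 h2 h3]
  ring

end XX

end PVL

end
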