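import Pool.Agent.PV.WdDZ
import Pool.Agent.PV.SpV
import Pool.Agent.PB.NzE

/-!
# Plan V: the state sum with legs at `z` and anti-legs at `z'` (helper4)

* `SV z z' x y`: the state sum, leg factor `Lw a (z - x) / Lw a (z' - x)`; `SV_neg` (A2), `SV_swap`,
  `SV_perm`, `SV_self` (no legs at `z = z'`);
* `SV_eq`: in terms of quanta, spectator `Lg z z u * Lg (z' + 3 l) (z' - 3 l) u`;
* `nhV`: normalised, `nhV_neg`, `nhV_swap`, `nhV_perm`; `nhV_eq`.
-/

set_option autoImplicit false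
set_option linter.unusedSectionVars false

noncomputable section

open Complex

namespace PVN

open NUP1 (l St sta nq crq)
open NUP1.Grand (P)
open NUP1.Mu (hrow Gn Gc qn sin1_ne)
open PBS (Lw ww tm Th Lw_eq Lw_flip tm_flip tm_eq tm_perm)
open PBR (rh rh_neg)
open PBX (DS Lg)
open PVS (LgV LgV_eq)
open Pool.Agent.PB (cn Pf Lp Nu D1 D2 pre_Nu PN_D)

variable {m M : ℕ}

/-! ## the state sum -/

/-- factors of a leg at `z'` in the state `a` -/
def LL (z' : ℂ) (x : Fin m → ℂ) (a : Fin m → SignType) : ℂ := ∏ i, Lw (a i) (z' - x i)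

/-- the state sum with legs at `z` and anti-legs at `z'` -/
def SV (z z' : ℂ) (x : Fin m → ℂ) (y : Fin M → ℂ) : ℂ :=
  ∑ a : Fin m → SignType, ∑ b : Fin M → SignType,
    if ∑ i, (a i : ℤ) = ∑ j, (b j : ℤ) then tm z x y a b / (LL z' x a * LL z' y b) else 0

theorem LL_flip (z' : ℂ) (x : Fin m → ℂ) (a : Fin m → SignType) :
    LL (-z') (-x) (-a) = LL z' x a := by
  unfold LL
  refine Finset.prod_congr rfl fun i _ => ?_
  rw [Pi.neg_apply, Pi.neg_apply, show -z' - -x i = -(z' - x i) by ring, Lw_flip]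

theorem LL_perm (z' : ℂ) (x : Fin m → ℂ) (a : Fin m → SignType) (σ : Equiv.Perm (Fin m)) :
    LL z' (x ∘ σ) (a ∘ σ) = LL z' x a :=
  Equiv.prod_comp σ fun i => Lw (a i) (z' - x i)

/-- **(A2)** -/
theorem SV_neg (z z' : ℂ) (x : Fin m → ℂ) (y : Fin M → ℂ) :
    SV (-z) (-z') (-x) (-y) = SV z z' x y := by
  unfold SV
  refine (Equiv.sum_comp (Equiv.neg (Fin m → SignType)) _).symm.trans ?_
  refine Finset.sum_congr rfl fun a _ => ?_
  refine (Equiv.sum_comp (Equiv.neg (Fin M → SignType)) _).symm.trans ?_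
  refine Finset.sum_congr rfl fun b _ => ?_
  simp only [Equiv.neg_apply, tm_flip, LL_flip]
  have h : ∀ s : SignType, ((-s : SignType) : ℤ) = -(s : ℤ) := by decide
  simp only [Pi.neg_apply, h, Finset.sum_neg_distrib, neg_inj]

theorem tm_swap (z : ℂ) (x : Fin m → ℂ) (y : Fin M → ℂ) (a : Fin m → SignType)
    (b : Fin M → SignType) : tm z y x b a = tm z x y a b := by
  unfold PBS.tm
  have e : ∏ i, ∏ j, PBS.gw (b i) (a j) (y i - x j) = ∏ i, ∏ j, PBS.gw (a i) (b j) (x i - y j) := by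
    rw [Finset.prod_comm]
    refine Finset.prod_congr rfl fun i _ => Finset.prod_congr rfl fun j _ => ?_
    rw [← PBS.gw_neg]
    congr 1
    ring
  rw [e]
  ring

theorem SV_swap (z z' : ℂ) (x : Fin m → ℂ) (y : Fin M → ℂ) : SV z z' y x = SV z z' x y := by
  unfold SV
  rw [Finset.sum_comm]
  refine Finset.sum_congr rfl fun a _ => Finset.sum_congr rfl fun b _ => ?_
  rw [tm_swap, mul_comm (LL z' y b)]
  exact if_congr eq_comm rfl rfl

theorem SV_perm (z z' : ℂ) (x : Fin m → ℂ) (y : Fin M → ℂ) (σ : Equiv.Perm (Fin m))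
    (τ : Equiv.Perm (Fin M)) : SV z z' (x ∘ σ) (y ∘ τ) = SV z z' x y := by
  unfold SV
  refine (Equiv.sum_comp (σ.symm.arrowCongr (Equiv.refl SignType)) _).symm.trans ?_
  refine Finset.sum_congr rfl fun a _ => ?_
  refine (Equiv.sum_comp (τ.symm.arrowCongr (Equiv.refl SignType)) _).symm.trans ?_
  refine Finset.sum_congr rfl fun b _ => ?_
  have ea : (σ.symm.arrowCongr (Equiv.refl SignType)) a = a ∘ σ := by
    funext i
    rfl
  have eb : (τ.symm.arrowCongr (Equiv.refl SignType)) b = b ∘ τ := by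
    funext i
    rfl
  rw [ea, eb, tm_perm, LL_perm, LL_perm]
  simp only [Function.comp_apply]
  rw [Equiv.sum_comp σ (fun i => (a i : ℤ)), Equiv.sum_comp τ (fun i => (b i : ℤ))]

/-! ## the state sum in terms of quanta -/

theorem qn_qu (a : SignType) (x : ℂ) : qn a x = NUP1.qu a x := by
  rw [← NUP1.Mu.qn_eq]

theorem LL_eq {z' : ℂ} {x : Fin m → ℂ}
    (h : ∀ i, sin (z' - x i + 2 * l) ≠ 0 ∧ sin (z' - x i + 3 * l) ≠ 0) (a : Fin m → SignType) :
    LL z' x a = (∏ i, Lp z' (x i)) * ∏ i, ((NUP1.qu (a i) (x i)).map (Th z')).prod := by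
  unfold LL
  rw [← Finset.prod_mul_distrib]
  refine Finset.prod_congr rfl fun i _ => ?_
  rw [Lw_eq (a i) (h i).1 (h i).2, qn_qu]
  congr 1
  unfold Lp
  simp only [PBS.Lw]
  ring

theorem sta_div (x : Fin m → ℂ) (h k : ℂ → ℂ) (a : Fin m → SignType) :
    sta x (fun u => h u / k u) a = sta x h a / ∏ i, ((NUP1.qu (a i) (x i)).map k).prod := by
  have e : (fun u => h u / k u) = fun u => h u * (k u)⁻¹ := by
    funext u
    rw [div_eq_mul_inv]
  have e2 : ∏ i, ((NUP1.qu (a i) (x i)).map fun u => (k u)⁻¹).prod =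
      (∏ i, ((NUP1.qu (a i) (x i)).map k).prod)⁻¹ := by
    rw [← Finset.prod_inv_distrib]
    refine Finset.prod_congr rfl fun i _ => ?_
    cases a i <;> simp [NUP1.qu, mul_comm]
  rw [e, NUP1.sta_mul, e2, div_eq_mul_inv]

/-- the spectator of the legs and the anti-legs -/
def LVs (z z' u : ℂ) : ℂ := Lg z z u * Lg (z' + 3 * l) (z' - 3 * l) u

theorem Th_div (z z' u : ℂ) : Th z u / Th z' u = LVs z z' u := by
  unfold LVs
  rw [← LgV_eq]
  rfl

/-- **the state sum by the number of quanta** -/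
theorem SV_eq {z z' : ℂ} {x y : Fin m → ℂ} (hx : ∀ i j, i ≠ j → Gn (x i - x j))
    (hy : ∀ i j, i ≠ j → Gn (y i - y j)) (hxy : ∀ i j, Gc (x i - y j))
    (zx : ∀ i, sin (z - x i + 2 * l) ≠ 0 ∧ sin (z - x i + 3 * l) ≠ 0)
    (zy : ∀ i, sin (z - y i + 2 * l) ≠ 0 ∧ sin (z - y i + 3 * l) ≠ 0)
    (wx : ∀ i, sin (z' - x i + 2 * l) ≠ 0 ∧ sin (z' - x i + 3 * l) ≠ 0)
    (wy : ∀ i, sin (z' - y i + 2 * l) ≠ 0 ∧ sin (z' - y i + 3 * l) ≠ 0) :
    SV z z' x y = Nu z x * Nu z y / ((∏ i, Lp z' (x i)) * ∏ i, Lp z' (y i)) *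
      ∑ n ∈ Finset.range (2 * m + 1), DS (cn m) (cn m) (LVs z z') (LVs z z') x y n := by
  have s1 := sin1_ne
  have hh : ∀ u v : Fin m → ℂ, (fun w => NUP1.Leg.hr (-(sin (2 * l) / sin l)) u v w * LVs z z' w) =
      fun w => hrow (2 * sin l) u v w * Th z w / Th z' w := by
    intro u v
    funext w
    rw [mul_div_assoc, Th_div, NUP1.Mu.hrow_eq]
    unfold NUP1.Leg.hr NUP1.hh
    have : -2 * sin (2 * (l : ℂ)) / (2 * sin l) = -(sin (2 * l) / sin l) := by
      field_simp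
    rw [this]
  have key : ∀ (a b : Fin m → SignType), ∑ i, (a i : ℤ) = ∑ j, (b j : ℤ) →
      tm z x y a b / (LL z' x a * LL z' y b) =
        Nu z x * Nu z y / ((∏ i, Lp z' (x i)) * ∏ i, Lp z' (y i)) *
          (sta x (fun w => hrow (2 * sin l) x y w * Th z w / Th z' w) a *
            sta y (fun w => hrow (2 * sin l) y x w * Th z w / Th z' w) b * crq x y a b) := by
    intro a b hab
    rw [tm_eq hx hy hxy zx zy a b hab, pre_Nu, pre_Nu, LL_eq wx, LL_eq wy,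
      sta_div x (fun w => hrow (2 * sin l) x y w * Th z w) (Th z') a,
      sta_div y (fun w => hrow (2 * sin l) y x w * Th z w) (Th z') b]
    simp only [div_eq_mul_inv, mul_inv]
    ring
  have hsum : ∀ n : ℕ, DS (cn m) (cn m) (LVs z z') (LVs z z') x y n =
      ∑ a : Fin m → SignType, ∑ b : Fin m → SignType,
        if ∑ i, nq (a i) = n ∧ ∑ i, nq (b i) = n then
          (sta x (fun w => hrow (2 * sin l) x y w * Th z w / Th z' w) a *
            sta y (fun w => hrow (2 * sin l) y x w * Th z w / Th z' w) b * crq x y a b) else 0 := by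
    intro n
    rw [DS_cn]
    unfold PBX.DS St
    rw [hh, hh, Finset.sum_filter]
    refine Finset.sum_congr rfl fun a _ => ?_
    split_ifs with ha
    · rw [Finset.sum_filter]
      refine Finset.sum_congr rfl fun b _ => ?_
      split_ifs with hb h h
      · rfl
      · exact absurd ⟨ha, hb⟩ h
      · exact absurd h.2 hb
      · rfl
    · symm
      refine Finset.sum_eq_zero fun b _ => ?_
      rw [if_neg fun h => ha h.1]
  simp only [hsum]
  rw [Finset.sum_comm (s := Finset.range (2 * m + 1)), Finset.mul_sum]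
  unfold SV
  refine Finset.sum_congr rfl fun a _ => ?_
  rw [Finset.sum_comm (s := Finset.range (2 * m + 1)), Finset.mul_sum]
  refine Finset.sum_congr rfl fun b _ => ?_
  have hle : ∑ i, nq (a i) ≤ 2 * m := by
    have h2 : ∀ s : SignType, nq s ≤ 2 := by decide
    have h3 := Finset.sum_le_card_nsmul Finset.univ (fun i => nq (a i)) 2 (fun i _ => h2 _)
    simpa [mul_comm] using h3
  have h1 := NUP1.Mu.sum_nq a
  have h2 := NUP1.Mu.sum_nq b
  simp only [NUP1.Mu.nq_eq] at h1 h2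
  rw [Finset.sum_eq_single_of_mem (∑ i, nq (a i)) (Finset.mem_range.2 (by omega))]
  · by_cases hab : ∑ i, (a i : ℤ) = ∑ j, (b j : ℤ)
    · have h3 : ∑ i, nq (b i) = ∑ i, nq (a i) := by
        have : ((∑ i, nq (b i) : ℕ) : ℤ) = ((∑ i, nq (a i) : ℕ) : ℤ) := by
          rw [h1, h2, hab]
        exact_mod_cast this
      rw [if_pos hab, if_pos ⟨rfl, h3⟩, key a b hab]
    · rw [if_neg hab, if_neg, mul_zero]
      rintro ⟨-, h3⟩
      apply hab
      have : ((∑ i, nq (a i) : ℕ) : ℤ) = ((∑ i, nq (b i) : ℕ) : ℤ) := by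
        exact_mod_cast h3.symm
      rw [h1, h2] at this
      linarith
  · intro n _ hn
    rw [if_neg fun h => hn h.1.symm]

/-! ## the normalised function -/

/-- product of the bulk factors of a leg at `z'` -/
def RR2 (z' : ℂ) (x : Fin m → ℂ) : ℂ := ∏ i, rh (z' - x i) ^ 2

/-- **the normalised state sum** -/
def nhV (z z' : ℂ) (x : Fin m → ℂ) (y : Fin M → ℂ) : ℂ :=
  rh (z - z') ^ 2 * (SV z z' x y * (2 / 3 * rh 0 * (RR2 z' x * RR2 z' y)) / PBS.PN z x y)

theorem RR2_neg (z' : ℂ) (x : Fin m → ℂ) : RR2 (-z') (-x) = RR2 z' x := by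
  unfold RR2
  refine Finset.prod_congr rfl fun i _ => ?_
  rw [Pi.neg_apply, ← rh_neg, show -(-z' - -x i) = z' - x i by ring]

/-- **(A2)** -/
theorem nhV_neg (z z' : ℂ) (x : Fin m → ℂ) (y : Fin M → ℂ) :
    nhV (-z) (-z') (-x) (-y) = nhV z z' x y := by
  unfold nhV
  rw [SV_neg, PBS.PN_neg, RR2_neg, RR2_neg, show -z - -z' = -(z - z') by ring, rh_neg]

theorem nhV_swap (z z' : ℂ) (x : Fin m → ℂ) (y : Fin M → ℂ) : nhV z z' y x = nhV z z' x y := by
  unfold nhV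
  rw [SV_swap, PBS.PN_swap, mul_comm (RR2 z' y)]

theorem nhV_perm (z z' : ℂ) (x : Fin m → ℂ) (y : Fin M → ℂ) (σ : Equiv.Perm (Fin m))
    (τ : Equiv.Perm (Fin M)) : nhV z z' (x ∘ σ) (y ∘ τ) = nhV z z' x y := by
  have e : ∀ {k : ℕ} (u : Fin k → ℂ) (σ : Equiv.Perm (Fin k)), RR2 z' (u ∘ σ) = RR2 z' u :=
    fun u σ => Equiv.prod_comp σ fun i => rh (z' - u i) ^ 2
  unfold nhV
  rw [SV_perm, PBS.PN_perm, e, e]

/-- `pre z x * pre z y / PN z x y` -/
theorem Nu_PN (z : ℂ) (x y : Fin m → ℂ) :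
    Nu z x * Nu z y / PBS.PN z x y = Pf z x y / sin l := by
  have s1 := sin1_ne
  rw [PN_D]
  unfold Pool.Agent.PB.Pf
  have h : ((3 : ℂ) / 2) ^ (m + m + 1) * (2 / 3) ^ (m + m + 1) = 1 := by
    rw [← mul_pow]
    norm_num
  have h23 : ((2 : ℂ) / 3) ^ (m + m + 1) ≠ 0 := pow_ne_zero _ (by norm_num)
  have h32 : ((3 : ℂ) / 2) ^ (m + m + 1) = 1 / (2 / 3) ^ (m + m + 1) := by
    rw [eq_div_iff h23]
    exact h
  rw [h32]
  by_cases hD : D1 z x * D1 z y * D2 x y * rh 0 = 0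
  · rw [hD]
    simp
  field_simp

/-- **the normalised function as a sum over the numbers of quanta** -/
theorem nhV_eq {z z' : ℂ} {x y : Fin m → ℂ} (hx : ∀ i j, i ≠ j → Gn (x i - x j))
    (hy : ∀ i j, i ≠ j → Gn (y i - y j)) (hxy : ∀ i j, Gc (x i - y j))
    (zx : ∀ i, sin (z - x i + 2 * l) ≠ 0 ∧ sin (z - x i + 3 * l) ≠ 0)
    (zy : ∀ i, sin (z - y i + 2 * l) ≠ 0 ∧ sin (z - y i + 3 * l) ≠ 0)
    (wx : ∀ i, sin (z' - x i + 2 * l) ≠ 0 ∧ sin (z' - x i + 3 * l) ≠ 0)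
    (wy : ∀ i, sin (z' - y i + 2 * l) ≠ 0 ∧ sin (z' - y i + 3 * l) ≠ 0) :
    nhV z z' x y = rh (z - z') ^ 2 * (2 / 3 * rh 0 / sin l) *
      ((∏ i, rh (z' - x i) ^ 2 / Lp z' (x i)) * ∏ i, rh (z' - y i) ^ 2 / Lp z' (y i)) *
      Pf z x y * ∑ n ∈ Finset.range (2 * m + 1), DS (cn m) (cn m) (LVs z z') (LVs z z') x y n := by
  have h := Nu_PN z x y
  unfold nhV RR2
  rw [SV_eq hx hy hxy zx zy wx wy, Finset.prod_div_distrib, Finset.prod_div_distrib]
  generalize (∑ n ∈ Finset.range (2 * m + 1), DS (cn m) (cn m) (LVs z z') (LVs z z') x y n) = S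
  generalize (∏ i, Lp z' (x i)) = A
  generalize (∏ i, Lp z' (y i)) = B
  generalize (∏ i, rh (z' - x i) ^ 2) = A'
  generalize (∏ i, rh (z' - y i) ^ 2) = B'
  rw [show rh (z - z') ^ 2 * (Nu z x * Nu z y / (A * B) * S * (2 / 3 * rh 0 * (A' * B')) /
      PBS.PN z x y) = rh (z - z') ^ 2 * (2 / 3 * rh 0) * (A' / A * (B' / B)) *
      (Nu z x * Nu z y / PBS.PN z x y) * S by
    rw [div_mul_div_comm A' A]
    ring, h]
  ring

/-! ## no legs at `z = z'` -/

theorem SV_self {z : ℂ} {x : Fin m → ℂ} {y : Fin M → ℂ}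
    (zx : ∀ i (a : SignType), Lw a (z - x i) ≠ 0) (zy : ∀ i (a : SignType), Lw a (z - y i) ≠ 0) :
    SV z z x y = ∑ a : Fin m → SignType, ∑ b : Fin M → SignType,
      if ∑ i, (a i : ℤ) = ∑ j, (b j : ℤ) then
        (∏ i, ww (a i)) * P (fun i j => PBS.fw (a i) (a j) (x i - x j)) *
          ((∏ i, ww (b i)) * P (fun i j => PBS.fw (b i) (b j) (y i - y j))) *
          ∏ i, ∏ j, PBS.gw (a i) (b j) (x i - y j) else 0 := by
  unfold SV
  refine Finset.sum_congr rfl fun a _ => Finset.sum_congr rfl fun b _ => ?_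
  split_ifs
  · have h1 : LL z x a ≠ 0 := Finset.prod_ne_zero_iff.2 fun i _ => zx i _
    have h2 : LL z y b ≠ 0 := Finset.prod_ne_zero_iff.2 fun i _ => zy i _
    rw [div_eq_iff (mul_ne_zero h1 h2)]
    unfold PBS.tm
    rw [Finset.prod_mul_distrib, Finset.prod_mul_distrib]
    unfold LL
    ring
  · rfl

end PVN

end
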