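import Pool.Agent.PV.Xv
import Pool.Agent.PV.SSV

/-!
# Plan V: mirror symmetry of the function with anti-legs (helper96, on helper4's state sum)

* `nv_nhV` : pairwise different heights: `nv z z' x y = PVN.nhV z z' x y`;
* **`nv_neg`** : (A2), all rows, `|Re z| < 7 l / 5`, `|Re z'| < 7 l / 10`.
-/

set_option autoImplicit false
set_option linter.unusedSectionVars false

noncomputable section

open Complex Filter Topology

namespace PV

open NUP1 (l lpos)
open PBX (DZ Rws pull DZ_eq pull_Rws pull_tendsto)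
open Pool.Agent.PB

variable {m : ℕ}

/-- the denominators of a leg at `z'` -/
theorem den_rowV {z' w : ℂ} (hz' : |z'.re| < 7 / 10 * l) (hw : |w.re| ≤ l / 2) :
    sin (z' - w + 2 * l) ≠ 0 ∧ sin (z' - w + 3 * l) ≠ 0 := by
  have h := Lp_ne hz' hw
  unfold Lp at h
  constructor
  · intro h0
    exact h (by rw [h0]; simp)
  · intro h0
    exact h (by rw [h0]; simp)

/-- pairwise different heights: the normalised state sum of helper4 -/
theorem nv_nhV {z z' : ℂ} {x y : Fin m → ℂ} (hz : z ∈ LS) (hz' : |z'.re| < 7 / 10 * l) (hx : Rws x)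
    (hy : Rws y) (ix : Hgt x) (iy : Hgt y) : nv z z' x y = PVN.nhV z z' x y := by
  have e : ∑ n ∈ Finset.range (2 * m + 1), DZ (cn m) (cn m) (LV z z') (LV z z') x y n =
      ∑ n ∈ Finset.range (2 * m + 1), PBX.DS (cn m) (cn m) (PVN.LVs z z') (PVN.LVs z z') x y n :=
    Finset.sum_congr rfl fun n _ => DZ_eq ix iy hx hy (LV_SpA hz hz') (LV_SpA hz hz') n
  unfold nv
  rw [e, PVN.nhV_eq]
  · rfl
  · exact fun i j hij => gn_im (by rw [sub_im]; exact sub_ne_zero.2 (ix i j hij))
  · exact fun i j hij => gn_im (by rw [sub_im]; exact sub_ne_zero.2 (iy i j hij))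
  · exact fun i j => gc_re (sub_re_le (hx i) (hy j))
  · intro i
    obtain ⟨h1, h2⟩ := den_row hz (hx i)
    refine ⟨h1, ?_⟩
    rwa [show z - (x i - (l : ℂ)) + 2 * l = z - x i + 3 * l by ring] at h2
  · intro i
    obtain ⟨h1, h2⟩ := den_row hz (hy i)
    refine ⟨h1, ?_⟩
    rwa [show z - (y i - (l : ℂ)) + 2 * l = z - y i + 3 * l by ring] at h2
  · exact fun i => den_rowV hz' (hx i)
  · exact fun i => den_rowV hz' (hy i)

/-- **(A2), all rows** -/
theorem nv_neg {z z' : ℂ} (hz : |z.re| < 7 / 5 * l) (hz' : |z'.re| < 7 / 10 * l) {x y : Fin m → ℂ}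
    (hx : Rws x) (hy : Rws y) : nv (-z) (-z') (-x) (-y) = nv z z' x y := by
  obtain ⟨h1, h2⟩ := mem_LS_neg hz
  have hz2 : |(-z').re| < 7 / 10 * l := by rwa [neg_re, abs_neg]
  have t1 : Tendsto (fun e => nv (-z) (-z') (-pull x e) (-pull y e)) (𝓝[>] (0 : ℝ))
      (𝓝 (nv (-z) (-z') (-x) (-y))) :=
    nv_tendsto (z := fun _ => -z) (x := fun e => -pull x e) (y := fun e => -pull y e)
      tendsto_const_nhds
      (fun i => (pull_tendsto x i).neg) (fun i => (pull_tendsto y i).neg)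
      (Eventually.of_forall fun e => Rws.neg (pull_Rws hx e))
      (Eventually.of_forall fun e => Rws.neg (pull_Rws hy e)) (Rws.neg hx) (Rws.neg hy) h2 hz2
  have t2 : Tendsto (fun e => nv z z' (pull x e) (pull y e)) (𝓝[>] (0 : ℝ)) (𝓝 (nv z z' x y)) :=
    nv_tendsto (z := fun _ => z) tendsto_const_nhds (pull_tendsto x) (pull_tendsto y)
      (Eventually.of_forall fun e => pull_Rws hx e) (Eventually.of_forall fun e => pull_Rws hy e)
      hx hy h1 hz'
  refine tendsto_nhds_unique (t1.congr' ?_) t2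
  filter_upwards [pull_Hgt x, pull_Hgt y] with e ex ey
  have rx := pull_Rws hx e
  have ry := pull_Rws hy e
  rw [nv_nhV h2 hz2 (Rws.neg rx) (Rws.neg ry) (Hgt.neg ex) (Hgt.neg ey),
    nv_nhV h1 hz' rx ry ex ey, PVN.nhV_neg]

end PV

end
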