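import Pool.Agent.PV.Defs
import Pool.Agent.PB.Num
import Pool.Agent.PB.FBd
import Pool.Agent.PB.I1A

/-!
# Plan V: the derivative of the prefactor with an anti-leg

* `LD_leg`: logarithmic derivative of one leg product `AV z'`;
* `C1V_eq`: the constant of the force `lamK z b w - lamK z' b w` of the leg and the anti-leg;
* **`NumV`**: `d/dη PfV = - PfV (C0 + (C1v z - C1v z'))`; `NumV0`: the hypothesis `hN` of `fx_I1`.
-/

set_option autoImplicit false
set_option linter.unusedSectionVars false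

noncomputable section

open MeasureTheory Set Filter Topology Finset
open scoped Classical

namespace PVN

open NUMF PBForce Pool.Agent.PB PBQ1 PV

variable {m : ℕ}

/-- logarithmic derivative of one leg product -/
theorem LD_AV {y : ℝ → Fin m → ℂ} {t : ℝ} {z' : ℂ} (i0 : Fin m)
    (hy : ∀ i, HasDerivAt (fun η => y η i) (vv i0 i) t) (hx : ∀ i, (y t i).re = 0)
    (h0 : -l < z'.re) (h1 : z'.re < 4 * l) :
    LD (fun η => AV z' (y η)) (Complex.I * dTT (z' - y t i0)) t := by
  have hl := l_pos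
  have hrz : ∀ i, (z' - y t i).re = z'.re := fun i => by simp [hx]
  have hz5 : ∀ i, |(z' - y t i).re| < 5 * l := fun i => by
    rw [hrz, abs_lt]
    constructor <;> linarith
  have a1 := LD.ones (F := fun v : ℂ => Complex.sin (v + 2 * l) * Complex.sin (v + 3 * l))
    (g := lLp) z' i0 hy fun i => hasDerivAt_Lpf (by rw [hrz]; exact h0) (by rw [hrz]; exact h1)
  have a2 := LD.ones (F := fun v => PBR.rh v ^ 2) (g := fun v => 2 * lrh v) z' i0 hy
    fun i => hasDerivAt_rh2 (hz5 i)
  have n : (∏ i, (Complex.sin (z' - y t i + 2 * l) * Complex.sin (z' - y t i + 3 * l))) ≠ 0 := by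
    refine Finset.prod_ne_zero_iff.2 fun i _ => mul_ne_zero (sin_neS ?_ ?_) (sin_neS ?_ ?_)
    all_goals
      simp only [Complex.add_re, hrz, Complex.mul_re, Complex.ofReal_re, Complex.re_ofNat,
        Complex.im_ofNat, Complex.ofReal_im, zero_mul, sub_zero]
      linarith
  have key := a2.div a1 n
  have e : (fun η => AV z' (y η)) = fun η => (∏ i, PBR.rh (z' - y η i) ^ 2) /
      ∏ i, (Complex.sin (z' - y η i + 2 * l) * Complex.sin (z' - y η i + 3 * l)) := by
    funext η
    unfold AV Pool.Agent.PB.Lp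
    rw [Finset.prod_div_distrib]
    rfl
  rw [e]
  have e2 : Complex.I * dTT (z' - y t i0) = -(Complex.I * (2 * lrh (z' - y t i0))) -
      -(Complex.I * lLp (z' - y t i0)) := by
    rw [dTT_eq (w := z' - y t i0) (by rw [hrz]; exact h0) (by rw [hrz]; exact h1)]
    unfold lLp
    ring
  rw [e2]
  exact key

lemma C1v_int {x : Fin m → ℂ} {z : ℂ} (i0 : Fin m) (hx : ∀ i, (x i).re = 0) (h0 : -l < z.re)
    (h1 : z.re < 4 * l) (b : K4) :
    Integrable fun s => rhK x b s * (xiK x i0 b (NUP1.vl NUP1.l s) *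
      lamK z b (NUP1.vl NUP1.l s)) := by
  have hl := l_pos
  obtain ⟨σ, k⟩ := b
  cases k with
  | some k =>
    simp only [rhK_some, zero_mul]
    exact integrable_zero _ _ _
  | none =>
    have e1 : ∀ s : ℝ, rhK x (σ, none) s * (xiK x i0 (σ, none) (NUP1.vl NUP1.l s) *
        lamK z (σ, none) (NUP1.vl NUP1.l s)) =
        (fun s : ℝ => Complex.I * (Pc s * fSd (z - x i0 + l - s * Complex.I))) (s - (x i0).im) := by
      intro s
      change rhoR x (l + s * Complex.I) * (xiR x i0 (l + s * Complex.I) *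
        lamL z (l + s * Complex.I)) = _
      rw [rhoR_line (fun i => by rw [hx i, abs_zero]; exact hl),
        xiR_line i0 (fun i => by rw [hx i, abs_zero]; exact hl), hr_real (hx i0)]
      have hne := ro_ne i0 hx s
      unfold lamL
      have e3 : z + 2 * (l : ℂ) - (l + s * Complex.I) =
          z - x i0 + l - ((s - (x i0).im : ℝ) : ℂ) * Complex.I := by
        conv_rhs => rw [im_eq (hx i0)]
        push_cast
        ring_nf
        simp
      have e4 : (((s - (x i0).im : ℝ) : ℂ)) = s - ((x i0).im : ℂ) := by push_cast; ring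
      rw [e3, ← e4]
      beta_reduce
      generalize ((s - (x i0).im : ℝ) : ℂ) = q
      generalize fSd (z - x i0 + l - q * Complex.I) = F
      field_simp
    simp only [e1]
    have hr : (z - x i0).re = z.re := by simp [hx]
    exact ((int_dTT (w := z - x i0) (by rw [hr]; exact h0)
      (by rw [hr]; exact h1)).const_mul Complex.I).comp_sub_right (x i0).im

/-- **the constant of the leg and the anti-leg** -/
theorem C1V_eq {x : Fin m → ℂ} {z z' : ℂ} (i0 : Fin m) (hx : ∀ i, (x i).re = 0) (h0 : -l < z.re)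
    (h1 : z.re < 4 * l) (h0' : -l < z'.re) (h1' : z'.re < 4 * l) :
    ∑ b : K4, ∫ s, rhK x b s * (xiK x i0 b (NUP1.vl NUP1.l s) *
      (lamK z b (NUP1.vl NUP1.l s) - lamK z' b (NUP1.vl NUP1.l s))) =
      C1v z x i0 - C1v z' x i0 := by
  unfold C1v
  rw [← Finset.sum_sub_distrib]
  refine Finset.sum_congr rfl fun b _ => ?_
  rw [← integral_sub (C1v_int i0 hx h0 h1 b) (C1v_int i0 hx h0' h1' b)]
  refine integral_congr_ae (Filter.Eventually.of_forall fun s => ?_)
  simp only []
  ring

/-- **(Num) with an anti-leg**: the derivative of the prefactor in the height of a row -/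
theorem NumV {y : ℝ → Fin m → ℂ} {t : ℝ} {z z' : ℂ} (i0 : Fin m)
    (hy : ∀ i, HasDerivAt (fun η => y η i) (vv i0 i) t) (hx : ∀ i, (y t i).re = 0)
    (h0 : -l < z.re) (h1 : z.re < 4 * l) (h0' : -l < z'.re) (h1' : z'.re < 4 * l) :
    HasDerivAt (fun η => PfV z z' (y η) (y η))
      (-(PfV z z' (y t) (y t) * (C0 (y t) i0 + (C1v z (y t) i0 - C1v z' (y t) i0)))) t := by
  have hA := LD_AV (z' := z') i0 hy hx h0' h1'
  have hN : LD (fun η => Pf z (y η) (y η)) (-(C0 (y t) i0 + C1v z (y t) i0)) t := by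
    have := Num i0 hy hx h0 h1
    unfold LD
    refine this.congr_deriv ?_
    ring
  have key := ((LD.const (PBR.rh (z - z') ^ 2 * (2 / 3 * PBR.rh 0 / Complex.sin l)) t).mul
    (hA.mul hA)).mul hN
  unfold LD at key
  have hll : NUP1.l = NUMF.l := rfl
  unfold PfV
  rw [hll]
  refine key.congr_deriv ?_
  rw [C1_eq (z := z') i0 hx h0' h1']
  ring

/-- the normaliser of the first Ward identity -/
theorem NumV0 {x : Fin m → ℂ} {z z' : ℂ} (i0 : Fin m) (hx : ∀ i, (x i).re = 0) (h0 : -l < z.re)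
    (h1 : z.re < 4 * l) (h0' : -l < z'.re) (h1' : z'.re < 4 * l) :
    -(PfV z z' x x * (C0 x i0 + (C1v z x i0 - C1v z' x i0))) + PfV z z' x x *
      (PBI.C0 (rhK x) (r1K x i0) + PBI.C1 (rhK x) (xiK x i0)
        (fun b w => lamK z b w - lamK z' b w)) = 0 := by
  have e1 : PBI.C0 (rhK x) (r1K x i0) = C0 x i0 := C0_eq
  have e2 : PBI.C1 (rhK x) (xiK x i0) (fun b w => lamK z b w - lamK z' b w) =
      C1v z x i0 - C1v z' x i0 := C1V_eq i0 hx h0 h1 h0' h1'
  rw [e1, e2]
  ring

end PVN

end
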