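import Pool.Agent.PV.HPotV
import Pool.Agent.PB.TopB
import Pool.Agent.PB.ObZT

/-!
# Plan V: one body bounds of the data with legs at `z`, anti-legs at `z'`

* `anti_le`: `thZ z' u ≥ 1 / 7` on `-(2 + eM) l ≤ Re u ≤ 4 l / 5`, `|Re z'| ≤ l / 10`, any heights;
* `spV`: `thV z z'` is an admissible spectator; `obZ_V`: `ObZ` of `obV`;
* **`oneB_V`**: the one body bounds `OneB` of `obV` (constants before `ep`, `e1`, `J`).
-/

set_option autoImplicit false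
set_option linter.unusedSectionVars false

noncomputable section

open Complex MeasureTheory Finset
open scoped ENNReal

namespace PVT

open NUO NUP1 NUP1S NUP1S.Ab NUP1S.AbC NUGC PBF
open PBX (obX Lg)
open PBL (mu1)
open PBP (gT)
open PotH
open PBT
open PVS (thV)

attribute [local instance] NUSea.seaP

/-- the modulus of a leg factor with centres of equal heights, from the line of the denominator -/
theorem Lg_le_one {p q u : ℂ} (hpq : q.im = p.im) (h : 0 < Real.sin (p.re - u.re + 2 * NUP1.l)) :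
    ‖Lg p q u‖ ≤ (Real.sin (p.re - u.re + 2 * NUP1.l))⁻¹ := by
  have n1 : ∀ a b : ℝ, ‖Complex.sin ((a : ℂ) + b * I)‖ ^ 2 = Real.sin a ^ 2 + Real.sinh b ^ 2 := by
    intro a b
    rw [Complex.sin_add_mul_I, ← Complex.normSq_eq_norm_sq]
    have e : Complex.sin a * Complex.cosh b + Complex.cos a * Complex.sinh b * I =
        ((Real.sin a * Real.cosh b : ℝ) : ℂ) + ((Real.cos a * Real.sinh b : ℝ) : ℂ) * I := by
      push_cast
      ring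
    rw [e, Complex.normSq_add_mul_I]
    have h1 := Real.cosh_sq b
    have h2 := Real.sin_sq_add_cos_sq a
    nlinarith [h1, h2]
  obtain ⟨s, hs⟩ : ∃ s, s = Real.sin (p.re - u.re + 2 * NUP1.l) := ⟨_, rfl⟩
  obtain ⟨b, hb⟩ : ∃ b, b = p.im - u.im := ⟨_, rfl⟩
  have e1 : q - u - 3 * (NUP1.l : ℂ) = ((q.re - u.re - 3 * NUP1.l : ℝ) : ℂ) + (b : ℝ) * I := by
    apply Complex.ext <;> simp [hb, hpq]
  have e2 : p - u + 2 * (NUP1.l : ℂ) = ((p.re - u.re + 2 * NUP1.l : ℝ) : ℂ) + (b : ℝ) * I := by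
    apply Complex.ext <;> simp [hb]
  have h1 := n1 (q.re - u.re - 3 * NUP1.l) b
  have h2 := n1 (p.re - u.re + 2 * NUP1.l) b
  unfold Lg
  rw [e1, e2, norm_div]
  rw [← hs] at h h2 ⊢
  obtain ⟨A, hA⟩ : ∃ A, A = ‖Complex.sin (((q.re - u.re - 3 * NUP1.l : ℝ) : ℂ) + (b : ℝ) * I)‖ :=
    ⟨_, rfl⟩
  obtain ⟨D, hD⟩ : ∃ D, D = ‖Complex.sin (((p.re - u.re + 2 * NUP1.l : ℝ) : ℂ) + (b : ℝ) * I)‖ :=
    ⟨_, rfl⟩
  rw [← hA] at h1 ⊢
  rw [← hD] at h2 ⊢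
  have hA0 : 0 ≤ A := by rw [hA]; exact norm_nonneg _
  have hD0 : 0 ≤ D := by rw [hD]; exact norm_nonneg _
  have hs1 : s ≤ 1 := by rw [hs]; exact Real.sin_le_one _
  have hDp : 0 < D := by
    rcases hD0.lt_or_eq with h3 | h3
    · exact h3
    · rw [← h3] at h2
      nlinarith [sq_nonneg (Real.sinh b), pow_pos h 2]
  rw [div_le_iff₀ hDp, inv_mul_eq_div, le_div_iff₀ h]
  refine le_of_sq_le_sq ?_ hD0
  have h4 := Real.sin_sq_le_one (q.re - u.re - 3 * NUP1.l)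
  have h5 : s ^ 2 ≤ 1 := by nlinarith
  have h6 := sq_nonneg (Real.sinh b)
  calc (A * s) ^ 2 = s ^ 2 * A ^ 2 := by ring
    _ = s ^ 2 * Real.sin (q.re - u.re - 3 * NUP1.l) ^ 2 + s ^ 2 * Real.sinh b ^ 2 := by
        rw [h1]
        ring
    _ ≤ s ^ 2 + Real.sinh b ^ 2 := by nlinarith [sq_nonneg s]
    _ = D ^ 2 := h2.symm

/-- **the modulus of the anti-legs is bounded**, any heights -/
theorem anti_le {z' u : ℂ} (h : |z'.re| ≤ NUP1.l / 10) (h1 : -((2 + PBO.eM) * NUP1.l) ≤ u.re)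
    (h2 : u.re ≤ 4 / 5 * NUP1.l) : ‖Lg (z' + 3 * NUP1.l) (z' - 3 * NUP1.l) u‖ ≤ 7 := by
  have hl := Bd.l_pos
  have hpi : Real.pi = 8 * NUP1.l := by
    unfold NUP1.l
    ring
  obtain ⟨a1, a2⟩ := abs_le.1 h
  have e : (z' + 3 * (NUP1.l : ℂ)).re = z'.re + 3 * NUP1.l := by simp
  have hM : PBO.eM = 1251 / 5000 := rfl
  rw [hM] at h1
  obtain ⟨y, hy⟩ : ∃ y, y = Real.pi - (z'.re + 3 * NUP1.l - u.re + 2 * NUP1.l) := ⟨_, rfl⟩
  have y1 : 16 / 25 * NUP1.l ≤ y := by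
    rw [hy, hpi]
    linarith
  have y2 : y ≤ Real.pi / 2 := by
    rw [hy, hpi]
    linarith
  have y0 : 0 ≤ y := le_trans (by positivity) y1
  have hs : 4 / 25 ≤ Real.sin (z'.re + 3 * NUP1.l - u.re + 2 * NUP1.l) := by
    rw [← Real.sin_pi_sub, ← hy]
    refine le_trans ?_ (Real.mul_le_sin y0 y2)
    rw [hpi]
    have : 2 / (8 * NUP1.l) * (16 / 25 * NUP1.l) = 4 / 25 := by
      field_simp
      norm_num
    rw [← this]
    exact mul_le_mul_of_nonneg_left y1 (by positivity)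
  have key := Lg_le_one (p := z' + 3 * NUP1.l) (q := z' - 3 * NUP1.l) (u := u) (by simp) (by
    rw [e]
    linarith)
  rw [e] at key
  refine key.trans ?_
  rw [inv_le_comm₀ (by linarith) (by norm_num)]
  linarith

/-- **the spectator is admissible** -/
theorem spV {z z' : ℂ} (h1 : -(9 / 10 * NUP1.l) ≤ z.re) (h2 : z.re ≤ 187 / 50 * NUP1.l)
    (h : |z'.re| ≤ NUP1.l / 10) : PBO.SpZ (PBO.cZ * 7) PBO.eM fun _ u => thV z z' u := by
  have a := PBO.legZ (z := z) h1 h2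
  have b : PBO.SpZ 7 PBO.eM fun _ u => ‖Lg (z' + 3 * NUP1.l) (z' - 3 * NUP1.l) u‖ :=
    fun _ u u1 u2 => ⟨norm_nonneg _, anti_le h u1 u2⟩
  have e : (fun (_ : Bool) (u : ℂ) => thV z z' u) = fun (_ : Bool) (u : ℂ) =>
      PBO.thZ z u * ‖Lg (z' + 3 * NUP1.l) (z' - 3 * NUP1.l) u‖ := by
    funext _ u
    rw [← PVS.norm_LgV, PVS.LgV_eq, norm_mul, PBX.norm_Lg]
    rfl
  rw [e]
  exact a.mul b

theorem obZ_V {ep : ℝ} (k : ℕ) {x z z' : ℂ} (hx : |x.re| ≤ NUP1.l / 5) (hx' : |x.im| ≤ 2)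
    (h1 : -(9 / 10 * NUP1.l) ≤ z.re) (h2 : z.re ≤ 187 / 50 * NUP1.l) (h : |z'.re| ≤ NUP1.l / 10) :
    PBO.ObZ 2 2 (PBO.cZ * 7) (k + 1) (4 / 3 * (1 - ep)) PBO.eM (obV k (4 / 3 * (1 - ep)) x z z') k
      (List.ofFn (mu1 k x)) [x] [I, -I] [] (2 * Real.cos NUP1.l) (fun _ u => thV z z' u) where
  rows := rowsZ k hx hx'
  w1 := PBO.PtsZ.II le_rfl (by norm_num)
  w2 := PBO.PtsZ.nil _ _
  cc := two_cos
  sp := spV h1 h2 h
  R := fun a u => by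
    show 2 * Real.cos NUP1.l * (∏ i, PBX.rwC (mu1 k x i) u) * thV z z' u =
      2 * Real.cos NUP1.l * ((List.ofFn (mu1 k x)).map fun x => PBO.rwC x u).prod * thV z z' u
    rw [List.map_ofFn, List.prod_ofFn]
    rfl
  φ := rfl
  φ0 := rfl

/-- **the one body bounds of the data** with legs at `z`, anti-legs at `z'` -/
theorem oneB_V (K' : ℝ) : ∃ C c : ℝ, 0 < C ∧ 0 < c ∧ ∀ e1 : ℝ, 0 < e1 → e1 ≤ 1 / 100 →
    ∀ J : ℝ, 0 ≤ J → ∃ m0 : ℕ, ∀ k : ℕ, m0 ≤ k → ∀ ep : ℝ, 0 < ep → ep ≤ 1 / 100 →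
    ∀ x z z' : ℂ, |x.re| ≤ NUP1.l / 5 → |x.im| ≤ 2 → -(9 / 10 * NUP1.l) ≤ z.re →
      z.re ≤ 187 / 50 * NUP1.l → |z'.re| ≤ NUP1.l / 10 →
      OneB C c K' ep e1 J (k + 1) (obV k (4 / 3 * (1 - ep)) x z z') := by
  obtain ⟨Ca, c, hCa, hc, HO⟩ := PBO.one_actZT 2 (h0 := 2) (G := PBO.cZ * 7) (by norm_num)
    (mul_pos PBO.cZ_pos (by norm_num)) K' 12
  refine ⟨Ca, c, hCa, hc, fun e1 he he1 J hJ => ?_⟩
  obtain ⟨mo, HO⟩ := HO e1 he
  obtain ⟨mg, Hg⟩ := PBP.exists_M0 he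
  refine ⟨max mo (max mg 5), fun k hk ep hep hep1 x z z' hx hx' z1 z2 h => ?_⟩
  have k2 : mo ≤ k + 1 := ((le_max_left _ _).trans hk).trans (Nat.le_succ k)
  have k3 : mg ≤ k + 1 := ((le_max_left _ _).trans ((le_max_right _ _).trans hk)).trans
    (Nat.le_succ k)
  have k6 : 5 ≤ k := (le_max_right _ _).trans ((le_max_right _ _).trans hk)
  have hmp : (0 : ℝ) < ((k + 1 : ℕ) : ℝ) := by positivity
  have hcr : ∀ t, crH (etL e1 J (k + 1)) (k + 1) t = hC e1 J (k + 1) t := fun t => mul_etaC hmp t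
  obtain ⟨g1, g2⟩ := PBO.hC_gain he he1 hJ (m := k + 1) (Hg (k + 1) k3).1
  intro r O i
  exact HO (k + 1) k2 (by omega) ep hep hep1 (obV k (4 / 3 * (1 - ep)) x z z') k
    (List.ofFn (mu1 k x)) [x] [I, -I] [] (2 * Real.cos NUP1.l) (fun _ u => thV z z' u)
    (obZ_V k hx hx' z1 z2 h) (obV_nn _ _ _ _ _) J (TW ep e1 (k + 1))
    (TW_ge hep hep1 he.le (by omega)) (crH (etL e1 J (k + 1)) (k + 1))
    (fun t => by rw [hcr]; exact g1 t) (fun t ht => by rw [hcr]; exact g2 t ht) r O i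

end PVT

end
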