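import Mathlib

/-!
# Plan V: the scalar sequence lemmas (helper12)

* `seq_smallV`: `g (j + 2) (1 + θ / j) ≤ g j + C j^(p-1)`, `θ > 0`, `p ≥ 0`: `g j = O(j^p)`;
* `seq_lim`: `‖G (j + 1) - G j‖ ≤ C j^(-(1+c))`, `c > 0`: `G j → G`, with rate `j^(-c)`;
* `seq_powV`: `‖b (j + 1) (1 - μ / j) - b j‖ ≤ C j^(p-1)`, `‖b j‖ ≤ C j^e`, `0 ≤ μ ≤ 1`, `p < μ`,
  `e ≤ p + 1`: `‖b j - G j^μ‖ ≤ C' j^p` for some `G`.
-/

set_option autoImplicit false

open Filter Topology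

namespace PVF

/-- one step -/
theorem seq_stepV {g g' θ p C B x : ℝ} (hx : 0 < x) (hp : 0 ≤ p) (hθ : 0 < θ) (hB : 0 ≤ B)
    (hBC : C ≤ B * θ) (h : g' * (1 + θ / x) ≤ g + C * x ^ (p - 1)) (hg : g ≤ B * x ^ p) :
    g' ≤ B * (x + 2) ^ p := by
  have h0 : 0 < 1 + θ / x := by positivity
  have hp1 : 0 < x ^ p := Real.rpow_pos_of_pos hx _
  have h1 : x ^ (p - 1) = x ^ p / x := by
    rw [Real.rpow_sub hx, Real.rpow_one]
  have h2 : g' * (1 + θ / x) ≤ (B * x ^ p) * (1 + θ / x) := by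
    calc g' * (1 + θ / x) ≤ g + C * x ^ (p - 1) := h
      _ ≤ B * x ^ p + (B * θ) * (x ^ p / x) := by
        rw [h1]
        have : 0 ≤ x ^ p / x := by positivity
        gcongr
      _ = _ := by
        field_simp
  have h3 := le_of_mul_le_mul_right h2 h0
  refine h3.trans (mul_le_mul_of_nonneg_left ?_ hB)
  exact Real.rpow_le_rpow hx.le (by linarith) hp

/-- **decay of a mode** -/
theorem seq_smallV {g : ℕ → ℝ} {θ p C : ℝ} (hp : 0 ≤ p) (hθ : 0 < θ)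
    (h : ∀ᶠ j : ℕ in atTop, g (j + 2) * (1 + θ / j) ≤ g j + C * (j : ℝ) ^ (p - 1)) :
    ∃ B : ℝ, 0 ≤ B ∧ ∀ᶠ j : ℕ in atTop, g j ≤ B * (j : ℝ) ^ p := by
  obtain ⟨J, hJ⟩ := eventually_atTop.1 (h.and (eventually_ge_atTop 1))
  set B : ℝ := max (max |g J| |g (J + 1)|) (|C| / θ) with hB
  have hB2 : |C| / θ ≤ B := le_max_right _ _
  have hB0 : 0 ≤ B := le_trans (by positivity) hB2
  have hBC : C ≤ B * θ := by
    rw [div_le_iff₀ hθ] at hB2
    exact (le_abs_self C).trans hB2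
  have base : ∀ i : ℕ, 1 ≤ i → |g i| ≤ B → g i ≤ B * (i : ℝ) ^ p := by
    intro i hi hh
    have hi1 : (1 : ℝ) ≤ i := by exact_mod_cast hi
    have hp1 : (1 : ℝ) ≤ (i : ℝ) ^ p := Real.one_le_rpow hi1 hp
    have := le_abs_self (g i)
    nlinarith
  have hJ1 : 1 ≤ J := (hJ J le_rfl).2
  have key : ∀ n : ℕ, g (J + n) ≤ B * ((J + n : ℕ) : ℝ) ^ p ∧
      g (J + n + 1) ≤ B * ((J + n + 1 : ℕ) : ℝ) ^ p := by
    intro n
    induction n with
    | zero =>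
      refine ⟨?_, ?_⟩
      · exact base (J + 0) (by omega) (by
          rw [Nat.add_zero]
          exact (le_max_left _ _).trans (le_max_left _ _))
      · exact base (J + 0 + 1) (by omega) (by
          rw [Nat.add_zero]
          exact (le_max_right _ _).trans (le_max_left _ _))
    | succ n ih =>
      refine ⟨by rw [← Nat.add_assoc]; exact ih.2, ?_⟩
      obtain ⟨a1, a3⟩ := hJ (J + n) (by omega)
      have hx : (0 : ℝ) < ((J + n : ℕ) : ℝ) := by exact_mod_cast a3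
      have := seq_stepV hx hp hθ hB0 hBC a1 ih.1
      have e : ((J + (n + 1) + 1 : ℕ) : ℝ) = ((J + n : ℕ) : ℝ) + 2 := by
        push_cast
        ring
      rw [e, show J + (n + 1) + 1 = J + n + 2 by ring]
      exact this
  refine ⟨B, hB0, eventually_atTop.2 ⟨J, fun j hj => ?_⟩⟩
  obtain ⟨n, rfl⟩ := Nat.exists_eq_add_of_le hj
  exact (key n).1

/-- the weights of a summable tail -/
theorem rpow_tele {x c : ℝ} (hx : 1 ≤ x) (hc : 0 < c) :
    c * (2 : ℝ) ^ (-(1 + c)) * x ^ (-(1 + c)) ≤ x ^ (-c) - (x + 1) ^ (-c) := by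
  have hx0 : 0 < x := by linarith
  -- mean value
  have hcont : ContinuousOn (fun t : ℝ => t ^ (-c)) (Set.Icc x (x + 1)) := by
    intro t ht
    exact (Real.continuousAt_rpow_const _ _ (Or.inl (by linarith [ht.1]))).continuousWithinAt
  obtain ⟨t, ht, h1⟩ := exists_hasDerivAt_eq_slope (fun t : ℝ => t ^ (-c)) (fun t => (-c) * t ^ (-c - 1))
    (show x < x + 1 by linarith) hcont (fun t ht => Real.hasDerivAt_rpow_const (Or.inl (by linarith [ht.1])))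
  rw [add_sub_cancel_left, div_one] at h1
  have h2 : x ^ (-c) - (x + 1) ^ (-c) = c * t ^ (-(1 + c)) := by
    have e : -c - 1 = -(1 + c) := by ring
    rw [e] at h1
    linarith
  rw [h2, mul_assoc]
  refine mul_le_mul_of_nonneg_left ?_ hc.le
  rw [← Real.mul_rpow (by norm_num) hx0.le]
  refine Real.rpow_le_rpow_of_nonpos (by linarith [ht.1]) (by linarith [ht.2]) (by linarith)

/-- **limit with a rate** -/
theorem seq_lim {E : Type*} [NormedAddCommGroup E] [CompleteSpace E] {G : ℕ → E} {c C : ℝ} (hc : 0 < c)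
    (h : ∀ᶠ j : ℕ in atTop, ‖G (j + 1) - G j‖ ≤ C * (j : ℝ) ^ (-(1 + c))) :
    ∃ (g : E) (C' : ℝ), 0 ≤ C' ∧ ∀ᶠ j : ℕ in atTop, ‖G j - g‖ ≤ C' * (j : ℝ) ^ (-c) := by
  obtain ⟨J, hJ⟩ := eventually_atTop.1 (h.and (eventually_ge_atTop 1))
  set κ : ℝ := c * (2 : ℝ) ^ (-(1 + c)) with hκ
  have hκ0 : 0 < κ := by positivity
  set D : ℝ := |C| / κ with hD
  have hD0 : 0 ≤ D := by positivity
  set H : ℕ → ℝ := fun j => D * (j : ℝ) ^ (-c) with hH
  have hstep : ∀ j ≥ J, ‖G (j + 1) - G j‖ ≤ H j - H (j + 1) := by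
    intro j hj
    obtain ⟨h1, h2⟩ := hJ j hj
    have hj1 : (1 : ℝ) ≤ j := by exact_mod_cast h2
    have h3 := rpow_tele hj1 hc
    have h4 : C * (j : ℝ) ^ (-(1 + c)) ≤ D * (κ * (j : ℝ) ^ (-(1 + c))) := by
      have e : D * (κ * (j : ℝ) ^ (-(1 + c))) = |C| * (j : ℝ) ^ (-(1 + c)) := by
        rw [hD, ← mul_assoc, div_mul_cancel₀ _ hκ0.ne']
      rw [e]
      have : 0 ≤ (j : ℝ) ^ (-(1 + c)) := by positivity
      gcongr
      exact le_abs_self C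
    have h5 : D * (κ * (j : ℝ) ^ (-(1 + c))) ≤ D * ((j : ℝ) ^ (-c) - ((j : ℝ) + 1) ^ (-c)) :=
      mul_le_mul_of_nonneg_left h3 hD0
    refine h1.trans (h4.trans (h5.trans (le_of_eq ?_)))
    simp only [hH]
    push_cast
    ring
  have htele : ∀ j ≥ J, ∀ n : ℕ, ‖G (j + n) - G j‖ ≤ H j - H (j + n) := by
    intro j hj n
    induction n with
    | zero => simp
    | succ n ih =>
      have h1 := hstep (j + n) (by omega)
      have e : G (j + (n + 1)) - G j = (G (j + n + 1) - G (j + n)) + (G (j + n) - G j) := by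
        rw [← Nat.add_assoc]
        abel
      rw [e]
      refine (norm_add_le _ _).trans ?_
      rw [← Nat.add_assoc]
      linarith
  have hH0 : ∀ j, 0 ≤ H j := fun j => by positivity
  have hHlim : Tendsto H atTop (𝓝 0) := by
    have h1 := ((tendsto_rpow_neg_atTop hc).comp tendsto_natCast_atTop_atTop).const_mul D
    rw [mul_zero] at h1
    exact h1
  have hcau : CauchySeq (fun n => G (J + n)) := by
    refine cauchySeq_of_le_tendsto_0' (fun n => H (J + n)) ?_ ?_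
    · intro n m hnm
      obtain ⟨k, rfl⟩ := Nat.exists_eq_add_of_le hnm
      have := htele (J + n) (by omega) k
      rw [dist_comm, dist_eq_norm, ← Nat.add_assoc]
      linarith [hH0 (J + n + k)]
    · have h1 : Tendsto (fun n => H (n + J)) atTop (𝓝 0) := (tendsto_add_atTop_iff_nat J).2 hHlim
      refine h1.congr fun n => ?_
      rw [Nat.add_comm]
  obtain ⟨g, hg⟩ := cauchySeq_tendsto_of_complete hcau
  refine ⟨g, D, hD0, eventually_atTop.2 ⟨J, fun j hj => ?_⟩⟩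
  obtain ⟨m, rfl⟩ := Nat.exists_eq_add_of_le hj
  have h1 : Tendsto (fun n => ‖G (J + m + n) - G (J + m)‖) atTop (𝓝 ‖g - G (J + m)‖) := by
    have h2 : Tendsto (fun n => G (J + (n + m))) atTop (𝓝 g) := (tendsto_add_atTop_iff_nat m).2 hg
    refine ((h2.congr fun n => ?_).sub_const _).norm
    rw [Nat.add_comm n m, Nat.add_assoc]
  rw [norm_sub_rev]
  refine le_of_tendsto' h1 fun n => (htele (J + m) (by omega) n).trans ?_
  have := hH0 (J + m + n)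
  have e : H (J + m) = D * ((J + m : ℕ) : ℝ) ^ (-c) := rfl
  linarith

/-- the second order error of the power -/
theorem pow_step {x μ : ℝ} (hx : 1 ≤ x) (hμ : 0 ≤ μ) (hμ1 : μ ≤ 1) :
    |(x + 1) ^ (-μ) - (1 - μ / x) * x ^ (-μ)| ≤ 2 * x ^ (-μ - 2) := by
  have hx0 : 0 < x := by linarith
  set y : ℝ := 1 / x with hy
  have hy0 : 0 < y := by positivity
  have hy1 : y ≤ 1 := by rw [hy, div_le_one hx0]; exact hx
  have e1 : (x + 1) ^ (-μ) = x ^ (-μ) * (1 + y) ^ (-μ) := by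
    rw [← Real.mul_rpow hx0.le (by positivity)]
    congr 1
    rw [hy]
    field_simp
  have e2 : x ^ (-μ - 2) = x ^ (-μ) * y ^ 2 := by
    rw [Real.rpow_sub hx0, hy]
    norm_num
    rfl
  have e3 : (x + 1) ^ (-μ) - (1 - μ / x) * x ^ (-μ) = x ^ (-μ) * ((1 + y) ^ (-μ) - (1 - μ * y)) := by
    rw [e1, hy]
    ring
  have hp : 0 < x ^ (-μ) := Real.rpow_pos_of_pos hx0 _
  rw [e3, abs_mul, abs_of_pos hp, e2]
  have h4 : |(1 + y) ^ (-μ) - (1 - μ * y)| ≤ 2 * y ^ 2 := by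
    have hl : 0 < 1 + y := by linarith
    set u : ℝ := μ * Real.log (1 + y) with hu
    have hlog1 : Real.log (1 + y) ≤ y := by
      have := Real.log_le_sub_one_of_pos hl
      linarith
    have hlog0 : 0 ≤ Real.log (1 + y) := Real.log_nonneg (by linarith)
    have hlog2 : y - y ^ 2 ≤ Real.log (1 + y) := by
      have h5 := Real.one_sub_inv_le_log_of_pos hl
      have h6 : y - y ^ 2 ≤ 1 - (1 + y)⁻¹ := by
        have h7 : 1 - (1 + y)⁻¹ - (y - y ^ 2) = y ^ 3 / (1 + y) := by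
          field_simp
          ring
        have : 0 ≤ y ^ 3 / (1 + y) := by positivity
        linarith
      linarith
    have hu0 : 0 ≤ u := by positivity
    have huy : u ≤ y := by
      rw [hu]
      nlinarith
    have e4 : (1 + y) ^ (-μ) = Real.exp (-u) := by
      rw [Real.rpow_def_of_pos hl, hu]
      congr 1
      ring
    have h8 : |Real.exp (-u) - 1 - (-u)| ≤ (-u) ^ 2 := Real.abs_exp_sub_one_sub_id_le (by
      rw [abs_neg, abs_of_nonneg hu0]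
      linarith)
    have h9 : |u - μ * y| ≤ y ^ 2 := by
      rw [abs_le]
      constructor
      · have : μ * (y - y ^ 2) ≤ u := mul_le_mul_of_nonneg_left hlog2 hμ
        nlinarith [sq_nonneg y]
      · have : u ≤ μ * y := mul_le_mul_of_nonneg_left hlog1 hμ
        nlinarith [sq_nonneg y]
    have h10 : (-u) ^ 2 ≤ y ^ 2 := by nlinarith
    rw [e4]
    have e5 : Real.exp (-u) - (1 - μ * y) = (Real.exp (-u) - 1 - (-u)) + -(u - μ * y) := by ring
    rw [e5]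
    refine (abs_add_le _ _).trans ?_
    rw [abs_neg]
    linarith
  nlinarith

/-- **the power law with a rate** -/
theorem seq_powV {b : ℕ → ℂ} {μ p e C : ℝ} (hμ : 0 ≤ μ) (hμ1 : μ ≤ 1) (hpμ : p < μ) (he : e ≤ p + 1)
    (h : ∀ᶠ j : ℕ in atTop, ‖b (j + 1) * (1 - ((μ / j : ℝ) : ℂ)) - b j‖ ≤ C * (j : ℝ) ^ (p - 1))
    (hb : ∀ᶠ j : ℕ in atTop, ‖b (j + 1)‖ ≤ C * (j : ℝ) ^ e) :
    ∃ (g : ℂ) (C' : ℝ), 0 ≤ C' ∧ ∀ᶠ j : ℕ in atTop, ‖b j - g * (((j : ℝ) ^ μ : ℝ) : ℂ)‖ ≤ C' * (j : ℝ) ^ p := by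
  have hlim := seq_lim (G := fun j : ℕ => b j * (((j : ℝ) ^ (-μ) : ℝ) : ℂ)) (c := μ - p) (C := 2 * |C| + |C|)
    (by linarith) (by
    filter_upwards [h, hb, eventually_ge_atTop 1] with j h1 h2 h3
    have hj1 : (1 : ℝ) ≤ j := by exact_mod_cast h3
    have hj0 : (0 : ℝ) < j := by linarith
    have e1 : b (j + 1) * ((((j + 1 : ℕ) : ℝ) ^ (-μ) : ℝ) : ℂ) - b j * (((j : ℝ) ^ (-μ) : ℝ) : ℂ) =
        b (j + 1) * ((((j : ℝ) + 1) ^ (-μ) - (1 - μ / j) * (j : ℝ) ^ (-μ) : ℝ) : ℂ) +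
        (b (j + 1) * (1 - ((μ / j : ℝ) : ℂ)) - b j) * (((j : ℝ) ^ (-μ) : ℝ) : ℂ) := by
      push_cast
      ring

    rw [e1]
    refine (norm_add_le _ _).trans ?_
    rw [norm_mul, norm_mul, Complex.norm_real, Complex.norm_real, Real.norm_eq_abs, Real.norm_eq_abs,
      abs_of_pos (Real.rpow_pos_of_pos hj0 (-μ))]
    have h4 := pow_step hj1 hμ hμ1
    have hC : C ≤ |C| := le_abs_self C
    have g1 : ‖b (j + 1)‖ * |((j : ℝ) + 1) ^ (-μ) - (1 - μ / j) * (j : ℝ) ^ (-μ)| ≤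
        (|C| * (j : ℝ) ^ e) * (2 * (j : ℝ) ^ (-μ - 2)) := by
      have h5 : ‖b (j + 1)‖ ≤ |C| * (j : ℝ) ^ e := h2.trans (by gcongr)
      gcongr
    have g2 : ‖b (j + 1) * (1 - ((μ / j : ℝ) : ℂ)) - b j‖ * (j : ℝ) ^ (-μ) ≤
        (|C| * (j : ℝ) ^ (p - 1)) * (j : ℝ) ^ (-μ) := by
      have h5 : ‖b (j + 1) * (1 - ((μ / j : ℝ) : ℂ)) - b j‖ ≤ |C| * (j : ℝ) ^ (p - 1) := h1.trans (by gcongr)
      gcongr
    have g3 : (j : ℝ) ^ e * (j : ℝ) ^ (-μ - 2) ≤ (j : ℝ) ^ (-(1 + (μ - p))) := by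
      rw [← Real.rpow_add hj0]
      exact Real.rpow_le_rpow_of_exponent_le hj1 (by linarith)
    have g4 : (j : ℝ) ^ (p - 1) * (j : ℝ) ^ (-μ) = (j : ℝ) ^ (-(1 + (μ - p))) := by
      rw [← Real.rpow_add hj0]
      congr 1
      ring
    have g5 : (|C| * (j : ℝ) ^ e) * (2 * (j : ℝ) ^ (-μ - 2)) ≤ 2 * |C| * (j : ℝ) ^ (-(1 + (μ - p))) := by
      calc _ = 2 * |C| * ((j : ℝ) ^ e * (j : ℝ) ^ (-μ - 2)) := by ring
        _ ≤ _ := by gcongr
    have g6 : (|C| * (j : ℝ) ^ (p - 1)) * (j : ℝ) ^ (-μ) = |C| * (j : ℝ) ^ (-(1 + (μ - p))) := by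
      rw [mul_assoc, g4]
    rw [g6] at g2
    linarith)
  obtain ⟨g, C', hC', hg⟩ := hlim
  refine ⟨g, C', hC', ?_⟩
  filter_upwards [hg, eventually_ge_atTop 1] with j h1 h3
  have hj1 : (1 : ℝ) ≤ j := by exact_mod_cast h3
  have hj0 : (0 : ℝ) < j := by linarith
  have hne : (j : ℝ) ^ (-μ) * (j : ℝ) ^ μ = 1 := by
    rw [← Real.rpow_add hj0, neg_add_cancel, Real.rpow_zero]
  have e1 : b j - g * (((j : ℝ) ^ μ : ℝ) : ℂ) =
      (b j * (((j : ℝ) ^ (-μ) : ℝ) : ℂ) - g) * (((j : ℝ) ^ μ : ℝ) : ℂ) := by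
    have : (((j : ℝ) ^ (-μ) : ℝ) : ℂ) * (((j : ℝ) ^ μ : ℝ) : ℂ) = 1 := by
      rw [← Complex.ofReal_mul, hne, Complex.ofReal_one]
    rw [sub_mul, mul_assoc, this, mul_one]
  rw [e1, norm_mul, Complex.norm_real, Real.norm_of_nonneg (by positivity)]
  calc _ ≤ C' * (j : ℝ) ^ (-(μ - p)) * (j : ℝ) ^ μ := by gcongr
    _ = C' * (j : ℝ) ^ p := by
      rw [mul_assoc, ← Real.rpow_add hj0]
      congr 2
      ring

/-- **positivity of the constant from lower bounds at infinitely many sizes** -/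
theorem const_pos {F : ℕ → ℝ} {g μ p C' : ℝ} (hpμ : p < μ)
    (h : ∀ᶠ j : ℕ in atTop, |F j - g * (j : ℝ) ^ μ| ≤ C' * (j : ℝ) ^ p)
    (hlow : ∀ ε : ℝ, 0 < ε → ∃ᶠ j : ℕ in atTop, (j : ℝ) ^ (μ - ε) ≤ F j) : 0 < g := by
  by_contra hg
  rw [not_lt] at hg
  have hε : 0 < (μ - p) / 2 := by linarith
  have hev : ∀ᶠ j : ℕ in atTop, |C'| < (j : ℝ) ^ ((μ - p) / 2) :=
    ((tendsto_rpow_atTop hε).comp tendsto_natCast_atTop_atTop).eventually_gt_atTop |C'|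
  obtain ⟨j, h1, ⟨h2, h3⟩, h4⟩ := ((hlow _ hε).and_eventually ((h.and hev).and (eventually_ge_atTop 1))).exists
  have hj1 : (1 : ℝ) ≤ j := by exact_mod_cast h4
  have hj0 : (0 : ℝ) < j := by linarith
  have h5 : F j ≤ C' * (j : ℝ) ^ p := by
    have := (abs_le.1 h2).2
    have hp : 0 < (j : ℝ) ^ μ := Real.rpow_pos_of_pos hj0 _
    nlinarith
  have h6 : C' * (j : ℝ) ^ p < (j : ℝ) ^ (μ - (μ - p) / 2) := by
    have e1 : (j : ℝ) ^ (μ - (μ - p) / 2) = (j : ℝ) ^ ((μ - p) / 2) * (j : ℝ) ^ p := by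
      rw [← Real.rpow_add hj0]
      congr 1
      ring
    rw [e1]
    have hp : 0 < (j : ℝ) ^ p := Real.rpow_pos_of_pos hj0 _
    exact mul_lt_mul_of_pos_right ((le_abs_self C').trans_lt h3) hp
  linarith

end PVF
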