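import Pool.Agent.PV.RecV
import Pool.Agent.PV.SeqV
import Pool.Agent.PB.Rec2F

/-!
# Plan V: the chain (helper12)

`n j` = the function with `j` rows, `Psi j (., x)` = the same with one more row at `x`, coefficients
`b j`, `a j x`; `d/ds Psi j (i t) (i s) = (1 / j) (y⁻¹ - y) (γ Psi + α Psi'') + O(j^(p-1))`.
If `γ < α w²` (so `lamV k < 0` for `k ≠ 0`), `0 ≤ p`, `|Psi| ≤ C j^e0`, `e0 ≤ p + 1`: `chainV`:
* `|b j k| ≤ C' j^p` for `k ≠ 0`;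
* `|b (j + 1) 0 (1 - 2 lamV 0 / j) - b j 0| ≤ C' j^(p-1)`, and `|b (j + 1) 0| ≤ C' j^e0`.
-/

set_option autoImplicit false

noncomputable section

open Complex Filter Topology Set
open Pool.Agent.PB.Rec (EL EL_coef EL_add EL_sub EL_le EL_deriv EL_diff EL_smul EL_add' tr tr_mem tr_not EL_tr
  EL_succ EL_dn EL_up Bx Bx_open seg exp_L norm_neg_one_zpow sq_neg_one)

namespace PVF

theorem EEV_sub (w γ α : ℝ) (q : ℝ) (y0 : ℂ) (a b : ℤ → ℂ) (k : ℤ) :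
    EEV w γ α q y0 (fun m => a m - b m) k = EEV w γ α q y0 a k - EEV w γ α q y0 b k := by
  unfold EEV
  ring

/-- bound of the multipliers -/
def LLV (w γ α : ℝ) (K : ℕ) : ℝ := (|γ| + |α| * w ^ 2 * ((K : ℝ) + 2) ^ 2) / |w|

theorem LLV_nonneg (w γ α : ℝ) (K : ℕ) : 0 ≤ LLV w γ α K := by
  unfold LLV
  positivity

theorem lamV_le {w γ α : ℝ} {K : ℕ} {k : ℤ} (hk : |(k : ℝ)| ≤ (K : ℝ) + 2) :
    ‖lamV w γ α k‖ ≤ LLV w γ α K := by
  have hk' : ‖(k : ℂ)‖ ≤ (K : ℝ) + 2 := by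
    rw [Complex.norm_intCast]
    exact hk
  unfold lamV LLV
  rw [norm_div, norm_real, Real.norm_eq_abs]
  refine div_le_div_of_nonneg_right ?_ (abs_nonneg _)
  refine (norm_sub_le _ _).trans ?_
  rw [norm_real, Real.norm_eq_abs, norm_mul, norm_mul, norm_real, Real.norm_eq_abs, norm_pow, norm_pow,
    norm_real, Real.norm_eq_abs, sq_abs]
  gcongr

theorem EEV_le {w γ α : ℝ} {q : ℝ} (hq : 0 ≤ q) {a : ℤ → ℂ} {K : ℕ} {k : ℤ}
    {A : ℝ} (hk : k ∈ Finset.Icc (-((K + 1 : ℕ) : ℤ)) ((K + 1 : ℕ) : ℤ))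
    (h0 : ‖a k‖ ≤ A) (h1 : ‖a (k + 1)‖ ≤ A) (h2 : ‖a (k - 1)‖ ≤ A) :
    ‖EEV w γ α q 1 a k‖ ≤ 4 * LLV w γ α K * q * A := by
  have hA : 0 ≤ A := (norm_nonneg _).trans h0
  have hLL := LLV_nonneg w γ α K
  rw [Finset.mem_Icc] at hk
  push_cast at hk
  have hkr1 : (-((K : ℝ) + 1)) ≤ (k : ℝ) := by exact_mod_cast (by omega : -((K : ℤ) + 1) ≤ k)
  have hkr2 : (k : ℝ) ≤ (K : ℝ) + 1 := by exact_mod_cast hk.2
  have c0 : |(k : ℝ)| ≤ (K : ℝ) + 2 := by rw [abs_le]; constructor <;> linarith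
  have c1 : |((k + 1 : ℤ) : ℝ)| ≤ (K : ℝ) + 2 := by push_cast; rw [abs_le]; constructor <;> linarith
  have c2 : |((k - 1 : ℤ) : ℝ)| ≤ (K : ℝ) + 2 := by push_cast; rw [abs_le]; constructor <;> linarith
  have t0 : ‖(q : ℂ) * (lamV w γ α k * 1⁻¹ + lamV w γ α k * 1) * a k‖ ≤ 2 * LLV w γ α K * q * A := by
    have g : ‖lamV w γ α k * 1⁻¹ + lamV w γ α k * 1‖ ≤ 2 * LLV w γ α K := by
      rw [inv_one, mul_one]
      refine (norm_add_le _ _).trans ?_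
      linarith [lamV_le (w := w) (γ := γ) (α := α) c0]
    rw [norm_mul, norm_mul, norm_real, Real.norm_eq_abs, abs_of_nonneg hq]
    calc q * ‖lamV w γ α k * 1⁻¹ + lamV w γ α k * 1‖ * ‖a k‖ ≤ q * (2 * LLV w γ α K) * A := by gcongr
      _ = _ := by ring
  have t1 : ‖lamV w γ α (k + 1) * a (k + 1)‖ ≤ LLV w γ α K * A := by
    rw [norm_mul]
    exact mul_le_mul (lamV_le c1) h1 (norm_nonneg _) hLL
  have t2 : ‖lamV w γ α (k - 1) * a (k - 1)‖ ≤ LLV w γ α K * A := by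
    rw [norm_mul]
    exact mul_le_mul (lamV_le c2) h2 (norm_nonneg _) hLL
  unfold EEV
  refine (norm_sub_le _ _).trans ?_
  rw [norm_neg]
  have t3 : ‖(q : ℂ) * (lamV w γ α (k + 1) * a (k + 1) + lamV w γ α (k - 1) * a (k - 1))‖ ≤
      2 * LLV w γ α K * q * A := by
    rw [norm_mul, norm_real, Real.norm_eq_abs, abs_of_nonneg hq]
    calc q * ‖lamV w γ α (k + 1) * a (k + 1) + lamV w γ α (k - 1) * a (k - 1)‖
        ≤ q * (LLV w γ α K * A + LLV w γ α K * A) := by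
          refine mul_le_mul_of_nonneg_left ((norm_add_le _ _).trans (add_le_add t1 t2)) hq
      _ = _ := by ring
  linarith

/-- two steps: the cross terms cancel -/
theorem two_stepV {w γ α p e0 C4 C5 : ℝ} (hp : p ≤ 1) (hpe : p ≤ e0) (he : e0 ≤ p + 1)
    (hC4 : 0 ≤ C4) (hC5 : 0 ≤ C5) (K : ℕ) {B : ℕ → ℤ → ℂ} {j : ℕ} (hj : 1 ≤ j)
    (h : ∀ i ∈ ({j, j + 1} : Set ℕ), ∀ k ∈ Finset.Icc (-((K + 1 : ℕ) : ℤ)) ((K + 1 : ℕ) : ℤ),
      ‖B i k - (-1) ^ k * (B (i + 1) k + EEV w γ α (1 / i) 1 (B (i + 1)) k)‖ ≤ C4 * (i : ℝ) ^ (p - 1))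
    (hB : ∀ k, ‖B (j + 2) k‖ ≤ C5 * (j : ℝ) ^ e0) {k : ℤ} (hk : k ∈ Finset.Icc (-(K : ℤ)) K) :
    ‖B j k - B (j + 2) k * (1 - 4 * lamV w γ α k / j)‖ ≤
      (2 * C4 + 4 * LLV w γ α K * (C4 + 4 * LLV w γ α K * C5) + 4 * LLV w γ α K * C5) *
        (j : ℝ) ^ (p - 1) := by
  have hLL := LLV_nonneg w γ α K
  have hj1 : (1 : ℝ) ≤ (j : ℝ) := by exact_mod_cast hj
  have hj0 : (0 : ℝ) < (j : ℝ) := by linarith
  set Λ : ℝ := LLV w γ α K with hΛ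
  have hpp : 0 ≤ (j : ℝ) ^ (p - 1) := Real.rpow_nonneg hj0.le _
  have hmono : ((j + 1 : ℕ) : ℝ) ^ (p - 1) ≤ (j : ℝ) ^ (p - 1) := by
    refine Real.rpow_le_rpow_of_nonpos hj0 ?_ (by linarith)
    push_cast
    linarith
  have hK1 : k ∈ Finset.Icc (-((K + 1 : ℕ) : ℤ)) ((K + 1 : ℕ) : ℤ) := by
    rw [Finset.mem_Icc] at hk ⊢
    push_cast
    omega
  have hKp : k + 1 ∈ Finset.Icc (-((K + 1 : ℕ) : ℤ)) ((K + 1 : ℕ) : ℤ) := by
    rw [Finset.mem_Icc] at hk ⊢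
    push_cast
    omega
  have hKm : k - 1 ∈ Finset.Icc (-((K + 1 : ℕ) : ℤ)) ((K + 1 : ℕ) : ℤ) := by
    rw [Finset.mem_Icc] at hk ⊢
    push_cast
    omega
  have hq1 : 0 ≤ 1 / ((j + 1 : ℕ) : ℝ) := by positivity
  have hq : 0 ≤ 1 / (j : ℝ) := by positivity
  have hqle : 1 / ((j + 1 : ℕ) : ℝ) ≤ 1 / (j : ℝ) := by
    push_cast
    gcongr
    linarith
  have hA5 : 0 ≤ C5 * (j : ℝ) ^ e0 := mul_nonneg hC5 (Real.rpow_nonneg hj0.le _)
  -- powers of j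
  have pw1 : (j : ℝ)⁻¹ * (j : ℝ) ^ e0 = (j : ℝ) ^ (e0 - 1) := by
    rw [← Real.rpow_neg_one, ← Real.rpow_add hj0]
    congr 1
    ring
  have pw2 : (j : ℝ) ^ (p - 1) ≤ (j : ℝ) ^ (e0 - 1) :=
    Real.rpow_le_rpow_of_exponent_le hj1 (by linarith)
  have pw3 : (j : ℝ)⁻¹ * (j : ℝ) ^ (e0 - 1) ≤ (j : ℝ) ^ (p - 1) := by
    rw [← Real.rpow_neg_one, ← Real.rpow_add hj0]
    exact Real.rpow_le_rpow_of_exponent_le hj1 (by linarith)
  have pw0 : 0 ≤ (j : ℝ) ^ (e0 - 1) := Real.rpow_nonneg hj0.le _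
  -- crude relation between j + 1 and j + 2
  have hcr : ∀ m ∈ Finset.Icc (-((K + 1 : ℕ) : ℤ)) ((K + 1 : ℕ) : ℤ),
      ‖B (j + 1) m - (-1) ^ m * B (j + 2) m‖ ≤ (C4 + 4 * Λ * C5) * (j : ℝ) ^ (e0 - 1) := by
    intro m hm
    have e1 := h (j + 1) (by simp) m hm
    have e2 : ‖EEV w γ α (1 / ((j + 1 : ℕ) : ℝ)) 1 (B (j + 2)) m‖ ≤
        4 * Λ * (1 / ((j + 1 : ℕ) : ℝ)) * (C5 * (j : ℝ) ^ e0) :=
      EEV_le hq1 hm (hB _) (hB _) (hB _)
    have e3 : B (j + 1) m - (-1) ^ m * B (j + 2) m =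
        (B (j + 1) m - (-1) ^ m * (B (j + 1 + 1) m + EEV w γ α (1 / ((j + 1 : ℕ) : ℝ)) 1 (B (j + 1 + 1)) m)) +
          (-1) ^ m * EEV w γ α (1 / ((j + 1 : ℕ) : ℝ)) 1 (B (j + 2)) m := by
      rw [show j + 1 + 1 = j + 2 by ring]
      ring
    rw [e3]
    refine (norm_add_le _ _).trans ?_
    rw [norm_mul, norm_neg_one_zpow, one_mul]
    have e4 : C4 * ((j + 1 : ℕ) : ℝ) ^ (p - 1) ≤ C4 * (j : ℝ) ^ (e0 - 1) :=
      mul_le_mul_of_nonneg_left (hmono.trans pw2) hC4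
    have e5 : 4 * Λ * (1 / ((j + 1 : ℕ) : ℝ)) * (C5 * (j : ℝ) ^ e0) ≤ 4 * Λ * C5 * (j : ℝ) ^ (e0 - 1) := by
      rw [← pw1]
      calc 4 * Λ * (1 / ((j + 1 : ℕ) : ℝ)) * (C5 * (j : ℝ) ^ e0) ≤ 4 * Λ * (1 / (j : ℝ)) * (C5 * (j : ℝ) ^ e0) := by
            gcongr
        _ = _ := by
            rw [one_div]
            ring
    rw [add_mul]
    linarith [e1.trans e4, e2.trans e5]
  -- EE at step j applied to B (j + 1)
  have hEE : ‖EEV w γ α (1 / (j : ℝ)) 1 (fun m => B (j + 1) m - (-1) ^ m * B (j + 2) m) k‖ ≤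
      4 * Λ * (C4 + 4 * Λ * C5) * (j : ℝ) ^ (p - 1) := by
    have e1 := EEV_le (w := w) (γ := γ) (α := α) hq
      (a := fun m => B (j + 1) m - (-1) ^ m * B (j + 2) m) (K := K) hK1
      (hcr k hK1) (hcr _ hKp) (hcr _ hKm)
    refine e1.trans ?_
    have e2 : 4 * LLV w γ α K * (1 / (j : ℝ)) * ((C4 + 4 * Λ * C5) * (j : ℝ) ^ (e0 - 1)) =
        4 * Λ * (C4 + 4 * Λ * C5) * ((j : ℝ)⁻¹ * (j : ℝ) ^ (e0 - 1)) := by
      rw [one_div]
      ring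
    rw [e2]
    exact mul_le_mul_of_nonneg_left pw3 (by positivity)
  rw [EEV_sub] at hEE
  -- difference of 1 / j and 1 / (j + 1)
  have hdq : ‖EEV w γ α (1 / ((j + 1 : ℕ) : ℝ)) 1 (B (j + 2)) k -
      EEV w γ α (1 / (j : ℝ)) 1 (B (j + 2)) k‖ ≤ 4 * Λ * C5 * (j : ℝ) ^ (p - 1) := by
    have e1 : EEV w γ α (1 / ((j + 1 : ℕ) : ℝ)) 1 (B (j + 2)) k -
        EEV w γ α (1 / (j : ℝ)) 1 (B (j + 2)) k =
        -EEV w γ α (1 / (j : ℝ) - 1 / ((j + 1 : ℕ) : ℝ)) 1 (B (j + 2)) k := by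
      unfold EEV
      push_cast
      ring
    rw [e1, norm_neg]
    have hd0 : 0 ≤ 1 / (j : ℝ) - 1 / ((j + 1 : ℕ) : ℝ) := by linarith
    have e2 := EEV_le (w := w) (γ := γ) (α := α) hd0 (a := B (j + 2)) (K := K) hK1
      (hB k) (hB (k + 1)) (hB (k - 1))
    refine e2.trans ?_
    have e3 : 1 / (j : ℝ) - 1 / ((j + 1 : ℕ) : ℝ) ≤ (j : ℝ)⁻¹ * (j : ℝ)⁻¹ := by
      push_cast
      have : 1 / (j : ℝ) - 1 / ((j : ℝ) + 1) = (j : ℝ)⁻¹ * ((j : ℝ) + 1)⁻¹ := by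
        field_simp
        ring
      rw [this]
      gcongr
      linarith
    calc 4 * LLV w γ α K * (1 / (j : ℝ) - 1 / ((j + 1 : ℕ) : ℝ)) * (C5 * (j : ℝ) ^ e0)
        ≤ 4 * LLV w γ α K * ((j : ℝ)⁻¹ * (j : ℝ)⁻¹) * (C5 * (j : ℝ) ^ e0) := by gcongr
      _ = 4 * Λ * C5 * ((j : ℝ)⁻¹ * ((j : ℝ)⁻¹ * (j : ℝ) ^ e0)) := by ring
      _ ≤ 4 * Λ * C5 * (j : ℝ) ^ (p - 1) := by
          rw [pw1]
          exact mul_le_mul_of_nonneg_left pw3 (by positivity)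
  -- the sum
  have e1 := h j (by simp) k hK1
  have e2 := h (j + 1) (by simp) k hK1
  rw [show j + 1 + 1 = j + 2 by ring] at e2
  have e2' := e2.trans (mul_le_mul_of_nonneg_left hmono hC4)
  have p1 : ((-1 : ℂ)) ^ (k + 1) = -(-1) ^ k := by
    rw [zpow_add₀ (by norm_num), zpow_one]
    ring
  have p2 : ((-1 : ℂ)) ^ (k - 1) = -(-1) ^ k := by
    rw [zpow_sub₀ (by norm_num), zpow_one]
    ring
  have key : B (j + 2) k * (1 - 4 * lamV w γ α k / j) =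
      (-1) ^ k * ((-1) ^ k * (B (j + 2) k + EEV w γ α (1 / (j : ℝ)) 1 (B (j + 2)) k) +
        EEV w γ α (1 / (j : ℝ)) 1 (fun m => (-1) ^ m * B (j + 2) m) k) := by
    have hs := sq_neg_one k
    have hjc : (j : ℂ) ≠ 0 := by exact_mod_cast hj0.ne'
    have e3 : (-1) ^ k * ((-1) ^ k * (B (j + 2) k + EEV w γ α (1 / (j : ℝ)) 1 (B (j + 2)) k) +
        EEV w γ α (1 / (j : ℝ)) 1 (fun m => (-1) ^ m * B (j + 2) m) k) =
        ((-1) ^ k * (-1) ^ k) * (B (j + 2) k * (1 - (1 / j) * (4 * lamV w γ α k))) := by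
      unfold EEV
      beta_reduce
      rw [p1, p2]
      push_cast
      simp only [div_eq_mul_inv, inv_one]
      ring
    rw [e3, hs, one_mul]
    field_simp
  rw [key]
  have e4 : B j k - (-1) ^ k * ((-1) ^ k * (B (j + 2) k + EEV w γ α (1 / (j : ℝ)) 1 (B (j + 2)) k) +
        EEV w γ α (1 / (j : ℝ)) 1 (fun m => (-1) ^ m * B (j + 2) m) k) =
      (B j k - (-1) ^ k * (B (j + 1) k + EEV w γ α (1 / (j : ℝ)) 1 (B (j + 1)) k)) +
      (-1) ^ k * ((B (j + 1) k - (-1) ^ k * (B (j + 2) k +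
        EEV w γ α (1 / ((j + 1 : ℕ) : ℝ)) 1 (B (j + 2)) k)) +
        (EEV w γ α (1 / (j : ℝ)) 1 (B (j + 1)) k -
          EEV w γ α (1 / (j : ℝ)) 1 (fun m => (-1) ^ m * B (j + 2) m) k) +
        (-1) ^ k * (EEV w γ α (1 / ((j + 1 : ℕ) : ℝ)) 1 (B (j + 2)) k -
          EEV w γ α (1 / (j : ℝ)) 1 (B (j + 2)) k)) := by ring
  rw [e4]
  refine (norm_add_le _ _).trans ?_
  rw [norm_mul, norm_neg_one_zpow, one_mul]
  have e5 := (norm_add_le ((B (j + 1) k - (-1) ^ k * (B (j + 2) k +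
        EEV w γ α (1 / ((j + 1 : ℕ) : ℝ)) 1 (B (j + 2)) k)) +
        (EEV w γ α (1 / (j : ℝ)) 1 (B (j + 1)) k -
          EEV w γ α (1 / (j : ℝ)) 1 (fun m => (-1) ^ m * B (j + 2) m) k))
        ((-1) ^ k * (EEV w γ α (1 / ((j + 1 : ℕ) : ℝ)) 1 (B (j + 2)) k -
          EEV w γ α (1 / (j : ℝ)) 1 (B (j + 2)) k))).trans
    (add_le_add (norm_add_le _ _) le_rfl)
  rw [norm_mul, norm_neg_one_zpow, one_mul] at e5
  linarith

/-- **The chain.** -/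
theorem chainV {w L R γ α p e0 C : ℝ} (hw : 0 < w) (hL : w * L = Real.pi) (hR : |L| < R)
    (hp0 : 0 ≤ p) (hp : p ≤ 1) (hpe : p ≤ e0) (he : e0 ≤ p + 1) (hγ : γ < α * w ^ 2) (K : ℕ)
    {n : ℕ → ℂ → ℂ} {Psi : ℕ → ℂ → ℂ → ℂ} {b : ℕ → ℤ → ℂ} {a : ℕ → ℂ → ℤ → ℂ}
    (hα : 0 ≤ α)
    (hdf : ∀ᶠ j : ℕ in atTop, ∀ x ∈ seg 0, DifferentiableOn ℂ (fun z => Psi j z x) (Bx R))
    (ha : ∀ᶠ j : ℕ in atTop, ∀ x ∈ seg 0, ∀ z ∈ Bx R,
      ‖Psi j z x - EL w K (a j x) z‖ ≤ C * (j : ℝ) ^ (p - 1))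
    (hb : ∀ᶠ j : ℕ in atTop, ∀ z ∈ Bx R, ‖n j z - EL w K (b j) z‖ ≤ C * (j : ℝ) ^ (p - 1))
    (hA : ∀ᶠ j : ℕ in atTop, ∀ x ∈ seg 0, ∀ t ∈ Icc (0 : ℝ) 1, ‖Psi j (I * t) x‖ ≤ C * (j : ℝ) ^ e0)
    (hE : ∀ᶠ j : ℕ in atTop, ∀ s ∈ Icc (0 : ℝ) 1, ∀ t ∈ Icc (0 : ℝ) 1, ∃ D : ℂ,
      HasDerivAt (fun s : ℝ => Psi j (I * t) (I * s)) D s ∧
      ‖D - (1 / j : ℝ) * OpV γ α (fun z => Psi j z (I * s)) (exp (I * w * (I * s))) (I * t)‖ ≤
        C * (j : ℝ) ^ (p - 1))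
    (h0 : ∀ᶠ j : ℕ in atTop, ∀ z ∈ Bx R, Psi j z 0 = n (j + 1) z)
    (h1 : ∀ᶠ j : ℕ in atTop, ∀ x ∈ seg 0, Psi j (x + L) x = n j x) :
    ∃ C' : ℝ, 0 ≤ C' ∧
      (∀ᶠ j : ℕ in atTop, ∀ k ∈ Finset.Icc (-(K : ℤ)) K, k ≠ 0 → ‖b j k‖ ≤ C' * (j : ℝ) ^ p) ∧
      (∀ᶠ j : ℕ in atTop, ‖b (j + 1) 0 * (1 - 2 * lamV w γ α 0 / j) - b j 0‖ ≤ C' * (j : ℝ) ^ (p - 1)) ∧
      (∀ᶠ j : ℕ in atTop, ‖b (j + 1) 0‖ ≤ C' * (j : ℝ) ^ e0) := by
  obtain ⟨V, hV0, hV⟩ := EL_coef hw K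
  obtain ⟨D1, hD10, hD1⟩ := rec_modeV (X := 0) hw hL le_rfl (by rw [add_zero]; exact hR) K γ α
  have hR0 : 0 < R := (abs_nonneg _).trans_lt hR
  have he0 : 0 ≤ e0 := hp0.trans hpe
  have hIt : ∀ t ∈ Icc (0 : ℝ) 1, I * (t : ℂ) ∈ Bx R := by
    intro t ht
    refine ⟨by simpa using hR0, ?_⟩
    simp only [mul_im, I_re, ofReal_im, mul_zero, I_im, ofReal_re, one_mul, zero_add]
    rw [abs_of_nonneg ht.1]
    linarith [ht.2]
  set Λ : ℝ := LLV w γ α K with hΛ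
  have hLL : 0 ≤ Λ := LLV_nonneg w γ α K
  set Cp : ℝ := |C| with hCp
  have hCp0 : 0 ≤ Cp := abs_nonneg _
  set B : ℕ → ℤ → ℂ := fun j => tr K (b j) with hB
  -- constants
  set CA : ℝ := 2 * V * Cp with hCA
  have hCA0 : 0 ≤ CA := by positivity
  set C4 : ℝ := D1 * (2 * Cp + CA) + (1 + 4 * Λ) * CA with hC4
  have hC40 : 0 ≤ C4 := by positivity
  -- all j large
  have hall : ∀ᶠ j : ℕ in atTop, (∀ k, ‖B (j + 1) k‖ ≤ 2 * CA * (j : ℝ) ^ e0) ∧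
      ∀ k ∈ Finset.Icc (-((K + 1 : ℕ) : ℤ)) ((K + 1 : ℕ) : ℤ),
      ‖B j k - (-1) ^ k * (B (j + 1) k + EEV w γ α (1 / j) 1 (B (j + 1)) k)‖ ≤
        C4 * (j : ℝ) ^ (p - 1) := by
    filter_upwards [hdf, ha, hb, (tendsto_add_atTop_nat 1).eventually hb, hA, hE, h0, h1,
      eventually_ge_atTop 1] with j hdfj haj hbj hbj1 hAj hEj h0j h1j hj
    have hj1 : (1 : ℝ) ≤ (j : ℝ) := by exact_mod_cast hj
    have hj0 : (0 : ℝ) < (j : ℝ) := by linarith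
    have hpp : 0 ≤ (j : ℝ) ^ (p - 1) := Real.rpow_nonneg hj0.le _
    have hpe1 : 1 ≤ (j : ℝ) ^ e0 := Real.one_le_rpow hj1 he0
    have hple : (j : ℝ) ^ (p - 1) ≤ 1 := Real.rpow_le_one_of_one_le_of_nonpos hj1 (by linarith)
    have hCj : C * (j : ℝ) ^ (p - 1) ≤ Cp * (j : ℝ) ^ (p - 1) :=
      mul_le_mul_of_nonneg_right (le_abs_self C) hpp
    have hCe : C * (j : ℝ) ^ e0 ≤ Cp * (j : ℝ) ^ e0 := by
      gcongr
      exact le_abs_self C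
    have hmono : ((j + 1 : ℕ) : ℝ) ^ (p - 1) ≤ (j : ℝ) ^ (p - 1) := by
      refine Real.rpow_le_rpow_of_nonpos hj0 ?_ (by linarith)
      push_cast
      linarith
    have hCj1 : C * ((j + 1 : ℕ) : ℝ) ^ (p - 1) ≤ Cp * (j : ℝ) ^ (p - 1) :=
      (mul_le_mul_of_nonneg_right (le_abs_self C) (Real.rpow_nonneg (Nat.cast_nonneg _) _)).trans
        (mul_le_mul_of_nonneg_left hmono hCp0)
    have hmem0 : (0 : ℂ) ∈ seg 0 := ⟨0, ⟨le_rfl, zero_le_one⟩, by simp⟩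
    -- size of the coefficients
    have hcoef : ∀ x ∈ seg 0, ∀ k ∈ Finset.Icc (-(K : ℤ)) K, ‖a j x k‖ ≤ CA * (j : ℝ) ^ e0 := by
      intro x hx k hk
      have e1 : ‖a j x k‖ ≤ V * (Cp * (j : ℝ) ^ e0 + Cp * (j : ℝ) ^ (p - 1)) := by
        refine hV _ _ (fun t ht => ?_) k hk
        have f1 := (haj x hx _ (hIt t ht)).trans hCj
        have f2 := (hAj x hx t ht).trans hCe
        have e : EL w K (a j x) (I * t) = Psi j (I * t) x - (Psi j (I * t) x - EL w K (a j x) (I * t)) := by ring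
        rw [e]
        exact (norm_sub_le _ _).trans (add_le_add f2 f1)
      refine e1.trans ?_
      have : Cp * (j : ℝ) ^ (p - 1) ≤ Cp * (j : ℝ) ^ e0 := mul_le_mul_of_nonneg_left (hple.trans hpe1) hCp0
      rw [hCA]
      nlinarith [mul_le_mul_of_nonneg_left this hV0.le]
    -- two expansions of n (j + 1)
    have hab : ∀ k ∈ Finset.Icc (-(K : ℤ)) K, ‖b (j + 1) k - a j 0 k‖ ≤ CA * (j : ℝ) ^ (p - 1) := by
      intro k hk
      have e1 : ‖b (j + 1) k - a j 0 k‖ ≤ V * (Cp * (j : ℝ) ^ (p - 1) + Cp * (j : ℝ) ^ (p - 1)) := by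
        refine hV (fun k => b (j + 1) k - a j 0 k) _ (fun t ht => ?_) k hk
        rw [EL_sub]
        have f1 := (haj _ hmem0 _ (hIt t ht)).trans hCj
        have f2 := (hbj1 _ (hIt t ht)).trans hCj1
        rw [h0j _ (hIt t ht)] at f1
        have e : EL w K (b (j + 1)) (I * t) - EL w K (a j 0) (I * t) =
            (n (j + 1) (I * t) - EL w K (a j 0) (I * t)) -
              (n (j + 1) (I * t) - EL w K (b (j + 1)) (I * t)) := by ring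
        rw [e]
        exact (norm_sub_le _ _).trans (add_le_add f1 f2)
      refine e1.trans (le_of_eq ?_)
      rw [hCA]
      ring
    have hbig : ∀ k, ‖B (j + 1) k‖ ≤ 2 * CA * (j : ℝ) ^ e0 := by
      intro k
      by_cases hk : k ∈ Finset.Icc (-(K : ℤ)) K
      · have e1 : B (j + 1) k = b (j + 1) k := tr_mem hk
        rw [e1]
        have e2 := hab k hk
        have e3 := hcoef _ hmem0 k hk
        have e4 := norm_add_le (b (j + 1) k - a j 0 k) (a j 0 k)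
        rw [sub_add_cancel] at e4
        have e5 : CA * (j : ℝ) ^ (p - 1) ≤ CA * (j : ℝ) ^ e0 := mul_le_mul_of_nonneg_left (hple.trans hpe1) hCA0
        linarith
      · have e1 : B (j + 1) k = 0 := tr_not hk
        rw [e1, norm_zero]
        positivity
    refine ⟨hbig, ?_⟩
    -- the step
    have hq0 : 0 ≤ 1 / (j : ℝ) := by positivity
    have hq1 : 1 / (j : ℝ) ≤ 1 := by
      rw [div_le_one hj0]
      exact hj1
    have hstep := hD1 (Psi j) (n j) 0 (b j) (a j) (1 / j) (Cp * (j : ℝ) ^ (p - 1))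
      (Cp * (j : ℝ) ^ (p - 1)) (CA * (j : ℝ) ^ e0) (by simp) (by simp) hq0 hq1 hdfj
      (fun x hx z hz => (haj x hx z hz).trans hCj) (fun z hz => (hbj z hz).trans hCj) hcoef
      (fun s hs t ht => by
        obtain ⟨D, hD, hDle⟩ := hEj s hs t ht
        refine ⟨D, by simpa using hD, ?_⟩
        simp only [zero_add]
        exact hDle.trans hCj) h1j
    simp only [mul_zero, exp_zero] at hstep
    intro k hk
    have e1 := hstep k hk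
    set a0 : ℤ → ℂ := tr K (a j 0) with ha0
    have hdiff : ∀ m, ‖B (j + 1) m - a0 m‖ ≤ CA * (j : ℝ) ^ (p - 1) := by
      intro m
      by_cases hm : m ∈ Finset.Icc (-(K : ℤ)) K
      · have f1 : B (j + 1) m = b (j + 1) m := tr_mem hm
        have f2 : a0 m = a j 0 m := tr_mem hm
        rw [f1, f2]
        exact hab m hm
      · have f1 : B (j + 1) m = 0 := tr_not hm
        have f2 : a0 m = 0 := tr_not hm
        rw [f1, f2, sub_zero, norm_zero]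
        positivity
    have e2 : ‖EEV w γ α (1 / j) 1 (B (j + 1)) k - EEV w γ α (1 / j) 1 a0 k‖ ≤
        4 * Λ * CA * (j : ℝ) ^ (p - 1) := by
      rw [← EEV_sub]
      refine (EEV_le hq0 hk (hdiff k) (hdiff (k + 1)) (hdiff (k - 1))).trans ?_
      calc 4 * LLV w γ α K * (1 / (j : ℝ)) * (CA * (j : ℝ) ^ (p - 1))
          ≤ 4 * LLV w γ α K * 1 * (CA * (j : ℝ) ^ (p - 1)) := by gcongr
        _ = _ := by ring
    have e3 : B j k - (-1) ^ k * (B (j + 1) k + EEV w γ α (1 / j) 1 (B (j + 1)) k) =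
        (tr K (b j) k - (-1) ^ k * (a0 k + EEV w γ α (1 / j) 1 a0 k)) -
          (-1) ^ k * ((B (j + 1) k - a0 k) +
            (EEV w γ α (1 / j) 1 (B (j + 1)) k - EEV w γ α (1 / j) 1 a0 k)) := by
      simp only [hB]
      ring
    rw [e3]
    refine (norm_sub_le _ _).trans ?_
    rw [norm_mul, norm_neg_one_zpow, one_mul]
    have e4 : (1 / (j : ℝ)) ^ 2 * (CA * (j : ℝ) ^ e0) ≤ CA * (j : ℝ) ^ (p - 1) := by
      have g1 : (1 / (j : ℝ)) ^ 2 * (CA * (j : ℝ) ^ e0) = CA * ((j : ℝ) ^ (-2 : ℝ) * (j : ℝ) ^ e0) := by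
        have : (j : ℝ) ^ (-2 : ℝ) = ((j : ℝ) ^ 2)⁻¹ := by
          rw [Real.rpow_neg hj0.le]
          norm_cast
        rw [this, div_pow]
        field_simp
      rw [g1, ← Real.rpow_add hj0]
      exact mul_le_mul_of_nonneg_left (Real.rpow_le_rpow_of_exponent_le hj1 (by linarith)) hCA0
    have e5 := norm_add_le (B (j + 1) k - a0 k)
      (EEV w γ α (1 / j) 1 (B (j + 1)) k - EEV w γ α (1 / j) 1 a0 k)
    have e6 := hdiff k
    have e7 : D1 * (Cp * (j : ℝ) ^ (p - 1) + Cp * (j : ℝ) ^ (p - 1) + (1 / (j : ℝ)) ^ 2 * (CA * (j : ℝ) ^ e0)) ≤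
        D1 * (2 * Cp + CA) * (j : ℝ) ^ (p - 1) := by
      rw [mul_assoc D1]
      refine mul_le_mul_of_nonneg_left ?_ hD10.le
      linarith
    have e8 := e1.trans e7
    rw [hC4]
    nlinarith
  -- two steps
  have htwo : ∀ᶠ j : ℕ in atTop, ∀ k ∈ Finset.Icc (-(K : ℤ)) K,
      ‖B j k - B (j + 2) k * (1 - 4 * lamV w γ α k / j)‖ ≤
      (2 * C4 + 4 * Λ * (C4 + 4 * Λ * (2 * 2 ^ e0 * CA)) + 4 * Λ * (2 * 2 ^ e0 * CA)) *
        (j : ℝ) ^ (p - 1) := by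
    filter_upwards [hall, (tendsto_add_atTop_nat 1).eventually hall, eventually_ge_atTop 1]
      with j hj hj1 hj3 k hk
    have hj1' : (1 : ℝ) ≤ (j : ℝ) := by exact_mod_cast hj3
    refine two_stepV hp hpe he hC40 (by positivity) K hj3 ?_ ?_ hk
    · intro i hi
      rcases hi with rfl | hi
      · exact hj.2
      · rw [Set.mem_singleton_iff] at hi
        subst hi
        exact hj1.2
    · intro m
      have e1 := hj1.1 m
      refine e1.trans ?_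
      have e2 : ((j + 1 : ℕ) : ℝ) ^ e0 ≤ 2 ^ e0 * (j : ℝ) ^ e0 := by
        calc ((j + 1 : ℕ) : ℝ) ^ e0 ≤ (2 * (j : ℝ)) ^ e0 := by
              refine Real.rpow_le_rpow (Nat.cast_nonneg _) ?_ he0
              push_cast
              linarith
          _ = 2 ^ e0 * (j : ℝ) ^ e0 := Real.mul_rpow (by norm_num) (by linarith)
      calc 2 * CA * ((j + 1 : ℕ) : ℝ) ^ e0 ≤ 2 * CA * (2 ^ e0 * (j : ℝ) ^ e0) := by gcongr
        _ = 2 * 2 ^ e0 * CA * (j : ℝ) ^ e0 := by ring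
  set C6 : ℝ := 2 * C4 + 4 * Λ * (C4 + 4 * Λ * (2 * 2 ^ e0 * CA)) + 4 * Λ * (2 * 2 ^ e0 * CA) with hC6
  -- the coefficients with k ≠ 0
  set θ : ℝ := 4 * ((α * w ^ 2 - γ) / w) with hθ
  have hθ0 : 0 < θ := by
    have : 0 < α * w ^ 2 - γ := by linarith
    positivity
  have hdec : ∀ k ∈ Finset.Icc (-(K : ℤ)) K, k ≠ 0 → ∃ D : ℝ, 0 ≤ D ∧
      ∀ᶠ j : ℕ in atTop, ‖B j k‖ ≤ D * (j : ℝ) ^ p := by
    intro k hk hk0
    refine seq_smallV (g := fun j => ‖B j k‖) (θ := θ) (C := C6) hp0 hθ0 ?_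
    filter_upwards [htwo, eventually_ge_atTop 1] with j hj hj1
    have hj0 : (0 : ℝ) < (j : ℝ) := by
      have : (1 : ℝ) ≤ (j : ℝ) := by exact_mod_cast hj1
      linarith
    have e1 := hj k hk
    have hk2 : (1 : ℝ) ≤ (k : ℝ) ^ 2 := by
      have : (1 : ℤ) ≤ k ^ 2 := by
        have := sq_nonneg k
        have h3 : k ^ 2 ≠ 0 := pow_ne_zero 2 hk0
        omega
      exact_mod_cast this
    have e2 : (1 : ℂ) - 4 * lamV w γ α k / j =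
        ((1 + 4 * ((α * w ^ 2 * (k : ℝ) ^ 2 - γ) / w) / j : ℝ) : ℂ) := by
      unfold lamV
      push_cast
      ring
    have hk3 : θ ≤ 4 * ((α * w ^ 2 * (k : ℝ) ^ 2 - γ) / w) := by
      rw [hθ]
      have h5 : α * w ^ 2 * 1 ≤ α * w ^ 2 * (k : ℝ) ^ 2 := by gcongr
      have h6 : (α * w ^ 2 - γ) / w ≤ (α * w ^ 2 * (k : ℝ) ^ 2 - γ) / w := by
        apply div_le_div_of_nonneg_right _ hw.le
        linarith
      linarith
    have e3 : ‖(1 : ℂ) - 4 * lamV w γ α k / j‖ = 1 + 4 * ((α * w ^ 2 * (k : ℝ) ^ 2 - γ) / w) / j := by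
      rw [e2, norm_real, Real.norm_eq_abs, abs_of_nonneg]
      have : 0 ≤ 4 * ((α * w ^ 2 * (k : ℝ) ^ 2 - γ) / w) / j := by
        apply div_nonneg _ hj0.le
        linarith
      linarith
    have e4 : 1 + θ / j ≤ 1 + 4 * ((α * w ^ 2 * (k : ℝ) ^ 2 - γ) / w) / j := by
      gcongr
    have e5 := norm_sub_le (B j k) (B j k - B (j + 2) k * (1 - 4 * lamV w γ α k / j))
    rw [sub_sub_cancel, norm_mul, e3] at e5
    have e6 : ‖B (j + 2) k‖ * (1 + θ / j) ≤ ‖B (j + 2) k‖ *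
        (1 + 4 * ((α * w ^ 2 * (k : ℝ) ^ 2 - γ) / w) / j) :=
      mul_le_mul_of_nonneg_left e4 (norm_nonneg _)
    linarith
  -- one constant for all k
  have hdecU : ∃ D : ℝ, 0 ≤ D ∧ ∀ᶠ j : ℕ in atTop, ∀ k, k ≠ 0 → ‖B j k‖ ≤ D * (j : ℝ) ^ p := by
    choose! D hD0 hD using hdec
    have hDn : ∀ k ∈ Finset.Icc (-(K : ℤ)) K, 0 ≤ |D k| := fun _ _ => abs_nonneg _
    refine ⟨∑ k ∈ Finset.Icc (-(K : ℤ)) K, |D k|, Finset.sum_nonneg hDn, ?_⟩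
    have h3 : ∀ᶠ j : ℕ in atTop, ∀ k ∈ Finset.Icc (-(K : ℤ)) K, k ≠ 0 → ‖B j k‖ ≤ D k * (j : ℝ) ^ p := by
      rw [Filter.eventually_all_finset]
      intro k hk
      by_cases hk0 : k = 0
      · exact Eventually.of_forall fun j h => absurd hk0 h
      · filter_upwards [hD k hk hk0] with j hj _
        exact hj
    filter_upwards [h3] with j hj k hk0
    have hpp : 0 ≤ (j : ℝ) ^ p := Real.rpow_nonneg (Nat.cast_nonneg _) _
    by_cases hk : k ∈ Finset.Icc (-(K : ℤ)) K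
    · refine (hj k hk hk0).trans (mul_le_mul_of_nonneg_right ?_ hpp)
      exact (le_abs_self _).trans (Finset.single_le_sum (f := fun k => |D k|) hDn hk)
    · have e1 : B j k = 0 := tr_not hk
      rw [e1, norm_zero]
      exact mul_nonneg (Finset.sum_nonneg hDn) hpp
  obtain ⟨D, hD0, hD⟩ := hdecU
  refine ⟨D + (C4 + 2 * Λ * (2 ^ p * D)) + 2 * CA, by positivity, ?_, ?_, ?_⟩
  · filter_upwards [hD] with j hj k hk hk0
    have e1 : B j k = b j k := tr_mem hk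
    have e2 := hj k hk0
    rw [e1] at e2
    have hpc0 : 0 ≤ (j : ℝ) ^ p := Real.rpow_nonneg (Nat.cast_nonneg _) _
    have : 0 ≤ (C4 + 2 * Λ * (2 ^ p * D) + 2 * CA) * (j : ℝ) ^ p := by positivity
    linarith
  · filter_upwards [hall, (tendsto_add_atTop_nat 1).eventually hD, eventually_ge_atTop 1] with j hj hDj hj1
    have hj1' : (1 : ℝ) ≤ (j : ℝ) := by exact_mod_cast hj1
    have hj0 : (0 : ℝ) < (j : ℝ) := by linarith
    have hpp : 0 ≤ (j : ℝ) ^ (p - 1) := Real.rpow_nonneg hj0.le _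
    have h0K : (0 : ℤ) ∈ Finset.Icc (-(K : ℤ)) K := by simp
    have e1 := hj.2 0 (by
      rw [Finset.mem_Icc]
      push_cast
      omega)
    have e2 : B j 0 = b j 0 := tr_mem h0K
    have e3 : B (j + 1) 0 = b (j + 1) 0 := tr_mem h0K
    have e4 : ((j + 1 : ℕ) : ℝ) ^ p ≤ 2 ^ p * (j : ℝ) ^ p := by
      calc ((j + 1 : ℕ) : ℝ) ^ p ≤ (2 * (j : ℝ)) ^ p := by
            refine Real.rpow_le_rpow (Nat.cast_nonneg _) ?_ hp0
            push_cast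
            linarith
        _ = 2 ^ p * (j : ℝ) ^ p := Real.mul_rpow (by norm_num) (by linarith)
    have e5 : ∀ m, m ≠ 0 → ‖B (j + 1) m‖ ≤ (2 ^ p * D) * (j : ℝ) ^ p := by
      intro m hm
      calc ‖B (j + 1) m‖ ≤ D * ((j + 1 : ℕ) : ℝ) ^ p := hDj m hm
        _ ≤ D * (2 ^ p * (j : ℝ) ^ p) := by gcongr
        _ = _ := by ring
    rw [zpow_zero, one_mul, e2, e3] at e1
    -- the cross terms
    have hc1 : |((1 : ℤ) : ℝ)| ≤ (K : ℝ) + 2 := by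
      push_cast
      rw [abs_one]
      have : (0 : ℝ) ≤ K := Nat.cast_nonneg _
      linarith
    have hc2 : |((-1 : ℤ) : ℝ)| ≤ (K : ℝ) + 2 := by
      push_cast
      rw [abs_neg, abs_one]
      have : (0 : ℝ) ≤ K := Nat.cast_nonneg _
      linarith
    have e6 : ‖((1 / j : ℝ) : ℂ) * (lamV w γ α 1 * B (j + 1) 1 + lamV w γ α (-1) * B (j + 1) (-1))‖ ≤
        2 * Λ * (2 ^ p * D) * (j : ℝ) ^ (p - 1) := by
      rw [norm_mul, norm_real, Real.norm_of_nonneg (by positivity)]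
      have g1 : ‖lamV w γ α 1 * B (j + 1) 1‖ ≤ Λ * ((2 ^ p * D) * (j : ℝ) ^ p) := by
        rw [norm_mul]
        exact mul_le_mul (lamV_le hc1) (e5 1 (by norm_num)) (norm_nonneg _) hLL
      have g2 : ‖lamV w γ α (-1) * B (j + 1) (-1)‖ ≤ Λ * ((2 ^ p * D) * (j : ℝ) ^ p) := by
        rw [norm_mul]
        exact mul_le_mul (lamV_le hc2) (e5 (-1) (by norm_num)) (norm_nonneg _) hLL
      have g3 : (1 / (j : ℝ)) * (j : ℝ) ^ p = (j : ℝ) ^ (p - 1) := by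
        rw [Real.rpow_sub hj0, Real.rpow_one]
        ring
      calc 1 / (j : ℝ) * ‖lamV w γ α 1 * B (j + 1) 1 + lamV w γ α (-1) * B (j + 1) (-1)‖
          ≤ 1 / (j : ℝ) * (Λ * ((2 ^ p * D) * (j : ℝ) ^ p) + Λ * ((2 ^ p * D) * (j : ℝ) ^ p)) := by
            refine mul_le_mul_of_nonneg_left ((norm_add_le _ _).trans (add_le_add g1 g2)) (by positivity)
        _ = 2 * Λ * (2 ^ p * D) * (1 / (j : ℝ) * (j : ℝ) ^ p) := by ring
        _ = _ := by rw [g3]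
    have e7 : b (j + 1) 0 * (1 - 2 * lamV w γ α 0 / j) - b j 0 =
        -(b j 0 - (b (j + 1) 0 + EEV w γ α (1 / j) 1 (B (j + 1)) 0)) +
          ((1 / j : ℝ) : ℂ) * (lamV w γ α 1 * B (j + 1) 1 + lamV w γ α (-1) * B (j + 1) (-1)) := by
      unfold EEV
      rw [e3, zero_add, zero_sub]
      push_cast
      rw [inv_one]
      ring
    rw [e7]
    refine (norm_add_le _ _).trans ?_
    rw [norm_neg]
    have : 0 ≤ (D + 2 * CA) * (j : ℝ) ^ (p - 1) := by positivity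
    linarith
  · filter_upwards [hall, eventually_ge_atTop 1] with j hj hj1
    have h0K : (0 : ℤ) ∈ Finset.Icc (-(K : ℤ)) K := by simp
    have e3 : B (j + 1) 0 = b (j + 1) 0 := tr_mem h0K
    have e4 := hj.1 0
    rw [e3] at e4
    have hpp : 0 ≤ (j : ℝ) ^ e0 := Real.rpow_nonneg (Nat.cast_nonneg _) _
    have : 0 ≤ (D + (C4 + 2 * Λ * (2 ^ p * D))) * (j : ℝ) ^ e0 := by positivity
    linarith

end PVF
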