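import Pool.Agent.PB.RepI
import Pool.Agent.PB.RepL
import Pool.Agent.PB.LamDec

/-!
# Plan V: the total insertion of the first Ward identity, general statistics (helper1)

Copy of helper91's `PB/RepL` for legs at `i t` and anti-legs at `0`.

* `repI_q`: helper15's `repI` for any test function `qf`;
* `glV x i0 p p'`: field times (force of the legs at `p` minus force of the legs at `p'`);
  `adS_glV`, `mnI_glV`, `VC_glV`, `Vp_gHV`, `obs_glV`, `exists_glV_dec`;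
* `qV x i0 τ τ'`: the test function of the linear part.
-/

set_option autoImplicit false
set_option linter.unusedSectionVars false
set_option linter.unusedVariables false
set_option maxHeartbeats 1000000

noncomputable section

open Complex MeasureTheory Finset Filter
open scoped ENNReal Classical

/-! ### `repI`, any test function of the linear part -/

namespace PVR

open NUP1 hiding Kd
open NUO NUP1S NUP1S.Ab NUP1S.AbC PBF PBFunc PB PBRep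
open PBI (Stt Kd F0 F0Ok fl nuI nuQI mnI InD PAll)
open PBForce (xiR rhoR Rws0 kO)
open PBV (wm)
open PBEI (Apl Ami Bch rP rM rF uF qF)
open PBQ1 (xiK lamK lamL rhK fp hr fSd)

/-- **The quadratic part of the first Ward identity**, any linear part. -/
theorem repI_q {a' : ℝ} (ha0 : 0 ≤ a') (ha : a' < 2) : ∃ K : ℝ, 0 < K ∧
    ∀ (m : ℕ) (x : Fin m → ℂ) (i0 : Fin m), Rws0 x → ∀ (Z : Stt) (P : NUO.Par)
      (x0 κ κ' δ : ℝ) (N : ℕ) (η η' : ℕ → Crs) (c : ℕ → ℂ) (D : Kd → Set ℂ) (ρ : Kd → ℝ → ℂ)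
      (ρ0 : ℝ → ℂ) (gl : Kd → ℂ → ℂ) (qf : ℂ → ℂ) (Mq K2 dp : ℝ),
      TrN Z P x0 κ κ' δ N η η' → Ln P x0 N D ρ ρ0 →
      Mo a' (wT Z P N η η' c) ρ0 P η K2 dp →
      AdS P x0 δ (sK fun b z => m * gl b z) →
      Obs (-(l / 10)) (9 / 20 * l) a' (mN N) (Vp ρ0 η) (pinN a') 40
        (VC ρ P η fun b z => m * gl b z) qf Mq →
      Integrable (fun q => F (mN N) (wT Z P N η η' c) fun ω =>
        Vp ρ0 η (Apl x i0 q) ω * Vp ρ0 η (Bch q) ω) wm →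
      Integrable (fun q => F (mN N) (wT Z P N η η' c) fun ω =>
        Vm η (Ami x i0 q) ω * Vm η (Bch q) ω) wm →
      ‖(m : ℂ) * F0N Z P x0 N c (fun ι _ s z =>
          nuQI ρ (PBOb.aK (xiR x i0)) ι s z + nuI ρ gl ι s z) -
        ((∫ q, (F (mN N) (wT Z P N η η' c) fun ω =>
            Vp ρ0 η (Apl x i0 q) ω * Vp ρ0 η (Bch q) ω) ∂wm) +
          ((∫ q, (F (mN N) (wT Z P N η η' c) fun ω =>
              Vm η (Ami x i0 q) ω * Vm η (Bch q) ω) ∂wm) +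
            2 * (F (mN N) (wT Z P N η η' c) fun ω => Vm η (uF x i0) ω * SN P η ω) -
            (rP x i0 - rM x i0) / 2 *
              (F (mN N) (wT Z P N η η' c) fun ω => SN P η ω * SN P η ω)) +
          F (mN N) (wT Z P N η η' c) (Vp ρ0 η qf))‖ ≤ K * (1 + Mq) * dp := by
  have hl := Bd.l_pos
  have y1 : -(l / 10) < 0 := by linarith
  have y2 : 0 < 9 / 20 * l := by linarith
  obtain ⟨C, hC, h⟩ := rp_row ha0 ha
  have hcO := cO_nonneg a'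
  refine ⟨(2 * 40 + 40 ^ 2) * (C + C) + 40 * (1 + 40) * ((C + C) * cO a') + 2 * (40 * (6 * C)) + 40,
    by positivity, fun m x i0 hx Z P x0 κ κ' δ N η η' c D ρ ρ0 gl qf Mq K2 dp hT hL hm hgl hq i1 i2 => ?_⟩
  obtain ⟨⟨al, be, hR, hab⟩, hJ, hu⟩ := h m x i0 hx
  have hMq : 0 ≤ Mq := hq.tc.nonneg y1 y2
  have hu' := obs_u (η := η) hT hL.hP (by linarith [hL.hx]) hL.hρ hR.mX hR.fx ha0 ha.le (Mu := 6 * C)
    (hu.mono (by linarith)) (by linarith)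
  have key := rp_bd (c := c) hT hR hL ha0 ha hgl hm i1 i2 hu' hq
  rw [F0N_scale]
  refine key.trans (mul_le_mul_of_nonneg_right ?_ hm.pin.δ0)
  have h1 : (‖rP x i0 - rM x i0‖ + C) * cO a' ≤ (C + C) * cO a' :=
    mul_le_mul_of_nonneg_right (by linarith) hcO
  have h2 : 0 ≤ ((2 * 40 + 40 ^ 2) * (C + C) + 40 * (1 + 40) * ((C + C) * cO a') +
      2 * (40 * (6 * C))) * Mq := by positivity
  nlinarith

/-! ### the linear insertion -/

variable {m : ℕ}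

/-- the linear insertion, legs at `p`, anti-legs at `p'` -/
def glV (x : Fin m → ℂ) (i0 : Fin m) (p p' : ℂ) : Kd → ℂ → ℂ := fun b z =>
  xiK x i0 b z * (lamK p b z - lamK p' b z)

/-- the linear insertion on a quantum, as a function of the height -/
def gHV (x : Fin m → ℂ) (i0 : Fin m) (p p' h : ℂ) : ℂ :=
  xiR x i0 (NUP1.l + I * h) * (lamL p (NUP1.l + I * h) - lamL p' (NUP1.l + I * h))

/-- the test function of the linear part -/
def qV (x : Fin m → ℂ) (i0 : Fin m) (τ τ' : ℝ) (z : ℂ) : ℂ := qF x i0 τ z - qF x i0 τ' z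

theorem gHV_sub (x : Fin m → ℂ) (i0 : Fin m) (p p' h : ℂ) :
    gHV x i0 p p' h = gH x i0 p h - gH x i0 p' h := by
  unfold gHV gH
  ring

theorem glV_sub (x : Fin m → ℂ) (i0 : Fin m) (p p' : ℂ) :
    glV x i0 p p' = fun b z => gl x i0 p b z + (-1) * gl x i0 p' b z := by
  funext b z
  unfold glV gl
  ring

theorem glV_none (x : Fin m → ℂ) (i0 : Fin m) (p p' : ℂ) (s : Bool) (u : ℂ) :
    glV x i0 p p' (s, none) u = gHV x i0 p p' (hgt u) := by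
  rw [glV_sub, gHV_sub]
  simp only [gl_none]
  ring

theorem glV_meas (x : Fin m → ℂ) (i0 : Fin m) (p p' : ℂ) (b : Kd) :
    Measurable (glV x i0 p p' b) := by
  rw [glV_sub]
  exact (gl_meas x i0 p b).add ((gl_meas x i0 p' b).const_mul _)

/-- **the linear insertion is an admissible statistic** -/
theorem adS_glV {P : NUO.Par} (hP : PBOb.ParO P) {x0 δ : ℝ} (hx0 : 3 / 10 * NUP1.l ≤ x0)
    (hδ : δ ≤ 1 / 20) {x : Fin m → ℂ} (hx : Rws0 x) (i0 : Fin m) {p p' : ℂ}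
    (hp : |p.re| ≤ NUP1.l / 2) (hp' : |p'.re| ≤ NUP1.l / 2) :
    AdS P x0 δ (sK (glV x i0 p p')) := by
  rw [glV_sub]
  exact (adS_gl hP hx0 hδ hx i0 hp).add ((adS_gl hP hx0 hδ hx i0 hp').cmul (-1))

/-- the mean of the linear insertion -/
theorem mnI_glV {ρ : Kd → ℝ → ℂ} {ρ0 : ℝ → ℂ} (h : RhoK ρ ρ0) (x : Fin m → ℂ) (i0 : Fin m)
    (p p' : ℂ) : mnI ρ (glV x i0 p p') = 2 * ∫ u : ℝ, ρ0 u * gHV x i0 p p' u := by
  unfold PBI.mnI PB.NX.mn
  rw [sum_Kd (f := fun b => ∫ u, ρ b u * glV x i0 p p' b (vl NUP1.l u)) fun s k => by simp [h.o]]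
  have e : ∀ s, ∫ u, ρ (s, none) u * glV x i0 p p' (s, none) (vl NUP1.l u) =
      ∫ u : ℝ, ρ0 u * gHV x i0 p p' u := by
    intro s
    refine integral_congr_ae (Filter.Eventually.of_forall fun u => ?_)
    simp only []
    rw [h.q, glV_none, hgt_line]
  rw [e, e]
  ring

/-- **the split of the linear insertion** -/
theorem VC_glV {N : ℕ} {ρ : Kd → ℝ → ℂ} {ρ0 : ℝ → ℂ} (h : RhoK ρ ρ0) (P : NUO.Par) (η : ℕ → Crs)
    (x : Fin m → ℂ) (i0 : Fin m) (p p' : ℂ) (ω : CfN N) : VC ρ P η (glV x i0 p p') ω =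
      Vp ρ0 η (gHV x i0 p p') ω + VO (sK (glV x i0 p p')) P ω := by
  unfold VC
  rw [VA_eq, mnI_glV h]
  have e1 : VQ (sK (glV x i0 p p')) η ω = VQ (qD eP (gHV x i0 p p')) η ω := by
    rw [VQ_eq, VQ_eq]
    simp only [sK, glV_none, qD, eP, one_mul]
  rw [e1]
  unfold Vp
  ring

/-- the statistic of the quanta, legs at `i τ`, anti-legs at `i τ'` -/
theorem Vp_gHV {N : ℕ} {ρ0 : ℝ → ℂ} {δ : ℝ} (hδ : δ ≤ 1 / 20) {η η' : ℕ → Crs}
    (hη : ∀ n ≤ N, ∀ r ≤ n + n, ∀ O, CrvR δ (η n r O) (η' n r O)) (x : Fin m → ℂ) (i0 : Fin m)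
    (τ τ' : ℝ) (ω : CfN N) :
    (m : ℂ) * Vp ρ0 η (gHV x i0 (I * τ) (I * τ')) ω = Vp ρ0 η (qV x i0 τ τ') ω := by
  have hl := Bd.l_pos
  have hm : (m : ℂ) ≠ 0 := by exact_mod_cast i0.pos.ne'
  have e0 : ∀ h : ℂ, |h.im| < NUP1.l → (m : ℂ) * gHV x i0 (I * τ) (I * τ') h = qV x i0 τ τ' h := by
    intro h hh
    rw [gHV_sub, gH_eq x i0 τ hh, gH_eq x i0 τ' hh]
    unfold qV PBEI.qF
    field_simp
  have hr : (ω.2.1.1 : ℕ) ≤ (ω.1 : ℕ) + (ω.1 : ℕ) := Nat.lt_succ_iff.1 ω.2.1.1.2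
  have hc := hη ω.1 (Nat.lt_succ_iff.1 ω.1.2) ω.2.1.1 hr ω.2.2.1
  rw [Vp_eq, Vp_eq, mul_sub, mul_add, Finset.mul_sum, Finset.mul_sum]
  have e1 : (m : ℂ) * (2 * ∫ u : ℝ, ρ0 u * gHV x i0 (I * τ) (I * τ') u) =
      2 * ∫ u : ℝ, ρ0 u * qV x i0 τ τ' u := by
    rw [mul_left_comm, ← integral_const_mul]
    congr 1
    refine integral_congr_ae (Filter.Eventually.of_forall fun u => ?_)
    simp only []
    rw [← e0 u (by rw [ofReal_im, abs_zero]; exact hl)]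
    ring
  rw [e1]
  congr 2
  · exact Finset.sum_congr rfl fun i _ => e0 _ (hgt_pA hδ hc _)
  · exact Finset.sum_congr rfl fun i _ => e0 _ (hgt_pA hδ hc _)

theorem qV_meas (x : Fin m → ℂ) (i0 : Fin m) (τ τ' : ℝ) : Measurable (qV x i0 τ τ') :=
  (qF_meas x i0 τ).sub (qF_meas x i0 τ')

/-- **the linear insertion is the statistic of `qV` plus a pinned observable** -/
theorem obs_glV {N : ℕ} {P : NUO.Par} {x0 δ a Mq : ℝ} {η η' : ℕ → Crs} {ρ : Kd → ℝ → ℂ}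
    {ρ0 : ℝ → ℂ} (hG : GoodQ P x0) (hP : PBOb.ParO P) (hx0 : 13 / 25 * NUP1.l ≤ x0)
    (hm : ∀ r, Measurable (P.rad r)) (hc : ∀ n ≤ N, MCr (η n) (η' n)) (hδ : δ ≤ 1 / 20)
    (hη : ∀ n ≤ N, ∀ r ≤ n + n, ∀ O, CrvR δ (η n r O) (η' n r O)) (hρ : RhoK ρ ρ0)
    (x : Fin m → ℂ) (i0 : Fin m) (τ τ' : ℝ) (ha0 : 0 ≤ a) (ha : a ≤ 2) (hM : 0 ≤ Mq)
    (tc : PBE.TC (-(NUP1.l / 10)) (9 / 20 * NUP1.l) a Mq (qV x i0 τ τ'))
    (hb : ∀ b, ∀ z ∈ PBOb.DQ b, ‖(m : ℂ) * glV x i0 (I * τ) (I * τ') b z‖ ≤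
      Mq * Real.exp (-a * |z.im|)) :
    Obs (-(NUP1.l / 10)) (9 / 20 * NUP1.l) a (mN N) (Vp ρ0 η) (pinN a) 40
      (fun ω => (m : ℂ) * VC ρ P η (glV x i0 (I * τ) (I * τ')) ω) (qV x i0 τ τ') Mq where
  tc := tc
  m := (PBOb.meas_Vp hc (qV_meas x i0 τ τ')).aestronglyMeasurable
  O := by
    have key := PBOb.pinO_VO (N := N) hG hP hx0 hm
      (g := fun b z => (m : ℂ) * glV x i0 (I * τ) (I * τ') b z)
      (fun b => (glV_meas x i0 (I * τ) (I * τ') b).const_mul _) hM ha0 ha hb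
    have e : (fun ω : CfN N => (m : ℂ) * VC ρ P η (glV x i0 (I * τ) (I * τ')) ω -
        Vp ρ0 η (qV x i0 τ τ') ω) =
        VO (sK fun b z => (m : ℂ) * glV x i0 (I * τ) (I * τ') b z) P := by
      funext ω
      rw [VC_glV hρ, mul_add, Vp_gHV hδ hη]
      have e2 : (VO (sK fun b z => (m : ℂ) * glV x i0 (I * τ) (I * τ') b z) P ω : ℂ) =
          (m : ℂ) * VO (sK (glV x i0 (I * τ) (I * τ'))) P ω := by
        exact stO_smul _ (sK (glV x i0 (I * τ) (I * τ'))) P ω.2.2.1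
      rw [e2]
      ring
    rw [e]
    exact key

/-- **the constants** -/
theorem exists_glV_dec : ∃ C : ℝ, 0 < C ∧ ∀ (m : ℕ) (x : Fin m → ℂ) (i0 : Fin m), Rws0 x →
    ∀ τ τ' : ℝ, |τ| ≤ 1 → |τ'| ≤ 1 → ∀ a : ℝ, 0 ≤ a → a ≤ 2 →
      PBE.TC (-(NUP1.l / 10)) (9 / 20 * NUP1.l) a C (qV x i0 τ τ') ∧
      ∀ b, ∀ z ∈ PBOb.DQ b, ‖(m : ℂ) * glV x i0 (I * τ) (I * τ') b z‖ ≤
        C * Real.exp (-a * |z.im|) := by
  obtain ⟨C2, hC2, HL⟩ := PBQ1.lamK_DQ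
  obtain ⟨C, hC, H⟩ := exists_gl_dec hC2.le (fun z h1 h2 b u hu =>
    HL z (by rw [h1, abs_zero]; exact (half_pos NUMF.l_pos).le) h2 2 le_rfl b u hu)
  refine ⟨C + C, by linarith, fun m x i0 hx τ τ' hτ hτ' a ha0 ha => ?_⟩
  obtain ⟨t1, b1⟩ := H m x i0 hx τ hτ a ha0 ha
  obtain ⟨t2, b2⟩ := H m x i0 hx τ' hτ' a ha0 ha
  refine ⟨?_, fun b z hz => ?_⟩
  · have h := t2.comb t1 (-1)
    have e : (fun z => (-1 : ℂ) * qF x i0 τ' z + qF x i0 τ z) = qV x i0 τ τ' := by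
      funext z
      unfold qV
      ring
    rw [e] at h
    refine h.mono ?_
    rw [norm_neg, norm_one, one_mul]
  · have e : (m : ℂ) * glV x i0 (I * τ) (I * τ') b z =
        (m : ℂ) * gl x i0 (I * τ) b z - (m : ℂ) * gl x i0 (I * τ') b z := by
      rw [glV_sub]
      ring
    rw [e, add_mul]
    exact (norm_sub_le _ _).trans (add_le_add (b1 b z hz) (b2 b z hz))

end PVR

end
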