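import Pool.Agent.PV.Xv
import Pool.Agent.PV.SpV

/-!
# Plan V: the function is the functional of its class (helper29)

* `LV_LgV`, `ZV_PVS`: the words of `PV.Defs` and of `PV.SpV` (= 79's `LV_eq`, `ZV_eq` of `PV.UXV`, without
  its imports);
* `DZ_V`: state sum with `n` quanta = functional; `oneC_V`, `decZ_V`, `meas_V`;
* **`nv_FF`** : `nv z z' x x = PfV z z' x x * ∑ n ≤ 2 m, FF (ZV ..) P n n η η' 1`,
  `-9/10 l ≤ Re z < 37/10 l`, `|Re z'| < 7/10 l`; `nv_le`: the bound by the functional with moduli;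
* **`xN_FF_nn`** (`0 ≤ Re z`), `xN_FF_neg` (`Re z < 0`, the mirror rows), `xN_le_nn`, `xN_le_neg`;
  `xN_FF_of`: all `-9/10 l ≤ Re z` from the symmetry of `nv`.
-/

set_option autoImplicit false
set_option linter.unusedSectionVars false
set_option linter.unusedVariables false

noncomputable section

open Complex MeasureTheory Finset
open scoped ENNReal

namespace PV

open NUO NUP1 NUCR NUP1S NUP1S.Ab NUP1S.AbC NURow NUGC PBF PBX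
open NUP1.Bd (Ob)
open PBC (DecZ)

variable {m : ℕ} {P : NUO.Par}

/-! ## dictionary -/

theorem LV_LgV (z z' : ℂ) : LV z z' = PVS.LgV z z' := funext fun u => (PVS.LgV_eq z z' u).symm

theorem ZV_PVS (β : ℝ) (x : Fin m → ℂ) (ex ex0 : List ℂ) (z z' : ℂ) :
    ZV β x ex ex0 z z' = PVS.ZV β x ex ex0 z z' := by
  unfold ZV PVS.ZV
  rw [LV_LgV]

theorem meas_V (β : ℝ) (x : Fin m → ℂ) (ex ex0 : List ℂ) (z z' : ℂ) (a : Bool) (k : Option O3) :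
    Measurable (ZV β x ex ex0 z z' a k) := by
  rw [ZV_PVS]
  exact PVS.measurable_ZV _ _ _ _ _ _ a k

/-- **the class functions are bounded by their one body data** -/
theorem oneC_V {ep β x0 : ℝ} (hx0 : 3 / 5 * l ≤ x0) (hx0' : x0 ≤ 19 / 20 * l)
    (hP : ParC P) (hep0 : 0 < ep) (hep : ep ≤ 1 / 100) (hβ : 0 < β) (hβ' : β ≤ 4 / 3)
    {x : Fin m → ℂ} (hx : Rws x) {ex : List ℂ} (hex : ∀ w ∈ ex, |w.re| ≤ l / 2) (ex0 : List ℂ)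
    {z z' : ℂ} (h1 : -(9 / 10 * l) ≤ z.re) (h2 : z.re < 37 / 10 * l) (h3 : |z'.re| < 7 / 10 * l) :
    OneC (ZV β x ex ex0 z z') (obX ‖Leg.cc m‖ β x ex ex0 fun _ u => thV z z' u) P ep (2 * β) x0 0
      (Set.range fun i => (x i).im) := by
  have e : (fun (_ : Bool) (u : ℂ) => thV z z' u) = fun _ u => PVS.thV z z' u := by
    funext _ u
    rw [← PVS.norm_LgV, ← LV_LgV]
    unfold LV thV
    rw [norm_mul, PBX.norm_Lg]
    rfl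
  rw [ZV_PVS, e]
  exact PVS.oneC_ZV hx0 hx0' hP hep0 hep hβ hβ' hx hex ex0 h1 h2 h3

theorem decZ_V {β : ℝ} (hP : ParC P) (hβ : 0 < β) (hβ' : β ≤ 4 / 3) {x : Fin m → ℂ} (hx : Rws x)
    {ex ex0 : List ℂ} (hex : ∀ w ∈ ex, |w.re| ≤ l / 2) (hex0 : ∀ w ∈ ex0, |w.re| ≤ l / 2) {z z' : ℂ}
    (h1 : -l < z.re) (h2 : z.re < 37 / 10 * l) (h3 : |z'.re| < 7 / 10 * l) :
    DecZ (ZV β x ex ex0 z z') P (3 / 5 * l) (2 * β) 0 := by
  rw [ZV_PVS]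
  exact PVS.decZ_ZV hP hβ hβ' hx hex hex0 h1 h2 h3

/-- **the state sum with `n` quanta is the functional** -/
theorem DZ_V {ep β : ℝ} (hP : ParC P) (hρ : ∀ r, ∃ ρ0, 0 < ρ0 ∧ ∀ t, ρ0 ≤ P.rad r t)
    (hep0 : 0 < ep) (hep : ep ≤ 1 / 100) (hβ : 0 < β) (hβ' : β ≤ 4 / 3)
    {x : Fin m → ℂ} (hx : Rws x) {ex ex0 : List ℂ} (hex : ∀ w ∈ ex, |w.re| ≤ l / 2)
    (hex0 : ∀ w ∈ ex0, |w.re| ≤ l / 2) {z z' : ℂ} (h1 : -(9 / 10 * l) ≤ z.re)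
    (h2 : z.re < 37 / 10 * l) (h3 : |z'.re| < 7 / 10 * l) {n : ℕ} {η η' : Crs}
    (hη : ∀ r ≤ n + n, ∀ᵐ O ∂(Measure.pi fun _ : Fin r => nu), CurB ep (η r O) (η' r O)) :
    DZ (Leg.cc m) (Leg.cc m) (LV z z') (LV z z') x x n =
      FF (ZV β x ex ex0 z z') P n n η η' (fun _ _ _ _ _ => 1) := by
  rw [ZV_PVS, LV_LgV]
  exact PVS.DZ_ZV hP hρ hep0 hep hβ hβ' hx hex hex0 h1 h2 h3 hη

/-! ## the function -/

/-- **the function at all rows is the functional** -/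
theorem nv_FF {ep β : ℝ} (hP : ParC P) (hρ : ∀ r, ∃ ρ0, 0 < ρ0 ∧ ∀ t, ρ0 ≤ P.rad r t)
    (hep0 : 0 < ep) (hep : ep ≤ 1 / 100) (hβ : 0 < β) (hβ' : β ≤ 4 / 3)
    {x : Fin m → ℂ} (hx : Rws x) {ex ex0 : List ℂ} (hex : ∀ w ∈ ex, |w.re| ≤ l / 2)
    (hex0 : ∀ w ∈ ex0, |w.re| ≤ l / 2) {z z' : ℂ} (h1 : -(9 / 10 * l) ≤ z.re)
    (h2 : z.re < 37 / 10 * l) (h3 : |z'.re| < 7 / 10 * l) {η η' : ℕ → Crs}
    (hη : ∀ n ∈ range (2 * m + 1), ∀ r ≤ n + n, ∀ᵐ O ∂(Measure.pi fun _ : Fin r => nu),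
      CurB ep (η n r O) (η' n r O)) :
    nv z z' x x = PfV z z' x x * ∑ n ∈ range (2 * m + 1),
      FF (ZV β x ex ex0 z z') P n n (η n) (η' n) (fun _ _ _ _ _ => 1) := by
  unfold nv
  congr 1
  refine Finset.sum_congr rfl fun n hn => ?_
  rw [← DZ_V hP hρ hep0 hep hβ hβ' hx hex hex0 h1 h2 h3 (hη n hn)]
  rfl

/-- **the bound by the functional with moduli** -/
theorem nv_le {ep β : ℝ} (hP : ParC P) (hρ : ∀ r, ∃ ρ0, 0 < ρ0 ∧ ∀ t, ρ0 ≤ P.rad r t)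
    (hep0 : 0 < ep) (hep : ep ≤ 1 / 100) (hβ : 0 < β) (hβ' : β ≤ 4 / 3)
    {x : Fin m → ℂ} (hx : Rws x) {ex ex0 : List ℂ} (hex : ∀ w ∈ ex, |w.re| ≤ l / 2)
    (hex0 : ∀ w ∈ ex0, |w.re| ≤ l / 2) {z z' : ℂ} (h1 : -(9 / 10 * l) ≤ z.re)
    (h2 : z.re < 37 / 10 * l) (h3 : |z'.re| < 7 / 10 * l) {η η' : ℕ → Crs}
    (hη : ∀ n ∈ range (2 * m + 1), ∀ r ≤ n + n, ∀ᵐ O ∂(Measure.pi fun _ : Fin r => nu),
      CurB ep (η n r O) (η' n r O)) :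
    ‖nv z z' x x‖ₑ ≤ ‖PfV z z' x x‖ₑ * ∑ n ∈ range (2 * m + 1),
      FA (ZV β x ex ex0 z z') P n n (η n) (η' n) (fun _ _ _ _ _ => 1) := by
  rw [nv_FF hP hρ hep0 hep hβ hβ' hx hex hex0 h1 h2 h3 hη, enorm_mul]
  refine mul_le_mul_right ((enorm_sum_le _ _).trans (Finset.sum_le_sum fun n _ => ?_)) _
  exact FF_le _

theorem zero_re' : |(0 : ℂ).re| < 7 / 10 * l := by
  have hl := Bd.l_pos
  rw [Complex.zero_re, abs_zero]
  positivity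

theorem Rws_neg {x : Fin m → ℂ} (hx : Rws x) : Rws (-x) := fun i => by
  have := hx i
  simpa using this

theorem xN_nn {x : Fin m → ℂ} {z : ℂ} (h : 0 ≤ z.re) : xN x z = nv z 0 x x := by
  unfold xN
  rw [if_pos h]

theorem xN_lt {x : Fin m → ℂ} {z : ℂ} (h : z.re < 0) : xN x z = nv (-z) 0 (-x) (-x) := by
  unfold xN
  rw [if_neg (not_le.2 h)]

section

variable {ep β : ℝ} (hP : ParC P) (hρ : ∀ r, ∃ ρ0, 0 < ρ0 ∧ ∀ t, ρ0 ≤ P.rad r t)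
    (hep0 : 0 < ep) (hep : ep ≤ 1 / 100) (hβ : 0 < β) (hβ' : β ≤ 4 / 3)
    {x : Fin m → ℂ} (hx : Rws x) {ex ex0 : List ℂ} (hex : ∀ w ∈ ex, |w.re| ≤ l / 2)
    (hex0 : ∀ w ∈ ex0, |w.re| ≤ l / 2) {z : ℂ} {η η' : ℕ → Crs}
    (hη : ∀ n ∈ range (2 * m + 1), ∀ r ≤ n + n, ∀ᵐ O ∂(Measure.pi fun _ : Fin r => nu),
      CurB ep (η n r O) (η' n r O))

include hP hρ hep0 hep hβ hβ' hx hex hex0 hη

/-- **the literal function is the functional**, `0 ≤ Re z` -/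
theorem xN_FF_nn (h1 : 0 ≤ z.re) (h2 : z.re < 37 / 10 * l) :
    xN x z = PfV z 0 x x * ∑ n ∈ range (2 * m + 1),
      FF (ZV β x ex ex0 z 0) P n n (η n) (η' n) (fun _ _ _ _ _ => 1) := by
  have hl := Bd.l_pos
  rw [xN_nn h1]
  exact nv_FF hP hρ hep0 hep hβ hβ' hx hex hex0 (by linarith) h2 zero_re' hη

/-- `Re z < 0`: the mirror rows -/
theorem xN_FF_neg (h1 : z.re < 0) (h2 : -(37 / 10 * l) < z.re) :
    xN x z = PfV (-z) 0 (-x) (-x) * ∑ n ∈ range (2 * m + 1),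
      FF (ZV β (-x) ex ex0 (-z) 0) P n n (η n) (η' n) (fun _ _ _ _ _ => 1) := by
  have hl := Bd.l_pos
  rw [xN_lt h1]
  exact nv_FF hP hρ hep0 hep hβ hβ' (Rws_neg hx) hex hex0 (by rw [Complex.neg_re]; linarith)
    (by rw [Complex.neg_re]; linarith) zero_re' hη

theorem xN_le_nn (h1 : 0 ≤ z.re) (h2 : z.re < 37 / 10 * l) :
    ‖xN x z‖ₑ ≤ ‖PfV z 0 x x‖ₑ * ∑ n ∈ range (2 * m + 1),
      FA (ZV β x ex ex0 z 0) P n n (η n) (η' n) (fun _ _ _ _ _ => 1) := by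
  have hl := Bd.l_pos
  rw [xN_nn h1]
  exact nv_le hP hρ hep0 hep hβ hβ' hx hex hex0 (by linarith) h2 zero_re' hη

theorem xN_le_neg (h1 : z.re < 0) (h2 : -(37 / 10 * l) < z.re) :
    ‖xN x z‖ₑ ≤ ‖PfV (-z) 0 (-x) (-x)‖ₑ * ∑ n ∈ range (2 * m + 1),
      FA (ZV β (-x) ex ex0 (-z) 0) P n n (η n) (η' n) (fun _ _ _ _ _ => 1) := by
  have hl := Bd.l_pos
  rw [xN_lt h1]
  exact nv_le hP hρ hep0 hep hβ hβ' (Rws_neg hx) hex hex0 (by rw [Complex.neg_re]; linarith)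
    (by rw [Complex.neg_re]; linarith) zero_re' hη

/-- all `-9/10 l ≤ Re z < 37/10 l`, from the symmetry of `nv` -/
theorem xN_FF_of (hneg : z.re < 0 → nv (-z) (-0) (-x) (-x) = nv z 0 x x)
    (h1 : -(9 / 10 * l) ≤ z.re) (h2 : z.re < 37 / 10 * l) :
    xN x z = PfV z 0 x x * ∑ n ∈ range (2 * m + 1),
      FF (ZV β x ex ex0 z 0) P n n (η n) (η' n) (fun _ _ _ _ _ => 1) := by
  rw [← nv_FF hP hρ hep0 hep hβ hβ' hx hex hex0 h1 h2 zero_re' hη]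
  rcases le_or_gt 0 z.re with h | h
  · exact xN_nn h
  · rw [xN_lt h, ← hneg h, neg_zero]

end

end PV

end
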