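import Pool.Agent.PV.ObV
import Pool.Agent.PB.UXL

/-!
# Plan V: the functional with legs at `z`, anti-legs at `z'` from the bound of its gas

**`topZV`**: if the tilted gas of every configuration with the insertion `φ` is at most
`w Q exp (linV + ∑ oneEH + K r + enC + c1 win)` and `Nf exp linV ≤ CV exp (-(1 - e1) Tb + y)`, then
`Nf ∑ n ≤ 2 m, FE ZV (φ n) ≤ CV Bw Q m ^ (- 3/8 + δ) exp y (2 / (1 - exp (-d)))`;
every `|Re z'| ≤ l / 10`, any heights of `z`, `z'`.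
-/

set_option autoImplicit false
set_option linter.unusedSectionVars false

noncomputable section

open Complex MeasureTheory Finset
open scoped ENNReal

namespace PVT

open NUO NUP1 NUP1S NUP1S.Ab NUP1S.AbC NUGC PBF
open PBX (obX Lg)
open PBL (mu1)
open PBP (gT)
open PotH
open PBT
open PVS (thV ZV)

attribute [local instance] NUSea.seaP

/-- **the functional with legs and anti-legs from the bound of its gas** -/
theorem topZV (hS : NUStabP.StabProd) (K K2 : ℝ) : ∃ c1 : ℝ, 0 < c1 ∧ ∀ c' : ℝ, 0 ≤ c' →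
    ∀ δ : ℝ, 0 < δ → ∃ a0 : ℝ, 0 < a0 ∧ ∀ ep : ℝ, 0 < ep → ep ≤ 1 / 100 → ∀ e1 : ℝ, 0 < e1 →
    e1 ≤ 1 / 100 → ∀ J : ℝ, 0 ≤ J → Real.exp (-(2 * Real.pi * J)) + 3 * e1 + 3 * ep ≤ a0 →
    ∃ m0 : ℕ, ∀ k : ℕ, m0 ≤ k → ∀ x z z' : ℂ, |x.re| ≤ NUP1.l / 10 → |x.im| ≤ 2 →
      -(9 / 10 * NUP1.l) ≤ z.re → z.re < 37 / 10 * NUP1.l → |z'.re| ≤ NUP1.l / 10 →
      ∀ Nf y CV : ℝ, 0 ≤ Nf → 0 ≤ CV →
      Nf * Real.exp (linV e1 J (k + 1) x z z') ≤
        CV * Real.exp (-((1 - e1) * Tb (Real.log (k + 1 : ℕ))) + y) →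
      ∀ (φ : ℕ → InsE) (w : ℕ → (r : ℕ) → (Fin r → Xo) → ℝ) (Q Bw d : ℝ), 0 ≤ Q → 0 ≤ Bw →
      0 < d →
      (∀ n ≤ 2 * (k + 1), ∀ r ≤ 2 * n, ∀ O : Fin r → Xo, 0 ≤ w n r O ∧
        w n r O ≤ (if (r : ℝ) ≤ Real.log (k + 1 : ℕ) then Bw else
          Bw * Real.exp (c' * Real.log (k + 1 : ℕ))) * Real.exp (K2 * r) *
            Real.exp (∑ i, gT e1 (Real.log (k + 1 : ℕ)) (ht (O i)))) →
      (∀ b' : ℝ, |b'| = d → ∀ n ≤ 2 * (k + 1), ∀ r ≤ 2 * n, ∀ O : Fin r → Xo,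
        chgO O true ≤ n → chgO O false ≤ n →
        ENNReal.ofReal (Real.exp (b' * (((k + 1 : ℕ) : ℝ) - n))) *
          PotH.gasI (obV k (4 / 3 * (1 - ep)) x z z') (pL (k + 1)) (etL e1 J (k + 1))
            (etL' e1 J (k + 1)) O (n - chgO O true) (n - chgO O false)
            (φ n r O (n - chgO O true) (n - chgO O false)) ≤
        ENNReal.ofReal (w n r O * (Q * Real.exp (linV e1 J (k + 1) x z z' +
          (∑ i, oneEH (k + 1) (etL e1 J (k + 1)) (TW ep e1 (k + 1)) O i + K * r +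
            NUStabP.enC O + c1 * NUDispW.win univ fun i => ht (O i)))))) →
      ENNReal.ofReal Nf *
        ∑ n ∈ range (2 * (k + 1) + 1), FE (ZV (4 / 3 * (1 - ep)) (mu1 k x) [I, -I] [] z z')
          (pL (k + 1)) n n (crL e1 J (k + 1)) (crL' e1 J (k + 1)) (φ n) ≤
        ENNReal.ofReal (CV * Bw * Q * ((k + 1 : ℕ) : ℝ) ^ (-(3 / 8 : ℝ) + δ) *
          Real.exp y * (2 / (1 - Real.exp (-d)))) := by
  obtain ⟨K', c1, hc1, HT⟩ := topB hS K K2
  obtain ⟨C, c, hC, hc, HO⟩ := oneB_V K'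
  refine ⟨c1, hc1, fun c' hc' δ hδ => ?_⟩
  obtain ⟨a0, ha0, HT⟩ := HT C c c' hC hc hc' δ hδ
  refine ⟨a0, ha0, fun ep hep hep1 e1 he he1 J hJ hsm => ?_⟩
  obtain ⟨mT, HT⟩ := HT ep hep hep1 e1 he he1 J hJ hsm
  obtain ⟨mO, HO⟩ := HO e1 he he1 J hJ
  refine ⟨max mT mO, fun k hk x z z' hx hx' z1 z2 h Nf y CV hNf hCV hv φ w Q Bw d hQ hBw hd hw
    hgas => ?_⟩
  have k1 : mT ≤ k + 1 := ((le_max_left _ _).trans hk).trans (Nat.le_succ k)
  have k2 : mO ≤ k := (le_max_right _ _).trans hk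
  have hl := Bd.l_pos
  have hone : OneC (ZV (4 / 3 * (1 - ep)) (mu1 k x) [I, -I] [] z z')
      (obV k (4 / 3 * (1 - ep)) x z z') (pL (k + 1)) ep
      (2 * (4 / 3 * (1 - ep))) (3 / 5 * NUP1.l) 0 (Set.range fun i => (mu1 k x i).im) := by
    have key := PVS.oneC_ZV (x0 := 3 / 5 * NUP1.l) (P := pL (k + 1)) (ep := ep)
      (β := 4 / 3 * (1 - ep)) le_rfl (by linarith) (parZ_parC (k + 1)) hep hep1 (by linarith)
      (by linarith) (rws_mu1 k (x := x) (by linarith)) (ex := [I, -I]) (by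
        intro w hw
        rw [List.mem_cons, List.mem_singleton] at hw
        rcases hw with rfl | rfl
        · rw [Complex.I_re, abs_zero]; positivity
        · rw [Complex.neg_re, Complex.I_re, neg_zero, abs_zero]; positivity) [] z1 z2
      (z' := z') (by linarith)
    rw [PBU.norm_ccL] at key
    exact key
  exact HT (k + 1) k1 _ _ _ _ 0 _ hone (obV_nn _ _ _ _ _)
    (HO k k2 ep hep hep1 x z z' (by linarith) hx' z1 (by linarith) h) Nf _ y CV hNf hCV hv φ w Q Bw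
    d hQ hBw hd hw hgas

end PVT

end
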