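import Pool.Agent.PV.EAbsV

/-!
# Plan V: the values in the literal form of `PBE.E_primeV`

The mean functional of plan V is that of the DIFFERENCE of two mean densities (legs at height `τ` minus
legs at height `0`): both have the same limits, the difference has limits `0`.

* `Lim.sub`, `MeanDat.sub_lim`, `MeanDat.sub_eq'`;
* `MeanDat.sub_quad`, `MeanDat.sub_lin`: the quadratic and the linear values vanish;
* **`VDat.E_primeV`**: `p = -mV mf0 h0`, `p' = mV mf0 g2` =>
  `‖fη - (-((rp - rm)/8) fττ + (rp - rm)/2 f)‖ ≤ δ0 + K δ`.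
-/

set_option autoImplicit false

open MeasureTheory Set Filter Topology

namespace Pool.Agent.PB

open NUMF

noncomputable section

set_option linter.unusedSectionVars false

lemma Lim.sub {f f' g g' : ℝ → ℂ} {B B' : ℝ} {fp fm gp gm : ℂ} (h : Lim f f' B fp fm)
    (hg : Lim g g' B' gp gm) :
    Lim (fun t => f t - g t) (fun t => f' t - g' t) (B + B') (fp - gp) (fm - gm) where
  d s := (h.d s).sub (hg.d s)
  c := h.c.sub hg.c
  b s := (norm_sub_le _ _).trans (add_le_add (h.b s) (hg.b s))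
  b' s := (norm_sub_le _ _).trans ((add_le_add (h.b' s) (hg.b' s)).trans (le_of_eq (by ring)))
  top := h.top.sub hg.top
  bot := h.bot.sub hg.bot

namespace MeanDat

variable {m m' D D' n n' E E' x x' : ℝ → ℂ} {B B0 : ℝ} {mp mm np nm xp xm : ℂ}

/-- the limits do not depend on the density -/
lemma mp_congr (h : MeanDat m m' D D' B mp mm) (h0 : MeanDat n n' E E' B0 np nm) : mp = np := by
  have h1 := h.mp_eq
  have h2 := h0.mp_eq
  exact mul_right_cancel₀ kap_ne (h1.trans h2.symm)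

lemma mm_congr (h : MeanDat m m' D D' B mp mm) (h0 : MeanDat n n' E E' B0 np nm) : mm = nm := by
  have h1 := h.mm_eq
  have h2 := h0.mm_eq
  exact mul_right_cancel₀ kap_ne (h1.trans h2.symm)

/-- the difference of two mean densities has limits zero -/
theorem sub_lim (h : MeanDat m m' D D' B mp mm) (h0 : MeanDat n n' E E' B0 np nm) :
    Lim (fun t => m t - n t) (fun t => m' t - n' t) (B + B0) 0 0 := by
  have h1 := h.lim.sub h0.lim
  rw [h.mp_congr h0, h.mm_congr h0, sub_self, sub_self] at h1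
  exact h1

lemma sub_eq' (h : MeanDat m m' D D' B mp mm) (h0 : MeanDat n n' E E' B0 np nm) (t : ℝ) :
    ∫ s, (m' s - n' s) * (V (t - s) : ℂ) = 2 * (D' t - E' t) := by
  have i1 := h.lim.conv_i' t
  have i2 := h0.lim.conv_i' t
  have e : (fun s => (m' s - n' s) * (V (t - s) : ℂ)) =
      fun s => m' s * (V (t - s) : ℂ) - n' s * (V (t - s) : ℂ) := by
    funext s
    ring
  rw [e, integral_sub i1 i2, h.eq', h0.eq']
  ring

/-- **quadratic value** -/
theorem sub_quad (h : MeanDat m m' D D' B mp mm) (h0 : MeanDat n n' E E' B np nm)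
    (hx : Lim x x' (B + B) xp xm) :
    (1 / 4) * (∫ t, (m t - n t) * ∫ s, (x t - x s) * KC (t - s) * (m s - n s)) +
      ∫ t, (m t - n t) * x t * (D' t - E' t) = 0 := by
  have hl := h.sub_lim h0
  have h1 := mv_quad hx hl
  simp_rw [h.sub_eq' h0] at h1
  have e : ∀ t, x t * (m t - n t) * (2 * (D' t - E' t)) = 2 * ((m t - n t) * x t * (D' t - E' t)) :=
    fun t => by ring
  simp_rw [e] at h1
  rw [integral_const_mul] at h1
  rw [h1]
  ring

/-- **linear value** -/
theorem sub_lin (h : MeanDat m m' D D' B mp mm) (h0 : MeanDat n n' E E' B np nm)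
    (hx : Lim x x' (B + B) xp xm) (hB : 1 ≤ B + B) :
    (∫ t, x t * (D' t - E' t)) + (1 / 2) * (∫ t, ∫ s, (x t - x s) * KC (t - s) * (m s - n s)) = 0 := by
  have hl := h.sub_lim h0
  have h1 := mv_lin hx hl hB
  simp_rw [h.sub_eq' h0] at h1
  have e : ∀ t, x t * (2 * (D' t - E' t)) = 2 * (x t * (D' t - E' t)) := fun t => by ring
  simp_rw [e] at h1
  rw [integral_const_mul] at h1
  rw [h1]
  ring

end MeanDat

namespace VDat

variable {T T' : Type*} [MeasurableSpace T] [MeasurableSpace T'] {y₁ y₂ a θ : ℝ}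
    {σm : Measure T} {σm' : Measure T'} [SFinite σm] [SFinite σm'] {A B : T → ℂ → ℂ} {al be : T → ℝ}
    {A' B' : T' → ℂ → ℂ} {al' be' : T' → ℝ} {r u h0 g2 q : ℂ → ℂ}
    {rd ud sg sg' sg'' mf mf' D : ℝ → ℂ} {b M0 M2 Mq Mu : ℝ} {rp rm mp mm : ℂ}

section

variable (d : VDat y₁ y₂ a θ σm σm' A B al be A' B' al' be' r u h0 g2 q rd ud sg sg' sg'' mf mf' D
  b M0 M2 Mq Mu rp rm mp mm) {nf nf' E : ℝ → ℂ} {k0 q0 : ℂ → ℂ} {np nm : ℂ}
  (hn : MeanDat nf nf' E (rl k0) b np nm)

include d hn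

/-- the difference of the two mean densities -/
lemma nlim : Lim (fun t => mf t - nf t) (fun t => mf' t - nf' t) (b + b) 0 0 := d.hm.sub_lim hn

lemma one_le2 (t : ℝ) : ‖(fun _ : ℝ => (1 : ℂ)) t‖ ≤ b + b := by
  have h1 := d.one_le' t
  have h2 := d.b0
  linarith

lemma r2 : Lim (rl r) rd (b + b) rp rm := d.lr.mono (by linarith [d.b0])

lemma n_lin1 : PBE.Lin1 y₁ y₂ a (mV fun t => mf t - nf t) :=
  mV_lin1 d.ha d.y1 d.y2 (d.nlim hn).cont (d.nlim hn).b

lemma n_le (M : ℝ) (g : ℂ → ℂ) (hg : PBE.TC y₁ y₂ a M g) :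
    ‖mV (fun t => mf t - nf t) g‖ ≤ ((b + b) * (2 / a)) * M :=
  mV_le d.ha d.y1 d.y2 (d.nlim hn).b hg

lemma n_split {M : ℝ} {g : ℂ → ℂ} (hg : PBE.TC y₁ y₂ a M g) :
    mV (fun t => mf t - nf t) g = mV mf g - mV nf g := by
  have i0 := TC_int hg d.ha d.y1 d.y2
  have i1 := mul_int_of i0 d.hm.lim.cont d.hm.lim.b
  have i2 := mul_int_of i0 hn.lim.cont hn.lim.b
  unfold mV
  rw [← integral_sub i1 i2]
  refine integral_congr_ae (Eventually.of_forall fun t => ?_)
  simp only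
  ring

lemma ib1n : Integrable (fun s => PBE.mass (A s) * mV (fun t => mf t - nf t) (B s)) σm := by
  have := (d.wt (m := fun _ => 1) (n := fun t => mf t - nf t) continuous_const (d.nlim hn).cont
    (d.one_le2 hn) (d.nlim hn).b).1
  simpa only [d.mass_eq, mV, rl] using this

lemma ib2n : Integrable (fun s => mV (fun t => mf t - nf t) (A s) * PBE.mass (B s)) σm := by
  have := (d.wt (m := fun t => mf t - nf t) (n := fun _ => 1) (d.nlim hn).cont continuous_const
    (d.nlim hn).b (d.one_le2 hn)).1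
  simpa only [d.mass_eq, mV, rl] using this

lemma imn : Integrable (fun s => mV (fun t => mf t - nf t) (A s) * mV (fun t => mf t - nf t) (B s)) σm :=
  (d.wt (m := fun t => mf t - nf t) (n := fun t => mf t - nf t) (d.nlim hn).cont (d.nlim hn).cont
    (d.nlim hn).b (d.nlim hn).b).1

lemma i1n : Integrable (fun s => PBE.mass (A s) * mV (fun t => mf t - nf t) (B s) +
    PBE.mass (B s) * mV (fun t => mf t - nf t) (A s)) σm := by
  refine (d.ib1n hn).add ?_
  refine (d.ib2n hn).congr (Eventually.of_forall fun s => ?_)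
  simp only
  ring

/-- the two orders agree -/
lemma sym_linn : ∫ t, (mf t - nf t) * ∫ s, (rl r t - rl r s) * KC (t - s) =
    ∫ t, ∫ s, (rl r t - rl r s) * KC (t - s) * (mf s - nf s) := by
  have hI := mv_double (d.r2 hn) (d.nlim hn) (Lim.const (1 : ℂ) (B := b + b) (d.one_le2 hn 0))
  simp only [one_mul] at hI
  rw [integral_integral_swap hI]
  refine integral_congr_ae (Eventually.of_forall fun t => ?_)
  simp only
  rw [← integral_const_mul]
  refine integral_congr_ae (Eventually.of_forall fun s => ?_)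
  simp only
  rw [show s - t = -(t - s) by ring, KC_neg]
  ring

/-- linear value -/
lemma v1n (eq0 : ∀ t : ℝ, q0 t = r t * k0 t) :
    (∫ s, (PBE.mass (A s) * mV (fun t => mf t - nf t) (B s) +
      PBE.mass (B s) * mV (fun t => mf t - nf t) (A s)) ∂σm) + PBE.mass (fun z => q z - q0 z) = 0 := by
  have e1 : ∫ s, (PBE.mass (A s) * mV (fun t => mf t - nf t) (B s) +
      PBE.mass (B s) * mV (fun t => mf t - nf t) (A s)) ∂σm =
      (∫ s, PBE.mass (A s) * mV (fun t => mf t - nf t) (B s) ∂σm) +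
        ∫ s, mV (fun t => mf t - nf t) (A s) * PBE.mass (B s) ∂σm := by
    rw [← integral_add (d.ib1n hn) (d.ib2n hn)]
    refine integral_congr_ae (Eventually.of_forall fun s => ?_)
    simp only
    ring
  have w1 := (d.wt (m := fun _ => 1) (n := fun t => mf t - nf t) continuous_const (d.nlim hn).cont
    (d.one_le2 hn) (d.nlim hn).b).2
  have w2 := (d.wt (m := fun t => mf t - nf t) (n := fun _ => 1) (d.nlim hn).cont continuous_const
    (d.nlim hn).b (d.one_le2 hn)).2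
  have f1 : ∫ s, PBE.mass (A s) * mV (fun t => mf t - nf t) (B s) ∂σm =
      1 / 4 * ∫ t, ∫ s, (rl r t - rl r s) * KC (t - s) * (mf s - nf s) := by
    have : ∫ s, PBE.mass (A s) * mV (fun t => mf t - nf t) (B s) ∂σm =
        ∫ s, (∫ t, rl (A s) t * (fun _ => (1 : ℂ)) t) *
          (∫ t, rl (B s) t * (fun t => mf t - nf t) t) ∂σm := by
      simp only [d.mass_eq, mV, rl]
    rw [this, w1]
    simp only [one_mul]
  have f2 : ∫ s, mV (fun t => mf t - nf t) (A s) * PBE.mass (B s) ∂σm =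
      1 / 4 * ∫ t, ∫ s, (rl r t - rl r s) * KC (t - s) * (mf s - nf s) := by
    have : ∫ s, mV (fun t => mf t - nf t) (A s) * PBE.mass (B s) ∂σm =
        ∫ s, (∫ t, rl (A s) t * (fun t => mf t - nf t) t) *
          (∫ t, rl (B s) t * (fun _ => (1 : ℂ)) t) ∂σm := by
      simp only [d.mass_eq, mV, rl]
    rw [this, w2]
    simp only [mul_one]
    rw [d.sym_linn hn]
  have h3 := d.hm.sub_lin hn (d.r2 hn) (by linarith [d.hb])
  have e3 : PBE.mass (fun z => q z - q0 z) = ∫ t, rl r t * (rl h0 t - rl k0 t) := by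
    unfold PBE.mass
    refine integral_congr_ae (Eventually.of_forall fun t => ?_)
    simp only
    rw [d.eq, eq0]
    simp only [rl]
    ring
  rw [e1, f1, f2, e3]
  linear_combination h3

/-- quadratic value -/
lemma vmn (eq0 : ∀ t : ℝ, q0 t = r t * k0 t) :
    (∫ s, mV (fun t => mf t - nf t) (A s) * mV (fun t => mf t - nf t) (B s) ∂σm) +
      mV (fun t => mf t - nf t) (fun z => q z - q0 z) = 0 := by
  have w := (d.wt (m := fun t => mf t - nf t) (n := fun t => mf t - nf t) (d.nlim hn).cont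
    (d.nlim hn).cont (d.nlim hn).b (d.nlim hn).b).2
  have h3 := d.hm.sub_quad hn (d.r2 hn)
  have e1 : ∫ s, mV (fun t => mf t - nf t) (A s) * mV (fun t => mf t - nf t) (B s) ∂σm =
      1 / 4 * ∫ t, (mf t - nf t) * ∫ s, (rl r t - rl r s) * KC (t - s) * (mf s - nf s) := by
    rw [← w]
    rfl
  have e2 : mV (fun t => mf t - nf t) (fun z => q z - q0 z) =
      ∫ t, (mf t - nf t) * rl r t * (rl h0 t - rl k0 t) := by
    unfold mV
    refine integral_congr_ae (Eventually.of_forall fun t => ?_)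
    simp only
    rw [d.eq, eq0]
    simp only [rl]
    ring
  rw [e1, e2]
  exact h3

/-- **`(E')` of plan V with the values inserted** -/
theorem E_primeV (tq0 : PBE.TC y₁ y₂ a Mq q0) (eq0 : ∀ t : ℝ, q0 t = r t * k0 t)
    {f fη fτ fττ p p' : ℂ} {G1 : (ℂ → ℂ) → ℂ} {G2 H2 : (ℂ → ℂ) → (ℂ → ℂ) → ℂ}
    {Hs : (ℂ → ℂ) → ℂ} {Hss : ℂ} {δ δ0 : ℝ} (hδ : 0 ≤ δ)
    (hL : PBE.Lev2 y₁ y₂ a f G1 G2 (mV fun t => mf t - nf t) CV δ)
    (hL' : PBE.Lev2m y₁ y₂ a f H2 Hs Hss CmV (CsV sg') (CssV sg') δ)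
    (hG1 : PBE.Lin1 y₁ y₂ a G1) (hG2 : PBE.Lin2 y₁ y₂ a G2)
    (iG : Integrable (fun s => G2 (A s) (B s)) σm)
    (iH : Integrable (fun s => H2 (A' s) (B' s)) σm')
    (hI : ‖fη - ((∫ s, G2 (A s) (B s) ∂σm) +
      ((∫ s, H2 (A' s) (B' s) ∂σm') + 2 * Hs u - (rp - rm) / 2 * Hss) +
        G1 (fun z => q z - q0 z))‖ ≤ δ0)
    (hτ : ‖G1 h0 + (fτ - p * f)‖ ≤ δ)
    (hττ : ‖G2 h0 h0 + G1 g2 - (fττ - 2 * p * fτ + (p ^ 2 - p') * f)‖ ≤ δ)
    (hp : mV nf h0 = -p) (hp' : mV nf g2 = p') :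
    ‖fη - (-((rp - rm) / 8) * fττ + (rp - rm) / 2 * f)‖ ≤ δ0 +
      ((3 + (b + b) * (2 / a) * (1 + 2 * M0 / (a * ‖PBE.mass h0‖))) *
          (1 + 2 * M0 / (a * ‖PBE.mass h0‖)) ^ 2 * (∫ s, al s * be s ∂σm) +
        ((∫ s, al' s * be' s ∂σm') + 2 * Mu + ‖rp - rm‖ / 2) +
        (Mq + Mq) * (1 + 2 * M0 / (a * ‖PBE.mass h0‖)) + ‖-(2 * p * -((rp - rm) / 8))‖ +
          ‖-((rp - rm) / 8)‖ * (1 + M2)) * δ := by
  have ha := d.ha
  have hK0 : 0 ≤ (b + b) * (2 / a) := by
    have := d.b0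
    positivity
  have tq : PBE.TC y₁ y₂ a (Mq + Mq) (fun z => q z - q0 z) := by
    have h1 := tq0.comb d.tq (-1)
    rw [norm_neg, norm_one, one_mul] at h1
    refine ⟨h1.an.congr fun z _ => by ring, fun z hz => ?_⟩
    have h2 := h1.bd z hz
    have e : q z - q0 z = -1 * q0 z + q z := by ring
    rw [e]
    exact h2
  have p1 : mV (fun t => mf t - nf t) h0 = p := by
    rw [d.n_split hn d.th0, d.m_h0, hp]
    ring
  have p2 : CV h0 h0 + mV (fun t => mf t - nf t) g2 = -p' := by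
    rw [d.n_split hn d.tg2, hp']
    linear_combination d.v00
  exact PBE.E_primeV d.ha d.y1 d.y2 hδ hK0 d.hR d.hR' hL hL' hG1 hG2 (d.n_lin1 hn) d.c_lin2
    (d.n_le hn) d.th0 d.mass_h0_ne d.tg2 d.mass_g2 tq d.tu iG d.i2 (d.i1n hn) d.iC (d.imn hn) iH d.iC'
    hI hτ hττ p1 p2 d.v2 (d.v1n hn eq0) (by
      have h1 := d.vC
      have h2 := d.vmn hn eq0
      have h4 := d.vM
      linear_combination h1 + h2 + h4)

end

end VDat

end

end Pool.Agent.PB
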