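import Pool.Agent.PV.Defs
import Pool.Agent.PB.NzE

/-!
# Plan V: the function with anti-legs at all rows (helper96)

`nv z z' x y` : legs at `z`, anti-legs at `z'` (`|Re z'| < 7 l / 10`), rows `x`, `y` (`|Re| ≤ l / 2`).

* `nv_gen` : pairwise different heights: the normalised sum over the states (`DTV`);
* `nv_tendsto` : joint continuity in `z` and the rows, `- 7 l / 5 < Re z < 43 l / 10`;
* `nv_diff` : analyticity in `z`;
* **`nv_leg`** : `nv (x₀ + 3 l) z' (x₀, x) (x₀, y) = nv x₀ z' x y`, all rows;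
* `nv_perm` : the order of the rows is irrelevant.
-/

set_option autoImplicit false
set_option linter.unusedSectionVars false

noncomputable section

open Complex Filter Topology

namespace PV

open NUP1 (l lpos St sta sw pr qu nq crq)
open PBX (DZ Lg Rws SpA pull K3 DZ_eq DZ_tendsto Lg_SpA pull_ne pull_re pull_Rws pull_tendsto)
open PBR (rh rh_mul rh_ne_zero rh_neg differentiableAt_rh continuousAt_rh)
open Pool.Agent.PB

variable {m M : ℕ}

/-! ### products of spectators -/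

/-- the factor of the anti-legs -/
def Ga (z' u : ℂ) : ℂ := Lg (z' + 3 * l) (z' - 3 * l) u

theorem LV_Ga (z z' u : ℂ) : LV z z' u = Lg z z u * Ga z' u := rfl

theorem add3_re (z : ℂ) : (z + 3 * (l : ℂ)).re = z.re + 3 * l := by simp

theorem sub3_re (z : ℂ) : (z - 3 * (l : ℂ)).re = z.re - 3 * l := by simp

theorem LV_SpA {z z' : ℂ} (hz : z ∈ LS) (hz' : |z'.re| < 7 / 10 * l) : SpA (LV z z') := by
  have hl := lpos
  obtain ⟨h1, h2⟩ := abs_lt.1 hz'
  have a := Lg_SpA (p := z) (q := z) hz.1 hz.2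
  have b := Lg_SpA (p := z' + 3 * l) (q := z' - 3 * l) (by rw [add3_re]; linarith)
    (by rw [add3_re]; linarith)
  exact ⟨a.meas.mul b.meas, fun u h3 h4 => (a.diff u h3 h4).mul (b.diff u h3 h4),
    (a.gr.mul b.gr).mono (by norm_num)⟩

/-! ### the sums over the states -/

/-- one body function with the anti-legs -/
def hV (c z z' : ℂ) (x : Fin m → ℂ) (y : Fin M → ℂ) (u : ℂ) : ℂ := hD c z x y u * Ga z' u

/-- the sum over the states -/
def DTV (c c' z z' : ℂ) (x : Fin m → ℂ) (y : Fin M → ℂ) : ℂ :=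
  ∑ n ∈ Finset.range (2 * m + 1), DS n x y (hV c z z' x y) (hV c' z z' y x)

theorem sta_hV (c z z' : ℂ) (x : Fin m → ℂ) (y : Fin M → ℂ) (a : Fin m → SignType) :
    sta x (hV c z z' x y) a = sta x (hD c z x y) a * ∏ i, ((qu (a i) (x i)).map (Ga z')).prod :=
  NUP1.sta_mul x (hD c z x y) (Ga z') a

theorem hr_LV (c z z' : ℂ) (x y : Fin m → ℂ) :
    (fun u => NUP1.Leg.hr c x y u * LV z z' u) = hV (-c) z z' x y := by
  funext u
  have h := congrFun (hr_Lg c z x y) u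
  unfold hV
  rw [← h, LV_Ga]
  ring

theorem DSV_neg (n : ℕ) (c c' z z' : ℂ) (x : Fin m → ℂ) (y : Fin M → ℂ) :
    DS n x y (hV (-c) z z' x y) (hV (-c') z z' y x) = DS n x y (hV c z z' x y) (hV c' z z' y x) := by
  unfold DS
  refine Finset.sum_congr rfl fun a ha => Finset.sum_congr rfl fun b hb => ?_
  rw [sta_hV, sta_hV, sta_hV, sta_hV, sta_neg, sta_neg, (Finset.mem_filter.1 ha).2,
    (Finset.mem_filter.1 hb).2]
  have : ((-1 : ℂ) ^ n) * (-1) ^ n = 1 := by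
    rw [← mul_pow]
    simp
  linear_combination (sta x (hD c z x y) a * sta y (hD c' z y x) b * crq x y a b *
    (∏ i, ((qu (a i) (x i)).map (Ga z')).prod) * (∏ i, ((qu (b i) (y i)).map (Ga z')).prod)) * this

theorem DSV_bridge (c c' z z' : ℂ) (x y : Fin m → ℂ) (n : ℕ) :
    PBX.DS c c' (LV z z') (LV z z') x y n = DS n x y (hV c z z' x y) (hV c' z z' y x) := by
  unfold PBX.DS
  rw [hr_LV, hr_LV]
  exact DSV_neg n c c' z z' x y

theorem sumDSV (c c' z z' : ℂ) (x y : Fin m → ℂ) :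
    ∑ n ∈ Finset.range (2 * m + 1), PBX.DS c c' (LV z z') (LV z z') x y n = DTV c c' z z' x y :=
  Finset.sum_congr rfl fun n _ => DSV_bridge c c' z z' x y n

/-- pairwise different heights -/
theorem nv_gen {z z' : ℂ} {x y : Fin m → ℂ} (hz : z ∈ LS) (hz' : |z'.re| < 7 / 10 * l) (hx : Rws x)
    (hy : Rws y) (ix : Hgt x) (iy : Hgt y) :
    nv z z' x y = PfV z z' x y * DTV (cn m) (cn m) z z' x y := by
  unfold nv
  rw [← sumDSV]
  congr 1
  exact Finset.sum_congr rfl fun n _ => DZ_eq ix iy hx hy (LV_SpA hz hz') (LV_SpA hz hz') n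

/-- the row `x₀` carries no quantum -/
theorem staV_row (c x₀ z' : ℂ) {x : Fin m → ℂ} (y : Fin M → ℂ) (h0 : ∀ i, sin (x i - x₀) ≠ 0)
    (h1 : ∀ i, sin (x i - l - x₀) ≠ 0) (a₀ : SignType) (a : Fin m → SignType) :
    sta (Fin.cons x₀ x : Fin (m + 1) → ℂ)
      (hV c (x₀ + 3 * l) z' (Fin.cons x₀ x : Fin (m + 1) → ℂ) (Fin.cons x₀ y : Fin (M + 1) → ℂ))
      (Fin.cons a₀ a : Fin (m + 1) → SignType) =
    if a₀ = .pos then sta x (hV (-c) x₀ z' x y) a else 0 := by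
  rw [sta_hV, sta_row c x₀ y h0 h1]
  split_ifs with h
  · rw [sta_hV, Fin.prod_univ_succ]
    simp only [Fin.cons_zero, Fin.cons_succ]
    rw [h]
    simp [qu]
  · ring

theorem DSV_leg (n : ℕ) (c c' x₀ z' : ℂ) {x : Fin m → ℂ} {y : Fin M → ℂ}
    (hx0 : ∀ i, sin (x i - x₀) ≠ 0) (hx1 : ∀ i, sin (x i - l - x₀) ≠ 0)
    (hy0 : ∀ i, sin (y i - x₀) ≠ 0) (hy1 : ∀ i, sin (y i - l - x₀) ≠ 0) :
    DS n (Fin.cons x₀ x : Fin (m + 1) → ℂ) (Fin.cons x₀ y : Fin (M + 1) → ℂ)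
      (hV c (x₀ + 3 * l) z' (Fin.cons x₀ x : Fin (m + 1) → ℂ) (Fin.cons x₀ y : Fin (M + 1) → ℂ))
      (hV c' (x₀ + 3 * l) z' (Fin.cons x₀ y : Fin (M + 1) → ℂ)
        (Fin.cons x₀ x : Fin (m + 1) → ℂ)) =
    DS n x y (hV c x₀ z' x y) (hV c' x₀ z' y x) := by
  rw [← DSV_neg]
  conv_lhs => unfold DS
  conv_rhs => unfold DS
  rw [sum_St_succ]
  · refine Finset.sum_congr rfl fun a _ => ?_
    rw [sum_St_succ]
    · refine Finset.sum_congr rfl fun b _ => ?_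
      rw [staV_row (-c) x₀ z' y hx0 hx1, staV_row (-c') x₀ z' x hy0 hy1, if_pos rfl, if_pos rfl,
        crq_row, neg_neg, neg_neg]
    · intro b₀ b hb
      rw [staV_row (-c') x₀ z' x hy0 hy1, if_neg hb]
      ring
  · intro a₀ a ha
    refine Finset.sum_eq_zero fun b _ => ?_
    rw [staV_row (-c) x₀ z' y hx0 hx1, if_neg ha]
    ring

theorem DTV_eq (c c' z z' : ℂ) (x : Fin m → ℂ) (y : Fin M → ℂ) {K : ℕ} (hK : 2 * m + 1 ≤ K) :
    ∑ n ∈ Finset.range K, DS n x y (hV c z z' x y) (hV c' z z' y x) = DTV c c' z z' x y := by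
  unfold DTV
  symm
  refine Finset.sum_subset (Finset.range_mono hK) fun n _ hn => ?_
  refine DS_eq_zero ?_ _ _ _ _
  rw [Finset.mem_range] at hn
  omega

theorem DTV_leg (c c' x₀ z' : ℂ) {x : Fin m → ℂ} {y : Fin M → ℂ}
    (hx0 : ∀ i, sin (x i - x₀) ≠ 0) (hx1 : ∀ i, sin (x i - l - x₀) ≠ 0)
    (hy0 : ∀ i, sin (y i - x₀) ≠ 0) (hy1 : ∀ i, sin (y i - l - x₀) ≠ 0) :
    DTV c c' (x₀ + 3 * l) z' (Fin.cons x₀ x : Fin (m + 1) → ℂ)
      (Fin.cons x₀ y : Fin (M + 1) → ℂ) = DTV c c' x₀ z' x y := by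
  rw [← DTV_eq c c' x₀ z' x y (K := 2 * (m + 1) + 1) (by omega)]
  unfold DTV
  exact Finset.sum_congr rfl fun n _ => DSV_leg n c c' x₀ z' hx0 hx1 hy0 hy1

theorem DTV_neg (c c' z z' : ℂ) (x : Fin m → ℂ) (y : Fin M → ℂ) :
    DTV (-c) (-c') z z' x y = DTV c c' z z' x y :=
  Finset.sum_congr rfl fun n _ => DSV_neg n c c' z z' x y

/-! ### the prefactor -/

theorem AV_cons (z' x₀ : ℂ) (x : Fin m → ℂ) : AV z' (Fin.cons x₀ x : Fin (m + 1) → ℂ) =
    rh (z' - x₀) ^ 2 / Lp z' x₀ * AV z' x := by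
  unfold AV
  rw [Fin.prod_univ_succ]
  simp only [Fin.cons_zero, Fin.cons_succ]

theorem AV_perm (z' : ℂ) (x : Fin m → ℂ) (σ : Equiv.Perm (Fin m)) :
    AV z' (fun i => x (σ i)) = AV z' x := by
  unfold AV
  exact Equiv.prod_comp σ fun i => rh (z' - x i) ^ 2 / Lp z' (x i)

/-- `z'` near the rows -/
theorem zp_re {z' w : ℂ} (hz' : |z'.re| < 7 / 10 * l) (hw : |w.re| ≤ l / 2) :
    |(z' - w).re| < 6 / 5 * l := by
  obtain ⟨h1, h2⟩ := abs_lt.1 hz'
  obtain ⟨h3, h4⟩ := abs_le.1 hw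
  rw [sub_re, abs_lt]
  constructor <;> linarith

theorem Lp_ne {z' w : ℂ} (hz' : |z'.re| < 7 / 10 * l) (hw : |w.re| ≤ l / 2) : Lp z' w ≠ 0 := by
  have hl := lpos
  have h8 : 8 * l = Real.pi := by unfold NUP1.l; ring
  obtain ⟨h1, h2⟩ := abs_lt.1 (zp_re hz' hw)
  unfold Lp
  refine mul_ne_zero (NUP1.Bd.sin_ne_zero_of_re ?_) (NUP1.Bd.sin_ne_zero_of_re ?_)
  · have e : (z' - w + 2 * (l : ℂ)).re = (z' - w).re + 2 * l := by simp
    rw [e]
    exact (Real.sin_pos_of_pos_of_lt_pi (by linarith) (by linarith)).ne'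
  · have e : (z' - w + 3 * (l : ℂ)).re = (z' - w).re + 3 * l := by simp
    rw [e]
    exact (Real.sin_pos_of_pos_of_lt_pi (by linarith) (by linarith)).ne'

theorem PfV_leg {x₀ z' : ℂ} {x : Fin m → ℂ} {y : Fin M → ℂ} (hz' : |z'.re| < 7 / 10 * l)
    (h0 : |x₀.re| ≤ l / 2) (hx : Rws x) (hy : Rws y) :
    PfV (x₀ + 3 * l) z' (Fin.cons x₀ x : Fin (m + 1) → ℂ) (Fin.cons x₀ y : Fin (M + 1) → ℂ) =
      PfV x₀ z' x y := by
  have hl := lpos
  have hw := zp_re hz' h0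
  have hL := Lp_ne hz' h0
  obtain ⟨w, hwd⟩ : ∃ w, w = x₀ - z' := ⟨_, rfl⟩
  have hwr : |w.re| < 6 / 5 * l := by
    rw [hwd, ← abs_neg, ← neg_re, neg_sub]
    exact hw
  obtain ⟨h1, h2⟩ := abs_lt.1 hwr
  have k : rh w * rh (w + 3 * l) = Lp z' x₀ := by
    rw [rh_mul (by rw [abs_lt]; constructor <;> linarith) (by rw [abs_lt]; constructor <;> linarith),
      hwd]
    unfold Lp
    rw [show 3 * (l : ℂ) - (x₀ - z') = z' - x₀ + 3 * l by ring,
      show 2 * (l : ℂ) - (x₀ - z') = z' - x₀ + 2 * l by ring]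
    ring
  have e1 : rh (z' - x₀) = rh w := by rw [← rh_neg, neg_sub, hwd]
  have e2 : x₀ + 3 * (l : ℂ) - z' = w + 3 * l := by rw [hwd]; ring
  have e3 : x₀ - z' = w := hwd.symm
  have key : rh (w + 3 * l) ^ 2 * (rh w ^ 2 / Lp z' x₀ * (rh w ^ 2 / Lp z' x₀)) = rh w ^ 2 := by
    rw [← k] at hL ⊢
    have a1 : rh w ≠ 0 := left_ne_zero_of_mul hL
    have a2 : rh (w + 3 * l) ≠ 0 := right_ne_zero_of_mul hL
    field_simp
  unfold PfV
  rw [Pf_leg (fun i => sub_re_le h0 (hx i)) fun i => sub_re_le h0 (hy i), AV_cons, AV_cons, e1, e2,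
    e3]
  linear_combination (2 / 3 * rh 0 / sin l * (AV z' x * AV z' y) * Pf x₀ x y) * key

theorem PfV_perm (z z' : ℂ) (x : Fin m → ℂ) (σ : Equiv.Perm (Fin m)) :
    PfV z z' (fun i => x (σ i)) (fun i => x (σ i)) = PfV z z' x x := by
  unfold PfV
  rw [Pf_perm, AV_perm]

theorem AV_tendsto {E : Type*} {F : Filter E} {x : E → Fin m → ℂ} {x0 : Fin m → ℂ} {z' : ℂ}
    (hz' : |z'.re| < 7 / 10 * l) (tx : ∀ i, Tendsto (fun e => x e i) F (𝓝 (x0 i))) (hx0 : Rws x0) :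
    Tendsto (fun e => AV z' (x e)) F (𝓝 (AV z' x0)) := by
  have hl := lpos
  unfold AV
  refine tendsto_finsetProd _ fun i _ => Tendsto.div ?_ ?_ (Lp_ne hz' (hx0 i))
  · exact (rh_tendsto (tendsto_const_nhds.sub (tx i)) (by linarith [zp_re hz' (hx0 i)])).pow 2
  · unfold Lp
    exact (sin_tendsto ((tendsto_const_nhds.sub (tx i)).add_const _)).mul
      (sin_tendsto ((tendsto_const_nhds.sub (tx i)).add_const _))

theorem sub_zp {z z' : ℂ} (hz : z ∈ LS) (hz' : |z'.re| < 7 / 10 * l) : |(z - z').re| < 5 * l := by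
  obtain ⟨h1, h2⟩ := abs_lt.1 hz'
  obtain ⟨h3, h4⟩ := hz
  have hl := lpos
  rw [sub_re, abs_lt]
  constructor <;> linarith

theorem PfV_tendsto {E : Type*} {F : Filter E} {z : E → ℂ} {x : E → Fin m → ℂ} {y : E → Fin M → ℂ}
    {z0 z' : ℂ} {x0 : Fin m → ℂ} {y0 : Fin M → ℂ} (tz : Tendsto z F (𝓝 z0))
    (tx : ∀ i, Tendsto (fun e => x e i) F (𝓝 (x0 i)))
    (ty : ∀ i, Tendsto (fun e => y e i) F (𝓝 (y0 i))) (hx0 : Rws x0) (hy0 : Rws y0) (hz : z0 ∈ LS)
    (hz' : |z'.re| < 7 / 10 * l) :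
    Tendsto (fun e => PfV (z e) z' (x e) (y e)) F (𝓝 (PfV z0 z' x0 y0)) := by
  unfold PfV
  refine Tendsto.mul (Tendsto.mul (Tendsto.mul ?_ tendsto_const_nhds) ?_) ?_
  · exact (rh_tendsto (tz.sub_const _) (sub_zp hz hz')).pow 2
  · exact (AV_tendsto hz' tx hx0).mul (AV_tendsto hz' ty hy0)
  · exact Pf_tendsto tz tx ty (fun i j => Rws.dist hx0 hx0 i j) (fun i j => Rws.dist hy0 hy0 i j)
      (fun i j => Rws.dist hx0 hy0 i j) (Rws.narZ hx0 hz) (Rws.narZ hy0 hz)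

theorem PfV_diff {x : Fin m → ℂ} {y : Fin M → ℂ} {z z' : ℂ} (hx : Rws x) (hy : Rws y) (hz : z ∈ LS)
    (hz' : |z'.re| < 7 / 10 * l) : DifferentiableAt ℂ (fun z => PfV z z' x y) z := by
  have hl := lpos
  have hd : DifferentiableAt ℂ (fun z => rh (z - z')) z :=
    (differentiableAt_rh (by linarith [sub_zp hz hz'])).comp z (differentiableAt_id.sub_const _)
  unfold PfV
  exact (((hd.pow 2).mul_const _).mul_const _).mul
    (Pf_diff (fun i j => Rws.dist hx hx i j) (fun i j => Rws.dist hy hy i j)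
      (fun i j => Rws.dist hx hy i j) (Rws.narZ hx hz) (Rws.narZ hy hz))

/-! ### joint continuity -/

theorem Ga_bd {z' : ℂ} (hz' : |z'.re| < 7 / 10 * l) :
    ∃ D : ℝ, 0 ≤ D ∧ ∀ u : ℂ, u.re ∈ K3 → ‖Ga z' u‖ ≤ D := by
  have hl := lpos
  obtain ⟨h1, h2⟩ := abs_lt.1 hz'
  have b := Lg_SpA (p := z' + 3 * l) (q := z' - 3 * l) (by rw [add3_re]; linarith)
    (by rw [add3_re]; linarith)
  exact b.bd

theorem nv_tendsto {E : Type*} {F : Filter E} [F.IsCountablyGenerated] {z : E → ℂ}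
    {x y : E → Fin m → ℂ} {z0 z' : ℂ} {x0 y0 : Fin m → ℂ} (tz : Tendsto z F (𝓝 z0))
    (tx : ∀ i, Tendsto (fun e => x e i) F (𝓝 (x0 i)))
    (ty : ∀ i, Tendsto (fun e => y e i) F (𝓝 (y0 i))) (hx : ∀ᶠ e in F, Rws (x e))
    (hy : ∀ᶠ e in F, Rws (y e)) (hx0 : Rws x0) (hy0 : Rws y0) (hz : z0 ∈ LS)
    (hz' : |z'.re| < 7 / 10 * l) :
    Tendsto (fun e => nv (z e) z' (x e) (y e)) F (𝓝 (nv z0 z' x0 y0)) := by
  unfold nv
  refine Tendsto.mul (PfV_tendsto tz tx ty hx0 hy0 hz hz') (tendsto_finsetSum _ fun n _ => ?_)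
  obtain ⟨D, hD, hb⟩ := Lg_unif tz hz
  obtain ⟨D', hD', hb'⟩ := Ga_bd hz'
  have tl : ∀ u : ℂ, u.re ∈ K3 → Tendsto (fun e => LV (z e) z' u) F (𝓝 (LV z0 z' u)) :=
    fun u hu => (Lg_tendsto tz hz hu).mul_const _
  refine DZ_tendsto (R := (∑ j, |(x0 j).im| + 1) + (∑ j, |(y0 j).im| + 1)) (cn m) (cn m) ?_ hx0 hy0
    tx ty (mul_nonneg hD hD') ?_ tl tl n
  · filter_upwards [hx, hy, bd_im tx, bd_im ty] with e h1 h2 h3 h4
    have s1 : 0 ≤ ∑ j, |(x0 j).im| := Finset.sum_nonneg fun _ _ => abs_nonneg _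
    have s2 : 0 ≤ ∑ j, |(y0 j).im| := Finset.sum_nonneg fun _ _ => abs_nonneg _
    exact ⟨h1, h2, fun i => (h3 i).trans (by linarith), fun i => (h4 i).trans (by linarith)⟩
  · filter_upwards [hb] with e he
    have hm : Measurable (LV (z e) z') := (PBX.Lg_meas _ _).mul (PBX.Lg_meas _ _)
    have hq : ∀ u : ℂ, u.re ∈ K3 → ‖LV (z e) z' u‖ ≤ D * D' := fun u hu => by
      rw [LV_Ga, norm_mul]
      exact mul_le_mul (he u hu) (hb' u hu) (norm_nonneg _) hD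
    exact ⟨hm, hm, fun u hu => ⟨hq u hu, hq u hu⟩⟩

/-! ### analyticity in the legs -/

theorem staV_diff (c z' : ℂ) {x : Fin m → ℂ} (y : Fin m → ℂ) (a : Fin m → SignType) {z : ℂ}
    (hz : z ∈ LS) (hx : Rws x) : DifferentiableAt ℂ (fun z => sta x (hV c z z' x y) a) z := by
  have e : (fun z => sta x (hV c z z' x y) a) = fun z => sta x (hD c z x y) a *
      ∏ i, ((qu (a i) (x i)).map (Ga z')).prod := by
    funext z
    exact sta_hV c z z' x y a
  rw [e]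
  exact (sta_diff c y a hz hx).mul_const _

theorem DTV_diff (c c' z' : ℂ) {x y : Fin m → ℂ} {z : ℂ} (hz : z ∈ LS) (hx : Rws x) (hy : Rws y) :
    DifferentiableAt ℂ (fun z => DTV c c' z z' x y) z := by
  unfold DTV DS
  refine DifferentiableAt.fun_sum fun n _ => DifferentiableAt.fun_sum fun a _ =>
    DifferentiableAt.fun_sum fun b _ => ?_
  exact ((staV_diff c z' y a hz hx).mul (staV_diff c' z' x b hz hy)).mul_const _

/-- **analyticity in the legs** -/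
theorem nv_diff {x y : Fin m → ℂ} {z' : ℂ} (hz' : |z'.re| < 7 / 10 * l) (hx : Rws x) (hy : Rws y) :
    DifferentiableOn ℂ (fun z => nv z z' x y) LS := by
  refine diff_of_joint (F := 𝓝[>] (0 : ℝ)) (D := fun z e => nv z z' (pull x e) (pull y e))
    (fun z hz => ?_) LS_open ?_
  · have t2 : ∀ (x : Fin m → ℂ) (i : Fin m), Tendsto (fun p : ℂ × ℝ => pull x p.2 i)
        (𝓝 z ×ˢ 𝓝[>] 0) (𝓝 (x i)) := fun x i => (pull_tendsto x i).comp tendsto_snd
    exact nv_tendsto (F := 𝓝 z ×ˢ 𝓝[>] (0 : ℝ)) (z := fun p => p.1) (x := fun p => pull x p.2)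
      (y := fun p => pull y p.2) tendsto_fst (t2 x) (t2 y)
      (Eventually.of_forall fun p => pull_Rws hx p.2) (Eventually.of_forall fun p => pull_Rws hy p.2)
      hx hy hz hz'
  · filter_upwards [pull_Hgt x, pull_Hgt y] with e h1 h2
    have rx := pull_Rws hx e
    have ry := pull_Rws hy e
    have : DifferentiableOn ℂ (fun z => PfV z z' (pull x e) (pull y e) *
        DTV (cn m) (cn m) z z' (pull x e) (pull y e)) LS := fun z hz =>
      ((PfV_diff rx ry hz hz').mul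
        (DTV_diff (cn m) (cn m) z' hz rx ry)).differentiableWithinAt
    exact this.congr fun z hz => nv_gen hz hz' rx ry h1 h2

/-! ### the exact leg identity -/

/-- the exact leg identity, pairwise different heights -/
theorem nv_leg_gen {x0 z' : ℂ} {x y : Fin m → ℂ} (hz' : |z'.re| < 7 / 10 * l) (h0 : |x0.re| ≤ l / 2)
    (hx : Rws x) (hy : Rws y) (ix : Hgt (Fin.cons x0 x : Fin (m + 1) → ℂ))
    (iy : Hgt (Fin.cons x0 y : Fin (m + 1) → ℂ)) :
    nv (x0 + 3 * l) z' (Fin.cons x0 x : Fin (m + 1) → ℂ) (Fin.cons x0 y : Fin (m + 1) → ℂ) =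
      nv x0 z' x y := by
  have ix' : Hgt x := fun i j hij => by
    simpa using ix i.succ j.succ fun h => hij (Fin.succ_injective _ h)
  have iy' : Hgt y := fun i j hij => by
    simpa using iy i.succ j.succ fun h => hij (Fin.succ_injective _ h)
  have kx : ∀ i, (x i).im ≠ x0.im := fun i => by simpa using ix i.succ 0 (Fin.succ_ne_zero i)
  have ky : ∀ i, (y i).im ≠ x0.im := fun i => by simpa using iy i.succ 0 (Fin.succ_ne_zero i)
  rw [nv_gen (mem_LS3 h0) hz' (Rws.cons h0 hx) (Rws.cons h0 hy) ix iy,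
    nv_gen (mem_LS h0) hz' hx hy ix' iy', cn_succ, DTV_neg,
    DTV_leg (cn m) (cn m) x0 z' (fun i => (sin_hgt (kx i)).1)
      (fun i => (sin_hgt (kx i)).2) (fun i => (sin_hgt (ky i)).1) (fun i => (sin_hgt (ky i)).2),
    PfV_leg hz' h0 hx hy]

/-- **The exact leg identity (A1), all rows.** -/
theorem nv_leg {x0 z' : ℂ} {x y : Fin m → ℂ} (hz' : |z'.re| < 7 / 10 * l) (h0 : |x0.re| ≤ l / 2)
    (hx : Rws x) (hy : Rws y) :
    nv (x0 + 3 * l) z' (Fin.cons x0 x : Fin (m + 1) → ℂ) (Fin.cons x0 y : Fin (m + 1) → ℂ) =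
      nv x0 z' x y := by
  have rx := Rws.cons h0 hx
  have ry := Rws.cons h0 hy
  set px : ℝ → Fin m → ℂ := fun e i => pull (Fin.cons x0 x : Fin (m + 1) → ℂ) e i.succ with hpx
  set py : ℝ → Fin m → ℂ := fun e i => pull (Fin.cons x0 y : Fin (m + 1) → ℂ) e i.succ with hpy
  have rpx : ∀ e, Rws (px e) := fun e i => pull_Rws rx e i.succ
  have rpy : ∀ e, Rws (py e) := fun e i => pull_Rws ry e i.succ
  have t1 : Tendsto (fun e => nv (x0 + 3 * l) z' (pull (Fin.cons x0 x : Fin (m + 1) → ℂ) e)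
      (pull (Fin.cons x0 y : Fin (m + 1) → ℂ) e)) (𝓝[>] (0 : ℝ))
      (𝓝 (nv (x0 + 3 * l) z' (Fin.cons x0 x : Fin (m + 1) → ℂ)
        (Fin.cons x0 y : Fin (m + 1) → ℂ))) :=
    nv_tendsto tendsto_const_nhds (pull_tendsto _) (pull_tendsto _)
      (Eventually.of_forall fun e => pull_Rws rx e) (Eventually.of_forall fun e => pull_Rws ry e)
      rx ry (mem_LS3 h0) hz'
  have t2 : Tendsto (fun e => nv x0 z' (px e) (py e)) (𝓝[>] (0 : ℝ)) (𝓝 (nv x0 z' x y)) :=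
    nv_tendsto tendsto_const_nhds
      (fun i => by simpa using pull_tendsto (Fin.cons x0 x : Fin (m + 1) → ℂ) i.succ)
      (fun i => by simpa using pull_tendsto (Fin.cons x0 y : Fin (m + 1) → ℂ) i.succ)
      (Eventually.of_forall rpx) (Eventually.of_forall rpy) hx hy (mem_LS h0) hz'
  refine tendsto_nhds_unique (t1.congr' ?_) t2
  filter_upwards [pull_Hgt (Fin.cons x0 x : Fin (m + 1) → ℂ),
    pull_Hgt (Fin.cons x0 y : Fin (m + 1) → ℂ)] with e h1 h2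
  rw [pull_cons x0 x e] at h1 ⊢
  rw [pull_cons x0 y e] at h2 ⊢
  exact nv_leg_gen hz' h0 (rpx e) (rpy e) h1 h2

/-- **the order of the rows** -/
theorem nv_perm (z z' : ℂ) (x : Fin m → ℂ) (σ : Equiv.Perm (Fin m)) :
    nv z z' (fun i => x (σ i)) (fun i => x (σ i)) = nv z z' x x := by
  have e : ∀ n : ℕ, DZ (cn m) (cn m) (LV z z') (LV z z') (fun i => x (σ i)) (fun i => x (σ i)) n =
      DZ (cn m) (cn m) (LV z z') (LV z z') x x n := fun n =>
    DZ_perm (cn m) (cn m) (LV z z') (LV z z') x x n σ σ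
  unfold nv
  rw [PfV_perm]
  simp only [e]

end PV

end
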