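import Pool.Agent.PB.ZFamK

/-!
# The leg functions at rows `i η`, `0 ^ a` with moving cutoff points, general spectator `G`

`PB/ZFamA`, `ZFamR`, `ZFamK` with `Lg z0 z0` replaced by a function `G` with `Spc G` (analytic,
bounded and without zeros on the strip of the lines).

* `ZXG`, `ZPG`, `ZRG`, `ZdRG`, `ZpRG` ; **`exists_zfamG`** : 89's `ZFam` ; `lamUG`, `lamKG` : `i` times
  the logarithmic derivative of the spectator ; **`zcut_eqG`, `zcut_allG`** : the cut term is 17's `ZcX`.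
-/

set_option autoImplicit false
set_option linter.unusedSectionVars false
set_option linter.unusedVariables false

noncomputable section

open Complex MeasureTheory Filter Topology Finset

namespace PVZF

open NUP1 NUP1S NUP1.Bd NURow PB
open PBX (XX ph gP Lg TT TT_eq ph_gP gP_nil)
open PBFar (W0 cutT wE)
open PBForce (rowO)
open PBI PBZF

/-- the strip of the lines -/
def KW : Set ℝ := Set.Icc (-(47 / 20) * l) (19 / 20 * l)

/-- admissible spectator -/
structure Spc (G : ℂ → ℂ) : Prop where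
  meas : Measurable G
  diff : ∀ u : ℂ, u.re ∈ KW → DifferentiableAt ℂ G u
  ne : ∀ u : ℂ, u.re ∈ KW → G u ≠ 0
  bd : ∃ C : ℝ, 0 ≤ C ∧ ∀ u : ℂ, u.re ∈ KW → ‖G u‖ ≤ C

theorem KO_KW {k : Option O3} {r : ℝ} (hr : r ∈ KO k) : r ∈ KW := by
  have hl := Bd.l_pos
  rcases k with _ | (_ | _ | _)
  all_goals
    obtain ⟨h1, h2⟩ := hr
    constructor <;> linarith

theorem KO_KW' {k : O3} (hk : k ≠ .L) {r : ℝ} (hr : r ∈ KO (some k)) : r - l ∈ KW := by
  have hl := Bd.l_pos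
  cases k
  · exact absurd rfl hk
  all_goals
    obtain ⟨h1, h2⟩ := hr
    constructor <;> linarith

theorem K'_KW {r : ℝ} (hr : r ∈ K') : r ∈ KW := by
  have hl := Bd.l_pos
  obtain ⟨h1, h2⟩ := hr
  constructor <;> linarith

/-- the one body functions -/
def ZXG (c : Bool → ℂ) (b : ℝ) (a : ℕ) (G : ℂ → ℂ) (η0 : ℝ) (v : Fin 2 → ℂ) (θ : ℂ) (s : Bool)
    (k : Option O3) (u : ℂ) : ℂ :=
  XX (c s) b (rwx a θ) (rwx a θ) (gP b [vx η0 v θ 0, vx η0 v θ 1]) (fun _ => 1) G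
    (fun w => G w * G (w - l)) k u

/-- the product form -/
def ZPG (c : Bool → ℂ) (b : ℝ) (a : ℕ) (G : ℂ → ℂ) (η0 : ℝ) (v : Fin 2 → ℂ) (θ : ℂ) (s : Bool)
    (k : Option O3) (u : ℂ) : ℂ :=
  rowO (c s) (rwx a θ) (ob4 k) u * cutZ b a (θ * I) (vx η0 v θ) k u * one G (ob4 k) u

variable {c : Bool → ℂ} {b : ℝ} {a : ℕ} {G : ℂ → ℂ} {η0 : ℝ} {v : Fin 2 → ℂ} {θ : ℂ}

/-- **the product form** -/
theorem ZX_eqG (hb : 0 < b) (hb' : b ≤ 4 / 3) (hθ : |(θ * I).re| ≤ l / 100) (s : Bool)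
    {k : Option O3} {u : ℂ} (hu : u.re ∈ KO k) :
    ZXG c b a G η0 v θ s k u = ZPG c b a G η0 v θ s k u := by
  have hl := Bd.l_pos
  have e1 := ph_W0 b a θ (vx η0 v θ)
  have e2 := ph_R0 (4 / 3) a θ
  unfold ZXG ZPG
  rcases k with _ | (_ | _ | _)
  · show RR (c s) (rwx a θ) (rwx a θ) u * ph b (rwx a θ) _ u * G u = _
    rw [e1]
    rfl
  · show RR (c s) (rwx a θ) (rwx a θ) u * ph b (rwx a θ) _ u * G u = _
    rw [e1]
    rfl
  · show RR (c s) (rwx a θ) (rwx a θ) u * RR (c s) (rwx a θ) (rwx a θ) (u - l) *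
      ph (4 / 3) (rwx a θ) _ u * (G u * G (u - l)) = _
    rw [e2]
    rfl
  · show TT (c s) b (4 / 3) (rwx a θ) (rwx a θ) _ _ u * (G u * G (u - l)) = _
    have hre : ∀ i, -(l) < (u - rwx a θ i).re ∧ (u - rwx a θ i).re < 0 := by
      intro i
      obtain ⟨h1, h2⟩ := hu
      obtain ⟨h3, h4⟩ := abs_le.1 (rwx_re (a := a) hθ i)
      rw [sub_re]
      constructor <;> linarith
    rw [TT_eq (fun i => NQ_strip hb hb' (by linarith [(hre i).1]) (by linarith [(hre i).2]))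
      (fun i => NQ_strip (by norm_num) le_rfl (by linarith [(hre i).1]) (by linarith [(hre i).2]))
      (fun i hi => by
        exfalso
        obtain ⟨h3, h4⟩ := abs_le.1 (rwx_re (a := a) hθ i)
        linarith)
      (fun i hi => by
        exfalso
        obtain ⟨h3, h4⟩ := abs_le.1 (rwx_re (a := a) hθ i)
        linarith), e1, e1, e2]
    rfl

/-! ## joint analyticity -/

theorem dG (hz : Spc G) {E : Type*} [NormedAddCommGroup E] [NormedSpace ℂ E] {e0 : E} {u : E → ℂ}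
    (hu : DifferentiableAt ℂ u e0) (h : (u e0).re ∈ KW) : DifferentiableAt ℂ (fun s => G (u s)) e0 :=
  DifferentiableAt.comp e0 (hz.diff _ h) hu

/-- **joint analyticity** -/
theorem diff_ZPG (hb : 0 < b) (hb' : b ≤ 4 / 3) (hz : Spc G) (hθ : Th η0 v θ) (s : Bool)
    {k : Option O3} {u : ℂ} (hu : u.re ∈ KO k) :
    DifferentiableAt ℂ (fun p : ℂ × ℂ => ZPG c b a G η0 v p.1 s k p.2) (θ, u) := by
  have hl := Bd.l_pos
  have hx : DifferentiableAt ℂ (fun p : ℂ × ℂ => p.1 * I) (θ, u) := by fun_prop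
  have h2 : DifferentiableAt ℂ (fun p : ℂ × ℂ => p.2) (θ, u) := differentiableAt_snd
  have h2' : DifferentiableAt ℂ (fun p : ℂ × ℂ => p.2 - (l : ℂ)) (θ, u) := h2.sub_const _
  have q0 : |(0 : ℝ)| ≤ l / 100 := by rw [abs_zero]; positivity
  have hv : ∀ i, |(vx η0 v θ i).re| ≤ l / 100 := by
    intro i
    fin_cases i
    · exact hθ.v0
    · exact hθ.v1
  have dR : DifferentiableAt ℂ (fun p : ℂ × ℂ => RR (c s) (rwx a p.1) (rwx a p.1) p.2) (θ, u) :=
    dRR (c s) (fun i => d_rwx a i _) h2 (fun i => by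
      rw [sub_re]
      exact KO_NP hu (rwx_re hθ.x i))
  have dR' : ∀ k' : O3, k = some k' → k' ≠ .L →
      DifferentiableAt ℂ (fun p : ℂ × ℂ => RR (c s) (rwx a p.1) (rwx a p.1) (p.2 - l)) (θ, u) := by
    intro k' hk hk'
    subst hk
    refine dRR (c s) (fun i => d_rwx a i _) h2' (fun i => ?_)
    rw [sub_re, re_sub_l]
    exact KO_NP' hk' hu (rwx_re hθ.x i)
  have dW : DifferentiableAt ℂ (fun p : ℂ × ℂ => NUP1.phi b (W0 a (p.1 * I) (vx η0 v p.1)) p.2)
      (θ, u) := by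
    refine dphiW a hx h2 (fun i => d_vx η0 v i _) ?_ ?_ fun i => ?_
    · rw [sub_re]
      exact KO_NQ hb hb' hu hθ.x
    · rw [sub_re, zero_re]
      exact KO_NQ hb hb' hu q0
    · rw [sub_re]
      exact KO_NQ hb hb' hu (hv i)
  have dL : DifferentiableAt ℂ (fun p : ℂ × ℂ => G p.2) (θ, u) := dG hz h2 (KO_KW hu)
  have dL' : ∀ k' : O3, k = some k' → k' ≠ .L →
      DifferentiableAt ℂ (fun p : ℂ × ℂ => G (p.2 - l)) (θ, u) := by
    intro k' hk hk'
    subst hk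
    refine dG hz h2' ?_
    rw [re_sub_l]
    exact KO_KW' hk' hu
  rcases k with _ | (_ | _ | _)
  · exact (dR.mul dW).mul dL
  · exact (dR.mul dW).mul dL
  · have d4 : DifferentiableAt ℂ (fun p : ℂ × ℂ =>
        NUP1.phi (4 / 3) (p.1 * I :: List.replicate a 0) p.2) (θ, u) := by
      refine dphiR a hx h2 ?_ ?_
      · rw [sub_re]
        exact KO_NQ (by norm_num) le_rfl hu hθ.x
      · rw [sub_re, zero_re]
        exact KO_NQ (by norm_num) le_rfl hu q0
    exact ((dR.mul (dR' .S rfl (by decide))).mul d4).mul (dL.mul (dL' .S rfl (by decide)))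
  · have d4 : DifferentiableAt ℂ (fun p : ℂ × ℂ =>
        NUP1.phi (4 / 3) (p.1 * I :: List.replicate a 0) p.2) (θ, u) := by
      refine dphiR a hx h2 ?_ ?_
      · rw [sub_re]
        exact KO_NQ (by norm_num) le_rfl hu hθ.x
      · rw [sub_re, zero_re]
        exact KO_NQ (by norm_num) le_rfl hu q0
    have dW' : DifferentiableAt ℂ (fun p : ℂ × ℂ =>
        NUP1.phi b (W0 a (p.1 * I) (vx η0 v p.1)) (p.2 - l)) (θ, u) := by
      refine dphiW a hx h2' (fun i => d_vx η0 v i _) ?_ ?_ fun i => ?_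
      · rw [sub_re, re_sub_l]
        exact KO_NQ' hb hb' hu hθ.x
      · rw [sub_re, re_sub_l, zero_re]
        exact KO_NQ' hb hb' hu q0
      · rw [sub_re, re_sub_l]
        exact KO_NQ' hb hb' hu (hv i)
    exact ((dR.mul (dR' .T rfl (by decide))).mul ((dW.mul dW').sub d4)).mul
      (dL.mul (dL' .T rfl (by decide)))

/-! ## uniform bounds -/

/-- **uniform bounds of the product form** -/
theorem ub_ZPG (hb : 0 < b) (hb' : b ≤ 4 / 3) (hz : Spc G) (s : Bool) (k : Option O3) :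
    UB (SB η0 v) (KO k) (-(2 * b)) fun θ u => ZPG c b a G η0 v θ s k u := by
  have hl := Bd.l_pos
  have hK := KO_compact k
  have bx : InBox (SB η0 v) (l / 100) (|η0| + 2) fun θ => θ * I := fun θ hθ =>
    ⟨(SB_box hθ).1.x, (SB_box hθ).2.1⟩
  have b0 : InBox (SB η0 v) (l / 100) (|η0| + 2) fun _ => (0 : ℂ) := fun θ hθ => by
    rw [zero_re, zero_im, abs_zero]
    have := abs_nonneg η0
    constructor <;> positivity
  have be : ∀ i, InBox (SB η0 v) (l / 100) (|η0| + 2) fun θ => vx η0 v θ i := fun i θ hθ => by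
    refine ⟨?_, (SB_box hθ).2.2 i⟩
    fin_cases i
    · exact (SB_box hθ).1.v0
    · exact (SB_box hθ).1.v1
  have br : ∀ i, InBox (SB η0 v) (l / 100) (|η0| + 2) fun θ => rwx a θ i := fun i => by
    refine Fin.cases ?_ (fun j => ?_) i
    · exact bx
    · exact b0
  have nP : NPr (l / 100) (KO k) := fun d hd e he => KO_NP hd he
  have nQ : ∀ β : ℝ, 0 < β → β ≤ 4 / 3 → NQr β (l / 100) (KO k) := fun β h1 h2 d hd e he =>
    KO_NQ h1 h2 hd he
  have uR := ub_RR (c s) br br hK nP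
  have uW := ub_W hb a bx b0 be hK (nQ b hb hb')
  have u4 := ub_R (β := 4 / 3) (by norm_num) a bx b0 hK (nQ (4 / 3) (by norm_num) le_rfl)
  have uL : UB (SB η0 v) (KO k) 0 fun (_ : ℂ) z => G z := by
    obtain ⟨C, hC, h⟩ := hz.bd
    refine ⟨C, hC, fun _ _ z hz => ?_⟩
    rw [zero_mul, Real.exp_zero, mul_one]
    exact h z (KO_KW hz)
  have hK2 : IsCompact K' := isCompact_Icc
  have sub' : ∀ k' : O3, k' ≠ .L → ∀ r ∈ KO (some k'), r - l ∈ K' := by
    intro k' hk' r hr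
    cases k'
    · exact absurd rfl hk'
    all_goals
      obtain ⟨h1, h2⟩ := hr
      unfold K'
      constructor <;> linarith
  have nP' : NPr (l / 100) K' := NPr_neg fun d hd => by
    obtain ⟨h1, h2⟩ := hd
    constructor <;> linarith
  have uR' := ub_RR (c s) br br hK2 nP'
  have nQ' : NQr b (l / 100) K' := NQr_strip hb hb' fun d hd => by
    obtain ⟨h1, h2⟩ := hd
    constructor <;> linarith
  have uW' := ub_W hb a bx b0 be hK2 nQ'
  have uL' : UB (SB η0 v) K' 0 fun (_ : ℂ) z => G z := by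
    obtain ⟨C, hC, h⟩ := hz.bd
    refine ⟨C, hC, fun _ _ z hz => ?_⟩
    rw [zero_mul, Real.exp_zero, mul_one]
    exact h z (K'_KW hz)
  rcases k with _ | (_ | _ | _)
  · exact (((uR.mul uW).mul uL).rate (by ring)).congr fun θ _ z _ => rfl
  · exact (((uR.mul uW).mul uL).rate (by ring)).congr fun θ _ z _ => rfl
  · have h1 := uR.mul (uR'.shift_l (sub' .S (by decide)))
    have h2 := uL.mul (uL'.shift_l (sub' .S (by decide)))
    exact (((h1.mul u4).mul h2).mono_rate (by linarith)).congr fun θ _ z _ => rfl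
  · have h1 := uR.mul (uR'.shift_l (sub' .T (by decide)))
    have h2 := uL.mul (uL'.shift_l (sub' .T (by decide)))
    have h3 := uW.mul (uW'.shift_l (sub' .T (by decide)))
    have h4 := (h3.mono_rate (s' := -(2 * b)) (by linarith)).sub
      (u4.mono_rate (s' := -(2 * b)) (by linarith))
    exact (((h1.mul h4).mul h2).rate (by ring)).congr fun θ _ z _ => rfl

/-- the family of the one body functions -/
def ZRG (c : Bool → ℂ) (b : ℝ) (a : ℕ) (G : ℂ → ℂ) (η0 : ℝ) (v : Fin 2 → ℂ) (η : ℝ) : Stt :=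
  fun s k u => ZXG c b a G η0 v (η : ℂ) s k u

open scoped Classical in
/-- derivative in the height of the row -/
def ZdRG (c : Bool → ℂ) (b : ℝ) (a : ℕ) (G : ℂ → ℂ) (η0 : ℝ) (v : Fin 2 → ℂ) (η : ℝ) : Stt :=
  fun s k u => if η ∈ Metric.ball η0 (rad v / 2) ∧ u.re ∈ KO k then
    deriv (fun θ : ℂ => ZPG c b a G η0 v θ s k u) (η : ℂ) else 0

open scoped Classical in
/-- derivative in the position -/
def ZpRG (c : Bool → ℂ) (b : ℝ) (a : ℕ) (G : ℂ → ℂ) (η0 : ℝ) (v : Fin 2 → ℂ) : Stt :=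
  fun s k u => if u.re ∈ KI k then
    deriv (fun u : ℂ => ZPG c b a G η0 v (η0 : ℂ) s k u) u else 0

theorem ZR_eqG (hb : 0 < b) (hb' : b ≤ 4 / 3) (η : ℝ) (s : Bool) {k : Option O3} {u : ℂ}
    (hu : u.re ∈ KO k) : ZRG c b a G η0 v η s k u = ZPG c b a G η0 v (η : ℂ) s k u :=
  ZX_eqG hb hb' (real_Th η) s hu

/-! ## the derivatives -/

/-- the section in `θ` -/
theorem diff_thG (hb : 0 < b) (hb' : b ≤ 4 / 3) (hz : Spc G) {θ : ℂ} (hθ : θ ∈ SB η0 v) (s : Bool)
    {k : Option O3} {u : ℂ} (hu : u.re ∈ KO k) :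
    DifferentiableAt ℂ (fun θ : ℂ => ZPG c b a G η0 v θ s k u) θ := by
  have h := diff_ZPG (c := c) (a := a) hb hb' hz (SB_box hθ).1 s hu
  exact DifferentiableAt.comp (f := fun θ : ℂ => (θ, u)) θ h (by fun_prop)

/-- the section in `u` -/
theorem diff_uG (hb : 0 < b) (hb' : b ≤ 4 / 3) (hz : Spc G) {θ : ℂ} (hθ : θ ∈ SB η0 v) (s : Bool)
    {k : Option O3} {u : ℂ} (hu : u.re ∈ KO k) :
    DifferentiableAt ℂ (fun u : ℂ => ZPG c b a G η0 v θ s k u) u := by
  have h := diff_ZPG (c := c) (a := a) hb hb' hz (SB_box hθ).1 s hu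
  exact DifferentiableAt.comp (f := fun u : ℂ => (θ, u)) u h (by fun_prop)

theorem hasDeriv_etaG (hb : 0 < b) (hb' : b ≤ 4 / 3) (hz : Spc G) {η : ℝ}
    (h : η ∈ Metric.ball η0 (rad v / 2)) (s : Bool) {k : Option O3} {u : ℂ} (hu : u.re ∈ KO k) :
    HasDerivAt (fun η : ℝ => ZRG c b a G η0 v η s k u) (ZdRG c b a G η0 v η s k u) η := by
  have h1 := (diff_thG (c := c) (a := a) hb hb' hz (mem_SB' h) s hu).hasDerivAt.comp_ofReal
  have e : (fun η : ℝ => ZRG c b a G η0 v η s k u) =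
      fun η : ℝ => ZPG c b a G η0 v (η : ℂ) s k u := funext fun η => ZR_eqG hb hb' η s hu
  rw [e]
  unfold ZdRG
  rw [if_pos ⟨h, hu⟩]
  exact h1

theorem hasDeriv_posG (hb : 0 < b) (hb' : b ≤ 4 / 3) (hz : Spc G) (s : Bool) {k : Option O3}
    {u : ℂ} (hu : u.re ∈ KI k) :
    HasDerivAt (ZRG c b a G η0 v η0 s k) (ZpRG c b a G η0 v s k u) u := by
  have h1 := (diff_uG (c := c) (a := a) hb hb' hz (mem_SB0 (η0 := η0) (v := v)) s (KI_sub hu)).hasDerivAt
  unfold ZpRG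
  rw [if_pos hu]
  refine h1.congr_of_eventuallyEq ?_
  filter_upwards [KI_nhd hu] with w hw
  exact ZR_eqG hb hb' η0 s hw

/-! ## measurability -/

theorem meas_ZRG (hz : Spc G) (η : ℝ) (s : Bool) (k : Option O3) : Measurable (ZRG c b a G η0 v η s k) := by
  unfold ZRG ZXG
  exact PBX.measurable_XX (PBX.measurable_gP _ _) measurable_const hz.meas
    (hz.meas.mul (hz.meas.comp (measurable_id.sub_const _))) k

theorem meas_ZpRG (s : Bool) (k : Option O3) : Measurable (ZpRG c b a G η0 v s k) := by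
  unfold ZpRG
  exact Measurable.ite (meas_KI k) (measurable_deriv _) measurable_const

theorem meas_ZdRG (hb : 0 < b) (hb' : b ≤ 4 / 3) (hz : Spc G) (η : ℝ) (s : Bool)
    (k : Option O3) : Measurable (ZdRG c b a G η0 v η s k) := by
  classical
  by_cases h : η ∈ Metric.ball η0 (rad v / 2)
  · set F : ℕ → ℂ → ℂ := fun j u => if u.re ∈ KO k then
      ((j : ℝ) + 1 : ℝ) • (ZRG c b a G η0 v (η + ((j : ℝ) + 1)⁻¹) s k u -
        ZRG c b a G η0 v η s k u) else 0 with hF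
    have hm : ∀ j, Measurable (F j) := fun j =>
      Measurable.ite (meas_KO k) ((((meas_ZRG hz (η + ((j : ℝ) + 1)⁻¹) s k).sub
        (meas_ZRG hz η s k)).const_smul ((j : ℝ) + 1 : ℝ))) measurable_const
    refine measurable_of_tendsto_metrizable hm ?_
    rw [tendsto_pi_nhds]
    intro u
    by_cases hu : u.re ∈ KO k
    · have hd := hasDeriv_etaG (c := c) (a := a) hb hb' hz h s hu
      have h2 := hd.tendsto_slope_zero
      have h3 : Tendsto (fun j : ℕ => ((j : ℝ) + 1)⁻¹) atTop (𝓝[≠] 0) := by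
        refine tendsto_nhdsWithin_iff.2 ⟨?_, Eventually.of_forall fun j => ?_⟩
        · have := tendsto_one_div_add_atTop_nhds_zero_nat (𝕜 := ℝ)
          simpa only [one_div] using this
        · have : (0 : ℝ) < (j : ℝ) + 1 := by positivity
          exact inv_ne_zero this.ne'
      have h4 := h2.comp h3
      refine h4.congr fun j => ?_
      simp only [Function.comp_apply, hF, if_pos hu, inv_inv]
    · have e1 : ZdRG c b a G η0 v η s k u = 0 := by
        unfold ZdRG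
        rw [if_neg fun hc => hu hc.2]
      rw [e1]
      refine tendsto_const_nhds.congr fun j => ?_
      simp only [hF, if_neg hu]
  · have : ZdRG c b a G η0 v η s k = fun _ => 0 := by
      funext u
      unfold ZdRG
      rw [if_neg fun hc => h hc.1]
    rw [this]
    exact measurable_const

/-! ## bounds -/

/-- one constant for all kinds and species -/
theorem exists_bdG (c : Bool → ℂ) (a : ℕ) (η0 : ℝ) (v : Fin 2 → ℂ) (hb : 0 < b) (hb' : b ≤ 4 / 3)
    (hz : Spc G) : ∃ C : ℝ, 0 ≤ C ∧ ∀ θ ∈ SB η0 v,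
    ∀ (s : Bool) (k : Option O3) (u : ℂ), u.re ∈ KO k →
    ‖ZPG c b a G η0 v θ s k u‖ ≤ C * Real.exp (-(2 * b * |u.im|)) := by
  have h : ∀ p : Bool × Option O3, ∃ C : ℝ, 0 ≤ C ∧ ∀ θ ∈ SB η0 v, ∀ u : ℂ, u.re ∈ KO p.2 →
      ‖ZPG c b a G η0 v θ p.1 p.2 u‖ ≤ C * Real.exp (-(2 * b) * |u.im|) := fun p =>
    ub_ZPG (c := c) (a := a) hb hb' hz p.1 p.2
  choose C hC H using h
  refine ⟨∑ p, C p, Finset.sum_nonneg fun p _ => hC p, fun θ hθ s k u hu => ?_⟩
  refine (H (s, k) θ hθ u hu).trans ?_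
  rw [show -(2 * b) * |u.im| = -(2 * b * |u.im|) by ring]
  exact mul_le_mul_of_nonneg_right
    (Finset.single_le_sum (f := C) (fun p _ => hC p) (Finset.mem_univ (s, k))) (Real.exp_pos _).le

theorem bd_ZRG (hb : 0 < b) (hb' : b ≤ 4 / 3) {C : ℝ}
    (h : ∀ θ ∈ SB η0 v, ∀ (s : Bool) (k : Option O3) (u : ℂ), u.re ∈ KO k →
      ‖ZPG c b a G η0 v θ s k u‖ ≤ C * Real.exp (-(2 * b * |u.im|))) {η : ℝ}
    (hη : η ∈ Metric.ball η0 (rad v / 2)) (s : Bool) {k : Option O3} {u : ℂ} (hu : u.re ∈ KO k) :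
    ‖ZRG c b a G η0 v η s k u‖ ≤ C * Real.exp (-(2 * b * |u.im|)) := by
  rw [ZR_eqG hb hb' η s hu]
  exact h _ (mem_SB' hη) s k u hu

theorem bd_ZdRG (hb : 0 < b) (hb' : b ≤ 4 / 3) (hz : Spc G) {C : ℝ} 
    (h : ∀ θ ∈ SB η0 v, ∀ (s : Bool) (k : Option O3) (u : ℂ), u.re ∈ KO k →
      ‖ZPG c b a G η0 v θ s k u‖ ≤ C * Real.exp (-(2 * b * |u.im|))) {η : ℝ}
    (hη : η ∈ Metric.ball η0 (rad v / 2)) (s : Bool) {k : Option O3} {u : ℂ} (hu : u.re ∈ KO k) :
    ‖ZdRG c b a G η0 v η s k u‖ ≤ 2 / rad v * C * Real.exp (-(2 * b * |u.im|)) := by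
  have hr := rad_pos v
  have hr2 : 0 < rad v / 2 := by positivity
  unfold ZdRG
  rw [if_pos ⟨hη, hu⟩]
  have hin : ∀ θ ∈ Metric.closedBall (η : ℂ) (rad v / 2), θ ∈ SB η0 v := fun θ hθ =>
    mem_SB hη (by rwa [mem_closedBall_iff_norm] at hθ)
  have hd : DiffContOnCl ℂ (fun θ : ℂ => ZPG c b a G η0 v θ s k u)
      (Metric.ball (η : ℂ) (rad v / 2)) := by
    refine DifferentiableOn.diffContOnCl ?_
    rw [closure_ball _ hr2.ne']
    exact fun θ hθ => (diff_thG hb hb' hz (hin θ hθ) s hu).differentiableWithinAt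
  have := Complex.norm_deriv_le_of_forall_mem_sphere_norm_le hr2 hd
    (C := C * Real.exp (-(2 * b * |u.im|))) fun θ hθ =>
      h θ (hin θ (Metric.sphere_subset_closedBall hθ)) s k u hu
  refine this.trans (le_of_eq ?_)
  field_simp

theorem bd_ZpRG (hb : 0 < b) (hb' : b ≤ 4 / 3) (hz : Spc G) {C : ℝ} (hC : 0 ≤ C)
    (h : ∀ θ ∈ SB η0 v, ∀ (s : Bool) (k : Option O3) (u : ℂ), u.re ∈ KO k →
      ‖ZPG c b a G η0 v θ s k u‖ ≤ C * Real.exp (-(2 * b * |u.im|))) (s : Bool) {k : Option O3}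
    {u : ℂ} (hu : u.re ∈ KI k) :
    ‖ZpRG c b a G η0 v s k u‖ ≤ 20 / l * Real.exp 1 * C * Real.exp (-(2 * b * |u.im|)) := by
  have hl := Bd.l_pos
  have hl1 := l_lt_one
  have hr2 : 0 < l / 20 := by positivity
  unfold ZpRG
  rw [if_pos hu]
  have hin : ∀ w ∈ Metric.closedBall u (l / 20), w.re ∈ KO k := fun w hw => by
    rw [mem_closedBall_iff_norm] at hw
    refine KI_ball hu ?_
    rw [← sub_re]
    exact (abs_re_le_norm _).trans hw
  have hd : DiffContOnCl ℂ (fun u : ℂ => ZPG c b a G η0 v (η0 : ℂ) s k u)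
      (Metric.ball u (l / 20)) := by
    refine DifferentiableOn.diffContOnCl ?_
    rw [closure_ball _ hr2.ne']
    exact fun w hw => (diff_uG hb hb' hz (mem_SB0 (η0 := η0) (v := v)) s
      (hin w hw)).differentiableWithinAt
  have := Complex.norm_deriv_le_of_forall_mem_sphere_norm_le hr2 hd
    (C := C * (Real.exp 1 * Real.exp (-(2 * b * |u.im|)))) fun w hw => by
      refine (h η0 mem_SB0 s k w (hin w (Metric.sphere_subset_closedBall hw))).trans ?_
      refine mul_le_mul_of_nonneg_left ?_ hC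
      rw [← Real.exp_add]
      refine Real.exp_le_exp.2 ?_
      have h1 : |w.im - u.im| ≤ l / 20 := by
        rw [← sub_im]
        rw [mem_sphere_iff_norm] at hw
        exact (abs_im_le_norm _).trans hw.le
      have h2 : |u.im| - |w.im| ≤ |w.im - u.im| := by
        rw [abs_sub_comm]
        exact abs_sub_abs_le_abs_sub _ _
      have h3 : 2 * b * (|u.im| - |w.im|) ≤ 2 * b * (l / 20) :=
        mul_le_mul_of_nonneg_left (h2.trans h1) (by positivity)
      nlinarith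
  refine this.trans (le_of_eq ?_)
  field_simp

/-! ## the family -/

/-- **`ZFam`**, the constant does not depend on the lines and the number of quanta -/
theorem exists_zfamG (c : Bool → ℂ) (a : ℕ) (η0 : ℝ) (v : Fin 2 → ℂ) (hb : 0 < b)
    (hb' : b ≤ 4 / 3) (hz : Spc G) : ∃ D : ℝ, 0 ≤ D ∧ ∀ (α : ℝ) (n : ℕ) (L : PBI.Lns),
    3 / 5 * l ≤ α → α < 7 / 10 * l → LnH L.X L.Y →
    ZFam α n L (2 * b) D (rad v / 2) η0 (ZRG c b a G η0 v) (ZdRG c b a G η0 v)
      (ZpRG c b a G η0 v) := by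
  have hl := Bd.l_pos
  have hr := rad_pos v
  obtain ⟨C, hC, h⟩ := exists_bdG c a η0 v hb hb' hz
  set D : ℝ := C + 2 / rad v * C + 20 / l * Real.exp 1 * C with hD
  have d1 : 0 ≤ 2 / rad v * C := by positivity
  have d2 : 0 ≤ 20 / l * Real.exp 1 * C := by positivity
  refine ⟨D, by positivity, fun α n L hα hα' hL => ?_⟩
  have up : ∀ {x y : ℝ} {w : ℂ}, ‖w‖ ≤ x * Real.exp y → x ≤ D → ‖w‖ ≤ D * Real.exp y :=
    fun h1 h2 => h1.trans (mul_le_mul_of_nonneg_right h2 (Real.exp_pos _).le)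
  have hK := fun {p p' : ℕ} (k : Fin p → O3) (k' : Fin p' → O3) =>
    all_KI hα (by linarith) hL n n k k'
  refine
    { hκ := by positivity
      hr := by positivity
      hD := by positivity
      hok := all_ok hα hα' hL n n
      hm := fun η s k => meas_ZRG hz η s k
      hmd := fun η s k => meas_ZdRG hb hb' hz η s k
      hm' := fun s k => meas_ZpRG s k
      hZ := ?_
      hZd := ?_
      hZ' := ?_
      hd := ?_
      hd' := ?_ }
  · intro η hη p p' k k' h1 h2 i t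
    have hi := KI_sub (hK k k' i)
    rw [show L.all α n n k k' i = (vl (L.all α n n k k' i) t).re from (re_vl _ _).symm] at hi
    have := bd_ZRG (c := c) (a := a) hb hb' h hη (cl n n k k' i).1 hi
    rw [im_vl] at this
    exact up this (by linarith)
  · intro η hη p p' k k' h1 h2 i t
    have hi := KI_sub (hK k k' i)
    rw [show L.all α n n k k' i = (vl (L.all α n n k k' i) t).re from (re_vl _ _).symm] at hi
    have := bd_ZdRG (c := c) (a := a) hb hb' hz h hη (cl n n k k' i).1 hi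
    rw [im_vl] at this
    exact up this (by linarith)
  · intro p p' k k' h1 h2 i t
    have hi := hK k k' i
    rw [show L.all α n n k k' i = (vl (L.all α n n k k' i) t).re from (re_vl _ _).symm] at hi
    have := bd_ZpRG (c := c) (a := a) hb hb' hz hC h (cl n n k k' i).1 hi
    rw [im_vl] at this
    exact up this (by linarith)
  · intro η hη p p' k k' h1 h2 i t
    have hi := KI_sub (hK k k' i)
    rw [show L.all α n n k k' i = (vl (L.all α n n k k' i) t).re from (re_vl _ _).symm] at hi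
    exact hasDeriv_etaG hb hb' hz hη (cl n n k k' i).1 hi
  · intro p p' k k' h1 h2 i t
    have hi := hK k k' i
    rw [show L.all α n n k k' i = (vl (L.all α n n k k' i) t).re from (re_vl _ _).symm] at hi
    exact hasDeriv_posG hb hb' hz (cl n n k k' i).1 hi

/-! ## the spectator along the path -/

/-- `i` times the logarithmic derivative of the spectator -/
def lamUG (G : ℂ → ℂ) (u : ℂ) : ℂ := I * deriv G u / G u

/-- `i` times the logarithmic derivative of the spectator of a kind -/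
def lamKG (G : ℂ → ℂ) : Option O3 → ℂ → ℂ
  | some .S, w => lamUG G w + lamUG G (w - l)
  | some .T, w => lamUG G w + lamUG G (w - l)
  | _, u => lamUG G u

/-- the legs along the path -/
theorem path_legG (hz : Spc G) {k : Option O3} {u : ℂ} (ξ : ℂ) (hu : u.re ∈ KO k) :
    HasDerivAt (fun τ : ℝ => one (G) (ob4 k) (u + I * ξ * τ))
      (one (G) (ob4 k) u * (ξ * lamKG G k u)) 0 := by
  have hl := Bd.l_pos
  have e3 : HasDerivAt (fun τ : ℂ => u + I * ξ * τ) (I * ξ) ((0 : ℝ) : ℂ) := by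
    simpa using ((hasDerivAt_id ((0 : ℝ) : ℂ)).const_mul (I * ξ)).const_add u
  have base : ∀ w : ℂ, -(47 / 20) * l ≤ w.re → w.re ≤ 19 / 20 * l →
      HasDerivAt (fun τ : ℝ => G (w + I * ξ * τ)) (G w * (ξ * lamUG G w)) 0 := by
    intro w h1 h2
    have hne := hz.ne w ⟨h1, h2⟩
    have e3 : HasDerivAt (fun τ : ℂ => w + I * ξ * τ) (I * ξ) ((0 : ℝ) : ℂ) := by
      simpa using ((hasDerivAt_id ((0 : ℝ) : ℂ)).const_mul (I * ξ)).const_add w
    have h3 : HasDerivAt (G) (deriv (G) w) (w + I * ξ * ((0 : ℝ) : ℂ)) := by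
      rw [ofReal_zero, mul_zero, add_zero]
      exact (hz.diff w ⟨h1, h2⟩).hasDerivAt
    refine ((h3.comp ((0 : ℝ) : ℂ) e3).comp_ofReal).congr_deriv ?_
    unfold lamUG
    field_simp
  have hu1 : -(47 / 20) * l ≤ u.re ∧ u.re ≤ 19 / 20 * l := by
    rcases k with _ | (_ | _ | _)
    all_goals
      obtain ⟨h1, h2⟩ := hu
      constructor <;> linarith
  have a1 := base u hu1.1 hu1.2
  have a2 : ∀ k' : O3, k = some k' → k' ≠ .L → HasDerivAt (fun τ : ℝ =>
      G (u + I * ξ * τ - l)) (G (u - l) * (ξ * lamUG G (u - l))) 0 := by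
    intro k' hk hk'
    subst hk
    have hr : -(47 / 20) * l ≤ (u - l).re ∧ (u - l).re ≤ 19 / 20 * l := by
      rw [re_sub_l]
      cases k'
      · exact absurd rfl hk'
      all_goals
        obtain ⟨h1, h2⟩ := hu
        constructor <;> linarith
    have := base (u - l) hr.1 hr.2
    refine this.congr_of_eventuallyEq (Eventually.of_forall fun τ => ?_)
    show G (u + I * ξ * τ - l) = G (u - l + I * ξ * τ)
    congr 1
    ring
  rcases k with _ | (_ | _ | _)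
  · exact a1
  · exact a1
  · refine (a1.mul (a2 .S rfl (by decide))).congr_deriv ?_
    show _ = G u * G (u - l) * (ξ * (lamUG G u + lamUG G (u - l)))
    rw [ofReal_zero, mul_zero, add_zero]
    ring
  · refine (a1.mul (a2 .T rfl (by decide))).congr_deriv ?_
    show _ = G u * G (u - l) * (ξ * (lamUG G u + lamUG G (u - l)))
    rw [ofReal_zero, mul_zero, add_zero]
    ring

/-! ## the cut term -/

/-- **what the first Ward identity leaves**: row factor × derivative of the cutoff × legs -/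
theorem zcut_eq0G (c : Bool → ℂ) (hb1 : 1 ≤ b) (hb' : b ≤ 4 / 3) (hz : Spc G) (η0 : ℝ) (ξe : ℝ → ℂ)
    {Ξ κr r1 lam : PBI.Kd → ℂ → ℂ} (s : Bool) {k : Option O3} {u : ℂ} (hu : u.re ∈ KI k)
    (hκ : κr (s, k) u = PBForce.krR (ob4 k) (rwx a (η0 : ℂ)) u)
    (hr : r1 (s, k) u = PBForce.r1R (ob4 k) (rwx a (η0 : ℂ)) 0 u)
    (hlam : lam (s, k) u = lamKG G k u) :
    Zcut (ZRG c b a G η0 (PBFar.vI b a ((η0 : ℂ) * I) I ξe) η0)
      (ZdRG c b a G η0 (PBFar.vI b a ((η0 : ℂ) * I) I ξe) η0)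
      (ZpRG c b a G η0 (PBFar.vI b a ((η0 : ℂ) * I) I ξe)) Ξ κr r1 lam s k u =
    rowO (c s) (rwx a (η0 : ℂ)) (ob4 k) u * DcutZ b a η0 ξe (Ξ (s, k) u) k u *
      one (G) (ob4 k) u := by
  have hb : 0 < b := by linarith
  set v := PBFar.vI b a ((η0 : ℂ) * I) I ξe with hv
  set ξ := Ξ (s, k) u with hξ
  have hr0 := rad_pos v
  have huO := KI_sub hu
  have h0 : η0 ∈ Metric.ball η0 (rad v / 2) := Metric.mem_ball_self (by positivity)
  -- the total derivative
  have hG := diff_ZPG (c := c) (a := a) (θ := (η0 : ℂ)) hb hb' hz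
    (SB_box (mem_SB0 (η0 := η0) (v := v))).1 s huO
  have hA := (diff_thG (c := c) (a := a) hb hb' hz (mem_SB0 (η0 := η0) (v := v)) s huO).hasDerivAt
  have hB := (diff_uG (c := c) (a := a) hb hb' hz (mem_SB0 (η0 := η0) (v := v)) s huO).hasDerivAt
  have p0 := path_deriv (ξ := ξ) hG hA hB
  -- the product
  have p1 := path_rowO (a := a) (c s) η0 ξ huO
  have p2 := path_cut (a := a) hb1 hb' η0 ξe ξ hu
  have p3 := path_legG hz ξ huO
  have p4 := (p1.mul p2).mul p3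
  have key := p0.unique p4
  have ez : ((η0 : ℂ) + ((0 : ℝ) : ℂ)) = η0 := by rw [ofReal_zero, add_zero]
  have eu : (u + I * ξ * ((0 : ℝ) : ℂ)) = u := by rw [ofReal_zero, mul_zero, add_zero]
  simp only [Pi.mul_apply, ez, eu, ← hv] at key
  unfold Zcut
  rw [hκ, hr, hlam, ← hξ, ZR_eqG hb hb' η0 s huO]
  have e1 : ZdRG c b a G η0 v η0 s k u = deriv (fun θ : ℂ => ZPG c b a G η0 v θ s k u) (η0 : ℂ) := by
    unfold ZdRG
    rw [if_pos ⟨h0, huO⟩]
  have e2 : ZpRG c b a G η0 v s k u = deriv (fun u : ℂ => ZPG c b a G η0 v (η0 : ℂ) s k u) u := by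
    unfold ZpRG
    rw [if_pos hu]
  rw [e1, e2, key]
  unfold ZPG
  ring

/-- **`Zcut` is 17's `ZcX`** on the inner strips -/
theorem zcut_eqG (c : Bool → ℂ) (hb1 : 1 ≤ b) (hb' : b ≤ 4 / 3) (hz : Spc G) (η0 : ℝ) (ξe : ℝ → ℂ)
    {X : ℂ → ℂ} {Ξ κr r1 lam : PBI.Kd → ℂ → ℂ} (s : Bool) {k : Option O3} {u : ℂ} (hu : u.re ∈ KI k)
    (hX : Ξ (s, none) u = X u) (hX' : ∀ o : O3, Ξ (s, some o) u = X (u + 2 * l))
    (hκ : κr (s, k) u = PBForce.krR (ob4 k) (rwx a (η0 : ℂ)) u)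
    (hr : r1 (s, k) u = PBForce.r1R (ob4 k) (rwx a (η0 : ℂ)) 0 u)
    (hlam : lam (s, k) u = lamKG G k u) :
    Zcut (ZRG c b a G η0 (PBFar.vI b a ((η0 : ℂ) * I) I ξe) η0)
      (ZdRG c b a G η0 (PBFar.vI b a ((η0 : ℂ) * I) I ξe) η0)
      (ZpRG c b a G η0 (PBFar.vI b a ((η0 : ℂ) * I) I ξe)) Ξ κr r1 lam s k u =
    PBC.ZcX (c s) (rwx a (η0 : ℂ)) b a ((η0 : ℂ) * I) I ξe X (G)
      (fun w => G w * G (w - l)) k u := by
  rw [zcut_eq0G c hb1 hb' hz η0 ξe s hu hκ hr hlam]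
  rcases k with _ | (_ | _ | _)
  · rw [hX]
    rfl
  · rw [hX' .L]
    rfl
  · rw [hX' .S]
    rfl
  · rw [hX' .T]
    rfl

/-- **`ZFam` on the final lines**, one constant for all parameters `P` and all `n` -/
theorem exists_zfam_PG (c : Bool → ℂ) (a : ℕ) (η0 : ℝ) (v : Fin 2 → ℂ) (hb : 0 < b)
    (hb' : b ≤ 4 / 3) (hz : Spc G) : ∃ D : ℝ, 0 ≤ D ∧ ∀ P : NUO.Par, NUGC.ParC P → ∀ n : ℕ,
    ZFam (3 / 5 * l) n ⟨NUP1S.lX P, NUP1S.lY P⟩ (2 * b) D (rad v / 2) η0 (ZRG c b a G η0 v)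
      (ZdRG c b a G η0 v) (ZpRG c b a G η0 v) := by
  have hl := Bd.l_pos
  obtain ⟨D, hD, h⟩ := exists_zfamG c a η0 v hb hb' hz
  refine ⟨D, hD, fun P hP n => h _ n _ le_rfl (by linarith) ?_⟩
  exact LnH_P hP.goodP hP.j1 hP.j2 fun r => by
    have h1 := hP.e2 r
    have h2 := hP.d0 r
    linarith

/-- **the cut term on the lines of all words** -/
theorem zcut_allG (c : Bool → ℂ) (hb1 : 1 ≤ b) (hb' : b ≤ 4 / 3) (hz : Spc G) (η0 : ℝ)
    (ξe : ℝ → ℂ) {X : ℂ → ℂ} {Ξ κr r1 lam : PBI.Kd → ℂ → ℂ}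
    (hX : ∀ s u, Ξ (s, none) u = X u) (hX' : ∀ (s : Bool) (o : O3) u, Ξ (s, some o) u = X (u + 2 * l))
    (hκ : ∀ s k u, κr (s, k) u = PBForce.krR (ob4 k) (rwx a (η0 : ℂ)) u)
    (hr : ∀ s k u, r1 (s, k) u = PBForce.r1R (ob4 k) (rwx a (η0 : ℂ)) 0 u)
    (hlam : ∀ s k u, lam (s, k) u = lamKG G k u)
    {α : ℝ} (hα : 3 / 5 * l ≤ α) (hα' : α ≤ 9 / 10 * l) {L : PBI.Lns} (hL : LnH L.X L.Y) (n : ℕ) :
    AllW α n n L fun c' x => ∀ i, ∀ t : ℝ,
      Zcut (ZRG c b a G η0 (PBFar.vI b a ((η0 : ℂ) * I) I ξe) η0)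
        (ZdRG c b a G η0 (PBFar.vI b a ((η0 : ℂ) * I) I ξe) η0)
        (ZpRG c b a G η0 (PBFar.vI b a ((η0 : ℂ) * I) I ξe)) Ξ κr r1 lam (c' i).1 (c' i).2
          (vl (x i) t) =
      PBC.ZcX (c (c' i).1) (rwx a (η0 : ℂ)) b a ((η0 : ℂ) * I) I ξe X (G)
        (fun w => G w * G (w - l)) (c' i).2 (vl (x i) t) := by
  intro p p' k k' h1 h2 i t
  have hi := all_KI hα hα' hL n n k k' i
  rw [show L.all α n n k k' i = (vl (L.all α n n k k' i) t).re from (re_vl _ _).symm] at hi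
  exact zcut_eqG c hb1 hb' hz η0 ξe (cl n n k k' i).1 hi (hX _ _) (fun o => hX' _ o _) (hκ _ _ _)
    (hr _ _ _) (hlam _ _ _)

end PVZF

end
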