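import Pool.Agent.PV.ZFamG
import Pool.Agent.PV.ZcV
import Pool.Agent.PV.Defs

/-!
# Plan V: the family `ZFam` and the cut term, legs at `z`, anti-legs at `z'`

* `spc_LgV`, `spc_LV`: the spectator `Lg z z / Lg z' z'` is admissible, `- 9/10 l ≤ Re z, Re z' ≤ l / 2`;
* `lamK_LgV`: `i` times its logarithmic derivative is `lamK z - lamK z'` (`PV.lamV`);
* `ZRV`, `ZdRV`, `ZpRV`: the family, its derivatives in the height of the row and in the position;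
  `ZRV_LV`: the form with `PV.LV`; `ZRV_ZV`: it is `PV.ZV`; `ZRV_ZLV`: at the centre it is 17's `ZLV`;
* **`exists_zfam_PV`**: `ZFam` on the final lines; **`zcut_KV`**: the cut term is 17's `ZcLV`.
-/

set_option autoImplicit false
set_option linter.unusedSectionVars false
set_option linter.unusedVariables false

noncomputable section

open Complex MeasureTheory Filter Topology Finset

namespace PVZF

open NUP1 NUP1S NUP1.Bd NURow PB
open PBX (XX ph gP Lg)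
open PBFar (W0 cutT)
open PBI PBZF
open PVS (LgV)

variable {z z' : ℂ}

/-! ## the spectator -/

theorem KW_compact : IsCompact KW := isCompact_Icc

theorem spc_Lg (hz : Lz z) : Spc (Lg z z) where
  meas := PBX.Lg_meas z z
  diff u hu := PBX.Lg_diff (Lg_ne hz hu.1 hu.2).2
  ne u hu := (Lg_ne hz hu.1 hu.2).1
  bd := by
    have h := ub_Lg (Θ := Unit) (S := Set.univ) (z0 := z) KW_compact fun d hd => by
      have := (Lg_ne hz (u := (d : ℂ)) (by rw [ofReal_re]; exact hd.1)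
        (by rw [ofReal_re]; exact hd.2)).2
      rwa [ofReal_re] at this
    obtain ⟨C, hC, h⟩ := h
    refine ⟨C, hC, fun u hu => ?_⟩
    have := h () (Set.mem_univ _) u hu
    rwa [zero_mul, Real.exp_zero, mul_one] at this

/-- bound of the inverse -/
theorem ub_Lg_inv {Θ : Type*} {S : Set Θ} {K : Set ℝ} (hK : IsCompact K)
    (h : ∀ d ∈ K, Real.sin (z.re - d - 3 * l) ≠ 0) :
    UB S K 0 fun (_ : Θ) u => (Lg z z u)⁻¹ := by
  have hx : InBox S 0 |z.im| fun _ : Θ => I * (z.im : ℂ) := by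
    intro θ _
    simp
  have h1 := ub_sin hx K (-z.re - 2 * l)
  have h2 := ub_inv_sin hx hK (-z.re + 3 * l) (by
    intro d hd e he
    have he0 : e = 0 := abs_nonpos_iff.1 he
    rw [he0]
    intro h0
    refine h d hd ?_
    rw [show z.re - d - 3 * l = -(d - 0 + (-z.re + 3 * l)) by ring, Real.sin_neg, h0, neg_zero])
  refine ((h1.mul h2).rate (by norm_num)).congr fun θ _ u _ => ?_
  unfold Lg
  have e0 : z = (z.re : ℂ) + (z.im : ℂ) * I := (re_add_im z).symm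
  have e1 : z - u - 3 * l = -(u - I * (z.im : ℂ) + ((-z.re + 3 * l : ℝ) : ℂ)) := by
    push_cast
    linear_combination e0
  have e2 : z - u + 2 * l = -(u - I * (z.im : ℂ) + ((-z.re - 2 * l : ℝ) : ℂ)) := by
    push_cast
    linear_combination e0
  rw [e1, e2, Complex.sin_neg, Complex.sin_neg, neg_div_neg_eq, inv_div, div_eq_mul_one_div]

theorem sin3_ne (hz : Lz z) {d : ℝ} (hd : d ∈ KW) : Real.sin (z.re - d - 3 * l) ≠ 0 := by
  have hl := Bd.l_pos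
  have h8 : 8 * l = Real.pi := by unfold l; ring
  obtain ⟨z1, z2⟩ := hz
  obtain ⟨h1, h2⟩ := hd
  have : Real.sin (-(z.re - d - 3 * l)) ≠ 0 :=
    (Real.sin_pos_of_pos_of_lt_pi (by linarith) (by linarith)).ne'
  rwa [Real.sin_neg, neg_ne_zero] at this

theorem spc_Lg_inv (hz : Lz z) : Spc fun u => (Lg z z u)⁻¹ where
  meas := (PBX.Lg_meas z z).inv
  diff u hu := ((spc_Lg hz).diff u hu).inv ((spc_Lg hz).ne u hu)
  ne u hu := inv_ne_zero ((spc_Lg hz).ne u hu)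
  bd := by
    have h := ub_Lg_inv (Θ := Unit) (S := Set.univ) (z := z) KW_compact fun d hd => sin3_ne hz hd
    obtain ⟨C, hC, h⟩ := h
    refine ⟨C, hC, fun u hu => ?_⟩
    have := h () (Set.mem_univ _) u hu
    rwa [zero_mul, Real.exp_zero, mul_one] at this

theorem Spc.mul {F G : ℂ → ℂ} (h : Spc F) (h' : Spc G) : Spc fun u => F u * G u where
  meas := h.meas.mul h'.meas
  diff u hu := (h.diff u hu).mul (h'.diff u hu)
  ne u hu := mul_ne_zero (h.ne u hu) (h'.ne u hu)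
  bd := by
    obtain ⟨C, hC, H⟩ := h.bd
    obtain ⟨C', hC', H'⟩ := h'.bd
    refine ⟨C * C', by positivity, fun u hu => ?_⟩
    rw [norm_mul]
    exact mul_le_mul (H u hu) (H' u hu) (norm_nonneg _) hC

theorem spc_LgV (hz : Lz z) (hz' : Lz z') : Spc (LgV z z') := (spc_Lg hz).mul (spc_Lg_inv hz')

theorem LV_LgV (z z' : ℂ) : PV.LV z z' = LgV z z' := funext fun u => (PVS.LgV_eq z z' u).symm

theorem spc_LV (hz : Lz z) (hz' : Lz z') : Spc (PV.LV z z') := by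
  rw [LV_LgV]
  exact spc_LgV hz hz'

/-- no anti-leg at `z' = 0` beyond the range -/
theorem lz_zero : Lz (0 : ℂ) := by
  have hl := Bd.l_pos
  constructor <;> rw [zero_re] <;> linarith

/-! ## the force -/

theorem lamU_LgV (hz : Lz z) (hz' : Lz z') {u : ℂ} (hu : u.re ∈ KW) :
    lamUG (LgV z z') u = lamU z u - lamU z' u := by
  have h1 := ((spc_Lg hz).diff u hu).hasDerivAt
  have h2 := ((spc_Lg hz').diff u hu).hasDerivAt
  have n1 := (spc_Lg hz).ne u hu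
  have n2 := (spc_Lg hz').ne u hu
  have e : deriv (LgV z z') u = _ := (h1.div h2 n2).deriv
  unfold lamUG lamU
  rw [e]
  unfold PVS.LgV
  field_simp

theorem KI_KW {k : Option O3} {r : ℝ} (hr : r ∈ KI k) : r ∈ KW := KO_KW (KI_sub hr)

theorem lamK_LgV (hz : Lz z) (hz' : Lz z') {s : Bool} {k : Option O3} {u : ℂ} (hu : u.re ∈ KI k) :
    PBQ1.lamK z (s, k) u - PBQ1.lamK z' (s, k) u = lamKG (LgV z z') k u := by
  rw [lamK_eq hz hu, lamK_eq hz' hu]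
  have a1 := lamU_LgV hz hz' (KI_KW hu)
  have a2 : ∀ k' : O3, k = some k' → k' ≠ .L →
      lamUG (LgV z z') (u - l) = lamU z (u - l) - lamU z' (u - l) := by
    intro k' hk hk'
    subst hk
    refine lamU_LgV hz hz' ?_
    rw [re_sub_l]
    exact KO_KW' hk' (KI_sub hu)
  rcases k with _ | (_ | _ | _)
  · exact a1.symm
  · exact a1.symm
  · have := a2 .S rfl (by decide)
    show lamU z u + lamU z (u - l) - (lamU z' u + lamU z' (u - l)) =
      lamUG (LgV z z') u + lamUG (LgV z z') (u - l)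
    rw [a1, this]
    ring
  · have := a2 .T rfl (by decide)
    show lamU z u + lamU z (u - l) - (lamU z' u + lamU z' (u - l)) =
      lamUG (LgV z z') u + lamUG (LgV z z') (u - l)
    rw [a1, this]
    ring

/-! ## the family -/

/-- the family of the one body functions, rows `η i, 0^a` -/
def ZRV (c : Bool → ℂ) (b : ℝ) (a : ℕ) (z z' : ℂ) (η0 : ℝ) (v : Fin 2 → ℂ) (η : ℝ) : Stt :=
  ZRG c b a (LgV z z') η0 v η

/-- derivative in the height of the row -/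
def ZdRV (c : Bool → ℂ) (b : ℝ) (a : ℕ) (z z' : ℂ) (η0 : ℝ) (v : Fin 2 → ℂ) (η : ℝ) : Stt :=
  ZdRG c b a (LgV z z') η0 v η

/-- derivative in the position -/
def ZpRV (c : Bool → ℂ) (b : ℝ) (a : ℕ) (z z' : ℂ) (η0 : ℝ) (v : Fin 2 → ℂ) : Stt :=
  ZpRG c b a (LgV z z') η0 v

/-- the literal one body functions -/
theorem ZRV_lit (c : Bool → ℂ) (b : ℝ) (a : ℕ) (z z' : ℂ) (η0 : ℝ) (v : Fin 2 → ℂ) (η : ℝ) :
    ZRV c b a z z' η0 v η = fun s k u =>
      XX (c s) b (rwx a (η : ℂ)) (rwx a (η : ℂ)) (gP b [vx η0 v (η : ℂ) 0, vx η0 v (η : ℂ) 1])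
        (gP (4 / 3) []) (LgV z z') (fun w => LgV z z' w * LgV z z' (w - l)) k u := rfl

/-- the form with 96's `LV` -/
theorem ZRV_ZV (b : ℝ) (a : ℕ) (z z' : ℂ) (η0 : ℝ) (v : Fin 2 → ℂ) (η : ℝ) :
    ZRV (fun _ => Leg.cc (a + 1)) b a z z' η0 v η =
      PV.ZV b (rwx a (η : ℂ)) [vx η0 v (η : ℂ) 0, vx η0 v (η : ℂ) 1] [] z z' := by
  unfold PV.ZV
  rw [LV_LgV]
  rfl

theorem rwx_mu1 (a : ℕ) (θ : ℂ) : rwx a θ = PBL.mu1 a (θ * I) := rfl

/-- at the centre it is 17's `ZLV` -/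
theorem ZRV_ZLV (c : Bool → ℂ) (b : ℝ) (a : ℕ) (z z' : ℂ) (η0 : ℝ) (v : Fin 2 → ℂ) :
    ZRV c b a z z' η0 v η0 = PVZ.ZLV c a b ((η0 : ℂ) * I) z z' := by
  have h : vx η0 v (η0 : ℂ) = PBFar.wE := vx_at η0 v
  funext s k u
  rw [ZRV_lit, h]
  rfl

/-- **`ZFam` on the final lines**, one constant for all parameters `P` and all `n` -/
theorem exists_zfam_PV (c : Bool → ℂ) (a : ℕ) (η0 : ℝ) (v : Fin 2 → ℂ) {b : ℝ} (hb : 0 < b)
    (hb' : b ≤ 4 / 3) (hz : Lz z) (hz' : Lz z') : ∃ D : ℝ, 0 ≤ D ∧ ∀ P : NUO.Par,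
    NUGC.ParC P → ∀ n : ℕ,
    ZFam (3 / 5 * l) n ⟨NUP1S.lX P, NUP1S.lY P⟩ (2 * b) D (rad v / 2) η0 (ZRV c b a z z' η0 v)
      (ZdRV c b a z z' η0 v) (ZpRV c b a z z' η0 v) :=
  exists_zfam_PG c a η0 v hb hb' (spc_LgV hz hz')

/-- **the cut term on the lines of all words** -/
theorem zcut_KV (c : Bool → ℂ) {b : ℝ} {a : ℕ} (hb1 : 1 ≤ b) (hb' : b ≤ 4 / 3) (hz : Lz z)
    (hz' : Lz z') (η0 : ℝ) (ξe : ℝ → ℂ) {α : ℝ} (hα : 3 / 5 * l ≤ α) (hα' : α ≤ 9 / 10 * l)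
    {L : PBI.Lns} (hL : LnH L.X L.Y) (n : ℕ) :
    PBI.AllW α n n L fun c' x => ∀ i, ∀ t : ℝ,
      PBI.Zcut (ZRV c b a z z' η0 (PBFar.vI b a ((η0 : ℂ) * I) I ξe) η0)
        (ZdRV c b a z z' η0 (PBFar.vI b a ((η0 : ℂ) * I) I ξe) η0)
        (ZpRV c b a z z' η0 (PBFar.vI b a ((η0 : ℂ) * I) I ξe))
        (PBQ1.xiK (rwx a (η0 : ℂ)) 0) (PBQ1.krK (rwx a (η0 : ℂ))) (PBQ1.r1K (rwx a (η0 : ℂ)) 0)
        (fun b u => PBQ1.lamK z b u - PBQ1.lamK z' b u) (c' i).1 (c' i).2 (NUP1.vl (x i) t) =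
      PBC.ZcX (c (c' i).1) (rwx a (η0 : ℂ)) b a ((η0 : ℂ) * I) I ξe
        (PBForce.xiR (rwx a (η0 : ℂ)) 0) (LgV z z')
        (fun w => LgV z z' w * LgV z z' (w - l)) (c' i).2 (NUP1.vl (x i) t) := by
  intro p p' k k' h1 h2 i t
  have hi := all_KI hα hα' hL n n k k' i
  rw [show L.all α n n k k' i = (NUP1.vl (L.all α n n k k' i) t).re from
    (NUP1.re_vl _ _).symm] at hi
  exact zcut_eqG c hb1 hb' (spc_LgV hz hz') η0 ξe (PBI.cl n n k k' i).1 hi rfl (fun o => rfl) rfl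
    rfl (lamK_LgV hz hz' hi)

/-- the same with 17's `ZcLV` -/
theorem zcut_LV (c : Bool → ℂ) {b : ℝ} {a : ℕ} (hb1 : 1 ≤ b) (hb' : b ≤ 4 / 3) (hz : Lz z)
    (hz' : Lz z') (η0 : ℝ) {α : ℝ} (hα : 3 / 5 * l ≤ α) (hα' : α ≤ 9 / 10 * l)
    {L : PBI.Lns} (hL : LnH L.X L.Y) (n : ℕ) :
    PBI.AllW α n n L fun c' x => ∀ i, ∀ t : ℝ,
      PBI.Zcut (ZRV c b a z z' η0 (PBFar.vI b a ((η0 : ℂ) * I) I (PBFar.xe a η0)) η0)
        (ZdRV c b a z z' η0 (PBFar.vI b a ((η0 : ℂ) * I) I (PBFar.xe a η0)) η0)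
        (ZpRV c b a z z' η0 (PBFar.vI b a ((η0 : ℂ) * I) I (PBFar.xe a η0)))
        (PBQ1.xiK (rwx a (η0 : ℂ)) 0) (PBQ1.krK (rwx a (η0 : ℂ))) (PBQ1.r1K (rwx a (η0 : ℂ)) 0)
        (fun b u => PBQ1.lamK z b u - PBQ1.lamK z' b u) (c' i).1 (c' i).2 (NUP1.vl (x i) t) =
      PVZ.ZcLV c a b η0 z z' (PBForce.xiR (PBFar.rwx a η0) 0) (c' i).1 (c' i).2
        (NUP1.vl (x i) t) :=
  zcut_KV c hb1 hb' hz hz' η0 (PBFar.xe a η0) hα hα' hL n

end PVZF

end
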