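import Pool.Agent.PB.ZFamK
import Pool.Agent.PB.CutAll
import Pool.Agent.PV.Xv
import Pool.Agent.PV.ZcV
import Pool.Agent.PV.FFamV

/-!
# Plan V: the family of one body functions, legs at `z`, anti-legs at `z'`: product form (helper17)

* `aZ z' k` : the factor of the anti-legs on a kind (it does not move), `aZ'` its derivative on `KI`;
* `ZRV`, `ZdRV`, `ZpRV` : plan B's family times `aZ`; **`exists_zfamV_P`** : `ZFam` on the final lines;
* `ZRV_V` : at the point of the derivative the family is `ZLV`;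
* **`zcut_KV`** : the cut term is `ZcLV` on the lines of all words, field `xiR x 0`, forces
  `krK x`, `r1K x 0`, `lamV z z'`.
-/

set_option autoImplicit false
set_option linter.unusedVariables false
set_option linter.unusedSectionVars false

noncomputable section

open Complex MeasureTheory Filter Topology Finset

namespace PVZ

open NUP1 NUP1.Bd NURow
open NUP1S (O3 ob4)
open PBX (XX gP Lg Lg_diff Lg_meas Lg_gr Bdd_of_Gr)
open PBZF (ZR ZdR ZpR KO KI Lz KI_sub KI_ball KI_nhd rad rad_pos all_KI lamU)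
open PBI (Stt ZFam Zcut AllW ZBd Lns)
open PVS (LgV LgV_eq Lg_inv)
open PV (Ga lamV)

/-! ## the factor of the anti-legs -/

/-- the factor of the anti-legs on a kind -/
def aZ (z' : ℂ) (k : Option O3) (u : ℂ) : ℂ := Bd.one (Ga z') (ob4 k) u

open scoped Classical in
/-- its derivative on the inner strips -/
def aZ' (z' : ℂ) (k : Option O3) (u : ℂ) : ℂ := if u.re ∈ KI k then deriv (aZ z' k) u else 0

theorem Ga_eq (z' u : ℂ) : Ga z' u = (Lg z' z' u)⁻¹ := (Lg_inv z' z' u).symm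

theorem Ga_meas (z' : ℂ) : Measurable (Ga z') := Lg_meas _ _

theorem aZ_meas (z' : ℂ) (k : Option O3) : Measurable (aZ z' k) := by
  rcases k with _ | (_ | _ | _)
  · exact Ga_meas z'
  · exact Ga_meas z'
  · exact (Ga_meas z').mul ((Ga_meas z').comp (measurable_id.sub_const _))
  · exact (Ga_meas z').mul ((Ga_meas z').comp (measurable_id.sub_const _))

theorem aZ'_meas (z' : ℂ) (k : Option O3) : Measurable (aZ' z' k) := by
  unfold aZ'
  exact Measurable.ite (PBZF.meas_KI k) (measurable_deriv _) measurable_const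

theorem Ga_pole {z' : ℂ} (hz' : |z'.re| ≤ l / 2) {r : ℝ} (h1 : -(12 / 5) * l ≤ r) (h2 : r ≤ l) :
    Real.sin ((z' + 3 * (l : ℂ)).re - r + 2 * l) ≠ 0 := by
  have hl := Bd.l_pos
  have h8 : 8 * l = Real.pi := by unfold l; ring
  obtain ⟨z1, z2⟩ := abs_le.1 hz'
  rw [PV.add3_re]
  exact (Real.sin_pos_of_pos_of_lt_pi (by linarith) (by linarith)).ne'

theorem Ga_diffAt {z' : ℂ} (hz' : |z'.re| ≤ l / 2) {u : ℂ} (h1 : -(12 / 5) * l ≤ u.re)
    (h2 : u.re ≤ l) : DifferentiableAt ℂ (Ga z') u :=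
  Lg_diff (Ga_pole hz' h1 h2)

theorem Ga_bdO {z' : ℂ} (hz' : |z'.re| ≤ l / 2) :
    ∃ D : ℝ, 0 ≤ D ∧ ∀ u : ℂ, -(12 / 5) * l ≤ u.re → u.re ≤ l → ‖Ga z' u‖ ≤ D := by
  have h := Bdd_of_Gr (K := Set.Icc (-(12 / 5) * l) l) (f := Ga z') isCompact_Icc
    (α := l) (β := -(12 / 5) * l) (s := 0) (fun r hr => hr) (Lg_gr _ _ _ _)
    (fun u hu => (Ga_diffAt hz' hu.1 hu.2).continuousAt)
  obtain ⟨C, hC, H⟩ := h
  refine ⟨C, hC, fun u h1 h2 => (H u ⟨h1, h2⟩).trans (le_of_eq ?_)⟩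
  rw [zero_mul, Real.exp_zero, mul_one]

theorem KO_range {k : Option O3} {r : ℝ} (h : r ∈ KO k) : -(12 / 5) * l ≤ r ∧ r ≤ l := by
  have hl := Bd.l_pos
  rcases k with _ | (_ | _ | _)
  all_goals
    obtain ⟨h1, h2⟩ := h
    constructor <;> linarith

theorem KO_range' {k : O3} (hk : k ≠ .L) {r : ℝ} (h : r ∈ KO (some k)) :
    -(12 / 5) * l ≤ r - l ∧ r - l ≤ l := by
  have hl := Bd.l_pos
  cases k
  · exact absurd rfl hk
  all_goals
    obtain ⟨h1, h2⟩ := h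
    constructor <;> linarith

theorem aZ_diffAt {z' : ℂ} (hz' : |z'.re| ≤ l / 2) {k : Option O3} {u : ℂ} (hu : u.re ∈ KO k) :
    DifferentiableAt ℂ (aZ z' k) u := by
  obtain ⟨h1, h2⟩ := KO_range hu
  have d1 := Ga_diffAt hz' h1 h2
  have d2 : ∀ k' : O3, k = some k' → k' ≠ .L → DifferentiableAt ℂ (fun w => Ga z' (w - l)) u := by
    intro k' hk hk'
    subst hk
    obtain ⟨h3, h4⟩ := KO_range' hk' hu
    have d : DifferentiableAt ℂ (Ga z') (u - l) :=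
      Ga_diffAt hz' (by rw [PBZF.re_sub_l]; exact h3) (by rw [PBZF.re_sub_l]; exact h4)
    exact DifferentiableAt.comp (f := fun w : ℂ => w - l) u d (by fun_prop)
  rcases k with _ | (_ | _ | _)
  · exact d1
  · exact d1
  · exact d1.mul (d2 .S rfl (by decide))
  · exact d1.mul (d2 .T rfl (by decide))

/-- uniform bound on the outer strips -/
theorem aZ_bd {z' : ℂ} (hz' : |z'.re| ≤ l / 2) :
    ∃ D : ℝ, 0 ≤ D ∧ ∀ (k : Option O3) (u : ℂ), u.re ∈ KO k → ‖aZ z' k u‖ ≤ D := by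
  obtain ⟨C, hC, H⟩ := Ga_bdO hz'
  refine ⟨C + C * C, by positivity, fun k u hu => ?_⟩
  obtain ⟨h1, h2⟩ := KO_range hu
  have b1 := H u h1 h2
  have b2 : ∀ k' : O3, k = some k' → k' ≠ .L → ‖Ga z' (u - l)‖ ≤ C := by
    intro k' hk hk'
    subst hk
    obtain ⟨h3, h4⟩ := KO_range' hk' hu
    exact H _ (by rw [PBZF.re_sub_l]; exact h3) (by rw [PBZF.re_sub_l]; exact h4)
  have hCC : 0 ≤ C * C := by positivity
  rcases k with _ | (_ | _ | _)
  · exact b1.trans (by linarith)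
  · exact b1.trans (by linarith)
  · show ‖Ga z' u * Ga z' (u - l)‖ ≤ _
    rw [norm_mul]
    have := mul_le_mul b1 (b2 .S rfl (by decide)) (norm_nonneg _) hC
    linarith
  · show ‖Ga z' u * Ga z' (u - l)‖ ≤ _
    rw [norm_mul]
    have := mul_le_mul b1 (b2 .T rfl (by decide)) (norm_nonneg _) hC
    linarith

theorem aZ_hasDeriv {z' : ℂ} (hz' : |z'.re| ≤ l / 2) {k : Option O3} {u : ℂ} (hu : u.re ∈ KI k) :
    HasDerivAt (aZ z' k) (aZ' z' k u) u := by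
  unfold aZ'
  rw [if_pos hu]
  exact (aZ_diffAt hz' (KI_sub hu)).hasDerivAt

theorem aZ'_bd {z' : ℂ} (hz' : |z'.re| ≤ l / 2) {D : ℝ}
    (h : ∀ (k : Option O3) (u : ℂ), u.re ∈ KO k → ‖aZ z' k u‖ ≤ D) {k : Option O3} {u : ℂ}
    (hu : u.re ∈ KI k) : ‖aZ' z' k u‖ ≤ 20 / l * D := by
  have hl := Bd.l_pos
  have hr2 : 0 < l / 20 := by positivity
  unfold aZ'
  rw [if_pos hu]
  have hin : ∀ w ∈ Metric.closedBall u (l / 20), w.re ∈ KO k := fun w hw => by
    rw [mem_closedBall_iff_norm] at hw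
    refine KI_ball hu ?_
    rw [← sub_re]
    exact (abs_re_le_norm _).trans hw
  have hd : DiffContOnCl ℂ (aZ z' k) (Metric.ball u (l / 20)) := by
    refine DifferentiableOn.diffContOnCl ?_
    rw [closure_ball _ hr2.ne']
    exact fun w hw => (aZ_diffAt hz' (hin w hw)).differentiableWithinAt
  have := Complex.norm_deriv_le_of_forall_mem_sphere_norm_le hr2 hd (C := D) fun w hw =>
    h k w (hin w (Metric.sphere_subset_closedBall hw))
  refine this.trans (le_of_eq ?_)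
  field_simp

/-- **the force of the anti-legs** -/
theorem aZ'_eq {z' : ℂ} (hz' : |z'.re| ≤ l / 2) {k : Option O3} {u : ℂ} (hu : u.re ∈ KI k) :
    I * aZ' z' k u = -(PBZF.lamK z' k u * aZ z' k u) := by
  have hl := Bd.l_pos
  have hz : Lz z' := ⟨by linarith [(abs_le.1 hz').1], by linarith [(abs_le.1 hz').2]⟩
  have hh := aZ_hasDeriv hz' hu
  have base : ∀ w : ℂ, -(47 / 20) * l ≤ w.re → w.re ≤ 19 / 20 * l →
      HasDerivAt (Ga z') (I * (lamU z' w * Ga z' w)) w := by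
    intro w h1 h2
    obtain ⟨hne, hd⟩ := PBZF.Lg_ne hz h1 h2
    have h3 : HasDerivAt (Lg z' z') (deriv (Lg z' z') w) w := (Lg_diff hd).hasDerivAt
    have h4 := h3.inv hne
    have e : (Lg z' z')⁻¹ = Ga z' := by
      funext u
      rw [Pi.inv_apply, Ga_eq]
    rw [e] at h4
    refine h4.congr_deriv ?_
    rw [Ga_eq]
    unfold lamU
    field_simp
    linear_combination (-deriv (Lg z' z') w) * I_sq
  obtain ⟨h1, h2⟩ := PBZF.KI_range hu
  have a1 := base u h1 h2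
  have a2 : ∀ k' : O3, k = some k' → k' ≠ .L → HasDerivAt (fun w => Ga z' (w - l))
      (I * (lamU z' (u - l) * Ga z' (u - l))) u := by
    intro k' hk hk'
    subst hk
    obtain ⟨h3, h4⟩ := PBZF.KI_range' hk' hu
    have hb := base (u - l) h3 h4
    have hc : HasDerivAt (fun w : ℂ => w - l) 1 u := (hasDerivAt_id u).sub_const _
    exact (hb.comp u hc).congr_deriv (mul_one _)
  have key : ∀ e : ℂ, HasDerivAt (aZ z' k) (I * e) u → I * aZ' z' k u = -e := by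
    intro e he
    rw [hh.unique he, ← mul_assoc, I_mul_I]
    ring
  rcases k with _ | (_ | _ | _)
  · exact key _ a1
  · exact key _ a1
  · refine key _ ((a1.mul (a2 .S rfl (by decide))).congr_deriv ?_)
    show _ = I * ((lamU z' u + lamU z' (u - l)) * (Ga z' u * Ga z' (u - l)))
    ring
  · refine key _ ((a1.mul (a2 .T rfl (by decide))).congr_deriv ?_)
    show _ = I * ((lamU z' u + lamU z' (u - l)) * (Ga z' u * Ga z' (u - l)))
    ring

/-! ## a family times a factor which does not move -/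

/-- **`ZFam` times a fixed factor** -/
theorem zfam_mul {α : ℝ} {n : ℕ} {L : Lns} {κ D r η0 : ℝ} {Z Zd : ℝ → Stt} {Z' : Stt}
    (h : ZFam α n L κ D r η0 Z Zd Z') {A A' : Option O3 → ℂ → ℂ} {D1 : ℝ} (hD1 : 0 ≤ D1)
    (hA : ∀ k, Measurable (A k)) (hA' : ∀ k, Measurable (A' k))
    (b0 : AllW α n n L fun c x => ∀ i, ∀ t : ℝ, ‖A (c i).2 (vl (x i) t)‖ ≤ D1)
    (b1 : AllW α n n L fun c x => ∀ i, ∀ t : ℝ, ‖A' (c i).2 (vl (x i) t)‖ ≤ D1)
    (hd : AllW α n n L fun c x => ∀ i, ∀ t : ℝ,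
      HasDerivAt (A (c i).2) (A' (c i).2 (vl (x i) t)) (vl (x i) t)) :
    ZFam α n L κ (D * D1 + D * D1) r η0 (fun η s k u => Z η s k u * A k u)
      (fun η s k u => Zd η s k u * A k u)
      (fun s k u => Z' s k u * A k u + Z η0 s k u * A' k u) := by
  have hDD : 0 ≤ D * D1 := mul_nonneg h.hD hD1
  have up : ∀ {f g : ℂ} {e : ℝ}, 0 ≤ e → ‖f‖ ≤ D * e → ‖g‖ ≤ D1 → ‖f * g‖ ≤ D * D1 * e := by
    intro f g e he hf hg
    rw [norm_mul]
    calc ‖f‖ * ‖g‖ ≤ D * e * D1 := mul_le_mul hf hg (norm_nonneg _) (mul_nonneg h.hD he)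
      _ = D * D1 * e := by ring
  have up2 : ∀ {f g : ℂ} {e : ℝ}, 0 ≤ e → ‖f‖ ≤ D * e → ‖g‖ ≤ D1 →
      ‖f * g‖ ≤ (D * D1 + D * D1) * e := by
    intro f g e he hf hg
    refine (up he hf hg).trans (mul_le_mul_of_nonneg_right (by linarith) he)
  have h0 : η0 ∈ Metric.ball η0 r := Metric.mem_ball_self h.hr
  exact
    { hκ := h.hκ
      hr := h.hr
      hD := by positivity
      hok := h.hok
      hm := fun η s k => (h.hm η s k).mul (hA k)
      hmd := fun η s k => (h.hmd η s k).mul (hA k)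
      hm' := fun s k => ((h.hm' s k).mul (hA k)).add ((h.hm η0 s k).mul (hA' k))
      hZ := fun η hη p p' k k' h1 h2 i t =>
        up2 (Real.exp_pos _).le (h.hZ η hη p p' k k' h1 h2 i t) (b0 p p' k k' h1 h2 i t)
      hZd := fun η hη p p' k k' h1 h2 i t =>
        up2 (Real.exp_pos _).le (h.hZd η hη p p' k k' h1 h2 i t) (b0 p p' k k' h1 h2 i t)
      hZ' := fun p p' k k' h1 h2 i t => by
        have e1 := up (Real.exp_pos _).le (h.hZ' p p' k k' h1 h2 i t) (b0 p p' k k' h1 h2 i t)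
        have e2 := up (Real.exp_pos _).le (h.hZ η0 h0 p p' k k' h1 h2 i t)
          (b1 p p' k k' h1 h2 i t)
        refine (norm_add_le _ _).trans ?_
        rw [add_mul]
        exact add_le_add e1 e2
      hd := fun η hη p p' k k' h1 h2 i t => (h.hd η hη p p' k k' h1 h2 i t).mul_const _
      hd' := fun p p' k k' h1 h2 i t =>
        (h.hd' p p' k k' h1 h2 i t).mul (hd p p' k k' h1 h2 i t) }

/-! ## the family -/

/-- the one body functions, legs at `z`, anti-legs at `z'` -/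
def ZRV (c : Bool → ℂ) (b : ℝ) (a : ℕ) (z z' : ℂ) (η0 : ℝ) (v : Fin 2 → ℂ) (η : ℝ) : Stt :=
  fun s k u => ZR c b a z η0 v η s k u * aZ z' k u

/-- derivative in the height of the row -/
def ZdRV (c : Bool → ℂ) (b : ℝ) (a : ℕ) (z z' : ℂ) (η0 : ℝ) (v : Fin 2 → ℂ) (η : ℝ) : Stt :=
  fun s k u => ZdR c b a z η0 v η s k u * aZ z' k u

/-- derivative in the position -/
def ZpRV (c : Bool → ℂ) (b : ℝ) (a : ℕ) (z z' : ℂ) (η0 : ℝ) (v : Fin 2 → ℂ) : Stt :=
  fun s k u => ZpR c b a z η0 v s k u * aZ z' k u + ZR c b a z η0 v η0 s k u * aZ' z' k u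

/-- **`ZFam` on the final lines**, one constant for all parameters `P` and all `n` -/
theorem exists_zfamV_P (c : Bool → ℂ) {b : ℝ} (a : ℕ) {z z' : ℂ} (η0 : ℝ) (v : Fin 2 → ℂ)
    (hb : 0 < b) (hb' : b ≤ 4 / 3) (hz : Lz z) (hz' : |z'.re| ≤ l / 2) : ∃ D : ℝ, 0 ≤ D ∧
    ∀ P : NUO.Par, NUGC.ParC P → ∀ n : ℕ,
    ZFam (3 / 5 * l) n ⟨NUP1S.lX P, NUP1S.lY P⟩ (2 * b) D (rad v / 2) η0 (ZRV c b a z z' η0 v)
      (ZdRV c b a z z' η0 v) (ZpRV c b a z z' η0 v) := by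
  have hl := Bd.l_pos
  obtain ⟨D, hD, h⟩ := PBZF.exists_zfam_P c a η0 v hb hb' hz
  obtain ⟨D1, hD1, h1⟩ := aZ_bd hz'
  have hq : 0 ≤ 20 / l * D1 := by positivity
  refine ⟨D * (D1 + 20 / l * D1) + D * (D1 + 20 / l * D1), by positivity, fun P hP n => ?_⟩
  have hL : LnH (NUP1S.lX P) (NUP1S.lY P) := NURow.LnH_P hP.goodP hP.j1 hP.j2 fun r => by
    have h1 := hP.e2 r
    have h2 := hP.d0 r
    linarith
  have hKI : AllW (3 / 5 * l) n n ⟨NUP1S.lX P, NUP1S.lY P⟩ fun c x => ∀ i, ∀ t : ℝ,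
      (vl (x i) t).re ∈ KI (c i).2 := by
    intro p p' k k' _ _ i t
    have hi := all_KI (α := 3 / 5 * l) le_rfl (by linarith) (L := ⟨NUP1S.lX P, NUP1S.lY P⟩) hL n n
      k k' i
    rwa [re_vl]
  exact zfam_mul (h P hP n) (D1 := D1 + 20 / l * D1) (by positivity) (aZ_meas z') (aZ'_meas z')
    (fun p p' k k' q1 q2 i t => (h1 _ _ (KI_sub (hKI p p' k k' q1 q2 i t))).trans (by linarith))
    (fun p p' k k' q1 q2 i t => (aZ'_bd hz' h1 (hKI p p' k k' q1 q2 i t)).trans (by linarith))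
    (fun p p' k k' q1 q2 i t => aZ_hasDeriv hz' (hKI p p' k k' q1 q2 i t))

/-! ## literal forms -/

/-- **at the point of the derivative** -/
theorem ZRV_V (cc : Bool → ℂ) (b : ℝ) (k : ℕ) (z z' : ℂ) (η0 : ℝ) (v : Fin 2 → ℂ) :
    ZRV cc b k z z' η0 v η0 = ZLV cc k b ((η0 : ℂ) * I) z z' := by
  funext s o u
  unfold ZRV
  rw [PBT.ZR_topG]
  rcases o with _ | (_ | _ | _)
  · show RR (cc s) _ _ u * PBX.ph b _ _ u * Lg z z u * Ga z' u = RR (cc s) _ _ u *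
      PBX.ph b _ _ u * LgV z z' u
    rw [LgV_eq]
    unfold Ga
    ring
  · show RR (cc s) _ _ u * PBX.ph b _ _ u * Lg z z u * Ga z' u = RR (cc s) _ _ u *
      PBX.ph b _ _ u * LgV z z' u
    rw [LgV_eq]
    unfold Ga
    ring
  · show RR (cc s) _ _ u * RR (cc s) _ _ (u - l) * PBX.ph (4 / 3) _ _ u *
      (Lg z z u * Lg z z (u - l)) * (Ga z' u * Ga z' (u - l)) = RR (cc s) _ _ u *
      RR (cc s) _ _ (u - l) * PBX.ph (4 / 3) _ _ u * (LgV z z' u * LgV z z' (u - l))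
    rw [LgV_eq, LgV_eq]
    unfold Ga
    ring
  · show PBX.TT (cc s) b (4 / 3) _ _ _ _ u * (Lg z z u * Lg z z (u - l)) *
      (Ga z' u * Ga z' (u - l)) = PBX.TT (cc s) b (4 / 3) _ _ _ _ u *
      (LgV z z' u * LgV z z' (u - l))
    rw [LgV_eq, LgV_eq]
    unfold Ga
    ring

/-- the cut term times the factor of the anti-legs -/
theorem ZcX_V {m : ℕ} (c : ℂ) (y : Fin m → ℂ) (b : ℝ) (k : ℕ) (x v : ℂ) (ξe : ℝ → ℂ) (X : ℂ → ℂ)
    (z z' : ℂ) (o : Option O3) (u : ℂ) :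
    PBC.ZcX c y b k x v ξe X (Lg z z) (fun w => Lg z z w * Lg z z (w - l)) o u * aZ z' o u =
      PBC.ZcX c y b k x v ξe X (LgV z z') (fun w => LgV z z' w * LgV z z' (w - l)) o u := by
  rcases o with _ | (_ | _ | _)
  · rw [PBC.ZcX_none, PBC.ZcX_none, LgV_eq]
    show _ * Ga z' u = _
    unfold Ga
    ring
  · rw [PBC.ZcX_L, PBC.ZcX_L, LgV_eq]
    show _ * Ga z' u = _
    unfold Ga
    ring
  · rw [PBC.ZcX_S, PBC.ZcX_S]
    show _ * (Ga z' u * Ga z' (u - l)) = _ * (LgV z z' u * LgV z z' (u - l))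
    rw [LgV_eq, LgV_eq]
    unfold Ga
    ring
  · rw [PBC.ZcX_T, PBC.ZcX_T]
    show _ * (Ga z' u * Ga z' (u - l)) = _ * (LgV z z' u * LgV z z' (u - l))
    rw [LgV_eq, LgV_eq]
    unfold Ga
    ring

/-- **the cut term on the lines of all words** -/
theorem zcut_KV (c : Bool → ℂ) {b : ℝ} {a : ℕ} {z z' : ℂ} (hb1 : 1 ≤ b) (hb' : b ≤ 4 / 3)
    (hz : Lz z) (hz' : |z'.re| ≤ l / 2) (η0 : ℝ) (ξe : ℝ → ℂ) {α : ℝ} (hα : 3 / 5 * l ≤ α)
    (hα' : α ≤ 9 / 10 * l) {L : Lns} (hL : LnH L.X L.Y) (n : ℕ) :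
    AllW α n n L fun c' x => ∀ i, ∀ t : ℝ,
      Zcut (ZRV c b a z z' η0 (PBFar.vI b a ((η0 : ℂ) * I) I ξe) η0)
        (ZdRV c b a z z' η0 (PBFar.vI b a ((η0 : ℂ) * I) I ξe) η0)
        (ZpRV c b a z z' η0 (PBFar.vI b a ((η0 : ℂ) * I) I ξe))
        (PBQ1.xiK (PBZF.rwx a (η0 : ℂ)) 0) (PBQ1.krK (PBZF.rwx a (η0 : ℂ)))
        (PBQ1.r1K (PBZF.rwx a (η0 : ℂ)) 0) (lamV z z') (c' i).1 (c' i).2 (vl (x i) t) =
      PBC.ZcX (c (c' i).1) (PBZF.rwx a (η0 : ℂ)) b a ((η0 : ℂ) * I) I ξe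
        (PBForce.xiR (PBZF.rwx a (η0 : ℂ)) 0) (LgV z z')
        (fun w => LgV z z' w * LgV z z' (w - l)) (c' i).2 (vl (x i) t) := by
  have hl := Bd.l_pos
  have hzz : Lz z' := ⟨by linarith [(abs_le.1 hz').1], by linarith [(abs_le.1 hz').2]⟩
  intro p p' k k' h1 h2 i t
  have key := PBZF.zcut_K (z0 := z) (a := a) c hb1 hb' hz η0 ξe hα hα' hL n p p' k k' h1 h2 i t
  have hi := all_KI hα hα' hL n n k k' i
  rw [show L.all α n n k k' i = (vl (L.all α n n k k' i) t).re from (re_vl _ _).symm] at hi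
  rw [← ZcX_V, ← key]
  have e1 := aZ'_eq hz' hi
  have e2 := PBZF.lamK_eq (s := (PBI.cl n n k k' i).1) hzz hi
  rw [← e2] at e1
  unfold Zcut ZRV ZdRV ZpRV lamV
  simp only [Prod.mk.eta] at e1 ⊢
  linear_combination (PBQ1.xiK (PBZF.rwx a (η0 : ℂ)) 0 (PBI.cl n n k k' i)
    (vl (L.all α n n k k' i) t) * ZR c b a z η0 (PBFar.vI b a ((η0 : ℂ) * I) I ξe) η0
      (PBI.cl n n k k' i).1 (PBI.cl n n k k' i).2 (vl (L.all α n n k k' i) t)) * e1

end PVZ

end
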