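import Pool.Agent.PB.ZLegL

/-!
# Plan V, (Z) for a family with split legs (helper61)

`LegFam F ep ix Z0 R cc`: the class functions of the family `F` at the index `ix s t` (rows
`i s, 0, …, 0`, `j + 1` rows; legs at `i t`) are `Z0 j s` with the legs at `i t`, the prefactor is
`R t * cc j s t` with `cc' = (mean of the rows) cc`.

* `LegFam.legH`: the hypotheses of `ZLeg`, from `UB F`;
* **`LegFam.zleg`**: the first and the second derivative in the height of the legs of a function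
  `f j s (i τ) = R τ cc j s τ ∑ FF`, in terms of the statistic of the legs:
  `F[V h0] + (i f' - rV f)` and `F[V h0 V h0] + F[V g2] - (- f'' - 2 rV i f' + (rV² - rV') f)` are
  at most `C j ^ c'`; `rV = R' / R`.
-/

set_option autoImplicit false
set_option linter.unusedSectionVars false
set_option linter.unusedVariables false

noncomputable section

open Complex MeasureTheory Finset Filter Topology
open scoped ENNReal

namespace PVLg

open NUO NUP1S NUP1S.AbC NUGC NUCR PBF PBFunc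
open PBI (Stt)
open NUMF (l P)
open PBU (Fam UB DN BC nu1)
open PBLg

attribute [local instance] NUSea.seaP

variable {ι : Type}

/-! ### the functionals of a family -/

theorem FAN_F {F : Fam ι} {ep e1 J : ℝ} {m : ℕ} {i : ι} (Ψ : Ins) :
    FAN (fun _ => F.Z ep m i) (fun _ => NUSea.O.par0 m) (F.top m) (fun _ => PBU.cr e1 J m)
      (fun _ => PBU.cr' e1 J m) (fun _ => F.Pf m i) (fun _ => Ψ) =
    PBU.FS F ep e1 J m i (fun _ => 1) fun r O a b x => ‖Ψ r O a b x‖ₑ := by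
  unfold FAN PBU.FS
  refine Finset.sum_congr rfl fun n _ => ?_
  rw [one_mul, ← FA_eq_FE]

theorem FS_pIF {F : Fam ι} {ep e1 J : ℝ} {m : ℕ} {i : ι} {D : ℝ≥0∞}
    (h : PBU.FS F ep e1 J m i (fun _ => 1) (fun r O _ _ x =>
      ENNReal.ofReal (((r : ℝ) + 1) ^ 1 * ∑ j, Real.exp (-(2 * |ht (O j)|))) * 1) ≤ D) :
    FAN (fun _ => F.Z ep m i) (fun _ => NUSea.O.par0 m) (F.top m) (fun _ => PBU.cr e1 J m)
      (fun _ => PBU.cr' e1 J m) (fun _ => F.Pf m i) (fun _ => pI) ≤ D := by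
  rw [FAN_F]
  refine (PBU.FS_mono (fun _ => le_rfl) fun r O a b x => ?_).trans h
  rw [enorm_pI, mul_one]
  refine ENNReal.ofReal_le_ofReal ?_
  have h0 : 0 ≤ ∑ j, Real.exp (-(2 * |ht (O j)|)) := Finset.sum_nonneg fun i _ =>
    (Real.exp_pos _).le
  have h1 : (1 : ℝ) ≤ ((r : ℝ) + 1) ^ 1 := by
    have : (0 : ℝ) ≤ r := Nat.cast_nonneg r
    linarith
  exact le_mul_of_one_le_left h0 h1

theorem FS_pI2F {F : Fam ι} {ep e1 J : ℝ} {m : ℕ} {i : ι} {D D' : ℝ} (hD : 0 ≤ D) (hD' : 0 ≤ D')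
    (hZ : ∀ s k, Measurable (F.Z ep m i s k)) (ρ : ℝ → ℂ) {g : ℂ → ℂ} (hg : Measurable g)
    (h : PBU.FS F ep e1 J m i (fun _ => 1) (fun r O _ _ x =>
      ENNReal.ofReal (((r : ℝ) + 1) ^ 1 * ∑ j, Real.exp (-(2 * |ht (O j)|))) * 1) ≤
        ENNReal.ofReal D)
    (h' : PBU.FS F ep e1 J m i (fun _ => 1) (fun r O _ _ x =>
      ENNReal.ofReal (((r : ℝ) + 1) ^ 0 * ∑ j, Real.exp (-(2 * |ht (O j)|))) *
        (‖nu1 ρ (etaC e1 J m m) true g x‖ₑ + ‖nu1 ρ (etaC e1 J m m) false g x‖ₑ)) ≤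
        ENNReal.ofReal D') :
    FAN (fun _ => F.Z ep m i) (fun _ => NUSea.O.par0 m) (F.top m) (fun _ => PBU.cr e1 J m)
      (fun _ => PBU.cr' e1 J m) (fun _ => F.Pf m i) (fun _ => pI2 ρ g (PBU.cr e1 J m)) ≤
      ENNReal.ofReal (D + D') := by
  have hM : ∀ n ≤ F.top m, MC (F.Z ep m i) (NUSea.O.par0 m) (PBU.cr e1 J m)
      (PBU.cr' e1 J m) := fun n _ => MC.of (NUSea.O.rad0_meas _) hZ (MCr_cr e1 J m)
  -- the two parts
  set A : Ins := fun r O a b x => pI r O a b x * ((1 + r : ℝ) : ℂ) with hA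
  set B : Ins := fun r O a b x => pI r O a b x * ((‖vP ρ g (PBU.cr e1 J m) r O a b x‖ : ℝ) : ℂ)
    with hB
  have mA : MIn A := fun r a b => (MIn_pI r a b).mul measurable_const
  have mB : MIn B := fun r a b => (MIn_pI r a b).mul (Complex.measurable_ofReal.comp
    (MIn_vP (Pm := NUSea.O.par0 m) (NUSea.O.rad0_meas m) (MCr_cr e1 J m) ρ hg r a b).norm)
  have m2 : MIn (pI2 ρ g (PBU.cr e1 J m)) :=
    MIn_pI2 (Pm := NUSea.O.par0 m) (NUSea.O.rad0_meas m) (MCr_cr e1 J m) ρ hg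
  have e2 : ∀ (r : ℕ) (O : Fin r → Xo) (a b : ℕ) (x : (Fin a → ℝ) × (Fin b → ℝ)),
      pI2 ρ g (PBU.cr e1 J m) r O a b x = A r O a b x + B r O a b x := by
    intro r O a b x
    simp only [hA, hB]
    unfold pI2
    push_cast
    ring
  have key : FAN (fun _ => F.Z ep m i) (fun _ => NUSea.O.par0 m) (F.top m)
      (fun _ => PBU.cr e1 J m) (fun _ => PBU.cr' e1 J m) (fun _ => F.Pf m i)
      (fun _ => pI2 ρ g (PBU.cr e1 J m)) ≤
      FAN (fun _ => F.Z ep m i) (fun _ => NUSea.O.par0 m) (F.top m)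
        (fun _ => PBU.cr e1 J m) (fun _ => PBU.cr' e1 J m) (fun _ => F.Pf m i) (fun _ => A) +
      FAN (fun _ => F.Z ep m i) (fun _ => NUSea.O.par0 m) (F.top m)
        (fun _ => PBU.cr e1 J m) (fun _ => PBU.cr' e1 J m) (fun _ => F.Pf m i) (fun _ => B) := by
    rw [FAN_eq hM fun n _ => m2, FAN_eq hM fun n _ => mA, FAN_eq hM fun n _ => mB]
    set W : CfN (F.top m) → ℂ := wN (fun _ => F.Z ep m i) (fun _ => NUSea.O.par0 m)
      (F.top m) (fun _ => PBU.cr e1 J m) (fun _ => PBU.cr' e1 J m) (fun _ => F.Pf m i)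
      with hW
    have mW : Measurable W := wN_meas hM
    have mEA : Measurable (evN (fun _ => A) : CfN (F.top m) → ℂ) := evN_meas fun n _ => mA
    have hadd := lintegral_add_left (μ := mN (F.top m))
      (f := fun x => ‖W x‖ₑ * ‖evN (fun _ => A) x‖ₑ) (mW.enorm.mul mEA.enorm)
      fun x => ‖W x‖ₑ * ‖evN (fun _ => B) x‖ₑ
    refine le_trans (lintegral_mono fun x => ?_) (le_of_eq hadd)
    show _ ≤ ‖W x‖ₑ * ‖evN (fun _ => A) x‖ₑ + ‖W x‖ₑ * ‖evN (fun _ => B) x‖ₑ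
    rw [← mul_add]
    refine mul_le_mul' le_rfl ?_
    have e3 : evN (fun _ => pI2 ρ g (PBU.cr e1 J m)) x = evN (fun _ => A) x +
        evN (fun _ => B) x := e2 _ _ _ _ _
    rw [e3]
    exact enorm_add_le _ _
  rw [ENNReal.ofReal_add hD hD']
  refine key.trans (add_le_add ?_ ?_)
  · rw [FAN_F]
    refine (PBU.FS_mono (fun _ => le_rfl) fun r O a b x => ?_).trans h
    simp only [hA]
    rw [enorm_mul, enorm_pI, mul_one, ← ofReal_norm (((1 + r : ℝ) : ℂ)), norm_real,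
      Real.norm_of_nonneg (by positivity), ← ENNReal.ofReal_mul (Finset.sum_nonneg fun i _ =>
        (Real.exp_pos _).le)]
    refine ENNReal.ofReal_le_ofReal (le_of_eq ?_)
    ring
  · rw [FAN_F]
    refine (PBU.FS_mono (fun _ => le_rfl) fun r O a b x => ?_).trans h'
    simp only [hB]
    rw [enorm_mul, enorm_pI, pow_zero, one_mul]
    refine mul_le_mul' le_rfl ?_
    rw [vP_nu1, ← ofReal_norm ((_ : ℝ) : ℂ), norm_real, Real.norm_of_nonneg (norm_nonneg _),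
      ofReal_norm]
    exact enorm_add_le _ _

/-! ### linearity in the normaliser -/

section lin

variable {Z : ℕ → Stt} {Pm : ℕ → NUO.Par} {N : ℕ} {η η' : ℕ → Crs} {c : ℕ → ℂ}

theorem wN_smul (R : ℂ) : wN Z Pm N η η' (fun n => R * c n) = fun x => R * wN Z Pm N η η' c x := by
  funext x
  unfold wN
  ring

theorem FAN_smul (R : ℂ) (Ψ : ℕ → Ins) : FAN Z Pm N η η' (fun n => R * c n) Ψ =
    ‖R‖ₑ * FAN Z Pm N η η' c Ψ := by
  unfold FAN
  rw [Finset.mul_sum]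
  refine Finset.sum_congr rfl fun n _ => ?_
  rw [enorm_mul, mul_assoc]

theorem F_smul {Ω : Type*} [MeasurableSpace Ω] (μ : Measure Ω) (R : ℂ) (w O : Ω → ℂ) :
    F μ (fun x => R * w x) O = R * F μ w O := by
  unfold F
  rw [← integral_const_mul]
  refine integral_congr_ae (Eventually.of_forall fun x => ?_)
  simp only []
  ring

end lin

/-! ### the family -/

/-- a family with split legs -/
structure LegFam (F : Fam ι) (ep : ℝ) (ix : ℝ → ℝ → ι) (Z0 : ℕ → ℝ → Stt) (R : ℝ → ℂ)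
    (cc : ℕ → ℝ → ℝ → ℂ) : Prop where
  top : ∀ m, F.top m = 2 * m
  Z : ∀ j s t, F.Z ep (j + 1) (ix s t) = Zm (Z0 j s) (lgK (I * t))
  mZ : ∀ j s a k, Measurable (Z0 j s a k)
  ok : ∀ j s t, |s| ≤ 1 → |t| ≤ 1 → F.ok (j + 1) (ix s t)
  Pf : ∀ j s t, F.Pf (j + 1) (ix s t) = R t * cc j s t
  R0 : ∀ t, R t ≠ 0
  c0 : ∀ j s t, cc j s t ≠ 0
  cd : ∀ j s τ, HasDerivAt (cc j s) (Mn (rhS (hS j s)) τ * cc j s τ) τ

/-- the weight of the function at rows `i s, 0, …, 0`, legs at `i t` -/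
def wF (F : Fam ι) (ep e1 J : ℝ) (ix : ℝ → ℝ → ι) (j : ℕ) (s t : ℝ) : CfN (2 * (j + 1)) → ℂ :=
  wN (fun _ => F.Z ep (j + 1) (ix s t)) (fun _ => NUSea.O.par0 (j + 1)) (2 * (j + 1))
    (fun _ => PBU.cr e1 J (j + 1)) (fun _ => PBU.cr' e1 J (j + 1)) fun _ => F.Pf (j + 1) (ix s t)

namespace LegFam

variable {F : Fam ι} {p : ℕ} {K ε ep e1 J : ℝ} {ix : ℝ → ℝ → ι} {Z0 : ℕ → ℝ → Stt} {R : ℝ → ℂ}
  {cc : ℕ → ℝ → ℝ → ℂ}

/-- **the hypotheses of `ZLeg`** -/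
theorem legH (h : LegFam F ep ix Z0 R cc) (hU : UB F ep e1 J p K ε) (hK : 1 ≤ K) (he : 0 < e1)
    (he1 : e1 ≤ 1 / 100) (hJ : 0 ≤ J) : ∀ᶠ j : ℕ in atTop, ∀ s : ℝ, |s| ≤ 1 →
    LegH (Z0 j s) (NUSea.O.par0 (j + 1)) (2 * (j + 1)) (fun _ => PBU.cr e1 J (j + 1))
      (fun _ => PBU.cr' e1 J (j + 1)) := by
  have hl := NUMF.l_pos
  obtain ⟨mc, -, Hcur⟩ := curZ_crs he he1 hJ one_pos
  obtain ⟨m0, H0⟩ := hU.mass hK
  filter_upwards [eventually_ge_atTop mc, eventually_ge_atTop m0] with j h1 h2 s hs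
  refine ⟨parZ_goodP _, NUSea.O.rad0_meas _, h.mZ j s, fun _ => MCr_cr e1 J _,
    fun n r O t => ?_, fun n hn => ⟨0, ?_⟩⟩
  · have h3 := (Hcur (j + 1) (by omega) r O).h1 t
    refine h3.trans ?_
    show 1 * l / 4 ≤ l / 2
    linarith
  · have h3 := H0 (j + 1) (by omega) (ix s 0) (h.ok j s 0 hs (by simp))
    have h4 := h3.trans_lt ENNReal.ofReal_lt_top
    unfold PBU.FS at h4
    rw [ENNReal.sum_lt_top] at h4
    have h5 := h4 n (Finset.mem_range.2 (by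
      rw [h.top]
      omega))
    rw [one_mul] at h5
    have hP : ‖F.Pf (j + 1) (ix s 0)‖ₑ ≠ 0 := by
      rw [enorm_ne_zero, h.Pf]
      exact mul_ne_zero (h.R0 0) (h.c0 j s 0)
    have h6 : FE (F.Z ep (j + 1) (ix s 0)) (NUSea.O.par0 (j + 1)) n n
        (PBU.cr e1 J (j + 1)) (PBU.cr' e1 J (j + 1)) (fun _ _ _ _ _ => 1) < ∞ := by
      by_contra h7
      rw [not_lt, top_le_iff] at h7
      rw [h7, ENNReal.mul_top hP] at h5
      exact lt_irrefl _ h5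
    rw [← h.Z, FA_eq_FE]
    simp only [enorm_one]
    exact h6

/-- **(Z)**: the derivatives in the height of the legs -/
theorem zleg (h : LegFam F ep ix Z0 R cc) (hU : UB F ep e1 J p K ε) (hp : 0 < p) (hK : 6 ≤ K)
    (hep : 0 < ep) (he : 0 < e1) (he1 : e1 ≤ 1 / 100) (hJ : 0 ≤ J) {rV rV' : ℝ → ℂ}
    (hR : ∀ τ, HasDerivAt R (rV τ * R τ) τ) (hr : ∀ τ, HasDerivAt rV (rV' τ) τ)
    {f : ℕ → ℝ → ℂ → ℂ} {S : Set ℂ} (hS' : IsOpen S) (hmem : ∀ τ : ℝ, I * (τ : ℂ) ∈ S)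
    (hfd : ∀ j s, |s| ≤ 1 → DifferentiableOn ℂ (f j s) S)
    (hf : ∀ᶠ j : ℕ in atTop, ∀ s τ : ℝ, |s| ≤ 1 → f j s (I * τ) = R τ * (cc j s τ *
      ∑ n ∈ range (2 * (j + 1) + 1), FF (Zm (Z0 j s) (lgK (I * τ))) (NUSea.O.par0 (j + 1)) n n
        (PBU.cr e1 J (j + 1)) (PBU.cr' e1 J (j + 1)) (fun _ _ _ _ _ => 1)))
    {b B c : ℝ} (hB : 0 ≤ B) (hbd : ∀ (j : ℕ) (s t : ℝ), |s| ≤ 1 → |t| ≤ 1 →
      F.bd (j + 1) (ix s t) ≤ B * ((j + 1 : ℕ) : ℝ) ^ b)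
    (hc : b + ε ≤ 3 / 4 * (1 - 4 * e1) + c) :
    ∃ C : ℝ, 0 < C ∧ ∀ᶠ j : ℕ in atTop, ∀ s t : ℝ, |s| ≤ 1 → |t| ≤ 1 →
      ‖PBFunc.F (mN (2 * (j + 1))) (wF F ep e1 J ix j s t)
          (Vp (rhS (hS j s)) (fun _ => PBU.cr e1 J (j + 1)) (PBEI.h0T t)) +
        (I * deriv (f j s) (I * t) - rV t * f j s (I * t))‖ ≤ C * (j : ℝ) ^ c ∧
      ‖PBFunc.F (mN (2 * (j + 1))) (wF F ep e1 J ix j s t) (fun ω =>
          Vp (rhS (hS j s)) (fun _ => PBU.cr e1 J (j + 1)) (PBEI.h0T t) ω *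
            Vp (rhS (hS j s)) (fun _ => PBU.cr e1 J (j + 1)) (PBEI.h0T t) ω) +
        PBFunc.F (mN (2 * (j + 1))) (wF F ep e1 J ix j s t)
          (Vp (rhS (hS j s)) (fun _ => PBU.cr e1 J (j + 1)) (PBEI.g2T t)) -
        (-deriv (deriv (f j s)) (I * t) - 2 * rV t * (I * deriv (f j s) (I * t)) +
          (rV t ^ 2 - rV' t) * f j s (I * t))‖ ≤ C * (j : ℝ) ^ c := by
  have hl := NUMF.l_pos
  obtain ⟨C1, hC1, B1⟩ := leg_b1
  obtain ⟨C2, hC2, B2⟩ := leg_b2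
  obtain ⟨M, hM, hBC⟩ := BC_dls
  obtain ⟨m0, H0⟩ := hU.pin hK (q := 2) (by norm_num) (by norm_num) 1 2 (-(l / 2)) l
    (by linarith) hl
  obtain ⟨m1, H1⟩ := hU.pin hK (q := 2) (by norm_num) (by norm_num) 0 2 (-(l / 2)) l
    (by linarith) hl
  refine ⟨(C1 + C2) * (3 * (1 + M) * ((B + 1) * 2 ^ |c|)), by positivity, ?_⟩
  filter_upwards [h.legH hU (by linarith) he he1 hJ, eventually_ge_atTop m0,
    eventually_ge_atTop m1, hf, eventually_ge_atTop 1] with j hH j0 j1 hfj j3 s t hs ht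
  have H := hH s hs
  have hb : ∀ (n : ℕ) (r : ℕ) (O : Fin r → Xo) (u : ℝ),
      |(fun _ : ℕ => PBU.cr e1 J (j + 1)) n r O u| ≤ l / 2 := H.b
  have hc1 := h.cd j s
  have hf0 : ∀ τ : ℝ, f j s (I * τ) = R τ * T0 (Z0 j s) (NUSea.O.par0 (j + 1)) (2 * (j + 1))
      (fun _ => PBU.cr e1 J (j + 1)) (fun _ => PBU.cr' e1 J (j + 1)) (cc j s) τ := by
    intro τ
    rw [H.T0_eq, hfj s τ hs]
  -- the derivatives
  have hd := hfd j s hs
  have hd' : DifferentiableOn ℂ (deriv (f j s)) S := hd.deriv hS'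
  have d0 : ∀ τ : ℝ, HasDerivAt (fun τ : ℝ => I * (τ : ℂ)) I τ := fun τ => by
    simpa using (Complex.ofRealCLM.hasDerivAt (x := τ)).const_mul I
  have f1 : ∀ τ : ℝ, I * deriv (f j s) (I * τ) = rV τ * f j s (I * τ) +
      R τ * T1 (Z0 j s) (NUSea.O.par0 (j + 1))
      (2 * (j + 1)) (fun _ => PBU.cr e1 J (j + 1)) (fun _ => PBU.cr' e1 J (j + 1))
      (rhS (hS j s)) (cc j s) τ := by
    intro τ
    have a1 := ((hd.differentiableAt (hS'.mem_nhds (hmem τ))).hasDerivAt.comp_of_eq τ (d0 τ) rfl)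
    have a2 := (hR τ).mul (H.d1 (hc1 τ))
    have e : (f j s ∘ fun τ : ℝ => I * (τ : ℂ)) = R * T0 (Z0 j s) (NUSea.O.par0 (j + 1))
        (2 * (j + 1)) (fun _ => PBU.cr e1 J (j + 1)) (fun _ => PBU.cr' e1 J (j + 1))
        (cc j s) := funext hf0
    rw [e] at a1
    have a3 := a1.unique a2
    rw [mul_comm I, a3, hf0 τ]
    ring
  have f2 : R t * T2 (Z0 j s) (NUSea.O.par0 (j + 1))
      (2 * (j + 1)) (fun _ => PBU.cr e1 J (j + 1)) (fun _ => PBU.cr' e1 J (j + 1))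
      (rhS (hS j s)) (cc j s) t = -deriv (deriv (f j s)) (I * t) -
        2 * rV t * (I * deriv (f j s) (I * t)) + (rV t ^ 2 - rV' t) * f j s (I * t) := by
    have a1 := ((hd'.differentiableAt (hS'.mem_nhds (hmem t))).hasDerivAt.comp_of_eq t (d0 t)
      rfl).const_mul I
    have a0 := ((hd.differentiableAt (hS'.mem_nhds (hmem t))).hasDerivAt.comp_of_eq t (d0 t) rfl)
    have a2 := ((hr t).mul a0).add ((hR t).mul (H.d2 (hc1 t) (hasDerivAt_Mn (hS j s) t)))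
    have e : (fun τ : ℝ => I * (deriv (f j s) ∘ fun τ : ℝ => I * (τ : ℂ)) τ) =
        (rV * (f j s ∘ fun τ : ℝ => I * (τ : ℂ))) + (R * T1 (Z0 j s) (NUSea.O.par0 (j + 1))
          (2 * (j + 1)) (fun _ => PBU.cr e1 J (j + 1)) (fun _ => PBU.cr' e1 J (j + 1))
          (rhS (hS j s)) (cc j s)) := funext fun τ => f1 τ
    rw [e] at a1
    have a3 := a1.unique a2
    have a4 := f1 t
    simp only [Function.comp] at a3
    linear_combination -a3 + rV t * a4 + (deriv (deriv (f j s)) (I * t)) * I_mul_I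
  -- the weight
  have hw : wF F ep e1 J ix j s t = fun x => R t * WT (Z0 j s) (NUSea.O.par0 (j + 1))
      (2 * (j + 1)) (fun _ => PBU.cr e1 J (j + 1)) (fun _ => PBU.cr' e1 J (j + 1))
      (cc j s) t x := by
    unfold WT wF
    rw [h.Z, h.Pf, ← wN_smul]
  have v0 : (Vp (rhS (hS j s)) (fun _ => PBU.cr e1 J (j + 1)) (PBEI.h0T t) :
      CfN (2 * (j + 1)) → ℂ) = evN fun n => vP (rhS (hS j s)) (fun z => dl (z - t))
        ((fun _ => PBU.cr e1 J (j + 1)) n) := by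
    rw [← Vp_vP]
    exact Vp_congr hb fun z h1 h2 => h0T_dl h1 h2
  have v1 : (Vp (rhS (hS j s)) (fun _ => PBU.cr e1 J (j + 1)) (PBEI.g2T t) :
      CfN (2 * (j + 1)) → ℂ) = evN fun n => vP (rhS (hS j s)) (fun z => dl2 (z - t))
        ((fun _ => PBU.cr e1 J (j + 1)) n) := by
    rw [← Vp_vP]
    exact Vp_congr hb fun z h1 h2 => g2T_dl h1 h2
  -- the sizes
  have hok := h.ok j s t hs ht
  have hm0 : (0 : ℝ) < ((j + 1 : ℕ) : ℝ) := by positivity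
  set A : ℝ := ((j + 1 : ℕ) : ℝ) ^ (-(3 / 8 * 2 * (1 - 4 * e1))) * ((j + 1 : ℕ) : ℝ) ^ ε *
    ((B + 1) * ((j + 1 : ℕ) : ℝ) ^ b) with hA
  have hA0 : 0 ≤ A := by positivity
  have hbd' : F.bd (j + 1) (ix s t) ≤ (B + 1) * ((j + 1 : ℕ) : ℝ) ^ b := by
    have h1 := hbd j s t hs ht
    have h2 : 0 ≤ ((j + 1 : ℕ) : ℝ) ^ b := by positivity
    linarith
  have G0 := H0 (j + 1) (by omega) (ix s t) hok (rhS (hS j s)) (DN_rhS j s)
    (fun _ => M) (fun _ => hM) (fun _ _ _ z => dl (z - t)) (fun _ _ _ z => dl (z - t))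
    (fun _ _ _ => ⟨hBC t, hBC t⟩) ∅
  have G1 := H1 (j + 1) (by omega) (ix s t) hok (rhS (hS j s)) (DN_rhS j s)
    (fun _ => M) (fun _ => hM) (fun _ _ _ z => dl (z - t)) (fun _ _ _ z => dl (z - t))
    (fun _ _ _ => ⟨hBC t, hBC t⟩) {⟨0, hp⟩}
  simp only [Finset.prod_empty, Finset.prod_singleton] at G0 G1
  have z0 : 3 * ((1 : ℕ).factorial : ℝ) * ((j + 1 : ℕ) : ℝ) ^ (-(3 / 8 * 2 * (1 - 4 * e1))) * 1 *
      ((j + 1 : ℕ) : ℝ) ^ ε * F.bd (j + 1) (ix s t) ≤ 3 * A := by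
    rw [hA, Nat.factorial_one]
    have h1 : 0 ≤ ((j + 1 : ℕ) : ℝ) ^ (-(3 / 8 * 2 * (1 - 4 * e1))) * ((j + 1 : ℕ) : ℝ) ^ ε := by
      positivity
    have h2 := mul_le_mul_of_nonneg_left hbd' h1
    rw [Nat.cast_one]
    linarith
  have z1 : 3 * ((0 : ℕ).factorial : ℝ) * ((j + 1 : ℕ) : ℝ) ^ (-(3 / 8 * 2 * (1 - 4 * e1))) * M *
      ((j + 1 : ℕ) : ℝ) ^ ε * F.bd (j + 1) (ix s t) ≤ 3 * M * A := by
    rw [hA, Nat.factorial_zero]
    have h1 : 0 ≤ M * (((j + 1 : ℕ) : ℝ) ^ (-(3 / 8 * 2 * (1 - 4 * e1))) *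
        ((j + 1 : ℕ) : ℝ) ^ ε) := by
      positivity
    have h2 := mul_le_mul_of_nonneg_left hbd' h1
    rw [Nat.cast_one]
    linarith
  have G0' := G0.trans (ENNReal.ofReal_le_ofReal z0)
  have G1' := G1.trans (ENNReal.ofReal_le_ofReal z1)
  have hZm : ∀ a k, Measurable (F.Z ep (j + 1) (ix s t) a k) := fun a k => by
    rw [h.Z]
    exact (h.mZ j s a k).mul (measurable_lgK _ a k)
  have Q1 := FS_pIF G0'
  have Q2 := FS_pI2F (D := 3 * A) (D' := 3 * M * A) (by positivity) (by positivity) hZm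
    (rhS (hS j s)) (measurable_dls t) G0' G1'
  rw [h.top, h.Z, h.Pf, FAN_smul] at Q1 Q2
  -- the factor of the prefactor
  have hR0 : 0 < ‖R t‖ := norm_pos_iff.2 (h.R0 t)
  have div : ∀ {X : ℝ≥0∞} {D : ℝ}, ‖R t‖ₑ * X ≤ ENNReal.ofReal D →
      X ≤ ENNReal.ofReal (‖R t‖⁻¹ * D) := by
    intro X D hX
    have h1 : ‖R t‖ₑ = ENNReal.ofReal ‖R t‖ := (ofReal_norm _).symm
    have h2 : X = ENNReal.ofReal (‖R t‖⁻¹) * (‖R t‖ₑ * X) := by
      rw [← mul_assoc, h1, ← ENNReal.ofReal_mul (by positivity), inv_mul_cancel₀ hR0.ne',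
        ENNReal.ofReal_one, one_mul]
    rw [h2, ENNReal.ofReal_mul (by positivity)]
    exact mul_le_mul' le_rfl hX
  have Q1' := div Q1
  have Q2' := div Q2
  -- powers
  have hpow : A ≤ (B + 1) * 2 ^ |c| * (j : ℝ) ^ c := by
    have hj : (1 : ℝ) ≤ j := by exact_mod_cast j3
    have hj0 : (0 : ℝ) < j := by linarith
    have hj1 : (1 : ℝ) ≤ ((j + 1 : ℕ) : ℝ) := by
      push_cast
      linarith
    have e2 : ((j + 1 : ℕ) : ℝ) ^ (-(3 / 8 * 2 * (1 - 4 * e1))) * ((j + 1 : ℕ) : ℝ) ^ ε *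
        ((j + 1 : ℕ) : ℝ) ^ b ≤ ((j + 1 : ℕ) : ℝ) ^ c := by
      rw [← Real.rpow_add hm0, ← Real.rpow_add hm0]
      exact Real.rpow_le_rpow_of_exponent_le hj1 (by linarith)
    have e3 : ((j + 1 : ℕ) : ℝ) ^ c ≤ 2 ^ |c| * (j : ℝ) ^ c := by
      have e4 : ((j + 1 : ℕ) : ℝ) = (((j + 1 : ℕ) : ℝ) / j) * j := by
        field_simp
      have q1 : 1 ≤ ((j + 1 : ℕ) : ℝ) / j := by
        rw [le_div_iff₀ hj0]
        push_cast
        linarith
      have q2 : ((j + 1 : ℕ) : ℝ) / j ≤ 2 := by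
        rw [div_le_iff₀ hj0]
        push_cast
        linarith
      rw [e4, Real.mul_rpow (by positivity) hj0.le]
      refine mul_le_mul_of_nonneg_right ?_ (by positivity)
      calc (((j + 1 : ℕ) : ℝ) / j) ^ c ≤ (((j + 1 : ℕ) : ℝ) / j) ^ |c| :=
            Real.rpow_le_rpow_of_exponent_le q1 (le_abs_self c)
        _ ≤ 2 ^ |c| := Real.rpow_le_rpow (by positivity) q2 (abs_nonneg c)
    calc A = (B + 1) * (((j + 1 : ℕ) : ℝ) ^ (-(3 / 8 * 2 * (1 - 4 * e1))) *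
          ((j + 1 : ℕ) : ℝ) ^ ε * ((j + 1 : ℕ) : ℝ) ^ b) := by
            rw [hA]
            ring
      _ ≤ (B + 1) * (2 ^ |c| * (j : ℝ) ^ c) :=
            mul_le_mul_of_nonneg_left (e2.trans e3) (by linarith)
      _ = _ := by ring
  have hjc : 0 ≤ (j : ℝ) ^ c := by positivity
  have hX : 0 ≤ (B + 1) * 2 ^ |c| * (j : ℝ) ^ c := by positivity
  constructor
  · have k := B1 H (rhS (hS j s)) (cc j s) ht (d := ‖R t‖⁻¹ * (3 * A)) (by positivity) Q1'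
    have k2 := mul_le_mul_of_nonneg_left k hR0.le
    rw [← norm_mul, mul_add, ← F_smul, ← hw, ← v0] at k2
    have e1' : R t * T1 (Z0 j s) (NUSea.O.par0 (j + 1)) (2 * (j + 1))
        (fun _ => PBU.cr e1 J (j + 1)) (fun _ => PBU.cr' e1 J (j + 1))
        (rhS (hS j s)) (cc j s) t = I * deriv (f j s) (I * t) - rV t * f j s (I * t) := by
      rw [f1 t]
      ring
    rw [e1'] at k2
    refine k2.trans ?_
    have e5 : ‖R t‖ * (C1 * (‖R t‖⁻¹ * (3 * A))) = C1 * (3 * A) := by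
      field_simp
    rw [e5]
    calc C1 * (3 * A) ≤ C1 * (3 * ((B + 1) * 2 ^ |c| * (j : ℝ) ^ c)) := by gcongr
      _ ≤ ((C1 + C2) * (1 + M)) * (3 * ((B + 1) * 2 ^ |c| * (j : ℝ) ^ c)) := by
          have a2 : C1 ≤ (C1 + C2) * (1 + M) := by nlinarith
          gcongr
      _ = _ := by ring
  · have k := B2 H (rhS (hS j s)) (cc j s) ht (d := ‖R t‖⁻¹ * (3 * A + 3 * M * A))
      (by positivity) Q2'
    have k2 := mul_le_mul_of_nonneg_left k hR0.le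
    rw [← norm_mul, mul_sub, mul_add, ← F_smul, ← F_smul, ← hw, ← v0, ← v1, f2] at k2
    refine k2.trans ?_
    have e5 : ‖R t‖ * (C2 * (‖R t‖⁻¹ * (3 * A + 3 * M * A))) = C2 * (3 * (1 + M) * A) := by
      field_simp
    rw [e5]
    calc C2 * (3 * (1 + M) * A) ≤ C2 * (3 * (1 + M) * ((B + 1) * 2 ^ |c| * (j : ℝ) ^ c)) := by
          gcongr
      _ ≤ (C1 + C2) * (3 * (1 + M) * ((B + 1) * 2 ^ |c| * (j : ℝ) ^ c)) := by
          gcongr
          linarith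
      _ = _ := by ring

end LegFam

end PVLg

end
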