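import Pool.Agent.PV.ZLegV
import Pool.Agent.PV.Xv

/-!
# Plan V, (Z): analyticity near the imaginary axis, the value of the functional (helper61)

* `fVx_eq_nv`, `fVx_dOn`: from the reflection `nv (-z) (-0) (-x) (-x) = nv z 0 x x`, `|Re z| < 7 l / 5`;
* **`zlegV_neg`**: the two derivative lines, from `UB famV` and the reflection;
* **`F_oneV`**: `F[1] = fVx j (i s) (i t)`, from `UB famV`.
-/

set_option autoImplicit false
set_option linter.unusedSectionVars false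
set_option linter.unusedVariables false

noncomputable section

open Complex MeasureTheory Finset Filter Topology
open scoped ENNReal

namespace PVLg

open NUO NUP1S NUP1S.AbC NUGC NUCR PBF PBFunc
open PBI (Stt)
open NUMF (l P)
open PBU (Fam UB DN BC nu1)
open PBLg
open PBX (Lg XX gP DZ Rws)
open PBL (mu1)
open PV (LV ZV AV PfV nv xN fVx famV)

attribute [local instance] NUSea.seaP

/-- the reflection of plan V at `z' = 0` -/
def NegV : Prop := ∀ (m : ℕ) (x : Fin m → ℂ) (z : ℂ), |z.re| < 7 / 5 * NUP1.l → Rws x →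
  nv (-z) (-0) (-x) (-x) = nv z 0 x x

theorem fVx_eq_nv (hneg : NegV) {j : ℕ} {x z : ℂ} (hx : |x.re| ≤ NUP1.l / 2)
    (hz : |z.re| < 7 / 5 * NUP1.l) : fVx j x z = nv z 0 (mu1 j x) (mu1 j x) := by
  have hl := NUP1.Bd.l_pos
  have hR : Rws (mu1 j x) := fun i => by
    unfold PBL.mu1
    refine Fin.cases ?_ (fun k => ?_) i
    · rw [Fin.cons_zero]
      exact hx
    · rw [Fin.cons_succ, Complex.zero_re, abs_zero]
      positivity
  unfold PV.fVx PV.xN
  split_ifs with h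
  · rfl
  · have h1 := hneg (j + 1) (mu1 j x) z hz hR
    rw [neg_zero] at h1
    exact h1

/-- analyticity near the imaginary axis -/
theorem fVx_dOn (hneg : NegV) {j : ℕ} {x : ℂ} (hx : |x.re| ≤ NUP1.l / 2) :
    DifferentiableOn ℂ (fVx j x) {z : ℂ | |z.re| < 7 / 5 * NUP1.l} := by
  have hl := NUP1.Bd.l_pos
  have hR : Rws (mu1 j x) := fun i => by
    unfold PBL.mu1
    refine Fin.cases ?_ (fun k => ?_) i
    · rw [Fin.cons_zero]
      exact hx
    · rw [Fin.cons_succ, Complex.zero_re, abs_zero]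
      positivity
  have h1 := PV.nv_diff (z' := 0) (x := mu1 j x) (y := mu1 j x) (by
    rw [Complex.zero_re, abs_zero]
    positivity) hR hR
  refine (h1.mono fun z hz => ?_).congr fun z hz => fVx_eq_nv hneg hx hz
  obtain ⟨a, b⟩ := abs_lt.1 (show |z.re| < 7 / 5 * NUP1.l from hz)
  exact ⟨by linarith, by linarith⟩

/-- **(Z)**, from the reflection -/
theorem zlegV_neg (hneg : NegV) {ep e1 J K ε c : ℝ} {p : ℕ} (hU : UB famV ep e1 J p K ε)
    (hp : 0 < p) (hK : 6 ≤ K) (hep : 0 < ep) (hep1 : ep ≤ 1 / 100) (he : 0 < e1)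
    (he1 : e1 ≤ 1 / 100) (hJ : 0 ≤ J) (hc : 3 * e1 + ε ≤ c) :
    ∃ C : ℝ, 0 < C ∧ ∀ᶠ j : ℕ in atTop, ∀ s t : ℝ, |s| ≤ 1 → |t| ≤ 1 →
      ‖PBFunc.F (mN (2 * (j + 1))) (wF famV ep e1 J (fun s t => ((I * s, I * t) : ℂ × ℂ)) j s t)
          (Vp (rhS (hS j s)) (fun _ => PBU.cr e1 J (j + 1)) (PBEI.h0T t)) +
        (I * deriv (fun z => fVx j (I * s) z) (I * t) - p0V t * fVx j (I * s) (I * t))‖ ≤
          C * (j : ℝ) ^ c ∧
      ‖PBFunc.F (mN (2 * (j + 1))) (wF famV ep e1 J (fun s t => ((I * s, I * t) : ℂ × ℂ)) j s t)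
          (fun ω => Vp (rhS (hS j s)) (fun _ => PBU.cr e1 J (j + 1)) (PBEI.h0T t) ω *
            Vp (rhS (hS j s)) (fun _ => PBU.cr e1 J (j + 1)) (PBEI.h0T t) ω) +
        PBFunc.F (mN (2 * (j + 1)))
          (wF famV ep e1 J (fun s t => ((I * s, I * t) : ℂ × ℂ)) j s t)
          (Vp (rhS (hS j s)) (fun _ => PBU.cr e1 J (j + 1)) (PBEI.g2T t)) -
        (-deriv (deriv fun z => fVx j (I * s) z) (I * t) -
          2 * p0V t * (I * deriv (fun z => fVx j (I * s) z) (I * t)) +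
          (p0V t ^ 2 - p1V t) * fVx j (I * s) (I * t))‖ ≤ C * (j : ℝ) ^ c := by
  have hl := NUP1.Bd.l_pos
  refine zlegV_of hU hp hK hep hep1 he he1 hJ hc (S := {z : ℂ | |z.re| < 7 / 5 * NUP1.l})
    (isOpen_lt (continuous_abs.comp Complex.continuous_re) continuous_const) (fun τ => ?_)
    fun j s _ => fVx_dOn hneg (x := I * s) (by rw [re_It, abs_zero]; positivity)
  show |(I * (τ : ℂ)).re| < 7 / 5 * NUP1.l
  rw [re_It, abs_zero]
  positivity

/-- **the value of the functional at `1`** -/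
theorem F_oneV {ep e1 J K ε : ℝ} {p : ℕ} (hU : UB famV ep e1 J p K ε) (hK : 1 ≤ K) (hep : 0 < ep)
    (hep1 : ep ≤ 1 / 100) (he : 0 < e1) (he1 : e1 ≤ 1 / 100) (hJ : 0 ≤ J) :
    ∀ᶠ j : ℕ in atTop, ∀ s t : ℝ, |s| ≤ 1 →
      PBFunc.F (mN (2 * (j + 1))) (wF famV ep e1 J (fun s t => ((I * s, I * t) : ℂ × ℂ)) j s t)
        (fun _ => 1) = fVx j (I * s) (I * t) := by
  filter_upwards [(legV ep).legH hU hK he he1 hJ, fVx_FF hep hep1 he he1 hJ] with j hH hf s t hs
  have H := hH s hs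
  have hw : wF famV ep e1 J (fun s t => ((I * s, I * t) : ℂ × ℂ)) j s t = fun x => RV t *
      WT (Z0V (4 / 3 * (1 - ep)) (mu1 j (I * s)) [I, -I] [] 0) (NUSea.O.par0 (j + 1))
        (2 * (j + 1)) (fun _ => PBU.cr e1 J (j + 1)) (fun _ => PBU.cr' e1 J (j + 1))
        (ccV j s) t x := by
    unfold WT wF
    rw [(legV ep).Z, (legV ep).Pf, ← wN_smul]
  rw [hw, F_smul, hf s t]
  congr 1
  exact H.T0_eq t

end PVLg

end
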